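import Pool.Agent.Helper41.MEI.RegS
import Pool.Agent.Helper82.M2.NearR

/-!
# Project MEI (M2): the four-face end

From per-face inequalities `LLs_i + F_i ≤ W_i` and a lower bound of `∑ F_i` to the core statement,
for a set `P` of states `S` (the four violations).
-/

set_option autoImplicit false

namespace Helper78.MEI

open Set Metric MeasureTheory Filter Topology Helper93.MEI Helper80.CW Helper14.CW
open Helper14.MEI2 Pool.Agent.Helper73.MEI Helper82.M2 Helper82.CW Helper41.MEI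
open Helper33.MEI (Wi)
open scoped RealInnerProductSpace

/-- the defect bound of the near points -/
def EpsLe (c : Fin 4 → E3) (X : ℝ) : Prop :=
  ∑ i, ∑ j, (if i = j then 0 else 1 - ‖c i - c j‖ ^ 2) ≤ 2 * X

/-- the core statement on a set `P` of states -/
def CoreP (P : (Fin 4 → ℝ) → Prop) (X κ : ℝ) : Prop :=
  ∀ (K : Set E3) (σ : Measure (E3 × E3)), IsFiniteMeasure σ →
  ∀ a c : Fin 4 → E3, CN K σ a c → EpsLe c X →
    ∀ S : Fin 4 → ℝ, Viol K a S → P S → ∀ i, VM + κ * S i ≤ volume.real K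

theorem CoreP.mono {P Q : (Fin 4 → ℝ) → Prop} {X κ κ' : ℝ} (h : CoreP P X κ) (hκ : κ' ≤ κ)
    (hPQ : ∀ S, Q S → P S) : CoreP Q X κ' := by
  intro K σ hσ a c hC hX S hV hS i
  have h1 := h K σ hσ a c hC hX S hV (hPQ S hS) i
  have h2 := mul_le_mul_of_nonneg_right hκ (hV.nn i)
  linarith

/-- two sets of states cover everything that occurs -/
theorem coreX_of_two {P Q : (Fin 4 → ℝ) → Prop} {X κ : ℝ}
    (hPQ : ∀ (K : Set E3) (σ : Measure (E3 × E3)), IsFiniteMeasure σ →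
      ∀ a c : Fin 4 → E3, CN K σ a c → EpsLe c X → ∀ S : Fin 4 → ℝ, Viol K a S → P S ∨ Q S)
    (h1 : CoreP P X κ) (h2 : CoreP Q X κ) : CoreX X κ := by
  intro K σ hσ a c hC hX S hV i
  rcases hPQ K σ hσ a c hC hX S hV with h | h
  · exact h1 K σ hσ a c hC hX S hV h i
  · exact h2 K σ hσ a c hC hX S hV h i

theorem coreX_of_one {P : (Fin 4 → ℝ) → Prop} {X κ : ℝ}
    (hP : ∀ (K : Set E3) (σ : Measure (E3 × E3)), IsFiniteMeasure σ →
      ∀ a c : Fin 4 → E3, CN K σ a c → EpsLe c X → ∀ S : Fin 4 → ℝ, Viol K a S → P S)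
    (h1 : CoreP P X κ) : CoreX X κ :=
  coreX_of_two (Q := P) (fun K σ hσ a c hC hX S hV => Or.inl (hP K σ hσ a c hC hX S hV)) h1 h1

variable {K : Set E3} {σ : Measure (E3 × E3)} [IsFiniteMeasure σ] {a c : Fin 4 → E3}
  {S F : Fin 4 → ℝ} {κ : ℝ}

/-- **regime II** -/
theorem end_II (hC : CN K σ a c) (hV : Viol K a S) (hκ : 0 ≤ κ)
    (hF : ∀ i, LLs σ a (l2 a) i + F i ≤ Wi a i K σ 3.7)
    (hs : 3.0e-4 + ∑ i, (0.0295 * S i + 0.092 * S i ^ 2 + 0.46 * S i ^ 3)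
      + 3.95 * κ * (∑ i, S i) ≤ ∑ i, F i) (i : Fin 4) : VM + κ * S i ≤ volume.real K := by
  obtain ⟨B, hB⟩ := frames hC.ha
  have h1 := asm2s (B := B) hC.pm hC.ha hC.hp hC.hz hC.hull hB (s := S) hV.nn
    (fun i => (hV.le_ap hC i).trans (by norm_num)) hV.le
  have hi : S i ≤ ∑ j, S j := Finset.single_le_sum (f := S) (fun j _ => hV.nn j)
    (Finset.mem_univ i)
  have h2 := mul_le_mul_of_nonneg_left hi hκ
  rw [Fin.sum_univ_four] at h1 hs
  rw [Fin.sum_univ_four (f := F)] at hs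
  have f0 := hF 0
  have f1 := hF 1
  have f2 := hF 2
  have f3 := hF 3
  linarith

/-- **regime I** -/
theorem end_I (hC : CN K σ a c) (hV : Viol K a S) (hκ : 0 ≤ κ) (hS : ∀ i, S i ≤ 0.002)
    (hF : ∀ i, LLs σ a (l1 a) i + F i ≤ Wi a i K σ 3.92)
    (hs : (0.1126 + 4.17 * κ) * (∑ i, S i) ≤ ∑ i, F i) (i : Fin 4) :
    VM + κ * S i ≤ volume.real K := by
  obtain ⟨B, hB⟩ := frames hC.ha
  have h1 := asm1s (B := B) hC.pm hC.ha hC.hp hC.hz hC.hd hC.hull hB (s := S) hV.nn hS hV.le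
  have hi : S i ≤ ∑ j, S j := Finset.single_le_sum (f := S) (fun j _ => hV.nn j)
    (Finset.mem_univ i)
  have h2 := mul_le_mul_of_nonneg_left hi hκ
  rw [Fin.sum_univ_four] at h1
  rw [Fin.sum_univ_four (f := F)] at hs
  rw [Fin.sum_univ_four (f := S)] at hs h2
  have f0 := hF 0
  have f1 := hF 1
  have f2 := hF 2
  have f3 := hF 3
  linarith

/-- **the four-face end**: per-face inequalities give the core statement on `P` -/
theorem coreP_of_faces {P : (Fin 4 → ℝ) → Prop} {X κ : ℝ} (hκ : 0 ≤ κ)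
    (H2 : ∀ (K : Set E3) (σ : Measure (E3 × E3)), IsFiniteMeasure σ →
      ∀ a c : Fin 4 → E3, CN K σ a c → EpsLe c X → ∀ S : Fin 4 → ℝ, Viol K a S → P S →
      (∃ i, 0.002 < S i) → ∃ F : Fin 4 → ℝ,
        (∀ i, LLs σ a (l2 a) i + F i ≤ Wi a i K σ 3.7) ∧
        3.0e-4 + ∑ i, (0.0295 * S i + 0.092 * S i ^ 2 + 0.46 * S i ^ 3)
          + 3.95 * κ * (∑ i, S i) ≤ ∑ i, F i)
    (H1 : ∀ (K : Set E3) (σ : Measure (E3 × E3)), IsFiniteMeasure σ →
      ∀ a c : Fin 4 → E3, CN K σ a c → EpsLe c X → ∀ S : Fin 4 → ℝ, Viol K a S → P S →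
      (∀ i, S i ≤ 0.002) → ∃ F : Fin 4 → ℝ,
        (∀ i, LLs σ a (l1 a) i + F i ≤ Wi a i K σ 3.92) ∧
        (0.1126 + 4.17 * κ) * (∑ i, S i) ≤ ∑ i, F i) : CoreP P X κ := by
  intro K σ hσ a c hC hX S hV hP i
  by_cases h : ∃ i, 0.002 < S i
  · obtain ⟨F, hF, hs⟩ := H2 K σ hσ a c hC hX S hV hP h
    exact end_II hC hV hκ hF hs i
  · have h' : ∀ i, S i ≤ 0.002 := fun i => by
      by_contra hc
      exact h ⟨i, not_le.1 hc⟩
    obtain ⟨F, hF, hs⟩ := H1 K σ hσ a c hC hX S hV hP h'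
    exact end_I hC hV hκ h' hF hs i

omit [IsFiniteMeasure σ] in
/-- **all violations are small** for small defect: `S i ≤ s` if `2 X ≤ (2 - 5.5 X) s` -/
theorem small_all {X s : ℝ} (hX : X ≤ 0.21) (hs : 2 * X ≤ (2 - 5.5 * X) * s)
    (hC : CN K σ a c) (hE : EpsLe c X) (hV : Viol K a S) (i : Fin 4) : S i ≤ s := by
  have h1 := viol_small hC hV hX hE i
  have h2 : 0 < 2 - 5.5 * X := by linarith
  exact le_of_mul_le_mul_left (h1.trans hs) h2

/-- **explicit local theorem** from the core statement -/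
theorem loc_explicit {R R' X κ : ℝ} (hκ : 0 < κ) (h60 : 0.6026 ≤ R') (hRR : R' < R)
    (hX : 0 ≤ X) (hX1 : X ≤ 0.21) (hRX : 1 / 4 + 1 / (4 * (2 + X)) ≤ R' ^ 2)
    (hcore : CoreX X κ) : ∀ K : Set E3, IsCompact K → Convex ℝ K → Width1 K →
    (¬ ∃ x, K ⊆ closedBall x R) →
    ENNReal.ofReal Helper96.MEI.VMe ≤ volume K ∧
      (volume K = ENNReal.ofReal Helper96.MEI.VMe ↔
        ∃ a : Fin 4 → E3, (∀ i j, i ≠ j → dist (a i) (a j) = 1) ∧
        ∃ c : Fin 3 → Bool, K = Helper96.MEI.MB a c) :=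
  fun _ hK hc hw hno => loc_of_coreX hκ h60 hRR hX hX1 hRX hcore hK hc hw hno

end Helper78.MEI
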