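import Pool.Agent.Helper78.MEI.WB6
import Pool.Agent.Helper60.MEI.R8S

/-!
# Project MEI (M2), w-term: the row contract of the tables R8

`tabck P As p0 p1 Q`: the table `Q` has the 24 rows of the parameters `P` for the positions
`[p0, p1]` of the apex; `row_S`, `row_D` = what the combinations of the rows majorise.
-/

set_option autoImplicit false

namespace Helper78.MEI

open Helper60.R8 (Row Ld Cor P3 zR zL z3 afr)

/-! ### Checks -/

def sd : ℕ → ℕ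
  | 1 => 1
  | 5 => 2
  | 6 => 2
  | 7 => 2
  | 8 => 3
  | 9 => 3
  | 10 => 3
  | 11 => 4
  | _ => 0

def xd : ℕ → ℕ
  | 2 => 1
  | 5 => 2
  | 8 => 3
  | 9 => 3
  | 11 => 4
  | _ => 0

def yd : ℕ → ℕ
  | 3 => 1
  | 6 => 2
  | 8 => 3
  | 10 => 3
  | 11 => 4
  | _ => 0

def zd : ℕ → ℕ
  | 4 => 1
  | 7 => 2
  | 9 => 3
  | 10 => 3
  | 11 => 4
  | _ => 0

/-- `n` is at least `X / d` -/
def lv (X d n : ℕ) : Bool := Nat.ble d 0 || Nat.ble X (d * n)

def zA : Alt := ⟨0, 0, 0⟩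

/-- the vectors of a row -/
def altsck (P : Par) (v b : ℕ) : List Alt → List Ld → Bool
  | [], _ => true
  | A :: As, d :: Ds => vck P A v b d.D.k d.D.j d.D.l && altsck P v b As Ds
  | _ :: _, [] => false

/-- one row -/
def rowck (P : Par) (As : List Alt) (v b : ℕ) (R : Row) : Bool :=
  lv P.X (sd v) R.s && lv P.X (xd v) R.S.k && lv P.X (yd v) R.S.j && lv P.X (zd v) R.S.l &&
    altsck P v b As R.ls

/-- the rows `12 b + v`, from the index `i` on -/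
def rowsck (P : Par) (As : List Alt) : ℕ → List Row → Bool
  | _, [] => true
  | i, R :: Rs => rowck P As (i % 12) (i / 12) R && rowsck P As (i + 1) Rs

/-- **the row contract** -/
def tabck (P : Par) (As : List Alt) (p0 p1 : ℕ) (Q : Cor) : Bool :=
  Nat.beq Q.rows.length 24 && rowsck P As 0 Q.rows && (As.all fun A => A.ok p0 p1) &&
    Nat.ble Q.nl As.length && Nat.ble Q.ne 0 && Nat.ble p0 p1 && Nat.ble p1 U6

theorem lv_le {X d n : ℕ} (h : lv X d n = true) : (X : ℝ) / U6 * (1 / (d : ℝ)) ≤ (n : ℝ) / U6 := by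
  have hU := U6_pos
  unfold lv at h
  simp only [Bool.or_eq_true, Nat.ble_eq] at h
  rcases Nat.eq_zero_or_pos d with hd | hd
  · rw [hd]
    simp only [Nat.cast_zero, div_zero, mul_zero]
    positivity
  · rcases h with h | h
    · omega
    · have hd' : (0 : ℝ) < (d : ℝ) := Nat.cast_pos.2 hd
      have h' : (X : ℝ) ≤ ((d * n : ℕ) : ℝ) := Nat.cast_le.2 h
      push_cast at h'
      rw [mul_one_div, div_div, div_le_div_iff₀ (by positivity) hU]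
      nlinarith

theorem s12_sd {v : ℕ} (hv : v < 12) : s12 v = 1 / (sd v : ℝ) := by
  interval_cases v <;> norm_num [s12, sd]

theorem x12_xd {v : ℕ} (hv : v < 12) : x12 v = 1 / (xd v : ℝ) := by
  interval_cases v <;> norm_num [x12, xd]

theorem y12_yd {v : ℕ} (hv : v < 12) : y12 v = 1 / (yd v : ℝ) := by
  interval_cases v <;> norm_num [y12, yd]

theorem z12_zd {v : ℕ} (hv : v < 12) : z12 v = 1 / (zd v : ℝ) := by
  interval_cases v <;> norm_num [z12, zd]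

theorem altsck_get {P : Par} {v b : ℕ} : ∀ {As : List Alt} {Ds : List Ld},
    altsck P v b As Ds = true → ∀ i < As.length,
      vck P (As.getD i zA) v b (Ds.getD i zL).D.k (Ds.getD i zL).D.j (Ds.getD i zL).D.l = true
  | [], _, _, i, hi => by simp at hi
  | A :: As, [], h, i, hi => by simp [altsck] at h
  | A :: As, D :: Ds, h, i, hi => by
    rw [altsck, Bool.and_eq_true] at h
    cases i with
    | zero => simpa using h.1
    | succ i =>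
      have := altsck_get h.2 i (by simpa using hi)
      simpa using this

theorem rowsck_get {P : Par} {As : List Alt} : ∀ {i0 : ℕ} {Rs : List Row},
    rowsck P As i0 Rs = true → ∀ i < Rs.length,
      rowck P As ((i0 + i) % 12) ((i0 + i) / 12) (Rs.getD i zR) = true
  | _, [], _, i, hi => by simp at hi
  | i0, R :: Rs, h, i, hi => by
    rw [rowsck, Bool.and_eq_true] at h
    cases i with
    | zero => simpa using h.1
    | succ i =>
      have := rowsck_get h.2 i (by simpa using hi)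
      rw [show i0 + 1 + i = i0 + (i + 1) by omega] at this
      simpa using this

section
variable {P : Par} {As : List Alt} {p0 p1 : ℕ} {Q : Cor} (h : tabck P As p0 p1 Q = true)
include h

theorem tabck_iff : Q.rows.length = 24 ∧ rowsck P As 0 Q.rows = true ∧
    (∀ i < As.length, (As.getD i zA).ok p0 p1 = true) ∧ Q.nl ≤ As.length ∧ Q.ne = 0 ∧ p0 ≤ p1 ∧
    p1 ≤ U6 := by
  unfold tabck at h
  simp only [Bool.and_eq_true, Nat.ble_eq, Nat.beq_eq, List.all_eq_true] at h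
  obtain ⟨⟨⟨⟨⟨⟨h1, h2⟩, h3⟩, h4⟩, h5⟩, h6⟩, h7⟩ := h
  refine ⟨h1, h2, fun i hi => ?_, h4, Nat.le_zero.1 h5, h6, h7⟩
  rw [List.getD_eq_getElem _ _ hi]
  exact h3 _ (List.getElem_mem hi)

/-- the row of the vertex `v` with the bit `b` -/
theorem row_vb : (∀ v < 12, rowck P As v 0 (Q.rows.getD v zR) = true) ∧
    ∀ v < 12, rowck P As v 1 (Q.rows.getD (12 + v) zR) = true := by
  obtain ⟨h1, h2, -⟩ := tabck_iff h
  refine ⟨fun v hv => ?_, fun v hv => ?_⟩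
  · have := rowsck_get h2 v (by omega)
    rw [show (0 + v) % 12 = v by omega, show (0 + v) / 12 = 0 by omega] at this
    exact this
  · have := rowsck_get h2 (12 + v) (by omega)
    rw [show (0 + (12 + v)) % 12 = v by omega, show (0 + (12 + v)) / 12 = 1 by omega] at this
    exact this

omit h in
/-- a lower bound of the rows and its combination -/
theorem comb_ge {L : ℕ → ℝ} (hL : ∀ v, 0 ≤ L v) {β : ℝ} (h0 : 0 ≤ β) (h1 : β ≤ 1) {n : ℕ}
    (hn : n = 24) {f m : ℕ → ℝ} (hf0 : ∀ v < 12, m v ≤ f v) (hf1 : ∀ v < 12, m v ≤ f (12 + v)) :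
    ∑ v ∈ Finset.range 12, L v * m v ≤ ∑ i ∈ Finset.range n, lam24 L β i * f i := by
  rw [hn, sum24]
  refine Finset.sum_le_sum fun v hv => mul_le_mul_of_nonneg_left ?_ (hL v)
  have hv' := Finset.mem_range.1 hv
  have k0 := mul_le_mul_of_nonneg_left (hf0 v hv') (sub_nonneg.2 h1)
  have k1 := mul_le_mul_of_nonneg_left (hf1 v hv') h0
  linarith

/-- **violations and level through the rows** -/
theorem row_S (hX : 0 < P.X) {s x y z : ℝ} (hs : 0 ≤ s) (hx : 0 ≤ x) (hy : 0 ≤ y) (hz : 0 ≤ z)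
    (hsum : s + x + y + z ≤ (P.X : ℝ) / U6) {β : ℝ} (h0 : 0 ≤ β) (h1 : β ≤ 1) :
    x ≤ ∑ i ∈ Finset.range Q.rows.length, lam24 (lam12 ((P.X : ℝ) / U6) s x y z) β i *
      (((Q.rows.getD i zR).S.k : ℝ) / U6) ∧
    y ≤ ∑ i ∈ Finset.range Q.rows.length, lam24 (lam12 ((P.X : ℝ) / U6) s x y z) β i *
      (((Q.rows.getD i zR).S.j : ℝ) / U6) ∧
    z ≤ ∑ i ∈ Finset.range Q.rows.length, lam24 (lam12 ((P.X : ℝ) / U6) s x y z) β i *
      (((Q.rows.getD i zR).S.l : ℝ) / U6) ∧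
    s ≤ ∑ i ∈ Finset.range Q.rows.length, lam24 (lam12 ((P.X : ℝ) / U6) s x y z) β i *
      (((Q.rows.getD i zR).s : ℝ) / U6) := by
  have hU := U6_pos
  have hXp : (0 : ℝ) < (P.X : ℝ) / U6 := _root_.div_pos (Nat.cast_pos.2 hX) hU
  have hL := lam12_nonneg hXp hs hx hy hz hsum
  obtain ⟨hlen, -⟩ := tabck_iff h
  obtain ⟨r0, r1⟩ := row_vb h
  have un : ∀ v b R, rowck P As v b R = true → lv P.X (sd v) R.s = true ∧
      lv P.X (xd v) R.S.k = true ∧ lv P.X (yd v) R.S.j = true ∧ lv P.X (zd v) R.S.l = true := by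
    intro v b R hR
    unfold rowck at hR
    simp only [Bool.and_eq_true] at hR
    exact ⟨hR.1.1.1.1, hR.1.1.1.2, hR.1.1.2, hR.1.2⟩
  refine ⟨?_, ?_, ?_, ?_⟩
  · refine le_trans (le_of_eq (lam12_x hXp).symm) (comb_ge hL h0 h1 hlen ?_ ?_)
    · intro v hv
      rw [x12_xd hv]
      exact lv_le (un _ _ _ (r0 v hv)).2.1
    · intro v hv
      rw [x12_xd hv]
      exact lv_le (un _ _ _ (r1 v hv)).2.1
  · refine le_trans (le_of_eq (lam12_y hXp).symm) (comb_ge hL h0 h1 hlen ?_ ?_)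
    · intro v hv
      rw [y12_yd hv]
      exact lv_le (un _ _ _ (r0 v hv)).2.2.1
    · intro v hv
      rw [y12_yd hv]
      exact lv_le (un _ _ _ (r1 v hv)).2.2.1
  · refine le_trans (le_of_eq (lam12_z hXp).symm) (comb_ge hL h0 h1 hlen ?_ ?_)
    · intro v hv
      rw [z12_zd hv]
      exact lv_le (un _ _ _ (r0 v hv)).2.2.2
    · intro v hv
      rw [z12_zd hv]
      exact lv_le (un _ _ _ (r1 v hv)).2.2.2
  · refine le_trans (le_of_eq (lam12_s hXp).symm) (comb_ge hL h0 h1 hlen ?_ ?_)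
    · intro v hv
      rw [s12_sd hv]
      exact lv_le (un _ _ _ (r0 v hv)).1
    · intro v hv
      rw [s12_sd hv]
      exact lv_le (un _ _ _ (r1 v hv)).1

theorem row_one (hX : 0 < P.X) {s x y z β : ℝ} :
    ∑ i ∈ Finset.range Q.rows.length, lam24 (lam12 ((P.X : ℝ) / U6) s x y z) β i = 1 := by
  obtain ⟨hlen, -⟩ := tabck_iff h
  rw [hlen]
  exact sum24_one (lam12_one (_root_.div_pos (Nat.cast_pos.2 hX) U6_pos)) β

/-- **the demands through the loads** -/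
theorem row_D {L : ℕ → ℝ} (hL : ∀ v, 0 ≤ L v) {β : ℝ} (h0 : 0 ≤ β) (h1 : β ≤ 1) {x y : ℝ}
    (hx : 0 ≤ x) (hy : 0 ≤ y) (hxy : x + y ≤ 1) {li : ℕ} (hli : li < Q.nl) :
    ∑ v ∈ Finset.range 12, L v * ((1 - β) * dem P (As.getD li zA) v 0 x y
        + β * dem P (As.getD li zA) v 1 x y) ≤
      ∑ i ∈ Finset.range Q.rows.length, lam24 L β i *
        afr ((Q.rows.getD i zR).ls.getD li zL).D x y := by
  obtain ⟨hlen, -, hok, hnl, -⟩ := tabck_iff h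
  obtain ⟨r0, r1⟩ := row_vb h
  have hA : (As.getD li zA).th ≤ U6 := by
    have := hok li (by omega)
    unfold Alt.ok at this
    simp only [Bool.and_eq_true, Nat.ble_eq] at this
    exact this.1.1
  have un : ∀ v b R, rowck P As v b R = true → altsck P v b As R.ls = true := by
    intro v b R hR
    unfold rowck at hR
    simp only [Bool.and_eq_true] at hR
    exact hR.2
  rw [hlen, sum24]
  refine Finset.sum_le_sum fun v hv => mul_le_mul_of_nonneg_left ?_ (hL v)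
  have hv' := Finset.mem_range.1 hv
  have q0 := vck_le hA (altsck_get (un _ _ _ (r0 v hv')) li (by omega)) hx hy hxy
  have q1 := vck_le hA (altsck_get (un _ _ _ (r1 v hv')) li (by omega)) hx hy hxy
  simp only [Nat.cast_zero, Nat.cast_one] at q0 q1
  have k0 := mul_le_mul_of_nonneg_left q0 (sub_nonneg.2 h1)
  have k1 := mul_le_mul_of_nonneg_left q1 h0
  unfold afr
  exact add_le_add k0 k1

omit h in
/-- the dropped values are nonnegative -/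
theorem row_X {L : ℕ → ℝ} (hL : ∀ v, 0 ≤ L v) {β : ℝ} (h0 : 0 ≤ β) (h1 : β ≤ 1) {x y : ℝ}
    (hx : 0 ≤ x) (hy : 0 ≤ y) (hxy : x + y ≤ 1) (n li : ℕ) (rows : List Row) :
    0 ≤ ∑ i ∈ Finset.range n, lam24 L β i * afr ((rows.getD i zR).ls.getD li zL).X x y := by
  refine Finset.sum_nonneg fun i _ => mul_nonneg (lam24_nonneg hL h0 h1 i) ?_
  unfold afr
  have : 0 ≤ 1 - x - y := by linarith
  positivity

end

/-! ### The final numbers -/

/-- `12` times the level of a vertex -/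
def sq : ℕ → ℕ
  | 1 => 12
  | 5 => 6
  | 6 => 6
  | 7 => 6
  | 8 => 4
  | 9 => 4
  | 10 => 4
  | 11 => 3
  | _ => 0

/-- `12` times the sum of the three violations of a vertex -/
def tq : ℕ → ℕ
  | 2 => 12
  | 3 => 12
  | 4 => 12
  | 5 => 6
  | 6 => 6
  | 7 => 6
  | 8 => 8
  | 9 => 8
  | 10 => 8
  | 11 => 9
  | _ => 0

/-- the bound of a vertex; `Pl`, `Dl` the weights (units `U⁻⁴ / 4`), `u0, u1, u2` the cost
(units `10⁻⁹`) -/
def mck1 (Pl Dl : List ℕ) (X u0 u1 u2 g a b c : ℕ) : Bool :=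
  Nat.ble (12000 * U6 * 1000000000 * (10 * (Pl.getD (r0 g) 0 + Pl.getD (r1 g) 0 + Pl.getD (r2 g) 0)
      + 10 * Dl.getD a 0 + 7 * Dl.getD b 0 + 0 * c))
    (14142 * (4 * U6 ^ 4) * (12 * U6 * u0 + X * (u1 * sq g + u2 * tq g)))

/-- the six pairs -/
def mck (Pl Dl : List ℕ) (X u0 u1 u2 g : ℕ) : Bool :=
  mck1 Pl Dl X u0 u1 u2 g (r0 g) (r1 g) 0 && mck1 Pl Dl X u0 u1 u2 g (r0 g) (r2 g) 0 &&
  mck1 Pl Dl X u0 u1 u2 g (r1 g) (r0 g) 0 && mck1 Pl Dl X u0 u1 u2 g (r1 g) (r2 g) 0 &&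
  mck1 Pl Dl X u0 u1 u2 g (r2 g) (r0 g) 0 && mck1 Pl Dl X u0 u1 u2 g (r2 g) (r1 g) 0

/-- all vertices -/
def fck (Pl Dl : List ℕ) (X u0 u1 u2 : ℕ) : Bool :=
  (List.range 12).all fun g => mck Pl Dl X u0 u1 u2 g

theorem sq_eq {g : ℕ} (hg : g < 12) : (sq g : ℝ) = 12 * s12 g := by
  interval_cases g <;> norm_num [sq, s12]

theorem tq_eq {g : ℕ} (hg : g < 12) : (tq g : ℝ) = 12 * (x12 g + y12 g + z12 g) := by
  interval_cases g <;> norm_num [tq, x12, y12, z12]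

/-- one vertex, one pair, in real numbers -/
theorem mck1_le {Pl Dl : List ℕ} {X u0 u1 u2 g a b c : ℕ} (hg : g < 12)
    (h : mck1 Pl Dl X u0 u1 u2 g a b c = true) :
    (Pl.getD (r0 g) 0 : ℝ) / (4 * (U6 : ℝ) ^ 4) + (Pl.getD (r1 g) 0 : ℝ) / (4 * (U6 : ℝ) ^ 4)
      + (Pl.getD (r2 g) 0 : ℝ) / (4 * (U6 : ℝ) ^ 4)
      + ((Dl.getD a 0 : ℝ) / (4 * (U6 : ℝ) ^ 4) + 7 / 10 * ((Dl.getD b 0 : ℝ) / (4 * (U6 : ℝ) ^ 4)))
      ≤ 14142 / 10000 * ((u0 : ℝ) / 1000000000 + (u1 : ℝ) / 1000000000 * ((X : ℝ) / U6 * s12 g)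
        + (u2 : ℝ) / 1000000000 * ((X : ℝ) / U6 * (x12 g + y12 g + z12 g))) := by
  have hU := U6_pos
  unfold mck1 at h
  rw [Nat.ble_eq] at h
  have h' : ((12000 * U6 * 1000000000 * (10 * (Pl.getD (r0 g) 0 + Pl.getD (r1 g) 0
      + Pl.getD (r2 g) 0) + 10 * Dl.getD a 0 + 7 * Dl.getD b 0 + 0 * c) : ℕ) : ℝ) ≤
      ((14142 * (4 * U6 ^ 4) * (12 * U6 * u0 + X * (u1 * sq g + u2 * tq g)) : ℕ) : ℝ) :=
    Nat.cast_le.2 h
  push_cast at h'
  rw [sq_eq hg, tq_eq hg] at h'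
  obtain ⟨p0, e0⟩ : ∃ a, a = (Pl.getD (r0 g) 0 : ℝ) := ⟨_, rfl⟩
  obtain ⟨p1, e1⟩ : ∃ a, a = (Pl.getD (r1 g) 0 : ℝ) := ⟨_, rfl⟩
  obtain ⟨p2, e2⟩ : ∃ a, a = (Pl.getD (r2 g) 0 : ℝ) := ⟨_, rfl⟩
  obtain ⟨d0, e3⟩ : ∃ q, q = (Dl.getD a 0 : ℝ) := ⟨_, rfl⟩
  obtain ⟨d1, e4⟩ : ∃ q, q = (Dl.getD b 0 : ℝ) := ⟨_, rfl⟩
  rw [← e0, ← e1, ← e2, ← e3, ← e4] at h' ⊢
  obtain ⟨u, hu⟩ : ∃ u : ℝ, u = (U6 : ℝ) := ⟨_, rfl⟩
  rw [← hu] at h' hU ⊢
  have e : p0 / (4 * u ^ 4) + p1 / (4 * u ^ 4) + p2 / (4 * u ^ 4)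
      + (d0 / (4 * u ^ 4) + 7 / 10 * (d1 / (4 * u ^ 4))) =
      (10 * (p0 + p1 + p2) + 10 * d0 + 7 * d1) / (40 * u ^ 4) := by
    field_simp
    ring
  rw [e, div_le_iff₀ (by positivity)]
  have hpos : (0 : ℝ) < 12000 * u * 1000000000 := by positivity
  refine le_of_mul_le_mul_left ?_ hpos
  calc 12000 * u * 1000000000 * (10 * (p0 + p1 + p2) + 10 * d0 + 7 * d1)
      = 12000 * u * 1000000000 * (10 * (p0 + p1 + p2) + 10 * d0 + 7 * d1 + 0 * (c : ℝ)) := by ring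
    _ ≤ 14142 * (4 * u ^ 4) * (12 * u * u0 + X * (u1 * (12 * s12 g)
          + u2 * (12 * (x12 g + y12 g + z12 g)))) := h'
    _ = _ := by
      field_simp
      ring

/-- **the cost of a face from the numbers of the tables** -/
theorem face_num8 {Pl Dl : List ℕ} {X u0 u1 u2 : ℕ} (hX : 0 < X)
    (hf : fck Pl Dl X u0 u1 u2 = true) {s x y z : ℝ} (hs : 0 ≤ s) (hx : 0 ≤ x) (hy : 0 ≤ y)
    (hz : 0 ≤ z) (hsum : s + x + y + z ≤ (X : ℝ) / U6) {b0 b1 b2 : ℝ} (h0 : 0 ≤ b0) (h1 : 0 ≤ b1)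
    (h2 : 0 ≤ b2) (g0 : b0 ≤ 1) (g1 : b1 ≤ 1) (g2 : b2 ≤ 1) (hb : b0 + b1 + b2 ≤ 17 / 10)
    {W0 W1 W2 : ℕ → ℕ}
    (a0 : ∀ v < 12, W0 v ≤ Pl.getD v 0 ∧ W0 (12 + v) ≤ Pl.getD v 0 + Dl.getD v 0)
    (a1 : ∀ v < 12, W1 v ≤ Pl.getD v 0 ∧ W1 (12 + v) ≤ Pl.getD v 0 + Dl.getD v 0)
    (a2 : ∀ v < 12, W2 v ≤ Pl.getD v 0 ∧ W2 (12 + v) ≤ Pl.getD v 0 + Dl.getD v 0) :
    (√2)⁻¹ * (∑ i ∈ Finset.range 24, lam24 (lam12 ((X : ℝ) / U6) s x z y) b0 i *
          ((W0 i : ℝ) / (4 * (U6 : ℝ) ^ 4)) +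
      ∑ i ∈ Finset.range 24, lam24 (lam12 ((X : ℝ) / U6) s y x z) b1 i *
          ((W1 i : ℝ) / (4 * (U6 : ℝ) ^ 4)) +
      ∑ i ∈ Finset.range 24, lam24 (lam12 ((X : ℝ) / U6) s z x y) b2 i *
          ((W2 i : ℝ) / (4 * (U6 : ℝ) ^ 4))) ≤
      (u0 : ℝ) / 1000000000 + (u1 : ℝ) / 1000000000 * s + (u2 : ℝ) / 1000000000 * (x + y + z) := by
  have hU := U6_pos
  have hXp : (0 : ℝ) < (X : ℝ) / U6 := _root_.div_pos (Nat.cast_pos.2 hX) hU
  have hc : (0 : ℝ) < 4 * (U6 : ℝ) ^ 4 := by positivity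
  have cast : ∀ (W : ℕ → ℕ), (∀ v < 12, W v ≤ Pl.getD v 0 ∧ W (12 + v) ≤ Pl.getD v 0 + Dl.getD v 0) →
      (∀ v < 12, (W v : ℝ) / (4 * (U6 : ℝ) ^ 4) ≤ (Pl.getD v 0 : ℝ) / (4 * (U6 : ℝ) ^ 4)) ∧
      ∀ v < 12, (W (12 + v) : ℝ) / (4 * (U6 : ℝ) ^ 4) ≤
        (Pl.getD v 0 : ℝ) / (4 * (U6 : ℝ) ^ 4) + (Dl.getD v 0 : ℝ) / (4 * (U6 : ℝ) ^ 4) := by
    intro W hW
    refine ⟨fun v hv => ?_, fun v hv => ?_⟩
    · exact div_le_div_of_nonneg_right (Nat.cast_le.2 (hW v hv).1) hc.le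
    · rw [← add_div]
      refine div_le_div_of_nonneg_right ?_ hc.le
      have := (Nat.cast_le (α := ℝ)).2 (hW v hv).2
      push_cast at this
      exact this
  obtain ⟨a0', a0''⟩ := cast W0 a0
  obtain ⟨a1', a1''⟩ := cast W1 a1
  obtain ⟨a2', a2''⟩ := cast W2 a2
  unfold fck at hf
  rw [List.all_eq_true] at hf
  have hm : ∀ g < 12, mck Pl Dl X u0 u1 u2 g = true := fun g hg => hf g (List.mem_range.2 hg)
  have key := face_cost hXp hs hx hy hz hsum h0 h1 h2 g0 g1 g2 hb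
    (W0 := fun i => (W0 i : ℝ) / (4 * (U6 : ℝ) ^ 4)) (W1 := fun i => (W1 i : ℝ) / (4 * (U6 : ℝ) ^ 4))
    (W2 := fun i => (W2 i : ℝ) / (4 * (U6 : ℝ) ^ 4))
    (P := fun v => (Pl.getD v 0 : ℝ) / (4 * (U6 : ℝ) ^ 4))
    (D := fun v => (Dl.getD v 0 : ℝ) / (4 * (U6 : ℝ) ^ 4))
    (M := fun g => 14142 / 10000 * ((u0 : ℝ) / 1000000000
        + (u1 : ℝ) / 1000000000 * ((X : ℝ) / U6 * s12 g)
        + (u2 : ℝ) / 1000000000 * ((X : ℝ) / U6 * (x12 g + y12 g + z12 g))))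
    (fun v => by positivity) a0' a0'' a1' a1'' a2' a2''
    (fun g hg d e hde => by
      have hg' := hm g hg
      unfold mck at hg'
      simp only [Bool.and_eq_true] at hg'
      obtain ⟨⟨⟨⟨⟨q1, q2⟩, q3⟩, q4⟩, q5⟩, q6⟩ := hg'
      rcases hde with ⟨rfl, rfl | rfl⟩ | ⟨rfl, rfl | rfl⟩ | ⟨rfl, rfl | rfl⟩
      · exact mck1_le hg q1
      · exact mck1_le hg q2
      · exact mck1_le hg q3
      · exact mck1_le hg q4
      · exact mck1_le hg q5
      · exact mck1_le hg q6)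
  have tot : ∑ g ∈ Finset.range 12, lam12 ((X : ℝ) / U6) s x y z g *
      (14142 / 10000 * ((u0 : ℝ) / 1000000000
        + (u1 : ℝ) / 1000000000 * ((X : ℝ) / U6 * s12 g)
        + (u2 : ℝ) / 1000000000 * ((X : ℝ) / U6 * (x12 g + y12 g + z12 g)))) =
      14142 / 10000 * ((u0 : ℝ) / 1000000000 + (u1 : ℝ) / 1000000000 * s
        + (u2 : ℝ) / 1000000000 * (x + y + z)) := by
    have one := lam12_one (s := s) (x := x) (y := y) (z := z) hXp
    have es := lam12_s (s := s) (x := x) (y := y) (z := z) hXp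
    have ex := lam12_x (s := s) (x := x) (y := y) (z := z) hXp
    have ey := lam12_y (s := s) (x := x) (y := y) (z := z) hXp
    have ez := lam12_z (s := s) (x := x) (y := y) (z := z) hXp
    have e1 : ∀ g, lam12 ((X : ℝ) / U6) s x y z g *
      (14142 / 10000 * ((u0 : ℝ) / 1000000000
        + (u1 : ℝ) / 1000000000 * ((X : ℝ) / U6 * s12 g)
        + (u2 : ℝ) / 1000000000 * ((X : ℝ) / U6 * (x12 g + y12 g + z12 g)))) =
      14142 / 10000 * ((u0 : ℝ) / 1000000000) * lam12 ((X : ℝ) / U6) s x y z g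
      + 14142 / 10000 * ((u1 : ℝ) / 1000000000) *
        (lam12 ((X : ℝ) / U6) s x y z g * ((X : ℝ) / U6 * s12 g))
      + 14142 / 10000 * ((u2 : ℝ) / 1000000000) *
        (lam12 ((X : ℝ) / U6) s x y z g * ((X : ℝ) / U6 * x12 g))
      + 14142 / 10000 * ((u2 : ℝ) / 1000000000) *
        (lam12 ((X : ℝ) / U6) s x y z g * ((X : ℝ) / U6 * y12 g))
      + 14142 / 10000 * ((u2 : ℝ) / 1000000000) *
        (lam12 ((X : ℝ) / U6) s x y z g * ((X : ℝ) / U6 * z12 g)) := fun g => by ring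
    simp only [e1, Finset.sum_add_distrib, ← Finset.mul_sum]
    rw [one, es, ex, ey, ez]
    ring
  rw [tot] at key
  obtain ⟨R, hR⟩ : ∃ R, R = (u0 : ℝ) / 1000000000 + (u1 : ℝ) / 1000000000 * s
        + (u2 : ℝ) / 1000000000 * (x + y + z) := ⟨_, rfl⟩
  rw [← hR] at key ⊢
  have hR0 : 0 ≤ R := by
    rw [hR]
    positivity
  have h2 : (14142 / 10000 : ℝ) ≤ √2 := by
    rw [show (14142 / 10000 : ℝ) = √((14142 / 10000) ^ 2) by
      rw [Real.sqrt_sq (by norm_num)]]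
    exact Real.sqrt_le_sqrt (by norm_num)
  have h2p : 0 < √2 := Real.sqrt_pos.2 (by norm_num)
  rw [inv_mul_le_iff₀ h2p]
  have := mul_le_mul_of_nonneg_right h2 hR0
  exact key.trans this

end Helper78.MEI
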