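import Pool.Agent.Helper78.MEI.WB2

/-!
# Project MEI (M2), w-term: the three relative deficits of the apex, the majorant of the leaks,
the decomposition of the violations

* `sum_bet`: the sum of the three `bet` is at most `1.7` (`s ≤ .011`);
* `leak_lin`: `nc k ≤ g0 + g1 min (S 0) (S k)`;
* `lay`: `(s; S)` as a combination of the vectors `(1; 1_B)`, `(0; 1_m)` such that all
  `min s (S m)` are combined in the same way.
-/

set_option autoImplicit false

namespace Helper78.MEI

open Set Metric MeasureTheory Helper80.CW Helper82.CW Helper14.CW Helper93.MEI Helper82.M2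
open Helper14.MEI2 Pool.Agent.Helper52.MEI Pool.Agent.Helper73.MEI Helper41.MEI
open scoped RealInnerProductSpace ENNReal

/-! ### the sum of the three relative deficits -/

/-- all three coordinates nonnegative -/
theorem betA {x y z e s : ℝ} (hx : 0 ≤ x) (hy : 0 ≤ y) (hz : 0 ≤ z) (hs : x + y + z = 1 + e)
    (he : 0 < e) (hxy : 2 * e ≤ x + y) (hxz : 2 * e ≤ x + z) (hyz : 2 * e ≤ y + z)
    (hQ : x ^ 2 + y ^ 2 + z ^ 2 + x * y + x * z + y * z ≤ 1 + s) (hs1 : s ≤ 11 / 1000) :
    2 * e / (y + z) + 2 * e / (x + z) + 2 * e / (x + y) ≤ 17 / 10 := by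
  have u0 : 0 < y + z := by linarith
  have v0 : 0 < x + z := by linarith
  have w0 : 0 < x + y := by linarith
  rcases le_total e (1 / 20) with h | h
  · -- one quotient is at most one, the others are small
    have big : ∀ p q r : ℝ, 0 ≤ p → 0 ≤ q → 0 ≤ r → p + q + r = 1 + e → q ≤ p → r ≤ p →
        2 * e ≤ q + r → 0 < q + r → 0 < p + r → 0 < p + q →
        2 * e / (q + r) + 2 * e / (p + r) + 2 * e / (p + q) ≤ 17 / 10 := by
      intro p q r hp hq hr hsum h1 h2 h3 a1 a2 a3
      have b1 : 2 * e / (q + r) ≤ 1 := by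
        rw [div_le_one a1]
        exact h3
      have b2 : 2 * e / (p + r) ≤ 3 / 10 := by
        rw [div_le_iff₀ a2]
        linarith
      have b3 : 2 * e / (p + q) ≤ 3 / 10 := by
        rw [div_le_iff₀ a3]
        linarith
      linarith
    rcases le_total x y with h1 | h1
    · rcases le_total y z with h2 | h2
      · have := big z x y hz hx hy (by linarith) (by linarith) (by linarith) (by linarith)
          (by linarith) (by linarith) (by linarith)
        rw [show x + z = z + x by ring, show y + z = z + y by ring]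
        linarith
      · have := big y x z hy hx hz (by linarith) (by linarith) (by linarith) (by linarith)
          (by linarith) (by linarith) (by linarith)
        rw [show x + y = y + x by ring]
        linarith
    · rcases le_total x z with h2 | h2
      · have := big z x y hz hx hy (by linarith) (by linarith) (by linarith) (by linarith)
          (by linarith) (by linarith) (by linarith)
        rw [show x + z = z + x by ring, show y + z = z + y by ring]
        linarith
      · exact big x y z hx hy hz hs h1 h2 hyz u0 v0 w0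
  · -- the symmetric bound
    obtain ⟨E, hE⟩ : ∃ E, E = x * y + x * z + y * z := ⟨_, rfl⟩
    have hE1 : 2 * e + e ^ 2 - 11 / 1000 ≤ E := by
      have : x ^ 2 + y ^ 2 + z ^ 2 + x * y + x * z + y * z = (x + y + z) ^ 2 - E := by
        rw [hE]
        ring
      rw [this, hs] at hQ
      nlinarith
    have hE3 : 3 * E ≤ (1 + e) ^ 2 := by
      rw [← hs, hE]
      nlinarith [sq_nonneg (x - y), sq_nonneg (x - z), sq_nonneg (y - z)]
    have he2 : e ≤ 2315 / 10000 := by
      by_contra hc
      push Not at hc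
      nlinarith
    have h9 : 9 * (x * y * z) ≤ (1 + e) * E := by
      have e1 : (1 + e) * E - 9 * (x * y * z) =
          x * (y - z) ^ 2 + y * (x - z) ^ 2 + z * (x - y) ^ 2 := by
        rw [← hs, hE]
        ring
      have := mul_nonneg hx (sq_nonneg (y - z))
      have := mul_nonneg hy (sq_nonneg (x - z))
      have := mul_nonneg hz (sq_nonneg (x - y))
      linarith
    have hC : 0 ≤ 136 / 90 * (1 + e) - 2 * e := by linarith
    have k1 := mul_le_mul_of_nonneg_right hE1 hC
    have k2 : 2 * e * (1 + e) ^ 2 ≤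
        (2 * e + e ^ 2 - 11 / 1000) * (136 / 90 * (1 + e) - 2 * e) := by
      have q1 : 0 ≤ (e - 1 / 20) * (2315 / 10000 - e) := mul_nonneg (by linarith) (by linarith)
      have q2 := mul_nonneg q1 (show 0 ≤ e by linarith)
      nlinarith
    have k3 : 2 * e * ((1 + e) ^ 2 + E) ≤ 17 / 10 * ((1 + e) * E - x * y * z) := by
      nlinarith
    have e1 : (1 + e) ^ 2 + E =
        (x + z) * (x + y) + (y + z) * (x + y) + (y + z) * (x + z) := by
      rw [← hs, hE]
      ring
    have e2 : (1 + e) * E - x * y * z = (y + z) * (x + z) * (x + y) := by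
      rw [← hs, hE]
      ring
    rw [e1, e2] at k3
    have e3 : 2 * e / (y + z) + 2 * e / (x + z) + 2 * e / (x + y) =
        2 * e * ((x + z) * (x + y) + (y + z) * (x + y) + (y + z) * (x + z)) /
          ((y + z) * (x + z) * (x + y)) := by
      field_simp
    rw [e3, div_le_iff₀ (by positivity)]
    exact k3

/-- one coordinate `-v` negative -/
theorem betB {x y v e a c s : ℝ} (hv : 0 ≤ v) (hs : x + y - v = 1 + e) (ha : 0 < a)
    (hae : a = 2 * e + 2 * (c * v)) (hc0 : 0 ≤ c) (hc : c ≤ 1 / 10) (hx : 2 * e ≤ x - v)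
    (hy : 2 * e ≤ y - v)
    (hQ : x ^ 2 + y ^ 2 + v ^ 2 + x * y - x * v - y * v ≤ 1 + s) (hs1 : s ≤ 11 / 1000) :
    a / (x + y) + a / y + a / x ≤ 17 / 10 := by
  have hcv : c * v ≤ 1 / 10 * v := mul_le_mul_of_nonneg_right hc hv
  have hcv0 : 0 ≤ c * v := mul_nonneg hc0 hv
  have ax : a ≤ x := by linarith
  have ay : a ≤ y := by linarith
  have x0 : 0 < x := lt_of_lt_of_le ha ax
  have y0 : 0 < y := lt_of_lt_of_le ha ay
  have hP : x + y = 1 + a / 2 + (1 - c) * v := by
    rw [hae]
    linarith
  rcases le_total a (1 / 5) with h | h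
  · have hP1 : 1 ≤ x + y := by
      rw [hP]
      nlinarith
    have b1 : a / (x + y) ≤ 1 / 5 := by
      rw [div_le_iff₀ (by linarith)]
      linarith
    have big : ∀ p q : ℝ, 0 < p → 0 < q → p + q = x + y → q ≤ p → a ≤ q →
        a / q + a / p ≤ 7 / 5 := by
      intro p q hp hq h1 h2 h3
      have c1 : a / q ≤ 1 := by
        rw [div_le_one hq]
        exact h3
      have c2 : a / p ≤ 2 / 5 := by
        rw [div_le_iff₀ hp]
        linarith
      linarith
    rcases le_total x y with hxy | hxy
    · have := big y x y0 x0 (by ring) hxy ax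
      linarith
    · have := big x y x0 y0 rfl hxy ay
      linarith
  · obtain ⟨P, hPd⟩ : ∃ P, P = x + y := ⟨_, rfl⟩
    obtain ⟨r, hr⟩ : ∃ r, r = x * y := ⟨_, rfl⟩
    have hr4 : 4 * r ≤ P ^ 2 := by
      rw [hPd, hr]
      nlinarith [sq_nonneg (x - y)]
    have hQ' : P ^ 2 - v * P + v ^ 2 - 1 - s ≤ r := by
      rw [hPd, hr]
      nlinarith
    have hP2 : P ≤ 1.43 := by
      by_contra hcon
      push Not at hcon
      nlinarith [sq_nonneg (P - 2 * v)]
    have ha2 : 2 * a ≤ P := by
      rw [hPd]
      linarith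
    have ha3 : a ≤ 0.715 := by linarith
    have hPe : P = 1 + a / 2 + (1 - c) * v := by rw [hPd]; exact hP
    have key : a * P ≤ 6 / 5 * r := by
      have q1 : a + a ^ 2 / 4 + 4 / 5 * v - s ≤ r := by
        refine le_trans ?_ hQ'
        have e1 : P ^ 2 - v * P + v ^ 2 - 1 - s = a + a ^ 2 / 4 - s +
            (2 * (1 - c) + a * (1 - c) - 1 - a / 2) * v + ((1 - c) ^ 2 - (1 - c) + 1) * v ^ 2 := by
          rw [hPe]
          ring
        rw [e1]
        have e2 : 4 / 5 * v ≤ (2 * (1 - c) + a * (1 - c) - 1 - a / 2) * v := by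
          apply mul_le_mul_of_nonneg_right _ hv
          nlinarith
        have e3 : 0 ≤ ((1 - c) ^ 2 - (1 - c) + 1) * v ^ 2 := by
          apply mul_nonneg _ (sq_nonneg v)
          nlinarith [sq_nonneg (c - 1 / 2)]
        linarith
      have q2 : a * P ≤ a + a ^ 2 / 2 + a * v := by
        rw [hPe]
        have := mul_nonneg (mul_nonneg hc0 hv) ha.le
        nlinarith
      have q3 : 0 ≤ (0.96 - a) * v := mul_nonneg (by linarith) hv
      nlinarith
    have c1 : a / (x + y) ≤ 1 / 2 := by
      rw [div_le_iff₀ (by linarith)]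
      linarith
    have c2 : a / y + a / x ≤ 6 / 5 := by
      have e1 : a / y + a / x = a * (x + y) / (x * y) := by
        field_simp
      rw [e1, div_le_iff₀ (by positivity), ← hPd, ← hr]
      exact key
    linarith

/-- **the sum of the three relative deficits** -/
theorem sum_bet {e c s : ℝ} {b : Fin 3 → ℝ} (hs : b 0 + b 1 + b 2 = 1 + e)
    (h01 : 2 * e ≤ b 0 + b 1) (h02 : 2 * e ≤ b 0 + b 2) (h12 : 2 * e ≤ b 1 + b 2)
    (hc0 : 0 ≤ c) (hc : c ≤ 1 / 10)
    (hQ : b 0 ^ 2 + b 1 ^ 2 + b 2 ^ 2 + b 0 * b 1 + b 0 * b 2 + b 1 * b 2 ≤ 1 + s)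
    (hs1 : s ≤ 11 / 1000) :
    bet (Zd c e b) (b 1) (b 2) + bet (Zd c e b) (b 0) (b 2) + bet (Zd c e b) (b 0) (b 1) ≤
      17 / 10 := by
  obtain ⟨z1, z2, z3⟩ := Zd_le (by linarith : c ≤ 1 / 2) hs h01 h02 h12
  rcases le_or_gt (2 * Zd c e b) 0 with hZ | hZ
  · have : pp (2 * Zd c e b) = 0 := max_eq_right hZ
    unfold bet
    rw [this]
    simp
    norm_num
  · have hpp : pp (2 * Zd c e b) = 2 * Zd c e b := max_eq_left hZ.le
    have key : ∀ u : ℝ, (0 ≤ u ∧ pp u = u ∧ pp (-u) = 0) ∨ (u < 0 ∧ pp u = 0 ∧ pp (-u) = -u) := by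
      intro u
      rcases le_or_gt 0 u with h | h
      · exact Or.inl ⟨h, max_eq_left h, max_eq_right (by linarith)⟩
      · exact Or.inr ⟨h, max_eq_right h.le, max_eq_left (by linarith)⟩
    have hZd : 2 * Zd c e b = 2 * e + 2 * (c * (pp (-b 0) + pp (-b 1) + pp (-b 2))) := by
      unfold Zd
      ring
    unfold bet
    rw [hpp]
    rcases key (b 0) with ⟨a0, a1, a2⟩ | ⟨a0, a1, a2⟩ <;>
    rcases key (b 1) with ⟨c0, c1, c2⟩ | ⟨c0, c1, c2⟩ <;>
    rcases key (b 2) with ⟨d0, d1, d2⟩ | ⟨d0, d1, d2⟩ <;>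
    rw [a1, c1] at z1 <;> rw [a1, d1] at z2 <;> rw [c1, d1] at z3 <;>
    rw [a2, c2, d2] at hZd <;> rw [a1, c1, d1]
    · have e1 : 2 * Zd c e b = 2 * e := by rw [hZd]; ring
      rw [e1] at hZ ⊢
      exact betA a0 c0 d0 hs (by linarith) h01 h02 h12 (by linarith) hs1
    · -- `b 2 < 0`
      have := betB (x := b 0) (y := b 1) (v := -b 2) (a := 2 * Zd c e b) (e := e) (c := c)
        (s := s) (by linarith) (by linarith) hZ (by rw [hZd]; ring) hc0 hc (by linarith)
        (by linarith) (by nlinarith) hs1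
      rw [add_zero, add_zero]
      linarith
    · -- `b 1 < 0`
      have := betB (x := b 0) (y := b 2) (v := -b 1) (a := 2 * Zd c e b) (e := e) (c := c)
        (s := s) (by linarith) (by linarith) hZ (by rw [hZd]; ring) hc0 hc (by linarith)
        (by linarith) (by nlinarith) hs1
      rw [add_zero, zero_add]
      linarith
    · exfalso
      linarith
    · -- `b 0 < 0`
      have := betB (x := b 1) (y := b 2) (v := -b 0) (a := 2 * Zd c e b) (e := e) (c := c)
        (s := s) (by linarith) (by linarith) hZ (by rw [hZd]; ring) hc0 hc (by linarith)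
        (by linarith) (by nlinarith) hs1
      rw [zero_add, zero_add]
      linarith
    · exfalso
      linarith
    · exfalso
      linarith
    · exfalso
      linarith

/-! ### the majorant of the leaks -/

/-- the column sum of a node from the two caps -/
theorem leak_lin {n s S g0 g1 nb : ℝ} (hn : 0 ≤ n) (hnb : n ≤ nb)
    (h1 : n ^ 2 ≤ 2 * s * (1 + n / 2) ^ 2) (h2 : n ^ 2 ≤ 2 * S * (1 + n / 2) ^ 2)
    (hg1 : 0 ≤ g1)
    (hg : ∀ n : ℝ, 0 ≤ n → n ≤ nb → n * (2 + n) ^ 2 ≤ g0 * (2 + n) ^ 2 + 2 * g1 * n ^ 2) :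
    n ≤ g0 + g1 * min s S := by
  have h3 : n ^ 2 ≤ 2 * min s S * (1 + n / 2) ^ 2 := by
    rcases min_cases s S with ⟨e, _⟩ | ⟨e, _⟩ <;> rw [e] <;> assumption
  have h4 := hg n hn hnb
  have h5 : 2 * n ^ 2 ≤ min s S * (2 + n) ^ 2 := by nlinarith
  have h6 := mul_le_mul_of_nonneg_left h5 hg1
  have h7 : 0 < (2 + n) ^ 2 := by positivity
  have h8 : n * (2 + n) ^ 2 ≤ (g0 + g1 * min s S) * (2 + n) ^ 2 := by nlinarith
  exact le_of_mul_le_mul_right h8 h7

/-! ### the layers of `(s; S)` -/

/-- the layer of a subset of `{x, y, z}` below `s`: all three -/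
noncomputable def l3 (s x y z : ℝ) : ℝ := min s (min x (min y z))

/-- the layer of `{x, y}` -/
noncomputable def l2' (s x y z : ℝ) : ℝ := min s (min x y) - l3 s x y z

/-- the layer of `{x}` -/
noncomputable def l1' (s x y z : ℝ) : ℝ := min s x - l2' s x y z - l2' s x z y - l3 s x y z

/-- the empty layer -/
noncomputable def l0 (s x y z : ℝ) : ℝ :=
  s - l1' s x y z - l1' s y x z - l1' s z x y - l2' s x y z - l2' s x z y - l2' s y z x
    - l3 s x y z

theorem l3_nonneg {s x y z : ℝ} (hs : 0 ≤ s) (hx : 0 ≤ x) (hy : 0 ≤ y) (hz : 0 ≤ z) :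
    0 ≤ l3 s x y z := le_min hs (le_min hx (le_min hy hz))

theorem l2_nonneg (s x y z : ℝ) : 0 ≤ l2' s x y z := by
  unfold l2' l3
  have : min s (min x (min y z)) ≤ min s (min x y) :=
    min_le_min_left _ (min_le_min_left _ (min_le_left _ _))
  linarith

theorem l3_perm (s x y z : ℝ) : l3 s x y z = l3 s y x z ∧ l3 s x y z = l3 s x z y := by
  unfold l3
  refine ⟨?_, ?_⟩
  · rw [← min_assoc x y z, min_comm x y, min_assoc]
  · rw [min_comm y z]

theorem l1_nonneg (s x y z : ℝ) : 0 ≤ l1' s x y z := by
  have e := (l3_perm s x y z).2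
  unfold l1' l2'
  rw [← e]
  -- `min s x ≥ max of the two`
  unfold l3
  rcases le_total y z with h | h
  · rw [min_eq_left h]
    have : min s (min x z) ≤ min s x := min_le_min_left _ (min_le_left _ _)
    linarith
  · rw [min_eq_right h]
    have : min s (min x y) ≤ min s x := min_le_min_left _ (min_le_left _ _)
    linarith

theorem l0_nonneg (s x y z : ℝ) : 0 ≤ l0 s x y z := by
  have e1 := (l3_perm s x y z).1
  have e2 := (l3_perm s x y z).2
  have e3 := (l3_perm s y x z).2
  have e4 := (l3_perm s x z y).1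
  have e5 := (l3_perm s z x y).2
  have m1 : min x y = min y x := min_comm _ _
  have m2 : min x z = min z x := min_comm _ _
  have m3 : min y z = min z y := min_comm _ _
  have key : l0 s x y z = s - (min s x + min s y + min s z - min s (min x y) - min s (min x z)
      - min s (min y z) + l3 s x y z) := by
    unfold l0 l1' l2'
    rw [← e5, ← e4, ← e3, ← e1, ← e2, ← m1, ← m2, ← m3]
    ring
  rw [key]
  have A : min s x ≤ s := min_le_left _ _
  have B : min s y ≤ s := min_le_left _ _
  have C : min s z ≤ s := min_le_left _ _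
  unfold l3
  rcases le_total x y with h1 | h1 <;> rcases le_total y z with h2 | h2 <;>
    rcases le_total x z with h3 | h3
  · rw [min_eq_left h1, min_eq_left h2, min_eq_left h3, min_eq_left h1]
    linarith
  · have : x = z := le_antisymm (h1.trans h2) h3
    rw [min_eq_left h1, min_eq_left h2, min_eq_right h3, min_eq_left h1, this]
    linarith
  · rw [min_eq_left h1, min_eq_right h2, min_eq_left h3]
    linarith
  · rw [min_eq_left h1, min_eq_right h2, min_eq_right h3]
    linarith
  · rw [min_eq_right h1, min_eq_left h2, min_eq_left h3, min_eq_right h1]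
    linarith
  · rw [min_eq_right h1, min_eq_left h2, min_eq_right h3, min_eq_right h1]
    linarith
  · have : x = z := le_antisymm h3 (h2.trans h1)
    rw [min_eq_right h1, min_eq_right h2, min_eq_left h3, this]
    linarith
  · rw [min_eq_right h1, min_eq_right h2, min_eq_right h3]
    linarith

/-- **the layers**: `s` and all `min s S` are sums of layers -/
theorem lay (s x y z : ℝ) :
    s = l0 s x y z + l1' s x y z + l1' s y x z + l1' s z x y + l2' s x y z + l2' s x z y
        + l2' s y z x + l3 s x y z ∧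
    min s x = l1' s x y z + l2' s x y z + l2' s x z y + l3 s x y z ∧
    min s y = l1' s y x z + l2' s x y z + l2' s y z x + l3 s x y z ∧
    min s z = l1' s z x y + l2' s x z y + l2' s y z x + l3 s x y z := by
  have e1 := (l3_perm s x y z).1
  have e2 := (l3_perm s x y z).2
  have e3 := (l3_perm s y x z).2
  have e4 := (l3_perm s x z y).1
  have e5 := (l3_perm s z x y).2
  have m1 : min x y = min y x := min_comm _ _
  have m2 : min x z = min z x := min_comm _ _
  have m3 : min y z = min z y := min_comm _ _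
  have f1 : l3 s z x y = l3 s x y z := by rw [← e4, ← e2]
  have f2 : l3 s z y x = l3 s x y z := by rw [← e5, f1]
  have f4 : l3 s y z x = l3 s x y z := by rw [← e3, ← e1]
  refine ⟨by unfold l0; ring, by unfold l1'; ring, ?_, ?_⟩
  · unfold l1' l2'
    rw [f4, ← e1, ← m1]
    ring
  · unfold l1' l2'
    rw [f1, f2, f4, ← e2, ← m2, ← m3]
    ring

end Helper78.MEI
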