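import Pool.Agent.Helper22.MEI.Sig
import Pool.Agent.Helper29.MEI.Field

/-!
# Project MEI, all bodies: pointwise algebra in the edge cell (pair language)

Frame `b`, centre `c`; `a₁, a₂ = c ± (1/2) b 0 + t b 2`, `a₃, a₄ = c ± (1/2) b 1 - t b 2`.
-/

namespace Helper78.MEI

open Set MeasureTheory Metric
open Helper80.CW Helper82.CW Helper22.Wedge Helper22.Sig Helper22.MEI Pool.Agent.Helper8.MEI
open scoped RealInnerProductSpace

theorem t_sq : t ^ 2 = 1 / 8 := by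
  unfold t
  have h : √2 * √2 = (2 : ℝ) := Real.mul_self_sqrt (by norm_num)
  nlinarith

theorem s_eq : s = 2 * t := by unfold s t; ring

theorem t_pos : 0 < t := by unfold t; positivity

theorem t_bd : 0.35355 < t ∧ t < 0.35358 := by
  obtain ⟨h1, h2⟩ := sqrt2_bd
  have h3 : (1.41421 : ℝ) < √2 := by
    rw [Real.lt_sqrt (by norm_num)]
    norm_num
  constructor
  · unfold t; linarith
  · unfold t; linarith

variable (b : OrthonormalBasis (Fin 3) ℝ E3) (c : E3)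

/-- differences in the frame -/
theorem b_sub (i : Fin 3) (p q : E3) : ⟪b i, p - q⟫ = ⟪b i, p - c⟫ - ⟪b i, q - c⟫ := by
  rw [← inner_sub_right]
  congr 1
  abel

/-- **excess identity in the edge cell**: `s₁, s₂` are `1 - |q - a₁|²`, `1 - |q - a₂|²` -/
theorem edge_id {p q a1 a2 : E3} (h : ‖p - q‖ = 1) (ha1 : co b c a1 = (1 / 2, 0, t))
    (ha2 : co b c a2 = (-(1 / 2), 0, t)) :
    ⟪fld b c Fa Fb Fc p, p - q⟫ = 1 / 4
      + ((1 / 2 + 7 / 16 * (co b c p).1) * (1 - ‖q - a1‖ ^ 2)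
        + (1 / 2 - 7 / 16 * (co b c p).1) * (1 - ‖q - a2‖ ^ 2)) / (4 * FD (co b c p)) := by
  have h1 := norm_co b c p q
  rw [h] at h1
  have h2 := norm_co b c q a1
  have h3 := norm_co b c q a2
  rw [ha1] at h2
  rw [ha2] at h3
  rw [h2, h3]
  have e : ⟪fld b c Fa Fb Fc p, p - q⟫ = Fa (co b c p) * ((co b c p).1 - (co b c q).1)
      + Fb (co b c p) * ((co b c p).2.1 - (co b c q).2.1)
      + Fc (co b c p) * ((co b c p).2.2 - (co b c q).2.2) := by
    unfold fld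
    rw [inner_add_left, inner_add_left, real_inner_smul_left, real_inner_smul_left,
      real_inner_smul_left, b_sub b c 0, b_sub b c 1, b_sub b c 2]
    rfl
  rw [e]
  have hD := (FD_pos (co b c p)).ne'
  set x := (co b c p).1
  set y := (co b c p).2.1
  set z := (co b c p).2.2
  set x' := (co b c q).1
  set y' := (co b c q).2.1
  set z' := (co b c q).2.2
  have hDe : FD (co b c p) = 1 / 4 + x ^ 2 / 8 + (y ^ 2 + (z - t) ^ 2) := rfl
  have ha : Fa (co b c p) = 9 / 32 * x / FD (co b c p) := rfl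
  have hb : Fb (co b c p) = 1 / 2 * y / FD (co b c p) := rfl
  have hc : Fc (co b c p) = 1 / 2 * (z - t) / FD (co b c p) := rfl
  rw [ha, hb, hc]
  field_simp
  rw [hDe]

  linear_combination (-4096 : ℝ) * h1

/-- the excess numerator in terms of `B₀` -/
theorem edge_num {q a1 a2 : E3} (x : ℝ) (ha1 : co b c a1 = (1 / 2, 0, t))
    (ha2 : co b c a2 = (-(1 / 2), 0, t)) :
    (1 / 2 + 7 / 16 * x) * (1 - ‖q - a1‖ ^ 2) + (1 / 2 - 7 / 16 * x) * (1 - ‖q - a2‖ ^ 2)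
      = (3 / 4 - ((co b c q).1 ^ 2 + (co b c q).2.1 ^ 2 + ((co b c q).2.2 - t) ^ 2))
        + 7 / 8 * x * (co b c q).1 := by
  rw [norm_co b c q a1, norm_co b c q a2, ha1, ha2]
  ring

/-- `B₀` is the mean of `s₁`, `s₂`, and `s₁ - s₂ = 2 x(q)` -/
theorem B0_eq {q a1 a2 : E3} (ha1 : co b c a1 = (1 / 2, 0, t))
    (ha2 : co b c a2 = (-(1 / 2), 0, t)) :
    1 - ‖q - a1‖ ^ 2 = (3 / 4 - ((co b c q).1 ^ 2 + (co b c q).2.1 ^ 2 + ((co b c q).2.2 - t) ^ 2))
      + (co b c q).1 ∧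
    1 - ‖q - a2‖ ^ 2 = (3 / 4 - ((co b c q).1 ^ 2 + (co b c q).2.1 ^ 2 + ((co b c q).2.2 - t) ^ 2))
      - (co b c q).1 := by
  rw [norm_co b c q a1, norm_co b c q a2, ha1, ha2]
  constructor <;> ring

/-- the excess numerator from below and from above, weights `9/32`, `23/32` -/
theorem edge_num_bd {x s1 s2 : ℝ} (hx : |x| ≤ 1 / 2) :
    9 / 32 * (max s1 0 + max s2 0) - 23 / 32 * (max (-s1) 0 + max (-s2) 0)
      ≤ (1 / 2 + 7 / 16 * x) * s1 + (1 / 2 - 7 / 16 * x) * s2 := by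
  obtain ⟨h1, h2⟩ := abs_le.1 hx
  have key : ∀ k s : ℝ, 9 / 32 ≤ k → k ≤ 23 / 32 →
      9 / 32 * max s 0 - 23 / 32 * max (-s) 0 ≤ k * s := by
    intro k s hk hk'
    rcases le_total 0 s with h | h
    · rw [max_eq_left h, max_eq_right (by linarith)]
      nlinarith
    · rw [max_eq_right h, max_eq_left (by linarith)]
      nlinarith
  have h3 := key (1 / 2 + 7 / 16 * x) s1 (by linarith) (by linarith)
  have h4 := key (1 / 2 - 7 / 16 * x) s2 (by linarith) (by linarith)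
  linarith

/-! ### the cell -/

/-- distances to the vertices of the opposite edge -/
theorem d3_eq {p a3 : E3} (ha3 : co b c a3 = (0, 1 / 2, -t)) :
    ‖p - a3‖ ^ 2 - 1 = (co b c p).1 ^ 2 + ((co b c p).2.1 ^ 2 + ((co b c p).2.2 - t) ^ 2)
      + √2 * ((co b c p).2.2 - t) - (co b c p).2.1 - 1 / 4 := by
  rw [norm_co b c p a3, ha3]
  have h2 : √2 = 4 * t := by unfold t; ring
  have ht := t_sq
  rw [h2]
  simp only
  linear_combination 4 * ht

theorem d4_eq {p a4 : E3} (ha4 : co b c a4 = (0, -(1 / 2), -t)) :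
    ‖p - a4‖ ^ 2 - 1 = (co b c p).1 ^ 2 + ((co b c p).2.1 ^ 2 + ((co b c p).2.2 - t) ^ 2)
      + √2 * ((co b c p).2.2 - t) + (co b c p).2.1 - 1 / 4 := by
  rw [norm_co b c p a4, ha4]
  have h2 : √2 = 4 * t := by unfold t; ring
  have ht := t_sq
  rw [h2]
  simp only
  linear_combination 4 * ht

/-- in the cell `r ≤ w + |y|/√2` -/
theorem r_le {y w : ℝ} (h : |y| < s * w) : √2 * √(y ^ 2 + w ^ 2) ≤ √2 * w + |y| := by
  have hs : (0 : ℝ) < s := by unfold s; positivity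
  have hw : 0 < w := by
    by_contra hc
    have := mul_nonpos_of_nonneg_of_nonpos hs.le (not_lt.1 hc)
    have := abs_nonneg y
    linarith
  have h2 : √2 * √2 = (2 : ℝ) := Real.mul_self_sqrt (by norm_num)
  rw [← Real.sqrt_mul (by norm_num)]
  refine Real.sqrt_le_iff.2 ⟨by positivity, ?_⟩
  have h3 : |y| ≤ √2 * w := by
    have : s ≤ √2 := by unfold s; linarith [Real.sqrt_nonneg (2 : ℝ)]
    nlinarith
  have h4 : (√2 * w + |y|) ^ 2 = 2 * w ^ 2 + 2 * (√2 * w) * |y| + |y| ^ 2 := by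
    linear_combination w ^ 2 * h2
  rw [h4]
  have h5 : y ^ 2 = |y| ^ 2 := (sq_abs y).symm
  rw [h5]
  nlinarith [mul_nonneg (abs_nonneg y) (sub_nonneg.2 h3), abs_nonneg y,
    mul_nonneg (abs_nonneg y) (abs_nonneg y)]

/-- a point of the edge cell in the balls around `a₃`, `a₄` -/
theorem star_r {p a3 a4 : E3} (ha3 : co b c a3 = (0, 1 / 2, -t))
    (ha4 : co b c a4 = (0, -(1 / 2), -t)) {η : ℝ} (h3 : ‖p - a3‖ ^ 2 ≤ 1 + η)
    (h4 : ‖p - a4‖ ^ 2 ≤ 1 + η) :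
    (co b c p).1 ^ 2 + ((co b c p).2.1 ^ 2 + ((co b c p).2.2 - t) ^ 2)
      + (√2 * ((co b c p).2.2 - t) + |(co b c p).2.1|) ≤ 1 / 4 + η := by
  have h5 := d3_eq b c (p := p) ha3
  have h6 := d4_eq b c (p := p) ha4
  rcases abs_cases (co b c p).2.1 with ⟨h, _⟩ | ⟨h, _⟩
  · rw [h]; linarith
  · rw [h]; linarith

theorem EC_w {p : E3} (hp : p ∈ EC b c) : 0 < (co b c p).2.2 - t := by
  have h1 : |(co b c p).2.1| < s * ((co b c p).2.2 - t) := hp
  have hs : (0 : ℝ) < s := by unfold s; positivity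
  by_contra hc
  have := mul_nonpos_of_nonneg_of_nonpos hs.le (not_lt.1 hc)
  have := abs_nonneg (co b c p).2.1
  linarith

/-- **lower bound of the divergence**, points of the edge cell in the balls around `a₃`, `a₄` -/
theorem div_ge_star {p a3 a4 : E3} (hp : p ∈ EC b c) (ha3 : co b c a3 = (0, 1 / 2, -t))
    (ha4 : co b c a4 = (0, -(1 / 2), -t)) (h3 : ‖p - a3‖ ≤ 1) (h4 : ‖p - a4‖ ≤ 1) :
    4.32 ≤ divF (co b c p).1 (co b c p).2.1 ((co b c p).2.2 - t) := by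
  have h5 := star_r b c (p := p) ha3 ha4 (η := 0) (by nlinarith [norm_nonneg (p - a3)])
    (by nlinarith [norm_nonneg (p - a4)])
  have h6 := r_le (y := (co b c p).2.1) (w := (co b c p).2.2 - t) hp
  refine Helper29.MEI.div_ge (r := √((co b c p).2.1 ^ 2 + ((co b c p).2.2 - t) ^ 2))
    (Real.sqrt_nonneg _) (Real.sq_sqrt (by positivity)) ?_
  rw [Real.sq_sqrt (by positivity)]
  linarith

/-- **upper bound of the divergence** outside the spindle -/
theorem div_le_out {x y w : ℝ} (h : 1 / 4 ≤ x ^ 2 + (y ^ 2 + w ^ 2) + √3 * √(y ^ 2 + w ^ 2)) :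
    divF x y w ≤ 4.58 := by
  refine Helper29.MEI.div_le (r := √(y ^ 2 + w ^ 2)) (Real.sqrt_nonneg _)
    (Real.sq_sqrt (by positivity)) ?_
  rw [Real.sq_sqrt (by positivity)]
  exact h

/-- Cauchy-Schwarz: `√2 w + |y| ≤ √3 r` -/
theorem le_r3 (y w : ℝ) : √2 * w + |y| ≤ √3 * √(y ^ 2 + w ^ 2) := by
  rw [← Real.sqrt_mul (by norm_num)]
  refine Real.le_sqrt_of_sq_le ?_
  have h2 : √2 * √2 = (2 : ℝ) := Real.mul_self_sqrt (by norm_num)
  have h4 : (√2 * w + |y|) ^ 2 + (√2 * |y| - w) ^ 2 = 3 * (|y| ^ 2 + w ^ 2) := by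
    linear_combination (w ^ 2 + |y| ^ 2) * h2
  rw [← sq_abs y]
  nlinarith [sq_nonneg (√2 * |y| - w)]

/-- **upper bound of the divergence** at points of the bulge (outside one of the two balls) -/
theorem div_le_bulge {p a3 a4 : E3} (ha3 : co b c a3 = (0, 1 / 2, -t))
    (ha4 : co b c a4 = (0, -(1 / 2), -t)) (h : 1 < ‖p - a3‖ ∨ 1 < ‖p - a4‖) :
    divF (co b c p).1 (co b c p).2.1 ((co b c p).2.2 - t) ≤ 4.58 := by
  have h1 := le_r3 (co b c p).2.1 ((co b c p).2.2 - t)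
  have h2 := le_abs_self (co b c p).2.1
  have h3 := neg_abs_le (co b c p).2.1
  refine div_le_out ?_
  rcases h with h | h
  · have h5 := d3_eq b c (p := p) ha3
    have h6 : 1 < ‖p - a3‖ ^ 2 := by nlinarith
    linarith
  · have h5 := d4_eq b c (p := p) ha4
    have h6 : 1 < ‖p - a4‖ ^ 2 := by nlinarith
    linarith

/-- **lower bound of the divergence** in the spindle -/
theorem div_ge_spindle {x y w : ℝ}
    (h : x ^ 2 + (y ^ 2 + w ^ 2) + √3 * √(y ^ 2 + w ^ 2) ≤ 1 / 4) : 4.32 ≤ divF x y w := by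
  refine Helper29.MEI.div_ge (r := √(y ^ 2 + w ^ 2)) (Real.sqrt_nonneg _)
    (Real.sq_sqrt (by positivity)) ?_
  rw [Real.sq_sqrt (by positivity)]
  have h1 : √2 ≤ √3 := Real.sqrt_le_sqrt (by norm_num)
  have h2 := mul_le_mul_of_nonneg_right h1 (Real.sqrt_nonneg (y ^ 2 + w ^ 2))
  linarith

/-- the divergence is positive everywhere -/
theorem div_pos (x y w : ℝ) : 0 < divF x y w := by
  unfold divF NU
  have := DD_pos x y w
  positivity

theorem FD_ge (q : ℝ × ℝ × ℝ) : 1 / 4 ≤ FD q := DD_ge q.1 q.2.1 (q.2.2 - t)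

/-- `D ≤ 9/32` in the balls -/
theorem FD_le_star {p a3 a4 : E3} (hp : p ∈ EC b c) (ha3 : co b c a3 = (0, 1 / 2, -t))
    (ha4 : co b c a4 = (0, -(1 / 2), -t)) (h3 : ‖p - a3‖ ≤ 1) (h4 : ‖p - a4‖ ≤ 1) :
    FD (co b c p) ≤ 9 / 32 := by
  have h5 := star_r b c (p := p) ha3 ha4 (η := 0) (by nlinarith [norm_nonneg (p - a3)])
    (by nlinarith [norm_nonneg (p - a4)])
  have h6 := r_le (y := (co b c p).2.1) (w := (co b c p).2.2 - t) hp
  refine Helper29.MEI.Dn_le (r := √((co b c p).2.1 ^ 2 + ((co b c p).2.2 - t) ^ 2))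
    (Real.sqrt_nonneg _) (Real.sq_sqrt (by positivity)) ?_
  rw [Real.sq_sqrt (by positivity)]
  linarith

/-- `D ≤ 3/8` in the dodecahedron -/
theorem FD_le_dod {p : E3} (hp : p ∈ EC b c)
    (h : |(co b c p).1| + √2 * ((co b c p).2.2 - t) + |(co b c p).2.1| ≤ 1 / 2) :
    FD (co b c p) ≤ 3 / 8 := by
  have hw := EC_w b c hp
  have h1 : |(co b c p).2.1| < s * ((co b c p).2.2 - t) := hp
  have h2 := sqrt2_bd.1
  unfold FD
  set x := (co b c p).1
  set y := (co b c p).2.1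
  set w := (co b c p).2.2 - t
  rw [← sq_abs x, ← sq_abs y]
  have hx := abs_nonneg x
  have hy := abs_nonneg y
  have hss : √2 * √2 = (2 : ℝ) := Real.mul_self_sqrt (by norm_num)
  have h3 : (√2 * w) ^ 2 = 2 * w ^ 2 := by linear_combination w ^ 2 * hss
  have h4 : 0 ≤ √2 * w := by positivity
  -- `x^2/8 + y^2 + w^2 ≤ (|x| + |y| + √2 w)^2/2`
  have h6 : |y| ≤ √2 * w := by
    have : s ≤ √2 := by unfold s; linarith
    nlinarith
  have h5 : |x| ^ 2 / 8 + (|y| ^ 2 + w ^ 2) ≤ (|x| + √2 * w + |y|) ^ 2 / 2 := by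
    nlinarith [mul_nonneg hx h4, mul_nonneg hx hy, mul_nonneg h4 hy,
      mul_nonneg hy (sub_nonneg.2 h6), mul_nonneg hx hx]
  have h7 : (|x| + √2 * w + |y|) ^ 2 ≤ (1 / 2) ^ 2 :=
    pow_le_pow_left₀ (by positivity) h 2
  linarith

/-- **`div F~ ≥ 12.2`**, `F~ = 4 (w + 1/√2) F`, in the balls -/
theorem divt_ge_star {p a3 a4 : E3} (hp : p ∈ EC b c) (ha3 : co b c a3 = (0, 1 / 2, -t))
    (ha4 : co b c a4 = (0, -(1 / 2), -t)) (h3 : ‖p - a3‖ ≤ 1) (h4 : ‖p - a4‖ ≤ 1) :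
    12.2 ≤ 4 * ((co b c p).2.2 + t) * divF (co b c p).1 (co b c p).2.1 ((co b c p).2.2 - t)
      + 4 * Fc (co b c p) := by
  have h5 := div_ge_star b c hp ha3 ha4 h3 h4
  have hw := EC_w b c hp
  have ht := t_bd.1
  have h6 : 0 ≤ Fc (co b c p) := by
    unfold Fc
    have := FD_pos (co b c p)
    positivity
  have h7 : 2 * t ≤ (co b c p).2.2 + t := by linarith
  have h8 : 4 * (2 * t) * 4.32 ≤ 4 * ((co b c p).2.2 + t)
      * divF (co b c p).1 (co b c p).2.1 ((co b c p).2.2 - t) := by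
    have h9 : (0 : ℝ) ≤ 2 * t := by linarith
    have := mul_le_mul h7 h5 (by norm_num) (by linarith)
    linarith
  linarith

/-- depth bound in regime I -/
theorem w_le_reg {x y w : ℝ} (hw : 0 ≤ w)
    (h : x ^ 2 + (y ^ 2 + w ^ 2) + (√2 * w + |y|) ≤ 1 / 4 + 0.002) : w ≤ 0.1602 := by
  have h2 := sqrt2_bd.1
  by_contra hc
  push Not at hc
  have h3 := abs_nonneg y
  nlinarith [sq_nonneg x, sq_nonneg y]

/-- **`div F~ ≤ 17.2`** outside the spindle in regime I -/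
theorem divt_le_out {x y w : ℝ} (hw : 0 ≤ w)
    (h : x ^ 2 + (y ^ 2 + w ^ 2) + (√2 * w + |y|) ≤ 1 / 4 + 0.002)
    (ho : 1 / 4 ≤ x ^ 2 + (y ^ 2 + w ^ 2) + √3 * √(y ^ 2 + w ^ 2)) :
    4 * (w + 2 * t) * divF x y w + 4 * (1 / 2 * w / DD x y w) ≤ 17.2 := by
  have h1 := w_le_reg hw h
  have h2 := div_le_out ho
  have h3 := (div_pos x y w).le
  have h4 := t_bd.2
  have h5 := t_pos
  have hD := DD_ge x y w
  have h6 : 1 / 2 * w / DD x y w ≤ 2 * w := by
    rw [div_le_iff₀ (by linarith)]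
    nlinarith
  have h7 : 4 * (w + 2 * t) ≤ 4 * (0.1602 + 0.70716) := by linarith
  have h8 : 4 * (w + 2 * t) * divF x y w ≤ 4 * (0.1602 + 0.70716) * 4.58 :=
    mul_le_mul h7 h2 h3 (by norm_num)
  linarith

/-- excess of `F~` -/
theorem edge_id_t {p q a1 a2 : E3} (h : ‖p - q‖ = 1) (ha1 : co b c a1 = (1 / 2, 0, t))
    (ha2 : co b c a2 = (-(1 / 2), 0, t)) :
    ⟪(4 * ((co b c p).2.2 + t)) • fld b c Fa Fb Fc p, p - q⟫ = ((co b c p).2.2 + t)
      + ((co b c p).2.2 + t)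
      * ((1 / 2 + 7 / 16 * (co b c p).1) * (1 - ‖q - a1‖ ^ 2)
        + (1 / 2 - 7 / 16 * (co b c p).1) * (1 - ‖q - a2‖ ^ 2)) / FD (co b c p) := by
  rw [real_inner_smul_left, edge_id b c h ha1 ha2]
  have := (FD_pos (co b c p)).ne'
  field_simp

end Helper78.MEI
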