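import Pool.Agent.Helper78.MEI.K4c

/-!
# Project MEI, row K4, part 4: the reference number for the edge cell
-/

namespace Helper78.MEI.K4

open Set MeasureTheory Filter Topology Metric
open Helper22.MEI Helper22.Wedge Pool.Agent.Helper8.MEI
open Pool.Agent.Helper95.MEI.Cst (As AsE sh cs sh_mp sh_emb cs_mp cs_emb As_meas AsE_meas)

/-- reflection -/
noncomputable def rf (q : ℝ × ℝ × ℝ) : ℝ × ℝ × ℝ := (q.1, -q.2.1, q.2.2)

theorem rf_mp : MeasurePreserving rf volume volume :=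
  (MeasurePreserving.id volume).prod
    ((Measure.measurePreserving_neg volume).prod (MeasurePreserving.id volume))

theorem rf_cont : Continuous rf := by unfold rf; fun_prop

theorem rf_emb : MeasurableEmbedding rf := by
  refine rf_cont.measurableEmbedding fun p q h => ?_
  unfold rf at h
  simp only [Prod.mk.injEq, neg_inj] at h
  exact Prod.ext h.1 (Prod.ext h.2.1 h.2.2)

theorem P_rf (q : ℝ × ℝ × ℝ) : P (rf q) = P q := by
  unfold P divF DD NU rf
  simp

theorem sph_null : volume {q : ℝ × ℝ × ℝ | R2 q = 1} = 0 := by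
  have c : Continuous R2 := by unfold R2; fun_prop
  have m : MeasurableSet {q : ℝ × ℝ × ℝ | R2 q = 1} :=
    measurableSet_eq_fun c.measurable measurable_const
  rw [Measure.volume_eq_prod, Measure.measure_prod_null m]
  refine Eventually.of_forall fun x => ?_
  have m2 : MeasurableSet (Prod.mk x ⁻¹' {q : ℝ × ℝ × ℝ | R2 q = 1}) := measurable_prodMk_left m
  show (volume : Measure (ℝ × ℝ)) (Prod.mk x ⁻¹' {q : ℝ × ℝ × ℝ | R2 q = 1}) = 0
  rw [Measure.volume_eq_prod, Measure.measure_prod_null m2]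
  refine Eventually.of_forall fun y => ?_
  show volume (Prod.mk y ⁻¹' (Prod.mk x ⁻¹' {q : ℝ × ℝ × ℝ | R2 q = 1})) = 0
  refine Set.Finite.measure_zero (Set.Finite.subset
    (Set.toFinite {-t + √(1 - x ^ 2 - (y + 1 / 2) ^ 2), -t - √(1 - x ^ 2 - (y + 1 / 2) ^ 2)}) ?_) _
  intro z hz
  have h1 : x ^ 2 + (y + 1 / 2) ^ 2 + (z + t) ^ 2 = 1 := hz
  have h2 : √(1 - x ^ 2 - (y + 1 / 2) ^ 2) = |z + t| := by
    rw [← Real.sqrt_sq_eq_abs]
    congr 1
    linarith
  rw [h2]
  rcases abs_choice (z + t) with h | h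
  · left; rw [h]; ring
  · right; rw [mem_singleton_iff, h]; ring

theorem y_null : volume {q : ℝ × ℝ × ℝ | q.2.1 = 0} = 0 := by
  have h1 : Measure.QuasiMeasurePreserving (fun q : ℝ × ℝ × ℝ => q.2.1) volume volume :=
    Measure.quasiMeasurePreserving_fst.comp Measure.quasiMeasurePreserving_snd
  exact h1.preimage_null (s := {(0 : ℝ)}) (by simp)

/-- the cell in the coordinates `(x, y, z)` -/
def Aq : Set (ℝ × ℝ × ℝ) := sh ⁻¹' As

theorem Aq_iff {q : ℝ × ℝ × ℝ} : q ∈ Aq ↔ |q.2.1| < √2 / 2 * (q.2.2 - t) ∧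
    q.1 ^ 2 + q.2.1 ^ 2 + (q.2.2 - t) ^ 2 + √2 * (q.2.2 - t) + |q.2.1| ≤ 1 / 4 := Iff.rfl

theorem t_eq : √2 = 4 * t := by unfold t; ring

theorem t2 : t ^ 2 = 1 / 8 := by
  have h : √2 ^ 2 = (2 : ℝ) := Real.sq_sqrt (by norm_num)
  unfold t
  nlinarith

theorem half_of {q : ℝ × ℝ × ℝ} (h1 : 0 < q.2.1) (h2 : q ∈ Aq) (h3 : R2 q ≠ 1) : q ∈ Ap := by
  obtain ⟨a, b⟩ := Aq_iff.1 h2
  rw [abs_of_pos h1] at a b
  have e : R2 q = q.1 ^ 2 + q.2.1 ^ 2 + (q.2.2 - t) ^ 2 + √2 * (q.2.2 - t) + q.2.1 + 3 / 4 := by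
    unfold R2
    rw [t_eq]
    linear_combination (4 : ℝ) * t2
  have h4 : R2 q < 1 := lt_of_le_of_ne (by linarith) h3
  refine Ap_iff.2 ⟨h1, ?_, ?_⟩
  · unfold lw
    have h5 : √2 ^ 2 = (2 : ℝ) := Real.sq_sqrt (by norm_num)
    have h6 : 0 < √2 := by positivity
    have h7 : √2 * q.2.1 < √2 * (√2 / 2 * (q.2.2 - t)) := mul_lt_mul_of_pos_left a h6
    have h8 : √2 * (√2 / 2 * (q.2.2 - t)) = q.2.2 - t := by
      linear_combination (1 / 2 * (q.2.2 - t)) * h5
    linarith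
  · have := R_sq q
    nlinarith [R_nonneg q]

theorem Aq_rf {q : ℝ × ℝ × ℝ} (h : q ∈ Aq) : rf q ∈ Aq := by
  rw [Aq_iff] at h ⊢
  unfold rf
  simp only [abs_neg, neg_sq]
  exact h

theorem disj : Disjoint Ap (rf ⁻¹' Ap) := by
  rw [Set.disjoint_left]
  intro q h1 h2
  have a := (Ap_iff.1 h1).1
  have b := (Ap_iff.1 h2).1
  unfold rf at b
  simp only at b
  linarith

theorem P_nonneg {q : ℝ × ℝ × ℝ} (hq : q ∈ Ap) : 0 ≤ P q := by
  obtain ⟨h1, h2, h3, h4, h5, h6, h7⟩ := Ap_bd hq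
  have ht := t_lo
  unfold P
  have a : 0 ≤ divF q.1 q.2.1 (q.2.2 - t) := by unfold divF NU; positivity
  have b := DD_pos q.1 q.2.1 (q.2.2 - t)
  have c1 : 0 ≤ 4 * (q.2.2 + t) * divF q.1 q.2.1 (q.2.2 - t) :=
    mul_nonneg (by linarith) a
  have c2 : 0 ≤ 2 * (q.2.2 - t) / DD q.1 q.2.1 (q.2.2 - t) := div_nonneg (by linarith) b.le
  linarith

theorem int_Aq : ∫ q in Aq, P q ≤ cz := by
  have mR : MeasurableSet (rf ⁻¹' Ap) := rf_cont.measurable Ap_meas
  have i1 := Ap_int P_cont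
  have i2 : IntegrableOn P (rf ⁻¹' Ap) := by
    have h := (rf_mp.integrableOn_comp_preimage rf_emb (s := Ap)).2 i1
    refine h.congr_fun (fun q _ => ?_) mR
    exact P_rf q
  have h1 : ∫ q in Aq, P q ≤ ∫ q in Ap ∪ rf ⁻¹' Ap, P q := by
    refine setIntegral_mono_set (i1.union i2) ?_ ?_
    · refine (ae_restrict_iff' (Ap_meas.union mR)).2 (ae_of_all _ fun q hq => ?_)
      rcases hq with hq | hq
      · exact P_nonneg hq
      · have := P_nonneg (q := rf q) hq
        rw [P_rf] at this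
        exact this
    · rw [ae_le_set]
      have n2 : volume (rf ⁻¹' {q : ℝ × ℝ × ℝ | R2 q = 1}) = 0 :=
        rf_mp.quasiMeasurePreserving.preimage_null sph_null
      refine measure_mono_null ?_ (measure_union_null y_null (measure_union_null sph_null n2))
      intro q hq
      obtain ⟨ha, hb⟩ := hq
      by_contra hc
      simp only [mem_union, not_or] at hb hc
      obtain ⟨c1, c2, c3⟩ := hc
      rcases lt_trichotomy q.2.1 0 with h | h | h
      · refine hb.2 (half_of (q := rf q) ?_ (Aq_rf ha) c3)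
        unfold rf
        simp only
        linarith
      · exact c1 h
      · exact hb.1 (half_of h ha c2)
  refine h1.trans ?_
  rw [setIntegral_union disj mR i1 i2]
  have e : ∫ q in rf ⁻¹' Ap, P q = ∫ q in Ap, P q := by
    have h := rf_mp.setIntegral_preimage_emb rf_emb P Ap
    rw [← h]
    exact setIntegral_congr_fun mR fun q _ => (P_rf q).symm
  rw [e]
  linarith [int_P_le]

/-- the integrand in the coordinates `(x, y, w)` -/
noncomputable def Pw (p : ℝ × ℝ × ℝ) : ℝ :=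
  4 * (p.2.2 + 2 * t) * divF p.1 p.2.1 p.2.2 + 2 * p.2.2 / DD p.1 p.2.1 p.2.2

theorem P_eq (q : ℝ × ℝ × ℝ) : P q = Pw (sh q) := by
  unfold P Pw sh
  simp only
  congr 3
  ring

theorem int_As_Pw : ∫ p in As, Pw p ≤ cz := by
  have h := sh_mp.setIntegral_preimage_emb sh_emb Pw As
  rw [← h]
  have e : ∫ q in sh ⁻¹' As, Pw (sh q) = ∫ q in Aq, P q := by
    refine setIntegral_congr_fun (sh_emb.measurable As_meas) fun q _ => (P_eq q).symm
  rw [e]
  exact int_Aq

/-- **reference number of the depth integral** in the edge cell of the frame `(b, c)` -/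
theorem int_AsE_P (b : OrthonormalBasis (Fin 3) ℝ (EuclideanSpace ℝ (Fin 3)))
    (c : EuclideanSpace ℝ (Fin 3)) :
    ∫ x in AsE b c, P (co b c x) ≤ cz := by
  have h := (cs_mp b c).setIntegral_preimage_emb (cs_emb b c) Pw As
  have e : ∫ x in AsE b c, P (co b c x) = ∫ x in cs b c ⁻¹' As, Pw (cs b c x) :=
    setIntegral_congr_fun (AsE_meas b c) fun x _ => P_eq (co b c x)
  rw [e, h]
  exact int_As_Pw

theorem cz_bd : 0.1045 < cz ∧ cz < 0.10465 := by
  have h1 := Real.pi_gt_d4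
  have h2 := Real.pi_lt_d4
  have h3 : √3 ^ 2 = (3 : ℝ) := Real.sq_sqrt (by norm_num)
  have h4 : 0 < √3 := by positivity
  have h5 : 1.73205 < √3 := Real.lt_sqrt_of_sq_lt (by norm_num)
  have h6 : √3 < 1.73206 := by
    rw [Real.sqrt_lt' (by norm_num)]
    norm_num
  unfold cz
  constructor
  · have : 0.6045 < Real.pi / (3 * √3) := by
      rw [lt_div_iff₀ (by positivity)]
      linarith
    linarith
  · have : Real.pi / (3 * √3) < 0.60465 := by
      rw [div_lt_iff₀ (by positivity)]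
      linarith
    linarith

end Helper78.MEI.K4
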