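import Pool.Agent.Helper78.MEI.Face
import Pool.Agent.Helper52.MEI.Plane
import Pool.Agent.Helper93.MEI.Wr

/-!
# Project MEI (M2), faces: cost through the range `W`, nodes of the body

* `face_W`: certificate `G`, mass deficit `D`, range `w ≤ W t`, explicit cost;
* `face_plane_W`: the same for the exact filling in the contact plane form, with the residual
  masses as parameters;
* `node_load`, `pt_load`: the loads of points of the body.
-/

namespace Helper78.MEI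

open Set Metric MeasureTheory Real Helper80.CW Helper82.CW Helper14.CW Helper22.Sig
open Helper22.Wedge Helper14.MEI2 Pool.Agent.Helper73.MEI Helper33.MEI Helper93.MEI
open Pool.Agent.Helper52.MEI
open Pool.Agent.Helper55.Sx (Sim mm mm_pos mm_cont mt_mm deg1 int_Dl)
open Pool.Agent.Helper55.Mass (LN vv vv_nonneg vv_le B0)
open Pool.Agent.Helper55.Apex (nc)
open Pool.Agent.Helper55.Fill (xx rr xe wc xe_bal rr_nonneg xx_meas rr_meas xx_nonneg xx_le rr_int)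
open scoped RealInnerProductSpace ENNReal

variable {a : Fin 4 → E3} {σ : Measure (E3 × E3)} [IsFiniteMeasure σ] {K : Set E3}

/-- the cost of the term with `w ≤ W`: `g = G / m`, `c = 1 - (1 - D) / m` -/
noncomputable def cost (A' g c W : ℝ) : ℝ :=
  pp (A' * c + 0.127 / (1 - W / 2)) * W + A' * pp (c * W - g) * (W / 2 / (1 - W / 2))

theorem cost_nonneg {A' g c W : ℝ} (hA : 0 ≤ A') (hW0 : 0 ≤ W) (hW : W < 2) :
    0 ≤ cost A' g c W := by
  have d : 0 < 1 - W / 2 := by linarith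
  have q0 := pp_nonneg (c * W - g)
  have q1 := pp_nonneg (A' * c + 0.127 / (1 - W / 2))
  unfold cost
  positivity

theorem face_W (h : PM K σ) (ha : ∀ i j, i ≠ j → dist (a i) (a j) = 1)
    (hull : ∀ p, (∀ q ∈ K, ‖p - q‖ ≤ 1) → p ∈ K) (hQ : ∀ i, ∀ q ∈ K, Qv a i q ≤ 3 / 16)
    (τ : Equiv.Perm (Fin 4)) {A : ℝ} (hA : 7 / 2 ≤ A) {G D W ω : ℝ × ℝ → ℝ} {C1 C2 : ℝ}
    (hG : Measurable G) (hGC : ∀ t ∈ Sim, |G t| ≤ C1)
    (hω : AEStronglyMeasurable ω (volume.restrict Dl)) (hωC : ∀ t ∈ Dl, |ω t| ≤ C2)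
    {s : ℝ × ℝ → ℝ} (hs : ∀ t ∈ Dl, 0 ≤ s t)
    (own : ∀ p ∈ K, tx (fun i => a (τ i)) p ∈ Dl →
      Qv a (τ 0) p ≤ s (tx (fun i => a (τ i)) p))
    (hY : ∀ t ∈ Dl, ∀ q ∈ K, G t + (1 - D t) * ‖a (τ 0) - q‖ ^ 2 ≤ Yt (fun i => a (τ i)) t q)
    (hW : ∀ t ∈ Dl, ∀ q ∈ K,
      Yt (fun i => a (τ i)) t q / √(Helper33.MEI.mt t) - ‖a (τ 0) - q‖ ^ 2 ≤ s t →
      ‖a (τ 0) - q‖ ^ 2 ≤ W t) (hW2 : ∀ t ∈ Dl, W t < 2)
    (hc : ∀ t ∈ Dl, cost (A / 2 + 1 / 8) (G t / √(Helper33.MEI.mt t))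
      (1 - (1 - D t) / √(Helper33.MEI.mt t)) (W t) ≤ ω t) :
    (A / 2 + 1 / 8) * Pool.Agent.Helper55.Mass.Id G - (√2)⁻¹ * ∫ t in Dl, ω t * M3 t ≤
      Wi a (τ 0) K σ A := by
  have hA' : 0 ≤ A / 2 + 1 / 8 := by linarith
  refine face_cert h ha hull hQ τ hA hG hGC hω hωC hs own ?_
  intro t ht q hq hX
  have hw : ‖a (τ 0) - q‖ ^ 2 ≤ 19 / 16 := by
    have h1 := hQ (τ 0) q hq
    unfold Qv at h1
    rw [norm_sub_rev]
    linarith
  have k1 := ff_Yt (a := fun i => a (τ i)) (t := t) hA' (lt_of_le_of_lt hw (by norm_num))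
    (hY t ht q hq)
  have k2 := ff_ge (A := A / 2 + 1 / 8) (g := G t / √(Helper33.MEI.mt t))
    (c := 1 - (1 - D t) / √(Helper33.MEI.mt t)) hA' (sq_nonneg ‖a (τ 0) - q‖)
    (hW t ht q hq hX) (hW2 t ht)
  have k3 := hc t ht
  unfold cost at k3
  refine le_trans ?_ (k2.trans k1)
  linarith

/-- **node on a contact point**: normalised so that the coordinate `j` is one -/
theorem node_load (h : Gram4 (al a)) {P q : E3} (hPq : ‖P - q‖ ≤ 1) (hq : Pl a q) {j : Fin 3}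
    (hj : 0 < b3 a P j) {N : Fin 3 → Fin 3 → ℝ} (hjj : 0 ≤ N j j)
    (hN : ∀ k, k ≠ j → b3 a P k ≤ N k j * b3 a P j) :
    Load a q (Qv a 0 P / b3 a P j) (1 / b3 a P j)
      (fun k => (if k = j then 1 else 0) + N k j) := by
  have h1 := Load.pt h (M := fun k => b3 a P j * ((if k = j then 1 else 0) + N k j)) hPq hq
    (fun k => by
      by_cases hk : k = j
      · rw [hk, if_pos rfl]
        have := mul_nonneg hj.le hjj
        linarith
      · rw [if_neg hk, zero_add]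
        have := hN k hk
        linarith)
  have h2 := h1.smul (inv_nonneg.2 hj.le)
  have e1 : (b3 a P j)⁻¹ * Qv a 0 P = Qv a 0 P / b3 a P j := by ring
  have e2 : (b3 a P j)⁻¹ * 1 = 1 / b3 a P j := by ring
  have e3 : (fun k => (b3 a P j)⁻¹ * (b3 a P j * ((if k = j then 1 else 0) + N k j))) =
      (fun k => (if k = j then 1 else 0) + N k j) := by
    funext k
    rw [← mul_assoc, inv_mul_cancel₀ hj.ne', one_mul]
  rw [e1, e2, e3] at h2
  exact h2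

section plane
open Pool.Agent.Helper55.Mass (vv_int)
open Pool.Agent.Helper55.Sx (Sim_meas)

/-- contact plane form of the value, residual masses `r k` as parameters -/
theorem plane_Id {ι : Type*} [Fintype ι] {N : Fin 3 → Fin 3 → ℝ} (hN : ∀ k m, 0 ≤ N k m) {c : ℝ}
    (hc : c < 1) (hcol : ∀ m, nc N m ≤ c) {al : ι → ℝ × ℝ → ℝ}
    (hal : ∀ m, IntegrableOn (fun t => al m t / mm t ^ 2) Sim) {ζ : ι → Fin 3 → ℝ} {L : ι → ℝ}
    {R S h r : Fin 3 → ℝ} (hh : ∀ j, h j + (N 0 j * h 0 + N 1 j * h 1 + N 2 j * h 2) = R j)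
    (hr : ∀ k, Pool.Agent.Helper55.Mass.Id (fun t => rr N (vv t) k) ≤ r k) :
    ∑ m, (L m - ((ζ m 0 + LN N (ζ m) 0) * h 0 + (ζ m 1 + LN N (ζ m) 1) * h 1
          + (ζ m 2 + LN N (ζ m) 2) * h 2)) * Pool.Agent.Helper55.Mass.Id (al m)
      + B0 * (h 0 + h 1 + h 2)
      - (r 0 * max (S 0 + h 0) 0 + r 1 * max (S 1 + h 1) 0 + r 2 * max (S 2 + h 2) 0)
      ≤ Pool.Agent.Helper55.Mass.Id (Gd N al ζ L R S) := by
  have r0 := rr_int hN hc hcol (0 : Fin 3)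
  have r1 := rr_int hN hc hcol (1 : Fin 3)
  have r2 := rr_int hN hc hcol (2 : Fin 3)
  have v0 := vv_int 0
  have v1 := vv_int 1
  have v2 := vv_int 2
  set lm : ι → ℝ := fun m => L m - ((ζ m 0 + LN N (ζ m) 0) * h 0 + (ζ m 1 + LN N (ζ m) 1) * h 1
          + (ζ m 2 + LN N (ζ m) 2) * h 2) with hlm
  have hE : ∀ t : ℝ × ℝ, Gd N al ζ L R S t / mm t ^ 2
      = (∑ m, lm m * (al m t / mm t ^ 2))
        + (h 0 * (vv t 0 / mm t ^ 2) + h 1 * (vv t 1 / mm t ^ 2)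
          + h 2 * (vv t 2 / mm t ^ 2))
        - ((S 0 + h 0) * (rr N (vv t) 0 / mm t ^ 2) + (S 1 + h 1) * (rr N (vv t) 1 / mm t ^ 2)
          + (S 2 + h 2) * (rr N (vv t) 2 / mm t ^ 2)) := by
    intro t
    have e1 : ∑ m, lm m * (al m t / mm t ^ 2) = (∑ m, lm m * al m t) / mm t ^ 2 := by
      rw [Finset.sum_div]
      exact Finset.sum_congr rfl fun m _ => by ring
    unfold Gd
    rw [plane_ptw (N := N) (al := al) (ζ := ζ) (L := L) (S := S) hh t, e1]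
    ring
  have iA : IntegrableOn (fun t => ∑ m, lm m * (al m t / mm t ^ 2)) Sim :=
    integrable_finsetSum _ fun m _ => (hal m).const_mul _
  have iV : IntegrableOn (fun t => h 0 * (vv t 0 / mm t ^ 2) + h 1 * (vv t 1 / mm t ^ 2)
      + h 2 * (vv t 2 / mm t ^ 2)) Sim :=
    ((v0.const_mul _).add (v1.const_mul _)).add (v2.const_mul _)
  have iS : IntegrableOn (fun t => (S 0 + h 0) * (rr N (vv t) 0 / mm t ^ 2)
      + (S 1 + h 1) * (rr N (vv t) 1 / mm t ^ 2) + (S 2 + h 2) * (rr N (vv t) 2 / mm t ^ 2)) Sim :=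
    ((r0.const_mul _).add (r1.const_mul _)).add (r2.const_mul _)
  have hI : Pool.Agent.Helper55.Mass.Id (Gd N al ζ L R S)
      = ∑ m, lm m * Pool.Agent.Helper55.Mass.Id (al m)
        + B0 * (h 0 + h 1 + h 2)
        - ((S 0 + h 0) * Pool.Agent.Helper55.Mass.Id (fun t => rr N (vv t) 0)
          + (S 1 + h 1) * Pool.Agent.Helper55.Mass.Id (fun t => rr N (vv t) 1)
          + (S 2 + h 2) * Pool.Agent.Helper55.Mass.Id (fun t => rr N (vv t) 2)) := by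
    have q0 := Pool.Agent.Helper55.Mass.B0_eq 0
    have q1 := Pool.Agent.Helper55.Mass.B0_eq 1
    have q2 := Pool.Agent.Helper55.Mass.B0_eq 2
    unfold Pool.Agent.Helper55.Mass.Id
    simp only [hE]
    have k1 := integral_sub (iA.add iV) iS
    have k2 := integral_add iA iV
    have k3 := integral_add ((v0.const_mul (h 0)).add (v1.const_mul (h 1))) (v2.const_mul (h 2))
    have k4 := integral_add (v0.const_mul (h 0)) (v1.const_mul (h 1))
    have k5 := integral_add ((r0.const_mul (S 0 + h 0)).add (r1.const_mul (S 1 + h 1)))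
      (r2.const_mul (S 2 + h 2))
    have k6 := integral_add (r0.const_mul (S 0 + h 0)) (r1.const_mul (S 1 + h 1))
    have k7 : ∫ t in Sim, ∑ m, lm m * (al m t / mm t ^ 2)
        = ∑ m, lm m * ∫ t in Sim, al m t / mm t ^ 2 := by
      rw [integral_finsetSum _ fun m _ => (hal m).const_mul _]
      exact Finset.sum_congr rfl fun m _ => integral_const_mul _ _
    simp only [Pi.add_apply] at k1 k3 k5
    rw [k1, k2, k3, k4, k5, k6, k7]
    simp only [integral_const_mul]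
    have k8 : ∑ m, lm m * (1 / √2 * ∫ t in Sim, al m t / mm t ^ 2)
        = 1 / √2 * ∑ m, lm m * ∫ t in Sim, al m t / mm t ^ 2 := by
      rw [Finset.mul_sum]
      exact Finset.sum_congr rfl fun m _ => by ring
    rw [k8]
    linear_combination (h 0) * q0 + (h 1) * q1 + (h 2) * q2
  rw [hI]
  have hrn : ∀ k, 0 ≤ Pool.Agent.Helper55.Mass.Id (fun t => rr N (vv t) k) := fun k => by
    unfold Pool.Agent.Helper55.Mass.Id
    refine mul_nonneg (by positivity) (setIntegral_nonneg Sim_meas fun t ht => ?_)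
    exact div_nonneg (rr_nonneg hN hc hcol (fun k => vv_nonneg ht k) k) (by positivity)
  have key : ∀ k, (S k + h k) * Pool.Agent.Helper55.Mass.Id (fun t => rr N (vv t) k)
        ≤ r k * max (S k + h k) 0 := fun k => by
    have h1 := mul_le_mul_of_nonneg_right (le_max_left (S k + h k) 0) (hrn k)
    have h2 := mul_le_mul_of_nonneg_right (hr k) (le_max_right (S k + h k) 0)
    linarith
  have p0 := key 0
  have p1 := key 1
  have p2 := key 2
  linarith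

end plane

/-- **the exact filling, contact plane form, with the cost through the range.** `r k` = any upper
bound of the residual mass at the corner `k`, `H` = contact plane. -/
theorem face_plane_W {ι : Type*} [Fintype ι] (h : PM K σ)
    (ha : ∀ i j, i ≠ j → dist (a i) (a j) = 1)
    (hull : ∀ p, (∀ q ∈ K, ‖p - q‖ ≤ 1) → p ∈ K) (hQ : ∀ i, ∀ q ∈ K, Qv a i q ≤ 3 / 16)
    (τ : Equiv.Perm (Fin 4)) {A : ℝ} (hA : 7 / 2 ≤ A)
    {N : Fin 3 → Fin 3 → ℝ} (hN : ∀ k m, 0 ≤ N k m) {c : ℝ} (hc : c < 1)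
    (hcol : ∀ m, nc N m ≤ c)
    {al : ι → ℝ × ℝ → ℝ} (halm : ∀ m, Measurable (al m)) (hal : ∀ m, ∀ t ∈ Sim, 0 ≤ al m t)
    {Ca : ℝ} (halC : ∀ m, ∀ t ∈ Sim, al m t ≤ Ca)
    {ζ : ι → Fin 3 → ℝ} {L μx : ι → ℝ} {R S μ H r : Fin 3 → ℝ}
    (hH : ∀ j, H j + (N 0 j * H 0 + N 1 j * H 1 + N 2 j * H 2) = R j)
    (hr : ∀ k, Pool.Agent.Helper55.Mass.Id (fun t => rr N (vv t) k) ≤ r k)
    (hxe : ∀ t ∈ Sim, ∀ j, 0 ≤ xe N al ζ t j)
    (nodes : ∀ q ∈ K, ∀ j, Load (fun i => a (τ i)) q (R j) (μ j)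
      (fun k => (if k = j then 1 else 0) + N k j))
    (extra : ∀ q ∈ K, ∀ m, Load (fun i => a (τ i)) q (L m) (μx m)
      (fun k => ζ m k + LN N (ζ m) k))
    (caps : ∀ q ∈ K, Qv a (τ 1) q ≤ S 0 ∧ Qv a (τ 2) q ≤ S 1 ∧ Qv a (τ 3) q ≤ S 2)
    {D W ω : ℝ × ℝ → ℝ} {C2 : ℝ} (hD : ∀ t ∈ Dl, Dd N al ζ μ μx t ≤ D t)
    (hω : AEStronglyMeasurable ω (volume.restrict Dl)) (hωC : ∀ t ∈ Dl, |ω t| ≤ C2)
    {s : ℝ × ℝ → ℝ} (hs : ∀ t ∈ Dl, 0 ≤ s t)
    (own : ∀ p ∈ K, tx (fun i => a (τ i)) p ∈ Dl →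
      Qv a (τ 0) p ≤ s (tx (fun i => a (τ i)) p))
    (hW : ∀ t ∈ Dl, ∀ q ∈ K,
      Yt (fun i => a (τ i)) t q / √(Helper33.MEI.mt t) - ‖a (τ 0) - q‖ ^ 2 ≤ s t →
      ‖a (τ 0) - q‖ ^ 2 ≤ W t) (hW2 : ∀ t ∈ Dl, W t < 2)
    (hcost : ∀ t ∈ Dl, cost (A / 2 + 1 / 8)
      (Gd N al ζ L R S t / √(Helper33.MEI.mt t))
      (1 - (1 - D t) / √(Helper33.MEI.mt t)) (W t) ≤ ω t) :
    (A / 2 + 1 / 8) *
      (∑ m, (L m - ((ζ m 0 + LN N (ζ m) 0) * H 0 + (ζ m 1 + LN N (ζ m) 1) * H 1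
          + (ζ m 2 + LN N (ζ m) 2) * H 2)) * Pool.Agent.Helper55.Mass.Id (al m)
        + B0 * (H 0 + H 1 + H 2)
        - (r 0 * max (S 0 + H 0) 0 + r 1 * max (S 1 + H 1) 0 + r 2 * max (S 2 + H 2) 0))
      - (√2)⁻¹ * ∫ t in Dl, ω t * M3 t ≤ Wi a (τ 0) K σ A := by
  have ha' : ∀ i j, i ≠ j → dist (a (τ i)) (a (τ j)) = 1 :=
    fun i j hij => ha _ _ fun h => hij (τ.injective h)
  have hgr := gram_of_dist ha'
  have halA : ∀ m, ∀ t ∈ Sim, |al m t| ≤ Ca := fun m t ht => by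
    rw [abs_of_nonneg (hal m t ht)]
    exact halC m t ht
  obtain ⟨C1, hC1⟩ := Gd_bd hN hc hcol halA ζ L R S
  have hint : ∀ m, IntegrableOn (fun t => al m t / mm t ^ 2) Sim := fun m =>
    Pool.Agent.Helper55.Mass.intOn (halm m) (halA m)
  have hY : ∀ t ∈ Dl, ∀ q ∈ K, Gd N al ζ L R S t + (1 - D t) * ‖a (τ 0) - q‖ ^ 2 ≤
      Yt (fun i => a (τ i)) t q := by
    intro t ht q hq
    have k1 := fill_Yt hgr hN hc hcol (Dl_Sim ht) (fun m => hal m t (Dl_Sim ht))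
      (hxe t (Dl_Sim ht)) (nodes q hq) (extra q hq) (caps q hq).1 (caps q hq).2.1
      (caps q hq).2.2
    have k2 := mul_le_mul_of_nonneg_right (hD t ht) (sq_nonneg ‖a (τ 0) - q‖)
    linarith
  have key := face_W h ha hull hQ τ hA (Gd_meas hN hc hcol halm ζ L R S) hC1 hω hωC hs own
    hY hW hW2 hcost
  have hv := plane_Id hN hc hcol hint (ζ := ζ) (L := L) (S := S) hH hr
  have hA' : 0 ≤ A / 2 + 1 / 8 := by linarith
  have hv' := mul_le_mul_of_nonneg_left hv hA'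
  linarith only [hv', key]

end Helper78.MEI
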