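import Pool.Agent.Helper78.MEI.End4
import Pool.Agent.Helper41.MEI.ArcK

/-!
# Project MEI (M2): the four-face end, `κ = .26` with the constants of the assembly as parameters

`Asm c0 c1 c3` = the assembly; `coreP_K` = the core statement on a set of states from per-face
inequalities; `coreP_I`, `coreP_II` = the same for the two older assemblies; `coreP_or` glues sets.
-/

set_option autoImplicit false

namespace Helper78.MEI

open Set Metric MeasureTheory Filter Topology Helper93.MEI Helper80.CW Helper14.CW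
open Helper14.MEI2 Pool.Agent.Helper73.MEI Helper82.M2 Helper82.CW Helper41.MEI
open Helper33.MEI (Wi)
open scoped RealInnerProductSpace

/-- the assembly with `κ = .26` and the constants `c0, c1, c3` -/
def Asm (c0 c1 c3 : ℝ) : Prop :=
  ∀ (K : Set E3) (σ : Measure (E3 × E3)), IsFiniteMeasure σ →
  ∀ a c : Fin 4 → E3, CN K σ a c → ∀ S : Fin 4 → ℝ, Viol K a S →
    ∑ i, (Wi a i K σ 3.83 - LLs σ a (l2 a) i - (c1 * S i + c3 * S i ^ 3)) - c0 ≤
      4.08 * (volume.real K - VM)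

theorem asm_26 : Asm 6.0e-4 0.0284 0.501 := by
  intro K σ hσ a c hC S hV
  obtain ⟨B, hB⟩ := frames hC.ha
  exact asm26 (B := B) hC.pm hC.ha hC.hp hC.hz hC.hull hB (s := S) hV.nn
    (fun i => (hV.le_ap hC i).trans (by norm_num)) hV.le

theorem CoreP.or {P Q : (Fin 4 → ℝ) → Prop} {X κ : ℝ} (h1 : CoreP P X κ) (h2 : CoreP Q X κ) :
    CoreP (fun S => P S ∨ Q S) X κ := by
  intro K σ hσ a c hC hX S hV hS i
  rcases hS with h | h
  · exact h1 K σ hσ a c hC hX S hV h i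
  · exact h2 K σ hσ a c hC hX S hV h i

/-- **core statement from per-face inequalities, assembly `Asm c0 c1 c3`** -/
theorem coreP_K {c0 c1 c3 : ℝ} (hA : Asm c0 c1 c3) {P : (Fin 4 → ℝ) → Prop} {X κ : ℝ}
    (hκ : 0 ≤ κ)
    (H : ∀ (K : Set E3) (σ : Measure (E3 × E3)), IsFiniteMeasure σ →
      ∀ a c : Fin 4 → E3, CN K σ a c → EpsLe c X → ∀ S : Fin 4 → ℝ, Viol K a S → P S →
      ∃ F : Fin 4 → ℝ, (∀ i, LLs σ a (l2 a) i + F i ≤ Wi a i K σ 3.83) ∧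
        c0 + ∑ i, (c1 * S i + c3 * S i ^ 3) + 4.08 * κ * (∑ i, S i) ≤ ∑ i, F i) :
    CoreP P X κ := by
  intro K σ hσ a c hC hX S hV hP i
  obtain ⟨F, hF, hs⟩ := H K σ hσ a c hC hX S hV hP
  have h1 := hA K σ hσ a c hC S hV
  have hi : S i ≤ ∑ j, S j := Finset.single_le_sum (f := S) (fun j _ => hV.nn j)
    (Finset.mem_univ i)
  have h2 := mul_le_mul_of_nonneg_left hi hκ
  rw [Fin.sum_univ_four] at h1 hs
  rw [Fin.sum_univ_four (f := F)] at hs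
  have f0 := hF 0
  have f1 := hF 1
  have f2 := hF 2
  have f3 := hF 3
  linarith

/-- **core statement from per-face inequalities, `κ = .13`** -/
theorem coreP_II {P : (Fin 4 → ℝ) → Prop} {X κ : ℝ} (hκ : 0 ≤ κ)
    (H : ∀ (K : Set E3) (σ : Measure (E3 × E3)), IsFiniteMeasure σ →
      ∀ a c : Fin 4 → E3, CN K σ a c → EpsLe c X → ∀ S : Fin 4 → ℝ, Viol K a S → P S →
      ∃ F : Fin 4 → ℝ, (∀ i, LLs σ a (l2 a) i + F i ≤ Wi a i K σ 3.7) ∧
        3.0e-4 + ∑ i, (0.0295 * S i + 0.092 * S i ^ 2 + 0.46 * S i ^ 3)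
          + 3.95 * κ * (∑ i, S i) ≤ ∑ i, F i) : CoreP P X κ := by
  intro K σ hσ a c hC hX S hV hP i
  obtain ⟨F, hF, hs⟩ := H K σ hσ a c hC hX S hV hP
  exact end_II hC hV hκ hF hs i

/-- **core statement from per-face inequalities, small violations** -/
theorem coreP_I {P : (Fin 4 → ℝ) → Prop} {X κ : ℝ} (hκ : 0 ≤ κ)
    (hP : ∀ S, P S → ∀ i, S i ≤ 0.002)
    (H : ∀ (K : Set E3) (σ : Measure (E3 × E3)), IsFiniteMeasure σ →
      ∀ a c : Fin 4 → E3, CN K σ a c → EpsLe c X → ∀ S : Fin 4 → ℝ, Viol K a S → P S →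
      ∃ F : Fin 4 → ℝ, (∀ i, LLs σ a (l1 a) i + F i ≤ Wi a i K σ 3.92) ∧
        (0.1126 + 4.17 * κ) * (∑ i, S i) ≤ ∑ i, F i) : CoreP P X κ := by
  intro K σ hσ a c hC hX S hV hS i
  obtain ⟨F, hF, hs⟩ := H K σ hσ a c hC hX S hV hS
  exact end_I hC hV hκ (hP S hS) hF hs i

/-- two regimes: all `S i ≤ .002` (small assembly), or `Asm c0 c1 c3` -/
theorem coreP_two {c0 c1 c3 : ℝ} (hA : Asm c0 c1 c3) {P : (Fin 4 → ℝ) → Prop} {X κ : ℝ}
    (hκ : 0 ≤ κ)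
    (H2 : ∀ (K : Set E3) (σ : Measure (E3 × E3)), IsFiniteMeasure σ →
      ∀ a c : Fin 4 → E3, CN K σ a c → EpsLe c X → ∀ S : Fin 4 → ℝ, Viol K a S → P S →
      (∃ i, 0.002 < S i) → ∃ F : Fin 4 → ℝ,
        (∀ i, LLs σ a (l2 a) i + F i ≤ Wi a i K σ 3.83) ∧
        c0 + ∑ i, (c1 * S i + c3 * S i ^ 3) + 4.08 * κ * (∑ i, S i) ≤ ∑ i, F i)
    (H1 : ∀ (K : Set E3) (σ : Measure (E3 × E3)), IsFiniteMeasure σ →
      ∀ a c : Fin 4 → E3, CN K σ a c → EpsLe c X → ∀ S : Fin 4 → ℝ, Viol K a S → P S →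
      (∀ i, S i ≤ 0.002) → ∃ F : Fin 4 → ℝ,
        (∀ i, LLs σ a (l1 a) i + F i ≤ Wi a i K σ 3.92) ∧
        (0.1126 + 4.17 * κ) * (∑ i, S i) ≤ ∑ i, F i) : CoreP P X κ := by
  have k2 : CoreP (fun S => P S ∧ ∃ i, 0.002 < S i) X κ :=
    coreP_K hA hκ fun K σ hσ a c hC hX S hV hS => H2 K σ hσ a c hC hX S hV hS.1 hS.2
  have k1 : CoreP (fun S => P S ∧ ∀ i, S i ≤ 0.002) X κ :=
    coreP_I hκ (fun S hS => hS.2) fun K σ hσ a c hC hX S hV hS =>
      H1 K σ hσ a c hC hX S hV hS.1 hS.2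
  refine (k2.or k1).mono le_rfl fun S hS => ?_
  by_cases h : ∃ i, 0.002 < S i
  · exact Or.inl ⟨hS, h⟩
  · exact Or.inr ⟨hS, fun i => by
      by_contra hc
      exact h ⟨i, not_le.1 hc⟩⟩

end Helper78.MEI
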