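import Pool.Agent.Helper78.MEI.TC4

/-!
# Project MEI (M2): assembly and core statement for a general system of arc weights

`TL σ a B l ε`: the excess terms lose at most the levels of the system `l` and `ε`.
-/

set_option autoImplicit false

namespace Helper78.MEI

open Set Metric MeasureTheory Filter Topology Helper93.MEI Helper80.CW Helper14.CW
open Helper14.MEI2 Pool.Agent.Helper73.MEI Helper82.M2 Helper82.CW Helper41.MEI
open Pool.Agent.Helper31.SR Helper37.MEI
open Helper33.MEI (Wi)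
open scoped RealInnerProductSpace

/-- the excess terms lose at most the levels of the system `l` and `ε` -/
def TL (σ : Measure (E3 × E3)) (a : Fin 4 → E3) (B : Fin 3 → Bool → OrthonormalBasis (Fin 3) ℝ E3)
    (l : Fin 3 → Bool → Bool → E3 × E3 → ℝ) (ε : ℝ) : Prop :=
  -(∑ m, ∑ e, (sL σ a l m e false + sL σ a l m e true)) - ε ≤
    ∑ m, (TE (B m false) (cen a) σ + TE (B m true) (cen a) σ)

theorem TC.tl {σ : Measure (E3 × E3)} {a : Fin 4 → E3}
    {l : Fin 3 → Bool → Bool → E3 × E3 → ℝ} {B : Fin 3 → Bool → OrthonormalBasis (Fin 3) ℝ E3}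
    {θ : Fin 3 → Bool → ℝ} {ε : ℝ} (h : TC σ a l B θ ε) : TL σ a B (scl θ l) ε := by
  have h1 := h.te
  unfold TL
  simp only [sL_scl]
  simp only [Fin.sum_univ_three, Fintype.sum_bool] at h1 ⊢
  linarith

theorem TL.mono {σ : Measure (E3 × E3)} {a : Fin 4 → E3}
    {l : Fin 3 → Bool → Bool → E3 × E3 → ℝ} {B : Fin 3 → Bool → OrthonormalBasis (Fin 3) ℝ E3}
    {ε ε' : ℝ} (h : TL σ a B l ε) (hε : ε ≤ ε') : TL σ a B l ε' := by
  unfold TL at h ⊢
  linarith

/-- from the three pairs of opposite edges -/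
theorem TL_pairs {σ : Measure (E3 × E3)} {a : Fin 4 → E3}
    {l : Fin 3 → Bool → Bool → E3 × E3 → ℝ} {B : Fin 3 → Bool → OrthonormalBasis (Fin 3) ℝ E3}
    {εm : Fin 3 → ℝ}
    (h : ∀ m, -((sL σ a l m false false + sL σ a l m false true)
        + (sL σ a l m true false + sL σ a l m true true)) - εm m ≤
      TE (B m false) (cen a) σ + TE (B m true) (cen a) σ) :
    TL σ a B l (εm 0 + εm 1 + εm 2) := by
  have k0 := h 0
  have k1 := h 1
  have k2 := h 2
  unfold TL
  simp only [Fin.sum_univ_three, Fintype.sum_bool]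
  linarith

/-- without coupling -/
theorem TL_l2 {a : Fin 4 → E3} {K : Set E3} {σ : Measure (E3 × E3)} [IsFiniteMeasure σ]
    {B : Fin 3 → Bool → OrthonormalBasis (Fin 3) ℝ E3} (h : PM K σ)
    (ha : ∀ i j, i ≠ j → dist (a i) (a j) = 1)
    (hB : ∀ m e, Fr (fun i => a (pr m e i)) (B m e)) : TL σ a B (l2 a) 0 := by
  have h1 := (TC_one h ha hB).te
  unfold TL
  simp only [Fin.sum_univ_three, Fintype.sum_bool] at h1 ⊢
  linarith

/-- **assembly with a general system of arc weights** -/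
theorem asm_L {a c : Fin 4 → E3} {K : Set E3} {σ : Measure (E3 × E3)} [IsFiniteMeasure σ]
    (hC : CN K σ a c) {S : Fin 4 → ℝ} (hV : Viol K a S)
    {B : Fin 3 → Bool → OrthonormalBasis (Fin 3) ℝ E3}
    (hB : ∀ m e, Fr (fun i => a (pr m e i)) (B m e))
    {l : Fin 3 → Bool → Bool → E3 × E3 → ℝ} {ε : ℝ} (hT : TL σ a B l ε) :
    ∑ i, (Wi a i K σ 3.83 - LLs σ a l i - (0.0039 * S i + 0.501 * S i ^ 3))
      - 1.85e-4 - ε ≤ 4.08 * (volume.real K - VM) := by
  have h1 := Pool.Agent.Helper97.MEI.asm26_TE (B := B) hC.pm hC.ha hC.hp hC.hz hC.hull hB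
    (s := S) hV.nn (fun i => (hV.le_ap hC i).trans (by norm_num)) hV.le
  have h2 := hT
  have h3 := sum_LLs (a := a) (σ := σ) (l := l)
  unfold TL at h2
  simp only [Fin.sum_univ_three, Fin.sum_univ_four, Fintype.sum_bool] at h1 h2 h3 ⊢
  linarith

/-- **core statement from per-face inequalities, general system of arc weights** -/
theorem coreP_L {P : (Fin 4 → ℝ) → Prop} {X κ : ℝ} (hκ : 0 ≤ κ)
    (H : ∀ (K : Set E3) (σ : Measure (E3 × E3)), IsFiniteMeasure σ →
      ∀ a c : Fin 4 → E3, CN K σ a c → EpsLe c X → ∀ S : Fin 4 → ℝ, Viol K a S → P S →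
      ∀ B : Fin 3 → Bool → OrthonormalBasis (Fin 3) ℝ E3,
      (∀ m e, Fr (fun i => a (pr m e i)) (B m e)) →
      ∃ (l : Fin 3 → Bool → Bool → E3 × E3 → ℝ) (ε : ℝ) (F : Fin 4 → ℝ), TL σ a B l ε ∧
        (∀ i, LLs σ a l i + F i ≤ Wi a i K σ 3.83) ∧
        1.85e-4 + ε + ∑ i, (0.0039 * S i + 0.501 * S i ^ 3) + 4.08 * κ * (∑ i, S i) ≤
          ∑ i, F i) :
    CoreP P X κ := by
  intro K σ hσ a c hC hX S hV hP i
  obtain ⟨B, hB⟩ := frames hC.ha
  obtain ⟨l, ε, F, hT, hF, hs⟩ := H K σ hσ a c hC hX S hV hP B hB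
  have h1 := asm_L hC hV hB hT
  have hi : S i ≤ ∑ j, S j := Finset.single_le_sum (f := S) (fun j _ => hV.nn j)
    (Finset.mem_univ i)
  have h2 := mul_le_mul_of_nonneg_left hi hκ
  rw [Fin.sum_univ_four] at h1 hs
  rw [Fin.sum_univ_four (f := F)] at hs
  have f0 := hF 0
  have f1 := hF 1
  have f2 := hF 2
  have f3 := hF 3
  linarith

end Helper78.MEI
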