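import Pool.Agent.Helper78.MEI.GArith

/-!
# Project MEI, the pair lemma with a general multiplier `κ`

`κ = .4` gives `GArith.pair_cor`; `κ = .32` needs `v ≥ 6.7e-4` and has the shift constant `.38`.
-/

namespace Helper78.MEI

/-- shifted lemma G, general `κ`, `δ` -/
theorem G_shift_gen {C v a b k k' m κ δ : ℝ} (hC : 0 < C) (hδ0 : 0 ≤ δ) (hδ : δ < κ)
    (hd : (2 * κ - δ) ^ 2 < 4 * C * (κ - δ) * v)
    (hba : b ≤ a) (hav : a ≤ v) (hk : 0 ≤ k) (hkm : k ≤ m) (hkm' : k' ≤ m) :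
    -((2 * κ - δ) * m) ≤ C * (max (a - k) 0 * max (b - k') 0) + (κ - δ) * (v - a) - κ * b := by
  have hm : 0 ≤ m := hk.trans hkm
  have hκ : 0 < κ := by linarith
  have hw : 0 ≤ (κ - δ) * (v - a) := mul_nonneg (by linarith) (by linarith)
  have hκm : κ * m ≤ (2 * κ - δ) * m := mul_le_mul_of_nonneg_right (by linarith) hm
  rcases le_total a k with h1 | h1
  · rw [max_eq_right (by linarith), zero_mul, mul_zero]
    have : κ * b ≤ κ * m := mul_le_mul_of_nonneg_left (by linarith) hκ.le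
    linarith
  rcases le_total b k' with h2 | h2
  · rw [max_eq_right (a := b - k') (by linarith), mul_zero, mul_zero]
    have : κ * b ≤ κ * m := mul_le_mul_of_nonneg_left (by linarith) hκ.le
    linarith
  rw [max_eq_left (by linarith), max_eq_left (by linarith)]
  obtain ⟨a', ha'⟩ : ∃ a', a' = a - k := ⟨_, rfl⟩
  obtain ⟨b', hb'⟩ : ∃ b', b' = b - k' := ⟨_, rfl⟩
  rw [← ha', ← hb']
  have ha0 : 0 ≤ a' := by linarith
  have hb0 : 0 ≤ b' := by linarith
  have ea : a = a' + k := by linarith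
  have eb : b = b' + k' := by linarith
  have hs1 : (κ - δ) * k ≤ (κ - δ) * m := mul_le_mul_of_nonneg_left hkm (by linarith)
  have hs2 : κ * k' ≤ κ * m := mul_le_mul_of_nonneg_left hkm' hκ.le
  rcases le_total b' a' with h3 | h3
  · have h4 := (G_gen (c := C) (δ := δ) (κ := κ) hC hδ hd hb0 h3 (by linarith : a' ≤ v)).1
    rw [ea, eb]
    linarith
  · have h4 := (G_gen (c := C) (δ := δ) (κ := κ) hC hδ hd ha0 le_rfl (by linarith : a' ≤ v)).1
    have h5 : 0 ≤ C * a' * (b' - a') := mul_nonneg (mul_nonneg hC.le ha0) (by linarith)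
    -- `b = b' + k'` and `b ≤ a = a' + k`
    have h6 : κ * b ≤ κ * a := mul_le_mul_of_nonneg_left hba hκ.le
    have h7 : κ * k ≤ κ * m := mul_le_mul_of_nonneg_left hkm hκ.le
    rw [ea] at h6 ⊢
    linarith

/-- **Corollary of Theorem I**, general `κ` (`δ = .26`) -/
theorem pair_cor_gen {C v l l' k k' T N m κ : ℝ} (hC : 900 ≤ C) (hκ : 0.26 < κ)
    (hv : (2 * κ - 0.26) ^ 2 < 3600 * (κ - 0.26) * v) (hv0 : 0 ≤ v)
    (hlv : l ≤ v) (hlv' : l' ≤ v) (hk : 0 ≤ k) (hk' : 0 ≤ k') (hkm : k ≤ m) (hkm' : k' ≤ m)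
    (hT : C * (max (l - k) 0 * max (l' - k') 0) - N ≤ T) :
    -((2 * κ - 0.26) * m) - N ≤ T - 0.26 * (v - max l l') + κ * (v - l - l') := by
  have hC0 : 0 < C := by linarith
  have hd : (2 * κ - 0.26) ^ 2 < 4 * C * (κ - 0.26) * v := by
    have h1 : 0 ≤ (κ - 0.26) * v := mul_nonneg (by linarith) hv0
    have h2 := mul_le_mul_of_nonneg_right hC h1
    linarith
  rcases le_total l l' with h | h
  · have h1 := G_shift_gen (C := C) hC0 (by norm_num) hκ hd h hlv' hk' hkm' hkm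
    rw [max_eq_right h]
    have e : max (l - k) 0 * max (l' - k') 0 = max (l' - k') 0 * max (l - k) 0 := mul_comm _ _
    rw [e] at hT
    linarith
  · have h1 := G_shift_gen (C := C) hC0 (by norm_num) hκ hd h hlv hk hkm hkm'
    rw [max_eq_left h]
    linarith

/-- the case `κ = .32` -/
theorem pair_cor32 {C v l l' k k' T N m : ℝ} (hC : 900 ≤ C) (hv : 6.7e-4 ≤ v)
    (hlv : l ≤ v) (hlv' : l' ≤ v) (hk : 0 ≤ k) (hk' : 0 ≤ k') (hkm : k ≤ m) (hkm' : k' ≤ m)
    (hT : C * (max (l - k) 0 * max (l' - k') 0) - N ≤ T) :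
    -(0.38 * m) - N ≤ T - 0.26 * (v - max l l') + 0.32 * (v - l - l') := by
  have h := pair_cor_gen (κ := 0.32) hC (by norm_num) (by nlinarith) (by linarith) hlv hlv' hk hk'
    hkm hkm' hT
  have e : (2 * 0.32 - 0.26 : ℝ) = 0.38 := by norm_num
  rw [e] at h
  exact h

end Helper78.MEI
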