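import Pool.Agent.Helper73.MEI.Reg1b
import Pool.Agent.Helper33.MEI.FacePM
import Pool.Agent.Helper78.MEI.GArith2

/-!
# MEI M2, regime I with a general multiplier `κ` (in particular `κ = .32`)
-/

namespace Helper78.MEI

open Set MeasureTheory Filter Topology Metric
open Helper80.CW Helper22.Wedge Helper22.Sig Helper14.CW Helper14.MEI2 Helper93.MEI
open Helper22.MEI (s t Fa Fb Fc FD FD_pos dv_F s_pos)
open Pool.Agent.Helper95.MEI.Cst (AsE AxE dvE fAs fAx vAs vAx v_lo)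
open Pool.Agent.Helper95.MEI.Fub (Zp mir mir_gram mir_eX mir_eY mir_eW mir_eV mir_Q mir_Pl mir_Zp
  mir_bar mir_perm exc exn exc_eq thmI co_e)
open Pool.Agent.Helper73.MEI
open Helper33.MEI (Wi star_W)
open scoped RealInnerProductSpace ContDiff Real

section pair
variable {a : Fin 4 → E3} {K : Set E3} {σ : Measure (E3 × E3)} [IsFiniteMeasure σ]
  {b b' : OrthonormalBasis (Fin 3) ℝ E3}

/-- one pair of opposite edges, general `κ` -/
theorem pair_regK {κ : ℝ} (hκ : 0.26 < κ)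
    (hv : (2 * κ - 0.26) ^ 2 < 3600 * (κ - 0.26) * (vAs - vAx)) (h : PM K σ)
    (ha : ∀ i j, i ≠ j → dist (a i) (a j) = 1)
    (hp : ∀ x ∈ K, Pl a x) (hd : ∀ x ∈ K, ∀ y ∈ K, ‖x - y‖ ≤ 1)
    (hull : ∀ p, (∀ q ∈ K, ‖p - q‖ ≤ 1) → p ∈ K)
    (hb : Fr a b) (hb' : Fr (mir a) b') {S : Fin 4 → ℝ} (hS0 : ∀ i, 0 ≤ S i)
    (hS : ∀ i, S i ≤ 0.002) (hQ : ∀ x ∈ K, ∀ i, Qv a i x ≤ S i)
    (hA : 12.2 * (lE b (cen a) K - 0.0564 * (S 0 + S 1 + S 2 + S 3)) ≤
      ∫ z in Zp a 2 3, eV a z.2 ∂σ)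
    (hA' : 12.2 * (lE b' (cen a) K - 0.0564 * (S 0 + S 1 + S 2 + S 3)) ≤
      ∫ z in Zp (mir a) 2 3, eV (mir a) z.2 ∂σ)
    (hY : |∫ z in Zp a 2 3, (eY a z.1 - eY a z.2) ∂σ| ≤ 0.0045)
    (hY' : |∫ z in Zp (mir a) 2 3, (eY (mir a) z.1 - eY (mir a) z.2) ∂σ| ≤ 0.0045) :
    -((2 * κ - 0.26) * (0.0564 * (S 0 + S 1 + S 2 + S 3)))
      - κ * (0.0363 * (S 0 + S 1 + S 2 + S 3))
      - ((∫ z in Zp a 2 3, exn a z ∂σ) + ∫ z in Zp (mir a) 2 3, exn (mir a) z ∂σ) ≤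
    TE b (cen a) σ + TE b' (cen a) σ
        + κ * ((vAs - vAx) - lE b (cen a) K - lE b' (cen a) K)
        - 0.26 * ((vAs - vAx) - max (lE b (cen a) K) (lE b' (cen a) K))
        - κ * (xiE b (cen a) K + xiE b' (cen a) K) := by
  have ha' := mir_dist ha
  have hp' : ∀ x ∈ K, Pl (mir a) x := fun x hx => mir_Pl (hp x hx)
  have hQ' : ∀ x ∈ K, ∀ i, Qv (mir a) i x ≤ S (Pool.Agent.Helper95.MEI.Fub.mp i) := by
    intro x hx i
    rw [mir_perm]
    exact hQ x hx _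
  have m1 := mass_le h ha hp hb hS0 hS hQ
  have m2 := mass_le h ha' hp' hb' (S := fun i => S (Pool.Agent.Helper95.MEI.Fub.mp i))
    (fun i => hS0 _) (fun i => hS _) hQ'
  have t1 := TE_exc h ha hb
  have t2 := TE_exc h ha' hb'
  have x1 := xi_le h.cpt ha hull hb hS0 hQ
  have x2 := xi_le h.cpt ha' hull hb' (S := fun i => S (Pool.Agent.Helper95.MEI.Fub.mp i))
    (fun i => hS0 _) hQ'
  rw [mir_cen] at t2 x2
  have x2' : xiE b' (cen a) K ≤ 0.0363 * (S 2 + S 3) := x2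
  rw [mir_Zp] at hA' hY' t2 m2 ⊢
  simp only [mir_eV, mir_eY] at hA' hY'
  have hQ2 : ∀ x ∈ K, ∀ i, Qv a i x ≤ 0.002 := fun x hx i => (hQ x hx i).trans (hS i)
  obtain ⟨k1, k2⟩ := thmI (gram_of_dist ha) h.cpt hp hd h.mem hQ2 m1 m2 hY hY'
  rw [← t1, ← t2] at k1 k2
  have i0 := hS0 0
  have i1 := hS0 1
  have i2 := hS0 2
  have i3 := hS0 3
  have k3 := Helper78.MEI.thmI_pos (W := TE b (cen a) σ + TE b' (cen a) σ +
    ((∫ z in Zp a 2 3, exn a z ∂σ) + ∫ z in Zp a 0 1, exn (mir a) z ∂σ)) hA hA' k2 (by linarith)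
  have k4 := pair_cor_gen (C := 900) (κ := κ) (v := vAs - vAx) (l := lE b (cen a) K)
    (l' := lE b' (cen a) K) (k := 0.0564 * (S 0 + S 1 + S 2 + S 3))
    (k' := 0.0564 * (S 0 + S 1 + S 2 + S 3))
    (T := TE b (cen a) σ + TE b' (cen a) σ)
    (N := (∫ z in Zp a 2 3, exn a z ∂σ) + ∫ z in Zp a 0 1, exn (mir a) z ∂σ)
    (m := 0.0564 * (S 0 + S 1 + S 2 + S 3)) le_rfl hκ hv (by linarith [v_lo]) (lE_le _) (lE_le _)
    (by positivity) (by positivity) le_rfl le_rfl (by linarith)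
  have x3 : κ * (xiE b (cen a) K + xiE b' (cen a) K) ≤
      κ * (0.0363 * (S 0 + S 1 + S 2 + S 3)) :=
    mul_le_mul_of_nonneg_left (by linarith) (by linarith)
  linarith

end pair

section global
variable {a : Fin 4 → E3} {K : Set E3} {σ : Measure (E3 × E3)} [IsFiniteMeasure σ]
  {B : Fin 3 → Bool → OrthonormalBasis (Fin 3) ℝ E3}

/-- **edge part of regime I**, general `κ`, no open hypothesis -/
theorem regK_E {κ : ℝ} (hκ : 0.26 < κ)
    (hv : (2 * κ - 0.26) ^ 2 < 3600 * (κ - 0.26) * (vAs - vAx)) (h : PM K σ)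
    (ha : ∀ i j, i ≠ j → dist (a i) (a j) = 1)
    (hp : ∀ x ∈ K, Pl a x) (hd : ∀ x ∈ K, ∀ y ∈ K, ‖x - y‖ ≤ 1)
    (hull : ∀ p, (∀ q ∈ K, ‖p - q‖ ≤ 1) → p ∈ K)
    (hB : ∀ m e, Fr (fun i => a (pr m e i)) (B m e)) {S : Fin 4 → ℝ} (hS0 : ∀ i, 0 ≤ S i)
    (hS : ∀ i, S i ≤ 0.002) (hQ : ∀ x ∈ K, ∀ i, Qv a i x ≤ S i) :
    -(3 * ((2 * κ - 0.26) * 0.0564 + κ * 0.0363) * (S 0 + S 1 + S 2 + S 3))
      - ∑ m, ((∫ z in Zp (fun i => a (pr m false i)) 2 3, exn (fun i => a (pr m false i)) z ∂σ) +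
          ∫ z in Zp (fun i => a (pr m true i)) 2 3, exn (fun i => a (pr m true i)) z ∂σ) ≤
    ∑ m, (TE (B m false) (cen a) σ + TE (B m true) (cen a) σ
        + κ * ((vAs - vAx) - lE (B m false) (cen a) K - lE (B m true) (cen a) K)
        - 0.26 * ((vAs - vAx) - max (lE (B m false) (cen a) K) (lE (B m true) (cen a) K))
        - κ * (xiE (B m false) (cen a) K + xiE (B m true) (cen a) K)) := by
  have hcomp : ∀ p, (∀ q ∈ K, dist p q ≤ 1) → p ∈ K := fun p hq =>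
    hull p fun q hqK => by rw [← dist_eq_norm]; exact hq q hqK
  have haa : ∀ m e, ∀ i j, i ≠ j → dist ((fun i => a (pr m e i)) i)
      ((fun i => a (pr m e i)) j) = 1 :=
    fun m e i j hij => ha _ _ (fun h => hij ((pr m e).injective h))
  have hpp : ∀ m e, ∀ x ∈ K, Pl (fun i => a (pr m e i)) x := fun m e x hx => Pl_perm _ (hp x hx)
  have hcc : ∀ m e, cen (fun i => a (pr m e i)) = cen a := fun m e => cen_perm _
  have hsum : ∀ m e, S (pr m e 0) + S (pr m e 1) + S (pr m e 2) + S (pr m e 3) =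
      S 0 + S 1 + S 2 + S 3 := by
    intro m e
    have := Equiv.sum_comp (pr m e) S
    rwa [Fin.sum_univ_four, Fin.sum_univ_four] at this
  have hA : ∀ m e, 12.2 * (lE (B m e) (cen a) K - 0.0564 * (S 0 + S 1 + S 2 + S 3)) ≤
      ∫ z in Zp (fun i => a (pr m e i)) 2 3, eV (fun i => a (pr m e i)) z.2 ∂σ := by
    intro m e
    have h1 := Helper21.Alp.alpha (S := fun i => S (pr m e i)) (haa m e) h hcomp (hpp m e)
      (hB m e) (fun x hx i => hQ x hx _) (fun i => hS0 _) (fun i => hS _)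
    rw [hcc] at h1
    have h2 := hsum m e
    have h3 := hS0 (pr m e 0)
    have h4 := hS0 (pr m e 1)
    refine le_trans ?_ h1
    linarith
  have hY : ∀ m e, |∫ z in Zp (fun i => a (pr m e i)) 2 3, (eY (fun i => a (pr m e i)) z.1 -
      eY (fun i => a (pr m e i)) z.2) ∂σ| ≤ 0.0045 := by
    intro m e
    have h1 := Helper21.Alp.null (S := fun i => S (pr m e i)) (haa m e) h hcomp (hpp m e)
      (hB m e) (fun x hx i => hQ x hx _) (fun i => hS0 _) (fun i => hS _)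
    exact h1.trans (by norm_num)
  have key : ∀ m : Fin 3, -((2 * κ - 0.26) * (0.0564 * (S 0 + S 1 + S 2 + S 3)))
      - κ * (0.0363 * (S 0 + S 1 + S 2 + S 3))
      - ((∫ z in Zp (fun i => a (pr m false i)) 2 3, exn (fun i => a (pr m false i)) z ∂σ) +
          ∫ z in Zp (fun i => a (pr m true i)) 2 3, exn (fun i => a (pr m true i)) z ∂σ) ≤
      TE (B m false) (cen a) σ + TE (B m true) (cen a) σ
        + κ * ((vAs - vAx) - lE (B m false) (cen a) K - lE (B m true) (cen a) K)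
        - 0.26 * ((vAs - vAx) - max (lE (B m false) (cen a) K) (lE (B m true) (cen a) K))
        - κ * (xiE (B m false) (cen a) K + xiE (B m true) (cen a) K) := by
    intro m
    have hc : cen (fun i => a (pr m false i)) = cen a := cen_perm _
    have hb' : Fr (mir (fun i => a (pr m false i))) (B m true) := by
      rw [← pr_mir]; exact hB m true
    have h1 := hA m false
    have h2 := hA m true
    have h3 := hY m false
    have h4 := hY m true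
    have h6 := hsum m false
    rw [pr_mir] at h2 h4 ⊢
    have h5 := pair_regK hκ hv h (haa m false) (hpp m false) hd hull (hB m false) hb'
      (S := fun i => S (pr m false i)) (fun i => hS0 _) (fun i => hS _)
      (fun x hx i => hQ x hx _) (by rw [hc, h6]; exact h1) (by rw [hc, h6]; exact h2) h3 h4
    rw [hc] at h5
    rw [h6] at h5
    exact h5
  have h1 := Finset.sum_le_sum fun m (_ : m ∈ (Finset.univ : Finset (Fin 3))) => key m
  rw [Finset.sum_sub_distrib, Finset.sum_const, Finset.card_univ, Fintype.card_fin] at h1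
  simp only [nsmul_eq_mul, Nat.cast_ofNat] at h1
  refine le_trans (le_of_eq ?_) h1
  ring

/-- **regime I in the form of `star_W`**, general `κ` -/
theorem regK_W {κ : ℝ} (hκ : 0.26 < κ)
    (hv : (2 * κ - 0.26) ^ 2 < 3600 * (κ - 0.26) * (vAs - vAx)) (h : PM K σ)
    (ha : ∀ i j, i ≠ j → dist (a i) (a j) = 1)
    (hp : ∀ x ∈ K, Pl a x) (hz : ∀ᵐ z ∂σ, Pl a z.1 ∧ ∀ k, bar a k z.1 ≠ 0)
    (hd : ∀ x ∈ K, ∀ y ∈ K, ‖x - y‖ ≤ 1)
    (hull : ∀ p, (∀ q ∈ K, ‖p - q‖ ≤ 1) → p ∈ K)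
    (hB : ∀ m e, Fr (fun i => a (pr m e i)) (B m e)) {S : Fin 4 → ℝ} (hS0 : ∀ i, 0 ≤ S i)
    (hS : ∀ i, S i ≤ 0.002) (hQ : ∀ x ∈ K, ∀ i, Qv a i x ≤ S i) :
    ∑ i, Wi a i K σ (3.57 + κ)
      + ∫ z in {z : E3 × E3 | z.1 ∈ T0 a}, (⟪z.1 - cen a, z.1 - z.2⟫ - 1 / 4) ∂σ
      - (1.32 + κ) * (√2 / 12 - volume.real (K ∩ T0 a))
      - 3 * ((2 * κ - 0.26) * 0.0564 + κ * 0.0363) * (S 0 + S 1 + S 2 + S 3)
      - ∑ m, ((∫ z in Zp (fun i => a (pr m false i)) 2 3, exn (fun i => a (pr m false i)) z ∂σ) +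
          ∫ z in Zp (fun i => a (pr m true i)) 2 3, exn (fun i => a (pr m true i)) z ∂σ) ≤
    (3.82 + κ) * (volume.real K - Helper82.CW.VM) := by
  have h1 := star_W κ h ha hp hz hB
  have h2 := regK_E hκ hv h ha hp hd hull hB hS0 hS hQ
  have h3 : ∀ m, 0 ≤ (κ - 0.26) * (beE (B m false) (cen a) K + beE (B m true) (cen a) K) :=
    fun m => mul_nonneg (by linarith) (add_nonneg measureReal_nonneg measureReal_nonneg)
  have b0 := h3 0
  have b1 := h3 1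
  have b2 := h3 2
  rw [Fin.sum_univ_three (f := fun m => TE (B m false) (cen a) σ + TE (B m true) (cen a) σ
        + κ * ((vAs - vAx) - lE (B m false) (cen a) K - lE (B m true) (cen a) K)
        - 0.26 * ((vAs - vAx) - max (lE (B m false) (cen a) K) (lE (B m true) (cen a) K))
        + (κ - 0.26) * (beE (B m false) (cen a) K + beE (B m true) (cen a) K)
        - κ * (xiE (B m false) (cen a) K + xiE (B m true) (cen a) K))] at h1
  rw [Fin.sum_univ_three (f := fun m => TE (B m false) (cen a) σ + TE (B m true) (cen a) σ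
        + κ * ((vAs - vAx) - lE (B m false) (cen a) K - lE (B m true) (cen a) K)
        - 0.26 * ((vAs - vAx) - max (lE (B m false) (cen a) K) (lE (B m true) (cen a) K))
        - κ * (xiE (B m false) (cen a) K + xiE (B m true) (cen a) K))] at h2
  linarith

/-- **regime I, `κ = .32`**, `W`-form -/
theorem reg32_W (h : PM K σ) (ha : ∀ i j, i ≠ j → dist (a i) (a j) = 1)
    (hp : ∀ x ∈ K, Pl a x) (hz : ∀ᵐ z ∂σ, Pl a z.1 ∧ ∀ k, bar a k z.1 ≠ 0)
    (hd : ∀ x ∈ K, ∀ y ∈ K, ‖x - y‖ ≤ 1)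
    (hull : ∀ p, (∀ q ∈ K, ‖p - q‖ ≤ 1) → p ∈ K)
    (hB : ∀ m e, Fr (fun i => a (pr m e i)) (B m e)) {S : Fin 4 → ℝ} (hS0 : ∀ i, 0 ≤ S i)
    (hS : ∀ i, S i ≤ 0.002) (hQ : ∀ x ∈ K, ∀ i, Qv a i x ≤ S i) :
    ∑ i, Wi a i K σ 3.89
      + ∫ z in {z : E3 × E3 | z.1 ∈ T0 a}, (⟪z.1 - cen a, z.1 - z.2⟫ - 1 / 4) ∂σ
      - 1.64 * (√2 / 12 - volume.real (K ∩ T0 a)) - 0.0992 * (S 0 + S 1 + S 2 + S 3)
      - ∑ m, ((∫ z in Zp (fun i => a (pr m false i)) 2 3, exn (fun i => a (pr m false i)) z ∂σ) +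
          ∫ z in Zp (fun i => a (pr m true i)) 2 3, exn (fun i => a (pr m true i)) z ∂σ) ≤
    4.14 * (volume.real K - Helper82.CW.VM) := by
  have h1 := regK_W (κ := 0.32) (by norm_num) (by nlinarith [v_lo]) h ha hp hz hd hull hB hS0 hS hQ
  have e1 : (3.57 + 0.32 : ℝ) = 3.89 := by norm_num
  have e2 : (1.32 + 0.32 : ℝ) = 1.64 := by norm_num
  have e3 : (3.82 + 0.32 : ℝ) = 4.14 := by norm_num
  rw [e1, e2, e3] at h1
  have i0 := hS0 0
  have i1 := hS0 1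
  have i2 := hS0 2
  have i3 := hS0 3
  norm_num at h1 ⊢
  linarith

/-- **regime I, `κ = .32`**, same form as `reg1_final` -/
theorem reg32_final (h : PM K σ) (ha : ∀ i j, i ≠ j → dist (a i) (a j) = 1)
    (hp : ∀ x ∈ K, Pl a x) (hz : ∀ᵐ z ∂σ, Pl a z.1 ∧ ∀ k, bar a k z.1 ≠ 0)
    (hd : ∀ x ∈ K, ∀ y ∈ K, ‖x - y‖ ≤ 1)
    (hull : ∀ p, (∀ q ∈ K, ‖p - q‖ ≤ 1) → p ∈ K)
    (hB : ∀ m e, Fr (fun i => a (pr m e i)) (B m e)) {S : Fin 4 → ℝ} (hS0 : ∀ i, 0 ≤ S i)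
    (hS : ∀ i, S i ≤ 0.002) (hQ : ∀ x ∈ K, ∀ i, Qv a i x ≤ S i) :
    FT a σ + 3.89 * (∑ i, volume.real (K ∩ Wc a i) - 4 * (Om / 3 - √2 / 12))
      - 1.64 * (√2 / 12 - volume.real (K ∩ T0 a)) - 0.0992 * (S 0 + S 1 + S 2 + S 3)
      - ∑ m, ((∫ z in Zp (fun i => a (pr m false i)) 2 3, exn (fun i => a (pr m false i)) z ∂σ) +
          ∫ z in Zp (fun i => a (pr m true i)) 2 3, exn (fun i => a (pr m true i)) z ∂σ) ≤
    4.14 * (volume.real K - Helper82.CW.VM) := by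
  have h1 := star_k 0.32 h ha hp hz hB
  have h2 := regK_E (κ := 0.32) (by norm_num) (by nlinarith [v_lo]) h ha hp hd hull hB hS0 hS hQ
  have h3 : ∀ m, 0 ≤ beE (B m false) (cen a) K + beE (B m true) (cen a) K := fun m =>
    add_nonneg measureReal_nonneg measureReal_nonneg
  have b0 := h3 0
  have b1 := h3 1
  have b2 := h3 2
  have i0 := hS0 0
  have i1 := hS0 1
  have i2 := hS0 2
  have i3 := hS0 3
  rw [Fin.sum_univ_three] at h1 h2 ⊢
  rw [Fin.sum_univ_three] at h2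
  norm_num at h1 h2 ⊢
  linarith

end global

end Helper78.MEI
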