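import Pool.Agent.Helper37.MEI.Loss2
import Pool.Agent.Helper52.MEI.ET2
import Pool.Agent.Helper52.MEI.Tau2
import Pool.Agent.Helper72.MEI.EdgeSum
import Pool.Agent.Helper73.MEI.Reg2
import Pool.Agent.Helper78.MEI.Reg32

/-!
# MEI M2: the master inequality with all small terms inserted

Only the face terms `Wi`, the arc losses `LL` and the suprema `s i` remain.
-/

namespace Helper78.MEI

open Set MeasureTheory Filter Topology Metric
open Helper80.CW Helper22.Wedge Helper22.Sig Helper14.CW Helper14.MEI2 Helper93.MEI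
open Pool.Agent.Helper95.MEI.Cst (vAs vAx v_lo v_hi)
open Pool.Agent.Helper95.MEI.Fub (Zp exn)
open Pool.Agent.Helper73.MEI
open Helper33.MEI (Wi star_W)
open Helper37.MEI (LL sum_LL)
open scoped RealInnerProductSpace ContDiff Real

variable {a : Fin 4 → E3} {K : Set E3} {σ : Measure (E3 × E3)} [IsFiniteMeasure σ]
  {B : Fin 3 → Bool → OrthonormalBasis (Fin 3) ℝ E3}

/-- **regime II** (`κ = .13`): all small terms inserted; only the faces `Wi a i K σ 3.7`, the arc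
losses `LL σ a i` and the suprema `s i` remain -/
theorem asm2 (h : PM K σ) (ha : ∀ i j, i ≠ j → dist (a i) (a j) = 1)
    (hp : ∀ x ∈ K, Pl a x) (hz : ∀ᵐ z ∂σ, Pl a z.1 ∧ ∀ k, bar a k z.1 ≠ 0)
    (hull : ∀ p, (∀ q ∈ K, ‖p - q‖ ≤ 1) → p ∈ K)
    (hB : ∀ m e, Fr (fun i => a (pr m e i)) (B m e)) {s : Fin 4 → ℝ} (hs0 : ∀ i, 0 ≤ s i)
    (hs : ∀ i, s i ≤ 0.2) (hQ : ∀ i, ∀ q ∈ K, Qv a i q ≤ s i) :
    ∑ i, (Wi a i K σ 3.7 - LL σ a i
        - (0.0295 * s i + 0.092 * s i ^ 2 + 0.46 * s i ^ 3)) - 3.0e-4 ≤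
    3.95 * (volume.real K - Helper82.CW.VM) := by
  have h1 := star_W 0.13 h ha hp hz hB
  have h2 : ∀ m e, -(∫ z in Zp (fun i => a (pr m e i)) 2 3, exn (fun i => a (pr m e i)) z ∂σ) ≤
      TE (B m e) (cen a) σ := by
    intro m e
    have ha' : ∀ i j, i ≠ j → dist ((fun i => a (pr m e i)) i)
        ((fun i => a (pr m e i)) j) = 1 :=
      fun i j hij => ha _ _ (fun h => hij ((pr m e).injective h))
    have hp' : ∀ x ∈ K, Pl (fun i => a (pr m e i)) x := fun x hx => Pl_perm _ (hp x hx)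
    have hc : cen (fun i => a (pr m e i)) = cen a := cen_perm _
    have h3 := TE_ge h ha' hp' (hB m e)
    rw [hc] at h3
    exact h3
  have h4 : ∀ m, -(0.13 * (vAs - vAx)) ≤
      0.13 * ((vAs - vAx) - lE (B m false) (cen a) K - lE (B m true) (cen a) K)
        - 0.26 * ((vAs - vAx) - max (lE (B m false) (cen a) K) (lE (B m true) (cen a) K)) := by
    intro m
    rcases le_total (lE (B m false) (cen a) K) (lE (B m true) (cen a) K) with h5 | h5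
    · rw [max_eq_right h5]; linarith
    · rw [max_eq_left h5]; linarith
  have h5 := Pool.Agent.Helper52.MEI.ET_row0 h ha hp
  have h6 := Pool.Agent.Helper52.MEI.tau_20 ha h.cpt hull hs0 hs hQ
  have h7 := Helper72.MEI.xiE_sum ha hB hull hs0 hQ
  have h8 := Helper72.MEI.beE_sum ha hB hp hs0 hQ
  have h9 := sum_LL (a := a) h.cpt h.mem
  have h10 := v_hi
  have f0 := h2 0 false
  have f1 := h2 1 false
  have f2 := h2 2 false
  have t0 := h2 0 true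
  have t1 := h2 1 true
  have t2 := h2 2 true
  have g0 := h4 0
  have g1 := h4 1
  have g2 := h4 2
  have e1 : (3.57 + 0.13 : ℝ) = 3.7 := by norm_num
  have i0 := hs0 0
  have i1 := hs0 1
  have i2 := hs0 2
  have i3 := hs0 3
  have p0 := pow_nonneg i0 2
  have p1 := pow_nonneg i1 2
  have p2 := pow_nonneg i2 2
  have p3 := pow_nonneg i3 2
  have c0 := pow_nonneg i0 3
  have c1 := pow_nonneg i1 3
  have c2 := pow_nonneg i2 3
  have c3 := pow_nonneg i3 3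
  rw [e1] at h1
  simp only [Fin.sum_univ_three, Fin.sum_univ_four] at h1 h7 h8 h9 ⊢
  norm_num at h1 h6 h7 h8 h10 ⊢
  linarith

/-- **regime I**, general `κ`: all small terms inserted (`s i ≤ .002`) -/
theorem asmK {κ : ℝ} (hκ : 0.26 < κ) (hκ2 : κ ≤ 0.58)
    (hv : (2 * κ - 0.26) ^ 2 < 3600 * (κ - 0.26) * (vAs - vAx)) (h : PM K σ)
    (ha : ∀ i j, i ≠ j → dist (a i) (a j) = 1)
    (hp : ∀ x ∈ K, Pl a x) (hz : ∀ᵐ z ∂σ, Pl a z.1 ∧ ∀ k, bar a k z.1 ≠ 0)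
    (hd : ∀ x ∈ K, ∀ y ∈ K, ‖x - y‖ ≤ 1)
    (hull : ∀ p, (∀ q ∈ K, ‖p - q‖ ≤ 1) → p ∈ K)
    (hB : ∀ m e, Fr (fun i => a (pr m e i)) (B m e)) {s : Fin 4 → ℝ} (hs0 : ∀ i, 0 ≤ s i)
    (hs : ∀ i, s i ≤ 0.002) (hQ : ∀ i, ∀ q ∈ K, Qv a i q ≤ s i) :
    ∑ i, (Wi a i K σ (3.57 + κ) - LL σ a i
        - (3 * ((2 * κ - 0.26) * 0.0564 + κ * 0.0363) + 2e-6) * s i) ≤
    (3.82 + κ) * (volume.real K - Helper82.CW.VM) := by
  have h1 := regK_W hκ hv h ha hp hz hd hull hB hs0 hs (fun x hx i => hQ i x hx)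
  have h5 := Pool.Agent.Helper52.MEI.ET_row0 h ha hp
  have h6 := Pool.Agent.Helper52.MEI.tau_15 ha h.cpt hull hs0
    (fun i => (hs i).trans (by norm_num)) hQ
  have h9 := sum_LL (a := a) h.cpt h.mem
  have h3 : ∀ i, s i ^ 3 ≤ 0.000004 * s i := by
    intro i
    nlinarith [hs i, hs0 i, mul_nonneg (hs0 i) (hs0 i), mul_nonneg (hs0 i) (sub_nonneg.2 (hs i)),
      mul_nonneg (mul_nonneg (hs0 i) (hs0 i)) (sub_nonneg.2 (hs i))]
  have h4 : (1.32 + κ) * (√2 / 12 - volume.real (K ∩ T0 a)) ≤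
      (1.32 + κ) * (9e-7 * (s 0 + s 1 + s 2 + s 3)) := by
    refine mul_le_mul_of_nonneg_left (h6.trans ?_) (by linarith)
    have a0 := h3 0
    have a1 := h3 1
    have a2 := h3 2
    have a3 := h3 3
    norm_num at a0 a1 a2 a3 ⊢
    linarith
  have h7 : (1.32 + κ) * (9e-7 * (s 0 + s 1 + s 2 + s 3)) ≤ 2e-6 * (s 0 + s 1 + s 2 + s 3) := by
    have := add_nonneg (add_nonneg (add_nonneg (hs0 0) (hs0 1)) (hs0 2)) (hs0 3)
    nlinarith
  rw [h9] at h1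
  simp only [Fin.sum_univ_four] at h1 ⊢
  linarith

/-- **regime I**, `κ = .32`: all small terms inserted (`s i ≤ .002`) -/
theorem asm1 (h : PM K σ) (ha : ∀ i j, i ≠ j → dist (a i) (a j) = 1)
    (hp : ∀ x ∈ K, Pl a x) (hz : ∀ᵐ z ∂σ, Pl a z.1 ∧ ∀ k, bar a k z.1 ≠ 0)
    (hd : ∀ x ∈ K, ∀ y ∈ K, ‖x - y‖ ≤ 1)
    (hull : ∀ p, (∀ q ∈ K, ‖p - q‖ ≤ 1) → p ∈ K)
    (hB : ∀ m e, Fr (fun i => a (pr m e i)) (B m e)) {s : Fin 4 → ℝ} (hs0 : ∀ i, 0 ≤ s i)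
    (hs : ∀ i, s i ≤ 0.002) (hQ : ∀ i, ∀ q ∈ K, Qv a i q ≤ s i) :
    ∑ i, (Wi a i K σ 3.89 - LL σ a i - 0.0992 * s i) ≤
    4.14 * (volume.real K - Helper82.CW.VM) := by
  have h1 := asmK (κ := 0.32) (by norm_num) (by norm_num) (by nlinarith [v_lo]) h ha hp hz hd hull
    hB hs0 hs hQ
  have e1 : (3.57 + 0.32 : ℝ) = 3.89 := by norm_num
  have e3 : (3.82 + 0.32 : ℝ) = 4.14 := by norm_num
  rw [e1, e3] at h1
  refine le_trans (Finset.sum_le_sum fun i _ => ?_) h1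
  have := hs0 i
  norm_num
  linarith

end Helper78.MEI
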