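import Pool.Agent.Helper78.MEI.Asm

/-!
# MEI M2, regime II with a general multiplier `κ ≥ .13`
-/

namespace Helper78.MEI

open Set MeasureTheory Filter Topology Metric
open Helper80.CW Helper22.Wedge Helper22.Sig Helper14.CW Helper14.MEI2 Helper93.MEI
open Pool.Agent.Helper95.MEI.Cst (vAs vAx v_lo v_hi)
open Pool.Agent.Helper95.MEI.Fub (Zp exn)
open Pool.Agent.Helper73.MEI
open Helper33.MEI (Wi star_W)
open Helper37.MEI (LL sum_LL)
open scoped RealInnerProductSpace ContDiff Real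

variable {a : Fin 4 → E3} {K : Set E3} {σ : Measure (E3 × E3)} [IsFiniteMeasure σ]
  {B : Fin 3 → Bool → OrthonormalBasis (Fin 3) ℝ E3}

/-- regime II, `κ ≥ .13`, the losses `exn` of the edge cells still inside -/
theorem star2K {κ : ℝ} (hκ : 0.13 ≤ κ) (h : PM K σ) (ha : ∀ i j, i ≠ j → dist (a i) (a j) = 1)
    (hp : ∀ x ∈ K, Pl a x) (hz : ∀ᵐ z ∂σ, Pl a z.1 ∧ ∀ k, bar a k z.1 ≠ 0)
    (hull : ∀ p, (∀ q ∈ K, ‖p - q‖ ≤ 1) → p ∈ K)
    (hB : ∀ m e, Fr (fun i => a (pr m e i)) (B m e)) {s : Fin 4 → ℝ} (hs0 : ∀ i, 0 ≤ s i)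
    (hs : ∀ i, s i ≤ 0.2) (hQ : ∀ i, ∀ q ∈ K, Qv a i q ≤ s i) :
    ∑ i, Wi a i K σ (3.57 + κ)
      + ∑ m, (TE (B m false) (cen a) σ + TE (B m true) (cen a) σ)
      - ∑ i, (pp (0.26 - κ) * (3 * ((0.0393 + 0.2358 * s i) * s i)) + κ * (0.1089 * s i)
          + (1.32 + κ) * (0.317 * s i ^ 3)) - 0.002301 * κ ≤
    (3.82 + κ) * (volume.real K - Helper82.CW.VM) := by
  have h1 := star_W κ h ha hp hz hB
  have hl : ∀ m e, lE (B m e) (cen a) K ≤ vAs - vAx := fun m e => lE_le _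
  have hv := v_hi
  have h4 : ∀ m, -(κ * (vAs - vAx)) ≤
      κ * ((vAs - vAx) - lE (B m false) (cen a) K - lE (B m true) (cen a) K)
        - 0.26 * ((vAs - vAx) - max (lE (B m false) (cen a) K) (lE (B m true) (cen a) K)) := by
    intro m
    have l0 := hl m false
    have l1 := hl m true
    rcases le_total (lE (B m false) (cen a) K) (lE (B m true) (cen a) K) with h5 | h5
    · rw [max_eq_right h5]
      nlinarith [mul_nonneg (by linarith : 0 ≤ κ) (sub_nonneg.2 h5),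
        mul_nonneg (by linarith : 0 ≤ 2 * κ - 0.26) (sub_nonneg.2 l1)]
    · rw [max_eq_left h5]
      nlinarith [mul_nonneg (by linarith : 0 ≤ κ) (sub_nonneg.2 h5),
        mul_nonneg (by linarith : 0 ≤ 2 * κ - 0.26) (sub_nonneg.2 l0)]
  have h5 := Pool.Agent.Helper52.MEI.ET_row0 h ha hp
  have h6 := Pool.Agent.Helper52.MEI.tau_20 ha h.cpt hull hs0 hs hQ
  have h7 := Helper72.MEI.xiE_sum ha hB hull hs0 hQ
  have h8 := Helper72.MEI.beE_sum ha hB hp hs0 hQ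
  have hb0 : 0 ≤ ∑ m, (beE (B m false) (cen a) K + beE (B m true) (cen a) K) :=
    Finset.sum_nonneg fun m _ => add_nonneg measureReal_nonneg measureReal_nonneg
  have h6' := mul_le_mul_of_nonneg_left h6 (by linarith : 0 ≤ 1.32 + κ)
  have h7' := mul_le_mul_of_nonneg_left h7 (by linarith : 0 ≤ κ)
  have h8' : -(pp (0.26 - κ) * (3 * ∑ i, (0.0393 + 0.2358 * s i) * s i)) ≤
      (κ - 0.26) * ∑ m, (beE (B m false) (cen a) K + beE (B m true) (cen a) K) := by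
    have e1 := pp_nonneg (0.26 - κ)
    have e2 := le_pp (0.26 - κ)
    have e3 := mul_le_mul_of_nonneg_left h8 e1
    have e4 : -(pp (0.26 - κ) * ∑ m, (beE (B m false) (cen a) K + beE (B m true) (cen a) K)) ≤
        (κ - 0.26) * ∑ m, (beE (B m false) (cen a) K + beE (B m true) (cen a) K) := by
      rw [← neg_mul]
      exact mul_le_mul_of_nonneg_right (by linarith) hb0
    linarith
  have h10 : κ * (vAs - vAx) ≤ κ * 7.67e-4 := mul_le_mul_of_nonneg_left hv.le (by linarith)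
  have g0 := h4 0
  have g1 := h4 1
  have g2 := h4 2
  simp only [Fin.sum_univ_three, Fin.sum_univ_four] at h1 h6' h7' h8' ⊢
  norm_num at h1 h6' h7' h8' h10 ⊢
  linarith

/-- **regime II, general `κ ≥ .13`** -/
theorem asm2K {κ : ℝ} (hκ : 0.13 ≤ κ) (h : PM K σ) (ha : ∀ i j, i ≠ j → dist (a i) (a j) = 1)
    (hp : ∀ x ∈ K, Pl a x) (hz : ∀ᵐ z ∂σ, Pl a z.1 ∧ ∀ k, bar a k z.1 ≠ 0)
    (hull : ∀ p, (∀ q ∈ K, ‖p - q‖ ≤ 1) → p ∈ K)
    (hB : ∀ m e, Fr (fun i => a (pr m e i)) (B m e)) {s : Fin 4 → ℝ} (hs0 : ∀ i, 0 ≤ s i)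
    (hs : ∀ i, s i ≤ 0.2) (hQ : ∀ i, ∀ q ∈ K, Qv a i q ≤ s i) :
    ∑ i, (Wi a i K σ (3.57 + κ) - LL σ a i
        - (pp (0.26 - κ) * (3 * ((0.0393 + 0.2358 * s i) * s i)) + κ * (0.1089 * s i)
          + (1.32 + κ) * (0.317 * s i ^ 3))) - 0.002301 * κ ≤
    (3.82 + κ) * (volume.real K - Helper82.CW.VM) := by
  have h1 := star2K hκ h ha hp hz hull hB hs0 hs hQ
  have h2 : ∀ m e, -(∫ z in Zp (fun i => a (pr m e i)) 2 3, exn (fun i => a (pr m e i)) z ∂σ) ≤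
      TE (B m e) (cen a) σ := by
    intro m e
    have ha' : ∀ i j, i ≠ j → dist ((fun i => a (pr m e i)) i)
        ((fun i => a (pr m e i)) j) = 1 :=
      fun i j hij => ha _ _ (fun h => hij ((pr m e).injective h))
    have hp' : ∀ x ∈ K, Pl (fun i => a (pr m e i)) x := fun x hx => Pl_perm _ (hp x hx)
    have hc : cen (fun i => a (pr m e i)) = cen a := cen_perm _
    have h3 := TE_ge h ha' hp' (hB m e)
    rw [hc] at h3
    exact h3
  have h9 := sum_LL (a := a) h.cpt h.mem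
  have f0 := h2 0 false
  have f1 := h2 1 false
  have f2 := h2 2 false
  have t0 := h2 0 true
  have t1 := h2 1 true
  have t2 := h2 2 true
  simp only [Fin.sum_univ_three, Fin.sum_univ_four] at h1 h9 ⊢
  linarith

/-- **regime II, `κ = .4`**: `A = 3.97`, the face functional has `A/2 + 1/8 = 2.11` -/
theorem asm2_40 (h : PM K σ) (ha : ∀ i j, i ≠ j → dist (a i) (a j) = 1)
    (hp : ∀ x ∈ K, Pl a x) (hz : ∀ᵐ z ∂σ, Pl a z.1 ∧ ∀ k, bar a k z.1 ≠ 0)
    (hull : ∀ p, (∀ q ∈ K, ‖p - q‖ ≤ 1) → p ∈ K)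
    (hB : ∀ m e, Fr (fun i => a (pr m e i)) (B m e)) {s : Fin 4 → ℝ} (hs0 : ∀ i, 0 ≤ s i)
    (hs : ∀ i, s i ≤ 0.2) (hQ : ∀ i, ∀ q ∈ K, Qv a i q ≤ s i) :
    ∑ i, (Wi a i K σ 3.97 - LL σ a i - (0.0436 * s i + 0.546 * s i ^ 3)) - 0.00093 ≤
    4.22 * (volume.real K - Helper82.CW.VM) := by
  have h1 := asm2K (κ := 0.4) (by norm_num) h ha hp hz hull hB hs0 hs hQ
  have e0 : pp (0.26 - 0.4) = 0 := by
    unfold pp
    norm_num
  have e1 : (3.57 + 0.4 : ℝ) = 3.97 := by norm_num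
  have e3 : (3.82 + 0.4 : ℝ) = 4.22 := by norm_num
  rw [e0, e1, e3] at h1
  refine le_trans (sub_le_sub (Finset.sum_le_sum fun i _ => ?_) ?_) h1
  · have i1 := hs0 i
    have i3 := pow_nonneg i1 3
    norm_num
    nlinarith
  · norm_num

end Helper78.MEI
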