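import Pool.Agent.Helper78.MEI.End5
import Pool.Agent.Helper78.MEI.TC5
import Pool.Agent.Helper13.PLM.States

/-!
# Project MEI (M2): the split of the states by the sum of the violations
-/

set_option autoImplicit false

namespace Helper78.MEI

open Set Metric MeasureTheory Filter Topology Helper93.MEI Helper80.CW Helper14.CW
open Helper14.MEI2 Pool.Agent.Helper73.MEI Helper82.M2 Helper82.CW Helper41.MEI
open Helper33.MEI (Wi)
open Helper13.PLM (StX stX)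
open scoped RealInnerProductSpace

/-- the states that occur (helper13) may be added to any set of states -/
theorem CoreP.of_st {P : (Fin 4 → ℝ) → Prop} {X κ : ℝ} (hX : X ≤ 0.1774)
    (h : CoreP (fun S => P S ∧ StX X S) X κ) : CoreP P X κ := by
  intro K σ hσ a c hC hE S hV hS i
  exact h K σ hσ a c hC hE S hV ⟨hS, stX hC hX hE hV⟩ i

/-- the core statement from the states that occur -/
theorem coreX_of_st {X κ : ℝ} (hX : X ≤ 0.1774) (h : CoreP (StX X) X κ) : CoreX X κ :=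
  coreX_of_one (fun _ _ _ _ _ hC hE _ hV => stX hC hX hE hV) h

/-- a family of sets of states -/
theorem CoreP.iUnion {J : Type} {P : J → (Fin 4 → ℝ) → Prop} {X κ : ℝ}
    (h : ∀ j, CoreP (P j) X κ) : CoreP (fun S => ∃ j, P j S) X κ := by
  intro K σ hσ a c hC hE S hV hS i
  obtain ⟨j, hj⟩ := hS
  exact h j K σ hσ a c hC hE S hV hj i

/-- **split at `∑ S = τ`** -/
theorem CoreP.split (τ : ℝ) {P : (Fin 4 → ℝ) → Prop} {X κ : ℝ}
    (h1 : CoreP (fun S => P S ∧ ∑ i, S i ≤ τ) X κ)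
    (h2 : CoreP (fun S => P S ∧ τ ≤ ∑ i, S i) X κ) : CoreP P X κ := by
  intro K σ hσ a c hC hE S hV hS i
  rcases le_total (∑ i, S i) τ with h | h
  · exact h1 K σ hσ a c hC hE S hV ⟨hS, h⟩ i
  · exact h2 K σ hσ a c hC hE S hV ⟨hS, h⟩ i

/-- **regime I for `∑ S ≤ .002`** -/
theorem coreP_I_sum {P : (Fin 4 → ℝ) → Prop} {X κ τ : ℝ} (hκ : 0 ≤ κ) (hτ : τ ≤ 0.002)
    (H : ∀ (K : Set E3) (σ : Measure (E3 × E3)), IsFiniteMeasure σ →
      ∀ a c : Fin 4 → E3, CN K σ a c → EpsLe c X → ∀ S : Fin 4 → ℝ, Viol K a S → P S →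
      ∑ i, S i ≤ τ → ∃ F : Fin 4 → ℝ, (∀ i, LLs σ a (l1 a) i + F i ≤ Wi a i K σ 3.92) ∧
        (0.1126 + 4.17 * κ) * (∑ i, S i) ≤ ∑ i, F i) :
    CoreP (fun S => P S ∧ ∑ i, S i ≤ τ) X κ := by
  intro K σ hσ a c hC hE S hV hS i
  obtain ⟨F, hF, hs⟩ := H K σ hσ a c hC hE S hV hS.1 hS.2
  refine end_I hC hV hκ (fun k => ?_) hF hs i
  have hk : S k ≤ ∑ j, S j := Finset.single_le_sum (f := S) (fun j _ => hV.nn j)
    (Finset.mem_univ k)
  exact hk.trans (hS.2.trans hτ)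

/-- **the core statement from the two regimes** `∑ S ≤ τ` and `τ ≤ ∑ S` -/
theorem coreX_split {X κ : ℝ} (τ : ℝ) (hX : X ≤ 0.1774)
    (h1 : CoreP (fun S => StX X S ∧ ∑ i, S i ≤ τ) X κ)
    (h2 : CoreP (fun S => StX X S ∧ τ ≤ ∑ i, S i) X κ) : CoreX X κ :=
  coreX_of_st hX (CoreP.split τ h1 h2)

end Helper78.MEI
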