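import Pool.Agent.Helper78.MEI.Face2
import Pool.Agent.Helper55.MEI.ApexP

/-!
# Project MEI (M2), faces: apex and arcs on a uniform share of the capacity

The certificate of helper33's sheet (small and middle range): contact nodes by the exact filling,
the apex with the share `lam (1 - φ)`, the three arcs (side functions `f l`) with the share `φ`,
so that every arc is paid in full.
-/

namespace Helper78.MEI

open Set Metric MeasureTheory Real Helper80.CW Helper82.CW Helper14.CW Helper22.Sig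
open Helper22.Wedge Helper14.MEI2 Pool.Agent.Helper73.MEI Helper33.MEI Helper93.MEI
open Pool.Agent.Helper52.MEI
open Pool.Agent.Helper55.Sx (Sim mm mm_pos mm_cont mt_mm deg1 int_Dl)
open Pool.Agent.Helper55.Mass (LN LN_nonneg vv vv_nonneg vv_le B0 intOn)
open Pool.Agent.Helper55.Apex (nc vt_vv)
open Pool.Agent.Helper55.ApexP (PN alP alP_nonneg alP_zeta alP_meas alP_bound xx_mu alP_int)
open Pool.Agent.Helper55.Fill (xx rr xe wc xe_bal rr_nonneg xx_meas rr_meas xx_nonneg xx_le rr_int)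
open Helper75.MEI2 (mu vt)
open scoped RealInnerProductSpace ENNReal

variable {a : Fin 4 → E3} {σ : Measure (E3 × E3)} [IsFiniteMeasure σ] {K : Set E3}

theorem load_mono {q : E3} (hq : Pl a q) {L m : ℝ} {M M' : Fin 3 → ℝ} (hL : Load a q L m M)
    (hM : ∀ k, M k ≤ M' k) : Load a q L m M' := by
  have y1 := yv_nonneg hq (i := 0) (j := 1) (by decide)
  have y2 := yv_nonneg hq (i := 0) (j := 2) (by decide)
  have y3 := yv_nonneg hq (i := 0) (j := 3) (by decide)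
  have k1 := mul_le_mul_of_nonneg_right (hM 0) y1
  have k2 := mul_le_mul_of_nonneg_right (hM 1) y2
  have k3 := mul_le_mul_of_nonneg_right (hM 2) y3
  unfold Load at hL ⊢
  linarith

section share
variable {N : Fin 3 → Fin 3 → ℝ} {ζ ζp : Fin 3 → ℝ} {f : Fin 3 → ℝ × ℝ → ℝ}
  {F : Fin 3 → ℝ} {A' φ ρ lam : ℝ} {M : Fin 3 → Fin 3 → ℝ}

/-- the extra loads: apex (`none`) and the three arcs -/
noncomputable def alS (N : Fin 3 → Fin 3 → ℝ) (ζp : Fin 3 → ℝ) (f : Fin 3 → ℝ × ℝ → ℝ)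
    (F : Fin 3 → ℝ) (A' φ lam : ℝ) : Option (Fin 3) → ℝ × ℝ → ℝ
  | none => fun t => lam * (1 - φ) * alP N ζp t
  | some l => fun t => f l t / (A' * F l)

/-- their contact coordinates -/
def zS (ζ : Fin 3 → ℝ) (M : Fin 3 → Fin 3 → ℝ) : Option (Fin 3) → Fin 3 → ℝ
  | none => ζ
  | some l => M l

theorem xeS (t : ℝ × ℝ) (k : Fin 3) : xe N (alS N ζp f F A' φ lam) (zS ζ M) t k =
    xx N (vv t) k - (lam * (1 - φ) * alP N ζp t * ζ k + ∑ l, f l t / (A' * F l) * M l k) := by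
  unfold xe
  rw [Fintype.sum_option]
  rfl

/-- **feasibility** -/
theorem xeS_nonneg (hN : ∀ k m, 0 ≤ N k m) (hd : ∀ k, N k k = 0) {c : ℝ} (hc : c < 1)
    (hcol : ∀ m, nc N m ≤ c) (hζp : ∀ k, 0 < ζp k) (hζ : ∀ k, ζ k ≤ ζp k)
    (hf0 : ∀ l, ∀ t, 0 ≤ f l t)
    (hfz : ∀ l, ∀ t, (¬ ∀ k, 0 ≤ mu (PN N) (vt t) k) → f l t = 0)
    (hfx : ∀ t, (∀ k, 0 ≤ mu (PN N) (vt t) k) → ∀ k,
      (f 0 t + f 1 t + f 2 t) - f k t ≤ mu (PN N) (vt t) k)
    (hφ0 : 0 ≤ φ) (hφ1 : φ ≤ 1) (hl0 : 0 ≤ lam) (hl1 : lam ≤ 1)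
    (hA' : 0 < A') (hF0 : ∀ l, 0 < F l) (hF : ∀ l, ρ ≤ φ * (A' * F l))
    (hMl : ∀ l, M l l = 0) (hMρ : ∀ l k, M l k ≤ ρ) {t : ℝ × ℝ} (ht : t ∈ Sim) (k : Fin 3) :
    0 ≤ xe N (alS N ζp f F A' φ lam) (zS ζ M) t k := by
  rw [xeS, Fin.sum_univ_three]
  have hx0 := xx_nonneg hN hc hcol (fun k => vv_nonneg ht k) k
  have hs : 0 ≤ lam * (1 - φ) := mul_nonneg hl0 (by linarith)
  have hs1 : lam * (1 - φ) ≤ 1 - φ := by nlinarith
  by_cases h : ∀ k, 0 ≤ mu (PN N) (vt t) k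
  · have h2 : xx N (vv t) k = mu (PN N) (vt t) k := by
      rw [← vt_vv, xx_mu hN hd hc hcol h]
    have hx := h k
    have ha := alP_zeta hζp h k
    have ha0 := alP_nonneg (N := N) hζp t
    have hz := mul_le_mul_of_nonneg_left (hζ k) ha0
    have e1 : lam * (1 - φ) * alP N ζp t * ζ k ≤ (1 - φ) * mu (PN N) (vt t) k := by
      have g1 := mul_le_mul_of_nonneg_left (hz.trans ha) hs
      have g2 := mul_le_mul_of_nonneg_right hs1 hx
      linarith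
    have arc : ∀ l, f l t / (A' * F l) * M l k ≤ φ * (if l = k then 0 else f l t) := by
      intro l
      by_cases hlk : l = k
      · rw [hlk, hMl, if_pos rfl]
        simp
      · rw [if_neg hlk]
        have hAF : 0 < A' * F l := mul_pos hA' (hF0 l)
        have g0 : 0 ≤ f l t / (A' * F l) := div_nonneg (hf0 l t) hAF.le
        have g1 := mul_le_mul_of_nonneg_left ((hMρ l k).trans (hF l)) g0
        have g2 : f l t / (A' * F l) * (φ * (A' * F l)) = φ * f l t := by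
          rw [show f l t / (A' * F l) * (φ * (A' * F l)) =
            φ * (f l t / (A' * F l) * (A' * F l)) by ring, div_mul_cancel₀ _ hAF.ne']
        linarith
    have a0 := arc 0
    have a1 := arc 1
    have a2 := arc 2
    have hsum : (if (0 : Fin 3) = k then 0 else f 0 t) + (if (1 : Fin 3) = k then 0 else f 1 t)
        + (if (2 : Fin 3) = k then 0 else f 2 t) = (f 0 t + f 1 t + f 2 t) - f k t := by
      fin_cases k <;> simp <;> ring
    have hfk := mul_le_mul_of_nonneg_left (hfx t h k) hφ0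
    rw [← hsum] at hfk
    rw [h2]
    linarith
  · have h1 : alP N ζp t = 0 := by
      unfold alP
      rw [if_neg h]
    rw [h1, hfz 0 t h, hfz 1 t h, hfz 2 t h]
    simpa using hx0

/-- **mass deficit** -/
theorem DdS {μ νn : Fin 3 → ℝ} {sm νa : Fin 3 → ℝ} {νz : ℝ}
    (hN : ∀ k m, 0 ≤ N k m) {c : ℝ} (hc : c < 1) (hcol : ∀ m, nc N m ≤ c)
    (hζp : ∀ k, 0 < ζp k) (hf0 : ∀ l, ∀ t, 0 ≤ f l t)
    (hφ1 : φ ≤ 1) (hl0 : 0 ≤ lam) (hA' : 0 < A') (hF0 : ∀ l, 0 < F l) (hM0 : ∀ l k, 0 ≤ M l k)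
    (hνn0 : ∀ j, 0 ≤ νn j) (hνn : ∀ j, 1 + nc N j - μ j ≤ νn j)
    (hνz : (∑ k, (ζ k + LN N ζ k)) - 1 +
      (pp (-ζ 0) * νn 0 + pp (-ζ 1) * νn 1 + pp (-ζ 2) * νn 2) ≤ νz)
    (hνa : ∀ l, (∑ k, (M l k + LN N (M l) k)) - sm l ≤ νa l)
    {t : ℝ × ℝ} (ht : t ∈ Sim)
    (hxe : ∀ k, 0 ≤ xe N (alS N ζp f F A' φ lam) (zS ζ M) t k) :
    Dd N (alS N ζp f F A' φ lam) (zS ζ M) μ
      (fun m => match m with
        | none => 1
        | some l => sm l) t ≤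
      vv t 0 * νn 0 + vv t 1 * νn 1 + vv t 2 * νn 2 + lam * (1 - φ) * alP N ζp t * νz
        + ∑ l, f l t / (A' * F l) * νa l := by
  have hs : 0 ≤ lam * (1 - φ) := mul_nonneg hl0 (by linarith)
  have ha0 := alP_nonneg (N := N) hζp t
  have hu : 0 ≤ lam * (1 - φ) * alP N ζp t := mul_nonneg hs ha0
  have key : ∀ k, xe N (alS N ζp f F A' φ lam) (zS ζ M) t k * (1 + nc N k - μ k) ≤
      vv t k * νn k + lam * (1 - φ) * alP N ζp t * (pp (-ζ k) * νn k) := by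
    intro k
    have g1 := mul_le_mul_of_nonneg_left (hνn k) (hxe k)
    have g2 : xe N (alS N ζp f F A' φ lam) (zS ζ M) t k ≤
        vv t k + lam * (1 - φ) * alP N ζp t * pp (-ζ k) := by
      rw [xeS]
      have q1 := xx_le hN hc hcol (fun k => vv_nonneg ht k) k
      have q2 : 0 ≤ ∑ l, f l t / (A' * F l) * M l k :=
        Finset.sum_nonneg fun l _ => mul_nonneg
          (div_nonneg (hf0 l t) (mul_pos hA' (hF0 l)).le) (hM0 l k)
      have q3 := mul_le_mul_of_nonneg_left (le_pp (-ζ k)) hu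
      linarith
    have g3 := mul_le_mul_of_nonneg_right g2 (hνn0 k)
    linarith
  have k0 := key 0
  have k1 := key 1
  have k2 := key 2
  have hz := mul_le_mul_of_nonneg_left hνz hu
  have hsum : ∑ l, f l t / (A' * F l) * ((∑ k, (M l k + LN N (M l) k)) - sm l) ≤
      ∑ l, f l t / (A' * F l) * νa l :=
    Finset.sum_le_sum fun l _ => mul_le_mul_of_nonneg_left (hνa l)
      (div_nonneg (hf0 l t) (mul_pos hA' (hF0 l)).le)
  unfold Dd
  rw [Fintype.sum_option, Fin.sum_univ_three (f := fun j =>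
    xe N (alS N ζp f F A' φ lam) (zS ζ M) t j * (1 + nc N j - μ j))]
  show xe N (alS N ζp f F A' φ lam) (zS ζ M) t 0 * (1 + nc N 0 - μ 0)
      + xe N (alS N ζp f F A' φ lam) (zS ζ M) t 1 * (1 + nc N 1 - μ 1)
      + xe N (alS N ζp f F A' φ lam) (zS ζ M) t 2 * (1 + nc N 2 - μ 2)
      + (lam * (1 - φ) * alP N ζp t * ((∑ k, (ζ k + LN N ζ k)) - 1)
        + ∑ l, f l t / (A' * F l) * ((∑ k, (M l k + LN N (M l) k)) - sm l)) ≤ _
  linarith

/-- the contact value of a node through the contact plane -/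
theorem plane_node {R H : Fin 3 → ℝ}
    (hH : ∀ j, H j + (N 0 j * H 0 + N 1 j * H 1 + N 2 j * H 2) = R j) (z : Fin 3 → ℝ) :
    (z 0 + LN N z 0) * H 0 + (z 1 + LN N z 1) * H 1 + (z 2 + LN N z 2) * H 2 =
      z 0 * R 0 + z 1 * R 1 + z 2 * R 2 := by
  have h0 := hH 0
  have h1 := hH 1
  have h2 := hH 2
  unfold LN
  linear_combination (z 0) * h0 + (z 1) * h1 + (z 2) * h2

theorem f_le_one (hN : ∀ k m, 0 ≤ N k m) (hd : ∀ k, N k k = 0) {c : ℝ} (hc : c < 1)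
    (hcol : ∀ m, nc N m ≤ c) (hf0 : ∀ l, ∀ t, 0 ≤ f l t)
    (hfz : ∀ l, ∀ t, (¬ ∀ k, 0 ≤ mu (PN N) (vt t) k) → f l t = 0)
    (hfx : ∀ t, (∀ k, 0 ≤ mu (PN N) (vt t) k) → ∀ k,
      (f 0 t + f 1 t + f 2 t) - f k t ≤ mu (PN N) (vt t) k) (l : Fin 3) {t : ℝ × ℝ}
    (ht : t ∈ Sim) : f l t ≤ 1 := by
  by_cases h : ∀ k, 0 ≤ mu (PN N) (vt t) k
  · have hx : ∀ k, mu (PN N) (vt t) k ≤ 1 := fun k => by
      have h2 : xx N (vv t) k = mu (PN N) (vt t) k := by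
        rw [← vt_vv, xx_mu hN hd hc hcol h]
      rw [← h2]
      exact (xx_le hN hc hcol (fun k => vv_nonneg ht k) k).trans (vv_le ht k)
    have g0 := (hfx t h 0).trans (hx 0)
    have g1 := (hfx t h 1).trans (hx 1)
    have p0 := hf0 0 t
    have p1 := hf0 1 t
    have p2 := hf0 2 t
    fin_cases l
    · show f 0 t ≤ 1
      linarith
    · show f 1 t ≤ 1
      linarith
    · show f 2 t ≤ 1
      linarith
  · rw [hfz l t h]
    norm_num

end share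

/-- **FACE THEOREM, SHARED CAPACITY** (vertex `τ 0`): contact nodes `(R j, μ j; 1 + N)`, apex with
contact coordinates `ζ` (value `s0`), arcs `(E l, sm l; M l)` paid in full. -/
theorem face_share (h : PM K σ) (ha : ∀ i j, i ≠ j → dist (a i) (a j) = 1)
    (hp : ∀ x ∈ K, Pl a x)
    (hull : ∀ p, (∀ q ∈ K, ‖p - q‖ ≤ 1) → p ∈ K) (hQ : ∀ i, ∀ q ∈ K, Qv a i q ≤ 3 / 16)
    (τ : Equiv.Perm (Fin 4)) {A : ℝ} (hA : 7 / 2 ≤ A)
    {N : Fin 3 → Fin 3 → ℝ} (hN : ∀ k m, 0 ≤ N k m) (hd : ∀ k, N k k = 0) {c : ℝ} (hc : c < 1)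
    (hcol : ∀ m, nc N m ≤ c)
    {ζ ζp : Fin 3 → ℝ} (hζp : ∀ k, 0 < ζp k) (hζ : ∀ k, ζ k ≤ ζp k)
    {f : Fin 3 → ℝ × ℝ → ℝ} (hfm : ∀ l, Measurable (f l)) (hf0 : ∀ l, ∀ t, 0 ≤ f l t)
    (hfz : ∀ l, ∀ t, (¬ ∀ k, 0 ≤ mu (PN N) (vt t) k) → f l t = 0)
    (hfx : ∀ t, (∀ k, 0 ≤ mu (PN N) (vt t) k) → ∀ k,
      (f 0 t + f 1 t + f 2 t) - f k t ≤ mu (PN N) (vt t) k)
    {φ ρ lam : ℝ} (hφ0 : 0 ≤ φ) (hφ1 : φ ≤ 1) (hl0 : 0 ≤ lam) (hl1 : lam ≤ 1)
    (hF0 : ∀ l, 0 < Pool.Agent.Helper55.Mass.Id (f l))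
    (hF : ∀ l, ρ ≤ φ * ((A / 2 + 1 / 8) * Pool.Agent.Helper55.Mass.Id (f l)))
    {M : Fin 3 → Fin 3 → ℝ} (hM0 : ∀ l k, 0 ≤ M l k) (hMl : ∀ l, M l l = 0)
    (hMρ : ∀ l k, M l k ≤ ρ)
    {R S μ H r E sm : Fin 3 → ℝ} {s0 : ℝ}
    (hH : ∀ j, H j + (N 0 j * H 0 + N 1 j * H 1 + N 2 j * H 2) = R j)
    (hr : ∀ k, Pool.Agent.Helper55.Mass.Id (fun t => rr N (vv t) k) ≤ r k)
    (nodes : ∀ q ∈ K, ∀ j, Load (fun i => a (τ i)) q (R j) (μ j)
      (fun k => (if k = j then 1 else 0) + N k j))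
    (apex : ∀ q ∈ K, Load (fun i => a (τ i)) q s0 1 (fun k => ζ k + LN N ζ k))
    (arcs : ∀ q ∈ K, ∀ l, Load (fun i => a (τ i)) q (E l) (sm l) (M l))
    (caps : ∀ q ∈ K, Qv a (τ 1) q ≤ S 0 ∧ Qv a (τ 2) q ≤ S 1 ∧ Qv a (τ 3) q ≤ S 2)
    {νn νa : Fin 3 → ℝ} {νz : ℝ} (hνn0 : ∀ j, 0 ≤ νn j) (hνn : ∀ j, 1 + nc N j - μ j ≤ νn j)
    (hνz : (∑ k, (ζ k + LN N ζ k)) - 1 +
      (pp (-ζ 0) * νn 0 + pp (-ζ 1) * νn 1 + pp (-ζ 2) * νn 2) ≤ νz)
    (hνa : ∀ l, (∑ k, (M l k + LN N (M l) k)) - sm l ≤ νa l)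
    {D W ω : ℝ × ℝ → ℝ} {C2 : ℝ}
    (hD : ∀ t ∈ Dl, vv t 0 * νn 0 + vv t 1 * νn 1 + vv t 2 * νn 2
      + lam * (1 - φ) * alP N ζp t * νz
      + ∑ l, f l t / ((A / 2 + 1 / 8) * Pool.Agent.Helper55.Mass.Id (f l)) * νa l ≤ D t)
    (hω : AEStronglyMeasurable ω (volume.restrict Dl)) (hωC : ∀ t ∈ Dl, |ω t| ≤ C2)
    {s : ℝ × ℝ → ℝ} (hs : ∀ t ∈ Dl, 0 ≤ s t)
    (own : ∀ p ∈ K, tx (fun i => a (τ i)) p ∈ Dl →
      Qv a (τ 0) p ≤ s (tx (fun i => a (τ i)) p))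
    (hW : ∀ t ∈ Dl, ∀ q ∈ K,
      Yt (fun i => a (τ i)) t q / √(Helper33.MEI.mt t) - ‖a (τ 0) - q‖ ^ 2 ≤ s t →
      ‖a (τ 0) - q‖ ^ 2 ≤ W t) (hW2 : ∀ t ∈ Dl, W t < 2)
    (hcost : ∀ t ∈ Dl, cost (A / 2 + 1 / 8)
      (Gd N (alS N ζp f (fun l => Pool.Agent.Helper55.Mass.Id (f l)) (A / 2 + 1 / 8) φ lam)
        (zS ζ M) (fun m => match m with
          | none => s0
          | some l => E l) R S t / √(Helper33.MEI.mt t))
      (1 - (1 - D t) / √(Helper33.MEI.mt t)) (W t) ≤ ω t) :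
    E 0 + E 1 + E 2
      + (A / 2 + 1 / 8) * (B0 * (H 0 + H 1 + H 2)
        - (r 0 * max (S 0 + H 0) 0 + r 1 * max (S 1 + H 1) 0 + r 2 * max (S 2 + H 2) 0)
        + lam * (1 - φ) * Pool.Agent.Helper55.Mass.Id (alP N ζp) *
          (s0 - (ζ 0 * R 0 + ζ 1 * R 1 + ζ 2 * R 2)))
      - ((M 0 0 * R 0 + M 0 1 * R 1 + M 0 2 * R 2) + (M 1 0 * R 0 + M 1 1 * R 1 + M 1 2 * R 2)
        + (M 2 0 * R 0 + M 2 1 * R 1 + M 2 2 * R 2))
      - (√2)⁻¹ * ∫ t in Dl, ω t * M3 t ≤ Wi a (τ 0) K σ A := by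
  have hA' : 0 < A / 2 + 1 / 8 := by linarith
  set A' := A / 2 + 1 / 8 with hA'def
  set F : Fin 3 → ℝ := fun l => Pool.Agent.Helper55.Mass.Id (f l) with hFdef
  have hpτ : ∀ q ∈ K, Pl (fun i => a (τ i)) q := fun q hq i j hij =>
    hp q hq (τ i) (τ j) (τ.injective.ne hij)
  have hsh : 0 ≤ lam * (1 - φ) := mul_nonneg hl0 (by linarith)
  have hxe : ∀ t ∈ Sim, ∀ k, 0 ≤ xe N (alS N ζp f F A' φ lam) (zS ζ M) t k := fun t ht k =>
    xeS_nonneg hN hd hc hcol hζp hζ hf0 hfz hfx hφ0 hφ1 hl0 hl1 hA' hF0 hF hMl hMρ ht k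
  have halm : ∀ m, Measurable (alS N ζp f F A' φ lam m) := by
    intro m
    cases m with
    | none => exact alP_meas.const_mul _
    | some l => exact (hfm l).div_const _
  have hal : ∀ m, ∀ t ∈ Sim, 0 ≤ alS N ζp f F A' φ lam m t := by
    intro m t ht
    cases m with
    | none => exact mul_nonneg hsh (alP_nonneg hζp t)
    | some l => exact div_nonneg (hf0 l t) (mul_pos hA' (hF0 l)).le
  have halC : ∀ m, ∀ t ∈ Sim, alS N ζp f F A' φ lam m t ≤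
      lam * (1 - φ) * (1 / ζp 0) + (1 / (A' * F 0) + 1 / (A' * F 1) + 1 / (A' * F 2)) := by
    intro m t ht
    have i0 : 0 ≤ 1 / (A' * F 0) := by have := mul_pos hA' (hF0 0); positivity
    have i1 : 0 ≤ 1 / (A' * F 1) := by have := mul_pos hA' (hF0 1); positivity
    have i2 : 0 ≤ 1 / (A' * F 2) := by have := mul_pos hA' (hF0 2); positivity
    have j0 : 0 ≤ lam * (1 - φ) * (1 / ζp 0) := by have := hζp 0; positivity
    cases m with
    | none =>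
      have := mul_le_mul_of_nonneg_left (alP_bound hN hd hc hcol hζp ht) hsh
      show lam * (1 - φ) * alP N ζp t ≤ _
      linarith
    | some l =>
      have g : f l t / (A' * F l) ≤ 1 / (A' * F l) :=
        div_le_div_of_nonneg_right (f_le_one hN hd hc hcol hf0 hfz hfx l ht)
          (mul_pos hA' (hF0 l)).le
      show f l t / (A' * F l) ≤ _
      fin_cases l
      · have g' : f 0 t / (A' * F 0) ≤ 1 / (A' * F 0) := g
        show f 0 t / (A' * F 0) ≤ _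
        linarith
      · have g' : f 1 t / (A' * F 1) ≤ 1 / (A' * F 1) := g
        show f 1 t / (A' * F 1) ≤ _
        linarith
      · have g' : f 2 t / (A' * F 2) ≤ 1 / (A' * F 2) := g
        show f 2 t / (A' * F 2) ≤ _
        linarith
  have extra : ∀ q ∈ K, ∀ m, Load (fun i => a (τ i)) q
      ((fun m : Option (Fin 3) => match m with
        | none => s0
        | some l => E l) m)
      ((fun m : Option (Fin 3) => match m with
        | none => 1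
        | some l => sm l) m)
      (fun k => zS ζ M m k + LN N (zS ζ M m) k) := by
    intro q hq m
    cases m with
    | none => exact apex q hq
    | some l =>
      refine load_mono (hpτ q hq) (arcs q hq l) fun k => ?_
      have := LN_nonneg hN (hM0 l) k
      show M l k ≤ M l k + LN N (M l) k
      linarith
  have key := face_plane_W h ha hull hQ τ hA hN hc hcol halm hal halC hH hr hxe nodes extra caps
    (D := D) (W := W) (ω := ω) (fun t ht => (DdS hN hc hcol hζp hf0 hφ1 hl0 hA' hF0 hM0 hνn0 hνn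
      hνz hνa (Dl_Sim ht) (hxe t (Dl_Sim ht))).trans (hD t ht)) hω hωC hs own hW hW2 hcost
  rw [Fintype.sum_option, Fin.sum_univ_three] at key
  have e0 : Pool.Agent.Helper55.Mass.Id (alS N ζp f F A' φ lam none) =
      lam * (1 - φ) * Pool.Agent.Helper55.Mass.Id (alP N ζp) :=
    Pool.Agent.Helper55.Mass.Id_const (lam * (1 - φ)) (alP N ζp)
  have el : ∀ l, A' * Pool.Agent.Helper55.Mass.Id (alS N ζp f F A' φ lam (some l)) = 1 := by
    intro l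
    have hAF := mul_pos hA' (hF0 l)
    have e1 : (alS N ζp f F A' φ lam (some l)) = fun t => (A' * F l)⁻¹ * f l t := by
      funext t
      show f l t / (A' * F l) = (A' * F l)⁻¹ * f l t
      rw [div_eq_inv_mul]
    rw [e1, Pool.Agent.Helper55.Mass.Id_const]
    show A' * ((A' * F l)⁻¹ * F l) = 1
    have h1 := hA'.ne'
    have h2 := (hF0 l).ne'
    rw [show A' * ((A' * F l)⁻¹ * F l) = (A' * F l)⁻¹ * (A' * F l) by ring,
      inv_mul_cancel₀ hAF.ne']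
  have n0 := plane_node hH ζ
  have nl := fun l => plane_node hH (M l)
  have a0 := el 0
  have a1 := el 1
  have a2 := el 2
  have q0 := nl 0
  have q1 := nl 1
  have q2 := nl 2
  rw [e0] at key
  simp only [zS] at key
  rw [n0, q0, q1, q2, ← hA'def] at key
  have b0 : A' * ((E 0 - (M 0 0 * R 0 + M 0 1 * R 1 + M 0 2 * R 2)) *
      Pool.Agent.Helper55.Mass.Id (alS N ζp f F A' φ lam (some 0))) =
      E 0 - (M 0 0 * R 0 + M 0 1 * R 1 + M 0 2 * R 2) := by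
    linear_combination (E 0 - (M 0 0 * R 0 + M 0 1 * R 1 + M 0 2 * R 2)) * a0
  have b1 : A' * ((E 1 - (M 1 0 * R 0 + M 1 1 * R 1 + M 1 2 * R 2)) *
      Pool.Agent.Helper55.Mass.Id (alS N ζp f F A' φ lam (some 1))) =
      E 1 - (M 1 0 * R 0 + M 1 1 * R 1 + M 1 2 * R 2) := by
    linear_combination (E 1 - (M 1 0 * R 0 + M 1 1 * R 1 + M 1 2 * R 2)) * a1
  have b2 : A' * ((E 2 - (M 2 0 * R 0 + M 2 1 * R 1 + M 2 2 * R 2)) *
      Pool.Agent.Helper55.Mass.Id (alS N ζp f F A' φ lam (some 2))) =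
      E 2 - (M 2 0 * R 0 + M 2 1 * R 1 + M 2 2 * R 2) := by
    linear_combination (E 2 - (M 2 0 * R 0 + M 2 1 * R 1 + M 2 2 * R 2)) * a2
  linarith only [key, b0, b1, b2]

end Helper78.MEI
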