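import Pool.Agent.Helper78.MEI.WB18
import Pool.Agent.Helper31.SR.PcS
import Pool.Agent.Helper90.R8T.A40T0
import Pool.Agent.Helper90.R8T.A40C0
import Pool.Agent.Helper90.R8T.A40C1
import Pool.Agent.Helper90.R8T.A40C2

/-!
# Project MEI (M2), w-term: the cost on the piece `0.002 ≤ Σ S ≤ 0.004`
-/

set_option autoImplicit false

namespace Helper78.MEI.WS40

open Pool.Agent.Helper31.SR.MilH (WS)
open Helper60.R8 (Cor)
open Helper90.R8T

/-- the increments of the weights of the classes -/
def Dl : List ℕ := [6742134460459360000, 395059674240468590000, 242810371175840980000, 94932824240064500000, 94734702378818140000, 351642704607189260000, 231859157033018510000, 231346815334475620000, 256705573527169140000, 256802195418665270000, 142789179093152820000, 183348424592483760000]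

theorem q0 : tab12G P40 0 (A40T0.As.map altOf) 0 1000000 A40T0.Q = true := by decide +kernel

theorem q1 : tab12G P40 1 (A40C0.As.map altOf) 0 125000 A40C0.Q = true := by decide +kernel

theorem q2 : tab12G P40 1 (A40C1.As.map altOf) 125000 875000 A40C1.Q = true := by decide +kernel

theorem q3 : tab12G P40 1 (A40C2.As.map altOf) 875000 1000000 A40C2.Q = true := by decide +kernel

theorem m1 : wck A40T0.W Dl A40C0.W = true := by decide +kernel

theorem m2 : wck A40T0.W Dl A40C1.W = true := by decide +kernel

theorem m3 : wck A40T0.W Dl A40C2.W = true := by decide +kernel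

theorem fin : fck A40T0.W Dl 4000 7634 51696492 23364152 = true := by decide +kernel

/-- **the cost on the piece `0.002 ≤ Σ S ≤ 0.004`** -/
theorem ws : WS 0.0355 0.002 0.004 0.177 :=
  ws_threeG pok40 chd40 (by norm_num) (by norm_num) (by norm_num) (by norm_num) (by norm_num)
    Pool.Agent.Helper31.SR.PcS.rng_a4r (by norm_num) (by norm_num) (by norm_num) (by norm_num [P40, U6]) (by norm_num)
    (by norm_num) (by norm_num) A40T0.ok A40C0.ok A40C1.ok A40C2.ok q0 q1 q2 q3 rfl rfl rfl rfl
    A40T0.w_eq A40C0.w_eq A40C1.w_eq A40C2.w_eq m1 m2 m3 rfl fin (by norm_num)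

end Helper78.MEI.WS40
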