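import Pool.Agent.Helper78.MEI.WB18
import Pool.Agent.Helper31.SR.PcS
import Pool.Agent.Helper90.R8T.A60T0
import Pool.Agent.Helper90.R8T.A60C0
import Pool.Agent.Helper90.R8T.A60C1
import Pool.Agent.Helper90.R8T.A60C2

/-!
# Project MEI (M2), w-term: the cost on the piece `0.004 ≤ Σ S ≤ 0.006`
-/

set_option autoImplicit false

namespace Helper78.MEI.WS60

open Pool.Agent.Helper31.SR.MilH (WS)
open Helper60.R8 (Cor)
open Helper90.R8T

/-- the increments of the weights of the classes -/
def Dl : List ℕ := [7474071321488940000, 732300352171949520000, 404019553429062760000, 164263482551896110000, 165293491698121390000, 650008361128740190000, 429138868016776350000, 424146220470390080000, 478420663328680890000, 465776245165396140000, 277127928805672250000, 343800780485643920000]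

theorem q0 : tab12G P60 0 (A60T0.As.map altOf) 0 1000000 A60T0.Q = true := by decide +kernel

theorem q1 : tab12G P60 1 (A60C0.As.map altOf) 0 125000 A60C0.Q = true := by decide +kernel

theorem q2 : tab12G P60 1 (A60C1.As.map altOf) 125000 875000 A60C1.Q = true := by decide +kernel

theorem q3 : tab12G P60 1 (A60C2.As.map altOf) 875000 1000000 A60C2.Q = true := by decide +kernel

theorem m1 : wck A60T0.W Dl A60C0.W = true := by decide +kernel

theorem m2 : wck A60T0.W Dl A60C1.W = true := by decide +kernel

theorem m3 : wck A60T0.W Dl A60C2.W = true := by decide +kernel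

theorem fin : fck A60T0.W Dl 6000 9918 69018485 29031860 = true := by decide +kernel

/-- **the cost on the piece `0.004 ≤ Σ S ≤ 0.006`** -/
theorem ws : WS 0.036 0.004 0.006 0.2107 :=
  ws_threeG pok60 chd60 (by norm_num) (by norm_num) (by norm_num) (by norm_num) (by norm_num)
    Pool.Agent.Helper31.SR.PcS.rng_m46 (by norm_num) (by norm_num) (by norm_num) (by norm_num [P60, U6]) (by norm_num)
    (by norm_num) (by norm_num) A60T0.ok A60C0.ok A60C1.ok A60C2.ok q0 q1 q2 q3 rfl rfl rfl rfl
    A60T0.w_eq A60C0.w_eq A60C1.w_eq A60C2.w_eq m1 m2 m3 rfl fin (by norm_num)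

end Helper78.MEI.WS60
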