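import Pool.Agent.Helper78.MEI.WB15
import Pool.Agent.Helper31.SR.PcS
import Pool.Agent.Helper90.R8T.A75T0
import Pool.Agent.Helper90.R8T.A75C0
import Pool.Agent.Helper90.R8T.A75C1
import Pool.Agent.Helper90.R8T.A75C2

/-!
# Project MEI (M2), w-term: the cost on the piece `0.006 ≤ Σ S ≤ 0.00742`
-/

set_option autoImplicit false

namespace Helper78.MEI.WS75

open Pool.Agent.Helper31.SR.MilH (WS)
open Helper60.R8 (Cor)
open Helper90.R8T

/-- the increments of the weights of the classes -/
def Dl : List ℕ := [12338024612268950000, 1038397513821037230000, 615400077316597560000, 239735128110994470000, 238990354470115310000, 842932196025882970000, 585919608515764340000, 582101499169728350000, 601565905421728370000, 600459782555345130000, 371142029065247640000, 426392733181527600000]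

theorem q0 : tab12F P75 0 (A75T0.As.map altOf) 0 1000000 A75T0.Q = true := by decide +kernel

theorem q1 : tab12F P75 1 (A75C0.As.map altOf) 0 125000 A75C0.Q = true := by decide +kernel

theorem q2 : tab12F P75 1 (A75C1.As.map altOf) 125000 875000 A75C1.Q = true := by decide +kernel

theorem q3 : tab12F P75 1 (A75C2.As.map altOf) 875000 1000000 A75C2.Q = true := by decide +kernel

theorem m1 : wck A75T0.W Dl A75C0.W = true := by decide +kernel

theorem m2 : wck A75T0.W Dl A75C1.W = true := by decide +kernel

theorem m3 : wck A75T0.W Dl A75C2.W = true := by decide +kernel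

theorem fin : fck A75T0.W Dl 7500 15649 79776106 34493140 = true := by decide +kernel

/-- **the cost on the piece `0.006 ≤ Σ S ≤ 0.00742`** -/
theorem ws : WS 0.0362 0.006 0.00742 0.2121 :=
  ws_three pok75 chd75 (by norm_num) (by norm_num) (by norm_num) (by norm_num) (by norm_num)
    Pool.Agent.Helper31.SR.PcS.rng_e742 (by norm_num) (by norm_num) (by norm_num) (by norm_num [P75, U6]) (by norm_num)
    (by norm_num) (by norm_num) A75T0.ok A75C0.ok A75C1.ok A75C2.ok q0 q1 q2 q3 rfl rfl rfl rfl
    A75T0.w_eq A75C0.w_eq A75C1.w_eq A75C2.w_eq m1 m2 m3 rfl fin (by norm_num)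

end Helper78.MEI.WS75
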