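import Pool.Agent.Helper78.MEI.WB11

/-!
# Project MEI (M2), w-term: the numbers of the ranges

`P92`, `P107` with `POk` and the chord of the share.
-/

set_option autoImplicit false

namespace Helper78.MEI

/-- numbers of the range `Σ S ≤ 0.0092` -/
def P92 : Par := ⟨9200, 666667, 33865, 106545, 82319, 70205, 96392, 220338, 391488⟩

theorem pok92 : POk P92 2.04 0.0368 0.1008 0.0092 1.23224 0.18847 0.033865 15.8
    (22.6276 * 0.0368 * (35 / 48) ^ 2 / 2.04) 0.21703 0.4961 where
  A0 := by norm_num
  ρ0 := by norm_num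
  cN2 := by norm_num
  cN0 := by norm_num
  χ0 := by norm_num
  χs := by norm_num
  ω0 := by norm_num
  ωχ := by norm_num
  Xp := by norm_num [P92]
  K2 := by norm_num [P92, U6]
  nok := ⟨by norm_num [P92, U6], by norm_num [P92, U6], by norm_num [P92, U6],
    by norm_num [P92, U6]⟩
  g10 := by norm_num
  leak := fun n n0 n1 => by
    have h1 := mul_nonneg (sub_nonneg.2 n1) (sq_nonneg (n - 0.07019))
    have h2 := sq_nonneg (n - 0.07019)
    have h3 := mul_nonneg n0 (sub_nonneg.2 n1)
    nlinarith
  c0 := by norm_num [P92, U6]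
  c1 := by norm_num [P92, U6]
  hl := by norm_num [P92, U6]

theorem chd92 : Chd 0.0368 0.21703 0.4961 0.3024 := by
  intro T h0 h1
  have e1 := mul_nonneg h0 (sub_nonneg.2 h1)
  have e2 := mul_nonneg h0 e1
  have e3 := mul_nonneg h0 e2
  nlinarith

/-- numbers of the range `Σ S ≤ 0.0107` -/
def P107 : Par := ⟨10700, 666667, 36518, 115324, 89055, 75921, 99276, 234583, 390014⟩

theorem pok107 : POk P107 2.04 0.0373 0.1091 0.0107 1.23346 0.18928 0.036518 14.73
    (22.6276 * 0.0373 * (35 / 48) ^ 2 / 2.04) 0.21998 0.5198 where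
  A0 := by norm_num
  ρ0 := by norm_num
  cN2 := by norm_num
  cN0 := by norm_num
  χ0 := by norm_num
  χs := by norm_num
  ω0 := by norm_num
  ωχ := by norm_num
  Xp := by norm_num [P107]
  K2 := by norm_num [P107, U6]
  nok := ⟨by norm_num [P107, U6], by norm_num [P107, U6], by norm_num [P107, U6],
    by norm_num [P107, U6]⟩
  g10 := by norm_num
  leak := fun n n0 n1 => by
    have h1 := mul_nonneg (sub_nonneg.2 n1) (sq_nonneg (n - 0.07592))
    have h2 := sq_nonneg (n - 0.07592)
    have h3 := mul_nonneg n0 (sub_nonneg.2 n1)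
    nlinarith
  c0 := by norm_num [P107, U6]
  c1 := by norm_num [P107, U6]
  hl := by norm_num [P107, U6]

theorem chd107 : Chd 0.0373 0.21998 0.5198 0.3273 := by
  intro T h0 h1
  have e1 := mul_nonneg h0 (sub_nonneg.2 h1)
  have e2 := mul_nonneg h0 e1
  have e3 := mul_nonneg h0 e2
  nlinarith

end Helper78.MEI
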