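import Pool.Agent.Helper78.MEI.WB18
import Pool.Agent.Helper78.MEI.WB19
import Pool.Agent.Helper78.MEI.Z92
import Pool.Agent.Helper31.SR.PcT
import Pool.Agent.Helper78.R8T.A92T0
import Pool.Agent.Helper78.R8T.A92C0
import Pool.Agent.Helper78.R8T.A92C1
import Pool.Agent.Helper78.R8T.A92C2

/-!
# Project MEI (M2), w-term: the cost on the piece `.00742 ≤ Σ S ≤ .0092`
-/

set_option autoImplicit false

namespace Helper78.MEI.WS92

open Pool.Agent.Helper31.SR.MilH (WS)
open Helper60.R8 (Cor)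
open Helper78.R8T

theorem q0 : tab12G P92 0 (A92T0.As.map altOf) 0 1000000 A92T0.Q = true := by decide +kernel

theorem q1 : tab12G P92 1 (A92C0.As.map altOf) 0 125000 A92C0.Q = true := by decide +kernel

theorem q2 : tab12G P92 1 (A92C1.As.map altOf) 125000 875000 A92C1.Q = true := by decide +kernel

theorem q3 : tab12G P92 1 (A92C2.As.map altOf) 875000 1000000 A92C2.Q = true := by decide +kernel

theorem m1 : zwck Z92.Pl Z92.Dc 0 A92C0.W = true := by decide +kernel

theorem m2 : zwck Z92.Pl Z92.Dc 1 A92C1.W = true := by decide +kernel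

theorem m3 : zwck Z92.Pl Z92.Dc 2 A92C2.W = true := by decide +kernel

/-- **the cost on the piece `.00742 ≤ Σ S ≤ .0092`** -/
theorem ws : WS 0.0368 0.00742 0.0092 0.2048 :=
  ws_threeZ pok92 chd92 (by norm_num) (by norm_num) (by norm_num) (by norm_num) (by norm_num)
    Pool.Agent.Helper31.SR.PcT.rng_g92 (by norm_num) (by norm_num) (by norm_num)
    (by norm_num [P92, U6]) (by norm_num)
    (by norm_num) (by norm_num) A92T0.ok A92C0.ok A92C1.ok A92C2.ok q0 q1 q2 q3 rfl rfl rfl rfl
    (Pl := Z92.Pl) A92T0.w_eq A92C0.w_eq A92C1.w_eq A92C2.w_eq m1 m2 m3 rfl Z92.hf Z92.hT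
    (by norm_num)

end Helper78.MEI.WS92
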