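import Pool.Agent.Helper78.MEI.FaceH
import Pool.Agent.Helper73.MEI.ArCor

/-!
# Project MEI (M2): the face in linear form

`WCost` = interface with the second order term; `face_FV` = the face theorem in the separable form
of helper33 / helper73 (`plane_low`), apex = a point with the value `S (τ 0)`; `face_FV0` = without
apex.
-/

namespace Helper78.MEI

open Set Metric MeasureTheory Helper80.CW Helper82.CW Helper14.CW Helper93.MEI Helper82.M2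
open Helper14.MEI2 Pool.Agent.Helper52.MEI Pool.Agent.Helper73.MEI Helper37.MEI Helper41.MEI
open Helper33.MEI (Wi Dl tx M3)
open Pool.Agent.Helper55.Sx (Sim mm mm_pos mm_cont mt_mm deg1 int_Dl)
open Pool.Agent.Helper55.Mass (LN LN_nonneg vv vv_nonneg vv_le B0 intOn)
open Pool.Agent.Helper55.Apex (nc vt_vv)
open Pool.Agent.Helper55.ApexP (PN alP alP_nonneg alP_zeta alP_meas alP_bound xx_mu alP_int)
open Pool.Agent.Helper55.Fill (xx rr xe wc xe_bal rr_nonneg xx_meas rr_meas xx_nonneg xx_le rr_int)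
open Pool.Agent.Helper31.SR
open Helper75.MEI2 (mu vt)
open scoped RealInnerProductSpace ENNReal

/-- **the cost of the second order term** of a certificate `G` with the mass deficit `D` in the
face of `τ 0`: at most `cst` -/
def WCost (a : Fin 4 → E3) (K : Set E3) (τ : Equiv.Perm (Fin 4)) (A' : ℝ) (G D : ℝ × ℝ → ℝ)
    (cst : ℝ) : Prop :=
  ∃ (ω s : ℝ × ℝ → ℝ) (C2 : ℝ), AEStronglyMeasurable ω (volume.restrict Dl) ∧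
    (∀ t ∈ Dl, |ω t| ≤ C2) ∧ (∀ t ∈ Dl, 0 ≤ s t) ∧
    (∀ p ∈ K, tx (fun i => a (τ i)) p ∈ Dl → Qv a (τ 0) p ≤ s (tx (fun i => a (τ i)) p)) ∧
    (∀ t ∈ Dl, ∀ q ∈ K,
      Yt (fun i => a (τ i)) t q / √(Helper33.MEI.mt t) - ‖a (τ 0) - q‖ ^ 2 ≤ s t →
      G t + (1 - D t) * ‖a (τ 0) - q‖ ^ 2 ≤ Yt (fun i => a (τ i)) t q →
      A' * (G t / √(Helper33.MEI.mt t)) - ω t ≤
        ff A' (Yt (fun i => a (τ i)) t q / √(Helper33.MEI.mt t) - ‖a (τ 0) - q‖ ^ 2)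
          (‖a (τ 0) - q‖ ^ 2)) ∧
    (√2)⁻¹ * ∫ t in Dl, ω t * M3 t ≤ cst

theorem WCost.mono {a : Fin 4 → E3} {K : Set E3} {τ : Equiv.Perm (Fin 4)} {A' : ℝ}
    {G D : ℝ × ℝ → ℝ} {c1 c2 : ℝ} (h : WCost a K τ A' G D c1) (hc : c1 ≤ c2) :
    WCost a K τ A' G D c2 := by
  obtain ⟨ω, s, C2, h1, h2, h3, h4, h5, h6⟩ := h
  exact ⟨ω, s, C2, h1, h2, h3, h4, h5, h6.trans hc⟩

/-- without apex the certificate does not depend on the apex data -/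
theorem GH_zero (A' : ℝ) (N : Fin 3 → Fin 3 → ℝ) (ζ ζp ζ' ζp' : Fin 3 → ℝ)
    (hf κ : Fin 3 → ℝ × ℝ → ℝ) (β ρ E R S : Fin 3 → ℝ) (s0 s0' : ℝ) :
    GH A' N ζ ζp 0 hf κ β ρ E R S s0 = GH A' N ζ' ζp' 0 hf κ β ρ E R S s0' := by
  funext t
  unfold GH Gg
  simp

theorem DH_zero (A' : ℝ) (N : Fin 3 → Fin 3 → ℝ) (ζ ζp ζ' ζp' : Fin 3 → ℝ)
    (hf κ : Fin 3 → ℝ × ℝ → ℝ) (β ρ μ sm : Fin 3 → ℝ) :
    DH A' N ζ ζp 0 hf κ β ρ μ sm = DH A' N ζ' ζp' 0 hf κ β ρ μ sm := by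
  funext t
  unfold DH Dg
  simp

variable {a : Fin 4 → E3} {σ : Measure (E3 × E3)} {K : Set E3} {S : Fin 4 → ℝ}
  {c : Fin 4 → E3} {z : Fin 4 → Fin 4 → E3}

/-- **(FV), with apex** -/
theorem face_FV [IsFiniteMeasure σ]
    (h : CN K σ a c) (v : Viol K a S) (hz : CV a K z)
    (τ : Equiv.Perm (Fin 4)) {A : ℝ} (hA : 7 / 2 ≤ A)
    {l : Fin 3 → Bool → Bool → E3 × E3 → ℝ} (hl : Lok a l)
    {δ dE dm : Fin 3 → ℝ} (hδ : ∀ p, MA σ a l τ p p ≤ δ p) (hdE : ∀ p, 0 ≤ dE p)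
    (hdm : ∀ p, 0 ≤ dm p) (hdd : ∀ p, δ p ^ 2 ≤ dE p * dm p)
    {ρ kp β : Fin 3 → ℝ} (hρ : ∀ p, 0 < ρ p)
    (hMρ : ∀ p k, k ≠ p → MA σ a l τ p k ≤ ρ p)
    {x : E3} (hx : x ∈ K) (hxs : Qv a (τ 0) x = S (τ 0))
    {N : Fin 3 → Fin 3 → ℝ} (hNd : N = NM (fun i => a (τ i)) (fun i j => z (τ i) (τ j)))
    {R : Fin 3 → ℝ} (hRd : R = RM (fun i => a (τ i)) (fun i j => z (τ i) (τ j)))
    {ζ ζp : Fin 3 → ℝ} (hζp : ∀ k, 0 < ζp k) (hζ : ∀ k, ζ k ≤ ζp k)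
    (hb : ∀ k, b3 (fun i => a (τ i)) x k ≤ ζ k + LN N ζ k)
    {lamM : ℝ} (hlM : 0 ≤ lamM)
    {hf : Fin 3 → ℝ × ℝ → ℝ} (hfm : ∀ l, Measurable (hf l)) (hf0 : ∀ l, ∀ t, 0 ≤ hf l t)
    (hfz : ∀ l, ∀ t, (¬ ∀ k, 0 ≤ mu (PN N) (vt t) k) → hf l t = 0)
    (hfx : ∀ t, (∀ k, 0 ≤ mu (PN N) (vt t) k) → ∀ k,
      lamM * alP N ζp t * ζp k + ((hf 0 t + hf 1 t + hf 2 t) - hf k t) ≤ mu (PN N) (vt t) k)
    {κ : Fin 3 → ℝ × ℝ → ℝ} (hκm : ∀ l, Measurable (κ l)) (hκ0 : ∀ l, ∀ t ∈ Sim, 0 ≤ κ l t)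
    {Ck : ℝ} (hκC : ∀ l, ∀ t ∈ Sim, κ l t ≤ Ck)
    (hκr : ∀ t ∈ Sim, ∀ k, (κ 0 t + κ 1 t + κ 2 t) - κ k t ≤ rr N (vv t) k)
    (hkp0 : ∀ p, 0 ≤ kp p) (hkp : ∀ p, kp p ≤ Pool.Agent.Helper55.Mass.Id (κ p))
    (hβ : ∀ p, β p * ρ p = (A / 2 + 1 / 8) * kp p)
    (hkρ : ∀ p, (A / 2 + 1 / 8) * kp p ≤ ρ p)
    (hF0 : ∀ p, 0 < Pool.Agent.Helper55.Mass.Id (hf p))
    (hF : ∀ p, ρ p - (A / 2 + 1 / 8) * kp p ≤
      (A / 2 + 1 / 8) * Pool.Agent.Helper55.Mass.Id (hf p))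
    {r : Fin 3 → ℝ} (hr : ∀ k, Pool.Agent.Helper55.Mass.Id (fun t => rr N (vv t) k) ≤ r k)
    (hr0 : ∀ k, 0 ≤ r k) {prow : ℝ} (hprow : prow < 1)
    (hrow : ∀ k, N k 0 + N k 1 + N k 2 ≤ prow)
    (hrB : ∀ k, B0 * (N k 0 + N k 1 + N k 2) + r k ≤ B0)
    {g U : ℝ} (hg0 : 0 ≤ g)
    (hg : g ≤ (A / 2 + 1 / 8) * (lamM * Pool.Agent.Helper55.Mass.Id (alP N ζp)))
    (hU : ζ 0 * R 0 + ζ 1 * R 1 + ζ 2 * R 2 ≤ U)
    {cst : ℝ}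
    (hW : ∀ lam, 0 ≤ lam → lam ≤ lamM → WCost a K τ (A / 2 + 1 / 8)
      (GH (A / 2 + 1 / 8) N ζ ζp lam hf κ β ρ (fun p => aE σ a l (τ 0) (τ p.succ) - dE p) R
        (fun k => S (τ k.succ)) (S (τ 0)))
      (DH (A / 2 + 1 / 8) N ζ ζp lam hf κ β ρ
        (fun j => 1 / qM (fun i => a (τ i)) (fun i j => z (τ i) (τ j)) j)
        (fun p => am σ a l (τ 0) (τ p.succ) - dm p)) cst) :
    LLs σ a l (τ 0) - (dE 0 + dE 1 + dE 2)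
      + (((A / 2 + 1 / 8) * (B0 * (1 - (N 0 0 + N 0 1 + N 0 2)) - r 0 + (kp 1 + kp 2))
            - (ρ 1 + ρ 2)) * R 0
        + ((A / 2 + 1 / 8) * (B0 * (1 - (N 1 0 + N 1 1 + N 1 2)) - r 1 + (kp 0 + kp 2))
            - (ρ 0 + ρ 2)) * R 1
        + ((A / 2 + 1 / 8) * (B0 * (1 - (N 2 0 + N 2 1 + N 2 2)) - r 2 + (kp 0 + kp 1))
            - (ρ 0 + ρ 1)) * R 2)
      - (A / 2 + 1 / 8) * ((r 0 - (kp 1 + kp 2)) * S (τ 1) + (r 1 - (kp 0 + kp 2)) * S (τ 2)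
        + (r 2 - (kp 0 + kp 1)) * S (τ 3))
      + g * (S (τ 0) - U) - cst ≤ Wi a (τ 0) K σ A := by
  have h' := h.perm τ
  have v' := viol_perm v τ
  have hz' := hz.perm τ
  have hA' : 0 < A / 2 + 1 / 8 := by linarith
  have hN : ∀ k m, 0 ≤ N k m := fun k m => by
    rw [hNd]
    exact NM_nonneg h' v' hz' k m
  have hd : ∀ k, N k k = 0 := fun k => by
    rw [hNd]
    exact NM_diag k
  have hcol : ∀ m, nc N m ≤ 9 / 10 := fun m => by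
    rw [hNd]
    exact nc_le h' v' hz' m
  have hR0 : ∀ j, 0 ≤ R j := fun j => by
    rw [hRd]
    exact RM_nonneg h' v' hz' j
  have hc : (9 / 10 : ℝ) < 1 := by norm_num
  obtain ⟨H, hH⟩ := exists_plane hN hc hcol R
  have hI0 : 0 ≤ Pool.Agent.Helper55.Mass.Id (alP N ζp) := by
    unfold Pool.Agent.Helper55.Mass.Id
    refine mul_nonneg (by positivity) (setIntegral_nonneg
      Pool.Agent.Helper55.Sx.Sim_meas fun t _ => ?_)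
    exact div_nonneg (alP_nonneg hζp t) (by positivity)
  obtain ⟨lam, hl0, hl1, hlg⟩ : ∃ lam, 0 ≤ lam ∧ lam ≤ lamM ∧
      (A / 2 + 1 / 8) * (lam * Pool.Agent.Helper55.Mass.Id (alP N ζp)) = g := by
    rcases eq_or_lt_of_le hI0 with e | hpos
    · refine ⟨0, le_rfl, hlM, ?_⟩
      rw [← e, mul_zero, mul_zero] at hg
      rw [zero_mul, mul_zero]
      exact le_antisymm hg0 hg
    · have hAI := mul_pos hA' hpos
      refine ⟨g / ((A / 2 + 1 / 8) * Pool.Agent.Helper55.Mass.Id (alP N ζp)),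
        div_nonneg hg0 hAI.le, ?_, ?_⟩
      · rw [div_le_iff₀ hAI]
        linarith
      · rw [show (A / 2 + 1 / 8) * (g / ((A / 2 + 1 / 8) *
            Pool.Agent.Helper55.Mass.Id (alP N ζp)) * Pool.Agent.Helper55.Mass.Id (alP N ζp)) =
          g / ((A / 2 + 1 / 8) * Pool.Agent.Helper55.Mass.Id (alP N ζp)) *
            ((A / 2 + 1 / 8) * Pool.Agent.Helper55.Mass.Id (alP N ζp)) by ring,
          div_mul_cancel₀ _ hAI.ne']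
  obtain ⟨ω, s, C2, w1, w2, w3, w4, w5, w6⟩ := hW lam hl0 hl1
  have key := face_instH h v hz τ hA hl hδ hdE hdm hdd hρ hMρ hx hNd hRd hζp hζ hb (lam := lam)
    hl0 hfm hf0 hfz (fun t ht k => by
      have h1 := hfx t ht k
      have h2 := mul_le_mul_of_nonneg_right
        (mul_le_mul_of_nonneg_right hl1 (alP_nonneg (N := N) hζp t)) (hζp k).le
      linarith) hκm hκ0 hκC hκr hkp0 hkp hβ hkρ hF0 hF hH hr w1 w2 w3 w4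
    (by rw [hxs]; exact w5)
  have hp := Pool.Agent.Helper73.MEI.ArCor.plane_low hN hd hc hcol (B := B0) hprow hH hR0 hr0
    (S := fun k => S (τ k.succ)) (fun k => v.nn _) hrow hrB
  have e1 : τ (Fin.succ 0) = τ 1 := rfl
  have e2 : τ (Fin.succ 1) = τ 2 := rfl
  have e3 : τ (Fin.succ 2) = τ 3 := rfl
  beta_reduce at hp
  rw [e1, e2, e3] at hp
  have hp' := mul_le_mul_of_nonneg_left hp hA'.le
  have hU' := mul_le_mul_of_nonneg_left hU hg0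
  rw [hxs] at key
  have hk : (A / 2 + 1 / 8) * (lam * Pool.Agent.Helper55.Mass.Id (alP N ζp) *
      (S (τ 0) - (ζ 0 * R 0 + ζ 1 * R 1 + ζ 2 * R 2))) =
      g * (S (τ 0) - (ζ 0 * R 0 + ζ 1 * R 1 + ζ 2 * R 2)) := by
    rw [← hlg]
    ring
  linarith only [key, hp', hU', hk, w6]

/-- **(FV), without apex** -/
theorem face_FV0 [IsFiniteMeasure σ]
    (h : CN K σ a c) (v : Viol K a S) (hz : CV a K z)
    (τ : Equiv.Perm (Fin 4)) {A : ℝ} (hA : 7 / 2 ≤ A)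
    {l : Fin 3 → Bool → Bool → E3 × E3 → ℝ} (hl : Lok a l)
    {δ dE dm : Fin 3 → ℝ} (hδ : ∀ p, MA σ a l τ p p ≤ δ p) (hdE : ∀ p, 0 ≤ dE p)
    (hdm : ∀ p, 0 ≤ dm p) (hdd : ∀ p, δ p ^ 2 ≤ dE p * dm p)
    {ρ kp β : Fin 3 → ℝ} (hρ : ∀ p, 0 < ρ p)
    (hMρ : ∀ p k, k ≠ p → MA σ a l τ p k ≤ ρ p)
    {N : Fin 3 → Fin 3 → ℝ} (hNd : N = NM (fun i => a (τ i)) (fun i j => z (τ i) (τ j)))
    {R : Fin 3 → ℝ} (hRd : R = RM (fun i => a (τ i)) (fun i j => z (τ i) (τ j)))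
    {hf : Fin 3 → ℝ × ℝ → ℝ} (hfm : ∀ l, Measurable (hf l)) (hf0 : ∀ l, ∀ t, 0 ≤ hf l t)
    (hfz : ∀ l, ∀ t, (¬ ∀ k, 0 ≤ mu (PN N) (vt t) k) → hf l t = 0)
    (hfx : ∀ t, (∀ k, 0 ≤ mu (PN N) (vt t) k) → ∀ k,
      (hf 0 t + hf 1 t + hf 2 t) - hf k t ≤ mu (PN N) (vt t) k)
    {κ : Fin 3 → ℝ × ℝ → ℝ} (hκm : ∀ l, Measurable (κ l)) (hκ0 : ∀ l, ∀ t ∈ Sim, 0 ≤ κ l t)
    {Ck : ℝ} (hκC : ∀ l, ∀ t ∈ Sim, κ l t ≤ Ck)
    (hκr : ∀ t ∈ Sim, ∀ k, (κ 0 t + κ 1 t + κ 2 t) - κ k t ≤ rr N (vv t) k)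
    (hkp0 : ∀ p, 0 ≤ kp p) (hkp : ∀ p, kp p ≤ Pool.Agent.Helper55.Mass.Id (κ p))
    (hβ : ∀ p, β p * ρ p = (A / 2 + 1 / 8) * kp p)
    (hkρ : ∀ p, (A / 2 + 1 / 8) * kp p ≤ ρ p)
    (hF0 : ∀ p, 0 < Pool.Agent.Helper55.Mass.Id (hf p))
    (hF : ∀ p, ρ p - (A / 2 + 1 / 8) * kp p ≤
      (A / 2 + 1 / 8) * Pool.Agent.Helper55.Mass.Id (hf p))
    {r : Fin 3 → ℝ} (hr : ∀ k, Pool.Agent.Helper55.Mass.Id (fun t => rr N (vv t) k) ≤ r k)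
    (hr0 : ∀ k, 0 ≤ r k) {prow : ℝ} (hprow : prow < 1)
    (hrow : ∀ k, N k 0 + N k 1 + N k 2 ≤ prow)
    (hrB : ∀ k, B0 * (N k 0 + N k 1 + N k 2) + r k ≤ B0)
    {ζ' ζp' : Fin 3 → ℝ} {s0 cst : ℝ}
    (hW : WCost a K τ (A / 2 + 1 / 8)
      (GH (A / 2 + 1 / 8) N ζ' ζp' 0 hf κ β ρ (fun p => aE σ a l (τ 0) (τ p.succ) - dE p) R
        (fun k => S (τ k.succ)) s0)
      (DH (A / 2 + 1 / 8) N ζ' ζp' 0 hf κ β ρ
        (fun j => 1 / qM (fun i => a (τ i)) (fun i j => z (τ i) (τ j)) j)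
        (fun p => am σ a l (τ 0) (τ p.succ) - dm p)) cst) :
    LLs σ a l (τ 0) - (dE 0 + dE 1 + dE 2)
      + (((A / 2 + 1 / 8) * (B0 * (1 - (N 0 0 + N 0 1 + N 0 2)) - r 0 + (kp 1 + kp 2))
            - (ρ 1 + ρ 2)) * R 0
        + ((A / 2 + 1 / 8) * (B0 * (1 - (N 1 0 + N 1 1 + N 1 2)) - r 1 + (kp 0 + kp 2))
            - (ρ 0 + ρ 2)) * R 1
        + ((A / 2 + 1 / 8) * (B0 * (1 - (N 2 0 + N 2 1 + N 2 2)) - r 2 + (kp 0 + kp 1))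
            - (ρ 0 + ρ 1)) * R 2)
      - (A / 2 + 1 / 8) * ((r 0 - (kp 1 + kp 2)) * S (τ 1) + (r 1 - (kp 0 + kp 2)) * S (τ 2)
        + (r 2 - (kp 0 + kp 1)) * S (τ 3))
      - cst ≤ Wi a (τ 0) K σ A := by
  have h' := h.perm τ
  have v' := viol_perm v τ
  have hz' := hz.perm τ
  have hA' : 0 < A / 2 + 1 / 8 := by linarith
  have hN : ∀ k m, 0 ≤ N k m := fun k m => by
    rw [hNd]
    exact NM_nonneg h' v' hz' k m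
  have hd : ∀ k, N k k = 0 := fun k => by
    rw [hNd]
    exact NM_diag k
  have hcol : ∀ m, nc N m ≤ 9 / 10 := fun m => by
    rw [hNd]
    exact nc_le h' v' hz' m
  have hR0 : ∀ j, 0 ≤ R j := fun j => by
    rw [hRd]
    exact RM_nonneg h' v' hz' j
  have hc : (9 / 10 : ℝ) < 1 := by norm_num
  obtain ⟨H, hH⟩ := exists_plane hN hc hcol R
  obtain ⟨x, hx⟩ := h.ne
  set ζ : Fin 3 → ℝ := fun k => |b3 (fun i => a (τ i)) x k| + 1 with hζd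
  have hζp : ∀ k, 0 < ζ k := fun k => by
    have := abs_nonneg (b3 (fun i => a (τ i)) x k)
    show 0 < |b3 (fun i => a (τ i)) x k| + 1
    linarith
  have hb : ∀ k, b3 (fun i => a (τ i)) x k ≤ ζ k + LN N ζ k := fun k => by
    have h1 := le_abs_self (b3 (fun i => a (τ i)) x k)
    have h2 := LN_nonneg hN (fun k => (hζp k).le) k
    have h3 : ζ k = |b3 (fun i => a (τ i)) x k| + 1 := rfl
    linarith
  rw [GH_zero _ N ζ' ζp' ζ ζ _ _ _ _ _ _ _ s0 (Qv a (τ 0) x),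
    DH_zero _ N ζ' ζp' ζ ζ] at hW
  obtain ⟨ω, s, C2, w1, w2, w3, w4, w5, w6⟩ := hW
  have key := face_instH h v hz τ hA hl hδ hdE hdm hdd hρ hMρ hx hNd hRd hζp
    (fun k => le_rfl) hb (lam := 0) le_rfl hfm hf0 hfz (fun t ht k => by
      have h1 := hfx t ht k
      rw [zero_mul, zero_mul, zero_add]
      exact h1) hκm hκ0 hκC hκr hkp0 hkp hβ hkρ hF0 hF hH hr w1 w2 w3 w4 w5
  have hp := Pool.Agent.Helper73.MEI.ArCor.plane_low hN hd hc hcol (B := B0) hprow hH hR0 hr0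
    (S := fun k => S (τ k.succ)) (fun k => v.nn _) hrow hrB
  have e1 : τ (Fin.succ 0) = τ 1 := rfl
  have e2 : τ (Fin.succ 1) = τ 2 := rfl
  have e3 : τ (Fin.succ 2) = τ 3 := rfl
  beta_reduce at hp
  rw [e1, e2, e3] at hp
  have hp' := mul_le_mul_of_nonneg_left hp hA'.le
  rw [zero_mul, zero_mul] at key
  linarith only [key, hp', w6]

end Helper78.MEI
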