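import Pool.Agent.Helper78.MEI.FaceX
import Pool.Agent.Helper78.MEI.FV

/-!
# Project MEI (M2): the face theorem of a placed body, general families

Points `x m` of the body inside (weights `ap m`, signed contact coordinates `ζ m`), points `y n` of
the body on the residual (weights `gr n`, columns `Y n ≥ b3 (y n)`), arcs with true moments, weights
`α l` inside and `g l` on the residual, bounds `ρ l k` of the moments for every end.
-/

namespace Helper78.MEI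

open Set Metric MeasureTheory Helper80.CW Helper82.CW Helper14.CW Helper93.MEI Helper82.M2
open Helper14.MEI2 Pool.Agent.Helper52.MEI Pool.Agent.Helper73.MEI Helper37.MEI Helper41.MEI
open Helper33.MEI (Wi Dl tx M3)
open Pool.Agent.Helper55.Sx (Sim mm mm_pos mm_cont mt_mm deg1 int_Dl)
open Pool.Agent.Helper55.Mass (LN LN_nonneg vv vv_nonneg vv_le B0 intOn)
open Pool.Agent.Helper55.Apex (nc vt_vv)
open Pool.Agent.Helper55.Fill (xx rr xe wc xe_bal rr_nonneg xx_meas rr_meas xx_nonneg xx_le rr_int)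
open Pool.Agent.Helper31.SR
open scoped RealInnerProductSpace ENNReal

variable {a : Fin 4 → E3} {σ : Measure (E3 × E3)} {K : Set E3} {S : Fin 4 → ℝ}
  {c : Fin 4 → E3} {z : Fin 4 → Fin 4 → E3}

/-- symmetric shares: the arcs use at most the two functions of the other ends -/
theorem ash_sum_le {hf : Fin 3 → ℝ × ℝ → ℝ} {F β ρ : Fin 3 → ℝ} {A' : ℝ} {M : Fin 3 → Fin 3 → ℝ}
    {t : ℝ × ℝ} (hf0 : ∀ l, 0 ≤ hf l t) (hA' : 0 < A') (hF0 : ∀ l, 0 < F l)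
    (hβ1 : ∀ l, β l ≤ 1) (hF : ∀ l, (1 - β l) * ρ l ≤ A' * F l) (hMl : ∀ l, M l l = 0)
    (hMρ : ∀ l k, M l k ≤ ρ l) (k : Fin 3) :
    ∑ l, ash hf F β A' l t * M l k ≤ (hf 0 t + hf 1 t + hf 2 t) - hf k t := by
  rw [Fin.sum_univ_three]
  have arc : ∀ l, ash hf F β A' l t * M l k ≤ (if l = k then 0 else hf l t) := by
    intro l
    by_cases hlk : l = k
    · rw [hlk, hMl, if_pos rfl]
      simp
    · rw [if_neg hlk]
      have hAF : 0 < A' * F l := mul_pos hA' (hF0 l)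
      have hb : 0 ≤ 1 - β l := by have := hβ1 l; linarith
      have g0 : 0 ≤ hf l t / (A' * F l) := div_nonneg (hf0 l) hAF.le
      have g1 := mul_le_mul_of_nonneg_left (hMρ l k) (mul_nonneg hb g0)
      have g3 := mul_le_mul_of_nonneg_left (hF l) g0
      have g2 : hf l t / (A' * F l) * (A' * F l) = hf l t := div_mul_cancel₀ _ hAF.ne'
      unfold ash
      linarith
  have a0 := arc 0
  have a1 := arc 1
  have a2 := arc 2
  have hsum : (if (0 : Fin 3) = k then 0 else hf 0 t) + (if (1 : Fin 3) = k then 0 else hf 1 t)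
      + (if (2 : Fin 3) = k then 0 else hf 2 t) = (hf 0 t + hf 1 t + hf 2 t) - hf k t := by
    fin_cases k <;> simp <;> ring
  linarith

/-- symmetric strips -/
theorem ast_sum_le {κ : Fin 3 → ℝ × ℝ → ℝ} {Kp β ρ : Fin 3 → ℝ} {A' : ℝ}
    {M : Fin 3 → Fin 3 → ℝ} {t : ℝ × ℝ} (hκ0 : ∀ l, 0 ≤ κ l t)
    (hA' : 0 < A') (hβ0 : ∀ l, 0 ≤ β l) (hKp : ∀ l, 0 ≤ Kp l)
    (hK : ∀ l, β l * ρ l ≤ A' * Kp l) (hMl : ∀ l, M l l = 0) (hMρ : ∀ l k, M l k ≤ ρ l)
    (k : Fin 3) :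
    ∑ l, ast κ Kp β A' l t * M l k ≤ (κ 0 t + κ 1 t + κ 2 t) - κ k t := by
  have arc : ∀ l, ast κ Kp β A' l t * M l k ≤ (if l = k then 0 else κ l t) := by
    intro l
    by_cases hlk : l = k
    · rw [hlk, hMl, if_pos rfl]
      simp
    · rw [if_neg hlk]
      have hk0 := hκ0 l
      rcases eq_or_lt_of_le (mul_nonneg hA'.le (hKp l)) with e | hpos
      · unfold ast
        rw [← e]
        simpa using hk0
      · have g0 : 0 ≤ κ l t / (A' * Kp l) := div_nonneg hk0 hpos.le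
        have g1 := mul_le_mul_of_nonneg_left (hMρ l k) (mul_nonneg (hβ0 l) g0)
        have g3 := mul_le_mul_of_nonneg_left (hK l) g0
        have g2 : κ l t / (A' * Kp l) * (A' * Kp l) = κ l t := div_mul_cancel₀ _ hpos.ne'
        unfold ast
        linarith
  rw [Fin.sum_univ_three]
  have a0 := arc 0
  have a1 := arc 1
  have a2 := arc 2
  have hsum : (if (0 : Fin 3) = k then 0 else κ 0 t) + (if (1 : Fin 3) = k then 0 else κ 1 t)
      + (if (2 : Fin 3) = k then 0 else κ 2 t) = (κ 0 t + κ 1 t + κ 2 t) - κ k t := by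
    fin_cases k <;> simp <;> ring
  linarith

/-- **THE FACE OF THE VERTEX `τ 0`, GENERAL FAMILIES** -/
theorem face_instX [IsFiniteMeasure σ] (h : CN K σ a c) (v : Viol K a S) (hz : CV a K z)
    (τ : Equiv.Perm (Fin 4)) {A : ℝ} (hA : 7 / 2 ≤ A)
    {l : Fin 3 → Bool → Bool → E3 × E3 → ℝ} (hl : Lok a l)
    {δ dE dm : Fin 3 → ℝ} (hδ : ∀ p, MA σ a l τ p p ≤ δ p) (hdE : ∀ p, 0 ≤ dE p)
    (hdm : ∀ p, 0 ≤ dm p) (hdd : ∀ p, δ p ^ 2 ≤ dE p * dm p)
    {β : Fin 3 → ℝ} {ρ : Fin 3 → Fin 3 → ℝ}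
    (hMρ : ∀ p k, k ≠ p → MA σ a l τ p k ≤ ρ p k)
    {ι ν : Type*} [Fintype ι] [Fintype ν] {x : ι → E3} (hx : ∀ m, x m ∈ K)
    {y : ν → E3} (hy : ∀ n, y n ∈ K)
    {N : Fin 3 → Fin 3 → ℝ} (hNd : N = NM (fun i => a (τ i)) (fun i j => z (τ i) (τ j)))
    {R : Fin 3 → ℝ} (hRd : R = RM (fun i => a (τ i)) (fun i j => z (τ i) (τ j)))
    {ζ : ι → Fin 3 → ℝ} (hb : ∀ m k, b3 (fun i => a (τ i)) (x m) k ≤ ζ m k + LN N (ζ m) k)
    {Y : ν → Fin 3 → ℝ} (hY : ∀ n k, b3 (fun i => a (τ i)) (y n) k ≤ Y n k)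
    {ap : ι → ℝ × ℝ → ℝ} (hapm : ∀ m, Measurable (ap m)) (hap0 : ∀ m, ∀ t ∈ Sim, 0 ≤ ap m t)
    {gr : ν → ℝ × ℝ → ℝ} (hrm : ∀ n, Measurable (gr n)) (hr0 : ∀ n, ∀ t ∈ Sim, 0 ≤ gr n t)
    {α g : Fin 3 → ℝ × ℝ → ℝ} (hαm : ∀ l, Measurable (α l)) (hα0 : ∀ l, ∀ t ∈ Sim, 0 ≤ α l t)
    (hgm : ∀ l, Measurable (g l)) (hg0 : ∀ l, ∀ t ∈ Sim, 0 ≤ g l t)
    {Ca : ℝ} (hapC : ∀ m, ∀ t ∈ Sim, ap m t ≤ Ca) (hαC : ∀ l, ∀ t ∈ Sim, α l t ≤ Ca)
    (hrC : ∀ n, ∀ t ∈ Sim, gr n t ≤ Ca) (hgC : ∀ l, ∀ t ∈ Sim, g l t ≤ Ca)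
    (hxx : ∀ t ∈ Sim, ∀ k, ∑ m, ap m t * ζ m k +
      ∑ l', α l' t * (if k = l' then 0 else ρ l' k) ≤ xx N (vv t) k)
    (hrr : ∀ t ∈ Sim, ∀ k, ∑ l', g l' t * (if k = l' then 0 else ρ l' k) +
      ∑ n, gr n t * Y n k ≤ rr N (vv t) k)
    (hαI : ∀ l, (A / 2 + 1 / 8) * Pool.Agent.Helper55.Mass.Id (α l) = 1 - β l)
    (hgI : ∀ l, (A / 2 + 1 / 8) * Pool.Agent.Helper55.Mass.Id (g l) = β l)
    {H r : Fin 3 → ℝ}
    (hH : ∀ j, H j + (N 0 j * H 0 + N 1 j * H 1 + N 2 j * H 2) = R j)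
    (hr : ∀ k, Pool.Agent.Helper55.Mass.Id (fun t => rr N (vv t) k) ≤ r k)
    {cst : ℝ}
    (hW : WCost a K τ (A / 2 + 1 / 8)
      (GX N ap ζ (fun m => Qv a (τ 0) (x m)) α g (MB σ a l τ)
        (fun p => aE σ a l (τ 0) (τ p.succ) - dE p) R (fun k => S (τ k.succ)) gr Y
        (fun n => Qv a (τ 0) (y n)))
      (DX N ap ζ (fun j => 1 / qM (fun i => a (τ i)) (fun i j => z (τ i) (τ j)) j)
        (fun _ => 1) α g (MB σ a l τ) (fun p => am σ a l (τ 0) (τ p.succ) - dm p) gr Y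
        (fun _ => 1)) cst) :
    LLs σ a l (τ 0) - (dE 0 + dE 1 + dE 2)
      + (A / 2 + 1 / 8) * (B0 * (H 0 + H 1 + H 2)
        - (r 0 * max (S (τ 1) + H 0) 0 + r 1 * max (S (τ 2) + H 1) 0
          + r 2 * max (S (τ 3) + H 2) 0)
        + ∑ m, (Qv a (τ 0) (x m) - (ζ m 0 * R 0 + ζ m 1 * R 1 + ζ m 2 * R 2)) *
          Pool.Agent.Helper55.Mass.Id (ap m)
        + ∑ n, (Qv a (τ 0) (y n) + (Y n 0 * S (τ 1) + Y n 1 * S (τ 2) + Y n 2 * S (τ 3))) *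
          Pool.Agent.Helper55.Mass.Id (gr n))
      - (ρ 0 1 * pp ((1 - β 0) * R 1 - β 0 * S (τ 2)) + ρ 0 2 * pp ((1 - β 0) * R 2 - β 0 * S (τ 3))
        + (ρ 1 0 * pp ((1 - β 1) * R 0 - β 1 * S (τ 1))
          + ρ 1 2 * pp ((1 - β 1) * R 2 - β 1 * S (τ 3)))
        + (ρ 2 0 * pp ((1 - β 2) * R 0 - β 2 * S (τ 1))
          + ρ 2 1 * pp ((1 - β 2) * R 1 - β 2 * S (τ 2))))
      - cst ≤ Wi a (τ 0) K σ A := by
  have h' := h.perm τ
  have v' := viol_perm v τ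
  have hz' := hz.perm τ
  have hA' : 0 < A / 2 + 1 / 8 := by linarith
  have hN : ∀ k m, 0 ≤ N k m := fun k m => by
    rw [hNd]
    exact NM_nonneg h' v' hz' k m
  have hcol : ∀ m, nc N m ≤ 9 / 10 := fun m => by
    rw [hNd]
    exact nc_le h' v' hz' m
  have hc : (9 / 10 : ℝ) < 1 := by norm_num
  have hgr := gram_of_dist h'.ha
  have hM0 : ∀ l' k, 0 ≤ MB σ a l τ l' k := fun l' k => MB_nonneg τ l' k
  have hMl : ∀ p, MB σ a l τ p p = 0 := fun p => MB_diag τ p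
  have hMB : ∀ p k, MB σ a l τ p k ≤ (if k = p then 0 else ρ p k) := fun p k => by
    unfold MB
    split_ifs with e
    · exact le_rfl
    · exact hMρ p k e
  obtain ⟨ω, s, C2, w1, w2, w3, w4, w5, w6⟩ := hW
  have key := face_genX (ι := ι) (ν := ν) h.pm h.ha h.hp h.hull (fun i q hq => h.ap hq i) τ hA hN
    hc hcol (al := ap) (ζ := ζ) (L := fun m => Qv a (τ 0) (x m))
    (μx := fun _ => 1) (R := R) (S := fun k => S (τ k.succ))
    (μ := fun j => 1 / qM (fun i => a (τ i)) (fun i j => z (τ i) (τ j)) j) (H := H) (r := r)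
    (α := α) (g := g) (Ca := Ca) (Cg := Ca) (gr := gr) (Y := Y)
    (Er := fun n => Qv a (τ 0) (y n)) (sr := fun _ => 1)
    (M := MB σ a l τ) (E := fun p => aE σ a l (τ 0) (τ p.succ) - dE p)
    (sm := fun p => am σ a l (τ 0) (τ p.succ) - dm p) (β := β) (ω := ω) (s := s)
    hapm hap0 hapC hαm hα0 hαC hgm hg0 hgC hrm hr0 hrC hM0
    (fun t ht k => by
      refine le_trans ?_ (hxx t ht k)
      have : ∑ l', α l' t * MB σ a l τ l' k ≤
          ∑ l', α l' t * (if k = l' then 0 else ρ l' k) :=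
        Finset.sum_le_sum fun l' _ => mul_le_mul_of_nonneg_left (hMB l' k) (hα0 l' t ht)
      linarith)
    (fun t ht k => by
      refine le_trans ?_ (hrr t ht k)
      have : ∑ l', g l' t * MB σ a l τ l' k ≤
          ∑ l', g l' t * (if k = l' then 0 else ρ l' k) :=
        Finset.sum_le_sum fun l' _ => mul_le_mul_of_nonneg_left (hMB l' k) (hg0 l' t ht)
      linarith)
    hαI hgI hH hr
    (fun q hq j => by
      rw [hRd, hNd]
      exact Pt_load hz' h' v' hq j)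
    (fun q hq m => apex_load hgr (h.hd _ (hx m) q hq) (h'.hp q hq) (hb m))
    (fun q hq p => by
      have h0 := arc_load h.ha hl h.cpt h.pm.mem h.hp h.hd τ hq p
      exact load_drop2 h'.ha (h'.hp q hq) h0 (hδ p) ((MA_nonneg τ p p).trans (hδ p))
        (hdE p) (hdm p) (hdd p))
    (fun q hq n => Load.pt hgr (h.hd _ (hy n) q hq) (h'.hp q hq) (hY n))
    (fun q hq => ⟨v.le _ q hq, v.le _ q hq, v.le _ q hq⟩)
    w1 w2 w3 w4 w5
  have hL := LLs_perm (σ := σ) (a := a) (l := l) τ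
  have e1 : τ (Fin.succ 0) = τ 1 := rfl
  have e2 : τ (Fin.succ 1) = τ 2 := rfl
  have e3 : τ (Fin.succ 2) = τ 3 := rfl
  rw [e1, e2, e3] at key
  have tr : ∀ p k, k ≠ p → -(ρ p k * pp ((1 - β p) * R k - β p * S (τ k.succ))) ≤
      β p * (MB σ a l τ p k * S (τ k.succ)) - (1 - β p) * (MB σ a l τ p k * R k) := by
    intro p k hkp
    have h0 := hMB p k
    rw [if_neg hkp] at h0
    have h1 := mul_le_mul_of_nonneg_left (le_pp ((1 - β p) * R k - β p * S (τ k.succ)))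
      (hM0 p k)
    have h2 := mul_le_mul_of_nonneg_right h0
      (pp_nonneg ((1 - β p) * R k - β p * S (τ k.succ)))
    linarith
  have d0 := hMl 0
  have d1 := hMl 1
  have d2 := hMl 2
  rw [d0, d1, d2] at key
  have t01 := tr 0 1 (by decide)
  have t02 := tr 0 2 (by decide)
  have t10 := tr 1 0 (by decide)
  have t12 := tr 1 2 (by decide)
  have t20 := tr 2 0 (by decide)
  have t21 := tr 2 1 (by decide)
  rw [e1] at t10 t20
  rw [e2] at t01 t21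
  rw [e3] at t02 t12
  rw [hL]
  linarith only [key, t01, t02, t10, t12, t20, t21, w6]

end Helper78.MEI
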