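import Pool.Agent.Helper78.MEI.FaceH

/-!
# Project MEI (M2): the face theorem of a placed body, arcs with their true moments

As `face_instH`, but the columns of the arcs are the true moments `M p k ≤ ρ p` (not raised):
`(1 - β p) ρ p ≤ A' Id (hf p)`, `β p ρ p ≤ A' Id (κ p)`.
-/

namespace Helper78.MEI

open Set Metric MeasureTheory Helper80.CW Helper82.CW Helper14.CW Helper93.MEI Helper82.M2
open Helper14.MEI2 Pool.Agent.Helper52.MEI Pool.Agent.Helper73.MEI Helper37.MEI Helper41.MEI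
open Helper33.MEI (Wi Dl tx M3)
open Pool.Agent.Helper55.Sx (Sim mm mm_pos mm_cont mt_mm deg1 int_Dl)
open Pool.Agent.Helper55.Mass (LN LN_nonneg vv vv_nonneg vv_le B0 intOn)
open Pool.Agent.Helper55.Apex (nc vt_vv)
open Pool.Agent.Helper55.ApexP (PN alP alP_nonneg alP_zeta alP_meas alP_bound xx_mu alP_int)
open Pool.Agent.Helper55.Fill (xx rr xe wc xe_bal rr_nonneg xx_meas rr_meas xx_nonneg xx_le rr_int)
open Pool.Agent.Helper31.SR
open Helper75.MEI2 (mu vt)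
open scoped RealInnerProductSpace ENNReal

variable {a : Fin 4 → E3} {σ : Measure (E3 × E3)} {K : Set E3} {S : Fin 4 → ℝ}
  {c : Fin 4 → E3} {z : Fin 4 → Fin 4 → E3}

section inside
variable {N : Fin 3 → Fin 3 → ℝ} {ζ ζp : Fin 3 → ℝ} {hf κ : Fin 3 → ℝ × ℝ → ℝ}
  {F Kp β ρ : Fin 3 → ℝ} {A' lam : ℝ} {M : Fin 3 → Fin 3 → ℝ}

/-- feasibility in the cone -/
theorem ash_feas4 (hN : ∀ k m, 0 ≤ N k m) (hd : ∀ k, N k k = 0) {c : ℝ} (hc : c < 1)
    (hcol : ∀ m, nc N m ≤ c) (hζp : ∀ k, 0 < ζp k) (hζ : ∀ k, ζ k ≤ ζp k)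
    (hf0 : ∀ l, ∀ t, 0 ≤ hf l t)
    (hfz : ∀ l, ∀ t, (¬ ∀ k, 0 ≤ mu (PN N) (vt t) k) → hf l t = 0)
    (hfx : ∀ t, (∀ k, 0 ≤ mu (PN N) (vt t) k) → ∀ k,
      lam * alP N ζp t * ζp k + ((hf 0 t + hf 1 t + hf 2 t) - hf k t) ≤ mu (PN N) (vt t) k)
    (hl0 : 0 ≤ lam) (hA' : 0 < A') (hF0 : ∀ l, 0 < F l) (hβ1 : ∀ l, β l ≤ 1)
    (hF : ∀ l, (1 - β l) * ρ l ≤ A' * F l) (hMl : ∀ l, M l l = 0) (hMρ : ∀ l k, M l k ≤ ρ l)
    {t : ℝ × ℝ} (ht : t ∈ Sim) (k : Fin 3) :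
    lam * alP N ζp t * ζ k + ∑ l, ash hf F β A' l t * M l k ≤ xx N (vv t) k := by
  rw [Fin.sum_univ_three]
  have hx0 := xx_nonneg hN hc hcol (fun k => vv_nonneg ht k) k
  by_cases h : ∀ k, 0 ≤ mu (PN N) (vt t) k
  · have h2 : xx N (vv t) k = mu (PN N) (vt t) k := by
      rw [← vt_vv, xx_mu hN hd hc hcol h]
    have ha0 := alP_nonneg (N := N) hζp t
    have hz := mul_le_mul_of_nonneg_left (hζ k) (mul_nonneg hl0 ha0)
    have arc : ∀ l, ash hf F β A' l t * M l k ≤ (if l = k then 0 else hf l t) := by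
      intro l
      by_cases hlk : l = k
      · rw [hlk, hMl, if_pos rfl]
        simp
      · rw [if_neg hlk]
        have hAF : 0 < A' * F l := mul_pos hA' (hF0 l)
        have hb : 0 ≤ 1 - β l := by have := hβ1 l; linarith
        have g0 : 0 ≤ hf l t / (A' * F l) := div_nonneg (hf0 l t) hAF.le
        have g1 := mul_le_mul_of_nonneg_left (hMρ l k) (mul_nonneg hb g0)
        have g3 := mul_le_mul_of_nonneg_left (hF l) g0
        have g2 : hf l t / (A' * F l) * (A' * F l) = hf l t := div_mul_cancel₀ _ hAF.ne'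
        unfold ash
        linarith
    have a0 := arc 0
    have a1 := arc 1
    have a2 := arc 2
    have hsum : (if (0 : Fin 3) = k then 0 else hf 0 t) + (if (1 : Fin 3) = k then 0 else hf 1 t)
        + (if (2 : Fin 3) = k then 0 else hf 2 t) = (hf 0 t + hf 1 t + hf 2 t) - hf k t := by
      fin_cases k <;> simp <;> ring
    have hfk := hfx t h k
    rw [← hsum] at hfk
    rw [h2]
    linarith
  · have h1 : alP N ζp t = 0 := by
      unfold alP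
      rw [if_neg h]
    unfold ash
    rw [h1, hfz 0 t h, hfz 1 t h, hfz 2 t h]
    simpa using hx0

/-- feasibility in the strips -/
theorem ast_feas4 (hκ0 : ∀ l, ∀ t ∈ Sim, 0 ≤ κ l t)
    (hκr : ∀ t ∈ Sim, ∀ k, (κ 0 t + κ 1 t + κ 2 t) - κ k t ≤ rr N (vv t) k)
    (hA' : 0 < A') (hβ0 : ∀ l, 0 ≤ β l) (hKp : ∀ l, 0 ≤ Kp l)
    (hK : ∀ l, β l * ρ l ≤ A' * Kp l) (hMl : ∀ l, M l l = 0) (hMρ : ∀ l k, M l k ≤ ρ l)
    {t : ℝ × ℝ} (ht : t ∈ Sim) (k : Fin 3) :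
    ∑ l, ast κ Kp β A' l t * M l k ≤ rr N (vv t) k := by
  have arc : ∀ l, ast κ Kp β A' l t * M l k ≤ (if l = k then 0 else κ l t) := by
    intro l
    by_cases hlk : l = k
    · rw [hlk, hMl, if_pos rfl]
      simp
    · rw [if_neg hlk]
      have hk0 := hκ0 l t ht
      rcases eq_or_lt_of_le (mul_nonneg hA'.le (hKp l)) with e | hpos
      · unfold ast
        rw [← e]
        simpa using hk0
      · have g0 : 0 ≤ κ l t / (A' * Kp l) := div_nonneg hk0 hpos.le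
        have g1 := mul_le_mul_of_nonneg_left (hMρ l k) (mul_nonneg (hβ0 l) g0)
        have g3 := mul_le_mul_of_nonneg_left (hK l) g0
        have g2 : κ l t / (A' * Kp l) * (A' * Kp l) = κ l t := div_mul_cancel₀ _ hpos.ne'
        unfold ast
        linarith
  rw [Fin.sum_univ_three]
  have a0 := arc 0
  have a1 := arc 1
  have a2 := arc 2
  have hsum : (if (0 : Fin 3) = k then 0 else κ 0 t) + (if (1 : Fin 3) = k then 0 else κ 1 t)
      + (if (2 : Fin 3) = k then 0 else κ 2 t) = (κ 0 t + κ 1 t + κ 2 t) - κ k t := by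
    fin_cases k <;> simp <;> ring
  have := hκr t ht k
  linarith

end inside

/-- the certificate, true moments -/
noncomputable def GM (A' : ℝ) (N : Fin 3 → Fin 3 → ℝ) (ζ ζp : Fin 3 → ℝ) (lam : ℝ)
    (hf κ : Fin 3 → ℝ × ℝ → ℝ) (β : Fin 3 → ℝ) (M : Fin 3 → Fin 3 → ℝ) (E R S : Fin 3 → ℝ)
    (s0 : ℝ) : ℝ × ℝ → ℝ :=
  Gg N (fun _ : Unit => fun t => lam * alP N ζp t) (fun _ => ζ) (fun _ => s0)
    (ash hf (fun p => Pool.Agent.Helper55.Mass.Id (hf p)) β A')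
    (ast κ (fun p => Pool.Agent.Helper55.Mass.Id (κ p)) β A') M E R S

/-- the exact mass deficit, true moments -/
noncomputable def DM (A' : ℝ) (N : Fin 3 → Fin 3 → ℝ) (ζ ζp : Fin 3 → ℝ) (lam : ℝ)
    (hf κ : Fin 3 → ℝ × ℝ → ℝ) (β : Fin 3 → ℝ) (M : Fin 3 → Fin 3 → ℝ) (μ sm : Fin 3 → ℝ) : ℝ × ℝ → ℝ :=
  Dg N (fun _ : Unit => fun t => lam * alP N ζp t) (fun _ => ζ) μ (fun _ => 1)
    (ash hf (fun p => Pool.Agent.Helper55.Mass.Id (hf p)) β A')
    (ast κ (fun p => Pool.Agent.Helper55.Mass.Id (κ p)) β A') M sm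

/-- **THE FACE OF THE VERTEX `τ 0`, ALL LOADS INSERTED, FREE SECOND ORDER TERM,
true moments** -/
theorem face_instM [IsFiniteMeasure σ] (h : CN K σ a c) (v : Viol K a S) (hz : CV a K z)
    (τ : Equiv.Perm (Fin 4)) {A : ℝ} (hA : 7 / 2 ≤ A)
    {l : Fin 3 → Bool → Bool → E3 × E3 → ℝ} (hl : Lok a l)
    {δ dE dm : Fin 3 → ℝ} (hδ : ∀ p, MA σ a l τ p p ≤ δ p) (hdE : ∀ p, 0 ≤ dE p)
    (hdm : ∀ p, 0 ≤ dm p) (hdd : ∀ p, δ p ^ 2 ≤ dE p * dm p)
    {ρ β : Fin 3 → ℝ} (hρ : ∀ p, 0 < ρ p)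
    (hMρ : ∀ p k, k ≠ p → MA σ a l τ p k ≤ ρ p)
    {x : E3} (hx : x ∈ K)
    {N : Fin 3 → Fin 3 → ℝ} (hNd : N = NM (fun i => a (τ i)) (fun i j => z (τ i) (τ j)))
    {R : Fin 3 → ℝ} (hRd : R = RM (fun i => a (τ i)) (fun i j => z (τ i) (τ j)))
    {ζ ζp : Fin 3 → ℝ} (hζp : ∀ k, 0 < ζp k) (hζ : ∀ k, ζ k ≤ ζp k)
    (hb : ∀ k, b3 (fun i => a (τ i)) x k ≤ ζ k + LN N ζ k)
    {lam : ℝ} (hl0 : 0 ≤ lam)
    {hf : Fin 3 → ℝ × ℝ → ℝ} (hfm : ∀ l, Measurable (hf l)) (hf0 : ∀ l, ∀ t, 0 ≤ hf l t)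
    (hfz : ∀ l, ∀ t, (¬ ∀ k, 0 ≤ mu (PN N) (vt t) k) → hf l t = 0)
    (hfx : ∀ t, (∀ k, 0 ≤ mu (PN N) (vt t) k) → ∀ k,
      lam * alP N ζp t * ζp k + ((hf 0 t + hf 1 t + hf 2 t) - hf k t) ≤ mu (PN N) (vt t) k)
    {κ : Fin 3 → ℝ × ℝ → ℝ} (hκm : ∀ l, Measurable (κ l)) (hκ0 : ∀ l, ∀ t ∈ Sim, 0 ≤ κ l t)
    {Ck : ℝ} (hκC : ∀ l, ∀ t ∈ Sim, κ l t ≤ Ck)
    (hκr : ∀ t ∈ Sim, ∀ k, (κ 0 t + κ 1 t + κ 2 t) - κ k t ≤ rr N (vv t) k)
    (hβ0 : ∀ p, 0 ≤ β p) (hβ1 : ∀ p, β p ≤ 1)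
    (hK : ∀ p, β p * ρ p ≤ (A / 2 + 1 / 8) * Pool.Agent.Helper55.Mass.Id (κ p))
    (hF0 : ∀ p, 0 < Pool.Agent.Helper55.Mass.Id (hf p))
    (hF : ∀ p, (1 - β p) * ρ p ≤ (A / 2 + 1 / 8) * Pool.Agent.Helper55.Mass.Id (hf p))
    {H r : Fin 3 → ℝ}
    (hH : ∀ j, H j + (N 0 j * H 0 + N 1 j * H 1 + N 2 j * H 2) = R j)
    (hr : ∀ k, Pool.Agent.Helper55.Mass.Id (fun t => rr N (vv t) k) ≤ r k)
    {ω : ℝ × ℝ → ℝ} {C2 : ℝ}
    (hω : AEStronglyMeasurable ω (volume.restrict Dl)) (hωC : ∀ t ∈ Dl, |ω t| ≤ C2)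
    {s : ℝ × ℝ → ℝ} (hs : ∀ t ∈ Dl, 0 ≤ s t)
    (own : ∀ p ∈ K, tx (fun i => a (τ i)) p ∈ Dl →
      Qv a (τ 0) p ≤ s (tx (fun i => a (τ i)) p))
    (hP : ∀ t ∈ Dl, ∀ q ∈ K,
      Yt (fun i => a (τ i)) t q / √(Helper33.MEI.mt t) - ‖a (τ 0) - q‖ ^ 2 ≤ s t →
      GM (A / 2 + 1 / 8) N ζ ζp lam hf κ β (MB σ a l τ) (fun p => aE σ a l (τ 0) (τ p.succ) - dE p) R
          (fun k => S (τ k.succ)) (Qv a (τ 0) x) t
        + (1 - DM (A / 2 + 1 / 8) N ζ ζp lam hf κ β (MB σ a l τ)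
          (fun j => 1 / qM (fun i => a (τ i)) (fun i j => z (τ i) (τ j)) j)
          (fun p => am σ a l (τ 0) (τ p.succ) - dm p) t) * ‖a (τ 0) - q‖ ^ 2 ≤
        Yt (fun i => a (τ i)) t q →
      (A / 2 + 1 / 8) * (GM (A / 2 + 1 / 8) N ζ ζp lam hf κ β (MB σ a l τ)
          (fun p => aE σ a l (τ 0) (τ p.succ) - dE p) R
          (fun k => S (τ k.succ)) (Qv a (τ 0) x) t / √(Helper33.MEI.mt t)) - ω t ≤
        ff (A / 2 + 1 / 8)
          (Yt (fun i => a (τ i)) t q / √(Helper33.MEI.mt t) - ‖a (τ 0) - q‖ ^ 2)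
          (‖a (τ 0) - q‖ ^ 2)) :
    LLs σ a l (τ 0) - (dE 0 + dE 1 + dE 2)
      + (A / 2 + 1 / 8) * (B0 * (H 0 + H 1 + H 2)
        - (r 0 * max (S (τ 1) + H 0) 0 + r 1 * max (S (τ 2) + H 1) 0
          + r 2 * max (S (τ 3) + H 2) 0)
        + lam * Pool.Agent.Helper55.Mass.Id (alP N ζp) *
          (Qv a (τ 0) x - (ζ 0 * R 0 + ζ 1 * R 1 + ζ 2 * R 2)))
      - (ρ 0 * (pp ((1 - β 0) * R 1 - β 0 * S (τ 2)) + pp ((1 - β 0) * R 2 - β 0 * S (τ 3)))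
        + ρ 1 * (pp ((1 - β 1) * R 0 - β 1 * S (τ 1)) + pp ((1 - β 1) * R 2 - β 1 * S (τ 3)))
        + ρ 2 * (pp ((1 - β 2) * R 0 - β 2 * S (τ 1)) + pp ((1 - β 2) * R 1 - β 2 * S (τ 2))))
      - (√2)⁻¹ * ∫ t in Dl, ω t * M3 t ≤ Wi a (τ 0) K σ A := by
  have h' := h.perm τ
  have v' := viol_perm v τ
  have hz' := hz.perm τ
  have hA' : 0 < A / 2 + 1 / 8 := by linarith
  have hN : ∀ k m, 0 ≤ N k m := fun k m => by
    rw [hNd]
    exact NM_nonneg h' v' hz' k m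
  have hd : ∀ k, N k k = 0 := fun k => by
    rw [hNd]
    exact NM_diag k
  have hcol : ∀ m, nc N m ≤ 9 / 10 := fun m => by
    rw [hNd]
    exact nc_le h' v' hz' m
  have hc : (9 / 10 : ℝ) < 1 := by norm_num
  have hgr := gram_of_dist h'.ha
  have hKp : ∀ l, 0 ≤ Pool.Agent.Helper55.Mass.Id (κ l) := fun l => by
    have h1 := (mul_nonneg (hβ0 l) (hρ l).le).trans (hK l)
    by_contra hneg
    have := mul_neg_of_pos_of_neg hA' (not_le.1 hneg)
    linarith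
  have hM0 : ∀ l' k, 0 ≤ MB σ a l τ l' k := fun l' k => MB_nonneg τ l' k
  have hMl : ∀ p, MB σ a l τ p p = 0 := fun p => MB_diag τ p
  have hMB : ∀ p k, MB σ a l τ p k ≤ ρ p := fun p k => by
    unfold MB
    split_ifs with e
    · exact (hρ p).le
    · exact hMρ p k e
  have i0 : ∀ l, 0 ≤ 1 / ((A / 2 + 1 / 8) * Pool.Agent.Helper55.Mass.Id (hf l)) :=
    fun l => by
      have := mul_pos hA' (hF0 l)
      positivity
  have hCk : 0 ≤ Ck := by
    have hSim : ((0 : ℝ), (0 : ℝ)) ∈ Sim := ⟨le_rfl, le_rfl, by norm_num⟩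
    exact (hκ0 0 _ hSim).trans (hκC 0 _ hSim)
  have key := face_genP (ι := Unit) h.pm h.ha h.hp h.hull (fun i q hq => h.ap hq i) τ hA hN hc
    hcol
    (al := fun _ => fun t => lam * alP N ζp t) (ζ := fun _ => ζ)
    (L := fun _ => Qv a (τ 0) x)
    (μx := fun _ => 1) (R := R) (S := fun k => S (τ k.succ))
    (μ := fun j => 1 / qM (fun i => a (τ i)) (fun i j => z (τ i) (τ j)) j) (H := H) (r := r)
    (α := ash (hf) (fun l => Pool.Agent.Helper55.Mass.Id (hf l)) β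
      (A / 2 + 1 / 8))
    (g := ast κ (fun l => Pool.Agent.Helper55.Mass.Id (κ l)) β (A / 2 + 1 / 8))
    (Ca := lam * (1 / ζp 0) +
      (1 / ((A / 2 + 1 / 8) * Pool.Agent.Helper55.Mass.Id (hf 0))
        + 1 / ((A / 2 + 1 / 8) * Pool.Agent.Helper55.Mass.Id (hf 1))
        + 1 / ((A / 2 + 1 / 8) * Pool.Agent.Helper55.Mass.Id (hf 2))))
    (Cg := Ck / ((A / 2 + 1 / 8) * Pool.Agent.Helper55.Mass.Id (κ 0))
        + Ck / ((A / 2 + 1 / 8) * Pool.Agent.Helper55.Mass.Id (κ 1))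
        + Ck / ((A / 2 + 1 / 8) * Pool.Agent.Helper55.Mass.Id (κ 2)))
    (M := MB σ a l τ) (E := fun p => aE σ a l (τ 0) (τ p.succ) - dE p)
    (sm := fun p => am σ a l (τ 0) (τ p.succ) - dm p) (β := β) (ω := ω) (s := s)
    (fun _ => alP_meas.const_mul _)
    (fun _ t _ => mul_nonneg hl0 (alP_nonneg hζp t))
    (fun _ t ht => by
      have := mul_le_mul_of_nonneg_left (alP_bound hN hd hc hcol hζp ht) hl0
      have j0 := i0 0
      have j1 := i0 1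
      have j2 := i0 2
      linarith)
    (fun l => ((hfm l).div_const _).const_mul _)
    (fun l t _ => ash_nonneg hf0 hA' hF0 hβ1 l t)
    (fun l t ht => by
      have j0 := i0 0
      have j1 := i0 1
      have j2 := i0 2
      have jz : 0 ≤ lam * (1 / ζp 0) := by
        have := hζp 0
        positivity
      have hAF := mul_pos hA' (hF0 l)
      have g1 : hf l t / ((A / 2 + 1 / 8) * Pool.Agent.Helper55.Mass.Id (hf l)) ≤
          1 / ((A / 2 + 1 / 8) * Pool.Agent.Helper55.Mass.Id (hf l)) :=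
        div_le_div_of_nonneg_right (hf_le_one hN hd hc hcol hζp hf0 hfz hfx hl0 l ht) hAF.le
      have g0 : 0 ≤ hf l t /
          ((A / 2 + 1 / 8) * Pool.Agent.Helper55.Mass.Id (hf l)) :=
        div_nonneg (hf0 l t) hAF.le
      have g2 : ash (hf) (fun l => Pool.Agent.Helper55.Mass.Id (hf l)) β
          (A / 2 + 1 / 8) l t ≤
          1 / ((A / 2 + 1 / 8) * Pool.Agent.Helper55.Mass.Id (hf l)) := by
        have hb := hβ0 l
        have := mul_nonneg hb g0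
        unfold ash
        linarith
      refine g2.trans ?_
      fin_cases l
      · show 1 / ((A / 2 + 1 / 8) * Pool.Agent.Helper55.Mass.Id (hf 0)) ≤ _
        linarith
      · show 1 / ((A / 2 + 1 / 8) * Pool.Agent.Helper55.Mass.Id (hf 1)) ≤ _
        linarith
      · show 1 / ((A / 2 + 1 / 8) * Pool.Agent.Helper55.Mass.Id (hf 2)) ≤ _
        linarith)
    (fun l => ((hκm l).div_const _).const_mul _)
    (fun l t ht => ast_nonneg hκ0 hA' hβ0 hKp l ht)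
    (fun l t ht => by
      have j : ∀ l, 0 ≤ Ck / ((A / 2 + 1 / 8) * Pool.Agent.Helper55.Mass.Id (κ l)) := fun l =>
        div_nonneg hCk (mul_nonneg hA'.le (hKp l))
      have j0 := j 0
      have j1 := j 1
      have j2 := j 2
      have hAF := mul_nonneg hA'.le (hKp l)
      have g1 : κ l t / ((A / 2 + 1 / 8) * Pool.Agent.Helper55.Mass.Id (κ l)) ≤
          Ck / ((A / 2 + 1 / 8) * Pool.Agent.Helper55.Mass.Id (κ l)) :=
        div_le_div_of_nonneg_right (hκC l t ht) hAF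
      have g0 : 0 ≤ κ l t / ((A / 2 + 1 / 8) * Pool.Agent.Helper55.Mass.Id (κ l)) :=
        div_nonneg (hκ0 l t ht) hAF
      have g2 : ast κ (fun l => Pool.Agent.Helper55.Mass.Id (κ l)) β (A / 2 + 1 / 8) l t ≤
          Ck / ((A / 2 + 1 / 8) * Pool.Agent.Helper55.Mass.Id (κ l)) := by
        have hb := mul_le_mul_of_nonneg_right (hβ1 l) g0
        unfold ast
        linarith
      refine g2.trans ?_
      fin_cases l
      · show Ck / ((A / 2 + 1 / 8) * Pool.Agent.Helper55.Mass.Id (κ 0)) ≤ _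
        linarith
      · show Ck / ((A / 2 + 1 / 8) * Pool.Agent.Helper55.Mass.Id (κ 1)) ≤ _
        linarith
      · show Ck / ((A / 2 + 1 / 8) * Pool.Agent.Helper55.Mass.Id (κ 2)) ≤ _
        linarith)
    hM0
    (fun t ht k => by
      simp only [Finset.univ_unique, Finset.sum_singleton]
      exact ash_feas4 hN hd hc hcol hζp hζ hf0 hfz hfx hl0 hA' hF0 hβ1 hF hMl hMB ht k)
    (fun t ht k => ast_feas4 hκ0 hκr hA' hβ0 hKp hK hMl hMB ht k)
    (fun l => ash_Id hA' hF0 l)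
    (fun l => ast_Id hA' (by
      rcases eq_or_lt_of_le (hβ0 l) with e | hb
      · exact Or.inl e.symm
      · right
        have h1 := mul_pos hb (hρ l)
        have h2 := lt_of_lt_of_le h1 (hK l)
        by_contra hneg
        have := mul_nonpos_of_nonneg_of_nonpos hA'.le (not_lt.1 hneg)
        linarith))
    hH hr
    (fun q hq j => by
      rw [hRd, hNd]
      exact Pt_load hz' h' v' hq j)
    (fun q hq _ => apex_load hgr (h.hd x hx q hq) (h'.hp q hq) hb)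
    (fun q hq p => by
      have h0 := arc_load h.ha hl h.cpt h.pm.mem h.hp h.hd τ hq p
      have h1 := load_drop2 h'.ha (h'.hp q hq) h0 (hδ p) ((MA_nonneg τ p p).trans (hδ p))
        (hdE p) (hdm p) (hdd p)
      exact h1)
    (fun q hq => ⟨v.le _ q hq, v.le _ q hq, v.le _ q hq⟩)
    hω hωC hs own hP
  have hL := LLs_perm (σ := σ) (a := a) (l := l) τ
  simp only [Finset.univ_unique, Finset.sum_singleton] at key
  have e0 : Pool.Agent.Helper55.Mass.Id (fun t => lam * alP N ζp t) =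
      lam * Pool.Agent.Helper55.Mass.Id (alP N ζp) :=
    Pool.Agent.Helper55.Mass.Id_const lam (alP N ζp)
  have e1 : τ (Fin.succ 0) = τ 1 := rfl
  have e2 : τ (Fin.succ 1) = τ 2 := rfl
  have e3 : τ (Fin.succ 2) = τ 3 := rfl
  rw [e0, e1, e2, e3] at key
  have tr : ∀ p k, -(ρ p * pp ((1 - β p) * R k - β p * S (τ k.succ))) ≤
      β p * (MB σ a l τ p k * S (τ k.succ)) - (1 - β p) * (MB σ a l τ p k * R k) := by
    intro p k
    have h1 := mul_le_mul_of_nonneg_left (le_pp ((1 - β p) * R k - β p * S (τ k.succ)))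
      (hM0 p k)
    have h2 := mul_le_mul_of_nonneg_right (hMB p k)
      (pp_nonneg ((1 - β p) * R k - β p * S (τ k.succ)))
    linarith
  have d0 := hMl 0
  have d1 := hMl 1
  have d2 := hMl 2
  rw [d0, d1, d2] at key
  have t01 := tr 0 1
  have t02 := tr 0 2
  have t10 := tr 1 0
  have t12 := tr 1 2
  have t20 := tr 2 0
  have t21 := tr 2 1
  rw [e1] at t10 t20
  rw [e2] at t01 t21
  rw [e3] at t02 t12
  rw [hL]
  linarith only [key, t01, t02, t10, t12, t20, t21]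

end Helper78.MEI
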