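import Pool.Agent.Helper78.MEI.FG
import Pool.Agent.Helper78.MEI.FaceM

/-!
# Project MEI (M2): plane form with the weight of the apex as a number, true moments of the arcs

`face_HGM` = `face_instM` with the apex bracket `g (s - ζ.R)` (no apex: `lamM = 0`, `g = 0`);
`face_KSM` = strips by helper96's `kap`, arcs on the share `φ`, first order residual masses, `ζ` =
exact contact coordinates.
-/

namespace Helper78.MEI

open Set Metric MeasureTheory Helper80.CW Helper82.CW Helper14.CW Helper93.MEI Helper82.M2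
open Helper14.MEI2 Pool.Agent.Helper52.MEI Pool.Agent.Helper73.MEI Helper37.MEI Helper41.MEI
open Helper33.MEI (Wi Dl tx M3)
open Pool.Agent.Helper55.Sx (Sim mm mm_pos mm_cont mt_mm deg1 int_Dl)
open Pool.Agent.Helper55.Mass (LN LN_nonneg vv vv_nonneg vv_le B0 intOn)
open Pool.Agent.Helper55.Apex (nc vt_vv)
open Pool.Agent.Helper55.ApexP (PN alP alP_nonneg alP_zeta alP_meas alP_bound xx_mu alP_int mu_bal)
open Pool.Agent.Helper55.Fill (xx rr xe wc xe_bal rr_nonneg xx_meas rr_meas xx_nonneg xx_le rr_int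
  rr_mass)
open Pool.Agent.Helper73.MEI.SideP (flP flP_meas flP_nonneg flP_zero flP_pair)
open Pool.Agent.Helper96.Kap (kap kap_nonneg kap_meas kap_le_one kap_add kapL kap_mass)
open Pool.Agent.Helper31.SR
open Helper75.MEI2 (mu vt)
open scoped RealInnerProductSpace ENNReal

variable {a : Fin 4 → E3} {σ : Measure (E3 × E3)} {K : Set E3} {S : Fin 4 → ℝ}
  {c : Fin 4 → E3} {z : Fin 4 → Fin 4 → E3}

/-- **the face with apex, plane form kept**, weight `g` of the apex bracket -/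
theorem face_HGM [IsFiniteMeasure σ]
    (h : CN K σ a c) (v : Viol K a S) (hz : CV a K z)
    (τ : Equiv.Perm (Fin 4)) {A : ℝ} (hA : 7 / 2 ≤ A)
    {l : Fin 3 → Bool → Bool → E3 × E3 → ℝ} (hl : Lok a l)
    {δ dE dm : Fin 3 → ℝ} (hδ : ∀ p, MA σ a l τ p p ≤ δ p) (hdE : ∀ p, 0 ≤ dE p)
    (hdm : ∀ p, 0 ≤ dm p) (hdd : ∀ p, δ p ^ 2 ≤ dE p * dm p)
    {ρ β : Fin 3 → ℝ} (hρ : ∀ p, 0 < ρ p)
    (hMρ : ∀ p k, k ≠ p → MA σ a l τ p k ≤ ρ p)
    {x : E3} (hx : x ∈ K)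
    {N : Fin 3 → Fin 3 → ℝ} (hNd : N = NM (fun i => a (τ i)) (fun i j => z (τ i) (τ j)))
    {R : Fin 3 → ℝ} (hRd : R = RM (fun i => a (τ i)) (fun i j => z (τ i) (τ j)))
    {ζ ζp : Fin 3 → ℝ} (hζp : ∀ k, 0 < ζp k) (hζ : ∀ k, ζ k ≤ ζp k)
    (hb : ∀ k, b3 (fun i => a (τ i)) x k ≤ ζ k + LN N ζ k)
    {lamM : ℝ} (hlM : 0 ≤ lamM)
    {hf : Fin 3 → ℝ × ℝ → ℝ} (hfm : ∀ l, Measurable (hf l)) (hf0 : ∀ l, ∀ t, 0 ≤ hf l t)
    (hfz : ∀ l, ∀ t, (¬ ∀ k, 0 ≤ mu (PN N) (vt t) k) → hf l t = 0)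
    (hfx : ∀ t, (∀ k, 0 ≤ mu (PN N) (vt t) k) → ∀ k,
      lamM * alP N ζp t * ζp k + ((hf 0 t + hf 1 t + hf 2 t) - hf k t) ≤ mu (PN N) (vt t) k)
    {κ : Fin 3 → ℝ × ℝ → ℝ} (hκm : ∀ l, Measurable (κ l)) (hκ0 : ∀ l, ∀ t ∈ Sim, 0 ≤ κ l t)
    {Ck : ℝ} (hκC : ∀ l, ∀ t ∈ Sim, κ l t ≤ Ck)
    (hκr : ∀ t ∈ Sim, ∀ k, (κ 0 t + κ 1 t + κ 2 t) - κ k t ≤ rr N (vv t) k)
    (hβ0 : ∀ p, 0 ≤ β p) (hβ1 : ∀ p, β p ≤ 1)
    (hK : ∀ p, β p * ρ p ≤ (A / 2 + 1 / 8) * Pool.Agent.Helper55.Mass.Id (κ p))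
    (hF0 : ∀ p, 0 < Pool.Agent.Helper55.Mass.Id (hf p))
    (hF : ∀ p, (1 - β p) * ρ p ≤ (A / 2 + 1 / 8) * Pool.Agent.Helper55.Mass.Id (hf p))
    {r : Fin 3 → ℝ} (hr : ∀ k, Pool.Agent.Helper55.Mass.Id (fun t => rr N (vv t) k) ≤ r k)
    {H : Fin 3 → ℝ} (hH : ∀ j, H j + (N 0 j * H 0 + N 1 j * H 1 + N 2 j * H 2) = R j)
    {g : ℝ} (hg0 : 0 ≤ g)
    (hg : g ≤ (A / 2 + 1 / 8) * (lamM * Pool.Agent.Helper55.Mass.Id (alP N ζp)))
    {cst : ℝ}
    (hW : ∀ lam, 0 ≤ lam → lam ≤ lamM → WCost a K τ (A / 2 + 1 / 8)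
      (GM (A / 2 + 1 / 8) N ζ ζp lam hf κ β (MB σ a l τ) (fun p => aE σ a l (τ 0) (τ p.succ) - dE p) R
        (fun k => S (τ k.succ)) (Qv a (τ 0) x))
      (DM (A / 2 + 1 / 8) N ζ ζp lam hf κ β (MB σ a l τ)
        (fun j => 1 / qM (fun i => a (τ i)) (fun i j => z (τ i) (τ j)) j)
        (fun p => am σ a l (τ 0) (τ p.succ) - dm p)) cst) :
    LLs σ a l (τ 0) - (dE 0 + dE 1 + dE 2)
      + (A / 2 + 1 / 8) * (B0 * (H 0 + H 1 + H 2)
        - (r 0 * max (S (τ 1) + H 0) 0 + r 1 * max (S (τ 2) + H 1) 0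
          + r 2 * max (S (τ 3) + H 2) 0))
      + g * (Qv a (τ 0) x - (ζ 0 * R 0 + ζ 1 * R 1 + ζ 2 * R 2))
      - (ρ 0 * (pp ((1 - β 0) * R 1 - β 0 * S (τ 2)) + pp ((1 - β 0) * R 2 - β 0 * S (τ 3)))
        + ρ 1 * (pp ((1 - β 1) * R 0 - β 1 * S (τ 1)) + pp ((1 - β 1) * R 2 - β 1 * S (τ 3)))
        + ρ 2 * (pp ((1 - β 2) * R 0 - β 2 * S (τ 1)) + pp ((1 - β 2) * R 1 - β 2 * S (τ 2))))
      - cst ≤ Wi a (τ 0) K σ A := by
  have hA' : 0 < A / 2 + 1 / 8 := by linarith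
  have hI0 : 0 ≤ Pool.Agent.Helper55.Mass.Id (alP N ζp) := by
    unfold Pool.Agent.Helper55.Mass.Id
    refine mul_nonneg (by positivity) (setIntegral_nonneg
      Pool.Agent.Helper55.Sx.Sim_meas fun t _ => ?_)
    exact div_nonneg (alP_nonneg hζp t) (by positivity)
  obtain ⟨lam, hl0, hl1, hlg⟩ : ∃ lam, 0 ≤ lam ∧ lam ≤ lamM ∧
      (A / 2 + 1 / 8) * (lam * Pool.Agent.Helper55.Mass.Id (alP N ζp)) = g := by
    rcases eq_or_lt_of_le hI0 with e | hpos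
    · refine ⟨0, le_rfl, hlM, ?_⟩
      rw [← e, mul_zero, mul_zero] at hg
      rw [zero_mul, mul_zero]
      exact le_antisymm hg0 hg
    · have hAI := mul_pos hA' hpos
      refine ⟨g / ((A / 2 + 1 / 8) * Pool.Agent.Helper55.Mass.Id (alP N ζp)),
        div_nonneg hg0 hAI.le, ?_, ?_⟩
      · rw [div_le_iff₀ hAI]
        linarith
      · rw [show (A / 2 + 1 / 8) * (g / ((A / 2 + 1 / 8) *
            Pool.Agent.Helper55.Mass.Id (alP N ζp)) * Pool.Agent.Helper55.Mass.Id (alP N ζp)) =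
          g / ((A / 2 + 1 / 8) * Pool.Agent.Helper55.Mass.Id (alP N ζp)) *
            ((A / 2 + 1 / 8) * Pool.Agent.Helper55.Mass.Id (alP N ζp)) by ring,
          div_mul_cancel₀ _ hAI.ne']
  obtain ⟨ω, s, C2, w1, w2, w3, w4, w5, w6⟩ := hW lam hl0 hl1
  have key := face_instM h v hz τ hA hl hδ hdE hdm hdd hρ hMρ hx hNd hRd hζp hζ hb (lam := lam)
    hl0 hfm hf0 hfz (fun t ht k => by
      have h1 := hfx t ht k
      have h2 := mul_le_mul_of_nonneg_right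
        (mul_le_mul_of_nonneg_right hl1 (alP_nonneg (N := N) hζp t)) (hζp k).le
      linarith) hκm hκ0 hκC hκr hβ0 hβ1 hK hF0 hF hH hr w1 w2 w3 w4 w5
  have hk : (A / 2 + 1 / 8) * (lam * Pool.Agent.Helper55.Mass.Id (alP N ζp) *
      (Qv a (τ 0) x - (ζ 0 * R 0 + ζ 1 * R 1 + ζ 2 * R 2))) =
      g * (Qv a (τ 0) x - (ζ 0 * R 0 + ζ 1 * R 1 + ζ 2 * R 2)) := by
    rw [← hlg]
    ring
  linarith only [key, hk, w6]


/-- **THE STRIP INSTANCE** (share `φ`, strips `kap`, first order residual masses) -/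
theorem face_KSM [IsFiniteMeasure σ]
    (h : CN K σ a c) (v : Viol K a S) (hz : CV a K z)
    (τ : Equiv.Perm (Fin 4)) {A : ℝ} (hA : 7 / 2 ≤ A)
    {l : Fin 3 → Bool → Bool → E3 × E3 → ℝ} (hl : Lok a l)
    {δ dE dm : Fin 3 → ℝ} (hδ : ∀ p, MA σ a l τ p p ≤ δ p) (hdE : ∀ p, 0 ≤ dE p)
    (hdm : ∀ p, 0 ≤ dm p) (hdd : ∀ p, δ p ^ 2 ≤ dE p * dm p)
    {ρ β : Fin 3 → ℝ} (hρ : ∀ p, 0 < ρ p)
    (hMρ : ∀ p k, k ≠ p → MA σ a l τ p k ≤ ρ p)
    {x : E3} (hx : x ∈ K)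
    {N : Fin 3 → Fin 3 → ℝ} (hNd : N = NM (fun i => a (τ i)) (fun i j => z (τ i) (τ j)))
    {R : Fin 3 → ℝ} (hRd : R = RM (fun i => a (τ i)) (fun i j => z (τ i) (τ j)))
    {ζ ζp : Fin 3 → ℝ} (hζd : ζ = zc (fun i => a (τ i)) N x) (hζp : ∀ k, 0 < ζp k)
    (hζ : ∀ k, ζ k ≤ ζp k)
    {φ lamM : ℝ} (hφ0 : 0 < φ) (hlM : 0 ≤ lamM) (hlM1 : lamM ≤ 1 - φ)
    (hβ0 : ∀ p, 0 ≤ β p) (hβ1 : ∀ p, β p ≤ 1)
    (hK : ∀ p, β p * ρ p ≤
      (A / 2 + 1 / 8) * Pool.Agent.Helper55.Mass.Id (fun t => kap N (vv t) p))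
    (hF : ∀ p, (1 - β p) * ρ p ≤
      φ * ((A / 2 + 1 / 8) * Pool.Agent.Helper55.Mass.Id (flP (PN N) p)))
    {H : Fin 3 → ℝ} (hH : ∀ j, H j + (N 0 j * H 0 + N 1 j * H 1 + N 2 j * H 2) = R j)
    {g : ℝ} (hg0 : 0 ≤ g)
    (hg : g ≤ (A / 2 + 1 / 8) * (lamM * Pool.Agent.Helper55.Mass.Id (alP N ζp)))
    {cst : ℝ}
    (hW : ∀ lam, 0 ≤ lam → lam ≤ lamM → WCost a K τ (A / 2 + 1 / 8)
      (GM (A / 2 + 1 / 8) N ζ ζp lam (fun p t => φ * flP (PN N) p t)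
        (fun p t => kap N (vv t) p) β (MB σ a l τ) (fun p => aE σ a l (τ 0) (τ p.succ) - dE p) R
        (fun k => S (τ k.succ)) (Qv a (τ 0) x))
      (DM (A / 2 + 1 / 8) N ζ ζp lam (fun p t => φ * flP (PN N) p t)
        (fun p t => kap N (vv t) p) β (MB σ a l τ)
        (fun j => 1 / qM (fun i => a (τ i)) (fun i j => z (τ i) (τ j)) j)
        (fun p => am σ a l (τ 0) (τ p.succ) - dm p)) cst) :
    LLs σ a l (τ 0) - (dE 0 + dE 1 + dE 2)
      + (A / 2 + 1 / 8) * (B0 * (H 0 + H 1 + H 2)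
        - (wc N 0 1 2 * max (S (τ 1) + H 0) 0 + wc N 1 0 2 * max (S (τ 2) + H 1) 0
          + wc N 2 0 1 * max (S (τ 3) + H 2) 0))
      + g * (Qv a (τ 0) x - (ζ 0 * R 0 + ζ 1 * R 1 + ζ 2 * R 2))
      - (ρ 0 * (pp ((1 - β 0) * R 1 - β 0 * S (τ 2)) + pp ((1 - β 0) * R 2 - β 0 * S (τ 3)))
        + ρ 1 * (pp ((1 - β 1) * R 0 - β 1 * S (τ 1)) + pp ((1 - β 1) * R 2 - β 1 * S (τ 3)))
        + ρ 2 * (pp ((1 - β 2) * R 0 - β 2 * S (τ 1)) + pp ((1 - β 2) * R 1 - β 2 * S (τ 2))))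
      - cst ≤ Wi a (τ 0) K σ A := by
  have h' := h.perm τ
  have v' := viol_perm v τ
  have hz' := hz.perm τ
  have hA' : 0 < A / 2 + 1 / 8 := by linarith
  have hN : ∀ k m, 0 ≤ N k m := fun k m => by
    rw [hNd]
    exact NM_nonneg h' v' hz' k m
  have hd : ∀ k, N k k = 0 := fun k => by
    rw [hNd]
    exact NM_diag k
  have hcol : ∀ m, nc N m ≤ 9 / 10 := fun m => by
    rw [hNd]
    exact nc_le h' v' hz' m
  have hc : (9 / 10 : ℝ) < 1 := by norm_num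
  have hb : ∀ k, b3 (fun i => a (τ i)) x k ≤ ζ k + LN N ζ k := fun k => by
    rw [hζd]
    exact (mu_bal hN hd hc hcol (b3 (fun i => a (τ i)) x) k).ge
  have hF0 : ∀ p, 0 < Pool.Agent.Helper55.Mass.Id (flP (PN N) p) := fun p => by
    have h1 := Pool.Agent.Helper73.MEI.SideP.flN_mass hN hd hc hcol p
    have h2 := Pool.Agent.Helper55.ApexP.PN_det_pos hN hd hc hcol
    have h3 := Pool.Agent.Helper73.MEI.SideP.mbN_ge hN p
    refine lt_of_lt_of_le ?_ h1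
    have h4 : 0 < Pool.Agent.Helper73.MEI.SideP.mbN N p := by linarith
    positivity
  have eI : ∀ p, Pool.Agent.Helper55.Mass.Id (fun t => φ * flP (PN N) p t) =
      φ * Pool.Agent.Helper55.Mass.Id (flP (PN N) p) := fun p =>
    Pool.Agent.Helper55.Mass.Id_const φ _
  exact face_HGM h v hz τ hA hl hδ hdE hdm hdd hρ hMρ hx hNd hRd hζp hζ hb
    (lamM := lamM) hlM
    (hf := fun p t => φ * flP (PN N) p t)
    (fun p => (flP_meas p).const_mul _)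
    (fun p t => mul_nonneg hφ0.le (flP_nonneg p t))
    (fun p t ht => by
      show φ * flP (PN N) p t = 0
      rw [flP_zero (by push Not at ht; exact ht) p, mul_zero])
    (fun t ht k => by
      obtain ⟨p0, p1, p2⟩ := flP_pair (P := PN N) ht
      have hx := ht k
      have ha := mul_le_mul_of_nonneg_left (alP_zeta hζp ht k) hlM
      have ha2 := mul_le_mul_of_nonneg_right hlM1 (ht k)
      have hfk : (flP (PN N) 0 t + flP (PN N) 1 t + flP (PN N) 2 t) - flP (PN N) k t ≤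
          mu (PN N) (vt t) k := by
        fin_cases k
        · simp only [Fin.zero_eta]
          linarith
        · simp only [Fin.mk_one]
          linarith
        · simp only [Fin.reduceFinMk]
          linarith
      have hfk' := mul_le_mul_of_nonneg_left hfk hφ0.le
      linarith)
    (κ := fun p t => kap N (vv t) p)
    (fun p => kap_meas hN hc hcol p)
    (fun p t ht => kap_nonneg hN hc hcol (fun k => vv_nonneg ht k) p)
    (Ck := 1) (fun p t ht => kap_le_one hN hc hcol ht p)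
    (fun t ht k => by
      have hbv := fun k => vv_nonneg ht k
      fin_cases k
      · have := kap_add hN hc hcol hbv (j := 1) (l := 2) (k := 0) (by decide) (by decide)
          (by decide)
        simp only [Fin.zero_eta]
        linarith
      · have := kap_add hN hc hcol hbv (j := 0) (l := 2) (k := 1) (by decide) (by decide)
          (by decide)
        simp only [Fin.mk_one]
        linarith
      · have := kap_add hN hc hcol hbv (j := 0) (l := 1) (k := 2) (by decide) (by decide)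
          (by decide)
        simp only [Fin.reduceFinMk]
        linarith)
    hβ0 hβ1 hK
    (fun p => by
      rw [eI]
      exact mul_pos hφ0 (hF0 p))
    (fun p => by
      rw [eI]
      have := hF p
      linarith)
    (r := fun k => match k with
      | 0 => wc N 0 1 2
      | 1 => wc N 1 0 2
      | 2 => wc N 2 0 1)
    (fun k => by
      fin_cases k
      · exact rr_mass hN hd hc hcol (by decide) (by decide) (by decide)
      · exact rr_mass hN hd hc hcol (by decide) (by decide) (by decide)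
      · exact rr_mass hN hd hc hcol (by decide) (by decide) (by decide))
    hH hg0 hg hW

end Helper78.MEI
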