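import Pool.Agent.Helper78.MEI.WC7

/-!
# Project MEI (M2): the value and the deficit of the certificate in closed form, convexity of R7

`GM_eq`: `GM = - Σ T3 S + (values above the empty filling)`; `DM_eq`; `Ci_conv`, `Cii_conv`,
`Ciii_conv`: for fixed `f`, `u`, `v` the checks are jointly convex in `(C, D, E, ow, om)`.
-/

set_option autoImplicit false

namespace Helper78.MEI

open Set Metric MeasureTheory Helper80.CW Helper82.CW Helper14.CW Helper93.MEI Helper82.M2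
open Helper14.MEI2 Pool.Agent.Helper52.MEI Pool.Agent.Helper73.MEI
open Helper33.MEI (Wi Dl tx M3 mt mt_pos)
open Pool.Agent.Helper55.Sx (Sim)
open Pool.Agent.Helper55.Mass (LN LN_nonneg vv vv_nonneg vv_le)
open Pool.Agent.Helper55.Apex (nc)
open Pool.Agent.Helper55.ApexP (alP alP_nonneg)
open Pool.Agent.Helper55.Fill (xx rr xx_nonneg xx_le xx_feas)
open scoped RealInnerProductSpace ENNReal

/-- **the value of the certificate** -/
theorem GM_eq (A' : ℝ) (N : Fin 3 → Fin 3 → ℝ) (ζ ζp : Fin 3 → ℝ) (lam : ℝ)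
    (hf κ : Fin 3 → ℝ × ℝ → ℝ) (β : Fin 3 → ℝ) (M : Fin 3 → Fin 3 → ℝ) (E R S : Fin 3 → ℝ)
    (s0 : ℝ) (t : ℝ × ℝ) :
    GM A' N ζ ζp lam hf κ β M E R S s0 t =
      -(T3 t 0 * S 0 + T3 t 1 * S 1 + T3 t 2 * S 2)
      + (xx N (vv t) 0 * (R 0 + (S 0 + (N 0 0 * S 0 + N 1 0 * S 1 + N 2 0 * S 2)))
        + xx N (vv t) 1 * (R 1 + (S 1 + (N 0 1 * S 0 + N 1 1 * S 1 + N 2 1 * S 2)))
        + xx N (vv t) 2 * (R 2 + (S 2 + (N 0 2 * S 0 + N 1 2 * S 1 + N 2 2 * S 2))))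
      + lam * alP N ζp t * (s0 - (ζ 0 * R 0 + ζ 1 * R 1 + ζ 2 * R 2))
      + ∑ l, ash hf (fun p => Pool.Agent.Helper55.Mass.Id (hf p)) β A' l t *
          (E l - (M l 0 * R 0 + M l 1 * R 1 + M l 2 * R 2))
      + ∑ l, ast κ (fun p => Pool.Agent.Helper55.Mass.Id (κ p)) β A' l t *
          (E l + (M l 0 * S 0 + M l 1 * S 1 + M l 2 * S 2)) := by
  unfold GM Gg rr LN
  rw [T3_vv, T3_vv, T3_vv]
  simp only [Finset.univ_unique, Finset.sum_singleton, Fin.sum_univ_three]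
  ring

/-- **the mass deficit of the certificate** -/
theorem DM_eq (A' : ℝ) (N : Fin 3 → Fin 3 → ℝ) (ζ ζp : Fin 3 → ℝ) (lam : ℝ)
    (hf κ : Fin 3 → ℝ × ℝ → ℝ) (β : Fin 3 → ℝ) (M : Fin 3 → Fin 3 → ℝ) (μ sm : Fin 3 → ℝ)
    (t : ℝ × ℝ) :
    DM A' N ζ ζp lam hf κ β M μ sm t =
      (xx N (vv t) 0 * (1 + nc N 0 - μ 0) + xx N (vv t) 1 * (1 + nc N 1 - μ 1)
        + xx N (vv t) 2 * (1 + nc N 2 - μ 2))
      - lam * alP N ζp t * (1 - (ζ 0 * μ 0 + ζ 1 * μ 1 + ζ 2 * μ 2))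
      - ∑ l, ash hf (fun p => Pool.Agent.Helper55.Mass.Id (hf p)) β A' l t *
          (sm l - (M l 0 * μ 0 + M l 1 * μ 1 + M l 2 * μ 2))
      + ∑ l, ast κ (fun p => Pool.Agent.Helper55.Mass.Id (κ p)) β A' l t *
          ((M l 0 + M l 1 + M l 2) - sm l) := by
  unfold DM Dg LN nc
  simp only [Finset.univ_unique, Finset.sum_singleton, Fin.sum_univ_three]
  ring

section
variable {N : Fin 3 → Fin 3 → ℝ} (hN : ∀ k m, 0 ≤ N k m)
include hN

/-- **upper bound of the value**: nodes with any upper bounds `xb` of the loads, apex with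
`0 ≤ s0 - ζ R ≤ ex`, arcs with `E l ≤ el` -/
theorem GM_le {A' : ℝ} (hA' : 0 < A') {ζ ζp : Fin 3 → ℝ} (hζp : ∀ k, 0 < ζp k) {lam : ℝ}
    (hlam : 0 ≤ lam)
    {hf κ : Fin 3 → ℝ × ℝ → ℝ} (hf0 : ∀ l t, 0 ≤ hf l t)
    (hF0 : ∀ p, 0 < Pool.Agent.Helper55.Mass.Id (hf p)) (hκ0 : ∀ l, ∀ t ∈ Sim, 0 ≤ κ l t)
    (hK0 : ∀ p, 0 ≤ Pool.Agent.Helper55.Mass.Id (κ p))
    {β : Fin 3 → ℝ} (hβ0 : ∀ p, 0 ≤ β p) (hβ1 : ∀ p, β p ≤ 1) {M : Fin 3 → Fin 3 → ℝ}
    (hM0 : ∀ l k, 0 ≤ M l k) {E R S : Fin 3 → ℝ} (hR : ∀ k, 0 ≤ R k) (hS : ∀ k, 0 ≤ S k)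
    {s0 ex : ℝ} (hex : s0 - (ζ 0 * R 0 + ζ 1 * R 1 + ζ 2 * R 2) ≤ ex) {el : Fin 3 → ℝ}
    (hel : ∀ l, E l ≤ el l) {t : ℝ × ℝ} (ht : t ∈ Sim) {xb : Fin 3 → ℝ}
    (hxb : ∀ k, xx N (vv t) k ≤ xb k) :
    GM A' N ζ ζp lam hf κ β M E R S s0 t ≤
      -(T3 t 0 * S 0 + T3 t 1 * S 1 + T3 t 2 * S 2)
      + ((xb 0 * (R 0 + (S 0 + (N 0 0 * S 0 + N 1 0 * S 1 + N 2 0 * S 2)))
          + xb 1 * (R 1 + (S 1 + (N 0 1 * S 0 + N 1 1 * S 1 + N 2 1 * S 2)))
          + xb 2 * (R 2 + (S 2 + (N 0 2 * S 0 + N 1 2 * S 1 + N 2 2 * S 2))))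
        + lam * alP N ζp t * ex
        + ∑ l, ash hf (fun p => Pool.Agent.Helper55.Mass.Id (hf p)) β A' l t * el l
        + ∑ l, ast κ (fun p => Pool.Agent.Helper55.Mass.Id (κ p)) β A' l t *
            (el l + (M l 0 * S 0 + M l 1 * S 1 + M l 2 * S 2))) := by
  rw [GM_eq]
  have ha : ∀ l, 0 ≤ ash hf (fun p => Pool.Agent.Helper55.Mass.Id (hf p)) β A' l t := fun l =>
    ash_nonneg (fun l t => hf0 l t) hA' hF0 hβ1 l t
  have hg : ∀ l, 0 ≤ ast κ (fun p => Pool.Agent.Helper55.Mass.Id (κ p)) β A' l t := fun l =>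
    ast_nonneg hκ0 hA' hβ0 hK0 l ht
  have v0 : ∀ j, 0 ≤ R j + (S j + (N 0 j * S 0 + N 1 j * S 1 + N 2 j * S 2)) := fun j => by
    have h0 := hR j
    have h1 := hS j
    have h2 := mul_nonneg (hN 0 j) (hS 0)
    have h3 := mul_nonneg (hN 1 j) (hS 1)
    have h4 := mul_nonneg (hN 2 j) (hS 2)
    linarith
  have p0 := mul_le_mul_of_nonneg_right (hxb 0) (v0 0)
  have p1 := mul_le_mul_of_nonneg_right (hxb 1) (v0 1)
  have p2 := mul_le_mul_of_nonneg_right (hxb 2) (v0 2)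
  have p3 := mul_le_mul_of_nonneg_left hex (mul_nonneg hlam (alP_nonneg (N := N) hζp t))
  have p4 : ∑ l, ash hf (fun p => Pool.Agent.Helper55.Mass.Id (hf p)) β A' l t *
      (E l - (M l 0 * R 0 + M l 1 * R 1 + M l 2 * R 2)) ≤
      ∑ l, ash hf (fun p => Pool.Agent.Helper55.Mass.Id (hf p)) β A' l t * el l := by
    refine Finset.sum_le_sum fun l _ => mul_le_mul_of_nonneg_left ?_ (ha l)
    have h0 := mul_nonneg (hM0 l 0) (hR 0)
    have h1 := mul_nonneg (hM0 l 1) (hR 1)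
    have h2 := mul_nonneg (hM0 l 2) (hR 2)
    have := hel l
    linarith
  have p5 : ∑ l, ast κ (fun p => Pool.Agent.Helper55.Mass.Id (κ p)) β A' l t *
      (E l + (M l 0 * S 0 + M l 1 * S 1 + M l 2 * S 2)) ≤
      ∑ l, ast κ (fun p => Pool.Agent.Helper55.Mass.Id (κ p)) β A' l t *
        (el l + (M l 0 * S 0 + M l 1 * S 1 + M l 2 * S 2)) := by
    refine Finset.sum_le_sum fun l _ => mul_le_mul_of_nonneg_left ?_ (hg l)
    have := hel l
    linarith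
  linarith

end

/-! ### the checks are convex in the parameters -/

theorem ng_conv {A m C C' f v x y : ℝ} (hA : 0 ≤ A) (hv0 : 0 ≤ v) (hv : v < 2)
    (hx : 0 ≤ x) (hy : 0 ≤ y) (hxy : x + y = 1) :
    ng A m (x * C + y * C') f v ≤ x * ng A m C f v + y * ng A m C' f v := by
  have dv : 0 < 1 - v / 2 := by linarith
  have k : pp ((x * C + y * C' - f) / m) ≤ x * pp ((C - f) / m) + y * pp ((C' - f) / m) := by
    refine max_le ?_ (add_nonneg (mul_nonneg hx (pp_nonneg _)) (mul_nonneg hy (pp_nonneg _)))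
    have k1 := mul_le_mul_of_nonneg_left (le_pp ((C - f) / m)) hx
    have k2 := mul_le_mul_of_nonneg_left (le_pp ((C' - f) / m)) hy
    have e : (x * C + y * C' - f) / m = x * ((C - f) / m) + y * ((C' - f) / m) := by
      have e1 : x * C + y * C' - f = x * (C - f) + y * (C' - f) := by
        linear_combination f * hxy
      rw [e1]
      ring
    linarith
  have h3 : 0 ≤ v / 2 / (1 - v / 2) := by positivity
  have k2 := mul_le_mul_of_nonneg_right (mul_le_mul_of_nonneg_left k hA) h3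
  unfold ng
  linarith

theorem Ci_conv {A m C C' D D' f u v om om' x y : ℝ} (hA : 0 ≤ A) (hv0 : 0 ≤ v)
    (hv : v < 2) (hx : 0 ≤ x) (hy : 0 ≤ y) (hxy : x + y = 1) (h1 : Ci A m C D f u v om)
    (h2 : Ci A m C' D' f u v om') :
    Ci A m (x * C + y * C') (x * D + y * D') f u v (x * om + y * om') := by
  have k0 := ng_conv (f := f) (m := m) (C := C) (C' := C') hA hv0 hv hx hy hxy
  unfold Ci at h1 h2 ⊢
  have k1 : max ((1 - (1 - (x * D + y * D')) / m) * u) ((1 - (1 - (x * D + y * D')) / m) * v) ≤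
      x * max ((1 - (1 - D) / m) * u) ((1 - (1 - D) / m) * v) +
        y * max ((1 - (1 - D') / m) * u) ((1 - (1 - D') / m) * v) := by
    have e : 1 - (1 - (x * D + y * D')) / m = x * (1 - (1 - D) / m) + y * (1 - (1 - D') / m) := by
      linear_combination (-1 + 1 / m) * hxy
    rw [e]
    refine max_le ?_ ?_
    · have q1 := mul_le_mul_of_nonneg_left
        (le_max_left ((1 - (1 - D) / m) * u) ((1 - (1 - D) / m) * v)) hx
      have q2 := mul_le_mul_of_nonneg_left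
        (le_max_left ((1 - (1 - D') / m) * u) ((1 - (1 - D') / m) * v)) hy
      linarith
    · have q1 := mul_le_mul_of_nonneg_left
        (le_max_right ((1 - (1 - D) / m) * u) ((1 - (1 - D) / m) * v)) hx
      have q2 := mul_le_mul_of_nonneg_left
        (le_max_right ((1 - (1 - D') / m) * u) ((1 - (1 - D') / m) * v)) hy
      linarith
  have k2 := mul_le_mul_of_nonneg_left k1 hA
  have k3 := mul_le_mul_of_nonneg_left h1 hx
  have k4 := mul_le_mul_of_nonneg_left h2 hy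
  have e2 : 0.127 * v / (1 - v / 2) =
      x * (0.127 * v / (1 - v / 2)) + y * (0.127 * v / (1 - v / 2)) := by
    rw [← add_mul, hxy, one_mul]
  rw [e2]
  linarith

theorem Cii_conv {A m C C' E E' f v om om' x y : ℝ} (hA : 0 ≤ A) (hv0 : 0 ≤ v)
    (hv : v < 2) (hx : 0 ≤ x) (hy : 0 ≤ y) (hxy : x + y = 1) (h1 : Cii A m C E f v om)
    (h2 : Cii A m C' E' f v om') :
    Cii A m (x * C + y * C') (x * E + y * E') f v (x * om + y * om') := by
  have k0 := ng_conv (f := f) (m := m) (C := C) (C' := C') hA hv0 hv hx hy hxy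
  unfold Cii at h1 h2 ⊢
  have e : (x * E + y * E' - f) / m = x * ((E - f) / m) + y * ((E' - f) / m) := by
    have e1 : x * E + y * E' - f = x * (E - f) + y * (E' - f) := by
      linear_combination f * hxy
    rw [e1]
    ring
  rw [e]
  have k3 := mul_le_mul_of_nonneg_left h1 hx
  have k4 := mul_le_mul_of_nonneg_left h2 hy
  have e2 : 0.127 * v / (1 - v / 2) =
      x * (0.127 * v / (1 - v / 2)) + y * (0.127 * v / (1 - v / 2)) := by
    rw [← add_mul, hxy, one_mul]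
  rw [e2]
  linarith

theorem Ciii_conv {m C C' ow ow' f x y : ℝ} (hx : 0 ≤ x) (hy : 0 ≤ y) (hxy : x + y = 1)
    (h1 : Ciii m C ow f) (h2 : Ciii m C' ow' f) :
    Ciii m (x * C + y * C') (x * ow + y * ow') f := by
  unfold Ciii at h1 h2 ⊢
  rcases hx.lt_or_eq with hx' | hx'
  · have k1 := mul_lt_mul_of_pos_left h1 hx'
    have k2 := mul_le_mul_of_nonneg_left h2.le hy
    have e : f = x * f + y * f := by rw [← add_mul, hxy, one_mul]
    linarith
  · rw [← hx', zero_add] at hxy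
    rw [← hx', hxy]
    linarith

end Helper78.MEI
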