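import Pool.Agent.Helper78.MEI.PtA
import Pool.Agent.Helper55.MEI.Fill2
import Pool.Agent.Helper55.MEI.Br

/-!
# Project MEI (M2), faces: the face theorem for a certificate `G` with cost `ω`

* `face_cert`: `A' Id G - (√2)⁻¹ ∫ ω M3 ≤ Wi` for any certificate `G` and cost `ω`;
* `fill_Yt`: the pointwise bound of the coupling by the exact filling of helper55 (contact nodes,
  any finite family of extra nodes, caps);
* `face_fill`: both, with the closed form of the masses.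
-/

namespace Helper78.MEI

open Set Metric MeasureTheory Real Helper80.CW Helper82.CW Helper14.CW Helper22.Sig
open Helper22.Wedge Helper14.MEI2 Pool.Agent.Helper73.MEI Helper33.MEI Helper93.MEI
open Pool.Agent.Helper52.MEI
open Pool.Agent.Helper55.Sx (Sim mm mm_pos mm_cont mt_mm deg1 int_Dl)
open Pool.Agent.Helper55.Mass (LN vv vv_nonneg vv_le B0)
open Pool.Agent.Helper55.Apex (nc)
open Pool.Agent.Helper55.Fill (xx rr xe wc xe_bal rr_nonneg xx_meas rr_meas xx_nonneg xx_le)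
open scoped RealInnerProductSpace ENNReal

variable {a : Fin 4 → E3}

theorem Dl_Sim : (Dl : Set (ℝ × ℝ)) ⊆ Sim := by
  rintro t ⟨h1, h2, h3⟩
  exact ⟨h1.le, h2.le, h3.le⟩

theorem inv_sqrt_le (t : ℝ × ℝ) : (√(Helper33.MEI.mt t))⁻¹ ≤ 1.25 := by
  have h1 : (2 : ℝ) / 3 ≤ Helper33.MEI.mt t := mt_ge
  have h2 : (0.8 : ℝ) ≤ √(Helper33.MEI.mt t) := by
    apply Real.le_sqrt_of_sq_le
    norm_num
    linarith
  rw [show (1.25 : ℝ) = (0.8)⁻¹ by norm_num]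
  exact inv_anti₀ (by norm_num) h2

section split
variable {A' : ℝ} {G ω : ℝ × ℝ → ℝ} {C1 C2 : ℝ}

theorem cert_bd (hA : 0 ≤ A') (hGC : ∀ t ∈ Sim, |G t| ≤ C1) (hωC : ∀ t ∈ Dl, |ω t| ≤ C2)
    {t : ℝ × ℝ} (ht : t ∈ Dl) :
    |A' * (G t / √(Helper33.MEI.mt t)) - ω t| ≤ A' * (C1 * 1.25) + C2 := by
  have h1 := hGC t (Dl_Sim ht)
  have h2 := hωC t ht
  have hi := inv_sqrt_le t
  have hi0 : 0 ≤ (√(Helper33.MEI.mt t))⁻¹ := by positivity
  have h3 : |G t / √(Helper33.MEI.mt t)| ≤ C1 * 1.25 := by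
    rw [div_eq_mul_inv, abs_mul, abs_of_nonneg hi0]
    exact mul_le_mul h1 hi hi0 ((abs_nonneg _).trans h1)
  calc |A' * (G t / √(Helper33.MEI.mt t)) - ω t|
      ≤ |A' * (G t / √(Helper33.MEI.mt t))| + |ω t| := abs_sub _ _
    _ ≤ A' * (C1 * 1.25) + C2 := by
        rw [abs_mul, abs_of_nonneg hA]
        exact add_le_add (mul_le_mul_of_nonneg_left h3 hA) h2

theorem cert_meas (hG : Measurable G) (hω : AEStronglyMeasurable ω (volume.restrict Dl)) :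
    AEStronglyMeasurable (fun t => A' * (G t / √(Helper33.MEI.mt t)) - ω t)
      (volume.restrict Dl) := by
  have h1 : Measurable fun t => A' * (G t / √(Helper33.MEI.mt t)) :=
    (hG.div (Real.continuous_sqrt.comp mt_cont).measurable).const_mul A'
  exact h1.aestronglyMeasurable.sub hω

theorem on_Dl {f : ℝ × ℝ → ℝ} {C : ℝ} (hf : AEStronglyMeasurable f (volume.restrict Dl))
    (hC : ∀ t ∈ Dl, |f t| ≤ C) : IntegrableOn (fun t => f t * M3 t) Dl := by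
  have hfin : IsFiniteMeasure ((volume : Measure (ℝ × ℝ)).restrict Dl) :=
    ⟨by rw [Measure.restrict_apply_univ]; exact Dl_fin⟩
  refine Integrable.of_bound (hf.mul M3_cont.aestronglyMeasurable) (C * 2) ?_
  filter_upwards [ae_restrict_mem Dl_meas] with t ht
  rw [Real.norm_eq_abs, abs_mul, abs_of_nonneg (M3_pos t).le]
  have h := hC t ht
  exact mul_le_mul h (M3_le t) (M3_pos t).le ((abs_nonneg _).trans h)

theorem split (A' : ℝ) (hG : Measurable G) (hGC : ∀ t ∈ Sim, |G t| ≤ C1)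
    (hω : AEStronglyMeasurable ω (volume.restrict Dl)) (hωC : ∀ t ∈ Dl, |ω t| ≤ C2) :
    (√2)⁻¹ * ∫ t in Dl, (A' * (G t / √(Helper33.MEI.mt t)) - ω t) * M3 t =
      A' * Pool.Agent.Helper55.Mass.Id G - (√2)⁻¹ * ∫ t in Dl, ω t * M3 t := by
  have hm : Measurable fun t => G t / √(Helper33.MEI.mt t) :=
    hG.div (Real.continuous_sqrt.comp mt_cont).measurable
  have i1 : IntegrableOn (fun t => (G t / √(Helper33.MEI.mt t)) * M3 t) Dl := by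
    refine on_Dl (C := C1 * 1.25) hm.aestronglyMeasurable fun t ht => ?_
    have h1 := hGC t (Dl_Sim ht)
    have hi := inv_sqrt_le t
    have hi0 : 0 ≤ (√(Helper33.MEI.mt t))⁻¹ := by positivity
    rw [div_eq_mul_inv, abs_mul, abs_of_nonneg hi0]
    exact mul_le_mul h1 hi hi0 ((abs_nonneg _).trans h1)
  have i2 := on_Dl hω hωC
  have e : ∀ t : ℝ × ℝ, (A' * (G t / √(Helper33.MEI.mt t)) - ω t) * M3 t =
      A' * ((G t / √(Helper33.MEI.mt t)) * M3 t) - ω t * M3 t := fun t => by ring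
  simp only [e]
  rw [integral_sub (i1.const_mul A') i2, integral_const_mul, mul_sub]
  have hd := deg1 G
  unfold Pool.Agent.Helper55.Mass.Id
  rw [← hd]
  ring

end split

variable {σ : Measure (E3 × E3)} [IsFiniteMeasure σ] {K : Set E3}

/-- **face theorem for a certificate `G` with the cost `ω`** -/
theorem face_cert (h : PM K σ) (ha : ∀ i j, i ≠ j → dist (a i) (a j) = 1)
    (hull : ∀ p, (∀ q ∈ K, ‖p - q‖ ≤ 1) → p ∈ K) (hQ : ∀ i, ∀ q ∈ K, Qv a i q ≤ 3 / 16)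
    (τ : Equiv.Perm (Fin 4)) {A : ℝ} (hA : 7 / 2 ≤ A) {G ω : ℝ × ℝ → ℝ} {C1 C2 : ℝ}
    (hG : Measurable G) (hGC : ∀ t ∈ Sim, |G t| ≤ C1)
    (hω : AEStronglyMeasurable ω (volume.restrict Dl)) (hωC : ∀ t ∈ Dl, |ω t| ≤ C2)
    {s : ℝ × ℝ → ℝ} (hs : ∀ t ∈ Dl, 0 ≤ s t)
    (own : ∀ p ∈ K, tx (fun i => a (τ i)) p ∈ Dl →
      Qv a (τ 0) p ≤ s (tx (fun i => a (τ i)) p))
    (hP : ∀ t ∈ Dl, ∀ q ∈ K,
      Yt (fun i => a (τ i)) t q / √(Helper33.MEI.mt t) - ‖a (τ 0) - q‖ ^ 2 ≤ s t →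
      (A / 2 + 1 / 8) * (G t / √(Helper33.MEI.mt t)) - ω t ≤
        ff (A / 2 + 1 / 8)
          (Yt (fun i => a (τ i)) t q / √(Helper33.MEI.mt t) - ‖a (τ 0) - q‖ ^ 2)
          (‖a (τ 0) - q‖ ^ 2)) :
    (A / 2 + 1 / 8) * Pool.Agent.Helper55.Mass.Id G - (√2)⁻¹ * ∫ t in Dl, ω t * M3 t ≤
      Wi a (τ 0) K σ A := by
  have hA' : 0 ≤ A / 2 + 1 / 8 := by linarith
  rw [← split (A / 2 + 1 / 8) hG hGC hω hωC]
  exact face_pt h ha hull hQ τ hA (cert_meas hG hω) (fun t ht => cert_bd hA' hGC hωC ht) hs own hP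

/-! ### the exact filling -/

section fill
variable {N : Fin 3 → Fin 3 → ℝ} {ι : Type*} [Fintype ι]

/-- mass deficit of the filling -/
noncomputable def Dd (N : Fin 3 → Fin 3 → ℝ) (al : ι → ℝ × ℝ → ℝ) (ζ : ι → Fin 3 → ℝ)
    (μ : Fin 3 → ℝ) (μx : ι → ℝ) (t : ℝ × ℝ) : ℝ :=
  ∑ j, xe N al ζ t j * (1 + nc N j - μ j)
    + ∑ m, al m t * ((∑ k, (ζ m k + LN N (ζ m) k)) - μx m)

/-- value of the filling -/
noncomputable def Gd (N : Fin 3 → Fin 3 → ℝ) (al : ι → ℝ × ℝ → ℝ) (ζ : ι → Fin 3 → ℝ)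
    (L : ι → ℝ) (R S : Fin 3 → ℝ) (t : ℝ × ℝ) : ℝ :=
  ∑ m, al m t * L m
    + (xe N al ζ t 0 * R 0 + xe N al ζ t 1 * R 1 + xe N al ζ t 2 * R 2)
    - (rr N (vv t) 0 * S 0 + rr N (vv t) 1 * S 1 + rr N (vv t) 2 * S 2)

theorem T3_vv (t : ℝ × ℝ) (k : Fin 3) : T3 t k = vv t k := by
  fin_cases k <;> rfl

/-- **pointwise bound of the coupling by the exact filling** -/
theorem fill_Yt (h : Gram4 (al a)) (hN : ∀ k m, 0 ≤ N k m) {c : ℝ} (hc : c < 1)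
    (hcol : ∀ m, nc N m ≤ c) {al : ι → ℝ × ℝ → ℝ} {ζ : ι → Fin 3 → ℝ} {L μx : ι → ℝ}
    {R S μ : Fin 3 → ℝ} {q : E3} {t : ℝ × ℝ} (ht : t ∈ Sim) (hal : ∀ m, 0 ≤ al m t)
    (hxe : ∀ j, 0 ≤ xe N al ζ t j)
    (nodes : ∀ j, Load a q (R j) (μ j) (fun k => (if k = j then 1 else 0) + N k j))
    (extra : ∀ m, Load a q (L m) (μx m) (fun k => ζ m k + LN N (ζ m) k))
    (h1 : Qv a 1 q ≤ S 0) (h2 : Qv a 2 q ≤ S 1) (h3 : Qv a 3 q ≤ S 2) :
    Gd N al ζ L R S t + (1 - Dd N al ζ μ μx t) * ‖a 0 - q‖ ^ 2 ≤ Yt a t q := by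
  have l1 := Load.sum (Finset.univ : Finset (Fin 3)) (q := q) (L := fun j => xe N al ζ t j * R j)
    (m := fun j => xe N al ζ t j * μ j)
    (M := fun j => fun k => xe N al ζ t j * ((if k = j then 1 else 0) + N k j))
    (fun j _ => (nodes j).smul (hxe j))
  have l2 := Load.sum (Finset.univ : Finset ι) (q := q) (L := fun m => al m t * L m)
    (m := fun m => al m t * μx m)
    (M := fun m => fun k => al m t * (ζ m k + LN N (ζ m) k))
    (fun m _ => (extra m).smul (hal m))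
  have l := l1.add l2
  have hM : ∀ k, (∑ j, xe N al ζ t j * ((if k = j then (1 : ℝ) else 0) + N k j)) +
      ∑ m, al m t * (ζ m k + LN N (ζ m) k) = T3 t k - rr N (vv t) k := by
    intro k
    have hb := xe_bal (N := N) al ζ t k
    rw [T3_vv, ← hb]
    have e : ∑ j, xe N al ζ t j * ((if k = j then (1 : ℝ) else 0) + N k j) =
        xe N al ζ t k + LN N (xe N al ζ t) k := by
      simp only [Fin.sum_univ_three, LN]
      fin_cases k <;> simp <;> ring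
    rw [e]
    ring
  have hr := fun k => rr_nonneg hN hc hcol (fun k => vv_nonneg ht k) k
  have key := Yt_load_caps h (t := t) l (fun k => by
    rw [hM k]
    have := hr k
    linarith) h1 h2 h3
  beta_reduce at key
  rw [hM 0, hM 1, hM 2] at key
  have e1 : (T3 t 0 - rr N (vv t) 0) + (T3 t 1 - rr N (vv t) 1) + (T3 t 2 - rr N (vv t) 2)
      - (∑ j, xe N al ζ t j * μ j + ∑ m, al m t * μx m) = Dd N al ζ μ μx t := by
    rw [← hM 0, ← hM 1, ← hM 2]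
    unfold Dd
    simp only [Fin.sum_univ_three, nc, mul_sub, Finset.sum_sub_distrib,
      mul_add, Finset.sum_add_distrib]
    simp
    ring
  rw [e1] at key
  have e2 : (∑ j, xe N al ζ t j * R j + ∑ m, al m t * L m)
      - ((T3 t 0 - (T3 t 0 - rr N (vv t) 0)) * S 0 + (T3 t 1 - (T3 t 1 - rr N (vv t) 1)) * S 1
        + (T3 t 2 - (T3 t 2 - rr N (vv t) 2)) * S 2) = Gd N al ζ L R S t := by
    unfold Gd
    simp only [Fin.sum_univ_three]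
    ring
  rw [e2] at key
  exact key

theorem Gd_meas (hN : ∀ k m, 0 ≤ N k m) {c : ℝ} (hc : c < 1) (hcol : ∀ m, nc N m ≤ c)
    {al : ι → ℝ × ℝ → ℝ} (halm : ∀ m, Measurable (al m)) (ζ : ι → Fin 3 → ℝ) (L : ι → ℝ)
    (R S : Fin 3 → ℝ) : Measurable (Gd N al ζ L R S) := by
  have hx : ∀ j, Measurable fun t => xe N al ζ t j := by
    intro j
    unfold xe
    exact (xx_meas hN hc hcol j).sub
      (Finset.measurable_fun_sum _ fun m _ => (halm m).mul_const _)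
  unfold Gd
  exact ((Finset.measurable_fun_sum _ fun m _ => (halm m).mul_const _).add
    ((((hx 0).mul_const _).add ((hx 1).mul_const _)).add ((hx 2).mul_const _))).sub
      ((((rr_meas hN hc hcol 0).mul_const _).add ((rr_meas hN hc hcol 1).mul_const _)).add
        ((rr_meas hN hc hcol 2).mul_const _))

theorem Gd_bd (hN : ∀ k m, 0 ≤ N k m) {c : ℝ} (hc : c < 1) (hcol : ∀ m, nc N m ≤ c)
    {al : ι → ℝ × ℝ → ℝ} {Ca : ℝ} (hal : ∀ m, ∀ t ∈ Sim, |al m t| ≤ Ca) (ζ : ι → Fin 3 → ℝ)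
    (L : ι → ℝ) (R S : Fin 3 → ℝ) : ∃ C, ∀ t ∈ Sim, |Gd N al ζ L R S t| ≤ C := by
  have hr : ∀ t ∈ Sim, ∀ k, |rr N (vv t) k| ≤ 1 := by
    intro t ht k
    have hb := fun k => vv_nonneg ht k
    rw [abs_of_nonneg (rr_nonneg hN hc hcol hb k)]
    have h1 := xx_nonneg hN hc hcol hb k
    have h2 := Pool.Agent.Helper55.Mass.LN_nonneg hN (xx_nonneg hN hc hcol hb) k
    have h3 := vv_le ht k
    unfold rr
    linarith
  have hxx : ∀ t ∈ Sim, ∀ k, |xx N (vv t) k| ≤ 1 := by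
    intro t ht k
    have hb := fun k => vv_nonneg ht k
    rw [abs_of_nonneg (xx_nonneg hN hc hcol hb k)]
    exact (xx_le hN hc hcol hb k).trans (vv_le ht k)
  have hsum : ∀ (f : ι → ℝ), ∀ t ∈ Sim, |∑ m, al m t * f m| ≤ Ca * ∑ m, |f m| := by
    intro f t ht
    calc |∑ m, al m t * f m| ≤ ∑ m, |al m t * f m| := Finset.abs_sum_le_sum_abs _ _
      _ ≤ ∑ m, Ca * |f m| := Finset.sum_le_sum fun m _ => by
          rw [abs_mul]
          exact mul_le_mul_of_nonneg_right (hal m t ht) (abs_nonneg _)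
      _ = Ca * ∑ m, |f m| := by rw [Finset.mul_sum]
  refine ⟨Ca * ∑ m, |L m| + ((1 + Ca * ∑ m, |ζ m 0|) * |R 0| + (1 + Ca * ∑ m, |ζ m 1|) * |R 1|
    + (1 + Ca * ∑ m, |ζ m 2|) * |R 2|) + (|S 0| + |S 1| + |S 2|), fun t ht => ?_⟩
  have hx : ∀ j, |xe N al ζ t j * R j| ≤ (1 + Ca * ∑ m, |ζ m j|) * |R j| := by
    intro j
    rw [abs_mul]
    refine mul_le_mul_of_nonneg_right ?_ (abs_nonneg _)
    unfold xe
    exact (abs_sub _ _).trans (add_le_add (hxx t ht j) (hsum (fun m => ζ m j) t ht))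
  have hs : ∀ j, |rr N (vv t) j * S j| ≤ |S j| := by
    intro j
    rw [abs_mul]
    have := mul_le_mul_of_nonneg_right (hr t ht j) (abs_nonneg (S j))
    linarith
  unfold Gd
  have a0 := abs_le.1 (hsum L t ht)
  have a1 := abs_le.1 (hx 0)
  have a2 := abs_le.1 (hx 1)
  have a3 := abs_le.1 (hx 2)
  have b1 := abs_le.1 (hs 0)
  have b2 := abs_le.1 (hs 1)
  have b3 := abs_le.1 (hs 2)
  rw [abs_le]
  constructor <;> linarith [a0.1, a0.2, a1.1, a1.2, a2.1, a2.2, a3.1, a3.2, b1.1, b1.2, b2.1, b2.2,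
    b3.1, b3.2]

theorem Gd_value (hN : ∀ k m, 0 ≤ N k m) (hd : ∀ k, N k k = 0) {c : ℝ}
    (hc : c < 1) (hcol : ∀ m, nc N m ≤ c) {al : ι → ℝ × ℝ → ℝ}
    (hal : ∀ m, IntegrableOn (fun t => al m t / mm t ^ 2) Sim) {ζ : ι → Fin 3 → ℝ} {L : ι → ℝ}
    {R S : Fin 3 → ℝ} (hR : ∀ k, 0 ≤ R k) (hS : ∀ k, 0 ≤ S k) :
    ∑ m, (L m - (ζ m 0 * R 0 + ζ m 1 * R 1 + ζ m 2 * R 2)) * Pool.Agent.Helper55.Mass.Id (al m)
      + ((B0 * (1 - N 0 1 - N 0 2) - wc N 0 1 2) * R 0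
        + (B0 * (1 - N 1 0 - N 1 2) - wc N 1 0 2) * R 1
        + (B0 * (1 - N 2 0 - N 2 1) - wc N 2 0 1) * R 2)
      - (wc N 0 1 2 * S 0 + wc N 1 0 2 * S 1 + wc N 2 0 1 * S 2)
      ≤ Pool.Agent.Helper55.Mass.Id (Gd N al ζ L R S) :=
  Pool.Agent.Helper55.Fill.value hN hd hc hcol hal hR hS

/-- **THE FACE THEOREM FOR THE EXACT FILLING.** `τ 0` = vertex, contact nodes (values `R`, masses
`μ`, columns `1 + N`), extra nodes (values `L`, masses `μx`, contact coordinates `ζ`, loads `al`),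
caps `S`, own bound `s`, cost `ω` of the term with `w = ‖a (τ 0) - q‖ ^ 2`. -/
theorem face_fill (h : PM K σ) (ha : ∀ i j, i ≠ j → dist (a i) (a j) = 1)
    (hull : ∀ p, (∀ q ∈ K, ‖p - q‖ ≤ 1) → p ∈ K) (hQ : ∀ i, ∀ q ∈ K, Qv a i q ≤ 3 / 16)
    (τ : Equiv.Perm (Fin 4)) {A : ℝ} (hA : 7 / 2 ≤ A)
    (hN : ∀ k m, 0 ≤ N k m) (hd : ∀ k, N k k = 0) {c : ℝ} (hc : c < 1) (hcol : ∀ m, nc N m ≤ c)
    {al : ι → ℝ × ℝ → ℝ} (halm : ∀ m, Measurable (al m)) (hal : ∀ m, ∀ t ∈ Sim, 0 ≤ al m t)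
    {Ca : ℝ} (halC : ∀ m, ∀ t ∈ Sim, al m t ≤ Ca)
    {ζ : ι → Fin 3 → ℝ} {L μx : ι → ℝ} {R S μ : Fin 3 → ℝ} (hR : ∀ k, 0 ≤ R k)
    (hS : ∀ k, 0 ≤ S k) (hxe : ∀ t ∈ Sim, ∀ j, 0 ≤ xe N al ζ t j)
    (nodes : ∀ q ∈ K, ∀ j, Load (fun i => a (τ i)) q (R j) (μ j)
      (fun k => (if k = j then 1 else 0) + N k j))
    (extra : ∀ q ∈ K, ∀ m, Load (fun i => a (τ i)) q (L m) (μx m)
      (fun k => ζ m k + LN N (ζ m) k))
    (caps : ∀ q ∈ K, Qv a (τ 1) q ≤ S 0 ∧ Qv a (τ 2) q ≤ S 1 ∧ Qv a (τ 3) q ≤ S 2)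
    {ω : ℝ × ℝ → ℝ} {C2 : ℝ}
    (hω : AEStronglyMeasurable ω (volume.restrict Dl)) (hωC : ∀ t ∈ Dl, |ω t| ≤ C2)
    {s : ℝ × ℝ → ℝ} (hs : ∀ t ∈ Dl, 0 ≤ s t)
    (own : ∀ p ∈ K, tx (fun i => a (τ i)) p ∈ Dl →
      Qv a (τ 0) p ≤ s (tx (fun i => a (τ i)) p))
    (hP : ∀ t ∈ Dl, ∀ q ∈ K,
      Yt (fun i => a (τ i)) t q / √(Helper33.MEI.mt t) - ‖a (τ 0) - q‖ ^ 2 ≤ s t →
      Gd N al ζ L R S t + (1 - Dd N al ζ μ μx t) * ‖a (τ 0) - q‖ ^ 2 ≤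
        Yt (fun i => a (τ i)) t q →
      (A / 2 + 1 / 8) * (Gd N al ζ L R S t / √(Helper33.MEI.mt t)) - ω t ≤
        ff (A / 2 + 1 / 8)
          (Yt (fun i => a (τ i)) t q / √(Helper33.MEI.mt t) - ‖a (τ 0) - q‖ ^ 2)
          (‖a (τ 0) - q‖ ^ 2)) :
    (A / 2 + 1 / 8) *
      (∑ m, (L m - (ζ m 0 * R 0 + ζ m 1 * R 1 + ζ m 2 * R 2)) * Pool.Agent.Helper55.Mass.Id (al m)
      + ((B0 * (1 - N 0 1 - N 0 2) - wc N 0 1 2) * R 0
        + (B0 * (1 - N 1 0 - N 1 2) - wc N 1 0 2) * R 1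
        + (B0 * (1 - N 2 0 - N 2 1) - wc N 2 0 1) * R 2)
      - (wc N 0 1 2 * S 0 + wc N 1 0 2 * S 1 + wc N 2 0 1 * S 2))
      - (√2)⁻¹ * ∫ t in Dl, ω t * M3 t ≤ Wi a (τ 0) K σ A := by
  have ha' : ∀ i j, i ≠ j → dist (a (τ i)) (a (τ j)) = 1 :=
    fun i j hij => ha _ _ fun h => hij (τ.injective h)
  have hgr := gram_of_dist ha'
  have halA : ∀ m, ∀ t ∈ Sim, |al m t| ≤ Ca := fun m t ht => by
    rw [abs_of_nonneg (hal m t ht)]
    exact halC m t ht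
  obtain ⟨C1, hC1⟩ := Gd_bd hN hc hcol halA ζ L R S
  have hint : ∀ m, IntegrableOn (fun t => al m t / mm t ^ 2) Sim := fun m =>
    Pool.Agent.Helper55.Mass.intOn (halm m) (halA m)
  have hv := Gd_value hN hd hc hcol hint (ζ := ζ) (L := L) hR hS
  have key := face_cert h ha hull hQ τ hA (Gd_meas hN hc hcol halm ζ L R S) hC1 hω hωC hs own
    (fun t ht q hq hX => hP t ht q hq hX (fill_Yt hgr hN hc hcol (Dl_Sim ht)
      (fun m => hal m t (Dl_Sim ht)) (hxe t (Dl_Sim ht)) (nodes q hq) (extra q hq)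
      (caps q hq).1 (caps q hq).2.1 (caps q hq).2.2))
  have hA' : 0 ≤ A / 2 + 1 / 8 := by linarith
  have hv' := mul_le_mul_of_nonneg_left hv hA'
  linarith only [hv', key]

end fill

end Helper78.MEI
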