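import Pool.Agent.Helper78.MEI.FaceI

/-!
# Project MEI (M2): the face theorem of a placed body, general inside functions of the arcs

As `face_instP`; the part of the arcs inside of the cone uses arbitrary functions `hf l` (helper22):
`lam alP ζp k + (hf 0 + hf 1 + hf 2) - hf k ≤ x_k` on the cone, `ρ p - A' kp p ≤ A' Id (hf p)`.
-/

namespace Helper78.MEI

open Set Metric MeasureTheory Helper80.CW Helper82.CW Helper14.CW Helper93.MEI Helper82.M2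
open Helper14.MEI2 Pool.Agent.Helper52.MEI Pool.Agent.Helper73.MEI Helper37.MEI Helper41.MEI
open Helper33.MEI (Wi Dl tx M3)
open Pool.Agent.Helper55.Sx (Sim mm mm_pos mm_cont mt_mm deg1 int_Dl)
open Pool.Agent.Helper55.Mass (LN LN_nonneg vv vv_nonneg vv_le B0 intOn)
open Pool.Agent.Helper55.Apex (nc vt_vv)
open Pool.Agent.Helper55.ApexP (PN alP alP_nonneg alP_zeta alP_meas alP_bound xx_mu alP_int)
open Pool.Agent.Helper55.Fill (xx rr xe wc xe_bal rr_nonneg xx_meas rr_meas xx_nonneg xx_le rr_int)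
open Pool.Agent.Helper31.SR
open Helper75.MEI2 (mu vt)
open scoped RealInnerProductSpace ENNReal

variable {a : Fin 4 → E3} {σ : Measure (E3 × E3)} {K : Set E3} {S : Fin 4 → ℝ}
  {c : Fin 4 → E3} {z : Fin 4 → Fin 4 → E3}

section inside
variable {N : Fin 3 → Fin 3 → ℝ} {ζ ζp : Fin 3 → ℝ} {hf : Fin 3 → ℝ × ℝ → ℝ}
  {F β ρ : Fin 3 → ℝ} {A' lam : ℝ}

/-- feasibility in the cone -/
theorem ash_feas3 (hN : ∀ k m, 0 ≤ N k m) (hd : ∀ k, N k k = 0) {c : ℝ} (hc : c < 1)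
    (hcol : ∀ m, nc N m ≤ c) (hζp : ∀ k, 0 < ζp k) (hζ : ∀ k, ζ k ≤ ζp k)
    (hf0 : ∀ l, ∀ t, 0 ≤ hf l t)
    (hfz : ∀ l, ∀ t, (¬ ∀ k, 0 ≤ mu (PN N) (vt t) k) → hf l t = 0)
    (hfx : ∀ t, (∀ k, 0 ≤ mu (PN N) (vt t) k) → ∀ k,
      lam * alP N ζp t * ζp k + ((hf 0 t + hf 1 t + hf 2 t) - hf k t) ≤ mu (PN N) (vt t) k)
    (hl0 : 0 ≤ lam) (hA' : 0 < A') (hF0 : ∀ l, 0 < F l)
    (hF : ∀ l, (1 - β l) * ρ l ≤ A' * F l) {t : ℝ × ℝ} (ht : t ∈ Sim) (k : Fin 3) :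
    lam * alP N ζp t * ζ k + ∑ l, ash hf F β A' l t * Mr ρ l k ≤ xx N (vv t) k := by
  rw [Fin.sum_univ_three]
  have hx0 := xx_nonneg hN hc hcol (fun k => vv_nonneg ht k) k
  by_cases h : ∀ k, 0 ≤ mu (PN N) (vt t) k
  · have h2 : xx N (vv t) k = mu (PN N) (vt t) k := by
      rw [← vt_vv, xx_mu hN hd hc hcol h]
    have ha0 := alP_nonneg (N := N) hζp t
    have hz := mul_le_mul_of_nonneg_left (hζ k) (mul_nonneg hl0 ha0)
    have arc : ∀ l, ash hf F β A' l t * Mr ρ l k ≤ (if l = k then 0 else hf l t) := by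
      intro l
      unfold Mr
      by_cases hlk : l = k
      · rw [if_pos hlk, if_pos hlk]
        simp
      · rw [if_neg hlk, if_neg hlk]
        have hAF : 0 < A' * F l := mul_pos hA' (hF0 l)
        have g0 : 0 ≤ hf l t / (A' * F l) := div_nonneg (hf0 l t) hAF.le
        have g3 := mul_le_mul_of_nonneg_left (hF l) g0
        have g2 : hf l t / (A' * F l) * (A' * F l) = hf l t := div_mul_cancel₀ _ hAF.ne'
        unfold ash
        linarith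
    have a0 := arc 0
    have a1 := arc 1
    have a2 := arc 2
    have hsum : (if (0 : Fin 3) = k then 0 else hf 0 t) + (if (1 : Fin 3) = k then 0 else hf 1 t)
        + (if (2 : Fin 3) = k then 0 else hf 2 t) = (hf 0 t + hf 1 t + hf 2 t) - hf k t := by
      fin_cases k <;> simp <;> ring
    have hfk := hfx t h k
    rw [← hsum] at hfk
    rw [h2]
    linarith
  · have h1 : alP N ζp t = 0 := by
      unfold alP
      rw [if_neg h]
    unfold ash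
    rw [h1, hfz 0 t h, hfz 1 t h, hfz 2 t h]
    simpa using hx0

theorem hf_le_one (hN : ∀ k m, 0 ≤ N k m) (hd : ∀ k, N k k = 0) {c : ℝ} (hc : c < 1)
    (hcol : ∀ m, nc N m ≤ c) (hζp : ∀ k, 0 < ζp k) (hf0 : ∀ l, ∀ t, 0 ≤ hf l t)
    (hfz : ∀ l, ∀ t, (¬ ∀ k, 0 ≤ mu (PN N) (vt t) k) → hf l t = 0)
    (hfx : ∀ t, (∀ k, 0 ≤ mu (PN N) (vt t) k) → ∀ k,
      lam * alP N ζp t * ζp k + ((hf 0 t + hf 1 t + hf 2 t) - hf k t) ≤ mu (PN N) (vt t) k)
    (hl0 : 0 ≤ lam) (l : Fin 3) {t : ℝ × ℝ} (ht : t ∈ Sim) : hf l t ≤ 1 :=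
  f_le_one hN hd hc hcol hf0 hfz (fun t h k => by
    have h1 := hfx t h k
    have h2 := mul_nonneg (mul_nonneg hl0 (alP_nonneg (N := N) hζp t)) (hζp k).le
    linarith) l ht

end inside

/-- the certificate, general inside functions -/
noncomputable def GH (A' : ℝ) (N : Fin 3 → Fin 3 → ℝ) (ζ ζp : Fin 3 → ℝ) (lam : ℝ)
    (hf κ : Fin 3 → ℝ × ℝ → ℝ) (β ρ E R S : Fin 3 → ℝ) (s0 : ℝ) : ℝ × ℝ → ℝ :=
  Gg N (fun _ : Unit => fun t => lam * alP N ζp t) (fun _ => ζ) (fun _ => s0)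
    (ash hf (fun p => Pool.Agent.Helper55.Mass.Id (hf p)) β A')
    (ast κ (fun p => Pool.Agent.Helper55.Mass.Id (κ p)) β A') (Mr ρ) E R S

/-- the exact mass deficit, general inside functions -/
noncomputable def DH (A' : ℝ) (N : Fin 3 → Fin 3 → ℝ) (ζ ζp : Fin 3 → ℝ) (lam : ℝ)
    (hf κ : Fin 3 → ℝ × ℝ → ℝ) (β ρ μ sm : Fin 3 → ℝ) : ℝ × ℝ → ℝ :=
  Dg N (fun _ : Unit => fun t => lam * alP N ζp t) (fun _ => ζ) μ (fun _ => 1)
    (ash hf (fun p => Pool.Agent.Helper55.Mass.Id (hf p)) β A')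
    (ast κ (fun p => Pool.Agent.Helper55.Mass.Id (κ p)) β A') (Mr ρ) sm

/-- **THE FACE OF THE VERTEX `τ 0`, ALL LOADS INSERTED, FREE SECOND ORDER TERM,
general inside functions** -/
theorem face_instH [IsFiniteMeasure σ] (h : CN K σ a c) (v : Viol K a S) (hz : CV a K z)
    (τ : Equiv.Perm (Fin 4)) {A : ℝ} (hA : 7 / 2 ≤ A)
    {l : Fin 3 → Bool → Bool → E3 × E3 → ℝ} (hl : Lok a l)
    {δ dE dm : Fin 3 → ℝ} (hδ : ∀ p, MA σ a l τ p p ≤ δ p) (hdE : ∀ p, 0 ≤ dE p)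
    (hdm : ∀ p, 0 ≤ dm p) (hdd : ∀ p, δ p ^ 2 ≤ dE p * dm p)
    {ρ kp β : Fin 3 → ℝ} (hρ : ∀ p, 0 < ρ p)
    (hMρ : ∀ p k, k ≠ p → MA σ a l τ p k ≤ ρ p)
    {x : E3} (hx : x ∈ K)
    {N : Fin 3 → Fin 3 → ℝ} (hNd : N = NM (fun i => a (τ i)) (fun i j => z (τ i) (τ j)))
    {R : Fin 3 → ℝ} (hRd : R = RM (fun i => a (τ i)) (fun i j => z (τ i) (τ j)))
    {ζ ζp : Fin 3 → ℝ} (hζp : ∀ k, 0 < ζp k) (hζ : ∀ k, ζ k ≤ ζp k)
    (hb : ∀ k, b3 (fun i => a (τ i)) x k ≤ ζ k + LN N ζ k)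
    {lam : ℝ} (hl0 : 0 ≤ lam)
    {hf : Fin 3 → ℝ × ℝ → ℝ} (hfm : ∀ l, Measurable (hf l)) (hf0 : ∀ l, ∀ t, 0 ≤ hf l t)
    (hfz : ∀ l, ∀ t, (¬ ∀ k, 0 ≤ mu (PN N) (vt t) k) → hf l t = 0)
    (hfx : ∀ t, (∀ k, 0 ≤ mu (PN N) (vt t) k) → ∀ k,
      lam * alP N ζp t * ζp k + ((hf 0 t + hf 1 t + hf 2 t) - hf k t) ≤ mu (PN N) (vt t) k)
    {κ : Fin 3 → ℝ × ℝ → ℝ} (hκm : ∀ l, Measurable (κ l)) (hκ0 : ∀ l, ∀ t ∈ Sim, 0 ≤ κ l t)
    {Ck : ℝ} (hκC : ∀ l, ∀ t ∈ Sim, κ l t ≤ Ck)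
    (hκr : ∀ t ∈ Sim, ∀ k, (κ 0 t + κ 1 t + κ 2 t) - κ k t ≤ rr N (vv t) k)
    (hkp0 : ∀ p, 0 ≤ kp p) (hkp : ∀ p, kp p ≤ Pool.Agent.Helper55.Mass.Id (κ p))
    (hβ : ∀ p, β p * ρ p = (A / 2 + 1 / 8) * kp p)
    (hkρ : ∀ p, (A / 2 + 1 / 8) * kp p ≤ ρ p)
    (hF0 : ∀ p, 0 < Pool.Agent.Helper55.Mass.Id (hf p))
    (hF : ∀ p, ρ p - (A / 2 + 1 / 8) * kp p ≤
      (A / 2 + 1 / 8) * Pool.Agent.Helper55.Mass.Id (hf p))
    {H r : Fin 3 → ℝ}
    (hH : ∀ j, H j + (N 0 j * H 0 + N 1 j * H 1 + N 2 j * H 2) = R j)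
    (hr : ∀ k, Pool.Agent.Helper55.Mass.Id (fun t => rr N (vv t) k) ≤ r k)
    {ω : ℝ × ℝ → ℝ} {C2 : ℝ}
    (hω : AEStronglyMeasurable ω (volume.restrict Dl)) (hωC : ∀ t ∈ Dl, |ω t| ≤ C2)
    {s : ℝ × ℝ → ℝ} (hs : ∀ t ∈ Dl, 0 ≤ s t)
    (own : ∀ p ∈ K, tx (fun i => a (τ i)) p ∈ Dl →
      Qv a (τ 0) p ≤ s (tx (fun i => a (τ i)) p))
    (hP : ∀ t ∈ Dl, ∀ q ∈ K,
      Yt (fun i => a (τ i)) t q / √(Helper33.MEI.mt t) - ‖a (τ 0) - q‖ ^ 2 ≤ s t →
      GH (A / 2 + 1 / 8) N ζ ζp lam hf κ β ρ (fun p => aE σ a l (τ 0) (τ p.succ) - dE p) R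
          (fun k => S (τ k.succ)) (Qv a (τ 0) x) t
        + (1 - DH (A / 2 + 1 / 8) N ζ ζp lam hf κ β ρ
          (fun j => 1 / qM (fun i => a (τ i)) (fun i j => z (τ i) (τ j)) j)
          (fun p => am σ a l (τ 0) (τ p.succ) - dm p) t) * ‖a (τ 0) - q‖ ^ 2 ≤
        Yt (fun i => a (τ i)) t q →
      (A / 2 + 1 / 8) * (GH (A / 2 + 1 / 8) N ζ ζp lam hf κ β ρ
          (fun p => aE σ a l (τ 0) (τ p.succ) - dE p) R
          (fun k => S (τ k.succ)) (Qv a (τ 0) x) t / √(Helper33.MEI.mt t)) - ω t ≤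
        ff (A / 2 + 1 / 8)
          (Yt (fun i => a (τ i)) t q / √(Helper33.MEI.mt t) - ‖a (τ 0) - q‖ ^ 2)
          (‖a (τ 0) - q‖ ^ 2)) :
    LLs σ a l (τ 0) - (dE 0 + dE 1 + dE 2)
      + (A / 2 + 1 / 8) * (B0 * (H 0 + H 1 + H 2)
        - (r 0 * max (S (τ 1) + H 0) 0 + r 1 * max (S (τ 2) + H 1) 0
          + r 2 * max (S (τ 3) + H 2) 0)
        + lam * Pool.Agent.Helper55.Mass.Id (alP N ζp) *
          (Qv a (τ 0) x - (ζ 0 * R 0 + ζ 1 * R 1 + ζ 2 * R 2))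
        + (kp 0 * ((S (τ 2) + R 1) + (S (τ 3) + R 2)) + kp 1 * ((S (τ 1) + R 0) + (S (τ 3) + R 2))
          + kp 2 * ((S (τ 1) + R 0) + (S (τ 2) + R 1))))
      - (ρ 0 * (R 1 + R 2) + ρ 1 * (R 0 + R 2) + ρ 2 * (R 0 + R 1))
      - (√2)⁻¹ * ∫ t in Dl, ω t * M3 t ≤ Wi a (τ 0) K σ A := by
  have h' := h.perm τ
  have v' := viol_perm v τ
  have hz' := hz.perm τ
  have hA' : 0 < A / 2 + 1 / 8 := by linarith
  have hN : ∀ k m, 0 ≤ N k m := fun k m => by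
    rw [hNd]
    exact NM_nonneg h' v' hz' k m
  have hd : ∀ k, N k k = 0 := fun k => by
    rw [hNd]
    exact NM_diag k
  have hcol : ∀ m, nc N m ≤ 9 / 10 := fun m => by
    rw [hNd]
    exact nc_le h' v' hz' m
  have hc : (9 / 10 : ℝ) < 1 := by norm_num
  have hgr := gram_of_dist h'.ha
  have hKp : ∀ l, 0 ≤ Pool.Agent.Helper55.Mass.Id (κ l) := fun l => (hkp0 l).trans (hkp l)
  have hβ0 : ∀ l, 0 ≤ β l := fun l => by
    by_contra hneg
    have h1 := mul_neg_of_neg_of_pos (not_le.1 hneg) (hρ l)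
    have h2 := mul_nonneg hA'.le (hkp0 l)
    rw [hβ l] at h1
    linarith
  have hβ1 : ∀ l, β l ≤ 1 := fun l => by
    have h1 : β l * ρ l ≤ 1 * ρ l := by
      rw [hβ l, one_mul]
      exact hkρ l
    exact le_of_mul_le_mul_right h1 (hρ l)
  have hF' : ∀ p, (1 - β p) * ρ p ≤
      (A / 2 + 1 / 8) * Pool.Agent.Helper55.Mass.Id (hf p) :=
    fun l => by
      have h1 := hβ l
      have h2 := hF l
      have e : (1 - β l) * ρ l = ρ l - β l * ρ l := by ring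
      rw [e, h1]
      exact h2
  have hK : ∀ l, β l * ρ l ≤ (A / 2 + 1 / 8) * Pool.Agent.Helper55.Mass.Id (κ l) := fun l => by
    rw [hβ l]
    exact mul_le_mul_of_nonneg_left (hkp l) hA'.le
  have hM0 : ∀ l k, 0 ≤ Mr ρ l k := fun l k => Mr_nonneg (fun l => (hρ l).le) l k
  have i0 : ∀ l, 0 ≤ 1 / ((A / 2 + 1 / 8) * Pool.Agent.Helper55.Mass.Id (hf l)) :=
    fun l => by
      have := mul_pos hA' (hF0 l)
      positivity
  have hCk : 0 ≤ Ck := by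
    have hSim : ((0 : ℝ), (0 : ℝ)) ∈ Sim := ⟨le_rfl, le_rfl, by norm_num⟩
    exact (hκ0 0 _ hSim).trans (hκC 0 _ hSim)
  have key := face_genP (ι := Unit) h.pm h.ha h.hp h.hull (fun i q hq => h.ap hq i) τ hA hN hc
    hcol
    (al := fun _ => fun t => lam * alP N ζp t) (ζ := fun _ => ζ)
    (L := fun _ => Qv a (τ 0) x)
    (μx := fun _ => 1) (R := R) (S := fun k => S (τ k.succ))
    (μ := fun j => 1 / qM (fun i => a (τ i)) (fun i j => z (τ i) (τ j)) j) (H := H) (r := r)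
    (α := ash (hf) (fun l => Pool.Agent.Helper55.Mass.Id (hf l)) β
      (A / 2 + 1 / 8))
    (g := ast κ (fun l => Pool.Agent.Helper55.Mass.Id (κ l)) β (A / 2 + 1 / 8))
    (Ca := lam * (1 / ζp 0) +
      (1 / ((A / 2 + 1 / 8) * Pool.Agent.Helper55.Mass.Id (hf 0))
        + 1 / ((A / 2 + 1 / 8) * Pool.Agent.Helper55.Mass.Id (hf 1))
        + 1 / ((A / 2 + 1 / 8) * Pool.Agent.Helper55.Mass.Id (hf 2))))
    (Cg := Ck / ((A / 2 + 1 / 8) * Pool.Agent.Helper55.Mass.Id (κ 0))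
        + Ck / ((A / 2 + 1 / 8) * Pool.Agent.Helper55.Mass.Id (κ 1))
        + Ck / ((A / 2 + 1 / 8) * Pool.Agent.Helper55.Mass.Id (κ 2)))
    (M := Mr ρ) (E := fun p => aE σ a l (τ 0) (τ p.succ) - dE p)
    (sm := fun p => am σ a l (τ 0) (τ p.succ) - dm p) (β := β) (ω := ω) (s := s)
    (fun _ => alP_meas.const_mul _)
    (fun _ t _ => mul_nonneg hl0 (alP_nonneg hζp t))
    (fun _ t ht => by
      have := mul_le_mul_of_nonneg_left (alP_bound hN hd hc hcol hζp ht) hl0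
      have j0 := i0 0
      have j1 := i0 1
      have j2 := i0 2
      linarith)
    (fun l => ((hfm l).div_const _).const_mul _)
    (fun l t _ => ash_nonneg hf0 hA' hF0 hβ1 l t)
    (fun l t ht => by
      have j0 := i0 0
      have j1 := i0 1
      have j2 := i0 2
      have jz : 0 ≤ lam * (1 / ζp 0) := by
        have := hζp 0
        positivity
      have hAF := mul_pos hA' (hF0 l)
      have g1 : hf l t / ((A / 2 + 1 / 8) * Pool.Agent.Helper55.Mass.Id (hf l)) ≤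
          1 / ((A / 2 + 1 / 8) * Pool.Agent.Helper55.Mass.Id (hf l)) :=
        div_le_div_of_nonneg_right (hf_le_one hN hd hc hcol hζp hf0 hfz hfx hl0 l ht) hAF.le
      have g0 : 0 ≤ hf l t /
          ((A / 2 + 1 / 8) * Pool.Agent.Helper55.Mass.Id (hf l)) :=
        div_nonneg (hf0 l t) hAF.le
      have g2 : ash (hf) (fun l => Pool.Agent.Helper55.Mass.Id (hf l)) β
          (A / 2 + 1 / 8) l t ≤
          1 / ((A / 2 + 1 / 8) * Pool.Agent.Helper55.Mass.Id (hf l)) := by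
        have hb := hβ0 l
        have := mul_nonneg hb g0
        unfold ash
        linarith
      refine g2.trans ?_
      fin_cases l
      · show 1 / ((A / 2 + 1 / 8) * Pool.Agent.Helper55.Mass.Id (hf 0)) ≤ _
        linarith
      · show 1 / ((A / 2 + 1 / 8) * Pool.Agent.Helper55.Mass.Id (hf 1)) ≤ _
        linarith
      · show 1 / ((A / 2 + 1 / 8) * Pool.Agent.Helper55.Mass.Id (hf 2)) ≤ _
        linarith)
    (fun l => ((hκm l).div_const _).const_mul _)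
    (fun l t ht => ast_nonneg hκ0 hA' hβ0 hKp l ht)
    (fun l t ht => by
      have j : ∀ l, 0 ≤ Ck / ((A / 2 + 1 / 8) * Pool.Agent.Helper55.Mass.Id (κ l)) := fun l =>
        div_nonneg hCk (mul_nonneg hA'.le (hKp l))
      have j0 := j 0
      have j1 := j 1
      have j2 := j 2
      have hAF := mul_nonneg hA'.le (hKp l)
      have g1 : κ l t / ((A / 2 + 1 / 8) * Pool.Agent.Helper55.Mass.Id (κ l)) ≤
          Ck / ((A / 2 + 1 / 8) * Pool.Agent.Helper55.Mass.Id (κ l)) :=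
        div_le_div_of_nonneg_right (hκC l t ht) hAF
      have g0 : 0 ≤ κ l t / ((A / 2 + 1 / 8) * Pool.Agent.Helper55.Mass.Id (κ l)) :=
        div_nonneg (hκ0 l t ht) hAF
      have g2 : ast κ (fun l => Pool.Agent.Helper55.Mass.Id (κ l)) β (A / 2 + 1 / 8) l t ≤
          Ck / ((A / 2 + 1 / 8) * Pool.Agent.Helper55.Mass.Id (κ l)) := by
        have hb := mul_le_mul_of_nonneg_right (hβ1 l) g0
        unfold ast
        linarith
      refine g2.trans ?_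
      fin_cases l
      · show Ck / ((A / 2 + 1 / 8) * Pool.Agent.Helper55.Mass.Id (κ 0)) ≤ _
        linarith
      · show Ck / ((A / 2 + 1 / 8) * Pool.Agent.Helper55.Mass.Id (κ 1)) ≤ _
        linarith
      · show Ck / ((A / 2 + 1 / 8) * Pool.Agent.Helper55.Mass.Id (κ 2)) ≤ _
        linarith)
    hM0
    (fun t ht k => by
      simp only [Finset.univ_unique, Finset.sum_singleton]
      exact ash_feas3 hN hd hc hcol hζp hζ hf0 hfz hfx hl0 hA' hF0 hF' ht k)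
    (fun t ht k => ast_feas2 hκ0 hκr hA' hKp hK ht k)
    (fun l => ash_Id hA' hF0 l)
    (fun l => ast_Id hA' (by
      rcases eq_or_lt_of_le (hβ0 l) with e | hb
      · exact Or.inl e.symm
      · right
        have h1 := mul_pos hb (hρ l)
        have h2 := lt_of_lt_of_le h1 (hK l)
        by_contra hneg
        have := mul_nonpos_of_nonneg_of_nonpos hA'.le (not_lt.1 hneg)
        linarith))
    hH hr
    (fun q hq j => by
      rw [hRd, hNd]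
      exact Pt_load hz' h' v' hq j)
    (fun q hq _ => apex_load hgr (h.hd x hx q hq) (h'.hp q hq) hb)
    (fun q hq p => by
      have h0 := arc_load h.ha hl h.cpt h.pm.mem h.hp h.hd τ hq p
      have h1 := load_drop2 h'.ha (h'.hp q hq) h0 (hδ p) ((MA_nonneg τ p p).trans (hδ p))
        (hdE p) (hdm p) (hdd p)
      refine load_mono (h'.hp q hq) h1 fun k => ?_
      unfold Mr
      by_cases hk : k = p
      · rw [if_pos hk]
        split_ifs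
        · exact le_rfl
        · exact (hρ p).le
      · rw [if_neg hk, if_neg (fun e => hk e.symm)]
        exact hMρ p k hk)
    (fun q hq => ⟨v.le _ q hq, v.le _ q hq, v.le _ q hq⟩)
    hω hωC hs own hP
  have hL := LLs_perm (σ := σ) (a := a) (l := l) τ
  simp only [Finset.univ_unique, Finset.sum_singleton] at key
  have e0 : Pool.Agent.Helper55.Mass.Id (fun t => lam * alP N ζp t) =
      lam * Pool.Agent.Helper55.Mass.Id (alP N ζp) :=
    Pool.Agent.Helper55.Mass.Id_const lam (alP N ζp)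
  have e1 : τ (Fin.succ 0) = τ 1 := rfl
  have e2 : τ (Fin.succ 1) = τ 2 := rfl
  have e3 : τ (Fin.succ 2) = τ 3 := rfl
  rw [e0, e1, e2, e3] at key
  have m00 : Mr ρ 0 0 = 0 := rfl
  have m01 : Mr ρ 0 1 = ρ 0 := rfl
  have m02 : Mr ρ 0 2 = ρ 0 := rfl
  have m10 : Mr ρ 1 0 = ρ 1 := rfl
  have m11 : Mr ρ 1 1 = 0 := rfl
  have m12 : Mr ρ 1 2 = ρ 1 := rfl
  have m20 : Mr ρ 2 0 = ρ 2 := rfl
  have m21 : Mr ρ 2 1 = ρ 2 := rfl
  have m22 : Mr ρ 2 2 = 0 := rfl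
  rw [m00, m01, m02, m10, m11, m12, m20, m21, m22] at key
  have b0 := hβ 0
  have b1 := hβ 1
  have b2 := hβ 2
  rw [hL]
  refine le_trans (le_of_eq ?_) key
  linear_combination -((S (τ 2) + R 1) + (S (τ 3) + R 2)) * b0
    - ((S (τ 1) + R 0) + (S (τ 3) + R 2)) * b1
    - ((S (τ 1) + R 0) + (S (τ 2) + R 1)) * b2

end Helper78.MEI
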