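import Pool.Agent.Helper78.MEI.FaceU

/-!
# Project MEI (M2), faces: general weights with a free treatment of the second order term

`face_genP`: as `face_gen`, the term with `w = ‖a (τ 0) - q‖ ^ 2` is left to a pointwise hypothesis
`hP` (all information on `q` is available there, the deficit is the exact one).
-/

namespace Helper78.MEI

open Set Metric MeasureTheory Real Helper80.CW Helper82.CW Helper14.CW Helper22.Sig
open Helper22.Wedge Helper14.MEI2 Pool.Agent.Helper73.MEI Helper33.MEI Helper93.MEI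
open Pool.Agent.Helper52.MEI
open Pool.Agent.Helper55.Sx (Sim mm mm_pos mm_cont mt_mm deg1 int_Dl)
open Pool.Agent.Helper55.Mass (LN LN_nonneg vv vv_nonneg vv_le B0 intOn)
open Pool.Agent.Helper55.Apex (nc vt_vv)
open Pool.Agent.Helper55.ApexP (PN alP alP_nonneg alP_zeta alP_meas alP_bound xx_mu alP_int)
open Pool.Agent.Helper55.Fill (xx rr xe wc xe_bal rr_nonneg xx_meas rr_meas xx_nonneg xx_le rr_int)
open Helper75.MEI2 (mu vt)
open scoped RealInnerProductSpace ENNReal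

variable {a : Fin 4 → E3} {σ : Measure (E3 × E3)} [IsFiniteMeasure σ] {K : Set E3}

section gen
variable {ι : Type*} [Fintype ι] {N : Fin 3 → Fin 3 → ℝ} {al : ι → ℝ × ℝ → ℝ}
  {ζ : ι → Fin 3 → ℝ} {L μx : ι → ℝ} {R S μ : Fin 3 → ℝ} {α g : Fin 3 → ℝ × ℝ → ℝ}
  {M : Fin 3 → Fin 3 → ℝ} {E sm : Fin 3 → ℝ}

theorem xe_elim (t : ℝ × ℝ) (k : Fin 3) : xe N (Sum.elim al α) (Sum.elim ζ M) t k =
    xx N (vv t) k - (∑ m, al m t * ζ m k + ∑ l, α l t * M l k) := by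
  unfold xe
  rw [Fintype.sum_sum_type]
  rfl

theorem Gg_eq (t : ℝ × ℝ) : Gr N (Sum.elim al α) (Sum.elim ζ M) (Sum.elim L E) R S g M E t =
    Gg N al ζ L α g M E R S t := by
  unfold Gr Gd Gg
  simp only [xe_elim, Fintype.sum_sum_type, Sum.elim_inl, Sum.elim_inr]

theorem Dg_eq (t : ℝ × ℝ) : Dr N (Sum.elim al α) (Sum.elim ζ M) μ (Sum.elim μx sm) g M sm t =
    Dg N al ζ μ μx α g M sm t := by
  unfold Dr Dd Dg
  simp only [xe_elim, Fintype.sum_sum_type, Sum.elim_inl, Sum.elim_inr]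
  ring

/-- **pointwise bound of the coupling**, general weights -/
theorem gen_Yt (h : Gram4 (Helper14.CW.al a)) (hN : ∀ k m, 0 ≤ N k m) {q : E3} (hq : Pl a q)
    {t : ℝ × ℝ} (hal : ∀ m, 0 ≤ al m t) (hα0 : ∀ l, 0 ≤ α l t) (hg : ∀ l, 0 ≤ g l t)
    (hM0 : ∀ l k, 0 ≤ M l k)
    (hx : ∀ k, ∑ m, al m t * ζ m k + ∑ l, α l t * M l k ≤ xx N (vv t) k)
    (hres : ∀ k, ∑ l, g l t * M l k ≤ rr N (vv t) k)
    (nodes : ∀ j, Load a q (R j) (μ j) (fun k => (if k = j then 1 else 0) + N k j))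
    (extra : ∀ m, Load a q (L m) (μx m) (fun k => ζ m k + LN N (ζ m) k))
    (arcs : ∀ l, Load a q (E l) (sm l) (M l))
    (h1 : Qv a 1 q ≤ S 0) (h2 : Qv a 2 q ≤ S 1) (h3 : Qv a 3 q ≤ S 2) :
    Gg N al ζ L α g M E R S t + (1 - Dg N al ζ μ μx α g M sm t) * ‖a 0 - q‖ ^ 2 ≤ Yt a t q := by
  have key := fill_res (al := Sum.elim al α) (ζ := Sum.elim ζ M) (L := Sum.elim L E)
    (μx := Sum.elim μx sm) (g := g) (M := M) (E := E) (sm := sm) (R := R) (S := S) (μ := μ)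
    (N := N) (q := q) (t := t) h
    (fun m => by
      cases m with
      | inl m => exact hal m
      | inr l => exact hα0 l)
    (fun k => by
      rw [xe_elim]
      have := hx k
      linarith)
    hg hres nodes
    (fun m => by
      cases m with
      | inl m => exact extra m
      | inr l =>
        refine load_mono hq (arcs l) fun k => ?_
        have := LN_nonneg hN (hM0 l) k
        show M l k ≤ M l k + LN N (M l) k
        linarith)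
    arcs h1 h2 h3
  rw [Gg_eq, Dg_eq] at key
  exact key

end gen

/-- **FACE THEOREM, GENERAL WEIGHTS, FREE SECOND ORDER TERM** -/
theorem face_genP {ι : Type*} [Fintype ι] (h : PM K σ)
    (ha : ∀ i j, i ≠ j → dist (a i) (a j) = 1) (hp : ∀ x ∈ K, Pl a x)
    (hull : ∀ p, (∀ q ∈ K, ‖p - q‖ ≤ 1) → p ∈ K) (hQ : ∀ i, ∀ q ∈ K, Qv a i q ≤ 3 / 16)
    (τ : Equiv.Perm (Fin 4)) {A : ℝ} (hA : 7 / 2 ≤ A)
    {N : Fin 3 → Fin 3 → ℝ} (hN : ∀ k m, 0 ≤ N k m) {c : ℝ} (hc : c < 1)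
    (hcol : ∀ m, nc N m ≤ c)
    {al : ι → ℝ × ℝ → ℝ} (halm : ∀ m, Measurable (al m)) (hal : ∀ m, ∀ t ∈ Sim, 0 ≤ al m t)
    {Ca : ℝ} (halC : ∀ m, ∀ t ∈ Sim, al m t ≤ Ca)
    {ζ : ι → Fin 3 → ℝ} {L μx : ι → ℝ} {R S μ H r : Fin 3 → ℝ}
    {α g : Fin 3 → ℝ × ℝ → ℝ} (hαm : ∀ l, Measurable (α l)) (hα0 : ∀ l, ∀ t ∈ Sim, 0 ≤ α l t)
    (hαC : ∀ l, ∀ t ∈ Sim, α l t ≤ Ca)
    (hgm : ∀ n, Measurable (g n)) (hg : ∀ n, ∀ t ∈ Sim, 0 ≤ g n t)
    {Cg : ℝ} (hgC : ∀ n, ∀ t ∈ Sim, g n t ≤ Cg)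
    {M : Fin 3 → Fin 3 → ℝ} (hM0 : ∀ l k, 0 ≤ M l k) {E sm β : Fin 3 → ℝ}
    (hx : ∀ t ∈ Sim, ∀ k, ∑ m, al m t * ζ m k + ∑ l, α l t * M l k ≤ xx N (vv t) k)
    (hres : ∀ t ∈ Sim, ∀ k, ∑ l, g l t * M l k ≤ rr N (vv t) k)
    (hαI : ∀ l, (A / 2 + 1 / 8) * Pool.Agent.Helper55.Mass.Id (α l) = 1 - β l)
    (hgI : ∀ l, (A / 2 + 1 / 8) * Pool.Agent.Helper55.Mass.Id (g l) = β l)
    (hH : ∀ j, H j + (N 0 j * H 0 + N 1 j * H 1 + N 2 j * H 2) = R j)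
    (hr : ∀ k, Pool.Agent.Helper55.Mass.Id (fun t => rr N (vv t) k) ≤ r k)
    (nodes : ∀ q ∈ K, ∀ j, Load (fun i => a (τ i)) q (R j) (μ j)
      (fun k => (if k = j then 1 else 0) + N k j))
    (extra : ∀ q ∈ K, ∀ m, Load (fun i => a (τ i)) q (L m) (μx m)
      (fun k => ζ m k + LN N (ζ m) k))
    (arcs : ∀ q ∈ K, ∀ l, Load (fun i => a (τ i)) q (E l) (sm l) (M l))
    (caps : ∀ q ∈ K, Qv a (τ 1) q ≤ S 0 ∧ Qv a (τ 2) q ≤ S 1 ∧ Qv a (τ 3) q ≤ S 2)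
    {ω : ℝ × ℝ → ℝ} {C2 : ℝ}
    (hω : AEStronglyMeasurable ω (volume.restrict Dl)) (hωC : ∀ t ∈ Dl, |ω t| ≤ C2)
    {s : ℝ × ℝ → ℝ} (hs : ∀ t ∈ Dl, 0 ≤ s t)
    (own : ∀ p ∈ K, tx (fun i => a (τ i)) p ∈ Dl →
      Qv a (τ 0) p ≤ s (tx (fun i => a (τ i)) p))
    (hP : ∀ t ∈ Dl, ∀ q ∈ K,
      Yt (fun i => a (τ i)) t q / √(Helper33.MEI.mt t) - ‖a (τ 0) - q‖ ^ 2 ≤ s t →
      Gg N al ζ L α g M E R S t + (1 - Dg N al ζ μ μx α g M sm t) * ‖a (τ 0) - q‖ ^ 2 ≤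
        Yt (fun i => a (τ i)) t q →
      (A / 2 + 1 / 8) * (Gg N al ζ L α g M E R S t / √(Helper33.MEI.mt t)) - ω t ≤
        ff (A / 2 + 1 / 8)
          (Yt (fun i => a (τ i)) t q / √(Helper33.MEI.mt t) - ‖a (τ 0) - q‖ ^ 2)
          (‖a (τ 0) - q‖ ^ 2)) :
    E 0 + E 1 + E 2
      + (A / 2 + 1 / 8) * (B0 * (H 0 + H 1 + H 2)
        - (r 0 * max (S 0 + H 0) 0 + r 1 * max (S 1 + H 1) 0 + r 2 * max (S 2 + H 2) 0)
        + ∑ m, (L m - (ζ m 0 * R 0 + ζ m 1 * R 1 + ζ m 2 * R 2)) *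
          Pool.Agent.Helper55.Mass.Id (al m))
      - ((1 - β 0) * (M 0 0 * R 0 + M 0 1 * R 1 + M 0 2 * R 2)
        + (1 - β 1) * (M 1 0 * R 0 + M 1 1 * R 1 + M 1 2 * R 2)
        + (1 - β 2) * (M 2 0 * R 0 + M 2 1 * R 1 + M 2 2 * R 2))
      + (β 0 * (M 0 0 * S 0 + M 0 1 * S 1 + M 0 2 * S 2)
        + β 1 * (M 1 0 * S 0 + M 1 1 * S 1 + M 1 2 * S 2)
        + β 2 * (M 2 0 * S 0 + M 2 1 * S 1 + M 2 2 * S 2))
      - (√2)⁻¹ * ∫ t in Dl, ω t * M3 t ≤ Wi a (τ 0) K σ A := by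
  set A' := A / 2 + 1 / 8 with hA'def
  have hA' : 0 ≤ A' := by linarith
  have ha' : ∀ i j, i ≠ j → dist (a (τ i)) (a (τ j)) = 1 :=
    fun i j hij => ha _ _ fun h => hij (τ.injective h)
  have hgr := gram_of_dist ha'
  have hpτ : ∀ q ∈ K, Pl (fun i => a (τ i)) q := fun q hq i j hij =>
    hp q hq (τ i) (τ j) (τ.injective.ne hij)
  have hm : ∀ m, Measurable (Sum.elim al α m) := fun m => by
    cases m with
    | inl m => exact halm m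
    | inr l => exact hαm l
  have h0 : ∀ m, ∀ t ∈ Sim, 0 ≤ Sum.elim al α m t := fun m => by
    cases m with
    | inl m => exact hal m
    | inr l => exact hα0 l
  have hC : ∀ m, ∀ t ∈ Sim, |Sum.elim al α m t| ≤ Ca := fun m t ht => by
    rw [abs_of_nonneg (h0 m t ht)]
    cases m with
    | inl m => exact halC m t ht
    | inr l => exact hαC l t ht
  have hgA : ∀ n, ∀ t ∈ Sim, |g n t| ≤ Cg := fun n t ht => by
    rw [abs_of_nonneg (hg n t ht)]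
    exact hgC n t ht
  obtain ⟨C1, hC1⟩ := Gd_bd hN hc hcol hC (Sum.elim ζ M) (Sum.elim L E) R S
  have hint : ∀ m, IntegrableOn (fun t => Sum.elim al α m t / mm t ^ 2) Sim := fun m =>
    Pool.Agent.Helper55.Mass.intOn (hm m) (hC m)
  have hGe : Gg N al ζ L α g M E R S =
      Gr N (Sum.elim al α) (Sum.elim ζ M) (Sum.elim L E) R S g M E := by
    funext t
    exact (Gg_eq t).symm
  have hGm : Measurable (Gg N al ζ L α g M E R S) := by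
    rw [hGe]
    exact Gr_meas hN hc hcol hm _ _ R S hgm M E
  have hGC : ∀ t ∈ Sim, |Gg N al ζ L α g M E R S t| ≤
      C1 + Cg * ∑ n, |E n + (M n 0 * S 0 + M n 1 * S 1 + M n 2 * S 2)| := by
    intro t ht
    have k1 := hC1 t ht
    have k2 := sum_bd (f := fun n => E n + (M n 0 * S 0 + M n 1 * S 1 + M n 2 * S 2))
      (fun n => hgA n t ht)
    rw [hGe]
    unfold Gr
    exact (abs_add_le _ _).trans (add_le_add k1 k2)
  have key := face_cert h ha hull hQ τ hA hGm hGC hω hωC hs own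
    (fun t ht q hq hX => hP t ht q hq hX (gen_Yt hgr hN (hpτ q hq)
      (fun m => hal m t (Dl_Sim ht)) (fun l => hα0 l t (Dl_Sim ht))
      (fun l => hg l t (Dl_Sim ht)) hM0 (hx t (Dl_Sim ht)) (hres t (Dl_Sim ht))
      (nodes q hq) (extra q hq) (arcs q hq) (caps q hq).1 (caps q hq).2.1 (caps q hq).2.2))
  rw [hGe, Id_Gr hN hc hcol hm hC _ _ R S hgm hgA M E, ← hA'def] at key
  have hv := plane_Id hN hc hcol hint (ζ := Sum.elim ζ M) (L := Sum.elim L E) (S := S) hH hr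
  have hv' := mul_le_mul_of_nonneg_left hv hA'
  have n := fun m => plane_node hH (ζ m)
  have q0 := plane_node hH (M 0)
  have q1 := plane_node hH (M 1)
  have q2 := plane_node hH (M 2)
  simp only [Fintype.sum_sum_type, Sum.elim_inl, Sum.elim_inr, n, Fin.sum_univ_three, q0, q1, q2]
    at key hv'
  have a0 := hαI 0
  have a1 := hαI 1
  have a2 := hαI 2
  have g0 := hgI 0
  have g1 := hgI 1
  have g2 := hgI 2
  have b0 : A' * ((E 0 - (M 0 0 * R 0 + M 0 1 * R 1 + M 0 2 * R 2)) *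
      Pool.Agent.Helper55.Mass.Id (α 0)) =
      (1 - β 0) * (E 0 - (M 0 0 * R 0 + M 0 1 * R 1 + M 0 2 * R 2)) := by
    linear_combination (E 0 - (M 0 0 * R 0 + M 0 1 * R 1 + M 0 2 * R 2)) * a0
  have b1 : A' * ((E 1 - (M 1 0 * R 0 + M 1 1 * R 1 + M 1 2 * R 2)) *
      Pool.Agent.Helper55.Mass.Id (α 1)) =
      (1 - β 1) * (E 1 - (M 1 0 * R 0 + M 1 1 * R 1 + M 1 2 * R 2)) := by
    linear_combination (E 1 - (M 1 0 * R 0 + M 1 1 * R 1 + M 1 2 * R 2)) * a1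
  have b2 : A' * ((E 2 - (M 2 0 * R 0 + M 2 1 * R 1 + M 2 2 * R 2)) *
      Pool.Agent.Helper55.Mass.Id (α 2)) =
      (1 - β 2) * (E 2 - (M 2 0 * R 0 + M 2 1 * R 1 + M 2 2 * R 2)) := by
    linear_combination (E 2 - (M 2 0 * R 0 + M 2 1 * R 1 + M 2 2 * R 2)) * a2
  have c0 : A' * ((E 0 + (M 0 0 * S 0 + M 0 1 * S 1 + M 0 2 * S 2)) *
      Pool.Agent.Helper55.Mass.Id (g 0)) =
      β 0 * (E 0 + (M 0 0 * S 0 + M 0 1 * S 1 + M 0 2 * S 2)) := by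
    linear_combination (E 0 + (M 0 0 * S 0 + M 0 1 * S 1 + M 0 2 * S 2)) * g0
  have c1 : A' * ((E 1 + (M 1 0 * S 0 + M 1 1 * S 1 + M 1 2 * S 2)) *
      Pool.Agent.Helper55.Mass.Id (g 1)) =
      β 1 * (E 1 + (M 1 0 * S 0 + M 1 1 * S 1 + M 1 2 * S 2)) := by
    linear_combination (E 1 + (M 1 0 * S 0 + M 1 1 * S 1 + M 1 2 * S 2)) * g1
  have c2 : A' * ((E 2 + (M 2 0 * S 0 + M 2 1 * S 1 + M 2 2 * S 2)) *
      Pool.Agent.Helper55.Mass.Id (g 2)) =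
      β 2 * (E 2 + (M 2 0 * S 0 + M 2 1 * S 1 + M 2 2 * S 2)) := by
    linear_combination (E 2 + (M 2 0 * S 0 + M 2 1 * S 1 + M 2 2 * S 2)) * g2
  linarith only [key, hv', b0, b1, b2, c0, c1, c2]

end Helper78.MEI
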