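import Pool.Agent.Helper31.SR.Arc3
import Pool.Agent.Helper78.MEI.FaceV

/-!
# Project MEI (M2): the face theorem of a placed body, strips, all loads inserted

Nodes = contact points, apex = any point `x` of the body, arcs of any system `l` with the columns
`ρ p` (third column `δ p` removed at the price `dE p` of the level and `dm p` of the mass), a part
`kp p` of every arc in the wall strips. The second order term is free (`hP`); `hP_cost` gives `hP`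
from a range `W` of `w`.
-/

namespace Helper78.MEI

open Set Metric MeasureTheory Helper80.CW Helper82.CW Helper14.CW Helper93.MEI Helper82.M2
open Helper14.MEI2 Pool.Agent.Helper52.MEI Pool.Agent.Helper73.MEI Helper37.MEI Helper41.MEI
open Helper33.MEI (Wi Dl tx M3)
open Pool.Agent.Helper55.Sx (Sim mm mm_pos mm_cont mt_mm deg1 int_Dl)
open Pool.Agent.Helper55.Mass (LN LN_nonneg vv vv_nonneg vv_le B0 intOn)
open Pool.Agent.Helper55.Apex (nc vt_vv)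
open Pool.Agent.Helper55.ApexP (PN alP alP_nonneg alP_zeta alP_meas alP_bound xx_mu alP_int)
open Pool.Agent.Helper55.Fill (xx rr xe wc xe_bal rr_nonneg xx_meas rr_meas xx_nonneg xx_le rr_int)
open Pool.Agent.Helper73.MEI.SideP (flP flP_meas flP_nonneg flP_zero flP_pair)
open Pool.Agent.Helper31.SR
open Helper75.MEI2 (mu vt)
open scoped RealInnerProductSpace ENNReal

variable {a : Fin 4 → E3} {σ : Measure (E3 × E3)} {K : Set E3} {S : Fin 4 → ℝ}
  {c : Fin 4 → E3} {z : Fin 4 → Fin 4 → E3}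

/-- **removing a column**: `2 δ y ≤ dm w + dE` if `δ² ≤ dE dm` -/
theorem load_drop2 {a : Fin 4 → E3} (ha : ∀ i j, i ≠ j → dist (a i) (a j) = 1) {q : E3}
    (hq : Pl a q) {L m δ dE dm : ℝ} {M : Fin 3 → ℝ} (hL : Load a q L m M) {p : Fin 3}
    (hδ : M p ≤ δ) (hδ0 : 0 ≤ δ) (hdE : 0 ≤ dE) (hdm : 0 ≤ dm) (hd : δ ^ 2 ≤ dE * dm) :
    Load a q (L - dE) (m - dm) (fun k => if k = p then 0 else M k) := by
  have hy : ∀ k : Fin 3, 0 ≤ yv a 0 k.succ q := fun k =>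
    yv_nonneg hq (Fin.succ_ne_zero k).symm
  have hyle : ∀ k : Fin 3, yv a 0 k.succ q ≤ ‖a 0 - q‖ := fun k => by
    have h1 := real_inner_le_norm (a 0 - q) (a 0 - a k.succ)
    have h2 : ‖a 0 - a k.succ‖ = 1 := by
      rw [← dist_eq_norm]
      exact ha _ _ (Fin.succ_ne_zero k).symm
    rw [h2, mul_one] at h1
    exact h1
  have key : 2 * (M p * yv a 0 p.succ q) ≤ dm * ‖a 0 - q‖ ^ 2 + dE := by
    have h1 := mul_le_mul_of_nonneg_right hδ (hy p)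
    have h2 := mul_le_mul_of_nonneg_left (hyle p) hδ0
    have h3 : 2 * (δ * ‖a 0 - q‖) ≤ dm * ‖a 0 - q‖ ^ 2 + dE := by
      refine le_of_sq_le_sq ?_ (by positivity)
      have e1 : 0 ≤ (dm * ‖a 0 - q‖ ^ 2 - dE) ^ 2 := sq_nonneg _
      have e2 := mul_le_mul_of_nonneg_right hd (sq_nonneg ‖a 0 - q‖)
      nlinarith
    linarith
  unfold Load at hL ⊢
  fin_cases p
  · have k : 2 * (M 0 * yv a 0 1 q) ≤ dm * ‖a 0 - q‖ ^ 2 + dE := key
    simp
    linarith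
  · have k : 2 * (M 1 * yv a 0 2 q) ≤ dm * ‖a 0 - q‖ ^ 2 + dE := key
    simp
    linarith
  · have k : 2 * (M 2 * yv a 0 3 q) ≤ dm * ‖a 0 - q‖ ^ 2 + dE := key
    simp
    linarith

/-- the second order hypothesis from a range of `w` -/
theorem hP_cost {a : Fin 4 → E3} {q : E3} {t : ℝ × ℝ} {A' G D W ω : ℝ} (hA' : 0 ≤ A')
    (hY : G + (1 - D) * ‖a 0 - q‖ ^ 2 ≤ Yt a t q) (hw : ‖a 0 - q‖ ^ 2 ≤ 19 / 16)
    (hW : ‖a 0 - q‖ ^ 2 ≤ W) (hW2 : W < 2)
    (hc : cost A' (G / √(Helper33.MEI.mt t)) (1 - (1 - D) / √(Helper33.MEI.mt t)) W ≤ ω) :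
    A' * (G / √(Helper33.MEI.mt t)) - ω ≤
      ff A' (Yt a t q / √(Helper33.MEI.mt t) - ‖a 0 - q‖ ^ 2) (‖a 0 - q‖ ^ 2) := by
  have k1 := ff_Yt (a := a) (t := t) hA' (lt_of_le_of_lt hw (by norm_num)) hY
  have k2 := ff_ge (A := A') (g := G / √(Helper33.MEI.mt t))
    (c := 1 - (1 - D) / √(Helper33.MEI.mt t)) hA' (sq_nonneg ‖a 0 - q‖) hW hW2
  unfold cost at hc
  refine le_trans ?_ (k2.trans k1)
  linarith

/-- the certificate of the instance -/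
noncomputable def GI (A' : ℝ) (N : Fin 3 → Fin 3 → ℝ) (ζ ζp : Fin 3 → ℝ) (lam φ : ℝ)
    (κ : Fin 3 → ℝ × ℝ → ℝ) (β ρ E R S : Fin 3 → ℝ) (s0 : ℝ) : ℝ × ℝ → ℝ :=
  Gg N (fun _ : Unit => fun t => lam * (1 - φ) * alP N ζp t) (fun _ => ζ) (fun _ => s0)
    (ash (flP (PN N)) (fun p => Pool.Agent.Helper55.Mass.Id (flP (PN N) p)) β A')
    (ast κ (fun p => Pool.Agent.Helper55.Mass.Id (κ p)) β A') (Mr ρ) E R S

/-- the exact mass deficit of the instance -/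
noncomputable def DI (A' : ℝ) (N : Fin 3 → Fin 3 → ℝ) (ζ ζp : Fin 3 → ℝ) (lam φ : ℝ)
    (κ : Fin 3 → ℝ × ℝ → ℝ) (β ρ μ sm : Fin 3 → ℝ) : ℝ × ℝ → ℝ :=
  Dg N (fun _ : Unit => fun t => lam * (1 - φ) * alP N ζp t) (fun _ => ζ) μ (fun _ => 1)
    (ash (flP (PN N)) (fun p => Pool.Agent.Helper55.Mass.Id (flP (PN N) p)) β A')
    (ast κ (fun p => Pool.Agent.Helper55.Mass.Id (κ p)) β A') (Mr ρ) sm

/-- **THE FACE OF THE VERTEX `τ 0`, ALL LOADS INSERTED, FREE SECOND ORDER TERM** -/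
theorem face_instP [IsFiniteMeasure σ] (h : CN K σ a c) (v : Viol K a S) (hz : CV a K z)
    (τ : Equiv.Perm (Fin 4)) {A : ℝ} (hA : 7 / 2 ≤ A)
    {l : Fin 3 → Bool → Bool → E3 × E3 → ℝ} (hl : Lok a l)
    {δ dE dm : Fin 3 → ℝ} (hδ : ∀ p, MA σ a l τ p p ≤ δ p) (hdE : ∀ p, 0 ≤ dE p)
    (hdm : ∀ p, 0 ≤ dm p) (hdd : ∀ p, δ p ^ 2 ≤ dE p * dm p)
    {ρ kp β : Fin 3 → ℝ} (hρ : ∀ p, 0 < ρ p)
    (hMρ : ∀ p k, k ≠ p → MA σ a l τ p k ≤ ρ p)
    {x : E3} (hx : x ∈ K)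
    {N : Fin 3 → Fin 3 → ℝ} (hNd : N = NM (fun i => a (τ i)) (fun i j => z (τ i) (τ j)))
    {R : Fin 3 → ℝ} (hRd : R = RM (fun i => a (τ i)) (fun i j => z (τ i) (τ j)))
    {ζ ζp : Fin 3 → ℝ} (hζp : ∀ k, 0 < ζp k) (hζ : ∀ k, ζ k ≤ ζp k)
    (hb : ∀ k, b3 (fun i => a (τ i)) x k ≤ ζ k + LN N ζ k)
    {φ lam : ℝ} (hφ0 : 0 ≤ φ) (hφ1 : φ ≤ 1) (hl0 : 0 ≤ lam) (hl1 : lam ≤ 1)
    {κ : Fin 3 → ℝ × ℝ → ℝ} (hκm : ∀ l, Measurable (κ l)) (hκ0 : ∀ l, ∀ t ∈ Sim, 0 ≤ κ l t)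
    {Ck : ℝ} (hκC : ∀ l, ∀ t ∈ Sim, κ l t ≤ Ck)
    (hκr : ∀ t ∈ Sim, ∀ k, (κ 0 t + κ 1 t + κ 2 t) - κ k t ≤ rr N (vv t) k)
    (hkp0 : ∀ p, 0 ≤ kp p) (hkp : ∀ p, kp p ≤ Pool.Agent.Helper55.Mass.Id (κ p))
    (hβ : ∀ p, β p * ρ p = (A / 2 + 1 / 8) * kp p)
    (hkρ : ∀ p, (A / 2 + 1 / 8) * kp p ≤ ρ p)
    (hF : ∀ p, ρ p - (A / 2 + 1 / 8) * kp p ≤
      φ * ((A / 2 + 1 / 8) * Pool.Agent.Helper55.Mass.Id (flP (PN N) p)))
    {H r : Fin 3 → ℝ}
    (hH : ∀ j, H j + (N 0 j * H 0 + N 1 j * H 1 + N 2 j * H 2) = R j)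
    (hr : ∀ k, Pool.Agent.Helper55.Mass.Id (fun t => rr N (vv t) k) ≤ r k)
    {ω : ℝ × ℝ → ℝ} {C2 : ℝ}
    (hω : AEStronglyMeasurable ω (volume.restrict Dl)) (hωC : ∀ t ∈ Dl, |ω t| ≤ C2)
    {s : ℝ × ℝ → ℝ} (hs : ∀ t ∈ Dl, 0 ≤ s t)
    (own : ∀ p ∈ K, tx (fun i => a (τ i)) p ∈ Dl →
      Qv a (τ 0) p ≤ s (tx (fun i => a (τ i)) p))
    (hP : ∀ t ∈ Dl, ∀ q ∈ K,
      Yt (fun i => a (τ i)) t q / √(Helper33.MEI.mt t) - ‖a (τ 0) - q‖ ^ 2 ≤ s t →
      GI (A / 2 + 1 / 8) N ζ ζp lam φ κ β ρ (fun p => aE σ a l (τ 0) (τ p.succ) - dE p) R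
          (fun k => S (τ k.succ)) (Qv a (τ 0) x) t
        + (1 - DI (A / 2 + 1 / 8) N ζ ζp lam φ κ β ρ
          (fun j => 1 / qM (fun i => a (τ i)) (fun i j => z (τ i) (τ j)) j)
          (fun p => am σ a l (τ 0) (τ p.succ) - dm p) t) * ‖a (τ 0) - q‖ ^ 2 ≤
        Yt (fun i => a (τ i)) t q →
      (A / 2 + 1 / 8) * (GI (A / 2 + 1 / 8) N ζ ζp lam φ κ β ρ
          (fun p => aE σ a l (τ 0) (τ p.succ) - dE p) R
          (fun k => S (τ k.succ)) (Qv a (τ 0) x) t / √(Helper33.MEI.mt t)) - ω t ≤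
        ff (A / 2 + 1 / 8)
          (Yt (fun i => a (τ i)) t q / √(Helper33.MEI.mt t) - ‖a (τ 0) - q‖ ^ 2)
          (‖a (τ 0) - q‖ ^ 2)) :
    LLs σ a l (τ 0) - (dE 0 + dE 1 + dE 2)
      + (A / 2 + 1 / 8) * (B0 * (H 0 + H 1 + H 2)
        - (r 0 * max (S (τ 1) + H 0) 0 + r 1 * max (S (τ 2) + H 1) 0
          + r 2 * max (S (τ 3) + H 2) 0)
        + lam * (1 - φ) * Pool.Agent.Helper55.Mass.Id (alP N ζp) *
          (Qv a (τ 0) x - (ζ 0 * R 0 + ζ 1 * R 1 + ζ 2 * R 2))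
        + (kp 0 * ((S (τ 2) + R 1) + (S (τ 3) + R 2)) + kp 1 * ((S (τ 1) + R 0) + (S (τ 3) + R 2))
          + kp 2 * ((S (τ 1) + R 0) + (S (τ 2) + R 1))))
      - (ρ 0 * (R 1 + R 2) + ρ 1 * (R 0 + R 2) + ρ 2 * (R 0 + R 1))
      - (√2)⁻¹ * ∫ t in Dl, ω t * M3 t ≤ Wi a (τ 0) K σ A := by
  have h' := h.perm τ
  have v' := viol_perm v τ
  have hz' := hz.perm τ
  have hA' : 0 < A / 2 + 1 / 8 := by linarith
  have hN : ∀ k m, 0 ≤ N k m := fun k m => by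
    rw [hNd]
    exact NM_nonneg h' v' hz' k m
  have hd : ∀ k, N k k = 0 := fun k => by
    rw [hNd]
    exact NM_diag k
  have hcol : ∀ m, nc N m ≤ 9 / 10 := fun m => by
    rw [hNd]
    exact nc_le h' v' hz' m
  have hc : (9 / 10 : ℝ) < 1 := by norm_num
  have hgr := gram_of_dist h'.ha
  have hsh : 0 ≤ lam * (1 - φ) := mul_nonneg hl0 (by linarith)
  have hF0 : ∀ p, 0 < Pool.Agent.Helper55.Mass.Id (flP (PN N) p) := fun p => by
    have h1 := Pool.Agent.Helper73.MEI.SideP.flN_mass hN hd hc hcol p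
    have h2 := Pool.Agent.Helper55.ApexP.PN_det_pos hN hd hc hcol
    have h3 := Pool.Agent.Helper73.MEI.SideP.mbN_ge hN p
    refine lt_of_lt_of_le ?_ h1
    have h4 : 0 < Pool.Agent.Helper73.MEI.SideP.mbN N p := by linarith
    positivity
  have hf0 : ∀ p, ∀ t, 0 ≤ flP (PN N) p t := fun p t => flP_nonneg p t
  have hfz : ∀ p, ∀ t, (¬ ∀ k, 0 ≤ mu (PN N) (vt t) k) → flP (PN N) p t = 0 := fun p t ht =>
    flP_zero (by push Not at ht; exact ht) p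
  have hfx : ∀ t, (∀ k, 0 ≤ mu (PN N) (vt t) k) → ∀ k,
      (flP (PN N) 0 t + flP (PN N) 1 t + flP (PN N) 2 t) - flP (PN N) k t ≤
        mu (PN N) (vt t) k := fun t ht k => by
    obtain ⟨p0, p1, p2⟩ := flP_pair (P := PN N) ht
    fin_cases k
    · simp only [Fin.zero_eta]
      linarith
    · simp only [Fin.mk_one]
      linarith
    · simp only [Fin.reduceFinMk]
      linarith
  have hKp : ∀ l, 0 ≤ Pool.Agent.Helper55.Mass.Id (κ l) := fun l => (hkp0 l).trans (hkp l)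
  have hβ0 : ∀ l, 0 ≤ β l := fun l => by
    by_contra hneg
    have h1 := mul_neg_of_neg_of_pos (not_le.1 hneg) (hρ l)
    have h2 := mul_nonneg hA'.le (hkp0 l)
    rw [hβ l] at h1
    linarith
  have hβ1 : ∀ l, β l ≤ 1 := fun l => by
    have h1 : β l * ρ l ≤ 1 * ρ l := by
      rw [hβ l, one_mul]
      exact hkρ l
    exact le_of_mul_le_mul_right h1 (hρ l)
  have hF' : ∀ p, (1 - β p) * ρ p ≤
      φ * ((A / 2 + 1 / 8) * Pool.Agent.Helper55.Mass.Id (flP (PN N) p)) :=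
    fun l => by
      have h1 := hβ l
      have h2 := hF l
      have e : (1 - β l) * ρ l = ρ l - β l * ρ l := by ring
      rw [e, h1]
      exact h2
  have hK : ∀ l, β l * ρ l ≤ (A / 2 + 1 / 8) * Pool.Agent.Helper55.Mass.Id (κ l) := fun l => by
    rw [hβ l]
    exact mul_le_mul_of_nonneg_left (hkp l) hA'.le
  have hM0 : ∀ l k, 0 ≤ Mr ρ l k := fun l k => Mr_nonneg (fun l => (hρ l).le) l k
  have i0 : ∀ l, 0 ≤ 1 / ((A / 2 + 1 / 8) * Pool.Agent.Helper55.Mass.Id (flP (PN N) l)) :=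
    fun l => by
      have := mul_pos hA' (hF0 l)
      positivity
  have hCk : 0 ≤ Ck := by
    have hSim : ((0 : ℝ), (0 : ℝ)) ∈ Sim := ⟨le_rfl, le_rfl, by norm_num⟩
    exact (hκ0 0 _ hSim).trans (hκC 0 _ hSim)
  have key := face_genP (ι := Unit) h.pm h.ha h.hp h.hull (fun i q hq => h.ap hq i) τ hA hN hc
    hcol
    (al := fun _ => fun t => lam * (1 - φ) * alP N ζp t) (ζ := fun _ => ζ)
    (L := fun _ => Qv a (τ 0) x)
    (μx := fun _ => 1) (R := R) (S := fun k => S (τ k.succ))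
    (μ := fun j => 1 / qM (fun i => a (τ i)) (fun i j => z (τ i) (τ j)) j) (H := H) (r := r)
    (α := ash (flP (PN N)) (fun l => Pool.Agent.Helper55.Mass.Id (flP (PN N) l)) β
      (A / 2 + 1 / 8))
    (g := ast κ (fun l => Pool.Agent.Helper55.Mass.Id (κ l)) β (A / 2 + 1 / 8))
    (Ca := lam * (1 - φ) * (1 / ζp 0) +
      (1 / ((A / 2 + 1 / 8) * Pool.Agent.Helper55.Mass.Id (flP (PN N) 0))
        + 1 / ((A / 2 + 1 / 8) * Pool.Agent.Helper55.Mass.Id (flP (PN N) 1))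
        + 1 / ((A / 2 + 1 / 8) * Pool.Agent.Helper55.Mass.Id (flP (PN N) 2))))
    (Cg := Ck / ((A / 2 + 1 / 8) * Pool.Agent.Helper55.Mass.Id (κ 0))
        + Ck / ((A / 2 + 1 / 8) * Pool.Agent.Helper55.Mass.Id (κ 1))
        + Ck / ((A / 2 + 1 / 8) * Pool.Agent.Helper55.Mass.Id (κ 2)))
    (M := Mr ρ) (E := fun p => aE σ a l (τ 0) (τ p.succ) - dE p)
    (sm := fun p => am σ a l (τ 0) (τ p.succ) - dm p) (β := β) (ω := ω) (s := s)
    (fun _ => alP_meas.const_mul _)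
    (fun _ t _ => mul_nonneg hsh (alP_nonneg hζp t))
    (fun _ t ht => by
      have := mul_le_mul_of_nonneg_left (alP_bound hN hd hc hcol hζp ht) hsh
      have j0 := i0 0
      have j1 := i0 1
      have j2 := i0 2
      linarith)
    (fun l => ((flP_meas l).div_const _).const_mul _)
    (fun l t _ => ash_nonneg hf0 hA' hF0 hβ1 l t)
    (fun l t ht => by
      have j0 := i0 0
      have j1 := i0 1
      have j2 := i0 2
      have jz : 0 ≤ lam * (1 - φ) * (1 / ζp 0) := by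
        have := hζp 0
        positivity
      have hAF := mul_pos hA' (hF0 l)
      have g1 : flP (PN N) l t / ((A / 2 + 1 / 8) * Pool.Agent.Helper55.Mass.Id (flP (PN N) l)) ≤
          1 / ((A / 2 + 1 / 8) * Pool.Agent.Helper55.Mass.Id (flP (PN N) l)) :=
        div_le_div_of_nonneg_right (f_le_one hN hd hc hcol hf0 hfz hfx l ht) hAF.le
      have g0 : 0 ≤ flP (PN N) l t /
          ((A / 2 + 1 / 8) * Pool.Agent.Helper55.Mass.Id (flP (PN N) l)) :=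
        div_nonneg (hf0 l t) hAF.le
      have g2 : ash (flP (PN N)) (fun l => Pool.Agent.Helper55.Mass.Id (flP (PN N) l)) β
          (A / 2 + 1 / 8) l t ≤
          1 / ((A / 2 + 1 / 8) * Pool.Agent.Helper55.Mass.Id (flP (PN N) l)) := by
        have hb := hβ0 l
        have := mul_nonneg hb g0
        unfold ash
        linarith
      refine g2.trans ?_
      fin_cases l
      · show 1 / ((A / 2 + 1 / 8) * Pool.Agent.Helper55.Mass.Id (flP (PN N) 0)) ≤ _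
        linarith
      · show 1 / ((A / 2 + 1 / 8) * Pool.Agent.Helper55.Mass.Id (flP (PN N) 1)) ≤ _
        linarith
      · show 1 / ((A / 2 + 1 / 8) * Pool.Agent.Helper55.Mass.Id (flP (PN N) 2)) ≤ _
        linarith)
    (fun l => ((hκm l).div_const _).const_mul _)
    (fun l t ht => ast_nonneg hκ0 hA' hβ0 hKp l ht)
    (fun l t ht => by
      have j : ∀ l, 0 ≤ Ck / ((A / 2 + 1 / 8) * Pool.Agent.Helper55.Mass.Id (κ l)) := fun l =>
        div_nonneg hCk (mul_nonneg hA'.le (hKp l))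
      have j0 := j 0
      have j1 := j 1
      have j2 := j 2
      have hAF := mul_nonneg hA'.le (hKp l)
      have g1 : κ l t / ((A / 2 + 1 / 8) * Pool.Agent.Helper55.Mass.Id (κ l)) ≤
          Ck / ((A / 2 + 1 / 8) * Pool.Agent.Helper55.Mass.Id (κ l)) :=
        div_le_div_of_nonneg_right (hκC l t ht) hAF
      have g0 : 0 ≤ κ l t / ((A / 2 + 1 / 8) * Pool.Agent.Helper55.Mass.Id (κ l)) :=
        div_nonneg (hκ0 l t ht) hAF
      have g2 : ast κ (fun l => Pool.Agent.Helper55.Mass.Id (κ l)) β (A / 2 + 1 / 8) l t ≤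
          Ck / ((A / 2 + 1 / 8) * Pool.Agent.Helper55.Mass.Id (κ l)) := by
        have hb := mul_le_mul_of_nonneg_right (hβ1 l) g0
        unfold ast
        linarith
      refine g2.trans ?_
      fin_cases l
      · show Ck / ((A / 2 + 1 / 8) * Pool.Agent.Helper55.Mass.Id (κ 0)) ≤ _
        linarith
      · show Ck / ((A / 2 + 1 / 8) * Pool.Agent.Helper55.Mass.Id (κ 1)) ≤ _
        linarith
      · show Ck / ((A / 2 + 1 / 8) * Pool.Agent.Helper55.Mass.Id (κ 2)) ≤ _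
        linarith)
    hM0
    (fun t ht k => by
      simp only [Finset.univ_unique, Finset.sum_singleton]
      exact ash_feas2 hN hd hc hcol hζp hζ hf0 hfz hfx hφ0 hφ1 hl0 hl1 hA' hF0 hF' ht k)
    (fun t ht k => ast_feas2 hκ0 hκr hA' hKp hK ht k)
    (fun l => ash_Id hA' hF0 l)
    (fun l => ast_Id hA' (by
      rcases eq_or_lt_of_le (hβ0 l) with e | hb
      · exact Or.inl e.symm
      · right
        have h1 := mul_pos hb (hρ l)
        have h2 := lt_of_lt_of_le h1 (hK l)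
        by_contra hneg
        have := mul_nonpos_of_nonneg_of_nonpos hA'.le (not_lt.1 hneg)
        linarith))
    hH hr
    (fun q hq j => by
      rw [hRd, hNd]
      exact Pt_load hz' h' v' hq j)
    (fun q hq _ => apex_load hgr (h.hd x hx q hq) (h'.hp q hq) hb)
    (fun q hq p => by
      have h0 := arc_load h.ha hl h.cpt h.pm.mem h.hp h.hd τ hq p
      have h1 := load_drop2 h'.ha (h'.hp q hq) h0 (hδ p) ((MA_nonneg τ p p).trans (hδ p))
        (hdE p) (hdm p) (hdd p)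
      refine load_mono (h'.hp q hq) h1 fun k => ?_
      unfold Mr
      by_cases hk : k = p
      · rw [if_pos hk]
        split_ifs
        · exact le_rfl
        · exact (hρ p).le
      · rw [if_neg hk, if_neg (fun e => hk e.symm)]
        exact hMρ p k hk)
    (fun q hq => ⟨v.le _ q hq, v.le _ q hq, v.le _ q hq⟩)
    hω hωC hs own hP
  have hL := LLs_perm (σ := σ) (a := a) (l := l) τ
  simp only [Finset.univ_unique, Finset.sum_singleton] at key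
  have e0 : Pool.Agent.Helper55.Mass.Id (fun t => lam * (1 - φ) * alP N ζp t) =
      lam * (1 - φ) * Pool.Agent.Helper55.Mass.Id (alP N ζp) :=
    Pool.Agent.Helper55.Mass.Id_const (lam * (1 - φ)) (alP N ζp)
  have e1 : τ (Fin.succ 0) = τ 1 := rfl
  have e2 : τ (Fin.succ 1) = τ 2 := rfl
  have e3 : τ (Fin.succ 2) = τ 3 := rfl
  rw [e0, e1, e2, e3] at key
  have m00 : Mr ρ 0 0 = 0 := rfl
  have m01 : Mr ρ 0 1 = ρ 0 := rfl
  have m02 : Mr ρ 0 2 = ρ 0 := rfl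
  have m10 : Mr ρ 1 0 = ρ 1 := rfl
  have m11 : Mr ρ 1 1 = 0 := rfl
  have m12 : Mr ρ 1 2 = ρ 1 := rfl
  have m20 : Mr ρ 2 0 = ρ 2 := rfl
  have m21 : Mr ρ 2 1 = ρ 2 := rfl
  have m22 : Mr ρ 2 2 = 0 := rfl
  rw [m00, m01, m02, m10, m11, m12, m20, m21, m22] at key
  have b0 := hβ 0
  have b1 := hβ 1
  have b2 := hβ 2
  rw [hL]
  refine le_trans (le_of_eq ?_) key
  linear_combination -((S (τ 2) + R 1) + (S (τ 3) + R 2)) * b0
    - ((S (τ 1) + R 0) + (S (τ 3) + R 2)) * b1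
    - ((S (τ 1) + R 0) + (S (τ 2) + R 1)) * b2

end Helper78.MEI
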