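import Pool.Agent.Helper78.MEI.FaceS

/-!
# Project MEI (M2), faces: loads on the residual of the filling (strip arcs)

* `face_plane_res`: `face_plane_W` with a second family of loads `g n ≥ 0` that live on the residual
  `rr` (columns `M n` in the plain coordinates, values `E n` of any sign);
* `face_strip`: `face_share` with a part `β l` of every arc in the wall strips (helper96).
-/

namespace Helper78.MEI

open Set Metric MeasureTheory Real Helper80.CW Helper82.CW Helper14.CW Helper22.Sig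
open Helper22.Wedge Helper14.MEI2 Pool.Agent.Helper73.MEI Helper33.MEI Helper93.MEI
open Pool.Agent.Helper52.MEI
open Pool.Agent.Helper55.Sx (Sim mm mm_pos mm_cont mt_mm deg1 int_Dl)
open Pool.Agent.Helper55.Mass (LN LN_nonneg vv vv_nonneg vv_le B0 intOn)
open Pool.Agent.Helper55.Apex (nc vt_vv)
open Pool.Agent.Helper55.ApexP (PN alP alP_nonneg alP_zeta alP_meas alP_bound xx_mu alP_int)
open Pool.Agent.Helper55.Fill (xx rr xe wc xe_bal rr_nonneg xx_meas rr_meas xx_nonneg xx_le rr_int)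
open Helper75.MEI2 (mu vt)
open scoped RealInnerProductSpace ENNReal

variable {a : Fin 4 → E3} {σ : Measure (E3 × E3)} [IsFiniteMeasure σ] {K : Set E3}

section res
variable {N : Fin 3 → Fin 3 → ℝ} {ι κ : Type*} [Fintype ι] [Fintype κ]

/-- value of the filling with residual loads -/
noncomputable def Gr (N : Fin 3 → Fin 3 → ℝ) (al : ι → ℝ × ℝ → ℝ) (ζ : ι → Fin 3 → ℝ)
    (L : ι → ℝ) (R S : Fin 3 → ℝ) (g : κ → ℝ × ℝ → ℝ) (M : κ → Fin 3 → ℝ) (E : κ → ℝ)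
    (t : ℝ × ℝ) : ℝ :=
  Gd N al ζ L R S t + ∑ n, (E n + (M n 0 * S 0 + M n 1 * S 1 + M n 2 * S 2)) * g n t

/-- mass deficit of the filling with residual loads -/
noncomputable def Dr (N : Fin 3 → Fin 3 → ℝ) (al : ι → ℝ × ℝ → ℝ) (ζ : ι → Fin 3 → ℝ)
    (μ : Fin 3 → ℝ) (μx : ι → ℝ) (g : κ → ℝ × ℝ → ℝ) (M : κ → Fin 3 → ℝ) (sm : κ → ℝ)
    (t : ℝ × ℝ) : ℝ :=
  Dd N al ζ μ μx t + ∑ n, ((M n 0 + M n 1 + M n 2) - sm n) * g n t

/-- **pointwise bound with residual loads** -/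
theorem fill_res (h : Gram4 (al a)) {al : ι → ℝ × ℝ → ℝ} {ζ : ι → Fin 3 → ℝ} {L μx : ι → ℝ}
    {g : κ → ℝ × ℝ → ℝ} {M : κ → Fin 3 → ℝ} {E sm : κ → ℝ}
    {R S μ : Fin 3 → ℝ} {q : E3} {t : ℝ × ℝ} (hal : ∀ m, 0 ≤ al m t)
    (hxe : ∀ j, 0 ≤ xe N al ζ t j) (hg : ∀ n, 0 ≤ g n t)
    (hres : ∀ k, ∑ n, g n t * M n k ≤ rr N (vv t) k)
    (nodes : ∀ j, Load a q (R j) (μ j) (fun k => (if k = j then 1 else 0) + N k j))
    (extra : ∀ m, Load a q (L m) (μx m) (fun k => ζ m k + LN N (ζ m) k))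
    (arcs : ∀ n, Load a q (E n) (sm n) (M n))
    (h1 : Qv a 1 q ≤ S 0) (h2 : Qv a 2 q ≤ S 1) (h3 : Qv a 3 q ≤ S 2) :
    Gr N al ζ L R S g M E t + (1 - Dr N al ζ μ μx g M sm t) * ‖a 0 - q‖ ^ 2 ≤ Yt a t q := by
  have l1 := Load.sum (Finset.univ : Finset (Fin 3)) (q := q) (L := fun j => xe N al ζ t j * R j)
    (m := fun j => xe N al ζ t j * μ j)
    (M := fun j => fun k => xe N al ζ t j * ((if k = j then 1 else 0) + N k j))
    (fun j _ => (nodes j).smul (hxe j))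
  have l2 := Load.sum (Finset.univ : Finset ι) (q := q) (L := fun m => al m t * L m)
    (m := fun m => al m t * μx m)
    (M := fun m => fun k => al m t * (ζ m k + LN N (ζ m) k))
    (fun m _ => (extra m).smul (hal m))
  have l3 := Load.sum (Finset.univ : Finset κ) (q := q) (L := fun n => g n t * E n)
    (m := fun n => g n t * sm n)
    (M := fun n => fun k => g n t * M n k)
    (fun n _ => (arcs n).smul (hg n))
  have l := (l1.add l2).add l3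
  set X : Fin 3 → ℝ := fun k => ∑ n, g n t * M n k with hX
  have hM : ∀ k, (∑ j, xe N al ζ t j * ((if k = j then (1 : ℝ) else 0) + N k j)) +
      ∑ m, al m t * (ζ m k + LN N (ζ m) k) = T3 t k - rr N (vv t) k := by
    intro k
    have hb := xe_bal (N := N) al ζ t k
    rw [T3_vv, ← hb]
    have e : ∑ j, xe N al ζ t j * ((if k = j then (1 : ℝ) else 0) + N k j) =
        xe N al ζ t k + LN N (xe N al ζ t) k := by
      simp only [Fin.sum_univ_three, LN]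
      fin_cases k <;> simp <;> ring
    rw [e]
    ring
  have key := Yt_load_caps h (t := t) l (fun k => by
    have := hres k
    rw [hM k]
    linarith) h1 h2 h3
  beta_reduce at key
  rw [hM 0, hM 1, hM 2] at key
  have e1 : (T3 t 0 - rr N (vv t) 0) + (T3 t 1 - rr N (vv t) 1) + (T3 t 2 - rr N (vv t) 2)
      - (∑ j, xe N al ζ t j * μ j + ∑ m, al m t * μx m) = Dd N al ζ μ μx t := by
    rw [← hM 0, ← hM 1, ← hM 2]
    unfold Dd
    simp only [Fin.sum_univ_three, nc, mul_sub, Finset.sum_sub_distrib,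
      mul_add, Finset.sum_add_distrib]
    simp
    ring
  have e2 : (∑ j, xe N al ζ t j * R j + ∑ m, al m t * L m)
      - ((T3 t 0 - (T3 t 0 - rr N (vv t) 0)) * S 0 + (T3 t 1 - (T3 t 1 - rr N (vv t) 1)) * S 1
        + (T3 t 2 - (T3 t 2 - rr N (vv t) 2)) * S 2) = Gd N al ζ L R S t := by
    unfold Gd
    simp only [Fin.sum_univ_three]
    ring
  have e3 : ∑ n, (E n + (M n 0 * S 0 + M n 1 * S 1 + M n 2 * S 2)) * g n t =
      ∑ n, g n t * E n + (X 0 * S 0 + X 1 * S 1 + X 2 * S 2) := by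
    simp only [hX, Finset.sum_mul, ← Finset.sum_add_distrib]
    exact Finset.sum_congr rfl fun n _ => by ring
  have e4 : ∑ n, ((M n 0 + M n 1 + M n 2) - sm n) * g n t =
      (X 0 + X 1 + X 2) - ∑ n, g n t * sm n := by
    simp only [hX, ← Finset.sum_add_distrib, ← Finset.sum_sub_distrib]
    exact Finset.sum_congr rfl fun n _ => by ring
  unfold Gr Dr
  rw [e3, e4, ← e1, ← e2]
  linarith only [key]

theorem Gr_meas (hN : ∀ k m, 0 ≤ N k m) {c : ℝ} (hc : c < 1) (hcol : ∀ m, nc N m ≤ c)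
    {al : ι → ℝ × ℝ → ℝ} (halm : ∀ m, Measurable (al m)) (ζ : ι → Fin 3 → ℝ) (L : ι → ℝ)
    (R S : Fin 3 → ℝ) {g : κ → ℝ × ℝ → ℝ} (hgm : ∀ n, Measurable (g n)) (M : κ → Fin 3 → ℝ)
    (E : κ → ℝ) : Measurable (Gr N al ζ L R S g M E) := by
  unfold Gr
  exact (Gd_meas hN hc hcol halm ζ L R S).add
    (Finset.measurable_fun_sum _ fun n _ => (hgm n).const_mul _)

theorem sum_bd {f : κ → ℝ} {g : κ → ℝ × ℝ → ℝ} {Cg : ℝ} {t : ℝ × ℝ}
    (hg : ∀ n, |g n t| ≤ Cg) : |∑ n, f n * g n t| ≤ Cg * ∑ n, |f n| := by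
  calc |∑ n, f n * g n t| ≤ ∑ n, |f n * g n t| := Finset.abs_sum_le_sum_abs _ _
    _ ≤ ∑ n, Cg * |f n| := Finset.sum_le_sum fun n _ => by
        rw [abs_mul, mul_comm]
        exact mul_le_mul_of_nonneg_right (hg n) (abs_nonneg _)
    _ = Cg * ∑ n, |f n| := by rw [Finset.mul_sum]

/-- mass of the certificate with residual loads -/
theorem Id_Gr (hN : ∀ k m, 0 ≤ N k m) {c : ℝ} (hc : c < 1) (hcol : ∀ m, nc N m ≤ c)
    {al : ι → ℝ × ℝ → ℝ} (halm : ∀ m, Measurable (al m)) {Ca : ℝ}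
    (halA : ∀ m, ∀ t ∈ Sim, |al m t| ≤ Ca) (ζ : ι → Fin 3 → ℝ) (L : ι → ℝ)
    (R S : Fin 3 → ℝ) {g : κ → ℝ × ℝ → ℝ} (hgm : ∀ n, Measurable (g n)) {Cg : ℝ}
    (hgA : ∀ n, ∀ t ∈ Sim, |g n t| ≤ Cg) (M : κ → Fin 3 → ℝ) (E : κ → ℝ) :
    Pool.Agent.Helper55.Mass.Id (Gr N al ζ L R S g M E) =
      Pool.Agent.Helper55.Mass.Id (Gd N al ζ L R S)
      + ∑ n, (E n + (M n 0 * S 0 + M n 1 * S 1 + M n 2 * S 2)) *
        Pool.Agent.Helper55.Mass.Id (g n) := by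
  obtain ⟨C1, hC1⟩ := Gd_bd hN hc hcol halA ζ L R S
  have i1 : IntegrableOn (fun t => Gd N al ζ L R S t / mm t ^ 2) Sim :=
    intOn (Gd_meas hN hc hcol halm ζ L R S) hC1
  have i2 : ∀ n, IntegrableOn (fun t => g n t / mm t ^ 2) Sim := fun n => intOn (hgm n) (hgA n)
  set f : κ → ℝ := fun n => E n + (M n 0 * S 0 + M n 1 * S 1 + M n 2 * S 2) with hf
  have hE : ∀ t : ℝ × ℝ, Gr N al ζ L R S g M E t / mm t ^ 2 =
      Gd N al ζ L R S t / mm t ^ 2 + ∑ n, f n * (g n t / mm t ^ 2) := by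
    intro t
    have e1 : ∑ n, f n * (g n t / mm t ^ 2) = (∑ n, f n * g n t) / mm t ^ 2 := by
      rw [Finset.sum_div]
      exact Finset.sum_congr rfl fun n _ => by ring
    unfold Gr
    rw [e1, add_div]
  have i3 : IntegrableOn (fun t => ∑ n, f n * (g n t / mm t ^ 2)) Sim :=
    integrable_finsetSum _ fun n _ => (i2 n).const_mul _
  unfold Pool.Agent.Helper55.Mass.Id
  simp only [hE]
  rw [integral_add i1 i3, integral_finsetSum _ fun n _ => (i2 n).const_mul _, mul_add,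
    Finset.mul_sum]
  refine congrArg₂ (· + ·) rfl (Finset.sum_congr rfl fun n _ => ?_)
  rw [integral_const_mul]
  ring

/-- **the exact filling with loads on the residual**, contact plane form, cost through the range -/
theorem face_plane_res (h : PM K σ)
    (ha : ∀ i j, i ≠ j → dist (a i) (a j) = 1)
    (hull : ∀ p, (∀ q ∈ K, ‖p - q‖ ≤ 1) → p ∈ K) (hQ : ∀ i, ∀ q ∈ K, Qv a i q ≤ 3 / 16)
    (τ : Equiv.Perm (Fin 4)) {A : ℝ} (hA : 7 / 2 ≤ A)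
    (hN : ∀ k m, 0 ≤ N k m) {c : ℝ} (hc : c < 1) (hcol : ∀ m, nc N m ≤ c)
    {al : ι → ℝ × ℝ → ℝ} (halm : ∀ m, Measurable (al m)) (hal : ∀ m, ∀ t ∈ Sim, 0 ≤ al m t)
    {Ca : ℝ} (halC : ∀ m, ∀ t ∈ Sim, al m t ≤ Ca)
    {ζ : ι → Fin 3 → ℝ} {L μx : ι → ℝ} {R S μ H r : Fin 3 → ℝ}
    {g : κ → ℝ × ℝ → ℝ} (hgm : ∀ n, Measurable (g n)) (hg : ∀ n, ∀ t ∈ Sim, 0 ≤ g n t)
    {Cg : ℝ} (hgC : ∀ n, ∀ t ∈ Sim, g n t ≤ Cg)
    {M : κ → Fin 3 → ℝ} {E sm : κ → ℝ}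
    (hres : ∀ t ∈ Sim, ∀ k, ∑ n, g n t * M n k ≤ rr N (vv t) k)
    (hH : ∀ j, H j + (N 0 j * H 0 + N 1 j * H 1 + N 2 j * H 2) = R j)
    (hr : ∀ k, Pool.Agent.Helper55.Mass.Id (fun t => rr N (vv t) k) ≤ r k)
    (hxe : ∀ t ∈ Sim, ∀ j, 0 ≤ xe N al ζ t j)
    (nodes : ∀ q ∈ K, ∀ j, Load (fun i => a (τ i)) q (R j) (μ j)
      (fun k => (if k = j then 1 else 0) + N k j))
    (extra : ∀ q ∈ K, ∀ m, Load (fun i => a (τ i)) q (L m) (μx m)
      (fun k => ζ m k + LN N (ζ m) k))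
    (arcs : ∀ q ∈ K, ∀ n, Load (fun i => a (τ i)) q (E n) (sm n) (M n))
    (caps : ∀ q ∈ K, Qv a (τ 1) q ≤ S 0 ∧ Qv a (τ 2) q ≤ S 1 ∧ Qv a (τ 3) q ≤ S 2)
    {D W ω : ℝ × ℝ → ℝ} {C2 : ℝ}
    (hD : ∀ t ∈ Dl, Dd N al ζ μ μx t + ∑ n, ((M n 0 + M n 1 + M n 2) - sm n) * g n t ≤ D t)
    (hω : AEStronglyMeasurable ω (volume.restrict Dl)) (hωC : ∀ t ∈ Dl, |ω t| ≤ C2)
    {s : ℝ × ℝ → ℝ} (hs : ∀ t ∈ Dl, 0 ≤ s t)
    (own : ∀ p ∈ K, tx (fun i => a (τ i)) p ∈ Dl →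
      Qv a (τ 0) p ≤ s (tx (fun i => a (τ i)) p))
    (hW : ∀ t ∈ Dl, ∀ q ∈ K,
      Yt (fun i => a (τ i)) t q / √(Helper33.MEI.mt t) - ‖a (τ 0) - q‖ ^ 2 ≤ s t →
      ‖a (τ 0) - q‖ ^ 2 ≤ W t) (hW2 : ∀ t ∈ Dl, W t < 2)
    (hcost : ∀ t ∈ Dl, cost (A / 2 + 1 / 8)
      ((Gd N al ζ L R S t + ∑ n, (E n + (M n 0 * S 0 + M n 1 * S 1 + M n 2 * S 2)) * g n t)
        / √(Helper33.MEI.mt t))
      (1 - (1 - D t) / √(Helper33.MEI.mt t)) (W t) ≤ ω t) :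
    (A / 2 + 1 / 8) *
      (∑ m, (L m - ((ζ m 0 + LN N (ζ m) 0) * H 0 + (ζ m 1 + LN N (ζ m) 1) * H 1
          + (ζ m 2 + LN N (ζ m) 2) * H 2)) * Pool.Agent.Helper55.Mass.Id (al m)
        + B0 * (H 0 + H 1 + H 2)
        - (r 0 * max (S 0 + H 0) 0 + r 1 * max (S 1 + H 1) 0 + r 2 * max (S 2 + H 2) 0)
        + ∑ n, (E n + (M n 0 * S 0 + M n 1 * S 1 + M n 2 * S 2)) *
          Pool.Agent.Helper55.Mass.Id (g n))
      - (√2)⁻¹ * ∫ t in Dl, ω t * M3 t ≤ Wi a (τ 0) K σ A := by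
  have ha' : ∀ i j, i ≠ j → dist (a (τ i)) (a (τ j)) = 1 :=
    fun i j hij => ha _ _ fun h => hij (τ.injective h)
  have hgr := gram_of_dist ha'
  have halA : ∀ m, ∀ t ∈ Sim, |al m t| ≤ Ca := fun m t ht => by
    rw [abs_of_nonneg (hal m t ht)]
    exact halC m t ht
  have hgA : ∀ n, ∀ t ∈ Sim, |g n t| ≤ Cg := fun n t ht => by
    rw [abs_of_nonneg (hg n t ht)]
    exact hgC n t ht
  obtain ⟨C1, hC1⟩ := Gd_bd hN hc hcol halA ζ L R S
  have hint : ∀ m, IntegrableOn (fun t => al m t / mm t ^ 2) Sim := fun m =>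
    Pool.Agent.Helper55.Mass.intOn (halm m) (halA m)
  have hGC : ∀ t ∈ Sim, |Gr N al ζ L R S g M E t| ≤
      C1 + Cg * ∑ n, |E n + (M n 0 * S 0 + M n 1 * S 1 + M n 2 * S 2)| := by
    intro t ht
    have k1 := hC1 t ht
    have k2 := sum_bd (f := fun n => E n + (M n 0 * S 0 + M n 1 * S 1 + M n 2 * S 2))
      (fun n => hgA n t ht)
    unfold Gr
    exact (abs_add_le _ _).trans (add_le_add k1 k2)
  have hY : ∀ t ∈ Dl, ∀ q ∈ K, Gr N al ζ L R S g M E t + (1 - D t) * ‖a (τ 0) - q‖ ^ 2 ≤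
      Yt (fun i => a (τ i)) t q := by
    intro t ht q hq
    have k1 := fill_res hgr (fun m => hal m t (Dl_Sim ht))
      (hxe t (Dl_Sim ht)) (fun n => hg n t (Dl_Sim ht)) (hres t (Dl_Sim ht))
      (nodes q hq) (extra q hq) (arcs q hq) (caps q hq).1 (caps q hq).2.1
      (caps q hq).2.2
    have k2 := mul_le_mul_of_nonneg_right (hD t ht) (sq_nonneg ‖a (τ 0) - q‖)
    unfold Dr at k1
    linarith
  have key := face_W h ha hull hQ τ hA (Gr_meas hN hc hcol halm ζ L R S hgm M E) hGC hω hωC hs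
    own hY hW hW2 (fun t ht => hcost t ht)
  rw [Id_Gr hN hc hcol halm halA ζ L R S hgm hgA M E] at key
  have hv := plane_Id hN hc hcol hint (ζ := ζ) (L := L) (S := S) hH hr
  have hA' : 0 ≤ A / 2 + 1 / 8 := by linarith
  have hv' := mul_le_mul_of_nonneg_left hv hA'
  linarith only [hv', key]

end res

/-- the certificate with general weights: extra nodes `al m`, arcs `α l` in the cone, `g l` on the
residual -/
noncomputable def Gg {ι : Type*} [Fintype ι] (N : Fin 3 → Fin 3 → ℝ) (al : ι → ℝ × ℝ → ℝ)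
    (ζ : ι → Fin 3 → ℝ) (L : ι → ℝ) (α g : Fin 3 → ℝ × ℝ → ℝ) (M : Fin 3 → Fin 3 → ℝ)
    (E R S : Fin 3 → ℝ) (t : ℝ × ℝ) : ℝ :=
  ∑ m, al m t * L m + ∑ l, α l t * E l
    + ((xx N (vv t) 0 - (∑ m, al m t * ζ m 0 + ∑ l, α l t * M l 0)) * R 0
      + (xx N (vv t) 1 - (∑ m, al m t * ζ m 1 + ∑ l, α l t * M l 1)) * R 1
      + (xx N (vv t) 2 - (∑ m, al m t * ζ m 2 + ∑ l, α l t * M l 2)) * R 2)
    - (rr N (vv t) 0 * S 0 + rr N (vv t) 1 * S 1 + rr N (vv t) 2 * S 2)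
    + ∑ l, (E l + (M l 0 * S 0 + M l 1 * S 1 + M l 2 * S 2)) * g l t

/-- its mass deficit -/
noncomputable def Dg {ι : Type*} [Fintype ι] (N : Fin 3 → Fin 3 → ℝ) (al : ι → ℝ × ℝ → ℝ)
    (ζ : ι → Fin 3 → ℝ) (μ : Fin 3 → ℝ) (μx : ι → ℝ) (α g : Fin 3 → ℝ × ℝ → ℝ)
    (M : Fin 3 → Fin 3 → ℝ) (sm : Fin 3 → ℝ) (t : ℝ × ℝ) : ℝ :=
  ∑ k, (xx N (vv t) k - (∑ m, al m t * ζ m k + ∑ l, α l t * M l k)) * (1 + nc N k - μ k)
    + ∑ m, al m t * ((∑ k, (ζ m k + LN N (ζ m) k)) - μx m)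
    + ∑ l, α l t * ((∑ k, (M l k + LN N (M l) k)) - sm l)
    + ∑ l, ((M l 0 + M l 1 + M l 2) - sm l) * g l t

/-- **FACE THEOREM, GENERAL WEIGHTS.** Nodes, a finite family of extra nodes `m : ι` (apex, others)
with weights `al m`, arcs `l` with the weights `α l` in the cone (contact coordinates) and `g l` on
the residual; `A' Id (α l) = 1 - β l`, `A' Id (g l) = β l`: the values `E l` (any sign) are counted
exactly once. -/
theorem face_gen {ι : Type*} [Fintype ι] (h : PM K σ)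
    (ha : ∀ i j, i ≠ j → dist (a i) (a j) = 1) (hp : ∀ x ∈ K, Pl a x)
    (hull : ∀ p, (∀ q ∈ K, ‖p - q‖ ≤ 1) → p ∈ K) (hQ : ∀ i, ∀ q ∈ K, Qv a i q ≤ 3 / 16)
    (τ : Equiv.Perm (Fin 4)) {A : ℝ} (hA : 7 / 2 ≤ A)
    {N : Fin 3 → Fin 3 → ℝ} (hN : ∀ k m, 0 ≤ N k m) {c : ℝ} (hc : c < 1)
    (hcol : ∀ m, nc N m ≤ c)
    {al : ι → ℝ × ℝ → ℝ} (halm : ∀ m, Measurable (al m)) (hal : ∀ m, ∀ t ∈ Sim, 0 ≤ al m t)
    {Ca : ℝ} (halC : ∀ m, ∀ t ∈ Sim, al m t ≤ Ca)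
    {ζ : ι → Fin 3 → ℝ} {L μx : ι → ℝ} {R S μ H r : Fin 3 → ℝ}
    {α g : Fin 3 → ℝ × ℝ → ℝ} (hαm : ∀ l, Measurable (α l)) (hα0 : ∀ l, ∀ t ∈ Sim, 0 ≤ α l t)
    (hαC : ∀ l, ∀ t ∈ Sim, α l t ≤ Ca)
    (hgm : ∀ n, Measurable (g n)) (hg : ∀ n, ∀ t ∈ Sim, 0 ≤ g n t)
    {Cg : ℝ} (hgC : ∀ n, ∀ t ∈ Sim, g n t ≤ Cg)
    {M : Fin 3 → Fin 3 → ℝ} (hM0 : ∀ l k, 0 ≤ M l k) {E sm β : Fin 3 → ℝ}
    (hx : ∀ t ∈ Sim, ∀ k, ∑ m, al m t * ζ m k + ∑ l, α l t * M l k ≤ xx N (vv t) k)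
    (hres : ∀ t ∈ Sim, ∀ k, ∑ l, g l t * M l k ≤ rr N (vv t) k)
    (hαI : ∀ l, (A / 2 + 1 / 8) * Pool.Agent.Helper55.Mass.Id (α l) = 1 - β l)
    (hgI : ∀ l, (A / 2 + 1 / 8) * Pool.Agent.Helper55.Mass.Id (g l) = β l)
    (hH : ∀ j, H j + (N 0 j * H 0 + N 1 j * H 1 + N 2 j * H 2) = R j)
    (hr : ∀ k, Pool.Agent.Helper55.Mass.Id (fun t => rr N (vv t) k) ≤ r k)
    (nodes : ∀ q ∈ K, ∀ j, Load (fun i => a (τ i)) q (R j) (μ j)
      (fun k => (if k = j then 1 else 0) + N k j))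
    (extra : ∀ q ∈ K, ∀ m, Load (fun i => a (τ i)) q (L m) (μx m)
      (fun k => ζ m k + LN N (ζ m) k))
    (arcs : ∀ q ∈ K, ∀ l, Load (fun i => a (τ i)) q (E l) (sm l) (M l))
    (caps : ∀ q ∈ K, Qv a (τ 1) q ≤ S 0 ∧ Qv a (τ 2) q ≤ S 1 ∧ Qv a (τ 3) q ≤ S 2)
    {D W ω : ℝ × ℝ → ℝ} {C2 : ℝ}
    (hD : ∀ t ∈ Dl, Dg N al ζ μ μx α g M sm t ≤ D t)
    (hω : AEStronglyMeasurable ω (volume.restrict Dl)) (hωC : ∀ t ∈ Dl, |ω t| ≤ C2)
    {s : ℝ × ℝ → ℝ} (hs : ∀ t ∈ Dl, 0 ≤ s t)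
    (own : ∀ p ∈ K, tx (fun i => a (τ i)) p ∈ Dl →
      Qv a (τ 0) p ≤ s (tx (fun i => a (τ i)) p))
    (hW : ∀ t ∈ Dl, ∀ q ∈ K,
      Yt (fun i => a (τ i)) t q / √(Helper33.MEI.mt t) - ‖a (τ 0) - q‖ ^ 2 ≤ s t →
      ‖a (τ 0) - q‖ ^ 2 ≤ W t) (hW2 : ∀ t ∈ Dl, W t < 2)
    (hcost : ∀ t ∈ Dl, cost (A / 2 + 1 / 8)
      (Gg N al ζ L α g M E R S t / √(Helper33.MEI.mt t))
      (1 - (1 - D t) / √(Helper33.MEI.mt t)) (W t) ≤ ω t) :
    E 0 + E 1 + E 2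
      + (A / 2 + 1 / 8) * (B0 * (H 0 + H 1 + H 2)
        - (r 0 * max (S 0 + H 0) 0 + r 1 * max (S 1 + H 1) 0 + r 2 * max (S 2 + H 2) 0)
        + ∑ m, (L m - (ζ m 0 * R 0 + ζ m 1 * R 1 + ζ m 2 * R 2)) *
          Pool.Agent.Helper55.Mass.Id (al m))
      - ((1 - β 0) * (M 0 0 * R 0 + M 0 1 * R 1 + M 0 2 * R 2)
        + (1 - β 1) * (M 1 0 * R 0 + M 1 1 * R 1 + M 1 2 * R 2)
        + (1 - β 2) * (M 2 0 * R 0 + M 2 1 * R 1 + M 2 2 * R 2))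
      + (β 0 * (M 0 0 * S 0 + M 0 1 * S 1 + M 0 2 * S 2)
        + β 1 * (M 1 0 * S 0 + M 1 1 * S 1 + M 1 2 * S 2)
        + β 2 * (M 2 0 * S 0 + M 2 1 * S 1 + M 2 2 * S 2))
      - (√2)⁻¹ * ∫ t in Dl, ω t * M3 t ≤ Wi a (τ 0) K σ A := by
  set A' := A / 2 + 1 / 8 with hA'def
  have hpτ : ∀ q ∈ K, Pl (fun i => a (τ i)) q := fun q hq i j hij =>
    hp q hq (τ i) (τ j) (τ.injective.ne hij)
  have exe : ∀ t k, xe N (Sum.elim al α) (Sum.elim ζ M) t k =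
      xx N (vv t) k - (∑ m, al m t * ζ m k + ∑ l, α l t * M l k) := by
    intro t k
    unfold xe
    rw [Fintype.sum_sum_type]
    rfl
  have key := face_plane_res h ha hull hQ τ hA hN hc hcol
    (al := Sum.elim al α) (ζ := Sum.elim ζ M) (L := Sum.elim L E) (μx := Sum.elim μx sm)
    (Ca := Ca) (R := R) (S := S) (μ := μ) (H := H) (r := r) (g := g) (M := M) (E := E) (sm := sm)
    (D := D) (W := W) (ω := ω) (s := s)
    (fun m => by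
      cases m with
      | inl m => exact halm m
      | inr l => exact hαm l)
    (fun m => by
      cases m with
      | inl m => exact hal m
      | inr l => exact hα0 l)
    (fun m => by
      cases m with
      | inl m => exact halC m
      | inr l => exact hαC l)
    hgm hg hgC hres hH hr
    (fun t ht k => by
      rw [exe]
      have := hx t ht k
      linarith)
    nodes
    (fun q hq m => by
      cases m with
      | inl m => exact extra q hq m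
      | inr l =>
        refine load_mono (hpτ q hq) (arcs q hq l) fun k => ?_
        have := LN_nonneg hN (hM0 l) k
        show M l k ≤ M l k + LN N (M l) k
        linarith)
    arcs caps
    (fun t ht => by
      refine le_trans (le_of_eq ?_) (hD t ht)
      unfold Dd Dg
      simp only [exe, Fintype.sum_sum_type, Sum.elim_inl, Sum.elim_inr]
      ring)
    hω hωC hs own hW hW2
    (fun t ht => by
      refine le_trans (le_of_eq ?_) (hcost t ht)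
      unfold Gd Gg
      simp only [exe, Fintype.sum_sum_type, Sum.elim_inl, Sum.elim_inr]
      rw [hA'def])
  have n := fun m => plane_node hH (ζ m)
  have q0 := plane_node hH (M 0)
  have q1 := plane_node hH (M 1)
  have q2 := plane_node hH (M 2)
  simp only [Fintype.sum_sum_type, Sum.elim_inl, Sum.elim_inr, n, Fin.sum_univ_three, q0, q1, q2]
    at key
  rw [← hA'def] at key
  have a0 := hαI 0
  have a1 := hαI 1
  have a2 := hαI 2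
  have g0 := hgI 0
  have g1 := hgI 1
  have g2 := hgI 2
  refine le_trans (le_of_eq ?_) key
  linear_combination -(E 0 - (M 0 0 * R 0 + M 0 1 * R 1 + M 0 2 * R 2)) * a0
    - (E 1 - (M 1 0 * R 0 + M 1 1 * R 1 + M 1 2 * R 2)) * a1
    - (E 2 - (M 2 0 * R 0 + M 2 1 * R 1 + M 2 2 * R 2)) * a2
    - (E 0 + (M 0 0 * S 0 + M 0 1 * S 1 + M 0 2 * S 2)) * g0
    - (E 1 + (M 1 0 * S 0 + M 1 1 * S 1 + M 1 2 * S 2)) * g1
    - (E 2 + (M 2 0 * S 0 + M 2 1 * S 1 + M 2 2 * S 2)) * g2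

/-! ### shares and strips -/

section strip
variable {N : Fin 3 → Fin 3 → ℝ} {ζ ζp : Fin 3 → ℝ} {f κ : Fin 3 → ℝ × ℝ → ℝ}
  {F Kp β : Fin 3 → ℝ} {A' φ ρ lam : ℝ} {M : Fin 3 → Fin 3 → ℝ}

/-- weight of the arcs on the share -/
noncomputable def ash (f : Fin 3 → ℝ × ℝ → ℝ) (F β : Fin 3 → ℝ) (A' : ℝ) (l : Fin 3) (t : ℝ × ℝ) :
    ℝ := (1 - β l) * (f l t / (A' * F l))

/-- weight of the arcs in the strips -/
noncomputable def ast (κ : Fin 3 → ℝ × ℝ → ℝ) (Kp β : Fin 3 → ℝ) (A' : ℝ) (l : Fin 3) (t : ℝ × ℝ) :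
    ℝ := β l * (κ l t / (A' * Kp l))

/-- feasibility in the cone -/
theorem ash_feas (hN : ∀ k m, 0 ≤ N k m) (hd : ∀ k, N k k = 0) {c : ℝ} (hc : c < 1)
    (hcol : ∀ m, nc N m ≤ c) (hζp : ∀ k, 0 < ζp k) (hζ : ∀ k, ζ k ≤ ζp k)
    (hf0 : ∀ l, ∀ t, 0 ≤ f l t)
    (hfz : ∀ l, ∀ t, (¬ ∀ k, 0 ≤ mu (PN N) (vt t) k) → f l t = 0)
    (hfx : ∀ t, (∀ k, 0 ≤ mu (PN N) (vt t) k) → ∀ k,
      (f 0 t + f 1 t + f 2 t) - f k t ≤ mu (PN N) (vt t) k)
    (hφ0 : 0 ≤ φ) (hφ1 : φ ≤ 1) (hl0 : 0 ≤ lam) (hl1 : lam ≤ 1)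
    (hA' : 0 < A') (hF0 : ∀ l, 0 < F l) (hβ1 : ∀ l, β l ≤ 1)
    (hF : ∀ l, (1 - β l) * ρ ≤ φ * (A' * F l))
    (hMl : ∀ l, M l l = 0) (hMρ : ∀ l k, M l k ≤ ρ) {t : ℝ × ℝ} (ht : t ∈ Sim) (k : Fin 3) :
    lam * (1 - φ) * alP N ζp t * ζ k + ∑ l, ash f F β A' l t * M l k ≤ xx N (vv t) k := by
  rw [Fin.sum_univ_three]
  have hx0 := xx_nonneg hN hc hcol (fun k => vv_nonneg ht k) k
  have hs : 0 ≤ lam * (1 - φ) := mul_nonneg hl0 (by linarith)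
  have hs1 : lam * (1 - φ) ≤ 1 - φ := by nlinarith
  by_cases h : ∀ k, 0 ≤ mu (PN N) (vt t) k
  · have h2 : xx N (vv t) k = mu (PN N) (vt t) k := by
      rw [← vt_vv, xx_mu hN hd hc hcol h]
    have hx := h k
    have ha := alP_zeta hζp h k
    have ha0 := alP_nonneg (N := N) hζp t
    have hz := mul_le_mul_of_nonneg_left (hζ k) ha0
    have e1 : lam * (1 - φ) * alP N ζp t * ζ k ≤ (1 - φ) * mu (PN N) (vt t) k := by
      have g1 := mul_le_mul_of_nonneg_left (hz.trans ha) hs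
      have g2 := mul_le_mul_of_nonneg_right hs1 hx
      linarith
    have arc : ∀ l, ash f F β A' l t * M l k ≤ φ * (if l = k then 0 else f l t) := by
      intro l
      by_cases hlk : l = k
      · rw [hlk, hMl, if_pos rfl]
        simp
      · rw [if_neg hlk]
        have hAF : 0 < A' * F l := mul_pos hA' (hF0 l)
        have hb : 0 ≤ 1 - β l := by have := hβ1 l; linarith
        have g0 : 0 ≤ f l t / (A' * F l) := div_nonneg (hf0 l t) hAF.le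
        have g1 := mul_le_mul_of_nonneg_left (hMρ l k) (mul_nonneg hb g0)
        have g3 := mul_le_mul_of_nonneg_left (hF l) g0
        have g2 : f l t / (A' * F l) * (φ * (A' * F l)) = φ * f l t := by
          rw [show f l t / (A' * F l) * (φ * (A' * F l)) =
            φ * (f l t / (A' * F l) * (A' * F l)) by ring, div_mul_cancel₀ _ hAF.ne']
        unfold ash
        linarith
    have a0 := arc 0
    have a1 := arc 1
    have a2 := arc 2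
    have hsum : (if (0 : Fin 3) = k then 0 else f 0 t) + (if (1 : Fin 3) = k then 0 else f 1 t)
        + (if (2 : Fin 3) = k then 0 else f 2 t) = (f 0 t + f 1 t + f 2 t) - f k t := by
      fin_cases k <;> simp <;> ring
    have hfk := mul_le_mul_of_nonneg_left (hfx t h k) hφ0
    rw [← hsum] at hfk
    rw [h2]
    linarith
  · have h1 : alP N ζp t = 0 := by
      unfold alP
      rw [if_neg h]
    unfold ash
    rw [h1, hfz 0 t h, hfz 1 t h, hfz 2 t h]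
    simpa using hx0

/-- feasibility in the strips -/
theorem ast_feas (hκ0 : ∀ l, ∀ t ∈ Sim, 0 ≤ κ l t)
    (hκr : ∀ t ∈ Sim, ∀ k, (κ 0 t + κ 1 t + κ 2 t) - κ k t ≤ rr N (vv t) k)
    (hA' : 0 < A') (hβ0 : ∀ l, 0 ≤ β l) (hKp : ∀ l, 0 ≤ Kp l)
    (hK : ∀ l, β l * ρ ≤ A' * Kp l)
    (hMl : ∀ l, M l l = 0) (hMρ : ∀ l k, M l k ≤ ρ) {t : ℝ × ℝ} (ht : t ∈ Sim) (k : Fin 3) :
    ∑ l, ast κ Kp β A' l t * M l k ≤ rr N (vv t) k := by
  have arc : ∀ l, ast κ Kp β A' l t * M l k ≤ (if l = k then 0 else κ l t) := by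
    intro l
    by_cases hlk : l = k
    · rw [hlk, hMl, if_pos rfl]
      simp
    · rw [if_neg hlk]
      have hk0 := hκ0 l t ht
      rcases eq_or_lt_of_le (mul_nonneg hA'.le (hKp l)) with e | hpos
      · unfold ast
        rw [← e]
        simpa using hk0
      · have g0 : 0 ≤ κ l t / (A' * Kp l) := div_nonneg hk0 hpos.le
        have g1 := mul_le_mul_of_nonneg_left (hMρ l k) (mul_nonneg (hβ0 l) g0)
        have g3 := mul_le_mul_of_nonneg_left (hK l) g0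
        have g2 : κ l t / (A' * Kp l) * (A' * Kp l) = κ l t := div_mul_cancel₀ _ hpos.ne'
        unfold ast
        linarith
  rw [Fin.sum_univ_three]
  have a0 := arc 0
  have a1 := arc 1
  have a2 := arc 2
  have hsum : (if (0 : Fin 3) = k then 0 else κ 0 t) + (if (1 : Fin 3) = k then 0 else κ 1 t)
      + (if (2 : Fin 3) = k then 0 else κ 2 t) = (κ 0 t + κ 1 t + κ 2 t) - κ k t := by
    fin_cases k <;> simp <;> ring
  have := hκr t ht k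
  linarith

theorem ash_Id (hA' : 0 < A') (hF0 : ∀ l, 0 < Pool.Agent.Helper55.Mass.Id (f l)) (l : Fin 3) :
    A' * Pool.Agent.Helper55.Mass.Id
      (ash f (fun l => Pool.Agent.Helper55.Mass.Id (f l)) β A' l) = 1 - β l := by
  set F := Pool.Agent.Helper55.Mass.Id (f l) with hF
  have e1 : ash f (fun l => Pool.Agent.Helper55.Mass.Id (f l)) β A' l =
      fun t => ((1 - β l) * (A' * F)⁻¹) * f l t := by
    funext t
    show (1 - β l) * (f l t / (A' * F)) = _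
    rw [div_eq_mul_inv]
    ring
  have h2 := mul_inv_cancel₀ (mul_pos hA' (hF0 l)).ne'
  rw [e1, Pool.Agent.Helper55.Mass.Id_const]
  rw [← hF] at h2 ⊢
  linear_combination (1 - β l) * h2

theorem ast_Id (hA' : 0 < A') {l : Fin 3}
    (hK : β l = 0 ∨ 0 < Pool.Agent.Helper55.Mass.Id (κ l)) :
    A' * Pool.Agent.Helper55.Mass.Id
      (ast κ (fun l => Pool.Agent.Helper55.Mass.Id (κ l)) β A' l) = β l := by
  set F := Pool.Agent.Helper55.Mass.Id (κ l) with hF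
  have e1 : ast κ (fun l => Pool.Agent.Helper55.Mass.Id (κ l)) β A' l =
      fun t => (β l * (A' * F)⁻¹) * κ l t := by
    funext t
    show β l * (κ l t / (A' * F)) = _
    rw [div_eq_mul_inv]
    ring
  rw [e1, Pool.Agent.Helper55.Mass.Id_const, ← hF]
  rcases hK with h0 | h0
  · rw [h0]
    ring
  · have h2 := mul_inv_cancel₀ (mul_pos hA' h0).ne'
    linear_combination β l * h2

theorem ash_nonneg (hf0 : ∀ l, ∀ t, 0 ≤ f l t) (hA' : 0 < A') (hF0 : ∀ l, 0 < F l)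
    (hβ1 : ∀ l, β l ≤ 1) (l : Fin 3) (t : ℝ × ℝ) : 0 ≤ ash f F β A' l t := by
  have hb : 0 ≤ 1 - β l := by have := hβ1 l; linarith
  exact mul_nonneg hb (div_nonneg (hf0 l t) (mul_pos hA' (hF0 l)).le)

theorem ast_nonneg (hκ0 : ∀ l, ∀ t ∈ Sim, 0 ≤ κ l t) (hA' : 0 < A') (hβ0 : ∀ l, 0 ≤ β l)
    (hKp : ∀ l, 0 ≤ Kp l) (l : Fin 3) {t : ℝ × ℝ} (ht : t ∈ Sim) : 0 ≤ ast κ Kp β A' l t :=
  mul_nonneg (hβ0 l) (div_nonneg (hκ0 l t ht) (mul_nonneg hA'.le (hKp l)))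

/-- **mass deficit** with shares and strips -/
theorem DgS {μ νn sm νa νs : Fin 3 → ℝ} {νz : ℝ}
    (hN : ∀ k m, 0 ≤ N k m) {c : ℝ} (hc : c < 1) (hcol : ∀ m, nc N m ≤ c)
    (hζp : ∀ k, 0 < ζp k) (hf0 : ∀ l, ∀ t, 0 ≤ f l t)
    (hφ1 : φ ≤ 1) (hl0 : 0 ≤ lam) (hA' : 0 < A') (hF0 : ∀ l, 0 < F l) (hM0 : ∀ l k, 0 ≤ M l k)
    (hβ1 : ∀ l, β l ≤ 1) (hβ0 : ∀ l, 0 ≤ β l) (hκ0 : ∀ l, ∀ t ∈ Sim, 0 ≤ κ l t)
    (hKp : ∀ l, 0 ≤ Kp l)
    (hνn0 : ∀ j, 0 ≤ νn j) (hνn : ∀ j, 1 + nc N j - μ j ≤ νn j)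
    (hνz : (∑ k, (ζ k + LN N ζ k)) - 1 +
      (pp (-ζ 0) * νn 0 + pp (-ζ 1) * νn 1 + pp (-ζ 2) * νn 2) ≤ νz)
    (hνa : ∀ l, (∑ k, (M l k + LN N (M l) k)) - sm l ≤ νa l)
    (hνs : ∀ l, (M l 0 + M l 1 + M l 2) - sm l ≤ νs l)
    {t : ℝ × ℝ} (ht : t ∈ Sim)
    (hx : ∀ k, lam * (1 - φ) * alP N ζp t * ζ k + ∑ l, ash f F β A' l t * M l k ≤
      xx N (vv t) k) :
    Dg N (fun _ : Unit => fun t => lam * (1 - φ) * alP N ζp t) (fun _ => ζ) μ (fun _ => 1)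
      (ash f F β A') (ast κ Kp β A') M sm t ≤
      vv t 0 * νn 0 + vv t 1 * νn 1 + vv t 2 * νn 2 + lam * (1 - φ) * alP N ζp t * νz
        + ∑ l, ash f F β A' l t * νa l + ∑ l, ast κ Kp β A' l t * νs l := by
  have hs : 0 ≤ lam * (1 - φ) := mul_nonneg hl0 (by linarith)
  have ha0 := alP_nonneg (N := N) hζp t
  have hu : 0 ≤ lam * (1 - φ) * alP N ζp t := mul_nonneg hs ha0
  have q2 : ∀ k, 0 ≤ ∑ l, ash f F β A' l t * M l k := fun k =>
    Finset.sum_nonneg fun l _ => mul_nonneg (ash_nonneg hf0 hA' hF0 hβ1 l t) (hM0 l k)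
  have key : ∀ k, (xx N (vv t) k - (lam * (1 - φ) * alP N ζp t * ζ k
      + ∑ l, ash f F β A' l t * M l k)) * (1 + nc N k - μ k) ≤
      vv t k * νn k + lam * (1 - φ) * alP N ζp t * (pp (-ζ k) * νn k) := by
    intro k
    have g0 : 0 ≤ xx N (vv t) k - (lam * (1 - φ) * alP N ζp t * ζ k
      + ∑ l, ash f F β A' l t * M l k) := by
      have := hx k
      linarith
    have g1 := mul_le_mul_of_nonneg_left (hνn k) g0
    have g2 : xx N (vv t) k - (lam * (1 - φ) * alP N ζp t * ζ k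
        + ∑ l, ash f F β A' l t * M l k) ≤
        vv t k + lam * (1 - φ) * alP N ζp t * pp (-ζ k) := by
      have q1 := xx_le hN hc hcol (fun k => vv_nonneg ht k) k
      have q3 := mul_le_mul_of_nonneg_left (le_pp (-ζ k)) hu
      have := q2 k
      linarith
    have g3 := mul_le_mul_of_nonneg_right g2 (hνn0 k)
    linarith
  have k0 := key 0
  have k1 := key 1
  have k2 := key 2
  have hz := mul_le_mul_of_nonneg_left hνz hu
  have hsum : ∑ l, ash f F β A' l t * ((∑ k, (M l k + LN N (M l) k)) - sm l) ≤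
      ∑ l, ash f F β A' l t * νa l :=
    Finset.sum_le_sum fun l _ => mul_le_mul_of_nonneg_left (hνa l)
      (ash_nonneg hf0 hA' hF0 hβ1 l t)
  have hsum2 : ∑ l, ((M l 0 + M l 1 + M l 2) - sm l) * ast κ Kp β A' l t ≤
      ∑ l, ast κ Kp β A' l t * νs l :=
    Finset.sum_le_sum fun l _ => by
      rw [mul_comm]
      exact mul_le_mul_of_nonneg_left (hνs l) (ast_nonneg hκ0 hA' hβ0 hKp l ht)
  unfold Dg
  simp only [Finset.univ_unique, Finset.sum_singleton]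
  rw [Fin.sum_univ_three (f := fun k => (xx N (vv t) k - (lam * (1 - φ) * alP N ζp t * ζ k
      + ∑ l, ash f F β A' l t * M l k)) * (1 + nc N k - μ k))]
  linarith

end strip

/-- **FACE THEOREM, SHARED CAPACITY AND STRIPS** (vertex `τ 0`): contact nodes `(R j, μ j; 1 + N)`,
apex with contact coordinates `ζ` (value `s0`), arcs `(E l, sm l; M l)` paid in full: a part
`1 - β l` on the share `φ` of the cone, the part `β l` in the strips. -/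
theorem face_strip (h : PM K σ) (ha : ∀ i j, i ≠ j → dist (a i) (a j) = 1)
    (hp : ∀ x ∈ K, Pl a x)
    (hull : ∀ p, (∀ q ∈ K, ‖p - q‖ ≤ 1) → p ∈ K) (hQ : ∀ i, ∀ q ∈ K, Qv a i q ≤ 3 / 16)
    (τ : Equiv.Perm (Fin 4)) {A : ℝ} (hA : 7 / 2 ≤ A)
    {N : Fin 3 → Fin 3 → ℝ} (hN : ∀ k m, 0 ≤ N k m) (hd : ∀ k, N k k = 0) {c : ℝ} (hc : c < 1)
    (hcol : ∀ m, nc N m ≤ c)
    {ζ ζp : Fin 3 → ℝ} (hζp : ∀ k, 0 < ζp k) (hζ : ∀ k, ζ k ≤ ζp k)
    {f : Fin 3 → ℝ × ℝ → ℝ} (hfm : ∀ l, Measurable (f l)) (hf0 : ∀ l, ∀ t, 0 ≤ f l t)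
    (hfz : ∀ l, ∀ t, (¬ ∀ k, 0 ≤ mu (PN N) (vt t) k) → f l t = 0)
    (hfx : ∀ t, (∀ k, 0 ≤ mu (PN N) (vt t) k) → ∀ k,
      (f 0 t + f 1 t + f 2 t) - f k t ≤ mu (PN N) (vt t) k)
    {κ : Fin 3 → ℝ × ℝ → ℝ} (hκm : ∀ l, Measurable (κ l)) (hκ0 : ∀ l, ∀ t ∈ Sim, 0 ≤ κ l t)
    {Ck : ℝ} (hκC : ∀ l, ∀ t ∈ Sim, κ l t ≤ Ck)
    (hκr : ∀ t ∈ Sim, ∀ k, (κ 0 t + κ 1 t + κ 2 t) - κ k t ≤ rr N (vv t) k)
    {φ ρ lam : ℝ} (hρ : 0 < ρ) (hφ0 : 0 ≤ φ) (hφ1 : φ ≤ 1) (hl0 : 0 ≤ lam) (hl1 : lam ≤ 1)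
    {β : Fin 3 → ℝ} (hβ0 : ∀ l, 0 ≤ β l) (hβ1 : ∀ l, β l ≤ 1)
    (hF0 : ∀ l, 0 < Pool.Agent.Helper55.Mass.Id (f l))
    (hF : ∀ l, (1 - β l) * ρ ≤ φ * ((A / 2 + 1 / 8) * Pool.Agent.Helper55.Mass.Id (f l)))
    (hK : ∀ l, β l * ρ ≤ (A / 2 + 1 / 8) * Pool.Agent.Helper55.Mass.Id (κ l))
    {M : Fin 3 → Fin 3 → ℝ} (hM0 : ∀ l k, 0 ≤ M l k) (hMl : ∀ l, M l l = 0)
    (hMρ : ∀ l k, M l k ≤ ρ)
    {R S μ H r E sm : Fin 3 → ℝ} {s0 : ℝ}
    (hH : ∀ j, H j + (N 0 j * H 0 + N 1 j * H 1 + N 2 j * H 2) = R j)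
    (hr : ∀ k, Pool.Agent.Helper55.Mass.Id (fun t => rr N (vv t) k) ≤ r k)
    (nodes : ∀ q ∈ K, ∀ j, Load (fun i => a (τ i)) q (R j) (μ j)
      (fun k => (if k = j then 1 else 0) + N k j))
    (apex : ∀ q ∈ K, Load (fun i => a (τ i)) q s0 1 (fun k => ζ k + LN N ζ k))
    (arcs : ∀ q ∈ K, ∀ l, Load (fun i => a (τ i)) q (E l) (sm l) (M l))
    (caps : ∀ q ∈ K, Qv a (τ 1) q ≤ S 0 ∧ Qv a (τ 2) q ≤ S 1 ∧ Qv a (τ 3) q ≤ S 2)
    {νn νa νs : Fin 3 → ℝ} {νz : ℝ} (hνn0 : ∀ j, 0 ≤ νn j)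
    (hνn : ∀ j, 1 + nc N j - μ j ≤ νn j)
    (hνz : (∑ k, (ζ k + LN N ζ k)) - 1 +
      (pp (-ζ 0) * νn 0 + pp (-ζ 1) * νn 1 + pp (-ζ 2) * νn 2) ≤ νz)
    (hνa : ∀ l, (∑ k, (M l k + LN N (M l) k)) - sm l ≤ νa l)
    (hνs : ∀ l, (M l 0 + M l 1 + M l 2) - sm l ≤ νs l)
    {D W ω : ℝ × ℝ → ℝ} {C2 : ℝ}
    (hD : ∀ t ∈ Dl, vv t 0 * νn 0 + vv t 1 * νn 1 + vv t 2 * νn 2
      + lam * (1 - φ) * alP N ζp t * νz
      + ∑ l, ash f (fun l => Pool.Agent.Helper55.Mass.Id (f l)) β (A / 2 + 1 / 8) l t * νa l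
      + ∑ l, ast κ (fun l => Pool.Agent.Helper55.Mass.Id (κ l)) β (A / 2 + 1 / 8) l t * νs l
      ≤ D t)
    (hω : AEStronglyMeasurable ω (volume.restrict Dl)) (hωC : ∀ t ∈ Dl, |ω t| ≤ C2)
    {s : ℝ × ℝ → ℝ} (hs : ∀ t ∈ Dl, 0 ≤ s t)
    (own : ∀ p ∈ K, tx (fun i => a (τ i)) p ∈ Dl →
      Qv a (τ 0) p ≤ s (tx (fun i => a (τ i)) p))
    (hW : ∀ t ∈ Dl, ∀ q ∈ K,
      Yt (fun i => a (τ i)) t q / √(Helper33.MEI.mt t) - ‖a (τ 0) - q‖ ^ 2 ≤ s t →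
      ‖a (τ 0) - q‖ ^ 2 ≤ W t) (hW2 : ∀ t ∈ Dl, W t < 2)
    (hcost : ∀ t ∈ Dl, cost (A / 2 + 1 / 8)
      (Gg N (fun _ : Unit => fun t => lam * (1 - φ) * alP N ζp t) (fun _ => ζ) (fun _ => s0)
        (ash f (fun l => Pool.Agent.Helper55.Mass.Id (f l)) β (A / 2 + 1 / 8))
        (ast κ (fun l => Pool.Agent.Helper55.Mass.Id (κ l)) β (A / 2 + 1 / 8)) M E R S t
        / √(Helper33.MEI.mt t))
      (1 - (1 - D t) / √(Helper33.MEI.mt t)) (W t) ≤ ω t) :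
    E 0 + E 1 + E 2
      + (A / 2 + 1 / 8) * (B0 * (H 0 + H 1 + H 2)
        - (r 0 * max (S 0 + H 0) 0 + r 1 * max (S 1 + H 1) 0 + r 2 * max (S 2 + H 2) 0)
        + lam * (1 - φ) * Pool.Agent.Helper55.Mass.Id (alP N ζp) *
          (s0 - (ζ 0 * R 0 + ζ 1 * R 1 + ζ 2 * R 2)))
      - ((1 - β 0) * (M 0 0 * R 0 + M 0 1 * R 1 + M 0 2 * R 2)
        + (1 - β 1) * (M 1 0 * R 0 + M 1 1 * R 1 + M 1 2 * R 2)
        + (1 - β 2) * (M 2 0 * R 0 + M 2 1 * R 1 + M 2 2 * R 2))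
      + (β 0 * (M 0 0 * S 0 + M 0 1 * S 1 + M 0 2 * S 2)
        + β 1 * (M 1 0 * S 0 + M 1 1 * S 1 + M 1 2 * S 2)
        + β 2 * (M 2 0 * S 0 + M 2 1 * S 1 + M 2 2 * S 2))
      - (√2)⁻¹ * ∫ t in Dl, ω t * M3 t ≤ Wi a (τ 0) K σ A := by
  have hA' : 0 < A / 2 + 1 / 8 := by linarith
  have hsh : 0 ≤ lam * (1 - φ) := mul_nonneg hl0 (by linarith)
  have hKp : ∀ l, 0 ≤ Pool.Agent.Helper55.Mass.Id (κ l) := fun l => by
    have h1 := mul_nonneg (hβ0 l) hρ.le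
    have h2 := h1.trans (hK l)
    by_contra hneg
    have := mul_neg_of_pos_of_neg hA' (not_le.1 hneg)
    linarith
  have hx : ∀ t ∈ Sim, ∀ k, lam * (1 - φ) * alP N ζp t * ζ k
      + ∑ l, ash f (fun l => Pool.Agent.Helper55.Mass.Id (f l)) β (A / 2 + 1 / 8) l t * M l k
      ≤ xx N (vv t) k := fun t ht k =>
    ash_feas hN hd hc hcol hζp hζ hf0 hfz hfx hφ0 hφ1 hl0 hl1 hA' hF0 hβ1 hF hMl hMρ ht k
  have i0 : ∀ l, 0 ≤ 1 / ((A / 2 + 1 / 8) * Pool.Agent.Helper55.Mass.Id (f l)) := fun l => by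
    have := mul_pos hA' (hF0 l)
    positivity
  have hCk : 0 ≤ Ck := by
    have hSim : ((0 : ℝ), (0 : ℝ)) ∈ Sim := ⟨le_rfl, le_rfl, by norm_num⟩
    exact (hκ0 0 _ hSim).trans (hκC 0 _ hSim)
  have key := face_gen (ι := Unit) h ha hp hull hQ τ hA hN hc hcol
    (al := fun _ => fun t => lam * (1 - φ) * alP N ζp t) (ζ := fun _ => ζ) (L := fun _ => s0)
    (μx := fun _ => 1) (R := R) (S := S) (μ := μ) (H := H) (r := r)
    (α := ash f (fun l => Pool.Agent.Helper55.Mass.Id (f l)) β (A / 2 + 1 / 8))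
    (g := ast κ (fun l => Pool.Agent.Helper55.Mass.Id (κ l)) β (A / 2 + 1 / 8))
    (Ca := lam * (1 - φ) * (1 / ζp 0) +
      (1 / ((A / 2 + 1 / 8) * Pool.Agent.Helper55.Mass.Id (f 0))
        + 1 / ((A / 2 + 1 / 8) * Pool.Agent.Helper55.Mass.Id (f 1))
        + 1 / ((A / 2 + 1 / 8) * Pool.Agent.Helper55.Mass.Id (f 2))))
    (Cg := Ck / ((A / 2 + 1 / 8) * Pool.Agent.Helper55.Mass.Id (κ 0))
        + Ck / ((A / 2 + 1 / 8) * Pool.Agent.Helper55.Mass.Id (κ 1))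
        + Ck / ((A / 2 + 1 / 8) * Pool.Agent.Helper55.Mass.Id (κ 2)))
    (M := M) (E := E) (sm := sm) (β := β) (D := D) (W := W) (ω := ω) (s := s)
    (fun _ => alP_meas.const_mul _)
    (fun _ t _ => mul_nonneg hsh (alP_nonneg hζp t))
    (fun _ t ht => by
      have := mul_le_mul_of_nonneg_left (alP_bound hN hd hc hcol hζp ht) hsh
      have j0 := i0 0
      have j1 := i0 1
      have j2 := i0 2
      linarith)
    (fun l => ((hfm l).div_const _).const_mul _)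
    (fun l t _ => ash_nonneg hf0 hA' hF0 hβ1 l t)
    (fun l t ht => by
      have j0 := i0 0
      have j1 := i0 1
      have j2 := i0 2
      have jz : 0 ≤ lam * (1 - φ) * (1 / ζp 0) := by
        have := hζp 0
        positivity
      have hAF := mul_pos hA' (hF0 l)
      have g1 : f l t / ((A / 2 + 1 / 8) * Pool.Agent.Helper55.Mass.Id (f l)) ≤
          1 / ((A / 2 + 1 / 8) * Pool.Agent.Helper55.Mass.Id (f l)) :=
        div_le_div_of_nonneg_right (f_le_one hN hd hc hcol hf0 hfz hfx l ht) hAF.le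
      have g0 : 0 ≤ f l t / ((A / 2 + 1 / 8) * Pool.Agent.Helper55.Mass.Id (f l)) :=
        div_nonneg (hf0 l t) hAF.le
      have g2 : ash f (fun l => Pool.Agent.Helper55.Mass.Id (f l)) β (A / 2 + 1 / 8) l t ≤
          1 / ((A / 2 + 1 / 8) * Pool.Agent.Helper55.Mass.Id (f l)) := by
        have hb := hβ0 l
        have := mul_nonneg hb g0
        unfold ash
        linarith
      refine g2.trans ?_
      fin_cases l
      · show 1 / ((A / 2 + 1 / 8) * Pool.Agent.Helper55.Mass.Id (f 0)) ≤ _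
        linarith
      · show 1 / ((A / 2 + 1 / 8) * Pool.Agent.Helper55.Mass.Id (f 1)) ≤ _
        linarith
      · show 1 / ((A / 2 + 1 / 8) * Pool.Agent.Helper55.Mass.Id (f 2)) ≤ _
        linarith)
    (fun l => ((hκm l).div_const _).const_mul _)
    (fun l t ht => ast_nonneg hκ0 hA' hβ0 hKp l ht)
    (fun l t ht => by
      have j : ∀ l, 0 ≤ Ck / ((A / 2 + 1 / 8) * Pool.Agent.Helper55.Mass.Id (κ l)) := fun l =>
        div_nonneg hCk (mul_nonneg hA'.le (hKp l))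
      have j0 := j 0
      have j1 := j 1
      have j2 := j 2
      have hAF := mul_nonneg hA'.le (hKp l)
      have g1 : κ l t / ((A / 2 + 1 / 8) * Pool.Agent.Helper55.Mass.Id (κ l)) ≤
          Ck / ((A / 2 + 1 / 8) * Pool.Agent.Helper55.Mass.Id (κ l)) :=
        div_le_div_of_nonneg_right (hκC l t ht) hAF
      have g0 : 0 ≤ κ l t / ((A / 2 + 1 / 8) * Pool.Agent.Helper55.Mass.Id (κ l)) :=
        div_nonneg (hκ0 l t ht) hAF
      have g2 : ast κ (fun l => Pool.Agent.Helper55.Mass.Id (κ l)) β (A / 2 + 1 / 8) l t ≤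
          Ck / ((A / 2 + 1 / 8) * Pool.Agent.Helper55.Mass.Id (κ l)) := by
        have hb := mul_le_mul_of_nonneg_right (hβ1 l) g0
        unfold ast
        linarith
      refine g2.trans ?_
      fin_cases l
      · show Ck / ((A / 2 + 1 / 8) * Pool.Agent.Helper55.Mass.Id (κ 0)) ≤ _
        linarith
      · show Ck / ((A / 2 + 1 / 8) * Pool.Agent.Helper55.Mass.Id (κ 1)) ≤ _
        linarith
      · show Ck / ((A / 2 + 1 / 8) * Pool.Agent.Helper55.Mass.Id (κ 2)) ≤ _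
        linarith)
    hM0
    (fun t ht k => by
      simp only [Finset.univ_unique, Finset.sum_singleton]
      exact hx t ht k)
    (fun t ht k => ast_feas hκ0 hκr hA' hβ0 hKp hK hMl hMρ ht k)
    (fun l => ash_Id hA' hF0 l)
    (fun l => ast_Id hA' (by
      rcases eq_or_lt_of_le (hβ0 l) with e | hb
      · exact Or.inl e.symm
      · right
        have h1 := mul_pos hb hρ
        have h2 := lt_of_lt_of_le h1 (hK l)
        by_contra hneg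
        have := mul_nonpos_of_nonneg_of_nonpos hA'.le (not_lt.1 hneg)
        linarith))
    hH hr nodes (fun q hq _ => apex q hq) arcs caps
    (fun t ht => (DgS hN hc hcol hζp hf0 hφ1 hl0 hA' hF0 hM0 hβ1 hβ0 hκ0 hKp hνn0 hνn hνz hνa hνs
      (Dl_Sim ht) (hx t (Dl_Sim ht))).trans (hD t ht))
    hω hωC hs own hW hW2 hcost
  simp only [Finset.univ_unique, Finset.sum_singleton] at key
  have e0 : Pool.Agent.Helper55.Mass.Id (fun t => lam * (1 - φ) * alP N ζp t) =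
      lam * (1 - φ) * Pool.Agent.Helper55.Mass.Id (alP N ζp) :=
    Pool.Agent.Helper55.Mass.Id_const (lam * (1 - φ)) (alP N ζp)
  rw [e0] at key
  refine le_trans (le_of_eq ?_) key
  ring

end Helper78.MEI
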