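import Pool.Agent.Helper78.MEI.FaceT

/-!
# Project MEI (M2), faces: shares and strips with one bound `ρ l` per arc

`face_strip2`: the columns of every arc are raised to `ρ l` in both coordinates; `kp l` = capacity
used in the strips. The value is explicit:
`Σ_l Σ_{k ≠ l} (A' kp l (S k + R k) - ρ l R k)`.
-/

namespace Helper78.MEI

open Set Metric MeasureTheory Real Helper80.CW Helper82.CW Helper14.CW Helper22.Sig
open Helper22.Wedge Helper14.MEI2 Pool.Agent.Helper73.MEI Helper33.MEI Helper93.MEI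
open Pool.Agent.Helper52.MEI
open Pool.Agent.Helper55.Sx (Sim mm mm_pos mm_cont mt_mm deg1 int_Dl)
open Pool.Agent.Helper55.Mass (LN LN_nonneg vv vv_nonneg vv_le B0 intOn)
open Pool.Agent.Helper55.Apex (nc vt_vv)
open Pool.Agent.Helper55.ApexP (PN alP alP_nonneg alP_zeta alP_meas alP_bound xx_mu alP_int)
open Pool.Agent.Helper55.Fill (xx rr xe wc xe_bal rr_nonneg xx_meas rr_meas xx_nonneg xx_le rr_int)
open Helper75.MEI2 (mu vt)
open scoped RealInnerProductSpace ENNReal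

variable {a : Fin 4 → E3} {σ : Measure (E3 × E3)} [IsFiniteMeasure σ] {K : Set E3}

/-- columns of the arc `l`, both raised to `ρ l` -/
def Mr (ρ : Fin 3 → ℝ) (l k : Fin 3) : ℝ := if l = k then 0 else ρ l

section strip
variable {N : Fin 3 → Fin 3 → ℝ} {ζ ζp : Fin 3 → ℝ} {f κ : Fin 3 → ℝ × ℝ → ℝ}
  {F Kp β : Fin 3 → ℝ} {A' φ lam : ℝ} {ρ : Fin 3 → ℝ}

theorem Mr_nonneg (hρ : ∀ l, 0 ≤ ρ l) (l k : Fin 3) : 0 ≤ Mr ρ l k := by
  unfold Mr
  split_ifs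
  · exact le_rfl
  · exact hρ l

/-- feasibility in the cone -/
theorem ash_feas2 (hN : ∀ k m, 0 ≤ N k m) (hd : ∀ k, N k k = 0) {c : ℝ} (hc : c < 1)
    (hcol : ∀ m, nc N m ≤ c) (hζp : ∀ k, 0 < ζp k) (hζ : ∀ k, ζ k ≤ ζp k)
    (hf0 : ∀ l, ∀ t, 0 ≤ f l t)
    (hfz : ∀ l, ∀ t, (¬ ∀ k, 0 ≤ mu (PN N) (vt t) k) → f l t = 0)
    (hfx : ∀ t, (∀ k, 0 ≤ mu (PN N) (vt t) k) → ∀ k,
      (f 0 t + f 1 t + f 2 t) - f k t ≤ mu (PN N) (vt t) k)
    (hφ0 : 0 ≤ φ) (hφ1 : φ ≤ 1) (hl0 : 0 ≤ lam) (hl1 : lam ≤ 1)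
    (hA' : 0 < A') (hF0 : ∀ l, 0 < F l)
    (hF : ∀ l, (1 - β l) * ρ l ≤ φ * (A' * F l)) {t : ℝ × ℝ} (ht : t ∈ Sim) (k : Fin 3) :
    lam * (1 - φ) * alP N ζp t * ζ k + ∑ l, ash f F β A' l t * Mr ρ l k ≤ xx N (vv t) k := by
  rw [Fin.sum_univ_three]
  have hx0 := xx_nonneg hN hc hcol (fun k => vv_nonneg ht k) k
  have hs : 0 ≤ lam * (1 - φ) := mul_nonneg hl0 (by linarith)
  have hs1 : lam * (1 - φ) ≤ 1 - φ := by nlinarith
  by_cases h : ∀ k, 0 ≤ mu (PN N) (vt t) k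
  · have h2 : xx N (vv t) k = mu (PN N) (vt t) k := by
      rw [← vt_vv, xx_mu hN hd hc hcol h]
    have hx := h k
    have ha := alP_zeta hζp h k
    have ha0 := alP_nonneg (N := N) hζp t
    have hz := mul_le_mul_of_nonneg_left (hζ k) ha0
    have e1 : lam * (1 - φ) * alP N ζp t * ζ k ≤ (1 - φ) * mu (PN N) (vt t) k := by
      have g1 := mul_le_mul_of_nonneg_left (hz.trans ha) hs
      have g2 := mul_le_mul_of_nonneg_right hs1 hx
      linarith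
    have arc : ∀ l, ash f F β A' l t * Mr ρ l k ≤ φ * (if l = k then 0 else f l t) := by
      intro l
      unfold Mr
      by_cases hlk : l = k
      · rw [if_pos hlk, if_pos hlk]
        simp
      · rw [if_neg hlk, if_neg hlk]
        have hAF : 0 < A' * F l := mul_pos hA' (hF0 l)
        have g0 : 0 ≤ f l t / (A' * F l) := div_nonneg (hf0 l t) hAF.le
        have g3 := mul_le_mul_of_nonneg_left (hF l) g0
        have g2 : f l t / (A' * F l) * (φ * (A' * F l)) = φ * f l t := by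
          rw [show f l t / (A' * F l) * (φ * (A' * F l)) =
            φ * (f l t / (A' * F l) * (A' * F l)) by ring, div_mul_cancel₀ _ hAF.ne']
        unfold ash
        linarith
    have a0 := arc 0
    have a1 := arc 1
    have a2 := arc 2
    have hsum : (if (0 : Fin 3) = k then 0 else f 0 t) + (if (1 : Fin 3) = k then 0 else f 1 t)
        + (if (2 : Fin 3) = k then 0 else f 2 t) = (f 0 t + f 1 t + f 2 t) - f k t := by
      fin_cases k <;> simp <;> ring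
    have hfk := mul_le_mul_of_nonneg_left (hfx t h k) hφ0
    rw [← hsum] at hfk
    rw [h2]
    linarith
  · have h1 : alP N ζp t = 0 := by
      unfold alP
      rw [if_neg h]
    unfold ash
    rw [h1, hfz 0 t h, hfz 1 t h, hfz 2 t h]
    simpa using hx0

/-- feasibility in the strips -/
theorem ast_feas2 (hκ0 : ∀ l, ∀ t ∈ Sim, 0 ≤ κ l t)
    (hκr : ∀ t ∈ Sim, ∀ k, (κ 0 t + κ 1 t + κ 2 t) - κ k t ≤ rr N (vv t) k)
    (hA' : 0 < A') (hKp : ∀ l, 0 ≤ Kp l)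
    (hK : ∀ l, β l * ρ l ≤ A' * Kp l) {t : ℝ × ℝ} (ht : t ∈ Sim) (k : Fin 3) :
    ∑ l, ast κ Kp β A' l t * Mr ρ l k ≤ rr N (vv t) k := by
  have arc : ∀ l, ast κ Kp β A' l t * Mr ρ l k ≤ (if l = k then 0 else κ l t) := by
    intro l
    unfold Mr
    by_cases hlk : l = k
    · rw [if_pos hlk, if_pos hlk]
      simp
    · rw [if_neg hlk, if_neg hlk]
      have hk0 := hκ0 l t ht
      rcases eq_or_lt_of_le (mul_nonneg hA'.le (hKp l)) with e | hpos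
      · unfold ast
        rw [← e]
        simpa using hk0
      · have g0 : 0 ≤ κ l t / (A' * Kp l) := div_nonneg hk0 hpos.le
        have g3 := mul_le_mul_of_nonneg_left (hK l) g0
        have g2 : κ l t / (A' * Kp l) * (A' * Kp l) = κ l t := div_mul_cancel₀ _ hpos.ne'
        unfold ast
        linarith
  rw [Fin.sum_univ_three]
  have a0 := arc 0
  have a1 := arc 1
  have a2 := arc 2
  have hsum : (if (0 : Fin 3) = k then 0 else κ 0 t) + (if (1 : Fin 3) = k then 0 else κ 1 t)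
      + (if (2 : Fin 3) = k then 0 else κ 2 t) = (κ 0 t + κ 1 t + κ 2 t) - κ k t := by
    fin_cases k <;> simp <;> ring
  have := hκr t ht k
  linarith

end strip

/-- **FACE THEOREM, SHARED CAPACITY AND STRIPS, one bound per arc** (vertex `τ 0`): contact nodes
`(R j, μ j; 1 + N)`, apex with contact coordinates `ζ` (value `s0`), arcs `(E l, sm l)` with both
columns `ρ l`, paid in full: `kp l` in the strips, the rest on the share `φ` of the cone. -/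
theorem face_strip2 (h : PM K σ) (ha : ∀ i j, i ≠ j → dist (a i) (a j) = 1)
    (hp : ∀ x ∈ K, Pl a x)
    (hull : ∀ p, (∀ q ∈ K, ‖p - q‖ ≤ 1) → p ∈ K) (hQ : ∀ i, ∀ q ∈ K, Qv a i q ≤ 3 / 16)
    (τ : Equiv.Perm (Fin 4)) {A : ℝ} (hA : 7 / 2 ≤ A)
    {N : Fin 3 → Fin 3 → ℝ} (hN : ∀ k m, 0 ≤ N k m) (hd : ∀ k, N k k = 0) {c : ℝ} (hc : c < 1)
    (hcol : ∀ m, nc N m ≤ c)
    {ζ ζp : Fin 3 → ℝ} (hζp : ∀ k, 0 < ζp k) (hζ : ∀ k, ζ k ≤ ζp k)
    {f : Fin 3 → ℝ × ℝ → ℝ} (hfm : ∀ l, Measurable (f l)) (hf0 : ∀ l, ∀ t, 0 ≤ f l t)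
    (hfz : ∀ l, ∀ t, (¬ ∀ k, 0 ≤ mu (PN N) (vt t) k) → f l t = 0)
    (hfx : ∀ t, (∀ k, 0 ≤ mu (PN N) (vt t) k) → ∀ k,
      (f 0 t + f 1 t + f 2 t) - f k t ≤ mu (PN N) (vt t) k)
    {κ : Fin 3 → ℝ × ℝ → ℝ} (hκm : ∀ l, Measurable (κ l)) (hκ0 : ∀ l, ∀ t ∈ Sim, 0 ≤ κ l t)
    {Ck : ℝ} (hκC : ∀ l, ∀ t ∈ Sim, κ l t ≤ Ck)
    (hκr : ∀ t ∈ Sim, ∀ k, (κ 0 t + κ 1 t + κ 2 t) - κ k t ≤ rr N (vv t) k)
    {φ lam : ℝ} (hφ0 : 0 ≤ φ) (hφ1 : φ ≤ 1) (hl0 : 0 ≤ lam) (hl1 : lam ≤ 1)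
    {ρ kp β : Fin 3 → ℝ} (hρ : ∀ l, 0 < ρ l) (hkp0 : ∀ l, 0 ≤ kp l)
    (hkp : ∀ l, kp l ≤ Pool.Agent.Helper55.Mass.Id (κ l))
    (hβ : ∀ l, β l * ρ l = (A / 2 + 1 / 8) * kp l)
    (hkρ : ∀ l, (A / 2 + 1 / 8) * kp l ≤ ρ l)
    (hF0 : ∀ l, 0 < Pool.Agent.Helper55.Mass.Id (f l))
    (hF : ∀ l, ρ l - (A / 2 + 1 / 8) * kp l ≤
      φ * ((A / 2 + 1 / 8) * Pool.Agent.Helper55.Mass.Id (f l)))
    {M : Fin 3 → Fin 3 → ℝ} (hMl : ∀ l, M l l ≤ 0) (hMρ : ∀ l k, M l k ≤ ρ l)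
    {R S μ H r E sm : Fin 3 → ℝ} {s0 : ℝ}
    (hH : ∀ j, H j + (N 0 j * H 0 + N 1 j * H 1 + N 2 j * H 2) = R j)
    (hr : ∀ k, Pool.Agent.Helper55.Mass.Id (fun t => rr N (vv t) k) ≤ r k)
    (nodes : ∀ q ∈ K, ∀ j, Load (fun i => a (τ i)) q (R j) (μ j)
      (fun k => (if k = j then 1 else 0) + N k j))
    (apex : ∀ q ∈ K, Load (fun i => a (τ i)) q s0 1 (fun k => ζ k + LN N ζ k))
    (arcs : ∀ q ∈ K, ∀ l, Load (fun i => a (τ i)) q (E l) (sm l) (M l))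
    (caps : ∀ q ∈ K, Qv a (τ 1) q ≤ S 0 ∧ Qv a (τ 2) q ≤ S 1 ∧ Qv a (τ 3) q ≤ S 2)
    {νn νa νs : Fin 3 → ℝ} {νz : ℝ} (hνn0 : ∀ j, 0 ≤ νn j)
    (hνn : ∀ j, 1 + nc N j - μ j ≤ νn j)
    (hνz : (∑ k, (ζ k + LN N ζ k)) - 1 +
      (pp (-ζ 0) * νn 0 + pp (-ζ 1) * νn 1 + pp (-ζ 2) * νn 2) ≤ νz)
    (hνa : ∀ l, (∑ k, (Mr ρ l k + LN N (Mr ρ l) k)) - sm l ≤ νa l)
    (hνs : ∀ l, 2 * ρ l - sm l ≤ νs l)
    {D W ω : ℝ × ℝ → ℝ} {C2 : ℝ}
    (hD : ∀ t ∈ Dl, vv t 0 * νn 0 + vv t 1 * νn 1 + vv t 2 * νn 2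
      + lam * (1 - φ) * alP N ζp t * νz
      + ∑ l, ash f (fun l => Pool.Agent.Helper55.Mass.Id (f l)) β (A / 2 + 1 / 8) l t * νa l
      + ∑ l, ast κ (fun l => Pool.Agent.Helper55.Mass.Id (κ l)) β (A / 2 + 1 / 8) l t * νs l
      ≤ D t)
    (hω : AEStronglyMeasurable ω (volume.restrict Dl)) (hωC : ∀ t ∈ Dl, |ω t| ≤ C2)
    {s : ℝ × ℝ → ℝ} (hs : ∀ t ∈ Dl, 0 ≤ s t)
    (own : ∀ p ∈ K, tx (fun i => a (τ i)) p ∈ Dl →
      Qv a (τ 0) p ≤ s (tx (fun i => a (τ i)) p))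
    (hW : ∀ t ∈ Dl, ∀ q ∈ K,
      Yt (fun i => a (τ i)) t q / √(Helper33.MEI.mt t) - ‖a (τ 0) - q‖ ^ 2 ≤ s t →
      ‖a (τ 0) - q‖ ^ 2 ≤ W t) (hW2 : ∀ t ∈ Dl, W t < 2)
    (hcost : ∀ t ∈ Dl, cost (A / 2 + 1 / 8)
      (Gg N (fun _ : Unit => fun t => lam * (1 - φ) * alP N ζp t) (fun _ => ζ) (fun _ => s0)
        (ash f (fun l => Pool.Agent.Helper55.Mass.Id (f l)) β (A / 2 + 1 / 8))
        (ast κ (fun l => Pool.Agent.Helper55.Mass.Id (κ l)) β (A / 2 + 1 / 8)) (Mr ρ) E R S t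
        / √(Helper33.MEI.mt t))
      (1 - (1 - D t) / √(Helper33.MEI.mt t)) (W t) ≤ ω t) :
    E 0 + E 1 + E 2
      + (A / 2 + 1 / 8) * (B0 * (H 0 + H 1 + H 2)
        - (r 0 * max (S 0 + H 0) 0 + r 1 * max (S 1 + H 1) 0 + r 2 * max (S 2 + H 2) 0)
        + lam * (1 - φ) * Pool.Agent.Helper55.Mass.Id (alP N ζp) *
          (s0 - (ζ 0 * R 0 + ζ 1 * R 1 + ζ 2 * R 2))
        + (kp 0 * ((S 1 + R 1) + (S 2 + R 2)) + kp 1 * ((S 0 + R 0) + (S 2 + R 2))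
          + kp 2 * ((S 0 + R 0) + (S 1 + R 1))))
      - (ρ 0 * (R 1 + R 2) + ρ 1 * (R 0 + R 2) + ρ 2 * (R 0 + R 1))
      - (√2)⁻¹ * ∫ t in Dl, ω t * M3 t ≤ Wi a (τ 0) K σ A := by
  have hA' : 0 < A / 2 + 1 / 8 := by linarith
  have hpτ : ∀ q ∈ K, Pl (fun i => a (τ i)) q := fun q hq i j hij =>
    hp q hq (τ i) (τ j) (τ.injective.ne hij)
  have hsh : 0 ≤ lam * (1 - φ) := mul_nonneg hl0 (by linarith)
  have hKp : ∀ l, 0 ≤ Pool.Agent.Helper55.Mass.Id (κ l) := fun l => (hkp0 l).trans (hkp l)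
  have hβ0 : ∀ l, 0 ≤ β l := fun l => by
    by_contra hneg
    have h1 := mul_neg_of_neg_of_pos (not_le.1 hneg) (hρ l)
    have h2 := mul_nonneg hA'.le (hkp0 l)
    rw [hβ l] at h1
    linarith
  have hβ1 : ∀ l, β l ≤ 1 := fun l => by
    have h1 : β l * ρ l ≤ 1 * ρ l := by
      rw [hβ l, one_mul]
      exact hkρ l
    exact le_of_mul_le_mul_right h1 (hρ l)
  have hF' : ∀ l, (1 - β l) * ρ l ≤ φ * ((A / 2 + 1 / 8) * Pool.Agent.Helper55.Mass.Id (f l)) :=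
    fun l => by
      have h1 := hβ l
      have h2 := hF l
      have e : (1 - β l) * ρ l = ρ l - β l * ρ l := by ring
      rw [e, h1]
      exact h2
  have hK : ∀ l, β l * ρ l ≤ (A / 2 + 1 / 8) * Pool.Agent.Helper55.Mass.Id (κ l) := fun l => by
    rw [hβ l]
    exact mul_le_mul_of_nonneg_left (hkp l) hA'.le
  have hM0 : ∀ l k, 0 ≤ Mr ρ l k := fun l k => Mr_nonneg (fun l => (hρ l).le) l k
  have hMr : ∀ l k, M l k ≤ Mr ρ l k := by
    intro l k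
    unfold Mr
    split_ifs with e
    · rw [← e]
      exact hMl l
    · exact hMρ l k
  have hx : ∀ t ∈ Sim, ∀ k, lam * (1 - φ) * alP N ζp t * ζ k
      + ∑ l, ash f (fun l => Pool.Agent.Helper55.Mass.Id (f l)) β (A / 2 + 1 / 8) l t * Mr ρ l k
      ≤ xx N (vv t) k := fun t ht k =>
    ash_feas2 hN hd hc hcol hζp hζ hf0 hfz hfx hφ0 hφ1 hl0 hl1 hA' hF0 hF' ht k
  have i0 : ∀ l, 0 ≤ 1 / ((A / 2 + 1 / 8) * Pool.Agent.Helper55.Mass.Id (f l)) := fun l => by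
    have := mul_pos hA' (hF0 l)
    positivity
  have hCk : 0 ≤ Ck := by
    have hSim : ((0 : ℝ), (0 : ℝ)) ∈ Sim := ⟨le_rfl, le_rfl, by norm_num⟩
    exact (hκ0 0 _ hSim).trans (hκC 0 _ hSim)
  have key := face_gen (ι := Unit) h ha hp hull hQ τ hA hN hc hcol
    (al := fun _ => fun t => lam * (1 - φ) * alP N ζp t) (ζ := fun _ => ζ) (L := fun _ => s0)
    (μx := fun _ => 1) (R := R) (S := S) (μ := μ) (H := H) (r := r)
    (α := ash f (fun l => Pool.Agent.Helper55.Mass.Id (f l)) β (A / 2 + 1 / 8))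
    (g := ast κ (fun l => Pool.Agent.Helper55.Mass.Id (κ l)) β (A / 2 + 1 / 8))
    (Ca := lam * (1 - φ) * (1 / ζp 0) +
      (1 / ((A / 2 + 1 / 8) * Pool.Agent.Helper55.Mass.Id (f 0))
        + 1 / ((A / 2 + 1 / 8) * Pool.Agent.Helper55.Mass.Id (f 1))
        + 1 / ((A / 2 + 1 / 8) * Pool.Agent.Helper55.Mass.Id (f 2))))
    (Cg := Ck / ((A / 2 + 1 / 8) * Pool.Agent.Helper55.Mass.Id (κ 0))
        + Ck / ((A / 2 + 1 / 8) * Pool.Agent.Helper55.Mass.Id (κ 1))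
        + Ck / ((A / 2 + 1 / 8) * Pool.Agent.Helper55.Mass.Id (κ 2)))
    (M := Mr ρ) (E := E) (sm := sm) (β := β) (D := D) (W := W) (ω := ω) (s := s)
    (fun _ => alP_meas.const_mul _)
    (fun _ t _ => mul_nonneg hsh (alP_nonneg hζp t))
    (fun _ t ht => by
      have := mul_le_mul_of_nonneg_left (alP_bound hN hd hc hcol hζp ht) hsh
      have j0 := i0 0
      have j1 := i0 1
      have j2 := i0 2
      linarith)
    (fun l => ((hfm l).div_const _).const_mul _)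
    (fun l t _ => ash_nonneg hf0 hA' hF0 hβ1 l t)
    (fun l t ht => by
      have j0 := i0 0
      have j1 := i0 1
      have j2 := i0 2
      have jz : 0 ≤ lam * (1 - φ) * (1 / ζp 0) := by
        have := hζp 0
        positivity
      have hAF := mul_pos hA' (hF0 l)
      have g1 : f l t / ((A / 2 + 1 / 8) * Pool.Agent.Helper55.Mass.Id (f l)) ≤
          1 / ((A / 2 + 1 / 8) * Pool.Agent.Helper55.Mass.Id (f l)) :=
        div_le_div_of_nonneg_right (f_le_one hN hd hc hcol hf0 hfz hfx l ht) hAF.le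
      have g0 : 0 ≤ f l t / ((A / 2 + 1 / 8) * Pool.Agent.Helper55.Mass.Id (f l)) :=
        div_nonneg (hf0 l t) hAF.le
      have g2 : ash f (fun l => Pool.Agent.Helper55.Mass.Id (f l)) β (A / 2 + 1 / 8) l t ≤
          1 / ((A / 2 + 1 / 8) * Pool.Agent.Helper55.Mass.Id (f l)) := by
        have hb := hβ0 l
        have := mul_nonneg hb g0
        unfold ash
        linarith
      refine g2.trans ?_
      fin_cases l
      · show 1 / ((A / 2 + 1 / 8) * Pool.Agent.Helper55.Mass.Id (f 0)) ≤ _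
        linarith
      · show 1 / ((A / 2 + 1 / 8) * Pool.Agent.Helper55.Mass.Id (f 1)) ≤ _
        linarith
      · show 1 / ((A / 2 + 1 / 8) * Pool.Agent.Helper55.Mass.Id (f 2)) ≤ _
        linarith)
    (fun l => ((hκm l).div_const _).const_mul _)
    (fun l t ht => ast_nonneg hκ0 hA' hβ0 hKp l ht)
    (fun l t ht => by
      have j : ∀ l, 0 ≤ Ck / ((A / 2 + 1 / 8) * Pool.Agent.Helper55.Mass.Id (κ l)) := fun l =>
        div_nonneg hCk (mul_nonneg hA'.le (hKp l))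
      have j0 := j 0
      have j1 := j 1
      have j2 := j 2
      have hAF := mul_nonneg hA'.le (hKp l)
      have g1 : κ l t / ((A / 2 + 1 / 8) * Pool.Agent.Helper55.Mass.Id (κ l)) ≤
          Ck / ((A / 2 + 1 / 8) * Pool.Agent.Helper55.Mass.Id (κ l)) :=
        div_le_div_of_nonneg_right (hκC l t ht) hAF
      have g0 : 0 ≤ κ l t / ((A / 2 + 1 / 8) * Pool.Agent.Helper55.Mass.Id (κ l)) :=
        div_nonneg (hκ0 l t ht) hAF
      have g2 : ast κ (fun l => Pool.Agent.Helper55.Mass.Id (κ l)) β (A / 2 + 1 / 8) l t ≤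
          Ck / ((A / 2 + 1 / 8) * Pool.Agent.Helper55.Mass.Id (κ l)) := by
        have hb := mul_le_mul_of_nonneg_right (hβ1 l) g0
        unfold ast
        linarith
      refine g2.trans ?_
      fin_cases l
      · show Ck / ((A / 2 + 1 / 8) * Pool.Agent.Helper55.Mass.Id (κ 0)) ≤ _
        linarith
      · show Ck / ((A / 2 + 1 / 8) * Pool.Agent.Helper55.Mass.Id (κ 1)) ≤ _
        linarith
      · show Ck / ((A / 2 + 1 / 8) * Pool.Agent.Helper55.Mass.Id (κ 2)) ≤ _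
        linarith)
    hM0
    (fun t ht k => by
      simp only [Finset.univ_unique, Finset.sum_singleton]
      exact hx t ht k)
    (fun t ht k => ast_feas2 hκ0 hκr hA' hKp hK ht k)
    (fun l => ash_Id hA' hF0 l)
    (fun l => ast_Id hA' (by
      rcases eq_or_lt_of_le (hβ0 l) with e | hb
      · exact Or.inl e.symm
      · right
        have h1 := mul_pos hb (hρ l)
        have h2 := lt_of_lt_of_le h1 (hK l)
        by_contra hneg
        have := mul_nonpos_of_nonneg_of_nonpos hA'.le (not_lt.1 hneg)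
        linarith))
    hH hr nodes (fun q hq _ => apex q hq)
    (fun q hq l => load_mono (hpτ q hq) (arcs q hq l) (hMr l)) caps
    (fun t ht => (DgS hN hc hcol hζp hf0 hφ1 hl0 hA' hF0 hM0 hβ1 hβ0 hκ0 hKp hνn0 hνn hνz hνa
      (fun l => by
        refine le_trans (le_of_eq ?_) (hνs l)
        unfold Mr
        fin_cases l <;> simp <;> ring)
      (Dl_Sim ht) (hx t (Dl_Sim ht))).trans (hD t ht))
    hω hωC hs own hW hW2 hcost
  simp only [Finset.univ_unique, Finset.sum_singleton] at key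
  have e0 : Pool.Agent.Helper55.Mass.Id (fun t => lam * (1 - φ) * alP N ζp t) =
      lam * (1 - φ) * Pool.Agent.Helper55.Mass.Id (alP N ζp) :=
    Pool.Agent.Helper55.Mass.Id_const (lam * (1 - φ)) (alP N ζp)
  rw [e0] at key
  have m00 : Mr ρ 0 0 = 0 := rfl
  have m01 : Mr ρ 0 1 = ρ 0 := rfl
  have m02 : Mr ρ 0 2 = ρ 0 := rfl
  have m10 : Mr ρ 1 0 = ρ 1 := rfl
  have m11 : Mr ρ 1 1 = 0 := rfl
  have m12 : Mr ρ 1 2 = ρ 1 := rfl
  have m20 : Mr ρ 2 0 = ρ 2 := rfl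
  have m21 : Mr ρ 2 1 = ρ 2 := rfl
  have m22 : Mr ρ 2 2 = 0 := rfl
  rw [m00, m01, m02, m10, m11, m12, m20, m21, m22] at key
  have b0 := hβ 0
  have b1 := hβ 1
  have b2 := hβ 2
  refine le_trans (le_of_eq ?_) key
  linear_combination -((S 1 + R 1) + (S 2 + R 2)) * b0 - ((S 0 + R 0) + (S 2 + R 2)) * b1
    - ((S 0 + R 0) + (S 1 + R 1)) * b2

end Helper78.MEI
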