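import Mathlib

/-!
# Project MEI, all bodies: the arithmetic end lemma

`a`, `b` are the larger and the smaller loss of a pair of opposite edges, `v` the volume of a lens.
-/

namespace Helper78.MEI

/-- The two point inequality, general constants. -/
theorem G_gen {c δ κ v a b : ℝ} (hc : 0 < c) (hδ : δ < κ)
    (hd : (2 * κ - δ) ^ 2 < 4 * c * (κ - δ) * v) (hb : 0 ≤ b) (hba : b ≤ a) (hav : a ≤ v) :
    0 ≤ c * a * b + (κ - δ) * (v - a) - κ * b ∧
      (c * a * b + (κ - δ) * (v - a) - κ * b = 0 → b = 0 ∧ a = v) := by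
  have ha : 0 ≤ a := hb.trans hba
  rcases le_or_gt (c * a) κ with h | h
  · have h1 : 0 < c * a ^ 2 - (2 * κ - δ) * a + (κ - δ) * v := by
      have h2 : 0 ≤ (2 * c * a - (2 * κ - δ)) ^ 2 := sq_nonneg _
      have h3 : (2 * c * a - (2 * κ - δ)) ^ 2
          = 4 * c * (c * a ^ 2 - (2 * κ - δ) * a) + (2 * κ - δ) ^ 2 := by ring
      have h4 : 0 < 4 * c * (c * a ^ 2 - (2 * κ - δ) * a + (κ - δ) * v) := by
        have e : 4 * c * (c * a ^ 2 - (2 * κ - δ) * a + (κ - δ) * v)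
            = 4 * c * (c * a ^ 2 - (2 * κ - δ) * a) + 4 * c * (κ - δ) * v := by ring
        rw [e]; linarith
      exact (mul_pos_iff_of_pos_left (by positivity)).1 h4
    have h5 : 0 ≤ (κ - c * a) * (a - b) := mul_nonneg (by linarith) (by linarith)
    have e : c * a * b + (κ - δ) * (v - a) - κ * b
        = (c * a ^ 2 - (2 * κ - δ) * a + (κ - δ) * v) + (κ - c * a) * (a - b) := by ring
    rw [e]
    exact ⟨by linarith, fun h6 => absurd h6 (by linarith)⟩
  · have h1 : 0 ≤ b * (c * a - κ) := mul_nonneg hb (by linarith)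
    have h2 : 0 ≤ (κ - δ) * (v - a) := mul_nonneg (by linarith) (by linarith)
    have e : c * a * b + (κ - δ) * (v - a) - κ * b = b * (c * a - κ) + (κ - δ) * (v - a) := by ring
    rw [e]
    refine ⟨by linarith, fun h6 => ?_⟩
    have h7 : b * (c * a - κ) = 0 := by linarith
    have h8 : (κ - δ) * (v - a) = 0 := by linarith
    rcases mul_eq_zero.1 h7 with h9 | h9
    · rcases mul_eq_zero.1 h8 with h10 | h10
      · exact absurd h10 (by linarith)
      · exact ⟨h9, by linarith⟩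
    · exact absurd h9 (by linarith)

/-- helper88's constants: `986 a b + .14 (v - a) - .4 b ≥ 0`. -/
theorem G_nonneg {v a b : ℝ} (hv : 5.3e-4 ≤ v) (hb : 0 ≤ b) (hba : b ≤ a) (hav : a ≤ v) :
    0 ≤ 986 * a * b + 0.14 * (v - a) - 0.4 * b ∧
      (986 * a * b + 0.14 * (v - a) - 0.4 * b = 0 → b = 0 ∧ a = v) := by
  have h := G_gen (c := 986) (δ := 0.26) (κ := 0.4) (v := v) (a := a) (b := b) (by norm_num)
    (by norm_num) (by nlinarith) hb hba hav
  have e : (0.4 - 0.26 : ℝ) = 0.14 := by norm_num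
  rw [e] at h
  exact h

/-- One pair of opposite edges: losses `l`, `l'` (both in `[0, v]`), flux excess `X`, coercive
lower bound `T`. -/
theorem pair_le {c m M κ v l l' X T E : ℝ} (hc : 0 < c) (hδ : M - m < κ)
    (hd : (2 * κ - (M - m)) ^ 2 < 4 * c * (κ - (M - m)) * v)
    (hl : 0 ≤ l) (hl' : 0 ≤ l') (hlv : l ≤ v) (hlv' : l' ≤ v)
    (hX1 : X ≤ -(m * l) + M * (v - l')) (hX2 : X ≤ -(m * l') + M * (v - l))
    (hT : c * (l * l') - E ≤ T) :
    X ≤ (m + κ) * (v - l - l') + T + E := by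
  rcases le_total l l' with h | h
  · have h1 := (G_gen (a := l') (b := l) hc hδ hd hl h hlv').1
    nlinarith
  · have h1 := (G_gen (a := l) (b := l') hc hδ hd hl' h hlv).1
    nlinarith

/-- Equality version of `pair_le`. -/
theorem pair_eq {c m M κ v l l' X T E : ℝ} (hc : 0 < c) (hδ : M - m < κ)
    (hd : (2 * κ - (M - m)) ^ 2 < 4 * c * (κ - (M - m)) * v)
    (hl : 0 ≤ l) (hl' : 0 ≤ l') (hlv : l ≤ v) (hlv' : l' ≤ v)
    (hX1 : X ≤ -(m * l) + M * (v - l')) (hX2 : X ≤ -(m * l') + M * (v - l))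
    (hT : c * (l * l') - E ≤ T) (he : X = (m + κ) * (v - l - l') + T + E) :
    (l = 0 ∧ l' = v) ∨ (l' = 0 ∧ l = v) := by
  rcases le_total l l' with h | h
  · have h1 := G_gen (a := l') (b := l) hc hδ hd hl h hlv'
    have h2 : c * l' * l + (κ - (M - m)) * (v - l') - κ * l = 0 := by
      refine le_antisymm ?_ h1.1
      nlinarith
    exact Or.inl (h1.2 h2)
  · have h1 := G_gen (a := l) (b := l') hc hδ hd hl' h hlv
    have h2 : c * l * l' + (κ - (M - m)) * (v - l) - κ * l' = 0 := by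
      refine le_antisymm ?_ h1.1
      nlinarith
    exact Or.inr (h1.2 h2)

/-- The three pairs together: `∑ (T_e + E_e) ≥ ∑ X_e - (m + κ) ∑ D_e`.
`TH` is the total excess, `W` everything of the flux identity outside the three pairs. -/
theorem end_le {ι : Type*} (s : Finset ι) {c m M κ v TH W : ℝ} {l l' X T E : ι → ℝ} (hc : 0 < c)
    (hδ : M - m < κ) (hd : (2 * κ - (M - m)) ^ 2 < 4 * c * (κ - (M - m)) * v)
    (hl : ∀ e ∈ s, 0 ≤ l e) (hl' : ∀ e ∈ s, 0 ≤ l' e) (hlv : ∀ e ∈ s, l e ≤ v)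
    (hlv' : ∀ e ∈ s, l' e ≤ v)
    (hX1 : ∀ e ∈ s, X e ≤ -(m * l e) + M * (v - l' e))
    (hX2 : ∀ e ∈ s, X e ≤ -(m * l' e) + M * (v - l e))
    (hT : ∀ e ∈ s, c * (l e * l' e) - E e ≤ T e)
    (hTH : ∑ e ∈ s, T e ≤ TH)
    (hup : TH ≤ ∑ e ∈ s, (X e - 1 / 2 * (v - l e - l' e)) + W) :
    0 ≤ (m - 1 / 2 + κ) * ∑ e ∈ s, (v - l e - l' e) + W + ∑ e ∈ s, E e := by
  have h1 : ∑ e ∈ s, X e ≤ ∑ e ∈ s, ((m + κ) * (v - l e - l' e) + T e + E e) :=
    Finset.sum_le_sum fun e he => pair_le hc hδ hd (hl e he) (hl' e he) (hlv e he)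
      (hlv' e he) (hX1 e he) (hX2 e he) (hT e he)
  rw [Finset.sum_add_distrib, Finset.sum_add_distrib, ← Finset.mul_sum] at h1
  rw [Finset.sum_sub_distrib, ← Finset.mul_sum] at hup
  have e1 : ∑ e ∈ s, X e - 1 / 2 * ∑ e ∈ s, (v - l e - l' e) + W
      ≤ (m - 1 / 2 + κ) * ∑ e ∈ s, (v - l e - l' e) + ∑ e ∈ s, T e + ∑ e ∈ s, E e + W := by
    linarith
  linarith

/-! ### helper29's shifted form (h29_reg1.md, section 6) -/

/-- the two point function with constants `.14`, `.4` -/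
theorem g_nonneg {C v a b : ℝ} (hC : 0 < C) (hd : 0.2916 < 0.56 * C * v) (hb : 0 ≤ b)
    (hba : b ≤ a) (hav : a ≤ v) : 0 ≤ C * a * b + 0.14 * (v - a) - 0.4 * b := by
  have h := (G_gen (c := C) (δ := 0.26) (κ := 0.4) (v := v) (a := a) (b := b) hC
    (by norm_num) (by nlinarith) hb hba hav).1
  have e : (0.4 - 0.26 : ℝ) = 0.14 := by norm_num
  rw [e] at h
  exact h

/-- **shifted lemma G** -/
theorem G_shift {C v a b k k' m : ℝ} (hC : 0 < C) (hd : 0.2916 < 0.56 * C * v)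
    (hba : b ≤ a) (hav : a ≤ v) (hk : 0 ≤ k) (hkm : k ≤ m) (hkm' : k' ≤ m) :
    -(0.54 * m) ≤ C * (max (a - k) 0 * max (b - k') 0) + 0.14 * (v - a) - 0.4 * b := by
  have hm : 0 ≤ m := hk.trans hkm
  rcases le_total a k with h1 | h1
  · rw [max_eq_right (by linarith), zero_mul, mul_zero]
    linarith
  rcases le_total b k' with h2 | h2
  · rw [max_eq_right (a := b - k') (by linarith), mul_zero, mul_zero]
    linarith
  rw [max_eq_left (by linarith), max_eq_left (by linarith)]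
  obtain ⟨a', ha'⟩ : ∃ a', a' = a - k := ⟨_, rfl⟩
  obtain ⟨b', hb'⟩ : ∃ b', b' = b - k' := ⟨_, rfl⟩
  rw [← ha', ← hb']
  have ha0 : 0 ≤ a' := by linarith
  have hb0 : 0 ≤ b' := by linarith
  rcases le_total b' a' with h3 | h3
  · have h4 := g_nonneg hC hd hb0 h3 (by linarith : a' ≤ v)
    nlinarith
  · have h4 := g_nonneg hC hd ha0 le_rfl (by linarith : a' ≤ v)
    have h5 : 0 ≤ C * a' * (b' - a') := mul_nonneg (mul_nonneg hC.le ha0) (by linarith)
    nlinarith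

/-- **Corollary of Theorem I** (pure arithmetic): `T ≥ C (l - k)⁺ (l' - k')⁺ - N`, `C ≥ 900`,
`k, k' ≤ m`. -/
theorem pair_cor {C v l l' k k' T N m : ℝ} (hC : 900 ≤ C) (hv : 5.8e-4 ≤ v)
    (hlv : l ≤ v) (hlv' : l' ≤ v) (hk : 0 ≤ k) (hk' : 0 ≤ k') (hkm : k ≤ m) (hkm' : k' ≤ m)
    (hT : C * (max (l - k) 0 * max (l' - k') 0) - N ≤ T) :
    -(0.54 * m) - N ≤ T - 0.26 * (v - max l l') + 0.4 * (v - l - l') := by
  have hC0 : 0 < C := by linarith
  have hd : (0.2916 : ℝ) < 0.56 * C * v := by nlinarith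
  rcases le_total l l' with h | h
  · have h1 := G_shift (C := C) hC0 hd h hlv' hk' hkm' hkm
    rw [max_eq_right h]
    have e : max (l - k) 0 * max (l' - k') 0 = max (l' - k') 0 * max (l - k) 0 := mul_comm _ _
    rw [e] at hT
    linarith
  · have h1 := G_shift (C := C) hC0 hd h hlv hk hkm hkm'
    rw [max_eq_left h]
    linarith

/-- Section 5, pure arithmetic: the integrated coupling gives Theorem I. `S`, `S'` masses, `IA`,
`IB` the integrals of `Â`, `B̂`, `Y`, `X` the null integrals, `al`, `al'` the depth integrals. -/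
theorem thmI_arith {S S' IA IB Y X al al' T T' N N' : ℝ} (hS : S ≤ 0.1345) (hS' : S' ≤ 0.1345)
    (hIA : 0 ≤ IA) (hIB : 0 ≤ IB) (hY : |Y| ≤ 0.078 * S + 0.0045)
    (hX : |X| ≤ 0.078 * S' + 0.0045)
    (hF : 2 * (al * al') ≤ S * IA + 2 * |Y| * IA + S' * IB + 2 * |X| * IB)
    (hT : 0.499 * IB - N ≤ T) (hT' : 0.499 * IA - N' ≤ T') :
    6.06 * (al * al') - (N + N') ≤ T + T' ∧ 0 ≤ T + T' + (N + N') := by
  have h1 : S * IA + 2 * |Y| * IA ≤ 0.1645 * IA := by nlinarith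
  have h2 : S' * IB + 2 * |X| * IB ≤ 0.1645 * IB := by nlinarith
  refine ⟨?_, by linarith⟩
  rcases le_total 0 (al * al') with h | h
  · linarith
  · linarith

/-- positive parts: `al ≥ 12.2 (l - k)` for both -/
theorem thmI_pos {al al' l l' k k' W : ℝ} (h : 12.2 * (l - k) ≤ al) (h' : 12.2 * (l' - k') ≤ al')
    (hW : 0 ≤ W) (hm : 6.06 * (al * al') ≤ W) :
    900 * (max (l - k) 0 * max (l' - k') 0) ≤ W := by
  rcases le_total (l - k) 0 with h1 | h1
  · rw [max_eq_right h1, zero_mul, mul_zero]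
    exact hW
  rcases le_total (l' - k') 0 with h2 | h2
  · rw [max_eq_right h2, mul_zero, mul_zero]
    exact hW
  rw [max_eq_left h1, max_eq_left h2]
  have h3 : 12.2 * (l - k) * (12.2 * (l' - k')) ≤ al * al' :=
    mul_le_mul h h' (by linarith) (by linarith)
  have h4 := mul_nonneg h1 h2
  nlinarith

end Helper78.MEI
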