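import Pool.Agent.Helper22.MEI.Cells

/-!
# Project MEI, row K4 (reference number of the depth integral), part 1: the half cell

Coordinates `q = (x, y, z)`, `w = z - t`; `Ap = {0 < y, √2 y < w, |q - a₄| < 1}`,
`V = (Ga, Gb, Gc) = e₃ - F~`.
-/

namespace Helper78.MEI.K4

open Set MeasureTheory Filter Topology Metric
open Helper22.MEI Helper22.Wedge Pool.Agent.Helper8.MEI

/-- `|q - a₄|²` -/
noncomputable def R2 (q : ℝ × ℝ × ℝ) : ℝ := q.1 ^ 2 + (q.2.1 + 1 / 2) ^ 2 + (q.2.2 + t) ^ 2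

noncomputable def R (q : ℝ × ℝ × ℝ) : ℝ := √(R2 q)

/-- distance to the flat wall (times a constant) -/
noncomputable def lw (q : ℝ × ℝ × ℝ) : ℝ := q.2.2 - t - √2 * q.2.1

/-- the function of the half cell -/
noncomputable def lf (q : ℝ × ℝ × ℝ) : ℝ := min q.2.1 (min (lw q) (1 - R q))

theorem R2_nonneg (q : ℝ × ℝ × ℝ) : 0 ≤ R2 q := by unfold R2; positivity

theorem R_sq (q : ℝ × ℝ × ℝ) : R q ^ 2 = R2 q := Real.sq_sqrt (R2_nonneg q)

theorem R_nonneg (q : ℝ × ℝ × ℝ) : 0 ≤ R q := Real.sqrt_nonneg _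

theorem R_lip : LipschitzWith 2 R := by
  refine LipschitzWith.of_dist_le_mul fun p q => ?_
  rw [Real.dist_eq]
  have e : ∀ q : ℝ × ℝ × ℝ, R q = ‖(!₂[q.1, q.2.1 + 1 / 2, q.2.2 + t] : EuclideanSpace ℝ (Fin 3))‖ := by
    intro q
    rw [EuclideanSpace.norm_eq, Fin.sum_univ_three]
    unfold R R2
    simp
  rw [e, e]
  refine (abs_norm_sub_norm_le _ _).trans ?_
  rw [EuclideanSpace.norm_eq, Fin.sum_univ_three]
  have h1 : |p.1 - q.1| ≤ dist p q := by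
    rw [← Real.dist_eq, Prod.dist_eq]
    exact le_max_left _ _
  have h2 : |p.2.1 - q.2.1| ≤ dist p q := by
    rw [← Real.dist_eq, Prod.dist_eq, Prod.dist_eq]
    exact (le_max_left _ _).trans (le_max_right _ _)
  have h3 : |p.2.2 - q.2.2| ≤ dist p q := by
    rw [← Real.dist_eq, Prod.dist_eq, Prod.dist_eq]
    exact (le_max_right _ _).trans (le_max_right _ _)
  have h0 : 0 ≤ dist p q := dist_nonneg
  refine Real.sqrt_le_iff.2 ⟨by positivity, ?_⟩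
  have e1 : ‖((!₂[p.1, p.2.1 + 1 / 2, p.2.2 + t] : EuclideanSpace ℝ (Fin 3))
      - !₂[q.1, q.2.1 + 1 / 2, q.2.2 + t]) 0‖ = |p.1 - q.1| := by simp
  have e2 : ‖((!₂[p.1, p.2.1 + 1 / 2, p.2.2 + t] : EuclideanSpace ℝ (Fin 3))
      - !₂[q.1, q.2.1 + 1 / 2, q.2.2 + t]) 1‖ = |p.2.1 - q.2.1| := by simp
  have e3 : ‖((!₂[p.1, p.2.1 + 1 / 2, p.2.2 + t] : EuclideanSpace ℝ (Fin 3))
      - !₂[q.1, q.2.1 + 1 / 2, q.2.2 + t]) 2‖ = |p.2.2 - q.2.2| := by simp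
  rw [e1, e2, e3]
  have k1 := pow_le_pow_left₀ (abs_nonneg _) h1 2
  have k2 := pow_le_pow_left₀ (abs_nonneg _) h2 2
  have k3 := pow_le_pow_left₀ (abs_nonneg _) h3 2
  have k4 : ((2 : NNReal) * dist p q) ^ 2 = 4 * dist p q ^ 2 := by push_cast; ring
  rw [k4]
  nlinarith [sq_nonneg (dist p q)]

theorem lw_lip : ∃ K : NNReal, LipschitzWith K lw := by
  have h1 : LipschitzWith 1 (fun q : ℝ × ℝ × ℝ => q.2.2) := LipschitzWith.prod_snd.comp
    LipschitzWith.prod_snd |>.weaken (by norm_num)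
  have h2 : LipschitzWith 1 (fun q : ℝ × ℝ × ℝ => q.2.1) := LipschitzWith.prod_fst.comp
    LipschitzWith.prod_snd |>.weaken (by norm_num)
  have h3 : LipschitzWith (‖√2‖₊ * 1) (fun q : ℝ × ℝ × ℝ => √2 * q.2.1) :=
    (lipschitzWith_smul (√2)).comp h2
  have h4 : LipschitzWith (1 + 0) (fun q : ℝ × ℝ × ℝ => q.2.2 - t) :=
    h1.sub (LipschitzWith.const t)
  exact ⟨_, h4.sub h3⟩

theorem lf_lip : ∃ K : NNReal, LipschitzWith K lf := by
  obtain ⟨K, hK⟩ := lw_lip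
  have h2 : LipschitzWith 1 (fun q : ℝ × ℝ × ℝ => q.2.1) := LipschitzWith.prod_fst.comp
    LipschitzWith.prod_snd |>.weaken (by norm_num)
  have h3 : LipschitzWith (0 + 2) (fun q : ℝ × ℝ × ℝ => 1 - R q) := (LipschitzWith.const 1).sub R_lip
  exact ⟨_, h2.min (hK.min h3)⟩

/-- the half cell -/
def Ap : Set (ℝ × ℝ × ℝ) := {q | 0 < lf q}

theorem Ap_iff {q : ℝ × ℝ × ℝ} : q ∈ Ap ↔ 0 < q.2.1 ∧ 0 < lw q ∧ R q < 1 := by
  unfold Ap lf
  rw [Set.mem_ofPred_eq, lt_min_iff, lt_min_iff, sub_pos]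

theorem t_lo : 0.353 < t ∧ t < 0.354 := by
  obtain ⟨h1, h2⟩ := sqrt2_bd
  constructor
  · unfold t; linarith
  · unfold t; linarith

/-- bounds in the half cell -/
theorem Ap_bd {q : ℝ × ℝ × ℝ} (hq : q ∈ Ap) : |q.1| ≤ 1 ∧ 0 < q.2.1 ∧ q.2.1 ≤ 1 ∧ 0 < q.2.2 - t ∧
    q.2.2 + t < 1 ∧ lw q < 1 ∧ 1 / 2 ≤ R q := by
  obtain ⟨h1, h2, h3⟩ := Ap_iff.1 hq
  have h4 : R2 q < 1 := by
    rw [← R_sq]
    nlinarith [R_nonneg q]
  have h5 : 0 < q.2.2 - t := by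
    unfold lw at h2
    have := mul_pos (show 0 < √2 by positivity) h1
    linarith
  have ht := t_lo.1
  unfold R2 at h4
  have h6 : q.1 ^ 2 ≤ 1 := by nlinarith [sq_nonneg (q.2.1 + 1 / 2), sq_nonneg (q.2.2 + t)]
  have h7 : q.2.2 + t < 1 := by nlinarith [sq_nonneg q.1, sq_nonneg (q.2.1 + 1 / 2)]
  refine ⟨?_, h1, ?_, h5, h7, ?_, ?_⟩
  · exact abs_le_one_iff_mul_self_le_one.2 (by nlinarith)
  · nlinarith [sq_nonneg q.1, sq_nonneg (q.2.2 + t)]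
  · unfold lw
    have := mul_pos (show 0 < √2 by positivity) h1
    linarith
  · unfold R R2
    refine Real.le_sqrt_of_sq_le ?_
    nlinarith [sq_nonneg q.1, sq_nonneg (q.2.2 + t)]

/-! ### the cut-off in the flat wall -/

noncomputable def cut (N r : ℝ) : ℝ := N ^ 2 * r ^ 2 / (1 + N ^ 2 * r ^ 2)

noncomputable def cutd (N r : ℝ) : ℝ := 2 * N ^ 2 * r / (1 + N ^ 2 * r ^ 2) ^ 2

theorem cut_hasDeriv (N r : ℝ) : HasDerivAt (cut N) (cutd N r) r := by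
  have h0 : (1 + N ^ 2 * r ^ 2) ≠ 0 := by positivity
  have h1 : HasDerivAt (fun r : ℝ => N ^ 2 * r ^ 2) (N ^ 2 * (2 * r)) r := by
    have := (hasDerivAt_pow 2 r).const_mul (N ^ 2)
    simpa using this
  have h2 := h1.div (h1.const_add 1) h0
  refine h2.congr_deriv ?_
  unfold cutd
  field_simp
  ring

theorem cut_nonneg (N r : ℝ) : 0 ≤ cut N r := by unfold cut; positivity

theorem cut_le (N r : ℝ) : cut N r ≤ 1 := by
  unfold cut
  rw [div_le_one (by positivity)]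
  linarith

theorem cut_lin {N r : ℝ} (hN : 0 ≤ N) (hr : 0 ≤ r) : cut N r ≤ N * r := by
  unfold cut
  rw [div_le_iff₀ (by positivity)]
  have h : 0 ≤ N * r := by positivity
  have h2 : N ^ 2 * r ^ 2 = (N * r) ^ 2 := by ring
  rw [h2]
  nlinarith [mul_nonneg h (sq_nonneg (N * r - 1)), mul_nonneg h (sq_nonneg (N * r))]

theorem cutd_nonneg {N r : ℝ} (hr : 0 ≤ r) : 0 ≤ cutd N r := by unfold cutd; positivity

theorem cut_cd (N : ℝ) : ContDiff ℝ 1 (fun q : ℝ × ℝ × ℝ => cut N (lw q)) := by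
  have h1 : ContDiff ℝ 1 lw := by unfold lw; fun_prop
  unfold cut
  exact (contDiff_const.mul (h1.pow 2)).div (contDiff_const.add (contDiff_const.mul (h1.pow 2)))
    fun q => by positivity

/-- the three components of the field with the cut-off -/
noncomputable def ph (N : ℝ) (k : Fin 3) (q : ℝ × ℝ × ℝ) : ℝ :=
  cut N (lw q) * (if k = 0 then Ga q else if k = 1 then Gb q else Gc q)

/-- basis -/
noncomputable def bv (k : Fin 3) : ℝ × ℝ × ℝ :=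
  if k = 0 then (1, 0, 0) else if k = 1 then (0, 1, 0) else (0, 0, 1)

theorem ph_cd (N : ℝ) (k : Fin 3) : ContDiff ℝ 1 (ph N k) := by
  unfold ph
  fin_cases k
  · simpa using (cut_cd N).mul Ga_cd
  · simpa using (cut_cd N).mul Gb_cd
  · simpa using (cut_cd N).mul Gc_cd

theorem lw_fd (q v : ℝ × ℝ × ℝ) : HasFDerivAt lw (fderiv ℝ lw q) q ∧
    fderiv ℝ lw q v = v.2.2 - √2 * v.2.1 := by
  have h1 : HasFDerivAt (fun q : ℝ × ℝ × ℝ => q.2.2)
      ((ContinuousLinearMap.snd ℝ ℝ ℝ).comp (ContinuousLinearMap.snd ℝ ℝ (ℝ × ℝ))) q :=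
    ((ContinuousLinearMap.snd ℝ ℝ ℝ).comp (ContinuousLinearMap.snd ℝ ℝ (ℝ × ℝ))).hasFDerivAt
  have h2 : HasFDerivAt (fun q : ℝ × ℝ × ℝ => q.2.1)
      ((ContinuousLinearMap.fst ℝ ℝ ℝ).comp (ContinuousLinearMap.snd ℝ ℝ (ℝ × ℝ))) q :=
    ((ContinuousLinearMap.fst ℝ ℝ ℝ).comp (ContinuousLinearMap.snd ℝ ℝ (ℝ × ℝ))).hasFDerivAt
  have h3 : HasFDerivAt lw _ q := (h1.sub_const t).sub (h2.const_mul (√2))
  refine ⟨h3.differentiableAt.hasFDerivAt, ?_⟩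
  rw [h3.fderiv]
  simp

theorem cutlw_fd (N : ℝ) (q v : ℝ × ℝ × ℝ) :
    fderiv ℝ (fun q => cut N (lw q)) q v = cutd N (lw q) * (v.2.2 - √2 * v.2.1) := by
  have h1 := (cut_hasDeriv N (lw q)).comp_hasFDerivAt q (lw_fd q v).1
  have h2 : fderiv ℝ (fun q => cut N (lw q)) q = cutd N (lw q) • fderiv ℝ lw q := h1.fderiv
  rw [h2]
  simp only [smul_apply, smul_eq_mul]
  rw [(lw_fd q v).2]

theorem prod_fd {N : ℝ} {G : ℝ × ℝ × ℝ → ℝ} (hG : ContDiff ℝ 1 G) (q v : ℝ × ℝ × ℝ) :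
    fderiv ℝ (fun q => cut N (lw q) * G q) q v
      = cut N (lw q) * fderiv ℝ G q v + G q * (cutd N (lw q) * (v.2.2 - √2 * v.2.1)) := by
  have h1 := (cut_cd N).differentiable one_ne_zero q
  have h2 := hG.differentiable one_ne_zero q
  have h3 := h1.hasFDerivAt.mul h2.hasFDerivAt
  have h4 : fderiv ℝ (fun q => cut N (lw q) * G q) q = _ := h3.fderiv
  rw [h4]
  simp only [add_apply, smul_apply, smul_eq_mul]
  rw [cutlw_fd]

/-- the positive integrand `div F~` -/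
noncomputable def P (q : ℝ × ℝ × ℝ) : ℝ :=
  4 * (q.2.2 + t) * divF q.1 q.2.1 (q.2.2 - t) + 2 * (q.2.2 - t) / DD q.1 q.2.1 (q.2.2 - t)

theorem FD_DD (q : ℝ × ℝ × ℝ) : FD q = DD q.1 q.2.1 (q.2.2 - t) := rfl

/-- divergence of the field with the cut-off -/
theorem sum_fd (N : ℝ) (q : ℝ × ℝ × ℝ) : ∑ k, fderiv ℝ (ph N k) q (bv k)
    = -(cut N (lw q) * P q) + cutd N (lw q) * (1 - 2 * (q.2.2 + t) * lw q / FD q) := by
  rw [Fin.sum_univ_three]
  have e0 : ph N 0 = fun q => cut N (lw q) * Ga q := by funext q; simp [ph]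
  have e1 : ph N 1 = fun q => cut N (lw q) * Gb q := by funext q; simp [ph]
  have e2 : ph N 2 = fun q => cut N (lw q) * Gc q := by funext q; simp [ph]
  have b0 : bv 0 = (1, 0, 0) := by simp [bv]
  have b1 : bv 1 = (0, 1, 0) := by simp [bv]
  have b2 : bv 2 = (0, 0, 1) := by simp [bv]
  rw [e0, e1, e2, b0, b1, b2, prod_fd Ga_cd, prod_fd Gb_cd, prod_fd Gc_cd]
  have h := dv_G q
  have h' : fderiv ℝ Ga q (1, 0, 0) + fderiv ℝ Gb q (0, 1, 0) + fderiv ℝ Gc q (0, 0, 1)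
      = -(P q) := by
    unfold dv E1 E2 E3 at h
    rw [h]
    rfl
  have h2 : Gc q - √2 * Gb q = 1 - 2 * (q.2.2 + t) * lw q / FD q := by
    unfold Gc Gb Fc Fb lw
    have := (FD_pos q).ne'
    field_simp
    ring
  simp only
  linear_combination cut N (lw q) * h' + cutd N (lw q) * h2

end Helper78.MEI.K4
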