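import Pool.Agent.Helper78.MEI.K4a

/-!
# Project MEI, row K4, part 2: the flux identity in the half cell
-/

namespace Helper78.MEI.K4

open Set MeasureTheory Filter Topology Metric
open Helper22.MEI Helper22.Wedge Pool.Agent.Helper8.MEI

/-- cut-off in the space: equal to `1` on the half cell -/
noncomputable def chi (q : ℝ × ℝ × ℝ) : ℝ := max 0 (min 1 (3 - dist q 0))

theorem chi_lip : ∃ K : NNReal, LipschitzWith K chi := by
  have h1 : LipschitzWith (0 + 1) (fun q : ℝ × ℝ × ℝ => 3 - dist q 0) :=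
    (LipschitzWith.const 3).sub (LipschitzWith.dist_left 0)
  exact ⟨_, (LipschitzWith.const 0).max ((LipschitzWith.const 1).min h1)⟩

theorem chi_supp : HasCompactSupport chi := by
  refine HasCompactSupport.of_support_subset_isCompact (isCompact_closedBall (0 : ℝ × ℝ × ℝ) 3) ?_
  intro q hq
  rw [mem_closedBall]
  by_contra h
  push Not at h
  refine hq ?_
  unfold chi
  have h1 : min 1 (3 - dist q 0) ≤ 0 := (min_le_right _ _).trans (by linarith)
  exact max_eq_left h1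

theorem chi_nonneg (q : ℝ × ℝ × ℝ) : 0 ≤ chi q := le_max_left _ _

theorem chi_one {q : ℝ × ℝ × ℝ} (hq : q ∈ Ap) : chi q = 1 := by
  obtain ⟨h1, h2, h3, h4, h5, h6, h7⟩ := Ap_bd hq
  have ht := t_lo
  have h8 : dist q 0 ≤ 2 := by
    rw [dist_zero_right, Prod.norm_def, Prod.norm_def]
    refine max_le ?_ (max_le ?_ ?_)
    · rw [Real.norm_eq_abs]; linarith
    · rw [Real.norm_eq_abs, abs_of_pos h2]; linarith
    · rw [Real.norm_eq_abs, abs_of_pos (by linarith)]; linarith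
  unfold chi
  rw [min_eq_left (by linarith)]
  exact max_eq_right zero_le_one

theorem Ap_open : IsOpen Ap := by
  obtain ⟨K, hK⟩ := lf_lip
  exact isOpen_lt continuous_const hK.continuous

theorem chi_fd {q : ℝ × ℝ × ℝ} (hq : q ∈ Ap) (v : ℝ × ℝ × ℝ) : fderiv ℝ chi q v = 0 := by
  have h1 : chi =ᶠ[𝓝 q] fun _ => 1 := by
    filter_upwards [Ap_open.mem_nhds hq] with p hp
    exact chi_one hp
  rw [h1.fderiv_eq]
  simp

/-- derivative of the distance to `a₄` -/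
theorem R_fd {q : ℝ × ℝ × ℝ} (hq : 0 < R q) : DifferentiableAt ℝ (fun q => 1 - R q) q ∧ ∀ v,
    fderiv ℝ (fun q => 1 - R q) q v
      = -((q.1 * v.1 + (q.2.1 + 1 / 2) * v.2.1 + (q.2.2 + t) * v.2.2) / R q) := by
  have h1 : HasFDerivAt (fun q : ℝ × ℝ × ℝ => q.2.2)
      ((ContinuousLinearMap.snd ℝ ℝ ℝ).comp (ContinuousLinearMap.snd ℝ ℝ (ℝ × ℝ))) q :=
    ((ContinuousLinearMap.snd ℝ ℝ ℝ).comp (ContinuousLinearMap.snd ℝ ℝ (ℝ × ℝ))).hasFDerivAt
  have h2 : HasFDerivAt (fun q : ℝ × ℝ × ℝ => q.2.1)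
      ((ContinuousLinearMap.fst ℝ ℝ ℝ).comp (ContinuousLinearMap.snd ℝ ℝ (ℝ × ℝ))) q :=
    ((ContinuousLinearMap.fst ℝ ℝ ℝ).comp (ContinuousLinearMap.snd ℝ ℝ (ℝ × ℝ))).hasFDerivAt
  have h3 : HasFDerivAt (fun q : ℝ × ℝ × ℝ => q.1) (ContinuousLinearMap.fst ℝ ℝ (ℝ × ℝ)) q :=
    (ContinuousLinearMap.fst ℝ ℝ (ℝ × ℝ)).hasFDerivAt
  have h4 : HasFDerivAt R2 _ q := ((h3.pow 2).add ((h2.add_const (1 / 2)).pow 2)).add
    ((h1.add_const t).pow 2)
  have h5 : R2 q ≠ 0 := by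
    rw [← R_sq]
    exact pow_ne_zero 2 hq.ne'
  have h6 := (h4.sqrt h5).const_sub 1
  have h7 : HasFDerivAt (fun q => 1 - R q) _ q := h6
  refine ⟨h7.differentiableAt, fun v => ?_⟩
  rw [h7.fderiv]
  have hR : √(R2 q) = R q := rfl
  simp only [hR, neg_apply, smul_apply,
    add_apply, ContinuousLinearMap.comp_apply, ContinuousLinearMap.coe_snd',
    ContinuousLinearMap.coe_fst', smul_eq_mul, nsmul_eq_mul]
  field_simp
  push_cast
  ring

/-- sum with the basis -/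
theorem sum3 (N : ℝ) (q : ℝ × ℝ × ℝ) (L : (ℝ × ℝ × ℝ) → ℝ) :
    ∑ k, ph N k q * L (bv k) = cut N (lw q) * (Ga q * L (1, 0, 0) + Gb q * L (0, 1, 0)
      + Gc q * L (0, 0, 1)) := by
  rw [Fin.sum_univ_three]
  simp only [ph, bv, if_true, Fin.isValue, one_ne_zero, if_false]
  have h1 : (2 : Fin 3) ≠ 0 := by decide
  have h2 : (2 : Fin 3) ≠ 1 := by decide
  rw [if_neg h1, if_neg h2, if_neg h1, if_neg h2]
  ring

/-- exact tangency to the sphere -/
theorem tang_R (q : ℝ × ℝ × ℝ) : Ga q * q.1 + Gb q * (q.2.1 + 1 / 2) + Gc q * (q.2.2 + t)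
    = -((q.2.2 + t) * (R2 q - 1) / FD q) := by
  have hD := (FD_pos q).ne'
  unfold Gc Ga Gb Fa Fb Fc
  field_simp
  unfold FD R2
  have ht : t ^ 2 = 1 / 8 := by
    unfold t
    have h : √2 * √2 = (2 : ℝ) := Real.mul_self_sqrt (by norm_num)
    nlinarith
  ring_nf
  linear_combination (512 * (q.2.2 + t)) * ht

theorem y_fd (q v : ℝ × ℝ × ℝ) : DifferentiableAt ℝ (fun q : ℝ × ℝ × ℝ => q.2.1) q ∧
    fderiv ℝ (fun q : ℝ × ℝ × ℝ => q.2.1) q v = v.2.1 := by
  have h2 : HasFDerivAt (fun q : ℝ × ℝ × ℝ => q.2.1)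
      ((ContinuousLinearMap.fst ℝ ℝ ℝ).comp (ContinuousLinearMap.snd ℝ ℝ (ℝ × ℝ))) q :=
    ((ContinuousLinearMap.fst ℝ ℝ ℝ).comp (ContinuousLinearMap.snd ℝ ℝ (ℝ × ℝ))).hasFDerivAt
  refine ⟨h2.differentiableAt, ?_⟩
  rw [h2.fderiv]
  rfl

theorem FD_ge' (q : ℝ × ℝ × ℝ) : 1 / 4 ≤ FD q := DD_ge q.1 q.2.1 (q.2.2 - t)

/-- the cut-off field is tangent to the three walls -/
theorem tang_all {N : ℝ} (hN : 0 < N) {q : ℝ × ℝ × ℝ} (hd : DifferentiableAt ℝ lf q)
    (hq : 0 < lf q) : |∑ k, ph N k q * fderiv ℝ lf q (bv k)| ≤ (16 + 9 * N) * lf q := by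
  have hqA : q ∈ Ap := hq
  obtain ⟨h1, h2, h3, h4, h5, h6, h7⟩ := Ap_bd hqA
  obtain ⟨-, h8, h9⟩ := Ap_iff.1 hqA
  have ht := t_lo
  have hD := FD_ge' q
  have hDp := FD_pos q
  have hzt : 0 < q.2.2 + t := by linarith
  have hc0 := cut_nonneg N (lw q)
  have hc1 := cut_le N (lw q)
  have hc2 := cut_lin hN.le h8.le
  rw [sum3 N q (fun v => fderiv ℝ lf q v), abs_mul, abs_of_nonneg hc0]
  have hle0 : ∀ y, lf y ≤ y.2.1 := fun y => min_le_left _ _
  have hle1 : ∀ y, lf y ≤ lw y := fun y => (min_le_right _ _).trans (min_le_left _ _)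
  have hle2 : ∀ y, lf y ≤ 1 - R y := fun y => (min_le_right _ _).trans (min_le_right _ _)
  have hcase : lf q = q.2.1 ∨ lf q = lw q ∨ lf q = 1 - R q := by
    unfold lf
    rcases min_choice q.2.1 (min (lw q) (1 - R q)) with h | h
    · exact Or.inl h
    · rcases min_choice (lw q) (1 - R q) with h' | h'
      · exact Or.inr (Or.inl (h.trans h'))
      · exact Or.inr (Or.inr (h.trans h'))
  rcases hcase with h | h | h
  · have e := fd_touch hle0 h hd (y_fd q 0).1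
    simp only [e, (y_fd q _).2]
    rw [h]
    have e1 : Ga q * 0 + Gb q * 1 + Gc q * 0 = Gb q := by ring
    rw [e1]
    have e2 : |Gb q| ≤ 8 * q.2.1 := by
      unfold Gb Fb
      rw [abs_neg, abs_of_nonneg (by positivity)]
      have e3 : 4 * (q.2.2 + t) * (1 / 2 * q.2.1 / FD q) = 2 * (q.2.2 + t) * q.2.1 / FD q := by ring
      rw [e3, div_le_iff₀ hDp]
      have e4 : 2 * (q.2.2 + t) * q.2.1 ≤ 2 * q.2.1 := by nlinarith
      nlinarith
    calc cut N (lw q) * |Gb q| ≤ 1 * (8 * q.2.1) := mul_le_mul hc1 e2 (abs_nonneg _) zero_le_one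
      _ ≤ (16 + 9 * N) * q.2.1 := by nlinarith [mul_pos hN h2]
  · have e := fd_touch hle1 h hd (lw_fd q 0).1.differentiableAt
    simp only [e, (lw_fd q _).2]
    rw [h]
    have e1 : Ga q * (0 - √2 * 0) + Gb q * (0 - √2 * 1) + Gc q * (1 - √2 * 0)
        = 1 - 2 * (q.2.2 + t) * lw q / FD q := by
      unfold Gc Gb Fc Fb lw
      have := (FD_pos q).ne'
      field_simp
      ring
    rw [e1]
    have e2 : |1 - 2 * (q.2.2 + t) * lw q / FD q| ≤ 9 := by
      have e3 : 2 * (q.2.2 + t) * lw q / FD q ≤ 8 := by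
        rw [div_le_iff₀ hDp]
        have : (q.2.2 + t) * lw q ≤ 1 := by nlinarith
        nlinarith
      have e4 : 0 ≤ 2 * (q.2.2 + t) * lw q / FD q := by positivity
      rw [abs_le]
      constructor <;> linarith
    calc cut N (lw q) * |1 - 2 * (q.2.2 + t) * lw q / FD q| ≤ N * lw q * 9 :=
          mul_le_mul hc2 e2 (abs_nonneg _) (by positivity)
      _ ≤ (16 + 9 * N) * lw q := by nlinarith
  · have hR : 0 < R q := by linarith
    have e := fd_touch hle2 h hd (R_fd hR).1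
    simp only [e, (R_fd hR).2]
    rw [h]
    have e1 : Ga q * -((q.1 * 1 + (q.2.1 + 1 / 2) * 0 + (q.2.2 + t) * 0) / R q)
        + Gb q * -((q.1 * 0 + (q.2.1 + 1 / 2) * 1 + (q.2.2 + t) * 0) / R q)
        + Gc q * -((q.1 * 0 + (q.2.1 + 1 / 2) * 0 + (q.2.2 + t) * 1) / R q)
        = (q.2.2 + t) * (R2 q - 1) / FD q / R q := by
      have e0 := tang_R q
      have : Ga q * -((q.1 * 1 + (q.2.1 + 1 / 2) * 0 + (q.2.2 + t) * 0) / R q)
        + Gb q * -((q.1 * 0 + (q.2.1 + 1 / 2) * 1 + (q.2.2 + t) * 0) / R q)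
        + Gc q * -((q.1 * 0 + (q.2.1 + 1 / 2) * 0 + (q.2.2 + t) * 1) / R q)
        = -(Ga q * q.1 + Gb q * (q.2.1 + 1 / 2) + Gc q * (q.2.2 + t)) / R q := by ring
      rw [this, e0, neg_neg]
    rw [e1]
    have hfac : R2 q - 1 = -((1 - R q) * (1 + R q)) := by
      rw [← R_sq]; ring
    have e2 : |(q.2.2 + t) * (R2 q - 1) / FD q / R q| ≤ 16 * (1 - R q) := by
      rw [hfac, abs_div, abs_div, abs_mul, abs_neg, abs_of_pos hzt, abs_of_pos hDp, abs_of_pos hR,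
        abs_of_nonneg (mul_nonneg (by linarith) (by linarith)), div_div,
        div_le_iff₀ (mul_pos hDp hR)]
      have k1 : (q.2.2 + t) * ((1 - R q) * (1 + R q)) ≤ 1 * ((1 - R q) * 2) :=
        mul_le_mul h5.le (mul_le_mul_of_nonneg_left (by linarith) (by linarith))
          (mul_nonneg (by linarith) (by linarith)) zero_le_one
      have k2 : 1 / 8 ≤ FD q * R q := by nlinarith
      nlinarith [mul_nonneg (show (0 : ℝ) ≤ 1 - R q by linarith)
        (show (0 : ℝ) ≤ FD q * R q - 1 / 8 by linarith)]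
    calc cut N (lw q) * |(q.2.2 + t) * (R2 q - 1) / FD q / R q| ≤ 1 * (16 * (1 - R q)) :=
          mul_le_mul hc1 e2 (abs_nonneg _) zero_le_one
      _ ≤ (16 + 9 * N) * (1 - R q) := by nlinarith [mul_pos hN (show (0 : ℝ) < 1 - R q by linarith)]

/-- **flux identity in the half cell** -/
theorem flux_Ap {N : ℝ} (hN : 0 < N) : ∫ q in Ap, (-(cut N (lw q) * P q)
    + cutd N (lw q) * (1 - 2 * (q.2.2 + t) * lw q / FD q)) = 0 := by
  obtain ⟨Kl, hl⟩ := lf_lip
  obtain ⟨Kc, hc⟩ := chi_lip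
  have i1 : (volume : Measure (ℝ × ℝ)).IsAddHaarMeasure :=
    Measure.prod.instIsAddHaarMeasure volume volume
  have i2 : (volume : Measure (ℝ × ℝ × ℝ)).IsAddHaarMeasure :=
    Measure.prod.instIsAddHaarMeasure volume volume
  have key := wedge_eq (μ := (volume : Measure (ℝ × ℝ × ℝ))) (l := lf) (χ := chi) (φ := ph N)
    (v := bv) hl hc chi_supp chi_nonneg (ph_cd N) (C := 16 + 9 * N) (by
      filter_upwards [hl.ae_differentiableAt] with q hq h1 _
      exact tang_all hN hq h1)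
  refine Eq.trans (setIntegral_congr_fun Ap_open.measurableSet fun q hq => ?_) key
  unfold Helper22.Wedge.GG
  simp only [chi_fd hq, mul_zero, Finset.sum_const_zero, zero_add]
  rw [chi_one hq, one_mul, sum_fd]

end Helper78.MEI.K4
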