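import Pool.Agent.Helper78.MEI.K4b
import Pool.Agent.Helper95.MEI.C7

/-!
# Project MEI, row K4, part 3: the reference number of the depth integral
-/

namespace Helper78.MEI.K4

open Set MeasureTheory Filter Topology Metric
open Helper22.MEI Helper22.Wedge Pool.Agent.Helper8.MEI

theorem Ap_meas : MeasurableSet Ap := Ap_open.measurableSet

theorem Ap_sub : Ap ⊆ closedBall (0 : ℝ × ℝ × ℝ) 2 := by
  intro q hq
  obtain ⟨h1, h2, h3, h4, h5, h6, h7⟩ := Ap_bd hq
  have ht := t_lo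
  rw [mem_closedBall, dist_zero_right, Prod.norm_def, Prod.norm_def]
  refine max_le ?_ (max_le ?_ ?_)
  · rw [Real.norm_eq_abs]; linarith
  · rw [Real.norm_eq_abs, abs_of_pos h2]; linarith
  · rw [Real.norm_eq_abs, abs_of_pos (by linarith)]; linarith

theorem Ap_int {f : ℝ × ℝ × ℝ → ℝ} (hf : Continuous f) : IntegrableOn f Ap :=
  (hf.continuousOn.integrableOn_compact (isCompact_closedBall (0 : ℝ × ℝ × ℝ) 2)).mono_set Ap_sub

theorem lw_cont : Continuous lw := by unfold lw; fun_prop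

theorem cut_cont (N : ℝ) : Continuous (cut N) := by
  unfold cut
  exact Continuous.div (by fun_prop) (by fun_prop) fun r => by positivity

theorem cutd_cont (N : ℝ) : Continuous (cutd N) := by
  unfold cutd
  exact Continuous.div (by fun_prop) (by fun_prop) fun r => by positivity

theorem P_cont : Continuous P := by
  unfold P divF DD NU
  have h : ∀ q : ℝ × ℝ × ℝ, 1 / 4 + q.1 ^ 2 / 8 + (q.2.1 ^ 2 + (q.2.2 - t) ^ 2) ≠ 0 :=
    fun q => by positivity
  exact (Continuous.mul (by fun_prop) (Continuous.div (by fun_prop) (by fun_prop)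
    fun q => pow_ne_zero 2 (h q))).add (Continuous.div (by fun_prop) (by fun_prop) h)

theorem step1 {N : ℝ} (hN : 0 < N) :
    ∫ q in Ap, cut N (lw q) * P q ≤ ∫ q in Ap, cutd N (lw q) := by
  have h := flux_Ap hN
  have c1 : Continuous fun q : ℝ × ℝ × ℝ => cut N (lw q) * P q :=
    ((cut_cont N).comp lw_cont).mul P_cont
  have c3 : Continuous fun q : ℝ × ℝ × ℝ => cutd N (lw q) := (cutd_cont N).comp lw_cont
  have c2 : Continuous fun q : ℝ × ℝ × ℝ =>
      cutd N (lw q) * (1 - 2 * (q.2.2 + t) * lw q / FD q) := by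
    refine c3.mul (continuous_const.sub (Continuous.div ?_ FD_cd.continuous
      fun q => (FD_pos q).ne'))
    exact (by fun_prop : Continuous fun q : ℝ × ℝ × ℝ => 2 * (q.2.2 + t)).mul lw_cont
  have i1 : IntegrableOn (fun q => -(cut N (lw q) * P q)) Ap := (Ap_int c1).neg
  have i2 := Ap_int c2
  have i3 := Ap_int c3
  rw [integral_add i1 i2, integral_neg] at h
  have h2 : ∫ q in Ap, cutd N (lw q) * (1 - 2 * (q.2.2 + t) * lw q / FD q)
      ≤ ∫ q in Ap, cutd N (lw q) := by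
    refine setIntegral_mono_on i2 i3 Ap_meas fun q hq => ?_
    obtain ⟨h1, h2, h3, h4, h5, h6, h7⟩ := Ap_bd hq
    obtain ⟨-, h8, h9⟩ := Ap_iff.1 hq
    have ht := t_lo
    have h10 : 0 ≤ 2 * (q.2.2 + t) * lw q / FD q :=
      div_nonneg (mul_nonneg (by linarith) h8.le) (FD_pos q).le
    have h11 := cutd_nonneg (N := N) h8.le
    nlinarith
  linarith

/-- the base -/
def Bs : Set (ℝ × ℝ) := {p | 0 < p.2 ∧ p.1 ^ 2 + 3 * p.2 ^ 2 + 3 * p.2 < 1 / 4}

theorem Bs_meas : MeasurableSet Bs := by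
  have h1 : MeasurableSet {p : ℝ × ℝ | 0 < p.2} := measurableSet_lt measurable_const measurable_snd
  have h2 : MeasurableSet {p : ℝ × ℝ | p.1 ^ 2 + 3 * p.2 ^ 2 + 3 * p.2 < 1 / 4} :=
    measurableSet_lt (by fun_prop) measurable_const
  exact h1.inter h2

theorem Ap_Bs {q : ℝ × ℝ × ℝ} (hq : q ∈ Ap) : (q.1, q.2.1) ∈ Bs := by
  obtain ⟨h1, h2, h3⟩ := Ap_iff.1 hq
  have h4 : R2 q < 1 := by
    rw [← R_sq]
    nlinarith [R_nonneg q]
  refine ⟨h1, ?_⟩
  simp only
  unfold R2 at h4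
  unfold lw at h2
  have e2 : √2 ^ 2 = (2 : ℝ) := Real.sq_sqrt (by norm_num)
  have e3 : 0 < √2 := by positivity
  have h5 : √2 * q.2.1 + √2 / 2 < q.2.2 + t := by
    unfold t at h2 ⊢
    linarith
  have h6 : (√2 * q.2.1 + √2 / 2) ^ 2 < (q.2.2 + t) ^ 2 :=
    pow_lt_pow_left₀ h5 (by positivity) two_ne_zero
  have h7 : (√2 * q.2.1 + √2 / 2) ^ 2 = 2 * q.2.1 ^ 2 + 2 * q.2.1 + 1 / 2 := by
    linear_combination (q.2.1 + 1 / 2) ^ 2 * e2
  nlinarith

theorem lint_cutd (N : ℝ) : ∫⁻ r in Ioo (0 : ℝ) 1, ENNReal.ofReal (cutd N r) ≤ 1 := by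
  have h1 : ∫ r in (0 : ℝ)..1, cutd N r = cut N 1 - cut N 0 :=
    intervalIntegral.integral_eq_sub_of_hasDerivAt (fun r _ => cut_hasDeriv N r)
      ((cutd_cont N).intervalIntegrable _ _)
  have h2 : ∫ r in Ioo (0 : ℝ) 1, cutd N r ≤ 1 := by
    rw [intervalIntegral.integral_of_le zero_le_one, integral_Ioc_eq_integral_Ioo] at h1
    rw [h1]
    linarith [cut_le N 1, cut_nonneg N 0]
  have h3 : IntegrableOn (cutd N) (Ioo (0 : ℝ) 1) :=
    ((cutd_cont N).continuousOn.integrableOn_compact isCompact_Icc).mono_set Ioo_subset_Icc_self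
  rw [← ofReal_integral_eq_lintegral_ofReal h3
    ((ae_restrict_iff' measurableSet_Ioo).2 (ae_of_all _ fun r hr => cutd_nonneg hr.1.le))]
  rw [← ENNReal.ofReal_one]
  exact ENNReal.ofReal_le_ofReal h2

theorem lint_Ap (N : ℝ) : ∫⁻ q in Ap, ENNReal.ofReal (cutd N (lw q)) ≤ volume Bs := by
  set h : ℝ → ENNReal := (Ioo (0 : ℝ) 1).indicator fun r => ENNReal.ofReal (cutd N r) with hh
  have hm : Measurable h :=
    ((cutd_cont N).measurable.ennreal_ofReal).indicator measurableSet_Ioo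
  have hB : Measurable (Bs.indicator (fun _ => (1 : ENNReal))) := measurable_const.indicator Bs_meas
  have h1 : ∫⁻ q in Ap, ENNReal.ofReal (cutd N (lw q))
      ≤ ∫⁻ q : ℝ × ℝ × ℝ, Bs.indicator (fun _ => 1) (q.1, q.2.1) * h (lw q) := by
    rw [← lintegral_indicator Ap_meas]
    refine lintegral_mono fun q => ?_
    by_cases hq : q ∈ Ap
    · obtain ⟨a1, a2, a3, a4, a5, a6, a7⟩ := Ap_bd hq
      obtain ⟨-, a8, a9⟩ := Ap_iff.1 hq
      rw [indicator_of_mem hq]
      simp only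
      rw [indicator_of_mem (Ap_Bs hq), hh, indicator_of_mem (show lw q ∈ Ioo (0 : ℝ) 1 from ⟨a8, a6⟩),
        one_mul]
    · rw [indicator_of_notMem hq]
      exact zero_le
  refine h1.trans ?_
  have m1 : Measurable fun q : ℝ × ℝ × ℝ => Bs.indicator (fun _ => (1 : ENNReal)) (q.1, q.2.1)
      * h (lw q) :=
    (hB.comp (by fun_prop : Measurable fun q : ℝ × ℝ × ℝ => (q.1, q.2.1))).mul
      (hm.comp lw_cont.measurable)
  have e1 : ∫⁻ q : ℝ × ℝ × ℝ, Bs.indicator (fun _ => 1) (q.1, q.2.1) * h (lw q)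
      = ∫⁻ x, ∫⁻ p : ℝ × ℝ, Bs.indicator (fun _ => 1) (x, p.1) * h (lw (x, p.1, p.2)) :=
    lintegral_prod _ m1.aemeasurable
  rw [e1]
  have e2 : ∀ x, ∫⁻ p : ℝ × ℝ, Bs.indicator (fun _ => 1) (x, p.1) * h (lw (x, p.1, p.2))
      = ∫⁻ y, ∫⁻ z, Bs.indicator (fun _ => 1) (x, y) * h (lw (x, y, z)) := fun x =>
    lintegral_prod _ (m1.comp (by fun_prop :
      Measurable fun p : ℝ × ℝ => (x, p.1, p.2))).aemeasurable
  have e3 : ∀ x y, ∫⁻ z, Bs.indicator (fun _ => 1) (x, y) * h (lw (x, y, z))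
      ≤ Bs.indicator (fun _ => 1) (x, y) := by
    intro x y
    have k1 : ∫⁻ z, h (lw (x, y, z)) ≤ 1 := by
      have k2 : (fun z => h (lw (x, y, z))) = fun z => h (z - (t + √2 * y)) := by
        funext z
        unfold lw
        congr 1
        simp only
        ring
      rw [k2, lintegral_sub_right_eq_self (μ := volume) h (t + √2 * y), hh,
        lintegral_indicator measurableSet_Ioo]
      exact lint_cutd N
    have k3 : Measurable fun z : ℝ => h (lw (x, y, z)) :=
      hm.comp (lw_cont.measurable.comp (by fun_prop))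
    rw [lintegral_const_mul _ k3]
    calc Bs.indicator (fun _ => 1) (x, y) * ∫⁻ z, h (lw (x, y, z))
        ≤ Bs.indicator (fun _ => 1) (x, y) * 1 := mul_le_mul_right k1 _
      _ = _ := mul_one _
  calc ∫⁻ x, ∫⁻ p : ℝ × ℝ, Bs.indicator (fun _ => 1) (x, p.1) * h (lw (x, p.1, p.2))
      ≤ ∫⁻ x, ∫⁻ y, Bs.indicator (fun _ => 1) (x, y) :=
        lintegral_mono fun x => (e2 x).le.trans (lintegral_mono fun y => e3 x y)
    _ = ∫⁻ p : ℝ × ℝ, Bs.indicator (fun _ => 1) p := (lintegral_prod _ hB.aemeasurable).symm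
    _ = volume Bs := by
        rw [lintegral_indicator Bs_meas]
        simp

/-- the reference number -/
noncomputable def cz : ℝ := Real.pi / (3 * √3) - 1 / 2

/-- antiderivative -/
noncomputable def anti (x : ℝ) : ℝ := (x * √(1 - x ^ 2) + Real.arcsin x) / 2 / √3 - x / 2

theorem anti_deriv {x : ℝ} (hx : x ∈ Icc (-(1 / 2) : ℝ) (1 / 2)) :
    HasDerivAt anti (√(1 - x ^ 2) / √3 - 1 / 2) x := by
  have h0 : 0 < 1 - x ^ 2 := by nlinarith [hx.1, hx.2]
  have h1 : HasDerivAt (fun x : ℝ => 1 - x ^ 2) (-(2 * x)) x := by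
    have := (hasDerivAt_pow 2 x).const_sub 1
    simpa using this
  have h2 := h1.sqrt h0.ne'
  have h3 := (hasDerivAt_id x).mul h2
  have h4 := Real.hasDerivAt_arcsin (x := x) (by linarith [hx.1]) (by linarith [hx.2])
  have h5 := (((h3.add h4).div_const 2).div_const (√3)).sub ((hasDerivAt_id x).div_const 2)
  refine h5.congr_deriv ?_
  have hs : √(1 - x ^ 2) ^ 2 = 1 - x ^ 2 := Real.sq_sqrt h0.le
  have hp : 0 < √(1 - x ^ 2) := Real.sqrt_pos.2 h0
  simp only [id]
  field_simp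
  linear_combination (-1 : ℝ) * hs

theorem anti_val : anti (1 / 2) - anti (-(1 / 2)) = cz / 2 := by
  have h1 : Real.arcsin (1 / 2) = Real.pi / 6 := by
    rw [← Real.sin_pi_div_six]
    exact Real.arcsin_sin (by linarith [Real.pi_pos]) (by linarith [Real.pi_pos])
  have h2 : √(1 - (1 / 2 : ℝ) ^ 2) = √3 / 2 := by
    rw [show (1 : ℝ) - (1 / 2) ^ 2 = 3 / 4 by norm_num, Real.sqrt_div (by norm_num),
      show (4 : ℝ) = 2 ^ 2 by norm_num, Real.sqrt_sq (by norm_num)]
  have h3 : √3 ^ 2 = (3 : ℝ) := Real.sq_sqrt (by norm_num)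
  have h4 : 0 < √3 := by positivity
  unfold anti cz
  rw [Real.arcsin_neg, h1, neg_sq, h2]
  field_simp
  ring

theorem vol_Bs : volume Bs ≤ ENNReal.ofReal (cz / 2) := by
  have c1 : Continuous fun x : ℝ => √(1 - x ^ 2) / √3 - 1 / 2 := by fun_prop
  have h3 : √3 ^ 2 = (3 : ℝ) := Real.sq_sqrt (by norm_num)
  have h4 : 0 < √3 := by positivity
  have h1 : Bs ⊆ regionBetween (fun _ => 0) (fun x => √(1 - x ^ 2) / √3 - 1 / 2)
      (Ioo (-(1 / 2)) (1 / 2)) := by
    intro p hp
    obtain ⟨a, b⟩ := hp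
    have hx : p.1 ^ 2 < 1 / 4 := by nlinarith [sq_nonneg p.2]
    have hx2 : |p.1| < 1 / 2 := by
      refine abs_lt_of_sq_lt_sq ?_ (by norm_num)
      linarith
    refine ⟨abs_lt.1 hx2, a, ?_⟩
    simp only
    rw [lt_sub_iff_add_lt, lt_div_iff₀ h4]
    refine Real.lt_sqrt_of_sq_lt ?_
    rw [mul_pow, h3]
    nlinarith
  refine (measure_mono h1).trans ?_
  have i1 : IntegrableOn (fun x : ℝ => √(1 - x ^ 2) / √3 - 1 / 2) (Ioo (-(1 / 2)) (1 / 2)) :=
    (c1.continuousOn.integrableOn_compact isCompact_Icc).mono_set Ioo_subset_Icc_self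
  have i0 : IntegrableOn (fun _ : ℝ => (0 : ℝ)) (Ioo (-(1 / 2)) (1 / 2)) := integrableOn_zero
  rw [Measure.volume_eq_prod, volume_regionBetween_eq_integral i0 i1 measurableSet_Ioo]
  · refine ENNReal.ofReal_le_ofReal (le_of_eq ?_)
    have e1 : ∫ x in (-(1 / 2) : ℝ)..(1 / 2), (√(1 - x ^ 2) / √3 - 1 / 2)
        = anti (1 / 2) - anti (-(1 / 2)) :=
      intervalIntegral.integral_eq_sub_of_hasDerivAt (fun x hx => anti_deriv (by
        rwa [uIcc_of_le (by norm_num)] at hx)) (c1.intervalIntegrable _ _)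
    rw [anti_val, intervalIntegral.integral_of_le (by norm_num), integral_Ioc_eq_integral_Ioo] at e1
    rw [← e1]
    refine setIntegral_congr_fun measurableSet_Ioo fun x _ => ?_
    simp
  · intro x hx
    rw [sub_nonneg, div_le_div_iff₀ (by norm_num) h4, one_mul]
    have : √3 / 2 ≤ √(1 - x ^ 2) := by
      refine Real.le_sqrt_of_sq_le ?_
      rw [div_pow, h3]
      nlinarith [hx.1, hx.2]
    linarith

theorem int_P_le : ∫ q in Ap, P q ≤ cz / 2 := by
  have hcz : 0 ≤ cz / 2 := by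
    by_contra h
    push Not at h
    have := vol_Bs
    rw [ENNReal.ofReal_of_nonpos h.le] at this
    have h2 : 0 < volume Bs := by
      have ho : IsOpen Bs := (isOpen_lt continuous_const continuous_snd).inter
        (isOpen_lt (by fun_prop : Continuous fun p : ℝ × ℝ => p.1 ^ 2 + 3 * p.2 ^ 2 + 3 * p.2)
          continuous_const)
      refine ho.measure_pos _ ⟨(0, 1 / 100), ?_⟩
      constructor
      · norm_num
      · norm_num
    exact absurd this (not_le.2 h2)
  have hlim : Tendsto (fun n : ℕ => ∫ q in Ap, cut ((n : ℝ) + 1) (lw q) * P q) atTop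
      (𝓝 (∫ q in Ap, P q)) := by
    refine tendsto_integral_of_dominated_convergence (fun q => |P q|)
      (fun n => (((cut_cont _).comp lw_cont).mul P_cont).aestronglyMeasurable)
      (Ap_int P_cont.abs) (fun n => ae_of_all _ fun q => ?_) ?_
    · rw [Real.norm_eq_abs, abs_mul, abs_of_nonneg (cut_nonneg _ _)]
      exact mul_le_of_le_one_left (abs_nonneg _) (cut_le _ _)
    · rw [ae_restrict_iff' Ap_meas]
      refine ae_of_all _ fun q hq => ?_
      have hl : 0 < lw q := (Ap_iff.1 hq).2.1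
      have h1 : Tendsto (fun n : ℕ => cut ((n : ℝ) + 1) (lw q)) atTop (𝓝 1) := by
        have e : ∀ n : ℕ, cut ((n : ℝ) + 1) (lw q) = 1 - 1 / (1 + ((n : ℝ) + 1) ^ 2 * lw q ^ 2) := by
          intro n
          unfold cut
          field_simp
          ring
        simp only [e]
        have h2 : Tendsto (fun n : ℕ => 1 / (1 + ((n : ℝ) + 1) ^ 2 * lw q ^ 2)) atTop (𝓝 0) := by
          refine squeeze_zero (fun n => by positivity) (fun n => ?_)
            (g := fun n : ℕ => (1 / lw q ^ 2) * (1 / ((n : ℝ) + 1))) ?_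
          · rw [div_mul_div_comm, one_mul, one_div_le_one_div (by positivity) (by positivity)]
            have h3 : ((n : ℝ) + 1) ≤ ((n : ℝ) + 1) ^ 2 := by nlinarith [n.cast_nonneg (α := ℝ)]
            nlinarith [sq_nonneg (lw q), mul_le_mul_of_nonneg_right h3 (sq_nonneg (lw q))]
          · have := (tendsto_one_div_add_atTop_nhds_zero_nat (𝕜 := ℝ)).const_mul (1 / lw q ^ 2)
            simpa using this
        simpa using h2.const_sub 1
      simpa using h1.mul_const (P q)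
  refine le_of_tendsto hlim (Eventually.of_forall fun n => ?_)
  refine (step1 (by positivity)).trans ?_
  have h1 : 0 ≤ᵐ[volume.restrict Ap] fun q => cutd ((n : ℝ) + 1) (lw q) := by
    refine (ae_restrict_iff' Ap_meas).2 (ae_of_all _ fun q hq => ?_)
    exact cutd_nonneg (Ap_iff.1 hq).2.1.le
  rw [integral_eq_lintegral_of_nonneg_ae h1 ((cutd_cont _).comp lw_cont).aestronglyMeasurable]
  refine ENNReal.toReal_le_of_le_ofReal hcz ?_
  exact (lint_Ap _).trans vol_Bs

end Helper78.MEI.K4
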