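import Pool.Agent.Helper93.MEI.St2
import Pool.Agent.Helper93.MEI.Meas

/-!
# Project MEI (M2), faces: pointwise assembly

`t` = direction of `p` in the flat simplex, `m = √(mt t)`, `N` any lower bound of the couplings
`2 Σ t_k y_k(q)`, `X = N / m - w`, `w = ‖a 0 - q‖ ^ 2`.

* `core`: `Q_0(p) ≥ X` if `Q_0(p) ≥ 0`, `(1 - w / 2) Q_0(p) ≥ X` if `Q_0(p) < 0`;
* `ff A X w` = the density bound, monotone in `X`, quasi-concave in `w` along `X = g - c w`;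
* `face_pt`: the face theorem in terms of `(t, q)` only.
-/

namespace Helper78.MEI

open Set Metric MeasureTheory Real Helper80.CW Helper82.CW Helper14.CW Helper22.Sig
open Helper22.Wedge Helper14.MEI2 Pool.Agent.Helper73.MEI Helper33.MEI Helper93.MEI
open Pool.Agent.Helper52.MEI
open scoped RealInnerProductSpace ENNReal

variable {a : Fin 4 → E3}

/-- **core of the pointwise bound** -/
theorem core {Q w m N : ℝ} (hr : 6 / 13 ≤ √(1 + Q)) (hw0 : 0 ≤ w)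
    (hw : w ≤ 19 / 16) (h : √(1 + Q) / m * N ≤ Q + w) :
    (0 ≤ Q ∧ N / m - w ≤ Q) ∨ (Q < 0 ∧ N / m - w ≤ (1 - w / 2) * Q) := by
  have hQ1 : 0 ≤ 1 + Q := by
    by_contra hc
    rw [Real.sqrt_eq_zero_of_nonpos (not_le.1 hc).le] at hr
    linarith
  have hs := Real.sq_sqrt hQ1
  have e : √(1 + Q) / m * N = √(1 + Q) * (N / m) := by ring
  rw [e] at h
  set r := √(1 + Q)
  set n := N / m
  have hQ : Q = r ^ 2 - 1 := by linarith
  rcases le_or_gt 0 Q with h0 | h0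
  · left
    refine ⟨h0, ?_⟩
    rcases le_or_gt n 0 with h1 | h1
    · linarith
    · have hr1 : 1 ≤ r := by
        by_contra hc
        have hc := not_le.1 hc
        nlinarith
      nlinarith
  · right
    refine ⟨h0, ?_⟩
    have hr0 : 0 < r := by linarith
    have hr1 : r < 1 := by
      by_contra hc
      have hc := not_lt.1 hc
      nlinarith
    have k1 : r * n ≤ r ^ 2 - 1 + w := by linarith
    have k2 : r ^ 2 - 1 + w ≤ r * w + r * ((1 - w / 2) * (r ^ 2 - 1)) := by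
      have k3 : 0 ≤ (1 + r) - w * (2 + r) / 2 := by nlinarith
      have k4 : 0 ≤ (1 - r) ^ 2 * ((1 + r) - w * (2 + r) / 2) :=
        mul_nonneg (sq_nonneg _) k3
      nlinarith
    have k5 : r * (n - w) ≤ r * ((1 - w / 2) * (r ^ 2 - 1)) := by linarith
    have k6 := le_of_mul_le_mul_left k5 hr0
    rw [hQ]
    exact k6

/-- the density bound: `X` = lower bound of `Q_0(p)` to first order -/
noncomputable def ff (A X w : ℝ) : ℝ :=
  min (A * X - 0.127 * w / (1 - w / 2)) ((A * X - 0.127 * w) / (1 - w / 2))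

theorem ff_mono {A X X' w : ℝ} (hA : 0 ≤ A) (hw : w < 2) (hX : X ≤ X') : ff A X w ≤ ff A X' w := by
  have h1 : 0 < 1 - w / 2 := by linarith
  have h2 := mul_le_mul_of_nonneg_left hX hA
  unfold ff
  refine min_le_min (by linarith) ?_
  apply div_le_div_of_nonneg_right _ h1.le
  linarith

theorem ff_zero (A g : ℝ) : ff A g 0 = A * g := by
  unfold ff
  simp

theorem ff_of_nonneg {A X w : ℝ} (hA : 0 ≤ A) (hX : 0 ≤ X) (hw0 : 0 ≤ w) (hw : w < 2) :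
    ff A X w = A * X - 0.127 * w / (1 - w / 2) := by
  have h1 : 0 < 1 - w / 2 := by linarith
  unfold ff
  apply min_eq_left
  rw [sub_div]
  have h2 : A * X ≤ A * X / (1 - w / 2) := by
    rw [le_div_iff₀ h1]
    nlinarith [mul_nonneg (mul_nonneg hA hX) hw0]
  linarith

theorem ff_of_nonpos {A X w : ℝ} (hA : 0 ≤ A) (hX : X ≤ 0) (hw0 : 0 ≤ w) (hw : w < 2) :
    ff A X w = (A * X - 0.127 * w) / (1 - w / 2) := by
  have h1 : 0 < 1 - w / 2 := by linarith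
  unfold ff
  apply min_eq_right
  rw [sub_div]
  have h2 : A * X / (1 - w / 2) ≤ A * X := by
    rw [div_le_iff₀ h1]
    nlinarith [mul_nonneg (mul_nonneg hA (neg_nonneg.2 hX)) hw0]
  linarith

/-- **quasi-concavity in `w`** along a line -/
theorem ff_line {A g c w1 w w2 C : ℝ} (h1 : w1 ≤ w) (h2 : w ≤ w2) (h3 : w2 < 2)
    (k1 : C ≤ ff A (g - c * w1) w1) (k2 : C ≤ ff A (g - c * w2) w2) : C ≤ ff A (g - c * w) w := by
  have d1 : 0 < 1 - w1 / 2 := by linarith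
  have d : 0 < 1 - w / 2 := by linarith
  have d2 : 0 < 1 - w2 / 2 := by linarith
  unfold ff at k1 k2 ⊢
  obtain ⟨a1, b1⟩ := le_min_iff.1 k1
  obtain ⟨a2, b2⟩ := le_min_iff.1 k2
  rw [le_div_iff₀ d1] at b1
  rw [le_div_iff₀ d2] at b2
  rcases eq_or_lt_of_le (h1.trans h2) with e | hlt
  · have e1 : w = w1 := le_antisymm (h2.trans e.ge) h1
    rw [e1]
    exact k1
  have hl : 0 < w2 - w1 := by linarith
  refine le_min ?_ ?_
  · -- concave part
    have e1 : ∀ x : ℝ, 0 < 1 - x / 2 → 0.127 * x / (1 - x / 2) = -0.254 + 0.254 * (1 - x / 2)⁻¹ := by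
      intro x hx
      have hx' : (1 - x / 2) * (1 - x / 2)⁻¹ = 1 := mul_inv_cancel₀ hx.ne'
      rw [div_eq_mul_inv]
      linear_combination (-0.254) * hx'
    rw [e1 w1 d1] at a1
    rw [e1 w2 d2] at a2
    rw [e1 w d]
    set i1 := (1 - w1 / 2)⁻¹ with hi1
    set i := (1 - w / 2)⁻¹ with hi
    set i2 := (1 - w2 / 2)⁻¹ with hi2
    have p1 : 0 < i1 := inv_pos.2 d1
    have p : 0 < i := inv_pos.2 d
    have p2 : 0 < i2 := inv_pos.2 d2
    have m1 : i1 * (1 - w1 / 2) = 1 := inv_mul_cancel₀ d1.ne'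
    have m0 : i * (1 - w / 2) = 1 := inv_mul_cancel₀ d.ne'
    have m2 : i2 * (1 - w2 / 2) = 1 := inv_mul_cancel₀ d2.ne'
    -- chord: (w2 - w1) i ≤ (w2 - w) i1 + (w - w1) i2
    have ch : (w2 - w1) * i ≤ (w2 - w) * i1 + (w - w1) * i2 := by
      have e2 : (w2 - w) * i1 + (w - w1) * i2 - (w2 - w1) * i =
          (w2 - w) * (w - w1) * (w2 - w1) / 4 * (i1 * i * i2) := by
        have f1 : i1 = i1 * (i * (1 - w / 2)) * (i2 * (1 - w2 / 2)) := by rw [m0, m2]; ring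
        have f2 : i2 = i2 * (i * (1 - w / 2)) * (i1 * (1 - w1 / 2)) := by rw [m0, m1]; ring
        have f3 : i = i * (i1 * (1 - w1 / 2)) * (i2 * (1 - w2 / 2)) := by rw [m1, m2]; ring
        calc (w2 - w) * i1 + (w - w1) * i2 - (w2 - w1) * i
            = (w2 - w) * (i1 * (i * (1 - w / 2)) * (i2 * (1 - w2 / 2)))
              + (w - w1) * (i2 * (i * (1 - w / 2)) * (i1 * (1 - w1 / 2)))
              - (w2 - w1) * (i * (i1 * (1 - w1 / 2)) * (i2 * (1 - w2 / 2))) := by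
                rw [← f1, ← f2, ← f3]
          _ = _ := by ring
      have e3 : 0 ≤ (w2 - w) * (w - w1) * (w2 - w1) / 4 * (i1 * i * i2) := by
        have q1 : 0 ≤ w2 - w := by linarith
        have q2 : 0 ≤ w - w1 := by linarith
        positivity
      linarith
    have s1 := mul_le_mul_of_nonneg_left a1 (show 0 ≤ w2 - w by linarith)
    have s2 := mul_le_mul_of_nonneg_left a2 (show 0 ≤ w - w1 by linarith)
    have s3 : (w2 - w1) * C ≤ (w2 - w1) * (A * (g - c * w) - (-0.254 + 0.254 * i)) := by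
      nlinarith
    exact le_of_mul_le_mul_left s3 hl
  · rw [le_div_iff₀ d]
    have s1 := mul_le_mul_of_nonneg_left b1 (show 0 ≤ w2 - w by linarith)
    have s2 := mul_le_mul_of_nonneg_left b2 (show 0 ≤ w - w1 by linarith)
    have s3 : (w2 - w1) * (C * (1 - w / 2)) ≤ (w2 - w1) * (A * (g - c * w) - 0.127 * w) := by
      nlinarith
    exact le_of_mul_le_mul_left s3 hl

/-- closed form: all `w ≤ W`; no second order term if `X (W) ≥ 0` -/
theorem ff_ge {A g c w W : ℝ} (hA : 0 ≤ A) (hw0 : 0 ≤ w) (hw : w ≤ W) (hW : W < 2) :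
    A * g - pp (A * c + 0.127 / (1 - W / 2)) * W
      - A * pp (c * W - g) * (W / 2 / (1 - W / 2)) ≤ ff A (g - c * w) w := by
  have hW0 : 0 ≤ W := hw0.trans hw
  have d : 0 < 1 - W / 2 := by linarith
  have q0 := pp_nonneg (c * W - g)
  have q1 := pp_nonneg (A * c + 0.127 / (1 - W / 2))
  have i0 : 0 ≤ W / 2 / (1 - W / 2) := by positivity
  have t1 : 0 ≤ pp (A * c + 0.127 / (1 - W / 2)) * W := mul_nonneg q1 hW0
  have t2 : 0 ≤ A * pp (c * W - g) * (W / 2 / (1 - W / 2)) := by positivity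
  refine ff_line hw0 hw hW ?_ ?_
  · rw [mul_zero, sub_zero, ff_zero]
    linarith
  · have k1 := mul_le_mul_of_nonneg_right (le_pp (A * c + 0.127 / (1 - W / 2))) hW0
    have e1 : 0.127 * W / (1 - W / 2) = 0.127 / (1 - W / 2) * W := by ring
    refine le_min ?_ ?_
    · rw [e1]
      linarith
    · have k2 := mul_le_mul_of_nonneg_right (mul_le_mul_of_nonneg_left (le_pp (c * W - g)) hA) i0
      have e2 : (A * (g - c * W) - 0.127 * W) / (1 - W / 2) =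
          A * (g - c * W) - 0.127 / (1 - W / 2) * W
            - A * (c * W - g) * (W / 2 / (1 - W / 2)) := by
        have hi : (1 - W / 2) * (1 - W / 2)⁻¹ = 1 := mul_inv_cancel₀ d.ne'
        rw [div_eq_mul_inv (A * (g - c * W) - 0.127 * W) (1 - W / 2),
          div_eq_mul_inv 0.127 (1 - W / 2), div_eq_mul_inv (W / 2) (1 - W / 2)]
        linear_combination (A * (g - c * W)) * hi
      rw [e2]
      linarith

/-- the same on `[w1, W]` -/
theorem ff_ge_from {A g c w w1 W C : ℝ} (hw1 : w1 ≤ w) (hw : w ≤ W) (hW : W < 2)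
    (h1 : C ≤ A * (g - c * w1) - 0.127 * w1 / (1 - w1 / 2))
    (h2 : C * (1 - w1 / 2) ≤ A * (g - c * w1) - 0.127 * w1)
    (h3 : C ≤ A * (g - c * W) - 0.127 * W / (1 - W / 2))
    (h4 : C * (1 - W / 2) ≤ A * (g - c * W) - 0.127 * W) : C ≤ ff A (g - c * w) w := by
  have d1 : 0 < 1 - w1 / 2 := by linarith
  have d : 0 < 1 - W / 2 := by linarith
  refine ff_line hw1 hw hW (le_min h1 ?_) (le_min h3 ?_)
  · rwa [le_div_iff₀ d1]
  · rwa [le_div_iff₀ d]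

/-- the coordinates of the direction -/
def T3 (t : ℝ × ℝ) : Fin 3 → ℝ := ![t.1, t.2, 1 - t.1 - t.2]

/-- twice the coupling of the direction `t` with `q` -/
noncomputable def Yt (a : Fin 4 → E3) (t : ℝ × ℝ) (q : E3) : ℝ :=
  2 * (T3 t 0 * yv a 0 1 q + T3 t 1 * yv a 0 2 q + T3 t 2 * yv a 0 3 q)

theorem tx_mul (h : Gram4 (al a)) {p : E3} (hB : 0 < 1 - bar a 0 p) :
    (1 - bar a 0 p) * (tx a p).1 = bar a 1 p ∧ (1 - bar a 0 p) * (tx a p).2 = bar a 2 p ∧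
    (1 - bar a 0 p) * (1 - (tx a p).1 - (tx a p).2) = bar a 3 p := by
  have hs := bar_sum h p
  have e1 : (1 - bar a 0 p) * (tx a p).1 = bar a 1 p := by
    unfold tx
    simp only
    field_simp
  have e2 : (1 - bar a 0 p) * (tx a p).2 = bar a 2 p := by
    unfold tx
    simp only
    field_simp
  refine ⟨e1, e2, ?_⟩
  linear_combination (-1) * hs - e1 - e2

/-- `β √(mt t) = √(1 + Q_0(p))` -/
theorem radial (h : Gram4 (al a)) {p : E3} (hB : 0 < 1 - bar a 0 p) :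
    (1 - bar a 0 p) * √(mt (tx a p)) = √(1 + Qv a 0 p) := by
  obtain ⟨e1, e2, e3⟩ := tx_mul h hB
  have hs := bar_sum h p
  have e : 1 + Qv a 0 p = (1 - bar a 0 p) ^ 2 * mt (tx a p) := by
    unfold Qv
    rw [norm_sub_sq_bar h, bar_vertex_self h, bar_vertex_ne h (by decide),
      bar_vertex_ne h (by decide), bar_vertex_ne h (by decide), ← e1, ← e2, ← e3]
    unfold Helper33.MEI.mt
    ring
  rw [e, Real.sqrt_mul (sq_nonneg _), Real.sqrt_sq hB.le]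

theorem Yt_mul (h : Gram4 (al a)) {p : E3} (q : E3) (hB : 0 < 1 - bar a 0 p) :
    (1 - bar a 0 p) * Yt a (tx a p) q =
      2 * (bar a 1 p * yv a 0 1 q + bar a 2 p * yv a 0 2 q + bar a 3 p * yv a 0 3 q) := by
  obtain ⟨e1, e2, e3⟩ := tx_mul h hB
  show (1 - bar a 0 p) * (2 * ((tx a p).1 * yv a 0 1 q + (tx a p).2 * yv a 0 2 q +
    (1 - (tx a p).1 - (tx a p).2) * yv a 0 3 q)) = _
  rw [← e1, ← e2, ← e3]
  ring

/-- **pointwise**: the node `(p, q)` and the direction `t` of `p` -/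
theorem pt_core (h : Gram4 (al a)) {p q : E3} (hpq : ‖p - q‖ = 1) (hB : 3 / 4 ≤ 1 - bar a 0 p)
    (hw : ‖a 0 - q‖ ^ 2 ≤ 19 / 16) :
    (0 ≤ Qv a 0 p ∧ Yt a (tx a p) q / √(mt (tx a p)) - ‖a 0 - q‖ ^ 2 ≤ Qv a 0 p) ∨
    (Qv a 0 p < 0 ∧ Yt a (tx a p) q / √(mt (tx a p)) - ‖a 0 - q‖ ^ 2 ≤
      (1 - ‖a 0 - q‖ ^ 2 / 2) * Qv a 0 p) := by
  have hB0 : 0 < 1 - bar a 0 p := by linarith
  have hm : 0 < √(mt (tx a p)) := Real.sqrt_pos.2 mt_pos
  have hr := radial h hB0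
  have e0 := face_id h p q
  rw [hpq] at e0
  have hY := Yt_mul h q hB0
  have hm8 : (0.8 : ℝ) ≤ √(mt (tx a p)) := by
    apply Real.le_sqrt_of_sq_le
    have := mt_ge (t := tx a p)
    norm_num
    linarith
  refine core ?_ (sq_nonneg _) hw ?_
  · rw [← hr]
    nlinarith
  · rw [← hr]
    have e1 : (1 - bar a 0 p) * √(mt (tx a p)) / √(mt (tx a p)) = 1 - bar a 0 p := by
      field_simp
    rw [e1, hY]
    linarith

/-- **density bound in terms of the direction** -/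
theorem pt_dens (h : Gram4 (al a)) {p q : E3} {A : ℝ} (hA : 0 ≤ A) (hpq : ‖p - q‖ = 1)
    (hB : 3 / 4 ≤ 1 - bar a 0 p) (hw : ‖a 0 - q‖ ^ 2 ≤ 19 / 16) :
    ff A (Yt a (tx a p) q / √(mt (tx a p)) - ‖a 0 - q‖ ^ 2) (‖a 0 - q‖ ^ 2) ≤
      A * Qv a 0 p - 0.127 * ‖a 0 - q‖ ^ 2 / (1 - ‖a 0 - q‖ ^ 2 / 2) := by
  have hd : 0 < 1 - ‖a 0 - q‖ ^ 2 / 2 := by linarith
  rcases pt_core h hpq hB hw with ⟨_, h1⟩ | ⟨_, h1⟩
  · refine (min_le_left _ _).trans ?_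
    have := mul_le_mul_of_nonneg_left h1 hA
    linarith
  · refine (min_le_right _ _).trans ?_
    have h2 := mul_le_mul_of_nonneg_left h1 hA
    rw [sub_div]
    have h3 : A * (Yt a (tx a p) q / √(mt (tx a p)) - ‖a 0 - q‖ ^ 2) / (1 - ‖a 0 - q‖ ^ 2 / 2) ≤
        A * Qv a 0 p := by
      rw [div_le_iff₀ hd]
      linarith
    linarith

/-- **range of `w`** in terms of the direction -/
theorem pt_range (h : Gram4 (al a)) {p q : E3} {s : ℝ} (hs : 0 ≤ s) (hQ : Qv a 0 p ≤ s)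
    (hpq : ‖p - q‖ = 1) (hB : 3 / 4 ≤ 1 - bar a 0 p) (hw : ‖a 0 - q‖ ^ 2 ≤ 19 / 16) :
    Yt a (tx a p) q / √(mt (tx a p)) - ‖a 0 - q‖ ^ 2 ≤ s := by
  rcases pt_core h hpq hB hw with ⟨_, h1⟩ | ⟨h0, h1⟩
  · linarith
  · have hd : 0 < 1 - ‖a 0 - q‖ ^ 2 / 2 := by linarith
    have := mul_pos hd (neg_pos.2 h0)
    nlinarith

section loads
variable {q : E3} {t : ℝ × ℝ}

/-- a load below `t` bounds the coupling -/
theorem Yt_load (hq : Pl a q) {L μ : ℝ} {M : Fin 3 → ℝ} (hL : Load a q L μ M)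
    (hM : ∀ k, M k ≤ T3 t k) : L + μ * ‖a 0 - q‖ ^ 2 ≤ Yt a t q := by
  have y1 := yv_nonneg hq (i := 0) (j := 1) (by decide)
  have y2 := yv_nonneg hq (i := 0) (j := 2) (by decide)
  have y3 := yv_nonneg hq (i := 0) (j := 3) (by decide)
  have k1 := mul_le_mul_of_nonneg_right (hM 0) y1
  have k2 := mul_le_mul_of_nonneg_right (hM 1) y2
  have k3 := mul_le_mul_of_nonneg_right (hM 2) y3
  unfold Load at hL
  unfold Yt
  linarith

/-- a load below `t`, the residual filled with the caps at the corners -/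
theorem Yt_load_caps (h : Gram4 (al a)) {L μ : ℝ} {M S : Fin 3 → ℝ} (hL : Load a q L μ M)
    (hM : ∀ k, M k ≤ T3 t k) (h1 : Qv a 1 q ≤ S 0) (h2 : Qv a 2 q ≤ S 1) (h3 : Qv a 3 q ≤ S 2) :
    (L - ((T3 t 0 - M 0) * S 0 + (T3 t 1 - M 1) * S 1 + (T3 t 2 - M 2) * S 2))
      + (1 - (M 0 + M 1 + M 2 - μ)) * ‖a 0 - q‖ ^ 2 ≤ Yt a t q := by
  have g1 := Qv_yv h (k := 1) (by decide) q
  have g2 := Qv_yv h (k := 2) (by decide) q
  have g3 := Qv_yv h (k := 3) (by decide) q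
  have k1 := mul_le_mul_of_nonneg_left h1 (sub_nonneg.2 (hM 0))
  have k2 := mul_le_mul_of_nonneg_left h2 (sub_nonneg.2 (hM 1))
  have k3 := mul_le_mul_of_nonneg_left h3 (sub_nonneg.2 (hM 2))
  have e1 : T3 t 0 + T3 t 1 + T3 t 2 = 1 := by
    show t.1 + t.2 + (1 - t.1 - t.2) = 1
    ring
  unfold Load at hL
  unfold Yt
  rw [g1] at k1
  rw [g2] at k2
  rw [g3] at k3
  have e2 : T3 t 2 = 1 - T3 t 0 - T3 t 1 := by linarith
  rw [e2] at k3 ⊢
  linarith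

/-- only the caps -/
theorem Yt_caps (h : Gram4 (al a)) (ht : t ∈ Dl) {S : Fin 3 → ℝ} (h1 : Qv a 1 q ≤ S 0)
    (h2 : Qv a 2 q ≤ S 1) (h3 : Qv a 3 q ≤ S 2) :
    -(T3 t 0 * S 0 + T3 t 1 * S 1 + T3 t 2 * S 2) + ‖a 0 - q‖ ^ 2 ≤ Yt a t q := by
  obtain ⟨t1, t2, t3⟩ := ht
  have hM : ∀ k, (fun _ : Fin 3 => (0 : ℝ)) k ≤ T3 t k := by
    intro k
    fin_cases k
    · exact t1.le
    · exact t2.le
    · show (0 : ℝ) ≤ 1 - t.1 - t.2
      linarith
  have := Yt_load_caps h (t := t) (Load.zero (a := a) (q := q)) hM h1 h2 h3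
  beta_reduce at this
  linarith

/-- strips: `μ ≤ t_k` for all `k`; `Σ y_k ≥ √(2 w / 3)`, the rest with the caps cut at zero -/
theorem Yt_strip (h : Gram4 (al a)) (hq : Pl a q) {μ : ℝ} {S : Fin 3 → ℝ} (hμ : 0 ≤ μ)
    (hM : ∀ k, μ ≤ T3 t k) (h1 : Qv a 1 q ≤ S 0) (h2 : Qv a 2 q ≤ S 1) (h3 : Qv a 3 q ≤ S 2) :
    2 * μ * √(2 / 3 * ‖a 0 - q‖ ^ 2) + ((T3 t 0 - μ) * pp (‖a 0 - q‖ ^ 2 - S 0)
      + (T3 t 1 - μ) * pp (‖a 0 - q‖ ^ 2 - S 1) + (T3 t 2 - μ) * pp (‖a 0 - q‖ ^ 2 - S 2))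
      ≤ Yt a t q := by
  have g1 := Qv_yv h (k := 1) (by decide) q
  have g2 := Qv_yv h (k := 2) (by decide) q
  have g3 := Qv_yv h (k := 3) (by decide) q
  have y1 := yv_nonneg hq (i := 0) (j := 1) (by decide)
  have y2 := yv_nonneg hq (i := 0) (j := 2) (by decide)
  have y3 := yv_nonneg hq (i := 0) (j := 3) (by decide)
  have hd := delta_le_sq h hq
  have hS : √(2 / 3 * ‖a 0 - q‖ ^ 2) ≤ yv a 0 1 q + yv a 0 2 q + yv a 0 3 q := by
    apply Real.sqrt_le_iff.2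
    refine ⟨by positivity, ?_⟩
    linarith
  have c1 : pp (‖a 0 - q‖ ^ 2 - S 0) ≤ 2 * yv a 0 1 q := max_le (by linarith) (by linarith)
  have c2 : pp (‖a 0 - q‖ ^ 2 - S 1) ≤ 2 * yv a 0 2 q := max_le (by linarith) (by linarith)
  have c3 : pp (‖a 0 - q‖ ^ 2 - S 2) ≤ 2 * yv a 0 3 q := max_le (by linarith) (by linarith)
  have k0 := mul_le_mul_of_nonneg_left hS hμ
  have k1 := mul_le_mul_of_nonneg_left c1 (sub_nonneg.2 (hM 0))
  have k2 := mul_le_mul_of_nonneg_left c2 (sub_nonneg.2 (hM 1))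
  have k3 := mul_le_mul_of_nonneg_left c3 (sub_nonneg.2 (hM 2))
  unfold Yt
  linarith

/-- a lower bound `G + (1 - D) w` of the coupling inside `ff` -/
theorem ff_Yt {A G D : ℝ} (hA : 0 ≤ A) (hw : ‖a 0 - q‖ ^ 2 < 2)
    (hG : G + (1 - D) * ‖a 0 - q‖ ^ 2 ≤ Yt a t q) :
    ff A (G / √(mt t) - (1 - (1 - D) / √(mt t)) * ‖a 0 - q‖ ^ 2) (‖a 0 - q‖ ^ 2) ≤
      ff A (Yt a t q / √(mt t) - ‖a 0 - q‖ ^ 2) (‖a 0 - q‖ ^ 2) := by
  have hm : 0 < √(mt t) := Real.sqrt_pos.2 mt_pos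
  refine ff_mono hA hw ?_
  have e : G / √(mt t) - (1 - (1 - D) / √(mt t)) * ‖a 0 - q‖ ^ 2 =
      (G + (1 - D) * ‖a 0 - q‖ ^ 2) / √(mt t) - ‖a 0 - q‖ ^ 2 := by
    rw [add_div]
    ring
  rw [e]
  have := div_le_div_of_nonneg_right hG hm.le
  linarith

end loads

/-- **range of `w` from the caps**: `(√(mt t) ⁻¹ - 1) w ≤ s + C / √(mt t)` -/
theorem range_caps (h : Gram4 (al a)) {q : E3} {t : ℝ × ℝ} (ht : t ∈ Dl) {s : ℝ} {S : Fin 3 → ℝ}
    (hX : Yt a t q / √(mt t) - ‖a 0 - q‖ ^ 2 ≤ s) (h1 : Qv a 1 q ≤ S 0) (h2 : Qv a 2 q ≤ S 1)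
    (h3 : Qv a 3 q ≤ S 2) :
    (1 - √(mt t)) * ‖a 0 - q‖ ^ 2 ≤
      √(mt t) * s + (T3 t 0 * S 0 + T3 t 1 * S 1 + T3 t 2 * S 2) := by
  have hm : 0 < √(mt t) := Real.sqrt_pos.2 mt_pos
  have k := Yt_caps h ht h1 h2 h3
  have e : √(mt t) * (Yt a t q / √(mt t) - ‖a 0 - q‖ ^ 2) =
      Yt a t q - √(mt t) * ‖a 0 - q‖ ^ 2 := by
    field_simp
  have k2 := mul_le_mul_of_nonneg_left hX hm.le
  rw [e] at k2
  linarith

variable {σ : Measure (E3 × E3)} [IsFiniteMeasure σ] {K : Set E3}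

/-- **the face theorem in terms of the direction `t` and the point `q`**: `τ 0` is the vertex,
`s t` the bound of `Q_0` on the ray `t` (own bound). -/
theorem face_pt (h : PM K σ) (ha : ∀ i j, i ≠ j → dist (a i) (a j) = 1)
    (hull : ∀ p, (∀ q ∈ K, ‖p - q‖ ≤ 1) → p ∈ K) (hQ : ∀ i, ∀ q ∈ K, Qv a i q ≤ 3 / 16)
    (τ : Equiv.Perm (Fin 4)) {A : ℝ} (hA : 7 / 2 ≤ A) {g : ℝ × ℝ → ℝ} {C : ℝ}
    (hg : AEStronglyMeasurable g (volume.restrict Dl)) (hgC : ∀ t ∈ Dl, |g t| ≤ C)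
    {s : ℝ × ℝ → ℝ} (hs : ∀ t ∈ Dl, 0 ≤ s t)
    (own : ∀ p ∈ K, tx (fun i => a (τ i)) p ∈ Dl →
      Qv a (τ 0) p ≤ s (tx (fun i => a (τ i)) p))
    (hP : ∀ t ∈ Dl, ∀ q ∈ K,
      Yt (fun i => a (τ i)) t q / √(mt t) - ‖a (τ 0) - q‖ ^ 2 ≤ s t →
      g t ≤ ff (A / 2 + 1 / 8) (Yt (fun i => a (τ i)) t q / √(mt t) - ‖a (τ 0) - q‖ ^ 2)
        (‖a (τ 0) - q‖ ^ 2)) :
    (√2)⁻¹ * ∫ t in Dl, g t * M3 t ≤ Wi a (τ 0) K σ A := by
  have ha' : ∀ i j, i ≠ j → dist (a (τ i)) (a (τ j)) = 1 :=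
    fun i j hij => ha _ _ fun h => hij (τ.injective h)
  have hgr : Gram4 (al (fun i => a (τ i))) := gram_of_dist ha'
  have hbp : ∀ k x, bar (fun i => a (τ i)) k x = bar a (τ k) x := fun k x => bar_perm τ k x
  refine face_meas h ha hull hQ τ hA hg hgC ?_
  intro p hp q hq hpq b1 b2 b3 hB
  have hl : 0 < 1 - bar a (τ 0) p := by linarith
  have et : (bar a (τ 1) p / (1 - bar a (τ 0) p), bar a (τ 2) p / (1 - bar a (τ 0) p)) =
      tx (fun i => a (τ i)) p := by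
    unfold tx
    rw [hbp, hbp, hbp]
  have hB' : 3 / 4 ≤ 1 - bar (fun i => a (τ i)) 0 p := by
    rw [hbp]
    exact hB
  have hD : tx (fun i => a (τ i)) p ∈ Dl := by
    have hsum := bar_sum hgr p
    rw [hbp, hbp, hbp, hbp] at hsum
    rw [← et]
    refine ⟨_root_.div_pos b1 hl, _root_.div_pos b2 hl, ?_⟩
    show bar a (τ 1) p / (1 - bar a (τ 0) p) + bar a (τ 2) p / (1 - bar a (τ 0) p) < 1
    rw [← add_div, div_lt_one hl]
    linarith
  have hw : ‖a (τ 0) - q‖ ^ 2 ≤ 19 / 16 := by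
    have h1 := hQ (τ 0) q hq
    unfold Qv at h1
    rw [norm_sub_rev]
    linarith
  rw [et]
  have h1 := pt_range hgr (s := s (tx (fun i => a (τ i)) p)) (hs _ hD) (own p hp hD) hpq hB' hw
  have h2 := pt_dens hgr (A := A / 2 + 1 / 8) (by linarith) hpq hB' hw
  exact (hP _ hD q hq h1).trans h2

end Helper78.MEI
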