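import Pool.Agent.Helper93.MEI.Side

/-!
# Project MEI (M2), face cells: the strip lemma with individual corner values

`δ = ‖a 0 - q‖²`, `Y k = yv a 0 k q`, `v k` an upper bound of `Q_k(q)`, all `v k ≤ v`.
-/

namespace Helper78.MEI

open Set Metric Helper80.CW Helper14.CW Helper93.MEI
open scoped RealInnerProductSpace

theorem pp_eq_of_nonneg {x : ℝ} (h : 0 ≤ x) : pp x = x := max_eq_left h

theorem pp_mono {x y : ℝ} (h : x ≤ y) : pp x ≤ pp y := max_le_max_right 0 h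

/-- the function `x - c √x` -/
theorem sub_sqrt_mono {A M μ U T : ℝ} (hM : 0 < M) (hU : 0 ≤ U)
    (hUT : U ≤ T) : U - 2 * A * μ * √(2 / 3 * (U / M)) ≤ pp (T - 2 * A * μ * √(2 / 3 * (T / M))) := by
  have hT : 0 ≤ T := hU.trans hUT
  have eU : √(2 / 3 * (U / M)) ^ 2 = 2 / 3 * (U / M) := Real.sq_sqrt (by positivity)
  have eT : √(2 / 3 * (T / M)) ^ 2 = 2 / 3 * (T / M) := Real.sq_sqrt (by positivity)
  have hle : √(2 / 3 * (U / M)) ≤ √(2 / 3 * (T / M)) := by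
    apply Real.sqrt_le_sqrt
    have := div_le_div_of_nonneg_right hUT hM.le
    linarith
  have u0 : 0 ≤ √(2 / 3 * (U / M)) := Real.sqrt_nonneg _
  have t0 : 0 ≤ √(2 / 3 * (T / M)) := Real.sqrt_nonneg _
  set u := √(2 / 3 * (U / M))
  set s := √(2 / 3 * (T / M))
  have hU' : U = 3 / 2 * M * u ^ 2 := by rw [eU]; field_simp
  have hT' : T = 3 / 2 * M * s ^ 2 := by rw [eT]; field_simp
  have g1 : U - 2 * A * μ * u = u * (3 / 2 * M * u - 2 * A * μ) := by rw [hU']; ring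
  have g2 : T - 2 * A * μ * s = s * (3 / 2 * M * s - 2 * A * μ) := by rw [hT']; ring
  rcases le_total (3 / 2 * M * u - 2 * A * μ) 0 with h | h
  · refine le_trans ?_ (pp_nonneg _)
    rw [g1]
    exact mul_nonpos_of_nonneg_of_nonpos u0 h
  · refine le_trans ?_ (le_pp _)
    rw [g1, g2]
    have h2 : 3 / 2 * M * u - 2 * A * μ ≤ 3 / 2 * M * s - 2 * A * μ := by
      have := mul_le_mul_of_nonneg_left hle (show 0 ≤ 3 / 2 * M by positivity)
      linarith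
    exact mul_le_mul hle h2 h t0

/-- algebraic form of the strip lemma; `T` is any bound of the two expressions -/
theorem strip_alg {A M v μ δ c1 c2 c3 Y1 Y2 Y3 v1 v2 v3 T : ℝ} (hA : 0 < A) (hM : 0 < M)
    (hv' : v ≤ 0.2) (hμ : 0 ≤ μ) (h1 : μ ≤ c1) (h2 : μ ≤ c2) (h3 : μ ≤ c3)
    (y1 : 0 ≤ Y1) (y2 : 0 ≤ Y2) (y3 : 0 ≤ Y3)
    (hd : δ = 2 * (Y1 ^ 2 + Y2 ^ 2 + Y3 ^ 2) - 1 / 2 * (Y1 + Y2 + Y3) ^ 2) (hδ0 : 0 ≤ δ)
    (q1 : δ - 2 * Y1 ≤ v1) (q2 : δ - 2 * Y2 ≤ v2) (q3 : δ - 2 * Y3 ≤ v3)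
    (w1 : 0 ≤ v1) (w2 : 0 ≤ v2) (w3 : 0 ≤ v3) (u1 : v1 ≤ v) (u2 : v2 ≤ v) (u3 : v3 ≤ v)
    (hδ : δ ≤ 1.2)
    (hT : min (M * v) (A * ((c1 - μ) * v1 + (c2 - μ) * v2 + (c3 - μ) * v3)
      + pp (M - A * ((c1 - μ) + (c2 - μ) + (c3 - μ))) * v) ≤ T) :
    M * δ - 2 * A * (c1 * Y1 + c2 * Y2 + c3 * Y3) ≤
      pp (T - 2 * A * μ * √(2 / 3 * (T / M))) + pp (M - A * (c1 + c2 + c3)) * pp (δ - v) := by
  have hv : 0 ≤ v := w1.trans u1
  have hc1 : 0 ≤ c1 - μ := by linarith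
  have hc2 : 0 ≤ c2 - μ := by linarith
  have hc3 : 0 ≤ c3 - μ := by linarith
  have hle : δ ≤ 3 / 2 * (Y1 + Y2 + Y3) ^ 2 := by
    rw [hd]
    nlinarith [mul_nonneg y1 y2, mul_nonneg y1 y3, mul_nonneg y2 y3]
  obtain ⟨d1, hd1⟩ : ∃ d, d = c1 - μ := ⟨_, rfl⟩
  obtain ⟨d2, hd2⟩ : ∃ d, d = c2 - μ := ⟨_, rfl⟩
  obtain ⟨d3, hd3⟩ : ∃ d, d = c3 - μ := ⟨_, rfl⟩
  rw [← hd1] at hc1
  rw [← hd2] at hc2
  rw [← hd3] at hc3
  rw [← hd1, ← hd2, ← hd3] at hT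
  have ec1 : c1 = d1 + μ := by linarith
  have ec2 : c2 = d2 + μ := by linarith
  have ec3 : c3 = d3 + μ := by linarith
  have hppM := pp_nonneg (M - A * (d1 + d2 + d3))
  have hppM2 := le_pp (M - A * (d1 + d2 + d3))
  have T0 : 0 ≤ T := by
    refine le_trans (le_min (by positivity) ?_) hT
    have : 0 ≤ d1 * v1 + d2 * v2 + d3 * v3 := by positivity
    have := mul_nonneg hA.le this
    have := mul_nonneg hppM hv
    linarith
  have hpp0 := pp_nonneg (T - 2 * A * μ * √(2 / 3 * (T / M)))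
  have hpx := pp_nonneg (M - A * (c1 + c2 + c3))
  -- general step
  have step : ∀ U : ℝ, U ≤ T → U - 2 * A * μ * √(2 / 3 * (U / M)) ≤
      pp (T - 2 * A * μ * √(2 / 3 * (T / M))) := by
    intro U hU
    rcases le_total 0 U with h | h
    · exact sub_sqrt_mono hM h hU
    · have : 0 ≤ 2 * A * μ * √(2 / 3 * (U / M)) := by positivity
      linarith
  rcases le_total δ v with hdv | hdv
  · have e1 : pp (δ - v) = 0 := max_eq_right (by linarith)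
    rw [e1, mul_zero, add_zero]
    obtain ⟨U, hU⟩ : ∃ U, U = M * δ - 2 * A * (d1 * Y1 + d2 * Y2 + d3 * Y3) := ⟨_, rfl⟩
    have hdY : 0 ≤ d1 * Y1 + d2 * Y2 + d3 * Y3 := by positivity
    have hU1 : U ≤ M * δ := by
      have := mul_nonneg (show 0 ≤ 2 * A by positivity) hdY
      linarith
    have hUT : U ≤ T := by
      refine le_trans (le_min ?_ ?_) hT
      · exact hU1.trans (mul_le_mul_of_nonneg_left hdv hM.le)
      · have g1 : d1 * (δ - v1) ≤ d1 * (2 * Y1) := mul_le_mul_of_nonneg_left (by linarith) hc1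
        have g2 : d2 * (δ - v2) ≤ d2 * (2 * Y2) := mul_le_mul_of_nonneg_left (by linarith) hc2
        have g3 : d3 * (δ - v3) ≤ d3 * (2 * Y3) := mul_le_mul_of_nonneg_left (by linarith) hc3
        have g4 : A * (d1 * (δ - v1) + d2 * (δ - v2) + d3 * (δ - v3)) ≤
            A * (d1 * (2 * Y1) + d2 * (2 * Y2) + d3 * (2 * Y3)) :=
          mul_le_mul_of_nonneg_left (by linarith) hA.le
        have g5 : (M - A * (d1 + d2 + d3)) * δ ≤ pp (M - A * (d1 + d2 + d3)) * v :=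
          (mul_le_mul_of_nonneg_right hppM2 hδ0).trans (mul_le_mul_of_nonneg_left hdv hppM)
        rw [hU]
        linarith
    have hS : √(2 / 3 * (U / M)) ≤ Y1 + Y2 + Y3 := by
      apply Real.sqrt_le_iff.2 ⟨by positivity, ?_⟩
      have : U / M ≤ δ := by
        rw [div_le_iff₀ hM]
        linarith
      linarith
    have hs2 : 2 * A * μ * √(2 / 3 * (U / M)) ≤ 2 * A * μ * (Y1 + Y2 + Y3) :=
      mul_le_mul_of_nonneg_left hS (by positivity)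
    have := step U hUT
    have e2 : M * δ - 2 * A * (c1 * Y1 + c2 * Y2 + c3 * Y3) = U - 2 * A * μ * (Y1 + Y2 + Y3) := by
      rw [hU, ec1, ec2, ec3]; ring
    rw [e2]
    linarith
  · have e1 : pp (δ - v) = δ - v := max_eq_left (by linarith)
    rw [e1]
    obtain ⟨m, hm⟩ : ∃ m, m = (δ - v) / 2 := ⟨_, rfl⟩
    have hm0 : 0 ≤ m := by rw [hm]; linarith
    have z1 : (v - v1) / 2 ≤ Y1 - m := by rw [hm]; linarith
    have z2 : (v - v2) / 2 ≤ Y2 - m := by rw [hm]; linarith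
    have z3 : (v - v3) / 2 ≤ Y3 - m := by rw [hm]; linarith
    have z1' : 0 ≤ Y1 - m := by linarith
    have z2' : 0 ≤ Y2 - m := by linarith
    have z3' : 0 ≤ Y3 - m := by linarith
    obtain ⟨S, hS⟩ : ∃ S, S = (Y1 - m) + (Y2 - m) + (Y3 - m) := ⟨_, rfl⟩
    have hS0 : 0 ≤ S := by rw [hS]; positivity
    have hdS : v + 2 * m ≤ 3 / 2 * m ^ 2 + m * S + 3 / 2 * S ^ 2 := by
      have : v + 2 * m = δ := by rw [hm]; ring
      rw [this, hd, hS]
      nlinarith [mul_nonneg z1' z2', mul_nonneg z1' z3', mul_nonneg z2' z3']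
    have hm6 : m ≤ 0.6 := by rw [hm]; linarith
    have hc : √(2 / 3 * v) ^ 2 = 2 / 3 * v := Real.sq_sqrt (by positivity)
    have hc0 : 0 ≤ √(2 / 3 * v) := Real.sqrt_nonneg _
    obtain ⟨C, hC⟩ : ∃ C, C = √(2 / 3 * v) := ⟨_, rfl⟩
    rw [← hC] at hc hc0
    have hCS : C ≤ S := by
      by_contra hcon
      push Not at hcon
      have hC4 : C ≤ 0.4 := by nlinarith
      have t1 : S * S < C * C := mul_self_lt_mul_self hS0 hcon
      have t2 : m * S ≤ m * 0.4 := mul_le_mul_of_nonneg_left (by linarith) hm0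
      have t3 : m * m ≤ m * 0.6 := mul_le_mul_of_nonneg_left hm6 hm0
      rw [pow_two] at hc hdS
      rw [pow_two] at hdS
      linarith
    obtain ⟨U, hU⟩ : ∃ U, U = M * v - A * (d1 * (v - v1) + d2 * (v - v2) + d3 * (v - v3)) :=
      ⟨_, rfl⟩
    have hnn : 0 ≤ d1 * (v - v1) + d2 * (v - v2) + d3 * (v - v3) := by
      have g1 := mul_nonneg hc1 (sub_nonneg.2 u1)
      have g2 := mul_nonneg hc2 (sub_nonneg.2 u2)
      have g3 := mul_nonneg hc3 (sub_nonneg.2 u3)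
      linarith
    have hU1 : U ≤ M * v := by
      have := mul_nonneg hA.le hnn
      linarith
    have hUT : U ≤ T := by
      refine le_trans (le_min hU1 ?_) hT
      have g5 : (M - A * (d1 + d2 + d3)) * v ≤ pp (M - A * (d1 + d2 + d3)) * v :=
        mul_le_mul_of_nonneg_right hppM2 hv
      rw [hU]
      linarith
    have hUC : √(2 / 3 * (U / M)) ≤ C := by
      rw [hC]
      apply Real.sqrt_le_sqrt
      have : U / M ≤ v := by
        rw [div_le_iff₀ hM]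
        linarith
      linarith
    have k1 : 2 * A * μ * √(2 / 3 * (U / M)) ≤ 2 * A * μ * S :=
      mul_le_mul_of_nonneg_left (hUC.trans hCS) (by positivity)
    have k2 := step U hUT
    have k3 : A * (d1 * (v - v1) + d2 * (v - v2) + d3 * (v - v3)) ≤
        2 * A * (d1 * (Y1 - m) + d2 * (Y2 - m) + d3 * (Y3 - m)) := by
      have g1 := mul_le_mul_of_nonneg_left z1 hc1
      have g2 := mul_le_mul_of_nonneg_left z2 hc2
      have g3 := mul_le_mul_of_nonneg_left z3 hc3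
      have g4 : d1 * (v - v1) + d2 * (v - v2) + d3 * (v - v3) ≤
          2 * (d1 * (Y1 - m) + d2 * (Y2 - m) + d3 * (Y3 - m)) := by linarith
      have := mul_le_mul_of_nonneg_left g4 hA.le
      linarith
    have k4 : (M - A * (c1 + c2 + c3)) * (δ - v) ≤ pp (M - A * (c1 + c2 + c3)) * (δ - v) :=
      mul_le_mul_of_nonneg_right (le_pp _) (by linarith)
    have e2 : M * δ - 2 * A * (c1 * Y1 + c2 * Y2 + c3 * Y3) =
        (M - A * (c1 + c2 + c3)) * (δ - v) + M * v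
          - 2 * A * (d1 * (Y1 - m) + d2 * (Y2 - m) + d3 * (Y3 - m)) - 2 * A * μ * S := by
      have hmm : δ = v + 2 * m := by rw [hm]; ring
      rw [hS, ec1, ec2, ec3, hmm]; ring
    rw [e2]
    linarith

/-- linear form: `√` replaced by a cut-off with any `ε ≥ √(3/8) (M/A) √v` -/
theorem sqrt_lin {A M v μ ε T : ℝ} (hA : 0 < A) (hM : 0 < M) (hμ : 0 ≤ μ) (hε : 0 < ε)
    (hT0 : 0 ≤ T) (hTv : T ≤ M * v) (he : 3 * M ^ 2 * v ≤ 8 * A ^ 2 * ε ^ 2) :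
    pp (T - 2 * A * μ * √(2 / 3 * (T / M))) ≤ T * pp (1 - μ / ε) := by
  have h0 : 0 ≤ T * pp (1 - μ / ε) := mul_nonneg hT0 (pp_nonneg _)
  refine max_le ?_ h0
  refine le_trans ?_ (mul_le_mul_of_nonneg_left (le_pp (1 - μ / ε)) hT0)
  have eT : √(2 / 3 * (T / M)) ^ 2 = 2 / 3 * (T / M) := Real.sq_sqrt (by positivity)
  have t0 : 0 ≤ √(2 / 3 * (T / M)) := Real.sqrt_nonneg _
  set s := √(2 / 3 * (T / M))
  have hT' : T = 3 / 2 * M * s ^ 2 := by rw [eT]; field_simp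
  have hs2 : s ^ 2 ≤ 2 / 3 * v := by
    rw [eT]
    have : T / M ≤ v := by
      rw [div_le_iff₀ hM]
      linarith
    linarith
  have h5 : 3 / 2 * M * s ≤ 2 * A * ε := by
    refine abs_le_of_sq_le_sq' ?_ (by positivity) |>.2
    have h6 : (3 / 2 * M * s) ^ 2 = 9 / 4 * M ^ 2 * s ^ 2 := by ring
    have h7 : (2 * A * ε) ^ 2 = 4 * A ^ 2 * ε ^ 2 := by ring
    rw [h6, h7]
    have h8 := mul_le_mul_of_nonneg_left hs2 (show 0 ≤ 9 / 4 * M ^ 2 by positivity)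
    linarith
  have h9 : T * (μ / ε) ≤ 2 * A * μ * s := by
    rw [mul_div_assoc', div_le_iff₀ hε]
    have h10 : s * (3 / 2 * M * s) ≤ s * (2 * A * ε) := mul_le_mul_of_nonneg_left h5 t0
    have h11 : T ≤ s * (2 * A * ε) := by rw [hT']; linarith
    have h12 := mul_le_mul_of_nonneg_right h11 hμ
    linarith
  linarith

section gram
variable {a : Fin 4 → E3} (h : Gram4 (al a))
include h

/-- **coupling with loss points and the bracket**, vertex `0` -/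
theorem side_bracket {ι : Type*} (S : Finset ι) (α : ι → ℝ) (z : ι → E3) {p q : E3} {A κ : ℝ}
    (hA : 0 < A) (hα : ∀ m ∈ S, 0 ≤ α m) (hz : ∀ m ∈ S, ‖z m - q‖ ≤ 1) (hpq : ‖p - q‖ = 1) :
    A * ∑ m ∈ S, α m * Qv a 0 (z m) - ((A * (1 - ∑ m ∈ S, α m) + κ) * ‖a 0 - q‖ ^ 2
      - 2 * A * ((bar a 1 p - ∑ m ∈ S, α m * bar a 1 (z m)) * yv a 0 1 q
        + (bar a 2 p - ∑ m ∈ S, α m * bar a 2 (z m)) * yv a 0 2 q
        + (bar a 3 p - ∑ m ∈ S, α m * bar a 3 (z m)) * yv a 0 3 q))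
      ≤ A * Qv a 0 p - κ * ‖a 0 - q‖ ^ 2 := by
  have e0 := face_id h p q
  rw [hpq] at e0
  have e1 : ∑ m ∈ S, α m * Qv a 0 (z m) ≤
      2 * ((∑ m ∈ S, α m * bar a 1 (z m)) * yv a 0 1 q +
        (∑ m ∈ S, α m * bar a 2 (z m)) * yv a 0 2 q +
        (∑ m ∈ S, α m * bar a 3 (z m)) * yv a 0 3 q) - (∑ m ∈ S, α m) * ‖a 0 - q‖ ^ 2 := by
    rw [Finset.sum_mul, Finset.sum_mul, Finset.sum_mul, Finset.sum_mul, ← Finset.sum_add_distrib,
      ← Finset.sum_add_distrib, Finset.mul_sum, ← Finset.sum_sub_distrib]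
    apply Finset.sum_le_sum
    intro m hm
    have e2 := face_id h (z m) q
    have e3 : ‖z m - q‖ ^ 2 ≤ 1 := by
      have := norm_nonneg (z m - q)
      nlinarith [hz m hm]
    have := mul_le_mul_of_nonneg_left (show Qv a 0 (z m) ≤ 2 * (bar a 1 (z m) * yv a 0 1 q +
      bar a 2 (z m) * yv a 0 2 q + bar a 3 (z m) * yv a 0 3 q) - ‖a 0 - q‖ ^ 2 by linarith)
      (hα m hm)
    linarith
  have e4 := mul_le_mul_of_nonneg_left e1 hA.le
  have e5 : Qv a 0 p = 2 * (bar a 1 p * yv a 0 1 q + bar a 2 p * yv a 0 2 q +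
    bar a 3 p * yv a 0 3 q) - ‖a 0 - q‖ ^ 2 := by linarith
  rw [e5]
  linarith

/-- **side inequality with loss points and strips with individual corner values**, vertex `0` -/
theorem side_strip {ι : Type*} (S : Finset ι) (α : ι → ℝ) (z : ι → E3) {p q : E3}
    {A κ M v μ ε v1 v2 v3 c1 c2 c3 : ℝ}
    (hA : 0 < A) (hα : ∀ m ∈ S, 0 ≤ α m) (hz : ∀ m ∈ S, ‖z m - q‖ ≤ 1) (hpq : ‖p - q‖ = 1)
    (hq : Pl a q) (e1 : c1 = bar a 1 p - ∑ m ∈ S, α m * bar a 1 (z m))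
    (e2 : c2 = bar a 2 p - ∑ m ∈ S, α m * bar a 2 (z m))
    (e3 : c3 = bar a 3 p - ∑ m ∈ S, α m * bar a 3 (z m))
    (hMe : M = A * (1 - ∑ m ∈ S, α m) + κ) (hM : 0 < M)
    (hv' : v ≤ 0.2) (hμ : 0 ≤ μ) (h1 : μ ≤ c1) (h2 : μ ≤ c2) (h3 : μ ≤ c3)
    (q1 : Qv a 1 q ≤ v1) (q2 : Qv a 2 q ≤ v2) (q3 : Qv a 3 q ≤ v3)
    (w1 : 0 ≤ v1) (w2 : 0 ≤ v2) (w3 : 0 ≤ v3) (u1 : v1 ≤ v) (u2 : v2 ≤ v) (u3 : v3 ≤ v)
    (hδ : ‖a 0 - q‖ ^ 2 ≤ 1.2) (hε : 0 < ε) (he : 3 * M ^ 2 * v ≤ 8 * A ^ 2 * ε ^ 2) :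
    A * ∑ m ∈ S, α m * Qv a 0 (z m)
      - (min (M * v) (A * ((c1 - μ) * v1 + (c2 - μ) * v2 + (c3 - μ) * v3)
          + pp (M - A * ((c1 - μ) + (c2 - μ) + (c3 - μ))) * v) * pp (1 - μ / ε)
        + pp (M - A * (c1 + c2 + c3)) * pp (‖a 0 - q‖ ^ 2 - v))
      ≤ A * Qv a 0 p - κ * ‖a 0 - q‖ ^ 2 := by
  have hb := side_bracket h S α z (κ := κ) hA hα hz hpq
  rw [← e1, ← e2, ← e3, ← hMe] at hb
  have hv : 0 ≤ v := w1.trans u1
  rw [Qv_yv h (by decide) q] at q1 q2 q3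
  have y1 := yv_nonneg hq (i := 0) (j := 1) (by decide)
  have y2 := yv_nonneg hq (i := 0) (j := 2) (by decide)
  have y3 := yv_nonneg hq (i := 0) (j := 3) (by decide)
  have key := strip_alg (A := A) (M := M) (v := v) (μ := μ) (T := min (M * v)
    (A * ((c1 - μ) * v1 + (c2 - μ) * v2 + (c3 - μ) * v3)
          + pp (M - A * ((c1 - μ) + (c2 - μ) + (c3 - μ))) * v)) hA hM hv' hμ h1 h2 h3 y1 y2 y3
    (norm_d_sq h q) (by positivity) q1 q2 q3 w1 w2 w3 u1 u2 u3 hδ le_rfl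
  have T0 : 0 ≤ min (M * v) (A * ((c1 - μ) * v1 + (c2 - μ) * v2 + (c3 - μ) * v3)
      + pp (M - A * ((c1 - μ) + (c2 - μ) + (c3 - μ))) * v) := by
    refine le_min (by positivity) ?_
    have g1 := mul_nonneg (sub_nonneg.2 h1) w1
    have g2 := mul_nonneg (sub_nonneg.2 h2) w2
    have g3 := mul_nonneg (sub_nonneg.2 h3) w3
    have g4 := mul_nonneg hA.le (show 0 ≤ (c1 - μ) * v1 + (c2 - μ) * v2 + (c3 - μ) * v3 by linarith)
    have g5 := mul_nonneg (pp_nonneg (M - A * ((c1 - μ) + (c2 - μ) + (c3 - μ)))) hv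
    linarith
  have hl := sqrt_lin (ε := ε) hA hM hμ hε T0 (min_le_left _ _) he
  linarith

end gram

end Helper78.MEI
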