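import Pool.Agent.Helper78.MEI.End5
import Pool.Agent.Helper31.SR.Arc
import Pool.Agent.Helper97.MEI.Asm26

/-!
# Project MEI (M2): arcs with weights (coupling of opposite edges)

`scl θ l` = the weight system `l` scaled by `θ m e` on the edge `(m, e)`: level, mass and moments
are multiplied by `θ`. `TC` = the coupling of opposite edges: the excess terms lose at most the
scaled levels and `ε`. `coreP_T` = core statement from per-face inequalities with scaled arcs.
-/

set_option autoImplicit false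

namespace Helper78.MEI

open Set Metric MeasureTheory Filter Topology Helper93.MEI Helper80.CW Helper14.CW
open Helper14.MEI2 Pool.Agent.Helper73.MEI Helper82.M2 Helper82.CW Helper41.MEI
open Pool.Agent.Helper31.SR Helper37.MEI
open Helper33.MEI (Wi)
open scoped RealInnerProductSpace

/-- scaled weight system -/
noncomputable def scl (θ : Fin 3 → Bool → ℝ) (l : Fin 3 → Bool → Bool → E3 × E3 → ℝ) :
    Fin 3 → Bool → Bool → E3 × E3 → ℝ := fun m e i z => θ m e * l m e i z

/-- the weight of the edge between `i` and `p` -/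
noncomputable def ath (θ : Fin 3 → Bool → ℝ) (i p : Fin 4) : ℝ := θ (idx i p).1 (idx i p).2.1

theorem ath_symm (θ : Fin 3 → Bool → ℝ) (i p : Fin 4) : ath θ i p = ath θ p i := by
  fin_cases i <;> fin_cases p <;> rfl

section
variable {a : Fin 4 → E3} {K : Set E3} {σ : Measure (E3 × E3)}
  {l : Fin 3 → Bool → Bool → E3 × E3 → ℝ} {θ : Fin 3 → Bool → ℝ}

theorem Lok_scl (hl : Lok a l) (h0 : ∀ m e, 0 ≤ θ m e)
    (h1 : ∀ m e, θ m e ≤ 1) : Lok a (scl θ l) where
  cont m e i := (hl.cont m e i).const_mul _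
  nn m e i z := mul_nonneg (h0 m e) (hl.nn m e i z)
  le m e i z hz := by
    have k1 := mul_le_mul_of_nonneg_right (h1 m e) (hl.nn m e i z)
    have k2 := hl.le m e i z hz
    unfold scl
    linarith

theorem den_scl (m : Fin 3) (e i : Bool) (z : E3 × E3) :
    den a (scl θ l) m e i z = θ m e * den a l m e i z := by
  unfold den scl
  rw [mul_div_assoc]

theorem sL_scl (m : Fin 3) (e i : Bool) :
    sL σ a (scl θ l) m e i = θ m e * sL σ a l m e i := by
  unfold sL scl
  rw [integral_const_mul]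

theorem sm_scl (m : Fin 3) (e i : Bool) :
    sm σ a (scl θ l) m e i = θ m e * sm σ a l m e i := by
  unfold sm
  simp only [den_scl]
  rw [integral_const_mul]

theorem sM_scl (m : Fin 3) (e i : Bool) (k : Fin 4) :
    sM σ a (scl θ l) m e i k = θ m e * sM σ a l m e i k := by
  unfold sM
  simp only [den_scl, mul_assoc]
  rw [integral_const_mul]

theorem aE_scl (i p : Fin 4) : aE σ a (scl θ l) i p = ath θ i p * aE σ a l i p := sL_scl _ _ _

theorem am_scl (i p : Fin 4) : Pool.Agent.Helper31.SR.am σ a (scl θ l) i p =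
    ath θ i p * Pool.Agent.Helper31.SR.am σ a l i p := sm_scl _ _ _

theorem aM_scl (i p k : Fin 4) : Pool.Agent.Helper31.SR.aM σ a (scl θ l) i p k =
    ath θ i p * Pool.Agent.Helper31.SR.aM σ a l i p k :=
  sM_scl _ _ _ _

theorem MA_scl (h0 : ∀ m e, 0 ≤ θ m e) (τ : Equiv.Perm (Fin 4)) (p k : Fin 3) :
    MA σ a (scl θ l) τ p k = ath θ (τ 0) (τ p.succ) * MA σ a l τ p k := by
  unfold MA
  rw [aM_scl]
  have h := h0 (idx (τ 0) (τ p.succ)).1 (idx (τ 0) (τ p.succ)).2.1
  unfold pp ath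
  rw [mul_max_of_nonneg _ _ h, mul_zero]

theorem sum_LLs_scl :
    ∑ i, LLs σ a (scl θ l) i =
      ∑ m, ∑ e, θ m e * (sL σ a l m e false + sL σ a l m e true) := by
  rw [sum_LLs]
  refine Finset.sum_congr rfl fun m _ => Finset.sum_congr rfl fun e _ => ?_
  rw [sL_scl, sL_scl]
  ring

end

/-- **coupling of opposite edges**: weights `θ m e ∈ [0, 1]`; the excess terms lose at most the
scaled levels and `ε` -/
structure TC (σ : Measure (E3 × E3)) (a : Fin 4 → E3)
    (l : Fin 3 → Bool → Bool → E3 × E3 → ℝ) (B : Fin 3 → Bool → OrthonormalBasis (Fin 3) ℝ E3)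
    (θ : Fin 3 → Bool → ℝ) (ε : ℝ) : Prop where
  nn : ∀ m e, 0 ≤ θ m e
  le : ∀ m e, θ m e ≤ 1
  te : -(∑ m, ∑ e, θ m e * (sL σ a l m e false + sL σ a l m e true)) - ε ≤
    ∑ m, (TE (B m false) (cen a) σ + TE (B m true) (cen a) σ)

/-- without coupling: all weights one -/
theorem TC_one {a : Fin 4 → E3} {K : Set E3} {σ : Measure (E3 × E3)} [IsFiniteMeasure σ]
    {B : Fin 3 → Bool → OrthonormalBasis (Fin 3) ℝ E3} (h : PM K σ)
    (ha : ∀ i j, i ≠ j → dist (a i) (a j) = 1)
    (hB : ∀ m e, Fr (fun i => a (pr m e i)) (B m e)) :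
    TC σ a (l2 a) B (fun _ _ => 1) 0 := by
  refine ⟨fun _ _ => zero_le_one, fun _ _ => le_rfl, ?_⟩
  have h2 : ∀ m e, -(sL σ a (l2 a) m e false + sL σ a (l2 a) m e true) ≤
      TE (B m e) (cen a) σ := by
    intro m e
    have hc : cen (fun i => a (pr m e i)) = cen a := cen_perm _
    have h3 := TE_ls h (hap ha m e) (hB m e)
    rw [show cen (ap a m e) = cen a from hc] at h3
    exact h3
  have f0 := h2 0 false
  have f1 := h2 1 false
  have f2 := h2 2 false
  have t0 := h2 0 true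
  have t1 := h2 1 true
  have t2 := h2 2 true
  simp only [Fin.sum_univ_three, Fintype.sum_bool]
  linarith

/-- the coupling from the three pairs: one edge `em m` of every pair carries the weight `θm m`,
the other one nothing -/
theorem TC_pairs {a : Fin 4 → E3} {σ : Measure (E3 × E3)}
    {l : Fin 3 → Bool → Bool → E3 × E3 → ℝ} {B : Fin 3 → Bool → OrthonormalBasis (Fin 3) ℝ E3}
    {em : Fin 3 → Bool} {θm εm : Fin 3 → ℝ} (h0 : ∀ m, 0 ≤ θm m) (h1 : ∀ m, θm m ≤ 1)
    (h : ∀ m, -(θm m * (sL σ a l m (em m) false + sL σ a l m (em m) true)) - εm m ≤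
      TE (B m false) (cen a) σ + TE (B m true) (cen a) σ) :
    TC σ a l B (fun m e => if e = em m then θm m else 0) (εm 0 + εm 1 + εm 2) := by
  refine ⟨fun m e => ?_, fun m e => ?_, ?_⟩
  · split_ifs
    · exact h0 m
    · exact le_rfl
  · split_ifs
    · exact h1 m
    · exact zero_le_one
  · have k : ∀ m, ∑ e, (if e = em m then θm m else 0) *
        (sL σ a l m e false + sL σ a l m e true) =
          θm m * (sL σ a l m (em m) false + sL σ a l m (em m) true) := fun m => by
      rw [Fintype.sum_bool]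
      cases em m <;> simp
    simp only [k]
    have k0 := h 0
    have k1 := h 1
    have k2 := h 2
    simp only [Fin.sum_univ_three]
    linarith

/-- **assembly with coupled edges** -/
theorem asm_T {a c : Fin 4 → E3} {K : Set E3} {σ : Measure (E3 × E3)} [IsFiniteMeasure σ]
    (hC : CN K σ a c) {S : Fin 4 → ℝ} (hV : Viol K a S)
    {B : Fin 3 → Bool → OrthonormalBasis (Fin 3) ℝ E3}
    (hB : ∀ m e, Fr (fun i => a (pr m e i)) (B m e))
    {θ : Fin 3 → Bool → ℝ} {ε : ℝ} (hT : TC σ a (l2 a) B θ ε) :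
    ∑ i, (Wi a i K σ 3.83 - LLs σ a (scl θ (l2 a)) i - (0.0039 * S i + 0.501 * S i ^ 3))
      - 1.85e-4 - ε ≤ 4.08 * (volume.real K - VM) := by
  have h1 := Pool.Agent.Helper97.MEI.asm26_TE (B := B) hC.pm hC.ha hC.hp hC.hz hC.hull hB
    (s := S) hV.nn (fun i => (hV.le_ap hC i).trans (by norm_num)) hV.le
  have h2 := hT.te
  have h3 := sum_LLs_scl (σ := σ) (a := a) (l := l2 a) (θ := θ)
  simp only [Fin.sum_univ_three, Fin.sum_univ_four, Fintype.sum_bool] at h1 h2 h3 ⊢
  linarith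

/-- `Asm` with the constants of helper97 -/
theorem asm_26x : Asm 1.85e-4 0.0039 0.501 := by
  intro K σ hσ a c hC S hV
  obtain ⟨B, hB⟩ := frames hC.ha
  exact Pool.Agent.Helper97.MEI.asm26x (B := B) hC.pm hC.ha hC.hp hC.hz hC.hull hB (s := S)
    hV.nn (fun i => (hV.le_ap hC i).trans (by norm_num)) hV.le

/-- **core statement from per-face inequalities, coupled edges** -/
theorem coreP_T {P : (Fin 4 → ℝ) → Prop} {X κ : ℝ} (hκ : 0 ≤ κ)
    (H : ∀ (K : Set E3) (σ : Measure (E3 × E3)), IsFiniteMeasure σ →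
      ∀ a c : Fin 4 → E3, CN K σ a c → EpsLe c X → ∀ S : Fin 4 → ℝ, Viol K a S → P S →
      ∀ B : Fin 3 → Bool → OrthonormalBasis (Fin 3) ℝ E3,
      (∀ m e, Fr (fun i => a (pr m e i)) (B m e)) →
      ∃ (θ : Fin 3 → Bool → ℝ) (ε : ℝ) (F : Fin 4 → ℝ), TC σ a (l2 a) B θ ε ∧
        (∀ i, LLs σ a (scl θ (l2 a)) i + F i ≤ Wi a i K σ 3.83) ∧
        1.85e-4 + ε + ∑ i, (0.0039 * S i + 0.501 * S i ^ 3) + 4.08 * κ * (∑ i, S i) ≤
          ∑ i, F i) :
    CoreP P X κ := by
  intro K σ hσ a c hC hX S hV hP i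
  obtain ⟨B, hB⟩ := frames hC.ha
  obtain ⟨θ, ε, F, hT, hF, hs⟩ := H K σ hσ a c hC hX S hV hP B hB
  have h1 := asm_T hC hV hB hT
  have hi : S i ≤ ∑ j, S j := Finset.single_le_sum (f := S) (fun j _ => hV.nn j)
    (Finset.mem_univ i)
  have h2 := mul_le_mul_of_nonneg_left hi hκ
  rw [Fin.sum_univ_four] at h1 hs
  rw [Fin.sum_univ_four (f := F)] at hs
  have f0 := hF 0
  have f1 := hF 1
  have f2 := hF 2
  have f3 := hF 3
  linarith

end Helper78.MEI
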