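import Pool.Agent.Helper99.MEI.DF

/-!
# Project MEI (M2), w-term: the mass deficit uniformly in the position of the apex

At the corner `i` (`x = t_j`, `y = t_k`) the deficit of the apex is at most
`(lam / 2) β AB`, `AB ≤ x + y`, `p AB ≤ x`, `(1 - p) AB ≤ y`, with two numbers `β, p` in `[0, 1]`
which depend on the apex and the corner only (`bet`, `prt`), and the sum of the three `β` is at
most `1.7`.
-/

set_option autoImplicit false

namespace Helper78.MEI

open Set Metric MeasureTheory Helper80.CW Helper82.CW Helper14.CW Helper93.MEI Helper82.M2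
open Helper14.MEI2 Pool.Agent.Helper52.MEI Pool.Agent.Helper73.MEI Helper41.MEI
open Pool.Agent.Helper55.Sx (Sim)
open Pool.Agent.Helper55.Mass (LN LN_nonneg vv vv_nonneg vv_le Id)
open Pool.Agent.Helper55.Apex (nc vt_vv)
open Pool.Agent.Helper55.ApexP (PN alP alP_nonneg alP_zeta alP_le xx_mu mu_bal)
open Pool.Agent.Helper55.Fill (xx rr rr_nonneg xx_nonneg xx_le xx_feas)
open Pool.Agent.Helper73.MEI.SideP (flP)
open Pool.Agent.Helper96.Kap (kap)
open Pool.Agent.Helper31.SR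
open Helper99.MEI (DK DK_body DM_le_DK DhM_eq_DK)
open scoped RealInnerProductSpace ENNReal

/-- the deficit number of the apex: `e = -bar 0`, `b` the three coordinates, `c = κ cN` -/
noncomputable def Zd (c e : ℝ) (b : Fin 3 → ℝ) : ℝ := e + c * (pp (-b 0) + pp (-b 1) + pp (-b 2))

/-- the relative deficit at a corner with the two other coordinates `u`, `v` -/
noncomputable def bet (Z u v : ℝ) : ℝ := pp (2 * Z) / (pp u + pp v)

/-- the position of the apex seen from the corner -/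
noncomputable def prt (u v : ℝ) : ℝ := pp u / (pp u + pp v)

theorem prt_nonneg (u v : ℝ) : 0 ≤ prt u v :=
  div_nonneg (pp_nonneg _) (add_nonneg (pp_nonneg _) (pp_nonneg _))

theorem prt_le (u v : ℝ) : prt u v ≤ 1 := by
  unfold prt
  have h1 := pp_nonneg u
  have h2 := pp_nonneg v
  exact div_le_one_of_le₀ (by linarith) (by linarith)

theorem bet_nonneg (Z u v : ℝ) : 0 ≤ bet Z u v :=
  div_nonneg (pp_nonneg _) (add_nonneg (pp_nonneg _) (pp_nonneg _))

/-- half the sum of two coordinates bounds the deficit number -/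
theorem Zd_le {c e : ℝ} (hc : c ≤ 1 / 2) {b : Fin 3 → ℝ} (hs : b 0 + b 1 + b 2 = 1 + e)
    (h01 : 2 * e ≤ b 0 + b 1) (h02 : 2 * e ≤ b 0 + b 2) (h12 : 2 * e ≤ b 1 + b 2) :
    2 * Zd c e b ≤ pp (b 0) + pp (b 1) ∧ 2 * Zd c e b ≤ pp (b 0) + pp (b 2) ∧
      2 * Zd c e b ≤ pp (b 1) + pp (b 2) := by
  have n0 := pp_nonneg (-b 0)
  have n1 := pp_nonneg (-b 1)
  have n2 := pp_nonneg (-b 2)
  have h1 : 2 * Zd c e b ≤ 2 * e + (pp (-b 0) + pp (-b 1) + pp (-b 2)) := by
    have := mul_le_mul_of_nonneg_right hc (show 0 ≤ pp (-b 0) + pp (-b 1) + pp (-b 2) by linarith)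
    unfold Zd
    linarith
  have key : ∀ u : ℝ, (0 ≤ u ∧ pp u = u ∧ pp (-u) = 0) ∨ (u ≤ 0 ∧ pp u = 0 ∧ pp (-u) = -u) := by
    intro u
    rcases le_total 0 u with h | h
    · exact Or.inl ⟨h, max_eq_left h, max_eq_right (by linarith)⟩
    · exact Or.inr ⟨h, max_eq_right h, max_eq_left (by linarith)⟩
  rcases key (b 0) with ⟨a0, a1, a2⟩ | ⟨a0, a1, a2⟩ <;>
  rcases key (b 1) with ⟨c0, c1, c2⟩ | ⟨c0, c1, c2⟩ <;>
  rcases key (b 2) with ⟨d0, d1, d2⟩ | ⟨d0, d1, d2⟩ <;>
  rw [a2, c2, d2] at h1 <;> rw [a1, c1, d1] <;> refine ⟨?_, ?_, ?_⟩ <;> linarith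

theorem bet_le_one {Z u v : ℝ} (h : 2 * Z ≤ pp u + pp v) : bet Z u v ≤ 1 := by
  have h1 := pp_nonneg u
  have h2 := pp_nonneg v
  unfold bet
  exact div_le_one_of_le₀ (max_le h (by linarith)) (by linarith)

/-- the deficit through `bet` -/
theorem bet_mul {Z u v : ℝ} (h : 2 * Z ≤ pp u + pp v) :
    bet Z u v * (pp u + pp v) = pp (2 * Z) := by
  have h1 := pp_nonneg u
  have h2 := pp_nonneg v
  unfold bet
  rcases eq_or_lt_of_le (show 0 ≤ pp u + pp v by linarith) with e | hpos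
  · rw [← e, mul_zero]
    have : pp (2 * Z) = 0 := max_eq_right (by linarith)
    rw [this]
  · exact div_mul_cancel₀ _ hpos.ne'

theorem prt_mul (u v : ℝ) : prt u v * (pp u + pp v) = pp u := by
  have h1 := pp_nonneg u
  have h2 := pp_nonneg v
  unfold prt
  rcases eq_or_lt_of_le (show 0 ≤ pp u + pp v by linarith) with e | hpos
  · rw [← e, mul_zero]
    linarith
  · exact div_mul_cancel₀ _ hpos.ne'

/-- leaks of the exact contact coordinates: at least `- cN` times the negative part of `b` -/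
theorem LN_neg {N : Fin 3 → Fin 3 → ℝ} (hN : ∀ k m, 0 ≤ N k m) {cN : ℝ} (hcN : ∀ m, nc N m ≤ cN)
    (hc1 : cN ≤ 1) {ζ b : Fin 3 → ℝ} (hbal : ∀ k, ζ k + LN N ζ k = b k) :
    -(∑ k, LN N ζ k) ≤ cN * (pp (-b 0) + pp (-b 1) + pp (-b 2)) := by
  have n0 : ∀ m, 0 ≤ nc N m := fun m => by
    unfold nc
    have := hN 0 m
    have := hN 1 m
    have := hN 2 m
    linarith
  have hsum := sum_nc N ζ
  have hsumP := sum_nc N (fun m => pp (ζ m))
  have dec : ∀ u : ℝ, u = pp u - pp (-u) := by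
    intro u
    rcases le_total 0 u with h | h
    · have h1 : pp u = u := max_eq_left h
      have h2 : pp (-u) = 0 := max_eq_right (by linarith)
      rw [h1, h2, sub_zero]
    · have h1 : pp u = 0 := max_eq_right h
      have h2 : pp (-u) = -u := max_eq_left (by linarith)
      rw [h1, h2]
      ring
  -- `pp (-ζ k) ≤ pp (-b k) + LN (pp ζ) k`
  have hk : ∀ k, pp (-ζ k) ≤ pp (-b k) + LN N (fun m => pp (ζ m)) k := by
    intro k
    have h0 : 0 ≤ LN N (fun m => pp (ζ m)) k := LN_nonneg hN (fun m => pp_nonneg _) k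
    have h1 : LN N ζ k ≤ LN N (fun m => pp (ζ m)) k := by
      unfold LN
      have g0 := mul_le_mul_of_nonneg_left (le_pp (ζ 0)) (hN k 0)
      have g1 := mul_le_mul_of_nonneg_left (le_pp (ζ 1)) (hN k 1)
      have g2 := mul_le_mul_of_nonneg_left (le_pp (ζ 2)) (hN k 2)
      linarith
    have h2 := hbal k
    have h3 := le_pp (-b k)
    have h4 := pp_nonneg (-b k)
    exact max_le (by linarith) (by linarith)
  have k0 := hk 0
  have k1 := hk 1
  have k2 := hk 2
  have e0 := dec (ζ 0)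
  have e1 := dec (ζ 1)
  have e2 := dec (ζ 2)
  have c0 : 0 ≤ cN := (n0 0).trans (hcN 0)
  -- the sum
  have s1 : pp (-ζ 0) + pp (-ζ 1) + pp (-ζ 2) ≤ (pp (-b 0) + pp (-b 1) + pp (-b 2)) +
      (pp (ζ 0) * nc N 0 + pp (ζ 1) * nc N 1 + pp (ζ 2) * nc N 2) := by
    rw [hsumP]
    linarith
  have s2 := mul_le_mul_of_nonneg_left s1 c0
  have g0 := mul_le_mul_of_nonneg_left (hcN 0) (pp_nonneg (-ζ 0))
  have g1 := mul_le_mul_of_nonneg_left (hcN 1) (pp_nonneg (-ζ 1))
  have g2 := mul_le_mul_of_nonneg_left (hcN 2) (pp_nonneg (-ζ 2))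
  have s3 : 0 ≤ pp (ζ 0) * nc N 0 + pp (ζ 1) * nc N 1 + pp (ζ 2) * nc N 2 := by
    have q0 := mul_nonneg (pp_nonneg (ζ 0)) (n0 0)
    have q1 := mul_nonneg (pp_nonneg (ζ 1)) (n0 1)
    have q2 := mul_nonneg (pp_nonneg (ζ 2)) (n0 2)
    linarith
  have s4 := mul_le_mul_of_nonneg_right hc1 s3
  rw [Fin.sum_univ_three, ← hsum]
  have f0 : ζ 0 * nc N 0 = pp (ζ 0) * nc N 0 - pp (-ζ 0) * nc N 0 := by
    rw [← sub_mul, ← e0]
  have f1 : ζ 1 * nc N 1 = pp (ζ 1) * nc N 1 - pp (-ζ 1) * nc N 1 := by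
    rw [← sub_mul, ← e1]
  have f2 : ζ 2 * nc N 2 = pp (ζ 2) * nc N 2 - pp (-ζ 2) * nc N 2 := by
    rw [← sub_mul, ← e2]
  rw [f0, f1, f2]
  linarith

section
variable {N : Fin 3 → Fin 3 → ℝ} (hN : ∀ k m, 0 ≤ N k m) (hd : ∀ k, N k k = 0) {c : ℝ}
  (hc : c < 1) (hcol : ∀ m, nc N m ≤ c)
include hN hd hc hcol

/-- the apex uses at most the weight of a coordinate -/
theorem alP_b {ζ ζp b : Fin 3 → ℝ} (hζp : ∀ k, 0 < ζp k) (hζ : ∀ k, ζ k ≤ ζp k)
    (hbal : ∀ k, ζ k + LN N ζ k = b k) {t : ℝ × ℝ} (ht : t ∈ Sim) (k : Fin 3) :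
    alP N ζp t * pp (b k) ≤ vv t k := by
  have h0 := alP_nonneg (N := N) hζp t
  have hb : ∀ k, 0 ≤ vv t k := fun k => vv_nonneg ht k
  have hx : ∀ k, alP N ζp t * ζp k ≤ xx N (vv t) k := fun k =>
    alP_le hN hd hc hcol hζp (fun _ => le_rfl) ht k
  have h1 : LN N ζ k ≤ LN N ζp k := by
    unfold LN
    have g0 := mul_le_mul_of_nonneg_left (hζ 0) (hN k 0)
    have g1 := mul_le_mul_of_nonneg_left (hζ 1) (hN k 1)
    have g2 := mul_le_mul_of_nonneg_left (hζ 2) (hN k 2)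
    linarith
  have h2 : alP N ζp t * LN N ζp k ≤ LN N (xx N (vv t)) k := by
    unfold LN
    have g0 := mul_le_mul_of_nonneg_left (hx 0) (hN k 0)
    have g1 := mul_le_mul_of_nonneg_left (hx 1) (hN k 1)
    have g2 := mul_le_mul_of_nonneg_left (hx 2) (hN k 2)
    linarith
  have h3 := xx_feas hN hc hcol hb k
  have h4 := hx k
  have h5 : b k ≤ ζp k + LN N ζp k := by
    have := hbal k
    have := hζ k
    linarith
  have h6 := mul_le_mul_of_nonneg_left h5 h0
  rcases le_total 0 (b k) with h | h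
  · have e : pp (b k) = b k := max_eq_left h
    rw [e]
    linarith
  · have e : pp (b k) = 0 := max_eq_right h
    rw [e, mul_zero]
    exact hb k

omit hd hc hcol in
/-- **the deficit of the apex at a corner** -/
theorem apex_bet {ζ ζp b : Fin 3 → ℝ} (hζp : ∀ k, 0 < ζp k)
    (hbal : ∀ k, ζ k + LN N ζ k = b k) {e κ cN : ℝ} (hs : b 0 + b 1 + b 2 = 1 + e)
    (hκ : 0 ≤ κ) (hcN : ∀ m, nc N m ≤ cN) (hc1 : cN ≤ 1) {lam : ℝ} (hl0 : 0 ≤ lam)
    {t : ℝ × ℝ} {j k : Fin 3} (hZ : 2 * Zd (κ * cN) e b ≤ pp (b j) + pp (b k)) :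
    lam * alP N ζp t * ((∑ k, (ζ k + (1 - κ) * LN N ζ k)) - 1) ≤
      lam / 2 * (bet (Zd (κ * cN) e b) (b j) (b k) * (alP N ζp t * (pp (b j) + pp (b k)))) := by
  have h0 := alP_nonneg (N := N) hζp t
  have h1 := LN_neg hN hcN hc1 hbal
  have h2 : (∑ k, (ζ k + (1 - κ) * LN N ζ k)) - 1 ≤ Zd (κ * cN) e b := by
    have b0 := hbal 0
    have b1 := hbal 1
    have b2 := hbal 2
    have h3 := mul_le_mul_of_nonneg_left h1 hκ
    rw [Fin.sum_univ_three] at h3 ⊢
    unfold Zd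
    linarith
  have h3 : Zd (κ * cN) e b ≤ pp (2 * Zd (κ * cN) e b) / 2 := by
    have := le_pp (2 * Zd (κ * cN) e b)
    linarith
  have h4 := mul_le_mul_of_nonneg_left (h2.trans h3) (mul_nonneg hl0 h0)
  refine h4.trans (le_of_eq ?_)
  rw [← bet_mul hZ]
  ring

omit hc hcol in
/-- nodes and arcs at a corner through the column sums -/
theorem nodes_col {κ Ca x y : ℝ} (hκ : 0 ≤ κ) (hx : 0 ≤ x) (hy : 0 ≤ y) {i j k : Fin 3}
    (hij : i ≠ j) (hik : i ≠ k) (hjk : j ≠ k) :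
    κ * (min x (N j i + N j k * y) + min y (N k i + N k j * x)) + (κ * N i j + Ca) * x
        + (κ * N i k + Ca) * y ≤
      κ * (min (x + y) (nc N i) + nc N j * x + nc N k * y) + Ca * (x + y) := by
  have e : ∀ m, nc N m = N i m + N j m + N k m := by
    intro m
    unfold nc
    fin_cases i <;> fin_cases j <;> fin_cases k <;> simp at hij hik hjk ⊢ <;> ring
  have h1 : min x (N j i + N j k * y) + min y (N k i + N k j * x) ≤
      min (x + y) (nc N i) + N j k * y + N k j * x + (nc N j - N i j - N k j) * x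
        + (nc N k - N i k - N j k) * y := by
    have i1 := hd i
    have i2 := hd j
    have i3 := hd k
    have z1 : nc N j - N i j - N k j = 0 := by rw [e, i2]; ring
    have z2 : nc N k - N i k - N j k = 0 := by rw [e, i3]; ring
    rw [z1, z2, zero_mul, zero_mul, add_zero, add_zero]
    have a1 := min_le_left x (N j i + N j k * y)
    have a2 := min_le_right x (N j i + N j k * y)
    have a3 := min_le_left y (N k i + N k j * x)
    have a4 := min_le_right y (N k i + N k j * x)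
    have b1 := mul_nonneg (hN j k) hy
    have b2 := mul_nonneg (hN k j) hx
    rcases le_total (x + y) (nc N i) with h | h
    · rw [min_eq_left h]
      linarith
    · rw [min_eq_right h, e i, i1]
      linarith
  have h2 := mul_le_mul_of_nonneg_left h1 hκ
  linarith

end

end Helper78.MEI
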