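import Pool.Agent.Helper78.MEI.WB9
import Pool.Agent.Helper14.MEI4.ZF

/-!
# Project MEI (M2), w-term: the numbers of a face with the exact combination of the corners

`numF_zc` = `NumF` from the checks of helper14, one table per cell of the position.
-/

set_option autoImplicit false

namespace Helper78.MEI

open Helper93.MEI Helper14.MEI4

/-- **the numbers of a face with the exact combination** -/
theorem numF_zc {X : ℕ} (hX : 0 < X) {w0 : ℕ → ℕ} {w1 : ℕ → ℕ → ℕ} {Pl : List ℕ}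
    {Dc : List (List ℕ)} {L Vl : List ℕ} {Tl : List ZT} {u0 u1 u2 : ℕ} (hL : L ≠ [])
    (hl : L.getLastD 0 = 1000000)
    (hf : ∀ g < 12, zckM Pl (Vl.getD g 0) X u0 u1 u2 g = true)
    (hT : ∀ g < 12, zckT X L Dc (Vl.getD g 0) (Tl.getD g (ZT.lf 0)) g = true)
    (a0 : ∀ v < 12, w0 v ≤ Pl.getD v 0)
    (a1 : ∀ c < L.length, ∀ v < 12, w1 c v ≤ Pl.getD v 0 + 1000000000000000 * dcv Dc c v) :
    NumF X (fun c : Fin L.length => (0 :: L).getD c 0) (fun c : Fin L.length => L.getD c 0)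
      w0 (fun c : Fin L.length => w1 c) u0 u1 u2 := by
  intro s x y z e c b hs hx hy hz hsum hs11 hb h01 h02 h12 hc0 hc hQ
  have hU : (U6 : ℝ) = 1000000 := by norm_num [U6]
  have cel : ∀ u v : ℝ, ∃ κ, Cel (prt u v) κ 0 0 L := fun u v =>
    Cel_unit (prt_nonneg u v) (prt_le u v) hL hl
  obtain ⟨κ0, i0⟩ := cel (b 2) (b 1)
  obtain ⟨κ1, i1⟩ := cel (b 0) (b 2)
  obtain ⟨κ2, i2⟩ := cel (b 0) (b 1)
  have en : ∀ {p : ℝ} {κ : ℕ}, Cel p κ 0 0 L → κ < L.length ∧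
      (((0 :: L).getD κ 0 : ℕ) : ℝ) / U6 ≤ p ∧ p ≤ ((L.getD κ 0 : ℕ) : ℝ) / U6 := by
    intro p κ h
    obtain ⟨h1, h2, h3⟩ := Cel_ends h
    rw [hU]
    exact ⟨h1, by rw [div_le_iff₀ (by norm_num)]; exact h2,
      by rw [le_div_iff₀ (by norm_num)]; exact h3⟩
  obtain ⟨l0, g0⟩ := en i0
  obtain ⟨l1, g1⟩ := en i1
  obtain ⟨l2, g2⟩ := en i2
  obtain ⟨κ, hκ⟩ : ∃ κ : Fin 3 → Fin L.length, κ = fun k =>
    if k = 0 then ⟨κ0, l0⟩ else if k = 1 then ⟨κ1, l1⟩ else ⟨κ2, l2⟩ := ⟨_, rfl⟩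
  have k0 : κ 0 = ⟨κ0, l0⟩ := by rw [hκ]; rfl
  have k1 : κ 1 = ⟨κ1, l1⟩ := by rw [hκ]; rfl
  have k2 : κ 2 = ⟨κ2, l2⟩ := by rw [hκ]; rfl
  refine ⟨κ, ?_, ?_, ?_, ?_⟩
  · rw [k0]
    exact g0
  · rw [k1]
    exact g1
  · rw [k2]
    exact g2
  · exact face_numz (W0 := fun _ => w0) (W1 := fun k => w1 (κ k)) (κ := fun k => (κ k : ℕ)) hX hf hT
      hs hx hy hz hsum hb h01 h02 h12 hc0 (by linarith) hQ (by rw [k0]; exact i0)
      (by rw [k1]; exact i1) (by rw [k2]; exact i2) (fun _ => a0) (fun k => a1 (κ k) (κ k).2)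

end Helper78.MEI
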