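import Pool.Agent.Helper78.MEI.WB13
import Pool.Agent.Helper31.SR.MilH
import Pool.Agent.Helper92.MEI.IsCs

/-!
# Project MEI (M2), w-term: the cost on a piece from the tables, in the form of the window theorems

`ws_tab` = `WS` of helper31 from one set of tables; the numbers of the ranges `.004`, `.006`,
`.0068`, `.0075`, `.0082`.
-/

set_option autoImplicit false

namespace Helper78.MEI

open Set Metric MeasureTheory Helper80.CW Helper82.CW Helper14.CW Helper93.MEI Helper82.M2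
open Pool.Agent.Helper73.MEI.ArCor (Rng WOKG)
open Pool.Agent.Helper31.SR.MilF (Pc)
open Pool.Agent.Helper31.SR.MilH (WS)
open Pool.Agent.Helper31.SR.MomA (momP_blk)
open Helper60.R7 (U U_pos)
open Helper60.R8 (Cor)

/-- smaller bounds of the leaks and of the levels -/
theorem POk.mono {P : Par} {A' ρ cN cN' s s' χ ω g0 g1 φl a0 a1 : ℝ}
    (h : POk P A' ρ cN s χ ω g0 g1 φl a0 a1) (h0 : 0 ≤ cN') (hc : cN' ≤ cN) (hs : s' ≤ s)
    (ha0 : 0 ≤ a0) (ha1 : 0 ≤ a1) : POk P A' ρ cN' s' χ ω g0 g1 φl a0 a1 where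
  A0 := h.A0
  ρ0 := h.ρ0
  cN2 := hc.trans h.cN2
  cN0 := h0
  χ0 := h.χ0
  χs := by
    have := h.χs
    linarith
  ω0 := h.ω0
  ωχ := h.ωχ
  Xp := h.Xp
  K2 := h.K2
  nok := h.nok
  g10 := h.g10
  leak := fun n n0 n1 => h.leak n n0 (n1.trans hc)
  c0 := by
    have := mul_le_mul_of_nonneg_left (show 2 * ω + 2 / 3 * cN' ≤ 2 * ω + 2 / 3 * cN by linarith)
      ha0
    exact this.trans h.c0
  c1 := by
    have := mul_le_mul_of_nonneg_left (show 2 * ω + 2 / 3 * cN' ≤ 2 * ω + 2 / 3 * cN by linarith)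
      ha1
    exact this.trans h.c1
  hl := h.hl

/-- the chord of the share -/
def Chd (ρ a0 a1 Tm : ℝ) : Prop :=
  ∀ T, 0 ≤ T → T ≤ Tm → 22.6276 * ρ * (35 / 48 + 9 / 16 * T + 5 / 12 * T ^ 2) ^ 2 ≤
    (a0 + a1 * T) * (2.04 * (1 - T ^ 2 / 4))

/-- **the cost on a piece from the tables** -/
theorem ws_tab {P : Par} {ρ cN s χ ω g0 g1 a0 a1 Tm : ℝ}
    (hP : POk P 2.04 ρ cN s χ ω g0 g1 (22.6276 * ρ * (35 / 48) ^ 2 / 2.04) a0 a1)
    (hφ : Chd ρ a0 a1 Tm) (ha0 : 0 ≤ a0) (ha1 : 0 ≤ a1)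
    (hTm : 3 * cN ≤ Tm) (hTm2 : Tm < 2) (hcN1 : cN ≤ 3 / 20)
    {X' rm qm nb ρ1 Rb gg ε k1 k12 t2 δ : ℝ} (R1 : Rng X' rm qm nb ρ1 Rb gg ε k1 k12 t2 δ)
    (hnb0 : 0 ≤ nb) (hnb : nb ≤ cN) (hX's : X' ≤ s) (hX' : X' ≤ (P.X : ℝ) / U6)
    (hX11 : X' ≤ 11 / 1000) {t0 t1 b : ℝ} (ht : t1 ≤ X') (hρ : 0.0336054 + 0.3438 * t1 ≤ ρ)
    {ι : Type} {T0 : Cor} {As0 : List Alt} {T1 : ι → Cor} {As1 : ι → List Alt} {lo hi : ι → ℕ}
    (hT0 : T0.ok 2040000 742000 243500 = true)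
    (hT1 : ∀ e, (T1 e).ok 2040000 742000 243500 = true)
    (hR0 : tab12F P 0 As0 0 U6 T0 = true) (hR1 : ∀ e, tab12F P 1 (As1 e) (lo e) (hi e) (T1 e) = true)
    (hh0 : T0.h = 0) (hh1 : ∀ e, (T1 e).h = 0)
    {u0 u1 u2 : ℕ} (hf : NumF P.X lo hi T0.w (fun e => (T1 e).w) u0 u1 u2)
    (hb : (u1 : ℝ) / 1000000000 + 3 * ((u2 : ℝ) / 1000000000) + 4 * ((u0 : ℝ) / 1000000000) / t0 ≤ b) :
    WS ρ t0 t1 b := by
  have hU : (U : ℝ) = 1000000 := by norm_num [U]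
  refine ⟨(u0 : ℝ) / 1000000000, (u1 : ℝ) / 1000000000, (u2 : ℝ) / 1000000000, by positivity, hb,
    fun X => ?_⟩
  have hP' := hP.mono hnb0 hnb hX's ha0 ha1
  have hTm' : 3 * nb ≤ Tm := by linarith
  refine wokg_tabF R1 (A := 2040000) (c0 := 742000) (c1 := 243500) ?_ hP' ?_ hTm' hTm2
    hφ ?_ ?_ hX' hX11 Helper92.IsC.isC00152 ?_ ?_ ?_ ?_ ?_ hT0 hT1 hR0 hR1 hh0 hh1 hf
  · rw [hU]
    norm_num
  · linarith
  · intro K σ _ a c _ _ S _ hS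
    exact hS.2.2.trans ht
  · exact momP_blk (T := t1) (fun _ h => h.2.2) (by linarith) hρ
  · linarith
  · norm_num
  · have := mul_le_mul_of_nonneg_left (show 1 + X' ≤ 1011 / 1000 by linarith)
      (show (0 : ℝ) ≤ 3 * 0.2435 by norm_num)
    linarith
  · rw [hU]
    norm_num
  · rw [hU]
    norm_num

end Helper78.MEI
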