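import Pool.Agent.Helper78.MEI.WB9

/-!
# Project MEI (M2), w-term: the tables with the sharper form of the nodes

At the corner `i` the nodes cost at most `min (x + y) (n_i (1 - x - y)) + n_j x + n_l y`:
`DK_formF`, `DM_betF`; `tab12F` = the contract of a table with these vectors; `face_twoF`,
`wokg_tabF`.
-/

set_option autoImplicit false

namespace Helper78.MEI

open Set Metric MeasureTheory Helper80.CW Helper82.CW Helper14.CW Helper93.MEI Helper82.M2
open Helper14.MEI2 Pool.Agent.Helper52.MEI Pool.Agent.Helper73.MEI Helper41.MEI Helper99.MEI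
open Pool.Agent.Helper55.Sx (Sim Sim_meas)
open Pool.Agent.Helper55.Mass (LN LN_nonneg vv vv_nonneg vv_le Id)
open Pool.Agent.Helper55.Apex (nc vt_vv)
open Pool.Agent.Helper55.ApexP (PN alP alP_nonneg alP_zeta alP_le xx_mu mu_bal)
open Pool.Agent.Helper55.Fill (xx rr rr_nonneg xx_nonneg xx_le xx_feas)
open Pool.Agent.Helper73.MEI.SideP (flP flP_nonneg flP_zero flP_pair)
open Pool.Agent.Helper73.MEI.ArCor (phiN)
open Pool.Agent.Helper96.Kap (kap kap_nonneg kap_add)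
open Pool.Agent.Helper31.SR
open Helper33.MEI (Wi Dl tx M3 mt mt_pos)
open Helper60.R7 (U U_pos jj ll T3_pos' T3_sum)
open Helper60.R8 (Row Ld Cor P3 zR zL z3 afr sS sAf)
open scoped RealInnerProductSpace ENNReal

section abs
variable {N : Fin 3 → Fin 3 → ℝ} (hN : ∀ k m, 0 ≤ N k m) (hd : ∀ k, N k k = 0) {c : ℝ}
  (hc : c < 1) (hcol : ∀ m, nc N m ≤ c)
include hN hd hc hcol

omit hc hcol in
/-- the nodes at a corner through the column sums -/
theorem Dmin_F {t : ℝ × ℝ} (ht : t ∈ Sim) {i j l : Fin 3} (hij : i ≠ j) (hil : i ≠ l)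
    (hjl : j ≠ l) : Dmin N (vv t) ≤
      min (vv t j + vv t l) (nc N i * vv t i) + nc N j * vv t j + nc N l * vv t l := by
  have hb : ∀ k, 0 ≤ vv t k := fun k => vv_nonneg ht k
  unfold Dmin
  rw [sum3 (fun k => min (vv t k) (LN N (vv t) k)) hij hil hjl]
  have e : ∀ k, LN N (vv t) k = N k i * vv t i + N k j * vv t j + N k l * vv t l := fun k =>
    LN3 N (vv t) k hij hil hjl
  have en : ∀ m, nc N m = N i m + N j m + N l m := fun m => by
    unfold nc
    exact sum3 (fun k => N k m) hij hil hjl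
  have g2 : min (vv t i) (LN N (vv t) i) ≤ N i j * vv t j + N i l * vv t l := by
    refine (min_le_right _ _).trans ?_
    rw [e, hd, zero_mul, zero_add]
  have a1 := min_le_left (vv t j) (LN N (vv t) j)
  have a2 : min (vv t j) (LN N (vv t) j) ≤ N j i * vv t i + N j l * vv t l := by
    refine (min_le_right _ _).trans (le_of_eq ?_)
    rw [e, hd]
    ring
  have a3 := min_le_left (vv t l) (LN N (vv t) l)
  have a4 : min (vv t l) (LN N (vv t) l) ≤ N l i * vv t i + N l j * vv t j := by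
    refine (min_le_right _ _).trans (le_of_eq ?_)
    rw [e, hd]
    ring
  have b1 := mul_nonneg (hN j l) (hb l)
  have b2 := mul_nonneg (hN l j) (hb j)
  have i1 := hd i
  have i2 := hd j
  have i3 := hd l
  have f1 : nc N i * vv t i = N j i * vv t i + N l i * vv t i := by rw [en, i1]; ring
  have f2 : nc N j * vv t j = N i j * vv t j + N l j * vv t j := by rw [en, i2]; ring
  have f3 : nc N l * vv t l = N i l * vv t l + N j l * vv t l := by rw [en, i3]; ring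
  rcases le_total (vv t j + vv t l) (nc N i * vv t i) with h | h
  · rw [min_eq_left h]
    linarith
  · rw [min_eq_right h]
    linarith

/-- **the `D`-form at a corner**, nodes through the column sums -/
theorem DK_formF {κ : ℝ} (hκ : 0 ≤ κ) (hκ1 : κ ≤ 1) {cN : ℝ} (hcN : ∀ m, nc N m ≤ cN)
    {A' φ lam : ℝ} (hA' : 0 < A') (hφ : 0 < φ)
    {ζ ζp : Fin 3 → ℝ}
    {β ρ : Fin 3 → ℝ} (hβ0 : ∀ p, 0 ≤ β p) (hβ1 : ∀ p, β p ≤ 1) (hρ : ∀ p, 0 < ρ p)
    {M : Fin 3 → Fin 3 → ℝ} (hM0 : ∀ p k, 0 ≤ M p k) (hMd : ∀ p, M p p = 0)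
    (hMρ : ∀ p k, k ≠ p → M p k ≤ ρ p)
    (hK : ∀ p, β p * ρ p ≤ A' * Id (fun t => kap N (vv t) p))
    (hF : ∀ p, (1 - β p) * ρ p ≤ φ * (A' * Id (flP (PN N) p)))
    {am dm : Fin 3 → ℝ} {ω η : ℝ} (hω0 : 0 ≤ ω) (hη0 : 0 ≤ η)
    (hω : ∀ p, (M p 0 + M p 1 + M p 2) - am p ≤ ω * (M p 0 + M p 1 + M p 2))
    (hη : ∀ p, dm p ≤ η * ρ p)
    {Ca : ℝ} (hC1 : φ * (2 * ω + η + 2 * (1 - κ) * cN) ≤ Ca)
    (hC2 : (∀ p, β p = 0) ∨ 2 * ω + η ≤ Ca)
    {t : ℝ × ℝ} (ht : t ∈ Sim) {i j l : Fin 3} (hij : i ≠ j) (hil : i ≠ l) (hjl : j ≠ l) :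
    DK κ A' N ζ ζp lam (fun p t => φ * flP (PN N) p t) (fun p t => kap N (vv t) p) β M
        (fun p => am p - dm p) t ≤
      κ * (min (vv t j + vv t l) (nc N i * vv t i) + nc N j * vv t j + nc N l * vv t l)
        + Ca * (vv t j + vv t l)
        + lam * alP N ζp t * ((∑ k, (ζ k + (1 - κ) * LN N ζ k)) - 1) := by
  have hb : ∀ k, 0 ≤ vv t k := fun k => vv_nonneg ht k
  have hF0 : ∀ p, 0 < Id (flP (PN N) p) := fun p => by
    have h1 := Pool.Agent.Helper73.MEI.SideP.flN_mass hN hd hc hcol p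
    have h2 := Pool.Agent.Helper55.ApexP.PN_det_pos hN hd hc hcol
    have h3 := Pool.Agent.Helper73.MEI.SideP.mbN_ge hN p
    refine lt_of_lt_of_le ?_ h1
    have h4 : 0 < Pool.Agent.Helper73.MEI.SideP.mbN N p := by linarith
    positivity
  have eI : ∀ p, Id (fun t => φ * flP (PN N) p t) = φ * Id (flP (PN N) p) := fun p =>
    Pool.Agent.Helper55.Mass.Id_const φ _
  have hF0' : ∀ p, 0 < Id (fun t => φ * flP (PN N) p t) := fun p => by
    rw [eI]
    exact mul_pos hφ (hF0 p)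
  have hF' : ∀ p, (1 - β p) * ρ p ≤ A' * Id (fun t => φ * flP (PN N) p t) := fun p => by
    rw [eI]
    have := hF p
    linarith
  have hf0 : ∀ p, ∀ t, 0 ≤ φ * flP (PN N) p t := fun p t => mul_nonneg hφ.le (flP_nonneg p t)
  have hκ0 : ∀ p, ∀ t ∈ Sim, 0 ≤ kap N (vv t) p := fun p t ht =>
    kap_nonneg hN hc hcol (fun k => vv_nonneg ht k) p
  have hK0 : ∀ p, 0 ≤ Id (fun t => kap N (vv t) p) := fun p => by
    unfold Pool.Agent.Helper55.Mass.Id
    refine mul_nonneg (by positivity) (setIntegral_nonneg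
      Pool.Agent.Helper55.Sx.Sim_meas fun t ht => ?_)
    exact div_nonneg (hκ0 p t ht) (by positivity)
  have hMρ' : ∀ p k, M p k ≤ ρ p := fun p k => by
    by_cases h : k = p
    · rw [h, hMd]
      exact (hρ p).le
    · exact hMρ p k h
  have cN0 : 0 ≤ cN := by
    refine le_trans ?_ (hcN 0)
    unfold nc
    have := hN 0 0
    have := hN 1 0
    have := hN 2 0
    linarith
  -- the weights of the arcs
  obtain ⟨α, hα⟩ : ∃ α : Fin 3 → ℝ × ℝ → ℝ,
      α = ash (fun p t => φ * flP (PN N) p t) (fun p => Id (fun t => φ * flP (PN N) p t)) β A' :=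
    ⟨_, rfl⟩
  obtain ⟨g, hg⟩ : ∃ g : Fin 3 → ℝ × ℝ → ℝ,
      g = ast (fun p t => kap N (vv t) p) (fun p => Id (fun t => kap N (vv t) p)) β A' := ⟨_, rfl⟩
  have α0 : ∀ p, 0 ≤ α p t := fun p => by
    rw [hα]
    exact ash_nonneg hf0 hA' hF0' hβ1 p t
  have g0 : ∀ p, 0 ≤ g p t := fun p => by
    rw [hg]
    exact ast_nonneg hκ0 hA' hβ0 hK0 p ht
  have αρ : ∀ p, α p t * ρ p ≤ φ * flP (PN N) p t := fun p => by
    have hAF : 0 < A' * Id (fun t => φ * flP (PN N) p t) := mul_pos hA' (hF0' p)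
    have q0 : 0 ≤ φ * flP (PN N) p t / (A' * Id (fun t => φ * flP (PN N) p t)) :=
      div_nonneg (hf0 p t) hAF.le
    have q1 := mul_le_mul_of_nonneg_left (hF' p) q0
    have q2 : φ * flP (PN N) p t / (A' * Id (fun t => φ * flP (PN N) p t)) *
        (A' * Id (fun t => φ * flP (PN N) p t)) = φ * flP (PN N) p t :=
      div_mul_cancel₀ _ hAF.ne'
    rw [hα]
    unfold ash
    linarith
  have gρ : ∀ p, g p t * ρ p ≤ kap N (vv t) p := fun p => by
    have hk := hκ0 p t ht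
    rw [hg]
    unfold ast
    rcases eq_or_lt_of_le (mul_nonneg hA'.le (hK0 p)) with e | hpos
    · rw [← e, div_zero, mul_zero, zero_mul]
      exact hk
    · have q0 : 0 ≤ kap N (vv t) p / (A' * Id (fun t => kap N (vv t) p)) :=
        div_nonneg hk hpos.le
      have q1 := mul_le_mul_of_nonneg_left (hK p) q0
      have q2 : kap N (vv t) p / (A' * Id (fun t => kap N (vv t) p)) *
          (A' * Id (fun t => kap N (vv t) p)) = kap N (vv t) p := div_mul_cancel₀ _ hpos.ne'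
      linarith
  have key : DK κ A' N ζ ζp lam (fun p t => φ * flP (PN N) p t) (fun p t => kap N (vv t) p) β M
      (fun p => am p - dm p) t = κ * Dmin N (vv t)
      + lam * alP N ζp t * ((∑ k, (ζ k + (1 - κ) * LN N ζ k)) - 1)
      + ∑ p, α p t * ((∑ k, (M p k + (1 - κ) * LN N (M p) k)) - (am p - dm p))
      + ∑ p, ((M p 0 + M p 1 + M p 2) - (am p - dm p)) * g p t := by
    rw [hα, hg]
    rfl
  rw [key]
  -- nodes
  have n1 := mul_le_mul_of_nonneg_left (Dmin_F hN hd ht hij hil hjl) hκ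
  -- arcs
  have M2 : ∀ p, M p 0 + M p 1 + M p 2 ≤ 2 * ρ p := by
    intro p
    have m0 := hMρ' p 0
    have m1 := hMρ' p 1
    have m2 := hMρ' p 2
    have md := hMd p
    fin_cases p
    · simp only [Fin.zero_eta] at m0 m1 m2 md ⊢
      linarith
    · simp only [Fin.mk_one] at m0 m1 m2 md ⊢
      linarith
    · simp only [Fin.reduceFinMk] at m0 m1 m2 md ⊢
      linarith
  have C1n : 0 ≤ 2 * ω + η + 2 * (1 - κ) * cN := by
    have := mul_nonneg (sub_nonneg.2 hκ1) cN0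
    linarith
  have arcF : ∀ p, α p t * ((∑ k, (M p k + (1 - κ) * LN N (M p) k)) - (am p - dm p)) ≤
      (2 * ω + η + 2 * (1 - κ) * cN) * (φ * flP (PN N) p t) := by
    intro p
    have q1 : (∑ k, (M p k + (1 - κ) * LN N (M p) k)) - (am p - dm p) ≤
        (2 * ω + η + 2 * (1 - κ) * cN) * ρ p := by
      have s1 := sum_nc N (M p)
      have s2 := hω p
      have s3 := hη p
      have s4 := M2 p
      have s5 : M p 0 * nc N 0 + M p 1 * nc N 1 + M p 2 * nc N 2 ≤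
          cN * (M p 0 + M p 1 + M p 2) := by
        have k0 := mul_le_mul_of_nonneg_left (hcN 0) (hM0 p 0)
        have k1 := mul_le_mul_of_nonneg_left (hcN 1) (hM0 p 1)
        have k2 := mul_le_mul_of_nonneg_left (hcN 2) (hM0 p 2)
        linarith
      have s6 := mul_le_mul_of_nonneg_left s4 hω0
      have s7 := mul_le_mul_of_nonneg_left s4 cN0
      have s8 := mul_le_mul_of_nonneg_left (s5.trans s7) (sub_nonneg.2 hκ1)
      rw [s1] at s8
      simp only [Fin.sum_univ_three]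
      linarith
    have q2 := mul_le_mul_of_nonneg_left q1 (α0 p)
    have q3 := mul_le_mul_of_nonneg_left (αρ p) C1n
    linarith
  have arcK : ∀ p, ((M p 0 + M p 1 + M p 2) - (am p - dm p)) * g p t ≤
      (2 * ω + η) * kap N (vv t) p := by
    intro p
    have q1 : (M p 0 + M p 1 + M p 2) - (am p - dm p) ≤ (2 * ω + η) * ρ p := by
      have s2 := hω p
      have s3 := hη p
      have s6 := mul_le_mul_of_nonneg_left (M2 p) hω0
      linarith
    have q2 := mul_le_mul_of_nonneg_right q1 (g0 p)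
    have q3 := mul_le_mul_of_nonneg_left (gρ p) (show 0 ≤ 2 * ω + η by linarith)
    linarith
  have sF : ∑ p, α p t * ((∑ k, (M p k + (1 - κ) * LN N (M p) k)) - (am p - dm p)) ≤
      Ca * (xx N (vv t) j + xx N (vv t) l) := by
    have a1 := Finset.sum_le_sum (s := Finset.univ) fun p _ => arcF p
    refine a1.trans ?_
    rw [Fin.sum_univ_three (f := fun p => (2 * ω + η + 2 * (1 - κ) * cN) * (φ * flP (PN N) p t)),
      sum3 (fun p => (2 * ω + η + 2 * (1 - κ) * cN) * (φ * flP (PN N) p t)) hij hil hjl]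
    have b1 := flP_xx hN hd hc hcol ht hij hil hjl
    have b2 := flP_xx hN hd hc hcol ht hil hij hjl.symm
    have b3 := flP_nonneg (P := PN N) i t
    have b4 : flP (PN N) i t + flP (PN N) j t + flP (PN N) l t ≤
        xx N (vv t) j + xx N (vv t) l := by linarith
    have b5 := mul_le_mul_of_nonneg_left b4 (mul_nonneg hφ.le C1n)
    have b6 := mul_le_mul_of_nonneg_right hC1
      (add_nonneg (xx_nonneg hN hc hcol hb j) (xx_nonneg hN hc hcol hb l))
    linarith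
  have Ca0 : 0 ≤ Ca := (mul_nonneg hφ.le C1n).trans hC1
  have sK : ∑ p, ((M p 0 + M p 1 + M p 2) - (am p - dm p)) * g p t ≤
      Ca * (rr N (vv t) j + rr N (vv t) l) := by
    have r0 := add_nonneg (rr_nonneg hN hc hcol hb j) (rr_nonneg hN hc hcol hb l)
    rcases hC2 with hz | hC2
    · have e : ∀ p, ((M p 0 + M p 1 + M p 2) - (am p - dm p)) * g p t = 0 := by
        intro p
        rw [hg]
        unfold ast
        rw [hz p, zero_mul, mul_zero]
      rw [Finset.sum_eq_zero fun p _ => e p]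
      exact mul_nonneg Ca0 r0
    · have a1 := Finset.sum_le_sum (s := Finset.univ) fun p _ => arcK p
      refine a1.trans ?_
      rw [Fin.sum_univ_three (f := fun p => (2 * ω + η) * kap N (vv t) p),
        sum3 (fun p => (2 * ω + η) * kap N (vv t) p) hij hil hjl]
      have b1 := kap_add hN hc hcol hb (j := i) (l := l) (k := j) hil hij hjl.symm
      have b2 := kap_add hN hc hcol hb (j := i) (l := j) (k := l) hij hil hjl
      have b3 := hκ0 i t ht
      have b4 : kap N (vv t) i + kap N (vv t) j + kap N (vv t) l ≤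
          rr N (vv t) j + rr N (vv t) l := by linarith
      have b5 := mul_le_mul_of_nonneg_left b4 (show 0 ≤ 2 * ω + η by linarith)
      have b6 := mul_le_mul_of_nonneg_right hC2 r0
      linarith
  have xr : ∀ k, xx N (vv t) k + rr N (vv t) k ≤ vv t k := by
    intro k
    have h1 := LN_nonneg hN (xx_nonneg hN hc hcol hb) k
    unfold rr
    linarith
  have x1 := mul_le_mul_of_nonneg_left (xr j) Ca0
  have x2 := mul_le_mul_of_nonneg_left (xr l) Ca0
  linarith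

end abs

variable {a : Fin 4 → E3} {K : Set E3} {S : Fin 4 → ℝ} {σ : Measure (E3 × E3)}
  {c : Fin 4 → E3} {z : Fin 4 → Fin 4 → E3} {l : Fin 3 → Bool → Bool → E3 × E3 → ℝ}

/-- **the `D`-form of a placed body, uniformly in the apex**, share `κ` of the leaks -/
theorem DK_betF [IsFiniteMeasure σ] (h : CN K σ a c) (v : Viol K a S) (hz : CV a K z)
    (τ : Equiv.Perm (Fin 4)) {A' : ℝ} (hA' : 0 < A') (hl : Lok a l)
    {ρ β : Fin 3 → ℝ} (hρ : ∀ p, 0 < ρ p) (hMρ : ∀ p k, k ≠ p → MA σ a l τ p k ≤ ρ p)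
    {x : E3} (hx : x ∈ K) {N : Fin 3 → Fin 3 → ℝ}
    (hNd : N = NM (fun i => a (τ i)) (fun i j => z (τ i) (τ j)))
    {ζ ζp : Fin 3 → ℝ} (hζd : ζ = zc (fun i => a (τ i)) N x) (hζp : ∀ k, 0 < ζp k)
    {φ lam : ℝ} (hφ : 0 < φ) (hl0 : 0 ≤ lam)
    (hβ0 : ∀ p, 0 ≤ β p) (hβ1 : ∀ p, β p ≤ 1)
    (hK : ∀ p, β p * ρ p ≤ A' * Id (fun t => kap N (vv t) p))
    (hF : ∀ p, (1 - β p) * ρ p ≤ φ * (A' * Id (flP (PN N) p)))
    {κ : ℝ} (hκ : 0 ≤ κ) (hκ1 : κ ≤ 1) {cN : ℝ} (hcN : ∀ m, nc N m ≤ cN) (hcN1 : cN ≤ 1 / 2)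
    {s χ ω η : ℝ} (hS : ∀ i, S i ≤ s) (hχ0 : 0 ≤ χ) (hχ : 3 / 2 + 2 * s ≤ χ ^ 2)
    (hω0 : 0 ≤ ω) (hω : (1 - ω) * χ ≤ 1) (hη0 : 0 ≤ η)
    {dm : Fin 3 → ℝ} (hη : ∀ p, dm p ≤ η * ρ p)
    {Ca : ℝ} (hC1 : φ * (2 * ω + η + 2 * (1 - κ) * cN) ≤ Ca)
    (hC2 : (∀ p, β p = 0) ∨ 2 * ω + η ≤ Ca)
    {t : ℝ × ℝ} (ht : t ∈ Sim) {i j k : Fin 3} (hij : i ≠ j) (hik : i ≠ k) (hjk : j ≠ k) :
    DK κ A' N ζ ζp lam (fun p t => φ * flP (PN N) p t) (fun p t => kap N (vv t) p) β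
        (MB σ a l τ) (fun p => Pool.Agent.Helper31.SR.am σ a l (τ 0) (τ p.succ) - dm p) t ≤
      κ * (min (vv t j + vv t k) (nc N i * vv t i) + nc N j * vv t j + nc N k * vv t k)
        + Ca * (vv t j + vv t k)
        + lam / 2 * (bet (Zd (κ * cN) (-bar (fun i => a (τ i)) 0 x) (b3 (fun i => a (τ i)) x))
            (b3 (fun i => a (τ i)) x j) (b3 (fun i => a (τ i)) x k) *
          (alP N ζp t * (pp (b3 (fun i => a (τ i)) x j) + pp (b3 (fun i => a (τ i)) x k)))) := by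
  have h' := h.perm τ
  have v' := viol_perm v τ
  have hz' := hz.perm τ
  have hN : ∀ k m, 0 ≤ N k m := fun k m => by
    rw [hNd]
    exact NM_nonneg h' v' hz' k m
  have hd : ∀ k, N k k = 0 := fun k => by
    rw [hNd]
    exact NM_diag k
  have hcol : ∀ m, nc N m ≤ 9 / 10 := fun m => by
    rw [hNd]
    exact nc_le h' v' hz' m
  have hc : (9 / 10 : ℝ) < 1 := by norm_num
  have hgr := gram_of_dist h'.ha
  have hbal : ∀ k, ζ k + LN N ζ k = b3 (fun i => a (τ i)) x k := fun k => by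
    rw [hζd]
    exact mu_bal hN hd hc hcol (b3 (fun i => a (τ i)) x) k
  have hb : ∀ k, 0 ≤ vv t k := fun k => vv_nonneg ht k
  have hM : ∀ p k, k ≠ p → MB σ a l τ p k ≤ ρ p := fun p k hk => by
    unfold MB
    rw [if_neg hk]
    exact hMρ p k hk
  have h0 := DK_formF hN hd hc hcol hκ hκ1 hcN hA' hφ (lam := lam) (ζ := ζ) (ζp := ζp) hβ0 hβ1 hρ
    (fun p k => MB_nonneg τ p k) (fun p => MB_diag τ p) hM hK hF hω0 hη0
    (fun p => MB_def h v hl τ hS hχ0 hχ hω p) hη hC1 hC2 ht hij hik hjk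
  have hcc : κ * cN ≤ 1 / 2 := by
    have hc0 : 0 ≤ cN := by
      refine le_trans ?_ (hcN 0)
      unfold nc
      have := hN 0 0
      have := hN 1 0
      have := hN 2 0
      linarith
    have := mul_le_mul_of_nonneg_right hκ1 hc0
    linarith
  have hZ := Zd_body hgr (h'.hp x hx) (cc := κ * cN) hcc hjk
  have h2 := apex_bet hN (κ := κ) (cN := cN) (e := -bar (fun i => a (τ i)) 0 x) hζp hbal
    (by rw [b3_sum hgr x]; ring) hκ hcN (by linarith) hl0 (t := t) (j := j) (k := k) hZ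
  linarith

/-- the plain deficit (share `2/3`) -/
theorem DM_betF [IsFiniteMeasure σ] (h : CN K σ a c) (v : Viol K a S) (hz : CV a K z)
    (τ : Equiv.Perm (Fin 4)) {A' : ℝ} (hA' : 0 < A') (hl : Lok a l)
    {ρ β : Fin 3 → ℝ} (hρ : ∀ p, 0 < ρ p) (hMρ : ∀ p k, k ≠ p → MA σ a l τ p k ≤ ρ p)
    {x : E3} (hx : x ∈ K) {N : Fin 3 → Fin 3 → ℝ}
    (hNd : N = NM (fun i => a (τ i)) (fun i j => z (τ i) (τ j)))
    {ζ ζp : Fin 3 → ℝ} (hζd : ζ = zc (fun i => a (τ i)) N x) (hζp : ∀ k, 0 < ζp k)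
    (hζ : ∀ k, ζ k ≤ ζp k)
    {φ lam : ℝ} (hφ : 0 < φ) (hl0 : 0 ≤ lam) (hl1 : lam ≤ 1 - φ)
    (hβ0 : ∀ p, 0 ≤ β p) (hβ1 : ∀ p, β p ≤ 1)
    (hK : ∀ p, β p * ρ p ≤ A' * Id (fun t => kap N (vv t) p))
    (hF : ∀ p, (1 - β p) * ρ p ≤ φ * (A' * Id (flP (PN N) p)))
    {cN : ℝ} (hcN : ∀ m, nc N m ≤ cN) (hcN1 : cN ≤ 1 / 2)
    {s χ ω η : ℝ} (hS : ∀ i, S i ≤ s) (hχ0 : 0 ≤ χ) (hχ : 3 / 2 + 2 * s ≤ χ ^ 2)
    (hω0 : 0 ≤ ω) (hω : (1 - ω) * χ ≤ 1) (hη0 : 0 ≤ η)
    {dm : Fin 3 → ℝ} (hη : ∀ p, dm p ≤ η * ρ p)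
    {Ca : ℝ} (hC1 : φ * (2 * ω + η + 2 / 3 * cN) ≤ Ca)
    (hC2 : (∀ p, β p = 0) ∨ 2 * ω + η ≤ Ca)
    {t : ℝ × ℝ} (ht : t ∈ Sim) {i j k : Fin 3} (hij : i ≠ j) (hik : i ≠ k) (hjk : j ≠ k) :
    DM A' N ζ ζp lam (fun p t => φ * flP (PN N) p t) (fun p t => kap N (vv t) p) β
        (MB σ a l τ) (fun j => 1 / qM (fun i => a (τ i)) (fun i j => z (τ i) (τ j)) j)
        (fun p => Pool.Agent.Helper31.SR.am σ a l (τ 0) (τ p.succ) - dm p) t ≤
      2 / 3 * (min (vv t j + vv t k) (nc N i * vv t i) + nc N j * vv t j + nc N k * vv t k)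
        + Ca * (vv t j + vv t k)
        + lam / 2 * (bet (Zd (2 / 3 * cN) (-bar (fun i => a (τ i)) 0 x) (b3 (fun i => a (τ i)) x))
            (b3 (fun i => a (τ i)) x j) (b3 (fun i => a (τ i)) x k) *
          (alP N ζp t * (pp (b3 (fun i => a (τ i)) x j) + pp (b3 (fun i => a (τ i)) x k)))) := by
  have h' := h.perm τ
  have v' := viol_perm v τ
  have hz' := hz.perm τ
  have hN : ∀ k m, 0 ≤ N k m := fun k m => by
    rw [hNd]
    exact NM_nonneg h' v' hz' k m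
  have hd : ∀ k, N k k = 0 := fun k => by
    rw [hNd]
    exact NM_diag k
  have hcol : ∀ m, nc N m ≤ 9 / 10 := fun m => by
    rw [hNd]
    exact nc_le h' v' hz' m
  have hc : (9 / 10 : ℝ) < 1 := by norm_num
  have hM : ∀ p k, k ≠ p → MB σ a l τ p k ≤ ρ p := fun p k hk => by
    unfold MB
    rw [if_neg hk]
    exact hMρ p k hk
  have hμ : ∀ k, 1 + nc N k - (fun j => 1 / qM (fun i => a (τ i))
      (fun i j => z (τ i) (τ j)) j) k ≤ 2 / 3 * nc N k := fun k => by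
    rw [hNd]
    exact nun_le h' v' hz' k
  refine (DM_le_DK hN hd hc hcol (κ := 2 / 3) (by norm_num) hμ hA' hφ hl0 hl1 hζp hζ hβ1 hρ
    (fun p => MB_diag τ p) hM hF ht).trans ?_
  exact DK_betF h v hz τ hA' hl hρ hMρ hx hNd hζd hζp hφ hl0 hβ0 hβ1 hK hF (κ := 2 / 3)
    (by norm_num) (by norm_num) hcN hcN1 hS hχ0 hχ hω0 hω hη0 hη (by linarith) hC2 ht hij hik hjk

end Helper78.MEI
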