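import Pool.Agent.Helper78.MEI.WB11

/-!
# Project MEI (M2), w-term: the numbers of the ranges

`P40`, `P60`, `P68`, `P75`, `P82` with `POk` and the chord of the share.
-/

set_option autoImplicit false

namespace Helper78.MEI

/-- numbers of the range `Σ S ≤ 0.004` -/
def P40 : Par := ⟨4000, 666667, 22345, 69145, 53545, 45745, 86877, 172748, 395321⟩

theorem pok40 : POk P40 2.04 0.0355 0.0654 0.004 1.22801 0.18568 0.022345 23.4
    (22.6276 * 0.0355 * (35 / 48) ^ 2 / 2.04) 0.20936 0.4163 where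
  A0 := by norm_num
  ρ0 := by norm_num
  cN2 := by norm_num
  cN0 := by norm_num
  χ0 := by norm_num
  χs := by norm_num
  ω0 := by norm_num
  ωχ := by norm_num
  Xp := by norm_num [P40]
  K2 := by norm_num [P40, U6]
  nok := ⟨by norm_num [P40, U6], by norm_num [P40, U6], by norm_num [P40, U6],
    by norm_num [P40, U6]⟩
  g10 := by norm_num
  leak := fun n n0 n1 => by
    have h1 := mul_nonneg (sub_nonneg.2 n1) (sq_nonneg (n - 0.04573))
    have h2 := sq_nonneg (n - 0.04573)
    have h3 := mul_nonneg n0 (sub_nonneg.2 n1)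
    nlinarith
  c0 := by norm_num [P40, U6]
  c1 := by norm_num [P40, U6]
  hl := by norm_num [P40, U6]

theorem chd40 : Chd 0.0355 0.20936 0.4163 0.1962 := by
  intro T h0 h1
  have e1 := mul_nonneg h0 (sub_nonneg.2 h1)
  have e2 := mul_nonneg h0 e1
  have e3 := mul_nonneg h0 e2
  nlinarith

/-- numbers of the range `Σ S ≤ 0.006` -/
def P60 : Par := ⟨6000, 666667, 27365, 85265, 65965, 56315, 90711, 191453, 393847⟩

theorem pok60 : POk P60 2.04 0.036 0.0806 0.006 1.22964 0.18676 0.027365 19.3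
    (22.6276 * 0.036 * (35 / 48) ^ 2 / 2.04) 0.21231 0.4481 where
  A0 := by norm_num
  ρ0 := by norm_num
  cN2 := by norm_num
  cN0 := by norm_num
  χ0 := by norm_num
  χs := by norm_num
  ω0 := by norm_num
  ωχ := by norm_num
  Xp := by norm_num [P60]
  K2 := by norm_num [P60, U6]
  nok := ⟨by norm_num [P60, U6], by norm_num [P60, U6], by norm_num [P60, U6],
    by norm_num [P60, U6]⟩
  g10 := by norm_num
  leak := fun n n0 n1 => by
    have h1 := mul_nonneg (sub_nonneg.2 n1) (sq_nonneg (n - 0.05631))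
    have h2 := sq_nonneg (n - 0.05631)
    have h3 := mul_nonneg n0 (sub_nonneg.2 n1)
    nlinarith
  c0 := by norm_num [P60, U6]
  c1 := by norm_num [P60, U6]
  hl := by norm_num [P60, U6]

theorem chd60 : Chd 0.036 0.21231 0.4481 0.2418 := by
  intro T h0 h1
  have e1 := mul_nonneg h0 (sub_nonneg.2 h1)
  have e2 := mul_nonneg h0 e1
  have e3 := mul_nonneg h0 e2
  nlinarith

/-- numbers of the range `Σ S ≤ 0.0068` -/
def P68 : Par := ⟨6800, 666667, 29121, 91001, 70375, 60061, 91660, 197645, 393847⟩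

theorem pok68 : POk P68 2.04 0.036 0.08602 0.0068 1.23029 0.18719 0.029121 18.2
    (22.6276 * 0.036 * (35 / 48) ^ 2 / 2.04) 0.21231 0.4578 where
  A0 := by norm_num
  ρ0 := by norm_num
  cN2 := by norm_num
  cN0 := by norm_num
  χ0 := by norm_num
  χs := by norm_num
  ω0 := by norm_num
  ωχ := by norm_num
  Xp := by norm_num [P68]
  K2 := by norm_num [P68, U6]
  nok := ⟨by norm_num [P68, U6], by norm_num [P68, U6], by norm_num [P68, U6],
    by norm_num [P68, U6]⟩
  g10 := by norm_num
  leak := fun n n0 n1 => by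
    have h1 := mul_nonneg (sub_nonneg.2 n1) (sq_nonneg (n - 0.06004))
    have h2 := sq_nonneg (n - 0.06004)
    have h3 := mul_nonneg n0 (sub_nonneg.2 n1)
    nlinarith
  c0 := by norm_num [P68, U6]
  c1 := by norm_num [P68, U6]
  hl := by norm_num [P68, U6]

theorem chd68 : Chd 0.036 0.21231 0.4578 0.25806 := by
  intro T h0 h1
  have e1 := mul_nonneg h0 (sub_nonneg.2 h1)
  have e2 := mul_nonneg h0 e1
  have e3 := mul_nonneg h0 e2
  nlinarith

/-- numbers of the range `Σ S ≤ 0.0075` -/
def P75 : Par := ⟨7500, 666667, 30585, 95760, 74035, 63173, 92970, 204063, 393257⟩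

theorem pok75 : POk P75 2.04 0.0362 0.09053 0.0075 1.23086 0.18756 0.030585 17.38
    (22.6276 * 0.0362 * (35 / 48) ^ 2 / 2.04) 0.21349 0.4686 where
  A0 := by norm_num
  ρ0 := by norm_num
  cN2 := by norm_num
  cN0 := by norm_num
  χ0 := by norm_num
  χs := by norm_num
  ω0 := by norm_num
  ωχ := by norm_num
  Xp := by norm_num [P75]
  K2 := by norm_num [P75, U6]
  nok := ⟨by norm_num [P75, U6], by norm_num [P75, U6], by norm_num [P75, U6],
    by norm_num [P75, U6]⟩
  g10 := by norm_num
  leak := fun n n0 n1 => by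
    have h1 := mul_nonneg (sub_nonneg.2 n1) (sq_nonneg (n - 0.06316))
    have h2 := sq_nonneg (n - 0.06316)
    have h3 := mul_nonneg n0 (sub_nonneg.2 n1)
    nlinarith
  c0 := by norm_num [P75, U6]
  c1 := by norm_num [P75, U6]
  hl := by norm_num [P75, U6]

theorem chd75 : Chd 0.0362 0.21349 0.4686 0.27159 := by
  intro T h0 h1
  have e1 := mul_nonneg h0 (sub_nonneg.2 h1)
  have e2 := mul_nonneg h0 e1
  have e3 := mul_nonneg h0 e2
  nlinarith

/-- numbers of the range `Σ S ≤ 0.0082` -/
def P82 : Par := ⟨8200, 666667, 31976, 100323, 77541, 66150, 94790, 211669, 392078⟩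

theorem pok82 : POk P82 2.04 0.0366 0.0949 0.0082 1.23143 0.18794 0.031976 16.67
    (22.6276 * 0.0366 * (35 / 48) ^ 2 / 2.04) 0.21585 0.482 where
  A0 := by norm_num
  ρ0 := by norm_num
  cN2 := by norm_num
  cN0 := by norm_num
  χ0 := by norm_num
  χs := by norm_num
  ω0 := by norm_num
  ωχ := by norm_num
  Xp := by norm_num [P82]
  K2 := by norm_num [P82, U6]
  nok := ⟨by norm_num [P82, U6], by norm_num [P82, U6], by norm_num [P82, U6],
    by norm_num [P82, U6]⟩
  g10 := by norm_num
  leak := fun n n0 n1 => by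
    have h1 := mul_nonneg (sub_nonneg.2 n1) (sq_nonneg (n - 0.06614))
    have h2 := sq_nonneg (n - 0.06614)
    have h3 := mul_nonneg n0 (sub_nonneg.2 n1)
    nlinarith
  c0 := by norm_num [P82, U6]
  c1 := by norm_num [P82, U6]
  hl := by norm_num [P82, U6]

theorem chd82 : Chd 0.0366 0.21585 0.482 0.2847 := by
  intro T h0 h1
  have e1 := mul_nonneg h0 (sub_nonneg.2 h1)
  have e2 := mul_nonneg h0 e1
  have e3 := mul_nonneg h0 e2
  nlinarith

end Helper78.MEI
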