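import Pool.Agent.Helper78.MEI.WB14

/-!
# Project MEI (M2), w-term: the cost on a piece from four tables

`ws_three` = `WS` of helper31 from the table without apex and the tables of the three classes
`[0, 1/8]`, `[1/8, 7/8]`, `[7/8, 1]`; all conditions are checks on natural numbers.
-/

set_option autoImplicit false

namespace Helper78.MEI

open Pool.Agent.Helper73.MEI.ArCor (Rng WOKG)
open Pool.Agent.Helper31.SR.MilH (WS)
open Helper60.R8 (Cor)

/-- the weights `W` are at most `Pl + Dl` -/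
def wck (Pl Dl W : List ℕ) : Bool :=
  (List.range 12).all fun v => Nat.ble (W.getD v 0) (Pl.getD v 0 + Dl.getD v 0)

theorem wck_le {Pl Dl W : List ℕ} (h : wck Pl Dl W = true) :
    ∀ v < 12, W.getD v 0 ≤ Pl.getD v 0 + Dl.getD v 0 := by
  intro v hv
  unfold wck at h
  rw [List.all_eq_true] at h
  exact Nat.le_of_ble_eq_true (h v (List.mem_range.2 hv))

/-- an alternative from its three numbers -/
def altOf (p : ℕ × ℕ × ℕ) : Alt := ⟨p.1, p.2.1, p.2.2⟩

/-- **the cost on a piece from four tables** -/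
theorem ws_three {P : Par} {ρ cN s χ ω g0 g1 a0 a1 Tm : ℝ}
    (hP : POk P 2.04 ρ cN s χ ω g0 g1 (22.6276 * ρ * (35 / 48) ^ 2 / 2.04) a0 a1)
    (hφ : Chd ρ a0 a1 Tm) (ha0 : 0 ≤ a0) (ha1 : 0 ≤ a1)
    (hTm : 3 * cN ≤ Tm) (hTm2 : Tm < 2) (hcN1 : cN ≤ 3 / 20)
    {X' rm qm nb ρ1 Rb gg ε k1 k12 t2 δ : ℝ} (R1 : Rng X' rm qm nb ρ1 Rb gg ε k1 k12 t2 δ)
    (hnb0 : 0 ≤ nb) (hnb : nb ≤ cN) (hX's : X' ≤ s) (hX' : X' ≤ (P.X : ℝ) / U6)
    (hX11 : X' ≤ 11 / 1000) {t0 t1 b : ℝ} (ht : t1 ≤ X') (hρ : 0.0336054 + 0.3438 * t1 ≤ ρ)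
    {T0 C0 C1 C2 : Cor} {A0 B0 B1 B2 : List (ℕ × ℕ × ℕ)}
    (o0 : T0.ok 2040000 742000 243500 = true) (o1 : C0.ok 2040000 742000 243500 = true)
    (o2 : C1.ok 2040000 742000 243500 = true) (o3 : C2.ok 2040000 742000 243500 = true)
    (q0 : tab12F P 0 (A0.map altOf) 0 1000000 T0 = true)
    (q1 : tab12F P 1 (B0.map altOf) 0 125000 C0 = true)
    (q2 : tab12F P 1 (B1.map altOf) 125000 875000 C1 = true)
    (q3 : tab12F P 1 (B2.map altOf) 875000 1000000 C2 = true)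
    (h0 : T0.h = 0) (h1 : C0.h = 0) (h2 : C1.h = 0) (h3 : C2.h = 0)
    {Pl Dl W1 W2 W3 : List ℕ} (e0 : ∀ i, T0.w i = Pl.getD i 0) (e1 : ∀ i, C0.w i = W1.getD i 0)
    (e2 : ∀ i, C1.w i = W2.getD i 0) (e3 : ∀ i, C2.w i = W3.getD i 0)
    (m1 : wck Pl Dl W1 = true) (m2 : wck Pl Dl W2 = true) (m3 : wck Pl Dl W3 = true)
    {X u0 u1 u2 : ℕ} (hX : P.X = X) (hf : fck Pl Dl X u0 u1 u2 = true)
    (hb : (u1 : ℝ) / 1000000000 + 3 * ((u2 : ℝ) / 1000000000) + 4 * ((u0 : ℝ) / 1000000000) / t0 ≤ b) :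
    WS ρ t0 t1 b := by
  subst hX
  have hU : (U6 : ℝ) = 1000000 := by norm_num [U6]
  have hU' : (U6 : ℕ) = 1000000 := rfl
  refine ws_tab hP hφ ha0 ha1 hTm hTm2 hcN1 R1 hnb0 hnb hX's hX' hX11 ht hρ
    (T0 := T0) (T1 := ![C0, C1, C2]) (As0 := A0.map altOf)
    (As1 := ![B0.map altOf, B1.map altOf, B2.map altOf]) (lo := ![0, 125000, 875000])
    (hi := ![125000, 875000, 1000000]) o0 ?_ (by rw [hU']; exact q0) ?_ h0 ?_
    (numF_fck hP.Xp ?_ hf (fun v _ => (e0 v).le) ?_) hb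
  · intro e
    fin_cases e
    exacts [o1, o2, o3]
  · intro e
    fin_cases e
    exacts [q1, q2, q3]
  · intro e
    fin_cases e
    exacts [h1, h2, h3]
  · intro p p0 p1
    rw [hU]
    rcases le_total p (1 / 8) with h | h
    · exact ⟨0, by simpa using p0, by
        show p ≤ ((125000 : ℕ) : ℝ) / 1000000
        norm_num
        linarith⟩
    · rcases le_total p (7 / 8) with h' | h'
      · exact ⟨1, by
          show ((125000 : ℕ) : ℝ) / 1000000 ≤ p
          norm_num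
          linarith, by
          show p ≤ ((875000 : ℕ) : ℝ) / 1000000
          norm_num
          linarith⟩
      · exact ⟨2, by
          show ((875000 : ℕ) : ℝ) / 1000000 ≤ p
          norm_num
          linarith, by
          show p ≤ ((1000000 : ℕ) : ℝ) / 1000000
          norm_num
          linarith⟩
  · intro e v hv
    fin_cases e
    · exact (e1 v).le.trans (wck_le m1 v hv)
    · exact (e2 v).le.trans (wck_le m2 v hv)
    · exact (e3 v).le.trans (wck_le m3 v hv)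

end Helper78.MEI
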