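import Pool.Agent.Helper78.MEI.WB13

/-!
# Project MEI (M2), w-term: the deficit through the contact weights (F3)

For every `θ` in `[0, 1]` the plain deficit at the corner `i` is at most
`κ (1 - θ) n_i (1 - x - y) + max (κ θ) (κ n_j + Ca) x + max (κ θ) (κ n_l + Ca) y` plus the apex:
`DM_X`, `dfx_le`.
-/

set_option autoImplicit false

namespace Helper78.MEI

open Set Metric MeasureTheory Helper80.CW Helper82.CW Helper14.CW Helper93.MEI Helper82.M2
open Helper14.MEI2 Pool.Agent.Helper52.MEI Pool.Agent.Helper73.MEI Helper41.MEI Helper99.MEI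
open Pool.Agent.Helper55.Sx (Sim Sim_meas)
open Pool.Agent.Helper55.Mass (LN LN_nonneg vv vv_nonneg vv_le Id)
open Pool.Agent.Helper55.Apex (nc vt_vv)
open Pool.Agent.Helper55.ApexP (PN alP alP_nonneg alP_zeta alP_le xx_mu mu_bal)
open Pool.Agent.Helper55.Fill (xx rr rr_nonneg xx_nonneg xx_le xx_feas)
open Pool.Agent.Helper73.MEI.SideP (flP flP_nonneg flP_zero flP_pair)
open Pool.Agent.Helper96.Kap (kap kap_nonneg kap_add)
open Pool.Agent.Helper31.SR
open Helper75.MEI2 (mu vt)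
open Helper33.MEI (Wi Dl tx M3 mt mt_pos)
open scoped RealInnerProductSpace ENNReal

section deficit
variable {ι : Type*} [Fintype ι] {N : Fin 3 → Fin 3 → ℝ} {al : ι → ℝ × ℝ → ℝ}
  {ζ : ι → Fin 3 → ℝ} {μx : ι → ℝ} {μ : Fin 3 → ℝ} {α g : Fin 3 → ℝ × ℝ → ℝ}
  {M : Fin 3 → Fin 3 → ℝ} {sm : Fin 3 → ℝ}

/-- **the exact deficit of a general certificate**, `1 + nc - μ ≤ κ nc` -/
theorem Dg_leX {κ : ℝ} (hμ : ∀ k, 1 + nc N k - μ k ≤ κ * nc N k) {t : ℝ × ℝ}
    (hx : ∀ k, ∑ m, al m t * ζ m k + ∑ l, α l t * M l k ≤ xx N (vv t) k) :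
    Dg N al ζ μ μx α g M sm t ≤ κ * (xx N (vv t) 0 * nc N 0 + xx N (vv t) 1 * nc N 1
        + xx N (vv t) 2 * nc N 2)
      + ∑ m, al m t * ((∑ k, (ζ m k + (1 - κ) * LN N (ζ m) k)) - μx m)
      + ∑ l, α l t * ((∑ k, (M l k + (1 - κ) * LN N (M l) k)) - sm l)
      + ∑ l, ((M l 0 + M l 1 + M l 2) - sm l) * g l t := by
  have h2 : ∀ k, (xx N (vv t) k - (∑ m, al m t * ζ m k + ∑ l, α l t * M l k)) *
      (1 + nc N k - μ k) ≤
      (xx N (vv t) k - (∑ m, al m t * ζ m k + ∑ l, α l t * M l k)) * (κ * nc N k) := fun k =>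
    mul_le_mul_of_nonneg_left (hμ k) (by have := hx k; linarith)
  have e1 : ∀ (z : Fin 3 → ℝ), z 0 * nc N 0 + z 1 * nc N 1 + z 2 * nc N 2 =
      LN N z 0 + LN N z 1 + LN N z 2 := fun z => sum_nc N z
  have hm : ∀ m, al m t * ((∑ k, (ζ m k + LN N (ζ m) k)) - μx m) -
      κ * (al m t * ζ m 0 * nc N 0 + al m t * ζ m 1 * nc N 1 + al m t * ζ m 2 * nc N 2) =
      al m t * ((∑ k, (ζ m k + (1 - κ) * LN N (ζ m) k)) - μx m) := by
    intro m
    have := e1 (ζ m)
    simp only [Fin.sum_univ_three]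
    linear_combination (-(κ * al m t)) * this
  have hl : ∀ l, α l t * ((∑ k, (M l k + LN N (M l) k)) - sm l) -
      κ * (α l t * M l 0 * nc N 0 + α l t * M l 1 * nc N 1 + α l t * M l 2 * nc N 2) =
      α l t * ((∑ k, (M l k + (1 - κ) * LN N (M l) k)) - sm l) := by
    intro l
    have := e1 (M l)
    simp only [Fin.sum_univ_three]
    linear_combination (-(κ * α l t)) * this
  have s1 : ∑ m, al m t * ((∑ k, (ζ m k + (1 - κ) * LN N (ζ m) k)) - μx m) =
      ∑ m, al m t * ((∑ k, (ζ m k + LN N (ζ m) k)) - μx m) -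
        κ * ((∑ m, al m t * ζ m 0) * nc N 0 + (∑ m, al m t * ζ m 1) * nc N 1
          + (∑ m, al m t * ζ m 2) * nc N 2) := by
    rw [← Finset.sum_congr rfl fun m _ => hm m, Finset.sum_sub_distrib, ← Finset.mul_sum,
      Finset.sum_add_distrib, Finset.sum_add_distrib, Finset.sum_mul, Finset.sum_mul,
      Finset.sum_mul]
  have s2 : ∑ l, α l t * ((∑ k, (M l k + (1 - κ) * LN N (M l) k)) - sm l) =
      ∑ l, α l t * ((∑ k, (M l k + LN N (M l) k)) - sm l) -
        κ * ((∑ l, α l t * M l 0) * nc N 0 + (∑ l, α l t * M l 1) * nc N 1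
          + (∑ l, α l t * M l 2) * nc N 2) := by
    rw [← Finset.sum_congr rfl fun l _ => hl l, Finset.sum_sub_distrib, ← Finset.mul_sum,
      Finset.sum_add_distrib, Finset.sum_add_distrib, Finset.sum_mul, Finset.sum_mul,
      Finset.sum_mul]
  rw [s1, s2]
  have g0 := h2 0
  have g1 := h2 1
  have g2 := h2 2
  unfold Dg
  rw [Fin.sum_univ_three (f := fun k => (xx N (vv t) k -
    (∑ m, al m t * ζ m k + ∑ l, α l t * M l k)) * (1 + nc N k - μ k))]
  linarith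

end deficit

section abs
variable {N : Fin 3 → Fin 3 → ℝ} (hN : ∀ k m, 0 ≤ N k m) (hd : ∀ k, N k k = 0) {c : ℝ}
  (hc : c < 1) (hcol : ∀ m, nc N m ≤ c)
include hN hd hc hcol

/-- the plain deficit through the contact weights -/
theorem DM_le_X {κ : ℝ} {μ : Fin 3 → ℝ}
    (hμ : ∀ k, 1 + nc N k - μ k ≤ κ * nc N k)
    {A' φ lam : ℝ} (hA' : 0 < A') (hφ : 0 < φ) (hl0 : 0 ≤ lam) (hl1 : lam ≤ 1 - φ)
    {ζ ζp : Fin 3 → ℝ} (hζp : ∀ k, 0 < ζp k) (hζ : ∀ k, ζ k ≤ ζp k)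
    {β ρ : Fin 3 → ℝ} (hβ1 : ∀ p, β p ≤ 1) (hρ : ∀ p, 0 < ρ p)
    {M : Fin 3 → Fin 3 → ℝ} (hMd : ∀ p, M p p = 0) (hMρ : ∀ p k, k ≠ p → M p k ≤ ρ p)
    (hF : ∀ p, (1 - β p) * ρ p ≤ φ * (A' * Id (flP (PN N) p)))
    {kf : Fin 3 → ℝ × ℝ → ℝ} {sm : Fin 3 → ℝ} {t : ℝ × ℝ} (ht : t ∈ Sim) :
    DM A' N ζ ζp lam (fun p t => φ * flP (PN N) p t) kf β M μ sm t ≤
      κ * (xx N (vv t) 0 * nc N 0 + xx N (vv t) 1 * nc N 1 + xx N (vv t) 2 * nc N 2)
      + lam * alP N ζp t * ((∑ k, (ζ k + (1 - κ) * LN N ζ k)) - 1)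
      + ∑ p, ash (fun p t => φ * flP (PN N) p t) (fun p => Id (fun t => φ * flP (PN N) p t)) β A'
          p t * ((∑ k, (M p k + (1 - κ) * LN N (M p) k)) - sm p)
      + ∑ p, ((M p 0 + M p 1 + M p 2) - sm p) * ast kf (fun p => Id (kf p)) β A' p t := by
  have hF0 : ∀ p, 0 < Id (flP (PN N) p) := fun p => by
    have h1 := Pool.Agent.Helper73.MEI.SideP.flN_mass hN hd hc hcol p
    have h2 := Pool.Agent.Helper55.ApexP.PN_det_pos hN hd hc hcol
    have h3 := Pool.Agent.Helper73.MEI.SideP.mbN_ge hN p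
    refine lt_of_lt_of_le ?_ h1
    have h4 : 0 < Pool.Agent.Helper73.MEI.SideP.mbN N p := by linarith
    positivity
  have eI : ∀ p, Id (fun t => φ * flP (PN N) p t) = φ * Id (flP (PN N) p) := fun p =>
    Pool.Agent.Helper55.Mass.Id_const φ _
  have hF0' : ∀ p, 0 < Id (fun t => φ * flP (PN N) p t) := fun p => by
    rw [eI]
    exact mul_pos hφ (hF0 p)
  have hF' : ∀ p, (1 - β p) * ρ p ≤ A' * Id (fun t => φ * flP (PN N) p t) := fun p => by
    rw [eI]
    have := hF p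
    linarith
  have hf0 : ∀ p, ∀ t, 0 ≤ φ * flP (PN N) p t := fun p t => mul_nonneg hφ.le (flP_nonneg p t)
  have hMρ' : ∀ p k, M p k ≤ ρ p := fun p k => by
    by_cases h : k = p
    · rw [h, hMd]
      exact (hρ p).le
    · exact hMρ p k h
  have hx : ∀ k, ∑ m : Unit, lam * alP N ζp t * ζ k +
      ∑ p, ash (fun p t => φ * flP (PN N) p t) (fun p => Id (fun t => φ * flP (PN N) p t)) β A'
        p t * M p k ≤ xx N (vv t) k := by
    intro k
    simp only [Finset.univ_unique, Finset.sum_singleton]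
    refine ash_feas4 (F := fun p => Id (fun t => φ * flP (PN N) p t)) hN hd hc hcol hζp hζ
      (hf := fun p t => φ * flP (PN N) p t) hf0
      (fun p t ht => by
        show φ * flP (PN N) p t = 0
        rw [flP_zero (by push Not at ht; exact ht) p, mul_zero])
      (fun t ht k => by
        obtain ⟨p0, p1, p2⟩ := flP_pair (P := PN N) ht
        have ha := mul_le_mul_of_nonneg_left (alP_zeta hζp ht k) hl0
        have ha2 := mul_le_mul_of_nonneg_right hl1 (ht k)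
        have hfk : (flP (PN N) 0 t + flP (PN N) 1 t + flP (PN N) 2 t) - flP (PN N) k t ≤
            mu (PN N) (vt t) k := by
          fin_cases k
          · simp only [Fin.zero_eta]
            linarith
          · simp only [Fin.mk_one]
            linarith
          · simp only [Fin.reduceFinMk]
            linarith
        have hfk' := mul_le_mul_of_nonneg_left hfk hφ.le
        linarith) hl0 hA' hF0' hβ1 hF' hMd hMρ' ht k
  have key := Dg_leX (ι := Unit) (al := fun _ t => lam * alP N ζp t) (ζ := fun _ => ζ)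
    (μx := fun _ => 1) (sm := sm) (g := ast kf (fun p => Id (kf p)) β A') hμ hx
  simp only [Finset.univ_unique, Finset.sum_singleton] at key
  unfold DM
  exact key

/-- the arcs through the contact weights, no residual arcs -/
theorem arcs_X {κ : ℝ} (hκ1 : κ ≤ 1) {cN : ℝ} (hcN : ∀ m, nc N m ≤ cN)
    {A' φ : ℝ} (hA' : 0 < A') (hφ : 0 < φ)
    {β ρ : Fin 3 → ℝ} (hβ1 : ∀ p, β p ≤ 1) (hρ : ∀ p, 0 < ρ p)
    {M : Fin 3 → Fin 3 → ℝ} (hM0 : ∀ p k, 0 ≤ M p k) (hMd : ∀ p, M p p = 0)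
    (hMρ : ∀ p k, k ≠ p → M p k ≤ ρ p)
    (hF : ∀ p, (1 - β p) * ρ p ≤ φ * (A' * Id (flP (PN N) p)))
    {am dm : Fin 3 → ℝ} {ω η : ℝ} (hω0 : 0 ≤ ω) (hη0 : 0 ≤ η)
    (hω : ∀ p, (M p 0 + M p 1 + M p 2) - am p ≤ ω * (M p 0 + M p 1 + M p 2))
    (hη : ∀ p, dm p ≤ η * ρ p)
    {Ca : ℝ} (hC1 : φ * (2 * ω + η + 2 * (1 - κ) * cN) ≤ Ca)
    {t : ℝ × ℝ} (ht : t ∈ Sim) {i j l : Fin 3} (hij : i ≠ j) (hil : i ≠ l) (hjl : j ≠ l) :
    ∑ p, ash (fun p t => φ * flP (PN N) p t) (fun p => Id (fun t => φ * flP (PN N) p t)) β A'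
        p t * ((∑ k, (M p k + (1 - κ) * LN N (M p) k)) - (am p - dm p)) ≤
      Ca * (xx N (vv t) j + xx N (vv t) l) := by
  have hb : ∀ k, 0 ≤ vv t k := fun k => vv_nonneg ht k
  have hF0 : ∀ p, 0 < Id (flP (PN N) p) := fun p => by
    have h1 := Pool.Agent.Helper73.MEI.SideP.flN_mass hN hd hc hcol p
    have h2 := Pool.Agent.Helper55.ApexP.PN_det_pos hN hd hc hcol
    have h3 := Pool.Agent.Helper73.MEI.SideP.mbN_ge hN p
    refine lt_of_lt_of_le ?_ h1
    have h4 : 0 < Pool.Agent.Helper73.MEI.SideP.mbN N p := by linarith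
    positivity
  have eI : ∀ p, Id (fun t => φ * flP (PN N) p t) = φ * Id (flP (PN N) p) := fun p =>
    Pool.Agent.Helper55.Mass.Id_const φ _
  have hF0' : ∀ p, 0 < Id (fun t => φ * flP (PN N) p t) := fun p => by
    rw [eI]
    exact mul_pos hφ (hF0 p)
  have hF' : ∀ p, (1 - β p) * ρ p ≤ A' * Id (fun t => φ * flP (PN N) p t) := fun p => by
    rw [eI]
    have := hF p
    linarith
  have hf0 : ∀ p, ∀ t, 0 ≤ φ * flP (PN N) p t := fun p t => mul_nonneg hφ.le (flP_nonneg p t)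
  have hMρ' : ∀ p k, M p k ≤ ρ p := fun p k => by
    by_cases h : k = p
    · rw [h, hMd]
      exact (hρ p).le
    · exact hMρ p k h
  have cN0 : 0 ≤ cN := by
    refine le_trans ?_ (hcN 0)
    unfold nc
    have := hN 0 0
    have := hN 1 0
    have := hN 2 0
    linarith
  -- the weights of the arcs
  obtain ⟨α, hα⟩ : ∃ α : Fin 3 → ℝ × ℝ → ℝ,
      α = ash (fun p t => φ * flP (PN N) p t) (fun p => Id (fun t => φ * flP (PN N) p t)) β A' :=
    ⟨_, rfl⟩
  have α0 : ∀ p, 0 ≤ α p t := fun p => by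
    rw [hα]
    exact ash_nonneg hf0 hA' hF0' hβ1 p t
  have αρ : ∀ p, α p t * ρ p ≤ φ * flP (PN N) p t := fun p => by
    have hAF : 0 < A' * Id (fun t => φ * flP (PN N) p t) := mul_pos hA' (hF0' p)
    have q0 : 0 ≤ φ * flP (PN N) p t / (A' * Id (fun t => φ * flP (PN N) p t)) :=
      div_nonneg (hf0 p t) hAF.le
    have q1 := mul_le_mul_of_nonneg_left (hF' p) q0
    have q2 : φ * flP (PN N) p t / (A' * Id (fun t => φ * flP (PN N) p t)) *
        (A' * Id (fun t => φ * flP (PN N) p t)) = φ * flP (PN N) p t :=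
      div_mul_cancel₀ _ hAF.ne'
    rw [hα]
    unfold ash
    linarith
  -- arcs
  have M2 : ∀ p, M p 0 + M p 1 + M p 2 ≤ 2 * ρ p := by
    intro p
    have m0 := hMρ' p 0
    have m1 := hMρ' p 1
    have m2 := hMρ' p 2
    have md := hMd p
    fin_cases p
    · simp only [Fin.zero_eta] at m0 m1 m2 md ⊢
      linarith
    · simp only [Fin.mk_one] at m0 m1 m2 md ⊢
      linarith
    · simp only [Fin.reduceFinMk] at m0 m1 m2 md ⊢
      linarith
  have C1n : 0 ≤ 2 * ω + η + 2 * (1 - κ) * cN := by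
    have := mul_nonneg (sub_nonneg.2 hκ1) cN0
    linarith
  have arcF : ∀ p, α p t * ((∑ k, (M p k + (1 - κ) * LN N (M p) k)) - (am p - dm p)) ≤
      (2 * ω + η + 2 * (1 - κ) * cN) * (φ * flP (PN N) p t) := by
    intro p
    have q1 : (∑ k, (M p k + (1 - κ) * LN N (M p) k)) - (am p - dm p) ≤
        (2 * ω + η + 2 * (1 - κ) * cN) * ρ p := by
      have s1 := sum_nc N (M p)
      have s2 := hω p
      have s3 := hη p
      have s4 := M2 p
      have s5 : M p 0 * nc N 0 + M p 1 * nc N 1 + M p 2 * nc N 2 ≤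
          cN * (M p 0 + M p 1 + M p 2) := by
        have k0 := mul_le_mul_of_nonneg_left (hcN 0) (hM0 p 0)
        have k1 := mul_le_mul_of_nonneg_left (hcN 1) (hM0 p 1)
        have k2 := mul_le_mul_of_nonneg_left (hcN 2) (hM0 p 2)
        linarith
      have s6 := mul_le_mul_of_nonneg_left s4 hω0
      have s7 := mul_le_mul_of_nonneg_left s4 cN0
      have s8 := mul_le_mul_of_nonneg_left (s5.trans s7) (sub_nonneg.2 hκ1)
      rw [s1] at s8
      simp only [Fin.sum_univ_three]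
      linarith
    have q2 := mul_le_mul_of_nonneg_left q1 (α0 p)
    have q3 := mul_le_mul_of_nonneg_left (αρ p) C1n
    linarith
  have sF : ∑ p, α p t * ((∑ k, (M p k + (1 - κ) * LN N (M p) k)) - (am p - dm p)) ≤
      Ca * (xx N (vv t) j + xx N (vv t) l) := by
    have a1 := Finset.sum_le_sum (s := Finset.univ) fun p _ => arcF p
    refine a1.trans ?_
    rw [Fin.sum_univ_three (f := fun p => (2 * ω + η + 2 * (1 - κ) * cN) * (φ * flP (PN N) p t)),
      sum3 (fun p => (2 * ω + η + 2 * (1 - κ) * cN) * (φ * flP (PN N) p t)) hij hil hjl]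
    have b1 := flP_xx hN hd hc hcol ht hij hil hjl
    have b2 := flP_xx hN hd hc hcol ht hil hij hjl.symm
    have b3 := flP_nonneg (P := PN N) i t
    have b4 : flP (PN N) i t + flP (PN N) j t + flP (PN N) l t ≤
        xx N (vv t) j + xx N (vv t) l := by linarith
    have b5 := mul_le_mul_of_nonneg_left b4 (mul_nonneg hφ.le C1n)
    have b6 := mul_le_mul_of_nonneg_right hC1
      (add_nonneg (xx_nonneg hN hc hcol hb j) (xx_nonneg hN hc hcol hb l))
    linarith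
  rw [hα] at sF
  exact sF

/-- **the deficit through the contact weights is at most every mixture** -/
theorem dfx_le {κ Ca θ : ℝ} (hκ : 0 ≤ κ) (h0 : 0 ≤ θ) (h1 : θ ≤ 1)
    {t : ℝ × ℝ} (ht : t ∈ Sim) {i j l : Fin 3} (hij : i ≠ j) (hil : i ≠ l) (hjl : j ≠ l) :
    κ * (xx N (vv t) 0 * nc N 0 + xx N (vv t) 1 * nc N 1 + xx N (vv t) 2 * nc N 2)
        + Ca * (xx N (vv t) j + xx N (vv t) l) ≤
      κ * ((1 - θ) * (nc N i * vv t i)) + max (κ * θ) (κ * nc N j + Ca) * vv t j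
        + max (κ * θ) (κ * nc N l + Ca) * vv t l := by
  have hb : ∀ k, 0 ≤ vv t k := fun k => vv_nonneg ht k
  have X0 := fun k => xx_nonneg hN hc hcol hb k
  have X1 := fun k => xx_le hN hc hcol hb k
  have X2 := fun k => xx_feas hN hc hcol hb k
  have e : ∀ k, LN N (xx N (vv t)) k =
      N k i * xx N (vv t) i + N k j * xx N (vv t) j + N k l * xx N (vv t) l := fun k =>
    LN3 N (xx N (vv t)) k hij hil hjl
  have en : ∀ m, nc N m = N i m + N j m + N l m := fun m => by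
    unfold nc
    exact sum3 (fun k => N k m) hij hil hjl
  rw [sum3 (fun k => xx N (vv t) k * nc N k) hij hil hjl]
  obtain ⟨xi, hxi⟩ : ∃ u, u = xx N (vv t) i := ⟨_, rfl⟩
  obtain ⟨xj, hxj⟩ : ∃ u, u = xx N (vv t) j := ⟨_, rfl⟩
  obtain ⟨xl, hxl⟩ : ∃ u, u = xx N (vv t) l := ⟨_, rfl⟩
  have i0 := X0 i
  have j0 := X0 j
  have l0 := X0 l
  have i1 := X1 i
  have j1 := X1 j
  have l1 := X1 l
  have fj := X2 j
  have fl := X2 l
  rw [e] at fj fl
  have dj := hd j
  have dl := hd l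
  have di := hd i
  rw [dj, zero_mul, add_zero] at fj
  rw [dl, zero_mul] at fl
  rw [← hxi] at i0 i1 fj fl ⊢
  rw [← hxj] at j0 j1 fj fl ⊢
  rw [← hxl] at l0 l1 fj fl ⊢
  have ni : nc N i = N j i + N l i := by rw [en, di]; ring
  have nn0 : 0 ≤ nc N i := by
    rw [ni]
    exact add_nonneg (hN _ _) (hN _ _)
  have a1 : (1 - θ) * (nc N i * xi) ≤ (1 - θ) * (nc N i * vv t i) :=
    mul_le_mul_of_nonneg_left (mul_le_mul_of_nonneg_left i1 nn0) (sub_nonneg.2 h1)
  have a2 : nc N i * xi ≤ (vv t j - xj) + (vv t l - xl) := by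
    have b1 := mul_nonneg (hN j l) l0
    have b2 := mul_nonneg (hN l j) j0
    rw [ni]
    linarith
  have a3 := mul_le_mul_of_nonneg_left a2 h0
  have a4 := mul_le_mul_of_nonneg_left (add_le_add a1 a3) hκ
  obtain ⟨mj, hmj⟩ : ∃ u, u = max (κ * θ) (κ * nc N j + Ca) := ⟨_, rfl⟩
  obtain ⟨ml, hml⟩ : ∃ u, u = max (κ * θ) (κ * nc N l + Ca) := ⟨_, rfl⟩
  have m1 : κ * θ ≤ mj := by rw [hmj]; exact le_max_left _ _
  have m2 : κ * nc N j + Ca ≤ mj := by rw [hmj]; exact le_max_right _ _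
  have m3 : κ * θ ≤ ml := by rw [hml]; exact le_max_left _ _
  have m4 : κ * nc N l + Ca ≤ ml := by rw [hml]; exact le_max_right _ _
  rw [← hmj, ← hml]
  have c1 := mul_le_mul_of_nonneg_right m1 (sub_nonneg.2 j1)
  have c2 := mul_le_mul_of_nonneg_right m2 j0
  have c3 := mul_le_mul_of_nonneg_right m3 (sub_nonneg.2 l1)
  have c4 := mul_le_mul_of_nonneg_right m4 l0
  linarith

end abs

end Helper78.MEI
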