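import Pool.Agent.Helper78.MEI.WB16

/-!
# Project MEI (M2), w-term: the cost of a face from the tables with the vectors F3

`vckG`, `tab12G` = the contract with the vectors `k ≥ K (1 - θ) n_k`,
`j ≥ max (K θ) (K n_j + c0 + c1 T) + b hl ax`, `l ≥ max (K θ) (K n_l + c0 + c1 T) + b hl ay`;
every table of the contract `tab12F` satisfies it (`tab12F_G`); `face_twoG`, `wokg_tabG`.
-/

set_option autoImplicit false

namespace Helper78.MEI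

open Set Metric MeasureTheory Helper80.CW Helper82.CW Helper14.CW Helper93.MEI Helper82.M2
open Helper14.MEI2 Pool.Agent.Helper52.MEI Pool.Agent.Helper73.MEI Helper41.MEI
open Helper99.MEI (sum3 vv_sum MB_def)
open Pool.Agent.Helper55.Sx (Sim Sim_meas)
open Pool.Agent.Helper55.Mass (LN LN_nonneg vv vv_nonneg vv_le)
open Pool.Agent.Helper55.Apex (nc vt_vv)
open Pool.Agent.Helper55.Fill (xx rr rr_nonneg xx_nonneg xx_le xx_feas)
open Pool.Agent.Helper55.ApexP (PN alP alP_nonneg alP_zeta alP_le xx_mu mu_bal)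
open Pool.Agent.Helper73.MEI.SideP (flP)
open Pool.Agent.Helper73.MEI.ArCor (phiN)
open Pool.Agent.Helper96.Kap (kap)
open Pool.Agent.Helper31.SR
open Helper33.MEI (Wi Dl tx M3 mt mt_pos)
open Helper60.R7 (U U_pos jj ll T3_pos' T3_sum)
open Helper60.R8 (Row Ld Cor P3 zR zL z3 afr sS sAf)
open scoped RealInnerProductSpace ENNReal

/-! ### The contract -/

/-- check of one vector at the vertex `v` with the bit `b`, form F3 -/
def vckG (P : Par) (A : Alt) (v b k j l : ℕ) : Bool :=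
  Nat.ble (P.K * ((U6 - A.th) * P.nI v)) (k * (U6 * U6)) &&
  Nat.ble (P.K * (A.th * U6) + U6 * (b * (P.hl * A.ax))) (j * (U6 * U6)) &&
  Nat.ble (P.K * (U6 * P.nJ v) +
    U6 * (P.c0 * U6 + P.c1 * (P.nI v + P.nJ v + P.nL v)) + U6 * (b * (P.hl * A.ax)))
    (j * (U6 * U6)) &&
  Nat.ble (P.K * (A.th * U6) + U6 * (b * (P.hl * A.ay))) (l * (U6 * U6)) &&
  Nat.ble (P.K * (U6 * P.nL v) +
    U6 * (P.c0 * U6 + P.c1 * (P.nI v + P.nJ v + P.nL v)) + U6 * (b * (P.hl * A.ay)))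
    (l * (U6 * U6))

theorem vckF_G {P : Par} {A : Alt} {v b k j l : ℕ} (h : vckF P A v b k j l = true) :
    vckG P A v b k j l = true := by
  unfold vckF at h
  unfold vckG
  simp only [Bool.and_eq_true, Nat.ble_eq, Nat.mul_add] at h ⊢
  obtain ⟨⟨h1, h2⟩, h3⟩ := h
  exact ⟨⟨⟨⟨h1, by omega⟩, by omega⟩, by omega⟩, by omega⟩

/-- **meaning of the check of a vector** -/
theorem vckG_le {P : Par} {A : Alt} {v b k j l : ℕ} (hA : A.th ≤ U6)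
    (h : vckG P A v b k j l = true) :
    (P.K : ℝ) / U6 * ((1 - (A.th : ℝ) / U6) * ((P.nI v : ℝ) / U6)) ≤ (k : ℝ) / U6 ∧
    (P.K : ℝ) / U6 * ((A.th : ℝ) / U6) + (b : ℝ) * ((P.hl : ℝ) / U6 * ((A.ax : ℝ) / U6)) ≤
      (j : ℝ) / U6 ∧
    (P.K : ℝ) / U6 * ((P.nJ v : ℝ) / U6) + ((P.c0 : ℝ) / U6 + (P.c1 : ℝ) / U6 *
      ((P.nI v : ℝ) / U6 + (P.nJ v : ℝ) / U6 + (P.nL v : ℝ) / U6))
      + (b : ℝ) * ((P.hl : ℝ) / U6 * ((A.ax : ℝ) / U6)) ≤ (j : ℝ) / U6 ∧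
    (P.K : ℝ) / U6 * ((A.th : ℝ) / U6) + (b : ℝ) * ((P.hl : ℝ) / U6 * ((A.ay : ℝ) / U6)) ≤
      (l : ℝ) / U6 ∧
    (P.K : ℝ) / U6 * ((P.nL v : ℝ) / U6) + ((P.c0 : ℝ) / U6 + (P.c1 : ℝ) / U6 *
      ((P.nI v : ℝ) / U6 + (P.nJ v : ℝ) / U6 + (P.nL v : ℝ) / U6))
      + (b : ℝ) * ((P.hl : ℝ) / U6 * ((A.ay : ℝ) / U6)) ≤ (l : ℝ) / U6 := by
  have hU := U6_pos
  unfold vckG at h
  simp only [Bool.and_eq_true, Nat.ble_eq] at h
  obtain ⟨⟨⟨⟨h1, h2⟩, h3⟩, h4⟩, h5⟩ := h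
  have h1' : ((P.K * ((U6 - A.th) * P.nI v) : ℕ) : ℝ) ≤ ((k * (U6 * U6) : ℕ) : ℝ) := by
    exact_mod_cast h1
  have h2' : ((P.K * (A.th * U6) + U6 * (b * (P.hl * A.ax)) : ℕ) : ℝ) ≤
    ((j * (U6 * U6) : ℕ) : ℝ) := by exact_mod_cast h2
  have h3' : ((P.K * (U6 * P.nJ v) +
    U6 * (P.c0 * U6 + P.c1 * (P.nI v + P.nJ v + P.nL v)) + U6 * (b * (P.hl * A.ax)) : ℕ) : ℝ) ≤
    ((j * (U6 * U6) : ℕ) : ℝ) := by exact_mod_cast h3
  have h4' : ((P.K * (A.th * U6) + U6 * (b * (P.hl * A.ay)) : ℕ) : ℝ) ≤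
    ((l * (U6 * U6) : ℕ) : ℝ) := by exact_mod_cast h4
  have h5' : ((P.K * (U6 * P.nL v) +
    U6 * (P.c0 * U6 + P.c1 * (P.nI v + P.nJ v + P.nL v)) + U6 * (b * (P.hl * A.ay)) : ℕ) : ℝ) ≤
    ((l * (U6 * U6) : ℕ) : ℝ) := by exact_mod_cast h5
  push_cast [Nat.cast_sub hA] at h1' h2' h3' h4' h5'
  obtain ⟨K, eK⟩ : ∃ a, a = (P.K : ℝ) / U6 := ⟨_, rfl⟩
  obtain ⟨θ, eθ⟩ : ∃ a, a = (A.th : ℝ) / U6 := ⟨_, rfl⟩
  obtain ⟨ax, eax⟩ : ∃ a, a = (A.ax : ℝ) / U6 := ⟨_, rfl⟩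
  obtain ⟨ay, eay⟩ : ∃ a, a = (A.ay : ℝ) / U6 := ⟨_, rfl⟩
  obtain ⟨nI, eI⟩ : ∃ a, a = (P.nI v : ℝ) / U6 := ⟨_, rfl⟩
  obtain ⟨nJ, eJ⟩ : ∃ a, a = (P.nJ v : ℝ) / U6 := ⟨_, rfl⟩
  obtain ⟨nL, eL⟩ : ∃ a, a = (P.nL v : ℝ) / U6 := ⟨_, rfl⟩
  obtain ⟨c0, e0⟩ : ∃ a, a = (P.c0 : ℝ) / U6 := ⟨_, rfl⟩
  obtain ⟨c1, e1⟩ : ∃ a, a = (P.c1 : ℝ) / U6 := ⟨_, rfl⟩
  obtain ⟨hl, el⟩ : ∃ a, a = (P.hl : ℝ) / U6 := ⟨_, rfl⟩
  obtain ⟨kk, ek⟩ : ∃ a, a = (k : ℝ) / U6 := ⟨_, rfl⟩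
  obtain ⟨jj, ej⟩ : ∃ a, a = (j : ℝ) / U6 := ⟨_, rfl⟩
  obtain ⟨ll, ell⟩ : ∃ a, a = (l : ℝ) / U6 := ⟨_, rfl⟩
  have gen : ∀ (n : ℕ) (r : ℝ), r = (n : ℝ) / U6 → (n : ℝ) = r * U6 := fun n r h => by
    rw [h]
    field_simp
  rw [gen _ _ eK, gen _ _ eθ, gen _ _ eI, gen _ _ ek] at h1'
  rw [gen _ _ eK, gen _ _ eθ, gen _ _ el, gen _ _ eax, gen _ _ ej] at h2'
  rw [gen _ _ eK, gen _ _ eI, gen _ _ eJ, gen _ _ eL, gen _ _ e0, gen _ _ e1,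
    gen _ _ el, gen _ _ eax, gen _ _ ej] at h3'
  rw [gen _ _ eK, gen _ _ eθ, gen _ _ el, gen _ _ eay, gen _ _ ell] at h4'
  rw [gen _ _ eK, gen _ _ eI, gen _ _ eJ, gen _ _ eL, gen _ _ e0, gen _ _ e1,
    gen _ _ el, gen _ _ eay, gen _ _ ell] at h5'
  rw [← eK, ← eθ, ← eax, ← eay, ← eI, ← eJ, ← eL, ← e0, ← e1, ← el, ← ek, ← ej, ← ell]
  have hU3 : (0 : ℝ) < (U6 : ℝ) * U6 * U6 := by positivity
  refine ⟨?_, ?_, ?_, ?_, ?_⟩
  · refine le_of_mul_le_mul_left ?_ hU3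
    calc (U6 : ℝ) * U6 * U6 * (K * ((1 - θ) * nI)) =
        K * U6 * ((U6 - θ * U6) * (nI * U6)) := by ring
      _ ≤ kk * U6 * (U6 * U6) := h1'
      _ = _ := by ring
  · refine le_of_mul_le_mul_left ?_ hU3
    calc (U6 : ℝ) * U6 * U6 * (K * θ + b * (hl * ax)) =
        K * U6 * (θ * U6 * U6) + U6 * (b * (hl * U6 * (ax * U6))) := by ring
      _ ≤ jj * U6 * (U6 * U6) := h2'
      _ = _ := by ring
  · refine le_of_mul_le_mul_left ?_ hU3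
    calc (U6 : ℝ) * U6 * U6 * (K * nJ + (c0 + c1 * (nI + nJ + nL)) + b * (hl * ax)) =
        K * U6 * (U6 * (nJ * U6)) +
        U6 * (c0 * U6 * U6 + c1 * U6 * (nI * U6 + nJ * U6 + nL * U6)) +
        U6 * (b * (hl * U6 * (ax * U6))) := by ring
      _ ≤ jj * U6 * (U6 * U6) := h3'
      _ = _ := by ring
  · refine le_of_mul_le_mul_left ?_ hU3
    calc (U6 : ℝ) * U6 * U6 * (K * θ + b * (hl * ay)) =
        K * U6 * (θ * U6 * U6) + U6 * (b * (hl * U6 * (ay * U6))) := by ring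
      _ ≤ ll * U6 * (U6 * U6) := h4'
      _ = _ := by ring
  · refine le_of_mul_le_mul_left ?_ hU3
    calc (U6 : ℝ) * U6 * U6 * (K * nL + (c0 + c1 * (nI + nJ + nL)) + b * (hl * ay)) =
        K * U6 * (U6 * (nL * U6)) +
        U6 * (c0 * U6 * U6 + c1 * U6 * (nI * U6 + nJ * U6 + nL * U6)) +
        U6 * (b * (hl * U6 * (ay * U6))) := by ring
      _ ≤ ll * U6 * (U6 * U6) := h5'
      _ = _ := by ring

/-- the vectors of a row -/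
def altsckG (P : Par) (v b : ℕ) : List Alt → List Ld → Bool
  | [], _ => true
  | A :: As, d :: Ds => vckG P A v b d.D.k d.D.j d.D.l && altsckG P v b As Ds
  | _ :: _, [] => false

/-- one row -/
def rowckG (P : Par) (As : List Alt) (v b : ℕ) (R : Row) : Bool :=
  lv P.X (sd v) R.s && lv P.X (xd v) R.S.k && lv P.X (yd v) R.S.j && lv P.X (zd v) R.S.l &&
    altsckG P v b As R.ls

/-- the rows `12 b + v`, from the index `i` on -/
def rowsckG (P : Par) (As : List Alt) : ℕ → List Row → Bool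
  | _, [] => true
  | i, R :: Rs => rowckG P As (i % 12) (i / 12) R && rowsckG P As (i + 1) Rs

theorem altsckG_get {P : Par} {v b : ℕ} : ∀ {As : List Alt} {Ds : List Ld},
    altsckG P v b As Ds = true → ∀ i < As.length,
      vckG P (As.getD i zA) v b (Ds.getD i zL).D.k (Ds.getD i zL).D.j (Ds.getD i zL).D.l = true
  | [], _, _, i, hi => by simp at hi
  | A :: As, [], h, i, hi => by simp [altsckG] at h
  | A :: As, D :: Ds, h, i, hi => by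
    rw [altsckG, Bool.and_eq_true] at h
    cases i with
    | zero => simpa using h.1
    | succ i =>
      have := altsckG_get h.2 i (by simpa using hi)
      simpa using this

theorem rowsckG_get {P : Par} {As : List Alt} : ∀ {i0 : ℕ} {Rs : List Row},
    rowsckG P As i0 Rs = true → ∀ i < Rs.length,
      rowckG P As ((i0 + i) % 12) ((i0 + i) / 12) (Rs.getD i zR) = true
  | _, [], _, i, hi => by simp at hi
  | i0, R :: Rs, h, i, hi => by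
    rw [rowsckG, Bool.and_eq_true] at h
    cases i with
    | zero => simpa using h.1
    | succ i =>
      have := rowsckG_get h.2 i (by simpa using hi)
      rw [show i0 + 1 + i = i0 + (i + 1) by omega] at this
      simpa using this

theorem altsckF_G {P : Par} {v b : ℕ} : ∀ {As : List Alt} {Ds : List Ld},
    altsckF P v b As Ds = true → altsckG P v b As Ds = true
  | [], _, _ => rfl
  | A :: As, [], h => by simp [altsckF] at h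
  | A :: As, D :: Ds, h => by
    rw [altsckF, Bool.and_eq_true] at h
    rw [altsckG, Bool.and_eq_true]
    exact ⟨vckF_G h.1, altsckF_G h.2⟩

theorem rowckF_G {P : Par} {As : List Alt} {v b : ℕ} {R : Row} (h : rowckF P As v b R = true) :
    rowckG P As v b R = true := by
  unfold rowckF at h
  unfold rowckG
  simp only [Bool.and_eq_true] at h ⊢
  exact ⟨h.1, altsckF_G h.2⟩

theorem rowsckF_G {P : Par} {As : List Alt} : ∀ {i : ℕ} {Rs : List Row},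
    rowsckF P As i Rs = true → rowsckG P As i Rs = true
  | _, [], _ => rfl
  | i, R :: Rs, h => by
    rw [rowsckF, Bool.and_eq_true] at h
    rw [rowsckG, Bool.and_eq_true]
    exact ⟨rowckF_G h.1, rowsckF_G h.2⟩

/-- the value demanded from the mean of the vectors -/
noncomputable def demG (P : Par) (A : Alt) (NI NJ NL b x y : ℝ) : ℝ :=
  (P.K : ℝ) / U6 * ((1 - (A.th : ℝ) / U6) * NI) * (1 - x - y)
  + max ((P.K : ℝ) / U6 * ((A.th : ℝ) / U6))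
      ((P.K : ℝ) / U6 * NJ + ((P.c0 : ℝ) / U6 + (P.c1 : ℝ) / U6 * (NI + NJ + NL))) * x
  + max ((P.K : ℝ) / U6 * ((A.th : ℝ) / U6))
      ((P.K : ℝ) / U6 * NL + ((P.c0 : ℝ) / U6 + (P.c1 : ℝ) / U6 * (NI + NJ + NL))) * y
  + b * ((P.hl : ℝ) / U6 * ((A.ax : ℝ) / U6 * x + (A.ay : ℝ) / U6 * y))

/-- the table `Q` has the twelve rows of the bit `b` -/
def tab12G (P : Par) (b : ℕ) (As : List Alt) (p0 p1 : ℕ) (Q : Cor) : Bool :=
  Nat.beq Q.rows.length 12 && rowsckG P As (12 * b) Q.rows && (As.all fun A => A.ok p0 p1) &&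
    Nat.ble Q.nl As.length && Nat.ble Q.ne 0 && Nat.ble p0 p1 && Nat.ble p1 U6

section
variable {P : Par} {b : ℕ} {As : List Alt} {p0 p1 : ℕ} {Q : Cor}
  (h : tab12G P b As p0 p1 Q = true)
include h

theorem tab12G_iff : Q.rows.length = 12 ∧ (∀ v < 12, rowckG P As v b (Q.rows.getD v zR) = true) ∧
    (∀ i < As.length, (As.getD i zA).ok p0 p1 = true) ∧ Q.nl ≤ As.length ∧ Q.ne = 0 ∧ p0 ≤ p1 ∧
    p1 ≤ U6 := by
  unfold tab12G at h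
  simp only [Bool.and_eq_true, Nat.ble_eq, Nat.beq_eq, List.all_eq_true] at h
  obtain ⟨⟨⟨⟨⟨⟨h1, h2⟩, h3⟩, h4⟩, h5⟩, h6⟩, h7⟩ := h
  refine ⟨h1, fun v hv => ?_, fun i hi => ?_, h4, Nat.le_zero.1 h5, h6, h7⟩
  · have := rowsckG_get h2 v (by omega)
    rw [show (12 * b + v) % 12 = v by omega, show (12 * b + v) / 12 = b by omega] at this
    exact this
  · rw [List.getD_eq_getElem _ _ hi]
    exact h3 _ (List.getElem_mem hi)

/-- the rows majorise the violations and the level -/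
theorem tab12G_S (hX : 0 < P.X) {s x y z : ℝ} (hs : 0 ≤ s) (hx : 0 ≤ x) (hy : 0 ≤ y) (hz : 0 ≤ z)
    (hsum : s + x + y + z ≤ (P.X : ℝ) / U6) :
    SBd Q (lam12 ((P.X : ℝ) / U6) s x y z) x y z s := by
  have hU := U6_pos
  have hXp : (0 : ℝ) < (P.X : ℝ) / U6 := _root_.div_pos (Nat.cast_pos.2 hX) hU
  have hL := lam12_nonneg hXp hs hx hy hz hsum
  obtain ⟨hlen, r0, -⟩ := tab12G_iff h
  have un : ∀ v b R, rowckG P As v b R = true → lv P.X (sd v) R.s = true ∧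
      lv P.X (xd v) R.S.k = true ∧ lv P.X (yd v) R.S.j = true ∧ lv P.X (zd v) R.S.l = true := by
    intro v b R hR
    unfold rowckG at hR
    simp only [Bool.and_eq_true] at hR
    exact ⟨hR.1.1.1.1, hR.1.1.1.2, hR.1.1.2, hR.1.2⟩
  have key : ∀ (m f : ℕ → ℝ) (b : ℝ),
      ∑ v ∈ Finset.range 12, lam12 ((P.X : ℝ) / U6) s x y z v * ((P.X : ℝ) / U6 * m v) = b →
      (∀ v < 12, (P.X : ℝ) / U6 * m v ≤ f v) →
      b ≤ ∑ v ∈ Finset.range Q.rows.length, lam12 ((P.X : ℝ) / U6) s x y z v * f v := by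
    intro m f b hb hf
    rw [hlen, ← hb]
    exact Finset.sum_le_sum fun v hv =>
      mul_le_mul_of_nonneg_left (hf v (Finset.mem_range.1 hv)) (hL v)
  refine ⟨?_, ?_, ?_, ?_, ?_⟩
  · rw [hlen]
    exact lam12_one hXp
  · refine key _ _ _ (lam12_x hXp) fun v hv => ?_
    rw [x12_xd hv]
    exact lv_le (un _ _ _ (r0 v hv)).2.1
  · refine key _ _ _ (lam12_y hXp) fun v hv => ?_
    rw [y12_yd hv]
    exact lv_le (un _ _ _ (r0 v hv)).2.2.1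
  · refine key _ _ _ (lam12_z hXp) fun v hv => ?_
    rw [z12_zd hv]
    exact lv_le (un _ _ _ (r0 v hv)).2.2.2
  · refine key _ _ _ (lam12_s hXp) fun v hv => ?_
    rw [s12_sd hv]
    exact lv_le (un _ _ _ (r0 v hv)).1

/-- the demands through the loads -/
theorem tab12G_D {L : ℕ → ℝ} (hL : ∀ v, 0 ≤ L v) (h1 : ∑ v ∈ Finset.range 12, L v = 1) {x y : ℝ}
    (hx : 0 ≤ x) (hy : 0 ≤ y) (hxy : x + y ≤ 1) {li : ℕ} (hli : li < Q.nl) :
    demG P (As.getD li zA) (nh L P.nI) (nh L P.nJ) (nh L P.nL) b x y ≤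
      sAf Q.rows.length L (fun i => ((Q.rows.getD i zR).ls.getD li zL).D) x y := by
  obtain ⟨hlen, r0, hok, hnl, -⟩ := tab12G_iff h
  obtain ⟨A, eA⟩ : ∃ A, A = As.getD li zA := ⟨_, rfl⟩
  rw [← eA]
  have hA : A.th ≤ U6 := by
    have := hok li (by omega)
    rw [← eA] at this
    unfold Alt.ok at this
    simp only [Bool.and_eq_true, Nat.ble_eq] at this
    exact this.1.1
  have un : ∀ v b R, rowckG P As v b R = true → altsckG P v b As R.ls = true := by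
    intro v b R hR
    unfold rowckG at hR
    simp only [Bool.and_eq_true] at hR
    exact hR.2
  have vk : ∀ v < 12, _ := fun v hv =>
    vckG_le hA (by rw [eA]; exact altsckG_get (un _ _ _ (r0 v hv)) li (by omega))
  obtain ⟨D, eD⟩ : ∃ D : ℕ → P3, D = fun i => ((Q.rows.getD i zR).ls.getD li zL).D := ⟨_, rfl⟩
  have vk' : ∀ v < 12,
    (P.K : ℝ) / U6 * ((1 - (A.th : ℝ) / U6) * ((P.nI v : ℝ) / U6)) ≤ ((D v).k : ℝ) / U6 ∧
    (P.K : ℝ) / U6 * ((A.th : ℝ) / U6) + (b : ℝ) * ((P.hl : ℝ) / U6 * ((A.ax : ℝ) / U6)) ≤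
      ((D v).j : ℝ) / U6 ∧
    (P.K : ℝ) / U6 * ((P.nJ v : ℝ) / U6) + ((P.c0 : ℝ) / U6 + (P.c1 : ℝ) / U6 *
      ((P.nI v : ℝ) / U6 + (P.nJ v : ℝ) / U6 + (P.nL v : ℝ) / U6))
      + (b : ℝ) * ((P.hl : ℝ) / U6 * ((A.ax : ℝ) / U6)) ≤ ((D v).j : ℝ) / U6 ∧
    (P.K : ℝ) / U6 * ((A.th : ℝ) / U6) + (b : ℝ) * ((P.hl : ℝ) / U6 * ((A.ay : ℝ) / U6)) ≤
      ((D v).l : ℝ) / U6 ∧
    (P.K : ℝ) / U6 * ((P.nL v : ℝ) / U6) + ((P.c0 : ℝ) / U6 + (P.c1 : ℝ) / U6 *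
      ((P.nI v : ℝ) / U6 + (P.nJ v : ℝ) / U6 + (P.nL v : ℝ) / U6))
      + (b : ℝ) * ((P.hl : ℝ) / U6 * ((A.ay : ℝ) / U6)) ≤ ((D v).l : ℝ) / U6 := fun v hv => by
    rw [eD]
    exact vk v hv
  rw [← eD]
  obtain ⟨K, eK⟩ : ∃ a, a = (P.K : ℝ) / U6 := ⟨_, rfl⟩
  obtain ⟨θ, eθ⟩ : ∃ a, a = (A.th : ℝ) / U6 := ⟨_, rfl⟩
  obtain ⟨bx, ebx⟩ : ∃ a, a = (b : ℝ) * ((P.hl : ℝ) / U6 * ((A.ax : ℝ) / U6)) := ⟨_, rfl⟩
  obtain ⟨bY, ebY⟩ : ∃ a, a = (b : ℝ) * ((P.hl : ℝ) / U6 * ((A.ay : ℝ) / U6)) := ⟨_, rfl⟩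
  obtain ⟨c0, e0⟩ : ∃ a, a = (P.c0 : ℝ) / U6 := ⟨_, rfl⟩
  obtain ⟨c1, e1⟩ : ∃ a, a = (P.c1 : ℝ) / U6 := ⟨_, rfl⟩
  rw [← eK, ← eθ, ← ebx, ← ebY, ← e0, ← e1] at vk'
  -- a weighted sum of affine terms
  have ws : ∀ (f : ℕ → ℝ) (q qI qJ qL : ℝ), (∀ v < 12, q + qI * ((P.nI v : ℝ) / U6)
      + qJ * ((P.nJ v : ℝ) / U6) + qL * ((P.nL v : ℝ) / U6) ≤ f v) →
      q + qI * nh L P.nI + qJ * nh L P.nJ + qL * nh L P.nL ≤
        ∑ v ∈ Finset.range 12, L v * f v := by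
    intro f q qI qJ qL hf
    have := sum_aff h1 q qI qJ qL (fun v => (P.nI v : ℝ) / U6) (fun v => (P.nJ v : ℝ) / U6)
      (fun v => (P.nL v : ℝ) / U6)
    unfold nh
    rw [← this]
    exact Finset.sum_le_sum fun v hv =>
      mul_le_mul_of_nonneg_left (hf v (Finset.mem_range.1 hv)) (hL v)
  have w1 := ws (fun v => ((D v).k : ℝ) / U6) 0 (K * (1 - θ)) 0 0 fun v hv => by
    have := (vk' v hv).1
    linarith
  have w2 := ws (fun v => ((D v).j : ℝ) / U6) (K * θ + bx) 0 0 0 fun v hv => by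
    have := (vk' v hv).2.1
    linarith
  have w3 := ws (fun v => ((D v).j : ℝ) / U6) (c0 + bx) c1 (K + c1) c1 fun v hv => by
    have := (vk' v hv).2.2.1
    linarith
  have w4 := ws (fun v => ((D v).l : ℝ) / U6) (K * θ + bY) 0 0 0 fun v hv => by
    have := (vk' v hv).2.2.2.1
    linarith
  have w5 := ws (fun v => ((D v).l : ℝ) / U6) (c0 + bY) c1 c1 (K + c1) fun v hv => by
    have := (vk' v hv).2.2.2.2
    linarith
  have es : sAf Q.rows.length L D x y =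
      (∑ v ∈ Finset.range 12, L v * (((D v).k : ℝ) / U6)) * (1 - x - y)
      + (∑ v ∈ Finset.range 12, L v * (((D v).j : ℝ) / U6)) * x
      + (∑ v ∈ Finset.range 12, L v * (((D v).l : ℝ) / U6)) * y := by
    unfold sAf
    rw [hlen, Finset.sum_mul, Finset.sum_mul, Finset.sum_mul, ← Finset.sum_add_distrib,
      ← Finset.sum_add_distrib]
    refine Finset.sum_congr rfl fun v _ => ?_
    unfold afr
    show L v * (((D v).k : ℝ) / (U6 : ℝ) * (1 - x - y) + ((D v).j : ℝ) / (U6 : ℝ) * x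
      + ((D v).l : ℝ) / (U6 : ℝ) * y) = _
    ring
  rw [es]
  obtain ⟨SK, eSK⟩ : ∃ a, a = ∑ v ∈ Finset.range 12, L v * (((D v).k : ℝ) / U6) := ⟨_, rfl⟩
  obtain ⟨SJ, eSJ⟩ : ∃ a, a = ∑ v ∈ Finset.range 12, L v * (((D v).j : ℝ) / U6) := ⟨_, rfl⟩
  obtain ⟨SL, eSL⟩ : ∃ a, a = ∑ v ∈ Finset.range 12, L v * (((D v).l : ℝ) / U6) := ⟨_, rfl⟩
  rw [← eSK] at w1
  rw [← eSJ] at w2 w3
  rw [← eSL] at w4 w5
  rw [← eSK, ← eSJ, ← eSL]
  unfold demG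
  rw [← eK, ← eθ, ← e0, ← e1]
  have g1 : max (K * θ) (K * nh L P.nJ + (c0 + c1 * (nh L P.nI + nh L P.nJ + nh L P.nL))) ≤
      SJ - bx := max_le (by linarith) (by linarith)
  have g2 : max (K * θ) (K * nh L P.nL + (c0 + c1 * (nh L P.nI + nh L P.nJ + nh L P.nL))) ≤
      SL - bY := max_le (by linarith) (by linarith)
  have k1 := mul_le_mul_of_nonneg_right w1 (show 0 ≤ 1 - x - y by linarith)
  have k2 := mul_le_mul_of_nonneg_right g1 hx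
  have k3 := mul_le_mul_of_nonneg_right g2 hy
  have e2 : (b : ℝ) * ((P.hl : ℝ) / U6 * ((A.ax : ℝ) / U6 * x + (A.ay : ℝ) / U6 * y)) =
      bx * x + bY * y := by
    rw [ebx, ebY]
    ring
  rw [e2]
  linarith

end

/-- a table of the contract `tab12F` -/
theorem tab12F_G {P : Par} {b : ℕ} {As : List Alt} {p0 p1 : ℕ} {Q : Cor}
    (h : tab12F P b As p0 p1 Q = true) : tab12G P b As p0 p1 Q = true := by
  unfold tab12F at h
  unfold tab12G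
  simp only [Bool.and_eq_true] at h ⊢
  obtain ⟨⟨⟨⟨⟨⟨h1, h2⟩, h3⟩, h4⟩, h5⟩, h6⟩, h7⟩ := h
  exact ⟨⟨⟨⟨⟨⟨h1, rowsckF_G h2⟩, h3⟩, h4⟩, h5⟩, h6⟩, h7⟩

/-! ### The forms -/

variable {a : Fin 4 → E3} {K : Set E3} {S : Fin 4 → ℝ} {σ : Measure (E3 × E3)}
  {c : Fin 4 → E3} {z : Fin 4 → Fin 4 → E3} {l : Fin 3 → Bool → Bool → E3 × E3 → ℝ}

/-- the deficit of a corner without apex, through the contact weights -/
noncomputable def DfX (κ φ C1 : ℝ) (N : Fin 3 → Fin 3 → ℝ) (j k : Fin 3) (t : ℝ × ℝ) : ℝ :=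
  κ * (xx N (vv t) 0 * nc N 0 + xx N (vv t) 1 * nc N 1 + xx N (vv t) 2 * nc N 2)
    + φ * C1 * (xx N (vv t) j + xx N (vv t) k)

/-- the deficit of the certificate through the two forms -/
theorem DM_twoG [IsFiniteMeasure σ] (h : CN K σ a c) (v : Viol K a S) (hz : CV a K z)
    (τ : Equiv.Perm (Fin 4)) (hl : Lok a l) {P : Par}
    {A' ρ cN s χ ω g0 g1 φl a0 a1 : ℝ} (hP : POk P A' ρ cN s χ ω g0 g1 φl a0 a1)
    (hMρ : ∀ p k, k ≠ p → MA σ a l τ p k ≤ ρ)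
    {x : E3} (hx : x ∈ K) {N : Fin 3 → Fin 3 → ℝ}
    (hNd : N = NM (fun i => a (τ i)) (fun i j => z (τ i) (τ j)))
    {ζp : Fin 3 → ℝ} (hζp : ∀ k, 0 < ζp k)
    (hζ : ∀ k, zc (fun i => a (τ i)) N x k ≤ ζp k)
    {φ lam : ℝ} (hφ : 0 < φ)
    (hF : ∀ p, ρ ≤ φ * (A' * Pool.Agent.Helper55.Mass.Id (flP (PN N) p)))
    (hl0 : 0 ≤ lam) (hl1 : lam ≤ 1 - φ)
    (hcN : ∀ m, nc N m ≤ cN) (hS : ∀ i, S i ≤ s)
    {i j k : Fin 3} (hij : i ≠ j) (hik : i ≠ k) (hjk : j ≠ k)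
    {β AB : ℝ}
    (hβ : β = bet (Zd (2 / 3 * cN) (-bar (fun i => a (τ i)) 0 x) (b3 (fun i => a (τ i)) x))
      (b3 (fun i => a (τ i)) x j) (b3 (fun i => a (τ i)) x k))
    {t : ℝ × ℝ} (ht : t ∈ Helper33.MEI.Dl)
    (hABd : AB = alP N ζp t *
      (pp (b3 (fun i => a (τ i)) x j) + pp (b3 (fun i => a (τ i)) x k))) :
    DM A' N (zc (fun i => a (τ i)) N x) ζp lam
        (fun p t => φ * flP (PN N) p t)
        (fun p t => kap N (vv t) p) (fun _ => 0) (MB σ a l τ)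
        (fun j => 1 / qM (fun i => a (τ i)) (fun i j => z (τ i) (τ j)) j)
        (fun p => Pool.Agent.Helper31.SR.am σ a l (τ 0) (τ p.succ)) t ≤
      (1 - β) * DfX (2 / 3) φ (2 * ω + 2 / 3 * cN) N j k t
        + β * (DfX (2 / 3) φ (2 * ω + 2 / 3 * cN) N j k t + lam / 2 * AB) := by
  have h' := h.perm τ
  have v' := viol_perm v τ
  have hz' := hz.perm τ
  have hN : ∀ k m, 0 ≤ N k m := fun k m => by
    rw [hNd]
    exact NM_nonneg h' v' hz' k m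
  have hd : ∀ k, N k k = 0 := fun k => by
    rw [hNd]
    exact NM_diag k
  have hcol : ∀ m, nc N m ≤ 9 / 10 := fun m => by
    rw [hNd]
    exact nc_le h' v' hz' m
  have hc : (9 / 10 : ℝ) < 1 := by norm_num
  have hgr := gram_of_dist h'.ha
  have hA' := hP.A0
  have ρ0 := hP.ρ0
  have cN0 := hP.cN0
  have cN2 := hP.cN2
  have hbal : ∀ k, zc (fun i => a (τ i)) N x k + LN N (zc (fun i => a (τ i)) N x) k =
      b3 (fun i => a (τ i)) x k := fun k => mu_bal hN hd hc hcol (b3 (fun i => a (τ i)) x) k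
  have hM : ∀ p k, k ≠ p → MB σ a l τ p k ≤ ρ := fun p k hk => by
    unfold MB
    rw [if_neg hk]
    exact hMρ p k hk
  have hμ : ∀ k, 1 + nc N k - (fun j => 1 / qM (fun i => a (τ i))
      (fun i j => z (τ i) (τ j)) j) k ≤ 2 / 3 * nc N k := fun k => by
    rw [hNd]
    exact nun_le h' v' hz' k
  have ht' := Dl_Sim ht
  have hF0 : ∀ p : Fin 3, (1 - (fun _ : Fin 3 => (0 : ℝ)) p) * (fun _ : Fin 3 => ρ) p ≤
      φ * (A' * Pool.Agent.Helper55.Mass.Id (flP (PN N) p)) := fun p => by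
    show (1 - 0) * ρ ≤ _
    rw [sub_zero, one_mul]
    exact hF p
  refine (DM_le_X hN hd hc hcol (κ := 2 / 3) hμ hA' hφ hl0 hl1 hζp hζ
    (β := fun _ => 0) (ρ := fun _ => ρ) (fun _ => zero_le_one) (fun _ => ρ0)
    (fun p => MB_diag τ p) hM hF0 ht').trans ?_
  have ar := arcs_X hN hd hc hcol (κ := 2 / 3) (by norm_num) hcN hA' hφ (β := fun _ => 0)
    (ρ := fun _ => ρ) (fun _ => zero_le_one) (fun _ => ρ0) (fun p k => MB_nonneg τ p k)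
    (fun p => MB_diag τ p) hM hF0
    (am := fun p => Pool.Agent.Helper31.SR.am σ a l (τ 0) (τ p.succ)) (dm := fun _ => 0)
    (ω := ω) (η := 0) hP.ω0 le_rfl
    (fun p => MB_def h v hl τ hS hP.χ0 hP.χs hP.ωχ p) (fun _ => by rw [zero_mul])
    (Ca := φ * (2 * ω + 2 / 3 * cN)) (by
      refine le_of_eq ?_
      ring) ht' hij hik hjk
  simp only [sub_zero] at ar
  have st : ∑ p, ((MB σ a l τ p 0 + MB σ a l τ p 1 + MB σ a l τ p 2) -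
      Pool.Agent.Helper31.SR.am σ a l (τ 0) (τ p.succ)) *
      ast (fun p t => kap N (vv t) p)
        (fun p => Pool.Agent.Helper55.Mass.Id (fun t => kap N (vv t) p)) (fun _ => 0) A' p t = 0 :=
    Finset.sum_eq_zero fun p _ => by
      unfold ast
      rw [zero_mul, mul_zero]
  rw [st, add_zero]
  have hZ := Zd_body hgr (h'.hp x hx) (cc := 2 / 3 * cN) (by linarith) hjk
  have ap := apex_bet hN (κ := 2 / 3) (cN := cN) (e := -bar (fun i => a (τ i)) 0 x) hζp hbal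
    (by rw [b3_sum hgr x]; ring) (by norm_num) hcN (by linarith) hl0 (t := t) (j := j) (k := k) hZ
  rw [← hβ, ← hABd] at ap
  unfold DfX
  linarith

/-- **the two forms through the rows** -/
theorem form_rowsG (h : CN K σ a c) (v : Viol K a S) (hz : CV a K z)
    (τ : Equiv.Perm (Fin 4)) {P : Par}
    {A' ρ cN s χ ω g0 g1 φl a0 a1 : ℝ} (hP : POk P A' ρ cN s χ ω g0 g1 φl a0 a1)
    {N : Fin 3 → Fin 3 → ℝ}
    (hNd : N = NM (fun i => a (τ i)) (fun i j => z (τ i) (τ j)))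
    {φ lam : ℝ} (hφl : φl ≤ φ) (hφu : φ ≤ a0 + a1 * SideP.TN N)
    (hl1 : lam ≤ 1 - φ) (hcN : ∀ m, nc N m ≤ cN)
    (hcs : ∀ m, nc N m ^ 2 ≤ 2 * S (τ 0) * (1 + nc N m / 2) ^ 2)
    (hcS : ∀ m : Fin 3, nc N m ^ 2 ≤ 2 * S (τ m.succ) * (1 + nc N m / 2) ^ 2)
    {i j k : Fin 3} (hij : i ≠ j) (hik : i ≠ k) (hjk : j ≠ k)
    (hX : S (τ 0) + S (τ i.succ) + S (τ j.succ) + S (τ k.succ) ≤ (P.X : ℝ) / U6)
    {A : Alt} (hth : A.th ≤ U6) {AB : ℝ}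
    {t : ℝ × ℝ} (ht : t ∈ Helper33.MEI.Dl) (hAB0 : 0 ≤ AB)
    (hAB : AB ≤ (A.ax : ℝ) / U6 * T3 t j + (A.ay : ℝ) / U6 * T3 t k) {L : ℕ → ℝ}
    (hL : L = lam12 ((P.X : ℝ) / U6) (S (τ 0)) (S (τ i.succ)) (S (τ j.succ)) (S (τ k.succ))) :
    DfX (2 / 3) φ (2 * ω + 2 / 3 * cN) N j k t ≤
      demG P A (nh L P.nI) (nh L P.nJ) (nh L P.nL) 0 (T3 t j) (T3 t k) ∧
    DfX (2 / 3) φ (2 * ω + 2 / 3 * cN) N j k t + lam / 2 * AB ≤
      demG P A (nh L P.nI) (nh L P.nJ) (nh L P.nL) 1 (T3 t j) (T3 t k) := by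
  have hU := U6_pos
  have h' := h.perm τ
  have v' := viol_perm v τ
  have hz' := hz.perm τ
  have hN : ∀ k m, 0 ≤ N k m := fun k m => by
    rw [hNd]
    exact NM_nonneg h' v' hz' k m
  have hd : ∀ k, N k k = 0 := fun k => by
    rw [hNd]
    exact NM_diag k
  have hcol : ∀ m, nc N m ≤ 9 / 10 := fun m => by
    rw [hNd]
    exact nc_le h' v' hz' m
  have hn0 : ∀ m, 0 ≤ nc N m := Pool.Agent.Helper73.MEI.SideP.nc_nonneg hN
  have hT0 : 0 ≤ SideP.TN N := SideP.TN_nonneg hN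
  have hTs : SideP.TN N = nc N 0 + nc N 1 + nc N 2 := rfl
  -- the leaks
  have leak : ∀ m : Fin 3, nc N m ≤ g0 + g1 * min (S (τ 0)) (S (τ m.succ)) := fun m =>
    leak_lin (hn0 m) (hcN m) (hcs m) (hcS m) hP.g10 hP.leak
  obtain ⟨k1, k2, k3⟩ := nh_ge hP.nok hP.Xp (v.nn _) (v.nn _) (v.nn _) (v.nn _) hX
  have m1 := (leak i).trans k1
  have m2 := (leak j).trans k2
  have m3 := (leak k).trans k3
  rw [← hL] at m1 m2 m3
  obtain ⟨NI, hNI⟩ : ∃ n, n = nh L P.nI := ⟨_, rfl⟩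
  obtain ⟨NJ, hNJ⟩ : ∃ n, n = nh L P.nJ := ⟨_, rfl⟩
  obtain ⟨NL, hNL⟩ : ∃ n, n = nh L P.nL := ⟨_, rfl⟩
  rw [← hNI] at m1
  rw [← hNJ] at m2
  rw [← hNL] at m3
  rw [← hNI, ← hNJ, ← hNL]
  have ht0 : ∀ q, 0 ≤ T3 t q := fun q => by
    rw [← vv_T3]
    exact vv_nonneg (Dl_Sim ht) q
  have hsum : T3 t i = 1 - T3 t j - T3 t k := by
    have e1 := sum3 (T3 t) hij hik hjk
    have e2 := vv_sum t
    rw [vv_T3] at e2
    linarith
  -- arcs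
  have hω : 0 ≤ 2 * ω + 2 / 3 * cN := by
    have := hP.ω0
    have := hP.cN0
    positivity
  have hT : SideP.TN N = nc N i + nc N j + nc N k := by
    rw [hTs]
    fin_cases i <;> fin_cases j <;> fin_cases k <;> simp at hij hik hjk ⊢ <;> ring
  have r0 := hn0 i
  have r1 := hn0 j
  have r2 := hn0 k
  obtain ⟨C, hC⟩ : ∃ C, C = (P.c0 : ℝ) / U6 + (P.c1 : ℝ) / U6 * (NI + NJ + NL) := ⟨_, rfl⟩
  have p2 : φ * (2 * ω + 2 / 3 * cN) ≤ C := by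
    have q1 := mul_le_mul_of_nonneg_right hφu hω
    have q2 : (a1 * (2 * ω + 2 / 3 * cN)) * SideP.TN N ≤
        (P.c1 : ℝ) / U6 * (NI + NJ + NL) := by
      refine mul_le_mul hP.c1 (by rw [hT]; linarith) hT0 (by positivity)
    have q3 := hP.c0
    rw [hC]
    linarith
  obtain ⟨θ, hθ⟩ : ∃ θ, θ = (A.th : ℝ) / U6 := ⟨_, rfl⟩
  have θ0 : 0 ≤ θ := by rw [hθ]; positivity
  have θ1 : θ ≤ 1 := by
    rw [hθ, div_le_one hU]
    exact_mod_cast hth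
  have d0 := dfx_le hN hd (by norm_num : (9 / 10 : ℝ) < 1) hcol (κ := 2 / 3)
    (Ca := φ * (2 * ω + 2 / 3 * cN)) (θ := θ) (by norm_num) θ0 θ1 (Dl_Sim ht) hij hik hjk
  rw [vv_T3] at d0
  obtain ⟨KK, hKK⟩ : ∃ q, q = (P.K : ℝ) / U6 := ⟨_, rfl⟩
  have hK := hP.K2
  rw [← hKK] at hK
  have e1 : 2 / 3 * ((1 - θ) * (nc N i * T3 t i)) ≤ KK * ((1 - θ) * NI) * (1 - T3 t j - T3 t k) := by
    have z0 := ht0 i
    have q1 : (1 - θ) * nc N i ≤ (1 - θ) * NI := mul_le_mul_of_nonneg_left m1 (sub_nonneg.2 θ1)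
    have q0 : 0 ≤ (1 - θ) * nc N i := mul_nonneg (sub_nonneg.2 θ1) r0
    have q2 : 2 / 3 * ((1 - θ) * nc N i) ≤ KK * ((1 - θ) * NI) :=
      mul_le_mul hK q1 q0 (by linarith)
    have q3 := mul_le_mul_of_nonneg_right q2 z0
    rw [hsum] at q3 ⊢
    linarith
  have e2 : ∀ (n M : ℝ), 0 ≤ n → n ≤ M → max (2 / 3 * θ) (2 / 3 * n + φ * (2 * ω + 2 / 3 * cN)) ≤
      max (KK * θ) (KK * M + C) := by
    intro n M n0 nM
    refine max_le_max (mul_le_mul_of_nonneg_right hK θ0) (add_le_add ?_ p2)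
    exact mul_le_mul hK nM n0 (by linarith)
  have e3 := mul_le_mul_of_nonneg_right (e2 _ _ r1 m2) (ht0 j)
  have e4 := mul_le_mul_of_nonneg_right (e2 _ _ r2 m3) (ht0 k)
  -- apex
  have hlam : lam / 2 ≤ (P.hl : ℝ) / U6 := by
    have := hP.hl
    linarith
  have p4 : lam / 2 * AB ≤ (P.hl : ℝ) / U6 * ((A.ax : ℝ) / U6 * T3 t j + (A.ay : ℝ) / U6 * T3 t k) :=
    mul_le_mul hlam hAB hAB0 (by positivity)
  unfold DfX demG
  rw [← hC, ← hθ, ← hKK, vv_T3]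
  exact ⟨by linarith, by linarith⟩

/-- **the cost of the second order term of a placed body from the tables** -/
theorem face_twoG [IsFiniteMeasure σ] (h : CN K σ a c) (v : Viol K a S) (hz : CV a K z)
    (τ : Equiv.Perm (Fin 4)) (hl : Lok a l) {P : Par}
    {A c0 c1 : ℕ} {A' ρ cN s χ ω g0 g1 φl a0 a1 : ℝ}
    (hA : (A : ℝ) / U = A') (hP : POk P A' ρ cN s χ ω g0 g1 φl a0 a1) (hcN1 : 2 / 3 * cN ≤ 1 / 10)
    (hMρ : ∀ p k, k ≠ p → MA σ a l τ p k ≤ ρ)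
    {x : E3} (hx : x ∈ K) {N : Fin 3 → Fin 3 → ℝ}
    (hNd : N = NM (fun i => a (τ i)) (fun i j => z (τ i) (τ j)))
    {ζp : Fin 3 → ℝ} (hζp : ∀ k, 0 < ζp k)
    (hζ : ∀ k, zc (fun i => a (τ i)) N x k ≤ ζp k)
    {φ lam : ℝ} (hφ : 0 < φ) (hφl : φl ≤ φ) (hφu : φ ≤ a0 + a1 * SideP.TN N)
    (hF : ∀ p, ρ ≤ φ * (A' * Pool.Agent.Helper55.Mass.Id (flP (PN N) p)))
    (hl0 : 0 ≤ lam) (hl1 : lam ≤ 1 - φ)
    (hcN : ∀ m, nc N m ≤ cN)
    (hcs : ∀ m, nc N m ^ 2 ≤ 2 * S (τ 0) * (1 + nc N m / 2) ^ 2)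
    (hcS : ∀ m : Fin 3, nc N m ^ 2 ≤ 2 * S (τ m.succ) * (1 + nc N m / 2) ^ 2)
    (hS : ∀ i, S i ≤ s) (hs11 : S (τ 0) ≤ 11 / 1000)
    (hX : S (τ 0) + (S (τ 1) + S (τ 2) + S (τ 3)) ≤ (P.X : ℝ) / U6)
    {Sm d0 d1 : ℝ} (hC : IsC Sm d0 d1)
    (hSm : ∀ k, S k ≤ Sm) (hd : 0 ≤ d1) (hd3 : 3 * d1 * (1 + S (τ 0)) ≤ d0)
    (hd0 : (c0 : ℝ) / U ≤ d0) (hd1 : d1 ≤ (c1 : ℝ) / U)
    {ι : Type} {T0 : Cor} {As0 : List Alt} {T1 : ι → Cor} {As1 : ι → List Alt} {lo hi : ι → ℕ}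
    (hT0 : T0.ok A c0 c1 = true) (hT1 : ∀ e, (T1 e).ok A c0 c1 = true)
    (hR0 : tab12G P 0 As0 0 U6 T0 = true) (hR1 : ∀ e, tab12G P 1 (As1 e) (lo e) (hi e) (T1 e) = true)
    {hh : ℕ} (hh0 : T0.h = hh) (hh1 : ∀ e, (T1 e).h = hh)
    {u0 u1 u2 : ℕ} (hf : NumF P.X lo hi T0.w (fun e => (T1 e).w) u0 u1 u2)
    {G : ℝ × ℝ → ℝ} {omT : ℝ × ℝ → ℝ} {CT cT : ℝ}
    (hTm : AEStronglyMeasurable omT (volume.restrict Helper33.MEI.Dl))
    (hTn : ∀ t ∈ Helper33.MEI.Dl, 0 ≤ omT t) (hTb : ∀ t ∈ Helper33.MEI.Dl, omT t ≤ CT)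
    (hTt : ∀ k, ∀ t ∈ Helper33.MEI.Dl, T3 t (jj k) ≤ (hh : ℝ) / U → T3 t (ll k) ≤ (hh : ℝ) / U →
      T3 t (jj k) ≤ T3 t k → T3 t (ll k) ≤ T3 t k → ∀ q ∈ K,
      Yt (fun i => a (τ i)) t q / √(mt t) - ‖a (τ 0) - q‖ ^ 2 ≤ own (S (τ 0)) t →
      G t + (1 - DM A' N (zc (fun i => a (τ i)) N x) ζp lam
        (fun p t => φ * flP (PN N) p t)
        (fun p t => kap N (vv t) p) (fun _ => 0) (MB σ a l τ)
        (fun j => 1 / qM (fun i => a (τ i)) (fun i j => z (τ i) (τ j)) j)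
        (fun p => Pool.Agent.Helper31.SR.am σ a l (τ 0) (τ p.succ)) t) * ‖a (τ 0) - q‖ ^ 2 ≤
          Yt (fun i => a (τ i)) t q →
      A' * (G t / √(mt t)) - omT t ≤
        ff A' (Yt (fun i => a (τ i)) t q / √(mt t) - ‖a (τ 0) - q‖ ^ 2)
          (‖a (τ 0) - q‖ ^ 2))
    (hcT : (√2)⁻¹ * ∫ t in Helper33.MEI.Dl, omT t * M3 t ≤ cT) :
    WCost a K τ A' G
      (DM A' N (zc (fun i => a (τ i)) N x) ζp lam
        (fun p t => φ * flP (PN N) p t)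
        (fun p t => kap N (vv t) p) (fun _ => 0) (MB σ a l τ)
        (fun j => 1 / qM (fun i => a (τ i)) (fun i j => z (τ i) (τ j)) j)
        (fun p => Pool.Agent.Helper31.SR.am σ a l (τ 0) (τ p.succ)))
      ((u0 : ℝ) / 1000000000 + (u1 : ℝ) / 1000000000 * S (τ 0)
        + (u2 : ℝ) / 1000000000 * (S (τ 1) + S (τ 2) + S (τ 3)) + cT) := by
  subst hA
  have hU := U6_pos
  have h' := h.perm τ
  have v' := viol_perm v τ
  have hgr := gram_of_dist h'.ha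
  have hXp : (0 : ℝ) < (P.X : ℝ) / U6 := _root_.div_pos (Nat.cast_pos.2 hP.Xp) hU
  -- the numbers of the apex
  obtain ⟨Z, hZ⟩ : ∃ Z, Z = Zd (2 / 3 * cN) (-bar (fun i => a (τ i)) 0 x)
    (b3 (fun i => a (τ i)) x) := ⟨_, rfl⟩
  obtain ⟨β, hβ⟩ : ∃ β : Fin 3 → ℝ, β = fun k =>
    bet Z (b3 (fun i => a (τ i)) x (jj k)) (b3 (fun i => a (τ i)) x (ll k)) := ⟨_, rfl⟩
  have hβk : ∀ k, β k = bet Z (b3 (fun i => a (τ i)) x (jj k))
      (b3 (fun i => a (τ i)) x (ll k)) := fun k => by rw [hβ]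
  have β0 : ∀ k, 0 ≤ β k := fun k => by
    rw [hβk]
    exact bet_nonneg _ _ _
  have β1 : ∀ k, β k ≤ 1 := fun k => by
    rw [hβk]
    refine bet_le_one ?_
    rw [hZ]
    exact Zd_body hgr (h'.hp x hx) (by linarith) (jl_ne k).2.2
  have hb1 := bar0_pair hgr (h'.hp x hx) (k := 1) (by decide)
  have hb2 := bar0_pair hgr (h'.hp x hx) (k := 2) (by decide)
  have hb3 := bar0_pair hgr (h'.hp x hx) (k := 3) (by decide)
  have e0 : b3 (fun i => a (τ i)) x 0 = bar (fun i => a (τ i)) 1 x := rfl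
  have e1 : b3 (fun i => a (τ i)) x 1 = bar (fun i => a (τ i)) 2 x := rfl
  have e2 : b3 (fun i => a (τ i)) x 2 = bar (fun i => a (τ i)) 3 x := rfl
  have hs := b3_sum hgr x
  have hs' : b3 (fun i => a (τ i)) x 0 + b3 (fun i => a (τ i)) x 1 + b3 (fun i => a (τ i)) x 2 =
      1 - bar (fun i => a (τ i)) 0 x := hs
  have cx := Pool.Agent.Helper73.MEI.ZEl.coords (a := fun i => a (τ i)) h'.ha (h'.hp x hx)
    (S := fun k => S (τ k.succ)) (v'.le 1 x hx) (v'.le 2 x hx) (v'.le 3 x hx)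
  rw [← e0, ← e1, ← e2] at cx
  have hq : Qv (fun i => a (τ i)) 0 x ≤ S (τ 0) := v'.le 0 x hx
  -- the classes and the numbers
  obtain ⟨e, hk0, hk1, hk2, hnum⟩ := hf (S (τ 0)) (S (τ 1)) (S (τ 2)) (S (τ 3))
    (-bar (fun i => a (τ i)) 0 x) (2 / 3 * cN) (b3 (fun i => a (τ i)) x) (v.nn _) (v.nn _)
    (v.nn _) (v.nn _) (by linarith) hs11 (by rw [hs']; ring) (by rw [e0, e1]; linarith)
    (by rw [e0, e2]; linarith) (by rw [e1, e2]; linarith) (by have := hP.cN0; positivity) hcN1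
    (by nlinarith [cx.1])
  have he : ∀ k, (lo (e k) : ℝ) / U6 ≤ prt (b3 (fun i => a (τ i)) x (jj k))
      (b3 (fun i => a (τ i)) x (ll k)) ∧ prt (b3 (fun i => a (τ i)) x (jj k))
      (b3 (fun i => a (τ i)) x (ll k)) ≤ (hi (e k) : ℝ) / U6 := by
    intro k
    fin_cases k
    exacts [hk0, hk1, hk2]
  have hXk : ∀ k : Fin 3, S (τ 0) + S (τ k.succ) + S (τ (jj k).succ) + S (τ (ll k).succ) ≤
      (P.X : ℝ) / U6 := by
    intro k
    refine le_trans (le_of_eq ?_) hX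
    fin_cases k
    · show S (τ 0) + S (τ 1) + S (τ 3) + S (τ 2) = _
      ring
    · show S (τ 0) + S (τ 2) + S (τ 1) + S (τ 3) = _
      ring
    · show S (τ 0) + S (τ 3) + S (τ 1) + S (τ 2) = _
      ring
  obtain ⟨L, hL⟩ : ∃ L : Fin 3 → ℕ → ℝ, L = fun k => lam12 ((P.X : ℝ) / U6) (S (τ 0))
    (S (τ k.succ)) (S (τ (jj k).succ)) (S (τ (ll k).succ)) := ⟨_, rfl⟩
  have hLk : ∀ k, L k = lam12 ((P.X : ℝ) / U6) (S (τ 0))
    (S (τ k.succ)) (S (τ (jj k).succ)) (S (τ (ll k).succ)) := fun k => by rw [hL]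
  have hL0 : ∀ k i, 0 ≤ L k i := fun k i => by
    rw [hLk]
    exact lam12_nonneg hXp (v.nn _) (v.nn _) (v.nn _) (v.nn _) (hXk k) i
  have hL1 : ∀ k, ∑ v ∈ Finset.range 12, L k v = 1 := fun k => by
    rw [hLk]
    exact lam12_one hXp
  have htri : ∀ t ∈ Helper33.MEI.Dl, ∀ k, 0 ≤ T3 t (jj k) ∧ 0 ≤ T3 t (ll k) ∧
      T3 t (jj k) + T3 t (ll k) ≤ 1 := by
    intro t ht k
    have p := fun k => T3_pos' ht k
    have := T3_sum k t
    exact ⟨(p _).le, (p _).le, by linarith [p k]⟩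
  refine (wcost_two h v τ hC hSm hd hd3 hd0 hd1 (G := G) (Q0 := fun _ => T0)
    (Q1 := fun k => T1 (e k)) (fun _ => hT0) (fun k => hT1 _) (fun _ => (tab12G_iff hR0).2.2.2.2.1)
    (fun k => (tab12G_iff (hR1 (e k))).2.2.2.2.1) (hh := hh) (fun _ => hh0) (fun k => hh1 _)
    (lam := L) hL0
    (fun k => by
      rw [hLk]
      exact tab12G_S hR0 hP.Xp (v.nn _) (v.nn _) (v.nn _) (v.nn _) (hXk k))
    (fun k => by
      rw [hLk]
      exact tab12G_S (hR1 (e k)) hP.Xp (v.nn _) (v.nn _) (v.nn _) (v.nn _) (hXk k))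
    β0 β1
    (D0 := fun k t => DfX (2 / 3) φ (2 * ω + 2 / 3 * cN) N (jj k) (ll k) t)
    (D1 := fun k t => DfX (2 / 3) φ (2 * ω + 2 / 3 * cN) N (jj k) (ll k) t + lam / 2 *
      (alP N ζp t * (pp (b3 (fun i => a (τ i)) x (jj k)) + pp (b3 (fun i => a (τ i)) x (ll k)))))
    (fun k t ht _ _ => ?_) (fun k t ht => ?_) (fun k t ht => ?_) hTm hTn hTb hTt hcT).mono ?_
  · exact DM_twoG h v hz τ hl hP hMρ hx hNd hζp hζ hφ hF hl0 hl1 hcN hS (jl_ne k).1 (jl_ne k).2.1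
      (jl_ne k).2.2 (by rw [hβk, hZ]) ht rfl
  · intro li hli
    obtain ⟨-, -, hok, hnl, -⟩ := tab12G_iff hR0
    obtain ⟨t1, t2, t3⟩ := htri t ht k
    have hth : (As0.getD li zA).th ≤ U6 := by
      have := hok li (by omega)
      unfold Alt.ok at this
      simp only [Bool.and_eq_true, Nat.ble_eq] at this
      exact this.1.1
    refine le_trans (form_rowsG h v hz τ hP hNd hφl hφu hl1 hcN hcs hcS (jl_ne k).1
      (jl_ne k).2.1 (jl_ne k).2.2 (hXk k) hth (AB := 0) ht le_rfl (by positivity) (hLk k)).1 ?_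
    have q := tab12G_D hR0 (hL0 k) (hL1 k) t1 t2 t3 hli
    rw [Nat.cast_zero] at q
    exact q
  · intro li hli
    obtain ⟨-, -, hok, hnl, -, hlh, hhU⟩ := tab12G_iff (hR1 (e k))
    obtain ⟨t1, t2, t3⟩ := htri t ht k
    have hoki := hok li (by omega)
    have hth : ((As1 (e k)).getD li zA).th ≤ U6 := by
      have := hoki
      unfold Alt.ok at this
      simp only [Bool.and_eq_true, Nat.ble_eq] at this
      exact this.1.1
    obtain ⟨c1, -, c3, c4⟩ := AB_body h v hz τ hNd rfl hζp hζ (Dl_Sim ht) (x := x) (jj k) (ll k)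
    rw [vv_T3] at c3 c4
    have hAB := Alt.ok_le hoki hlh hhU (he k).1 (he k).2 c1 c3 c4
    refine le_trans (form_rowsG h v hz τ hP hNd hφl hφu hl1 hcN hcs hcS (jl_ne k).1
      (jl_ne k).2.1 (jl_ne k).2.2 (hXk k) hth ht c1 hAB (hLk k)).2 ?_
    have q := tab12G_D (hR1 (e k)) (hL0 k) (hL1 k) t1 t2 t3 hli
    rw [Nat.cast_one] at q
    exact q
  · -- the numbers
    refine add_le_add ?_ le_rfl
    have hlen0 := (tab12G_iff hR0).1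
    have hlen1 := fun k => (tab12G_iff (hR1 (e k))).1
    have eW0 : ∀ L : ℕ → ℝ, T0.W L =
        ∑ v ∈ Finset.range 12, L v * ((T0.w v : ℝ) / (4 * (U6 : ℝ) ^ 4)) := by
      intro L
      unfold Helper60.R8.Cor.W
      rw [hlen0]
      rfl
    have eW1 : ∀ (L : ℕ → ℝ) (k : Fin 3), (T1 (e k)).W L =
        ∑ v ∈ Finset.range 12, L v * (((T1 (e k)).w v : ℝ) / (4 * (U6 : ℝ) ^ 4)) := by
      intro L k
      unfold Helper60.R8.Cor.W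
      rw [hlen1 k]
      rfl
    have f0 : L 0 = lam12 ((P.X : ℝ) / U6) (S (τ 0)) (S (τ 1)) (S (τ 3)) (S (τ 2)) := by
      rw [hLk]
      rfl
    have f1 : L 1 = lam12 ((P.X : ℝ) / U6) (S (τ 0)) (S (τ 2)) (S (τ 1)) (S (τ 3)) := by
      rw [hLk]
      rfl
    have f2 : L 2 = lam12 ((P.X : ℝ) / U6) (S (τ 0)) (S (τ 3)) (S (τ 1)) (S (τ 2)) := by
      rw [hLk]
      rfl
    have g0 : β 0 = bet (Zd (2 / 3 * cN) (-bar (fun i => a (τ i)) 0 x) (b3 (fun i => a (τ i)) x))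
        (b3 (fun i => a (τ i)) x 2) (b3 (fun i => a (τ i)) x 1) := by
      rw [hβk, hZ]
      rfl
    have g1 : β 1 = bet (Zd (2 / 3 * cN) (-bar (fun i => a (τ i)) 0 x) (b3 (fun i => a (τ i)) x))
        (b3 (fun i => a (τ i)) x 0) (b3 (fun i => a (τ i)) x 2) := by
      rw [hβk, hZ]
      rfl
    have g2 : β 2 = bet (Zd (2 / 3 * cN) (-bar (fun i => a (τ i)) 0 x) (b3 (fun i => a (τ i)) x))
        (b3 (fun i => a (τ i)) x 0) (b3 (fun i => a (τ i)) x 1) := by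
      rw [hβk, hZ]
      rfl
    rw [eW0, eW0, eW0, eW1, eW1, eW1, f0, f1, f2, g0, g1, g2]
    exact hnum

/-! ### The form of helper73 -/

/-- **`WOKG` from the tables** -/
theorem wokg_tabG {X' rm qm nb ρ1 Rb gg ε k1 k12 t2 δ : ℝ}
    (R1 : Pool.Agent.Helper73.MEI.ArCor.Rng X' rm qm nb ρ1 Rb gg ε k1 k12 t2 δ) {P : Par} {Pr : (Fin 4 → ℝ) → Prop}
    {A c0 c1 : ℕ} {X ρ χ ω g0 g1 a0 a1 Tm : ℝ} (hA : (A : ℝ) / U = 2.04)
    (hP : POk P 2.04 ρ nb X' χ ω g0 g1 (22.6276 * ρ * (35 / 48) ^ 2 / 2.04) a0 a1)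
    (hnb : 2 / 3 * nb ≤ 1 / 10) (hTm : 3 * nb ≤ Tm) (hTm2 : Tm < 2)
    (hφ : ∀ T, 0 ≤ T → T ≤ Tm → 22.6276 * ρ * (35 / 48 + 9 / 16 * T + 5 / 12 * T ^ 2) ^ 2 ≤
      (a0 + a1 * T) * (2.04 * (1 - T ^ 2 / 4)))
    (hPr : ∀ (K : Set E3) (σ : Measure (E3 × E3)), IsFiniteMeasure σ →
      ∀ a c : Fin 4 → E3, CN K σ a c → EpsLe c X → ∀ S : Fin 4 → ℝ, Viol K a S → Pr S →
      ∑ i, S i ≤ X')
    (hM : ∀ (K : Set E3) (σ : Measure (E3 × E3)), IsFiniteMeasure σ →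
      ∀ a c : Fin 4 → E3, CN K σ a c → EpsLe c X → ∀ S : Fin 4 → ℝ, Viol K a S → Pr S →
      ∀ (τ : Equiv.Perm (Fin 4)) (p k : Fin 3), k ≠ p → MA σ a (l2 a) τ p k ≤ ρ)
    (hX : X' ≤ (P.X : ℝ) / U6) (hX11 : X' ≤ 11 / 1000)
    {Sm d0 d1 : ℝ} (hC : IsC Sm d0 d1) (hSm : X' ≤ Sm) (hd : 0 ≤ d1)
    (hd3 : 3 * d1 * (1 + X') ≤ d0) (hd0 : (c0 : ℝ) / U ≤ d0) (hd1 : d1 ≤ (c1 : ℝ) / U)
    {ι : Type} {T0 : Cor} {As0 : List Alt} {T1 : ι → Cor} {As1 : ι → List Alt} {lo hi : ι → ℕ}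
    (hT0 : T0.ok A c0 c1 = true) (hT1 : ∀ e, (T1 e).ok A c0 c1 = true)
    (hR0 : tab12G P 0 As0 0 U6 T0 = true) (hR1 : ∀ e, tab12G P 1 (As1 e) (lo e) (hi e) (T1 e) = true)
    (hh0 : T0.h = 0) (hh1 : ∀ e, (T1 e).h = 0)
    {u0 u1 u2 : ℕ} (hf : NumF P.X lo hi T0.w (fun e => (T1 e).w) u0 u1 u2) :
    Pool.Agent.Helper73.MEI.ArCor.WOKG ρ ((u0 : ℝ) / 1000000000) ((u1 : ℝ) / 1000000000)
      ((u2 : ℝ) / 1000000000) 0 0 0 X Pr := by
  intro K σ hσ a c h hXX S v hPS z hz τ x hx hxs N hN R hR ζp z1 z2 lam q1 q2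
  have h' := h.perm τ
  have v' := viol_perm v τ
  have hz' := hz.perm τ
  have hsum : ∑ k, S k = S (τ 0) + S (τ 1) + S (τ 2) + S (τ 3) := by
    rw [← Equiv.sum_comp τ S, Fin.sum_univ_four]
  have t1 := hPr K σ hσ a c h hXX S v hPS
  have hXs : S (τ 0) + (S (τ 1) + S (τ 2) + S (τ 3)) ≤ X' := by
    rw [hsum] at t1
    linarith
  have n0 := v.nn (τ 0)
  have n1 := v.nn (τ 1)
  have n2 := v.nn (τ 2)
  have n3 := v.nn (τ 3)
  have hSi : ∀ i, S i ≤ X' := by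
    intro i
    have : S i ≤ ∑ k, S k := Finset.single_le_sum (fun k _ => v.nn k) (Finset.mem_univ i)
    linarith
  have hN0 : ∀ k m, 0 ≤ N k m := fun k m => by
    rw [hN]
    exact NM_nonneg h' v' hz' k m
  have hd' : ∀ k, N k k = 0 := fun k => by
    rw [hN]
    exact NM_diag k
  have hcol : ∀ m, nc N m ≤ 9 / 10 := fun m => by
    rw [hN]
    exact nc_le h' v' hz' m
  have C := Pool.Agent.Helper73.MEI.ArCor.cols R1 h' v' hz' hXs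
  rw [← hN] at C
  have hd1' : (0 : ℝ) ≤ 3 * d1 := by linarith
  obtain ⟨p1, p2, p3, p4⟩ := phiN_data hN0 hd' (by norm_num : (9 / 10 : ℝ) < 1) hcol
    (A' := 2.04) (by norm_num) hP.ρ0 (fun m => (C m).2.1) hTm hTm2 hφ
  have key := face_twoG h v hz τ (Helper41.MEI.l2_ok h.ha) hA hP hnb
    (hM K σ hσ a c h hXX S v hPS τ) hx hN z1 z2
    (φ := phiN 2.04 ρ (SideP.TN N) (SideP.QN N)) (lam := lam) p1 p2 p3 p4 q1 q2
    (fun m => (C m).2.1) (fun m => (C m).2.2.2.2.2.2.1) (fun m => (C m).2.2.2.2.2.2.2.1) hSi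
    (by linarith) (by linarith) hC (fun k => (hSi k).trans hSm) hd
    (by
      have := mul_le_mul_of_nonneg_left (show 1 + S (τ 0) ≤ 1 + X' by linarith) hd1'
      linarith)
    hd0 hd1 hT0 hT1 hR0 hR1 hh0 hh1 hf
    (G := GM 2.04 N (zc (fun i => a (τ i)) N x) ζp lam
      (fun p t => phiN 2.04 ρ (SideP.TN N) (SideP.QN N) * flP (PN N) p t)
      (fun p t => kap N (vv t) p) (fun _ => 0) (MB σ a (l2 a) τ)
      (fun p => aE σ a (l2 a) (τ 0) (τ p.succ)) R (fun k => S (τ k.succ)) (S (τ 0)))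
    (omT := fun _ => 0) (CT := 0) (cT := 0) aestronglyMeasurable_const (fun _ _ => le_rfl)
    (fun _ _ => le_rfl)
    (fun k t ht e1 => by
      exfalso
      have := T3_pos' ht (jj k)
      rw [Nat.cast_zero, zero_div] at e1
      linarith)
    (by simp)
  refine WCost.mono key ?_
  have eT : Pool.Agent.Helper73.MEI.ArCor.lkC N 0 0 0 (fun k => S (τ k.succ)) (S (τ 0)) = 0 := by
    unfold Pool.Agent.Helper73.MEI.ArCor.lkC
    ring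
  rw [eT]

end Helper78.MEI
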