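import Pool.Agent.Helper78.MEI.WB1

/-!
# Project MEI (M2), w-term: the `D`-form of a placed body uniformly in the position of the apex

`DK_bet`, `DM_bet` (share `2/3`), `DhM_bet` (share `1/2`): at the corner `i`
`D t ≤ κ (min (x + y) (nc i) + nc j x + nc k y) + Ca (x + y) + (lam / 2) β AB`,
`AB` with `0 ≤ AB`, `AB ≤ x + y`, `p AB ≤ x`, `(1 - p) AB ≤ y`.
-/

set_option autoImplicit false

namespace Helper78.MEI

open Set Metric MeasureTheory Helper80.CW Helper82.CW Helper14.CW Helper93.MEI Helper82.M2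
open Helper14.MEI2 Pool.Agent.Helper52.MEI Pool.Agent.Helper73.MEI Helper41.MEI
open Pool.Agent.Helper55.Sx (Sim)
open Pool.Agent.Helper55.Mass (LN LN_nonneg vv vv_nonneg vv_le Id)
open Pool.Agent.Helper55.Apex (nc vt_vv)
open Pool.Agent.Helper55.ApexP (PN alP alP_nonneg alP_zeta alP_le xx_mu mu_bal)
open Pool.Agent.Helper55.Fill (xx rr rr_nonneg xx_nonneg xx_le xx_feas)
open Pool.Agent.Helper73.MEI.SideP (flP)
open Pool.Agent.Helper96.Kap (kap)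
open Pool.Agent.Helper31.SR
open Helper99.MEI (DK DK_body DM_le_DK DhM_eq_DK)
open scoped RealInnerProductSpace ENNReal

variable {a : Fin 4 → E3} {K : Set E3} {S : Fin 4 → ℝ} {σ : Measure (E3 × E3)}
  {c : Fin 4 → E3} {z : Fin 4 → Fin 4 → E3} {l : Fin 3 → Bool → Bool → E3 × E3 → ℝ}

/-- **half the sum of two coordinates bounds the deficit number of a point of the body** -/
theorem Zd_body {a' : Fin 4 → E3} (hg : Gram4 (al a')) {x : E3} (hx : Pl a' x) {cc : ℝ}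
    (hc : cc ≤ 1 / 2) {j k : Fin 3} (hjk : j ≠ k) :
    2 * Zd cc (-bar a' 0 x) (b3 a' x) ≤ pp (b3 a' x j) + pp (b3 a' x k) := by
  have h1 := bar0_pair hg hx (k := 1) (by decide)
  have h2 := bar0_pair hg hx (k := 2) (by decide)
  have h3 := bar0_pair hg hx (k := 3) (by decide)
  have e0 : b3 a' x 0 = bar a' 1 x := rfl
  have e1 : b3 a' x 1 = bar a' 2 x := rfl
  have e2 : b3 a' x 2 = bar a' 3 x := rfl
  have hs := b3_sum hg x
  obtain ⟨q0, q1, q2⟩ := Zd_le (e := -bar a' 0 x) (b := b3 a' x) hc (by rw [hs]; ring)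
    (by rw [e0, e1]; linarith) (by rw [e0, e2]; linarith) (by rw [e1, e2]; linarith)
  fin_cases j <;> fin_cases k <;> simp at hjk ⊢ <;> linarith

/-- **the `D`-form of a placed body, uniformly in the apex**, share `κ` of the leaks -/
theorem DK_bet [IsFiniteMeasure σ] (h : CN K σ a c) (v : Viol K a S) (hz : CV a K z)
    (τ : Equiv.Perm (Fin 4)) {A' : ℝ} (hA' : 0 < A') (hl : Lok a l)
    {ρ β : Fin 3 → ℝ} (hρ : ∀ p, 0 < ρ p) (hMρ : ∀ p k, k ≠ p → MA σ a l τ p k ≤ ρ p)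
    {x : E3} (hx : x ∈ K) {N : Fin 3 → Fin 3 → ℝ}
    (hNd : N = NM (fun i => a (τ i)) (fun i j => z (τ i) (τ j)))
    {ζ ζp : Fin 3 → ℝ} (hζd : ζ = zc (fun i => a (τ i)) N x) (hζp : ∀ k, 0 < ζp k)
    {φ lam : ℝ} (hφ : 0 < φ) (hl0 : 0 ≤ lam)
    (hβ0 : ∀ p, 0 ≤ β p) (hβ1 : ∀ p, β p ≤ 1)
    (hK : ∀ p, β p * ρ p ≤ A' * Id (fun t => kap N (vv t) p))
    (hF : ∀ p, (1 - β p) * ρ p ≤ φ * (A' * Id (flP (PN N) p)))
    {κ : ℝ} (hκ : 0 ≤ κ) (hκ1 : κ ≤ 1) {cN : ℝ} (hcN : ∀ m, nc N m ≤ cN) (hcN1 : cN ≤ 1 / 2)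
    {s χ ω η : ℝ} (hS : ∀ i, S i ≤ s) (hχ0 : 0 ≤ χ) (hχ : 3 / 2 + 2 * s ≤ χ ^ 2)
    (hω0 : 0 ≤ ω) (hω : (1 - ω) * χ ≤ 1) (hη0 : 0 ≤ η)
    {dm : Fin 3 → ℝ} (hη : ∀ p, dm p ≤ η * ρ p)
    {Ca : ℝ} (hC1 : φ * (2 * ω + η + 2 * (1 - κ) * cN) ≤ Ca)
    (hC2 : (∀ p, β p = 0) ∨ 2 * ω + η ≤ Ca)
    {t : ℝ × ℝ} (ht : t ∈ Sim) {i j k : Fin 3} (hij : i ≠ j) (hik : i ≠ k) (hjk : j ≠ k) :
    DK κ A' N ζ ζp lam (fun p t => φ * flP (PN N) p t) (fun p t => kap N (vv t) p) β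
        (MB σ a l τ) (fun p => am σ a l (τ 0) (τ p.succ) - dm p) t ≤
      κ * (min (vv t j + vv t k) (nc N i) + nc N j * vv t j + nc N k * vv t k)
        + Ca * (vv t j + vv t k)
        + lam / 2 * (bet (Zd (κ * cN) (-bar (fun i => a (τ i)) 0 x) (b3 (fun i => a (τ i)) x))
            (b3 (fun i => a (τ i)) x j) (b3 (fun i => a (τ i)) x k) *
          (alP N ζp t * (pp (b3 (fun i => a (τ i)) x j) + pp (b3 (fun i => a (τ i)) x k)))) := by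
  have h' := h.perm τ
  have v' := viol_perm v τ
  have hz' := hz.perm τ
  have hN : ∀ k m, 0 ≤ N k m := fun k m => by
    rw [hNd]
    exact NM_nonneg h' v' hz' k m
  have hd : ∀ k, N k k = 0 := fun k => by
    rw [hNd]
    exact NM_diag k
  have hcol : ∀ m, nc N m ≤ 9 / 10 := fun m => by
    rw [hNd]
    exact nc_le h' v' hz' m
  have hc : (9 / 10 : ℝ) < 1 := by norm_num
  have hgr := gram_of_dist h'.ha
  have hbal : ∀ k, ζ k + LN N ζ k = b3 (fun i => a (τ i)) x k := fun k => by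
    rw [hζd]
    exact mu_bal hN hd hc hcol (b3 (fun i => a (τ i)) x) k
  have hb : ∀ k, 0 ≤ vv t k := fun k => vv_nonneg ht k
  -- nodes and arcs: the case `lam = 0`
  have h0 := DK_body (lam := 0) (b0 := -bar (fun i => a (τ i)) 0 x)
    (zn := pp (-ζ 0) + pp (-ζ 1) + pp (-ζ 2)) (d0 := 0) (e1 := 0) (e2 := 0) h v hz τ hA' hl hρ hMρ
    hNd hζd hζp hφ le_rfl hβ0 hβ1 hK hF hκ hκ1 hcN hS hχ0 hχ hω0 hω hη0 hη le_rfl le_rfl hC1 hC2
    le_rfl le_rfl le_rfl ht hij hik hjk (by simp)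
  have e0 : DK κ A' N ζ ζp lam (fun p t => φ * flP (PN N) p t) (fun p t => kap N (vv t) p) β
        (MB σ a l τ) (fun p => am σ a l (τ 0) (τ p.succ) - dm p) t =
      DK κ A' N ζ ζp 0 (fun p t => φ * flP (PN N) p t) (fun p t => kap N (vv t) p) β
        (MB σ a l τ) (fun p => am σ a l (τ 0) (τ p.succ) - dm p) t
      + lam * alP N ζp t * ((∑ k, (ζ k + (1 - κ) * LN N ζ k)) - 1) := by
    unfold DK
    ring
  have h1 := nodes_col (N := N) hN (κ := κ) (Ca := Ca) hd hκ (hb j) (hb k) hij hik hjk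
  have hcc : κ * cN ≤ 1 / 2 := by
    have hc0 : 0 ≤ cN := by
      refine le_trans ?_ (hcN 0)
      unfold nc
      have := hN 0 0
      have := hN 1 0
      have := hN 2 0
      linarith
    have := mul_le_mul_of_nonneg_right hκ1 hc0
    linarith
  have hZ := Zd_body hgr (h'.hp x hx) (cc := κ * cN) hcc hjk
  have h2 := apex_bet hN (κ := κ) (cN := cN) (e := -bar (fun i => a (τ i)) 0 x) hζp hbal
    (by rw [b3_sum hgr x]; ring) hκ hcN (by linarith) hl0 (t := t) (j := j) (k := k) hZ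
  rw [e0]
  linarith

/-- the plain deficit (share `2/3`) -/
theorem DM_bet [IsFiniteMeasure σ] (h : CN K σ a c) (v : Viol K a S) (hz : CV a K z)
    (τ : Equiv.Perm (Fin 4)) {A' : ℝ} (hA' : 0 < A') (hl : Lok a l)
    {ρ β : Fin 3 → ℝ} (hρ : ∀ p, 0 < ρ p) (hMρ : ∀ p k, k ≠ p → MA σ a l τ p k ≤ ρ p)
    {x : E3} (hx : x ∈ K) {N : Fin 3 → Fin 3 → ℝ}
    (hNd : N = NM (fun i => a (τ i)) (fun i j => z (τ i) (τ j)))
    {ζ ζp : Fin 3 → ℝ} (hζd : ζ = zc (fun i => a (τ i)) N x) (hζp : ∀ k, 0 < ζp k)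
    (hζ : ∀ k, ζ k ≤ ζp k)
    {φ lam : ℝ} (hφ : 0 < φ) (hl0 : 0 ≤ lam) (hl1 : lam ≤ 1 - φ)
    (hβ0 : ∀ p, 0 ≤ β p) (hβ1 : ∀ p, β p ≤ 1)
    (hK : ∀ p, β p * ρ p ≤ A' * Id (fun t => kap N (vv t) p))
    (hF : ∀ p, (1 - β p) * ρ p ≤ φ * (A' * Id (flP (PN N) p)))
    {cN : ℝ} (hcN : ∀ m, nc N m ≤ cN) (hcN1 : cN ≤ 1 / 2)
    {s χ ω η : ℝ} (hS : ∀ i, S i ≤ s) (hχ0 : 0 ≤ χ) (hχ : 3 / 2 + 2 * s ≤ χ ^ 2)
    (hω0 : 0 ≤ ω) (hω : (1 - ω) * χ ≤ 1) (hη0 : 0 ≤ η)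
    {dm : Fin 3 → ℝ} (hη : ∀ p, dm p ≤ η * ρ p)
    {Ca : ℝ} (hC1 : φ * (2 * ω + η + 2 / 3 * cN) ≤ Ca)
    (hC2 : (∀ p, β p = 0) ∨ 2 * ω + η ≤ Ca)
    {t : ℝ × ℝ} (ht : t ∈ Sim) {i j k : Fin 3} (hij : i ≠ j) (hik : i ≠ k) (hjk : j ≠ k) :
    DM A' N ζ ζp lam (fun p t => φ * flP (PN N) p t) (fun p t => kap N (vv t) p) β
        (MB σ a l τ) (fun j => 1 / qM (fun i => a (τ i)) (fun i j => z (τ i) (τ j)) j)
        (fun p => am σ a l (τ 0) (τ p.succ) - dm p) t ≤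
      2 / 3 * (min (vv t j + vv t k) (nc N i) + nc N j * vv t j + nc N k * vv t k)
        + Ca * (vv t j + vv t k)
        + lam / 2 * (bet (Zd (2 / 3 * cN) (-bar (fun i => a (τ i)) 0 x) (b3 (fun i => a (τ i)) x))
            (b3 (fun i => a (τ i)) x j) (b3 (fun i => a (τ i)) x k) *
          (alP N ζp t * (pp (b3 (fun i => a (τ i)) x j) + pp (b3 (fun i => a (τ i)) x k)))) := by
  have h' := h.perm τ
  have v' := viol_perm v τ
  have hz' := hz.perm τ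
  have hN : ∀ k m, 0 ≤ N k m := fun k m => by
    rw [hNd]
    exact NM_nonneg h' v' hz' k m
  have hd : ∀ k, N k k = 0 := fun k => by
    rw [hNd]
    exact NM_diag k
  have hcol : ∀ m, nc N m ≤ 9 / 10 := fun m => by
    rw [hNd]
    exact nc_le h' v' hz' m
  have hc : (9 / 10 : ℝ) < 1 := by norm_num
  have hM : ∀ p k, k ≠ p → MB σ a l τ p k ≤ ρ p := fun p k hk => by
    unfold MB
    rw [if_neg hk]
    exact hMρ p k hk
  have hμ : ∀ k, 1 + nc N k - (fun j => 1 / qM (fun i => a (τ i))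
      (fun i j => z (τ i) (τ j)) j) k ≤ 2 / 3 * nc N k := fun k => by
    rw [hNd]
    exact nun_le h' v' hz' k
  refine (DM_le_DK hN hd hc hcol (κ := 2 / 3) (by norm_num) hμ hA' hφ hl0 hl1 hζp hζ hβ1 hρ
    (fun p => MB_diag τ p) hM hF ht).trans ?_
  exact DK_bet h v hz τ hA' hl hρ hMρ hx hNd hζd hζp hφ hl0 hβ0 hβ1 hK hF (κ := 2 / 3)
    (by norm_num) (by norm_num) hcN hcN1 hS hχ0 hχ hω0 hω hη0 hη (by linarith) hC2 ht hij hik hjk

/-- the deficit of `inst_F2` (share `1/2`) -/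
theorem DhM_bet [IsFiniteMeasure σ] (h : CN K σ a c) (v : Viol K a S) (hz : CV a K z)
    (τ : Equiv.Perm (Fin 4)) {A' : ℝ} (hA' : 0 < A') (hl : Lok a l)
    {ρ β : Fin 3 → ℝ} (hρ : ∀ p, 0 < ρ p) (hMρ : ∀ p k, k ≠ p → MA σ a l τ p k ≤ ρ p)
    {x : E3} (hx : x ∈ K) {N : Fin 3 → Fin 3 → ℝ}
    (hNd : N = NM (fun i => a (τ i)) (fun i j => z (τ i) (τ j)))
    {ζ ζp : Fin 3 → ℝ} (hζd : ζ = zc (fun i => a (τ i)) N x) (hζp : ∀ k, 0 < ζp k)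
    {φ lam : ℝ} (hφ : 0 < φ) (hl0 : 0 ≤ lam)
    (hβ0 : ∀ p, 0 ≤ β p) (hβ1 : ∀ p, β p ≤ 1)
    (hK : ∀ p, β p * ρ p ≤ A' * Id (fun t => kap N (vv t) p))
    (hF : ∀ p, (1 - β p) * ρ p ≤ φ * (A' * Id (flP (PN N) p)))
    {cN : ℝ} (hcN : ∀ m, nc N m ≤ cN) (hcN1 : cN ≤ 1 / 2)
    {s χ ω η : ℝ} (hS : ∀ i, S i ≤ s) (hχ0 : 0 ≤ χ) (hχ : 3 / 2 + 2 * s ≤ χ ^ 2)
    (hω0 : 0 ≤ ω) (hω : (1 - ω) * χ ≤ 1) (hη0 : 0 ≤ η)
    {dm : Fin 3 → ℝ} (hη : ∀ p, dm p ≤ η * ρ p)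
    {Ca : ℝ} (hC1 : φ * (2 * ω + η + cN) ≤ Ca)
    (hC2 : (∀ p, β p = 0) ∨ 2 * ω + η ≤ Ca)
    {t : ℝ × ℝ} (ht : t ∈ Sim) {i j k : Fin 3} (hij : i ≠ j) (hik : i ≠ k) (hjk : j ≠ k) :
    DhM A' N ζ ζp lam (fun p t => φ * flP (PN N) p t) (fun p t => kap N (vv t) p) β
        (MB σ a l τ) (fun p => am σ a l (τ 0) (τ p.succ) - dm p) t ≤
      1 / 2 * (min (vv t j + vv t k) (nc N i) + nc N j * vv t j + nc N k * vv t k)
        + Ca * (vv t j + vv t k)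
        + lam / 2 * (bet (Zd (1 / 2 * cN) (-bar (fun i => a (τ i)) 0 x) (b3 (fun i => a (τ i)) x))
            (b3 (fun i => a (τ i)) x j) (b3 (fun i => a (τ i)) x k) *
          (alP N ζp t * (pp (b3 (fun i => a (τ i)) x j) + pp (b3 (fun i => a (τ i)) x k)))) := by
  rw [DhM_eq_DK]
  exact DK_bet h v hz τ hA' hl hρ hMρ hx hNd hζd hζp hφ hl0 hβ0 hβ1 hK hF (κ := 1 / 2)
    (by norm_num) (by norm_num) hcN hcN1 hS hχ0 hχ hω0 hω hη0 hη (by linarith) hC2 ht hij hik hjk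

/-- **the weight of the apex**: `AB = alP (b_j⁺ + b_k⁺)` -/
theorem AB_body [IsFiniteMeasure σ] (h : CN K σ a c) (v : Viol K a S) (hz : CV a K z)
    (τ : Equiv.Perm (Fin 4)) {x : E3} {N : Fin 3 → Fin 3 → ℝ}
    (hNd : N = NM (fun i => a (τ i)) (fun i j => z (τ i) (τ j)))
    {ζ ζp : Fin 3 → ℝ} (hζd : ζ = zc (fun i => a (τ i)) N x) (hζp : ∀ k, 0 < ζp k)
    (hζ : ∀ k, ζ k ≤ ζp k) {t : ℝ × ℝ} (ht : t ∈ Sim) (j k : Fin 3) :
    0 ≤ alP N ζp t * (pp (b3 (fun i => a (τ i)) x j) + pp (b3 (fun i => a (τ i)) x k)) ∧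
    alP N ζp t * (pp (b3 (fun i => a (τ i)) x j) + pp (b3 (fun i => a (τ i)) x k)) ≤
      vv t j + vv t k ∧
    prt (b3 (fun i => a (τ i)) x j) (b3 (fun i => a (τ i)) x k) *
      (alP N ζp t * (pp (b3 (fun i => a (τ i)) x j) + pp (b3 (fun i => a (τ i)) x k))) ≤ vv t j ∧
    (1 - prt (b3 (fun i => a (τ i)) x j) (b3 (fun i => a (τ i)) x k)) *
      (alP N ζp t * (pp (b3 (fun i => a (τ i)) x j) + pp (b3 (fun i => a (τ i)) x k))) ≤
        vv t k := by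
  have h' := h.perm τ
  have v' := viol_perm v τ
  have hz' := hz.perm τ
  have hN : ∀ k m, 0 ≤ N k m := fun k m => by
    rw [hNd]
    exact NM_nonneg h' v' hz' k m
  have hd : ∀ k, N k k = 0 := fun k => by
    rw [hNd]
    exact NM_diag k
  have hcol : ∀ m, nc N m ≤ 9 / 10 := fun m => by
    rw [hNd]
    exact nc_le h' v' hz' m
  have hc : (9 / 10 : ℝ) < 1 := by norm_num
  have hbal : ∀ k, ζ k + LN N ζ k = b3 (fun i => a (τ i)) x k := fun k => by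
    rw [hζd]
    exact mu_bal hN hd hc hcol (b3 (fun i => a (τ i)) x) k
  have q := alP_b hN hd hc hcol hζp hζ hbal ht
  have h0 := alP_nonneg (N := N) hζp t
  have p1 := pp_nonneg (b3 (fun i => a (τ i)) x j)
  have p2 := pp_nonneg (b3 (fun i => a (τ i)) x k)
  have e := prt_mul (b3 (fun i => a (τ i)) x j) (b3 (fun i => a (τ i)) x k)
  have qj := q j
  have qk := q k
  refine ⟨mul_nonneg h0 (by linarith), by linarith, ?_, ?_⟩
  · have e2 : prt (b3 (fun i => a (τ i)) x j) (b3 (fun i => a (τ i)) x k) *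
        (alP N ζp t * (pp (b3 (fun i => a (τ i)) x j) + pp (b3 (fun i => a (τ i)) x k))) =
        alP N ζp t * pp (b3 (fun i => a (τ i)) x j) := by
      linear_combination (alP N ζp t) * e
    rw [e2]
    exact qj
  · have e2 : (1 - prt (b3 (fun i => a (τ i)) x j) (b3 (fun i => a (τ i)) x k)) *
        (alP N ζp t * (pp (b3 (fun i => a (τ i)) x j) + pp (b3 (fun i => a (τ i)) x k))) =
        alP N ζp t * pp (b3 (fun i => a (τ i)) x k) := by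
      linear_combination (-alP N ζp t) * e
    rw [e2]
    exact qk

end Helper78.MEI
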