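import Pool.Agent.Helper78.MEI.WB18
import Pool.Agent.Helper93.MEI.Neg5c

/-!
# Project MEI (M2), w-term: the cost on a piece, any number of classes, small moments

`ws_tabS` (moments of `momP_small`), `ws_nZ` (classes of any list `L`, exact combination of the
corners).
-/

set_option autoImplicit false

namespace Helper78.MEI

open Set Metric MeasureTheory Helper80.CW Helper82.CW Helper14.CW Helper93.MEI Helper82.M2
open Pool.Agent.Helper73.MEI.ArCor (Rng WOKG)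
open Pool.Agent.Helper31.SR.MilF (Pc)
open Pool.Agent.Helper31.SR.MilH (WS)
open Helper14.MEI4 (ZT zckM zckT dcv)
open Helper60.R7 (U U_pos)
open Helper60.R8 (Cor)

/-- **the cost on a piece from the tables**, small moments -/
theorem ws_tabS {P : Par} {ρ cN s χ ω g0 g1 a0 a1 Tm : ℝ}
    (hP : POk P 2.04 ρ cN s χ ω g0 g1 (22.6276 * ρ * (35 / 48) ^ 2 / 2.04) a0 a1)
    (hφ : Chd ρ a0 a1 Tm) (ha0 : 0 ≤ a0) (ha1 : 0 ≤ a1)
    (hTm : 3 * cN ≤ Tm) (hTm2 : Tm < 2) (hcN1 : cN ≤ 3 / 20)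
    {X' rm qm nb ρ1 Rb gg ε k1 k12 t2 δ : ℝ} (R1 : Rng X' rm qm nb ρ1 Rb gg ε k1 k12 t2 δ)
    (hnb0 : 0 ≤ nb) (hnb : nb ≤ cN) (hX's : X' ≤ s) (hX' : X' ≤ (P.X : ℝ) / U6)
    (hX11 : X' ≤ 11 / 1000) {t0 t1 b : ℝ} (ht : t1 ≤ X') (hρ : 0.0316123 + 0.3383 * t1 ≤ ρ)
    {ι : Type} {T0 : Cor} {As0 : List Alt} {T1 : ι → Cor} {As1 : ι → List Alt} {lo hi : ι → ℕ}
    (hT0 : T0.ok 2040000 742000 243500 = true)
    (hT1 : ∀ e, (T1 e).ok 2040000 742000 243500 = true)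
    (hR0 : tab12G P 0 As0 0 U6 T0 = true) (hR1 : ∀ e, tab12G P 1 (As1 e) (lo e) (hi e) (T1 e) = true)
    (hh0 : T0.h = 0) (hh1 : ∀ e, (T1 e).h = 0)
    {u0 u1 u2 : ℕ} (hf : NumF P.X lo hi T0.w (fun e => (T1 e).w) u0 u1 u2)
    (hb : (u1 : ℝ) / 1000000000 + 3 * ((u2 : ℝ) / 1000000000) + 4 * ((u0 : ℝ) / 1000000000) / t0 ≤ b) :
    WS ρ t0 t1 b := by
  have hU : (U : ℝ) = 1000000 := by norm_num [U]
  refine ⟨(u0 : ℝ) / 1000000000, (u1 : ℝ) / 1000000000, (u2 : ℝ) / 1000000000, by positivity, hb,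
    fun X => ?_⟩
  have hP' := hP.mono hnb0 hnb hX's ha0 ha1
  have hTm' : 3 * nb ≤ Tm := by linarith
  refine wokg_tabG R1 (A := 2040000) (c0 := 742000) (c1 := 243500) ?_ hP' ?_ hTm' hTm2
    hφ ?_ ?_ hX' hX11 Helper92.IsC.isC00152 ?_ ?_ ?_ ?_ ?_ hT0 hT1 hR0 hR1 hh0 hh1 hf
  · rw [hU]
    norm_num
  · linarith
  · intro K σ _ a c _ _ S _ hS
    exact hS.2.2.trans ht
  · exact Helper93.Neg5.momP_small (T := t1) (fun _ h => h.2.2) (by linarith) hρ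
  · linarith
  · norm_num
  · have := mul_le_mul_of_nonneg_left (show 1 + X' ≤ 1011 / 1000 by linarith)
      (show (0 : ℝ) ≤ 3 * 0.2435 by norm_num)
    linarith
  · rw [hU]
    norm_num
  · rw [hU]
    norm_num

/-- **the cost on a piece**, classes of any list, exact combination of the corners -/
theorem ws_nZ {P : Par} {ρ cN s χ ω g0 g1 a0 a1 Tm : ℝ}
    (hP : POk P 2.04 ρ cN s χ ω g0 g1 (22.6276 * ρ * (35 / 48) ^ 2 / 2.04) a0 a1)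
    (hφ : Chd ρ a0 a1 Tm) (ha0 : 0 ≤ a0) (ha1 : 0 ≤ a1)
    (hTm : 3 * cN ≤ Tm) (hTm2 : Tm < 2) (hcN1 : cN ≤ 3 / 20)
    {X' rm qm nb ρ1 Rb gg ε k1 k12 t2 δ : ℝ} (R1 : Rng X' rm qm nb ρ1 Rb gg ε k1 k12 t2 δ)
    (hnb0 : 0 ≤ nb) (hnb : nb ≤ cN) (hX's : X' ≤ s) (hX' : X' ≤ (P.X : ℝ) / U6)
    (hX11 : X' ≤ 11 / 1000) {t0 t1 b : ℝ} (ht : t1 ≤ X') (hρ : 0.0316123 + 0.3383 * t1 ≤ ρ)
    {L : List ℕ} (hL : L ≠ []) (hl : L.getLastD 0 = 1000000)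
    {T0 : Cor} {T1 : ℕ → Cor} {A0 : List (ℕ × ℕ × ℕ)} {B : ℕ → List (ℕ × ℕ × ℕ)}
    (o0 : T0.ok 2040000 742000 243500 = true)
    (o1 : ∀ c < L.length, (T1 c).ok 2040000 742000 243500 = true)
    (q0 : tab12G P 0 (A0.map altOf) 0 1000000 T0 = true)
    (q1 : ∀ c < L.length,
      tab12G P 1 ((B c).map altOf) ((0 :: L).getD c 0) (L.getD c 0) (T1 c) = true)
    (h0 : T0.h = 0) (h1 : ∀ c < L.length, (T1 c).h = 0)
    {Pl : List ℕ} {W : ℕ → List ℕ} {Dc : List (List ℕ)} {Vl : List ℕ} {Tl : List ZT}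
    (e0 : ∀ i, T0.w i = Pl.getD i 0) (e1 : ∀ c < L.length, ∀ i, (T1 c).w i = (W c).getD i 0)
    (m : ∀ c < L.length, zwck Pl Dc c (W c) = true)
    {X u0 u1 u2 : ℕ} (hX : P.X = X)
    (hf : ∀ g < 12, zckM Pl (Vl.getD g 0) X u0 u1 u2 g = true)
    (hT : ∀ g < 12, zckT X L Dc (Vl.getD g 0) (Tl.getD g (ZT.lf 0)) g = true)
    (hb : (u1 : ℝ) / 1000000000 + 3 * ((u2 : ℝ) / 1000000000) + 4 * ((u0 : ℝ) / 1000000000) / t0 ≤ b) :
    WS ρ t0 t1 b := by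
  subst hX
  have hU' : (U6 : ℕ) = 1000000 := rfl
  have key := numF_zc (L := L) (w0 := T0.w) (w1 := fun c => (T1 c).w) hP.Xp hL hl hf hT
    (fun v _ => (e0 v).le) (fun c hc v hv => (e1 c hc v).le.trans (zwck_le (m c hc) v hv))
  exact ws_tabS hP hφ ha0 ha1 hTm hTm2 hcN1 R1 hnb0 hnb hX's hX' hX11 ht hρ
    (T0 := T0) (ι := Fin L.length) (T1 := fun c => T1 c) (As0 := A0.map altOf)
    (As1 := fun c => (B c).map altOf) (lo := fun c => (0 :: L).getD (c : ℕ) 0)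
    (hi := fun c => L.getD (c : ℕ) 0)
    o0 (fun c => o1 c c.2) (by rw [hU']; exact q0) (fun c => q1 c c.2) h0 (fun c => h1 c c.2)
    key hb

end Helper78.MEI
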