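import Pool.Agent.Helper78.MEI.WB11

/-!
# Project MEI (M2), w-term: the numbers of the ranges

`P100` with `POk` and the chord of the share.
-/

set_option autoImplicit false

namespace Helper78.MEI

/-- numbers of the range `Σ S ≤ 0.01` -/
def P100 : Par := ⟨10000, 666667, 35303, 111303, 85970, 73303, 92469, 215213, 396796⟩

theorem pok100 : POk P100 2.04 0.035 0.10528 0.01 1.23289 0.1889 0.035303 15.2
    (22.6276 * 0.035 * (35 / 48) ^ 2 / 2.04) 0.20641 0.4804 where
  A0 := by norm_num
  ρ0 := by norm_num
  cN2 := by norm_num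
  cN0 := by norm_num
  χ0 := by norm_num
  χs := by norm_num
  ω0 := by norm_num
  ωχ := by norm_num
  Xp := by norm_num [P100]
  K2 := by norm_num [P100, U6]
  nok := ⟨by norm_num [P100, U6], by norm_num [P100, U6], by norm_num [P100, U6],
    by norm_num [P100, U6]⟩
  g10 := by norm_num
  leak := fun n n0 n1 => by
    have h1 := mul_nonneg (sub_nonneg.2 n1) (sq_nonneg (n - 0.07329))
    have h2 := sq_nonneg (n - 0.07329)
    have h3 := mul_nonneg n0 (sub_nonneg.2 n1)
    nlinarith
  c0 := by norm_num [P100, U6]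
  c1 := by norm_num [P100, U6]
  hl := by norm_num [P100, U6]

theorem chd100 : Chd 0.035 0.20641 0.4804 0.31584 := by
  intro T h0 h1
  have e1 := mul_nonneg h0 (sub_nonneg.2 h1)
  have e2 := mul_nonneg h0 e1
  have e3 := mul_nonneg h0 e2
  nlinarith

end Helper78.MEI
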