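import Pool.Agent.Helper78.MEI.WB3

/-!
# Project MEI (M2), w-term: the twelve vertices of the violations, the row contract, the
maximum over the three relative deficits

`lam12` = weights of the twelve vertices; `lam24` = with the bit of the relative deficit;
`vck` = check of one vector of a row, `vck_le` its meaning; `vec_sum` = the sum over the rows;
`bet_max`, `face_num`.
-/

set_option autoImplicit false

namespace Helper78.MEI

open Finset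

/-! ### Weights of the vertices -/

/-- weights of the twelve vertices -/
noncomputable def lam12 (X s x y z : ℝ) : ℕ → ℝ
  | 0 => 1 - (s + x + y + z) / X
  | 1 => l0 s x y z / X
  | 2 => (x - min s x) / X
  | 3 => (y - min s y) / X
  | 4 => (z - min s z) / X
  | 5 => 2 * l1' s x y z / X
  | 6 => 2 * l1' s y x z / X
  | 7 => 2 * l1' s z x y / X
  | 8 => 3 * l2' s x y z / X
  | 9 => 3 * l2' s x z y / X
  | 10 => 3 * l2' s y z x / X
  | 11 => 4 * l3 s x y z / X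
  | _ => 0

theorem lam12_nonneg {X s x y z : ℝ} (hX : 0 < X) (hs : 0 ≤ s) (hx : 0 ≤ x) (hy : 0 ≤ y)
    (hz : 0 ≤ z) (h : s + x + y + z ≤ X) : ∀ v, 0 ≤ lam12 X s x y z v
  | 0 => by
    show 0 ≤ 1 - (s + x + y + z) / X
    have : (s + x + y + z) / X ≤ 1 := (div_le_one hX).2 h
    linarith
  | 1 => div_nonneg (l0_nonneg s x y z) hX.le
  | 2 => div_nonneg (sub_nonneg.2 (min_le_right s x)) hX.le
  | 3 => div_nonneg (sub_nonneg.2 (min_le_right s y)) hX.le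
  | 4 => div_nonneg (sub_nonneg.2 (min_le_right s z)) hX.le
  | 5 => div_nonneg (mul_nonneg zero_le_two (l1_nonneg s x y z)) hX.le
  | 6 => div_nonneg (mul_nonneg zero_le_two (l1_nonneg s y x z)) hX.le
  | 7 => div_nonneg (mul_nonneg zero_le_two (l1_nonneg s z x y)) hX.le
  | 8 => div_nonneg (mul_nonneg zero_le_three (l2_nonneg s x y z)) hX.le
  | 9 => div_nonneg (mul_nonneg zero_le_three (l2_nonneg s x z y)) hX.le
  | 10 => div_nonneg (mul_nonneg zero_le_three (l2_nonneg s y z x)) hX.le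
  | 11 => div_nonneg (mul_nonneg zero_le_four (l3_nonneg hs hx hy hz)) hX.le
  | _ + 12 => le_rfl

/-- a sum over the vertices -/
theorem sum12 (L f : ℕ → ℝ) : ∑ v ∈ range 12, L v * f v =
    L 0 * f 0 + L 1 * f 1 + L 2 * f 2 + L 3 * f 3 + L 4 * f 4 + L 5 * f 5 + L 6 * f 6
      + L 7 * f 7 + L 8 * f 8 + L 9 * f 9 + L 10 * f 10 + L 11 * f 11 := by
  simp only [sum_range_succ, sum_range_zero, zero_add]

/-- the level of a vertex -/
noncomputable def s12 : ℕ → ℝ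
  | 1 => 1
  | 5 => 1 / 2
  | 6 => 1 / 2
  | 7 => 1 / 2
  | 8 => 1 / 3
  | 9 => 1 / 3
  | 10 => 1 / 3
  | 11 => 1 / 4
  | _ => 0

/-- the first violation of a vertex -/
noncomputable def x12 : ℕ → ℝ
  | 2 => 1
  | 5 => 1 / 2
  | 8 => 1 / 3
  | 9 => 1 / 3
  | 11 => 1 / 4
  | _ => 0

/-- the second violation of a vertex -/
noncomputable def y12 : ℕ → ℝ
  | 3 => 1
  | 6 => 1 / 2
  | 8 => 1 / 3
  | 10 => 1 / 3
  | 11 => 1 / 4
  | _ => 0

/-- the third violation of a vertex -/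
noncomputable def z12 : ℕ → ℝ
  | 4 => 1
  | 7 => 1 / 2
  | 9 => 1 / 3
  | 10 => 1 / 3
  | 11 => 1 / 4
  | _ => 0

/-- the minimum of the level and the first violation -/
noncomputable def mx12 : ℕ → ℝ
  | 5 => 1 / 2
  | 8 => 1 / 3
  | 9 => 1 / 3
  | 11 => 1 / 4
  | _ => 0

noncomputable def my12 : ℕ → ℝ
  | 6 => 1 / 2
  | 8 => 1 / 3
  | 10 => 1 / 3
  | 11 => 1 / 4
  | _ => 0

noncomputable def mz12 : ℕ → ℝ
  | 7 => 1 / 2
  | 9 => 1 / 3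
  | 10 => 1 / 3
  | 11 => 1 / 4
  | _ => 0

section
variable {X s x y z : ℝ} (hX : 0 < X)
include hX

theorem lam12_one : ∑ v ∈ range 12, lam12 X s x y z v = 1 := by
  obtain ⟨h0, h1, h2, h3⟩ := lay s x y z
  have h := sum12 (lam12 X s x y z) fun _ => 1
  simp only [mul_one] at h
  rw [h]
  simp only [lam12]
  field_simp
  linarith

theorem lam12_s : ∑ v ∈ range 12, lam12 X s x y z v * (X * s12 v) = s := by
  obtain ⟨h0, h1, h2, h3⟩ := lay s x y z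
  rw [sum12]
  simp only [lam12, s12]
  field_simp
  linarith

theorem lam12_x : ∑ v ∈ range 12, lam12 X s x y z v * (X * x12 v) = x := by
  obtain ⟨h0, h1, h2, h3⟩ := lay s x y z
  rw [sum12]
  simp only [lam12, x12]
  field_simp
  linarith

theorem lam12_y : ∑ v ∈ range 12, lam12 X s x y z v * (X * y12 v) = y := by
  obtain ⟨h0, h1, h2, h3⟩ := lay s x y z
  rw [sum12]
  simp only [lam12, y12]
  field_simp
  linarith

theorem lam12_z : ∑ v ∈ range 12, lam12 X s x y z v * (X * z12 v) = z := by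
  obtain ⟨h0, h1, h2, h3⟩ := lay s x y z
  rw [sum12]
  simp only [lam12, z12]
  field_simp
  linarith

theorem lam12_mx : ∑ v ∈ range 12, lam12 X s x y z v * (X * mx12 v) = min s x := by
  obtain ⟨h0, h1, h2, h3⟩ := lay s x y z
  rw [sum12]
  simp only [lam12, mx12]
  field_simp
  linarith

theorem lam12_my : ∑ v ∈ range 12, lam12 X s x y z v * (X * my12 v) = min s y := by
  obtain ⟨h0, h1, h2, h3⟩ := lay s x y z
  rw [sum12]
  simp only [lam12, my12]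
  field_simp
  linarith

theorem lam12_mz : ∑ v ∈ range 12, lam12 X s x y z v * (X * mz12 v) = min s z := by
  obtain ⟨h0, h1, h2, h3⟩ := lay s x y z
  rw [sum12]
  simp only [lam12, mz12]
  field_simp
  linarith

end

/-- with the bit of the relative deficit -/
noncomputable def lam24 (L : ℕ → ℝ) (β : ℝ) (i : ℕ) : ℝ :=
  if i < 12 then (1 - β) * L i else β * L (i - 12)

theorem lam24_nonneg {L : ℕ → ℝ} {β : ℝ} (hL : ∀ v, 0 ≤ L v) (h0 : 0 ≤ β) (h1 : β ≤ 1) (i : ℕ) :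
    0 ≤ lam24 L β i := by
  unfold lam24
  split_ifs
  · exact mul_nonneg (sub_nonneg.2 h1) (hL _)
  · exact mul_nonneg h0 (hL _)

theorem sum24 (L : ℕ → ℝ) (β : ℝ) (f : ℕ → ℝ) : ∑ i ∈ range 24, lam24 L β i * f i =
    ∑ v ∈ range 12, L v * ((1 - β) * f v + β * f (12 + v)) := by
  rw [show (24 : ℕ) = 12 + 12 by rfl, sum_range_add, ← sum_add_distrib]
  refine sum_congr rfl fun v hv => ?_
  have h1 : v < 12 := mem_range.1 hv
  have h2 : ¬ 12 + v < 12 := by omega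
  have h3 : 12 + v - 12 = v := by omega
  unfold lam24
  rw [if_pos h1, if_neg h2, h3]
  ring

theorem sum24_one {L : ℕ → ℝ} (hL : ∑ v ∈ range 12, L v = 1) (β : ℝ) :
    ∑ i ∈ range 24, lam24 L β i = 1 := by
  have h := sum24 L β fun _ => 1
  simp only [mul_one] at h
  rw [h]
  refine (sum_congr rfl fun v _ => ?_).trans hL
  ring

/-! ### The row contract -/

/-- the unit -/
def U6 : ℕ := 1000000

theorem U6_pos : (0 : ℝ) < (U6 : ℝ) := by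
  unfold U6
  norm_num

/-- numbers of a piece, units `10⁻⁶`: size of the vertices, share of the leaks, leaks at the four
levels, `c0 + c1 T` = majorant of the slope of nodes and arcs, `hl` = half of the factor of the
apex -/
structure Par where
  X : ℕ
  K : ℕ
  n0 : ℕ
  n2 : ℕ
  n3 : ℕ
  n4 : ℕ
  c0 : ℕ
  c1 : ℕ
  hl : ℕ

/-- type of a vector: mixture number `th`, slopes `ax`, `ay` of the apex -/
structure Alt where
  th : ℕ
  ax : ℕ
  ay : ℕ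

def Par.nI (P : Par) : ℕ → ℕ
  | 5 => P.n2
  | 8 => P.n3
  | 9 => P.n3
  | 11 => P.n4
  | _ => P.n0

def Par.nJ (P : Par) : ℕ → ℕ
  | 6 => P.n2
  | 8 => P.n3
  | 10 => P.n3
  | 11 => P.n4
  | _ => P.n0

def Par.nL (P : Par) : ℕ → ℕ
  | 7 => P.n2
  | 9 => P.n3
  | 10 => P.n3
  | 11 => P.n4
  | _ => P.n0

/-- the type is valid for all positions in `[p0, p1]` -/
def Alt.ok (p0 p1 : ℕ) (A : Alt) : Bool :=
  Nat.ble A.th U6 && Nat.ble (U6 * U6) (A.ax * p0 + A.ay * (U6 - p0)) &&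
    Nat.ble (U6 * U6) (A.ax * p1 + A.ay * (U6 - p1))

/-- check of one vector at the vertex `v` with the bit `b` -/
def vck (P : Par) (A : Alt) (v b k j l : ℕ) : Bool :=
  Nat.ble (P.K * ((U6 - A.th) * P.nI v)) (k * (U6 * U6)) &&
  Nat.ble (P.K * (A.th * U6 + (U6 - A.th) * P.nI v + U6 * P.nJ v) +
    U6 * (P.c0 * U6 + P.c1 * (P.nI v + P.nJ v + P.nL v)) + U6 * (b * (P.hl * A.ax)))
    (j * (U6 * U6)) &&
  Nat.ble (P.K * (A.th * U6 + (U6 - A.th) * P.nI v + U6 * P.nL v) +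
    U6 * (P.c0 * U6 + P.c1 * (P.nI v + P.nJ v + P.nL v)) + U6 * (b * (P.hl * A.ay)))
    (l * (U6 * U6))

/-- meaning of the type check -/
theorem Alt.ok_le {p0 p1 : ℕ} {A : Alt} (h : A.ok p0 p1 = true) (h01 : p0 ≤ p1) (h1 : p1 ≤ U6)
    {p AB x y : ℝ} (hp0 : (p0 : ℝ) / U6 ≤ p) (hp1 : p ≤ (p1 : ℝ) / U6) (hAB : 0 ≤ AB)
    (hx : p * AB ≤ x) (hy : (1 - p) * AB ≤ y) :
    AB ≤ (A.ax : ℝ) / U6 * x + (A.ay : ℝ) / U6 * y := by
  have hU := U6_pos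
  unfold Alt.ok at h
  simp only [Bool.and_eq_true, Nat.ble_eq] at h
  obtain ⟨⟨-, ha⟩, hb⟩ := h
  have ha' : ((U6 * U6 : ℕ) : ℝ) ≤ ((A.ax * p0 + A.ay * (U6 - p0) : ℕ) : ℝ) := by
    exact_mod_cast ha
  have hb' : ((U6 * U6 : ℕ) : ℝ) ≤ ((A.ax * p1 + A.ay * (U6 - p1) : ℕ) : ℝ) := by
    exact_mod_cast hb
  push_cast [Nat.cast_sub h1, Nat.cast_sub (h01.trans h1)] at ha' hb'
  obtain ⟨ax, hax⟩ : ∃ a, a = (A.ax : ℝ) / U6 := ⟨_, rfl⟩
  obtain ⟨ay, hay⟩ : ∃ a, a = (A.ay : ℝ) / U6 := ⟨_, rfl⟩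
  obtain ⟨q0, hq0⟩ : ∃ a, a = (p0 : ℝ) / U6 := ⟨_, rfl⟩
  obtain ⟨q1, hq1⟩ : ∃ a, a = (p1 : ℝ) / U6 := ⟨_, rfl⟩
  have e1 : (A.ax : ℝ) = ax * U6 := by rw [hax]; field_simp
  have e2 : (A.ay : ℝ) = ay * U6 := by rw [hay]; field_simp
  have e3 : (p0 : ℝ) = q0 * U6 := by rw [hq0]; field_simp
  have e4 : (p1 : ℝ) = q1 * U6 := by rw [hq1]; field_simp
  rw [e1, e2, e3] at ha'
  rw [e1, e2, e4] at hb'
  rw [← hq0] at hp0
  rw [← hq1] at hp1
  rw [← hax, ← hay]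
  have hax0 : 0 ≤ ax := by rw [hax]; positivity
  have hay0 : 0 ≤ ay := by rw [hay]; positivity
  have k0 : 1 ≤ ax * q0 + ay * (1 - q0) := by
    have : (U6 : ℝ) * U6 * 1 ≤ (U6 : ℝ) * U6 * (ax * q0 + ay * (1 - q0)) := by
      calc (U6 : ℝ) * U6 * 1 = (U6 : ℝ) * U6 := by ring
        _ ≤ ax * U6 * (q0 * U6) + ay * U6 * (U6 - q0 * U6) := ha'
        _ = _ := by ring
    exact le_of_mul_le_mul_left this (by positivity)
  have k1 : 1 ≤ ax * q1 + ay * (1 - q1) := by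
    have : (U6 : ℝ) * U6 * 1 ≤ (U6 : ℝ) * U6 * (ax * q1 + ay * (1 - q1)) := by
      calc (U6 : ℝ) * U6 * 1 = (U6 : ℝ) * U6 := by ring
        _ ≤ ax * U6 * (q1 * U6) + ay * U6 * (U6 - q1 * U6) := hb'
        _ = _ := by ring
    exact le_of_mul_le_mul_left this (by positivity)
  have k2 : 1 ≤ ax * p + ay * (1 - p) := by
    rcases le_total ax ay with h | h
    · have := mul_le_mul_of_nonneg_left hp1 (sub_nonneg.2 h)
      linarith
    · have := mul_le_mul_of_nonneg_left hp0 (sub_nonneg.2 h)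
      linarith
  have k3 := mul_le_mul_of_nonneg_right k2 hAB
  have k4 := mul_le_mul_of_nonneg_left hx hax0
  have k5 := mul_le_mul_of_nonneg_left hy hay0
  linarith

/-- the real value demanded from a vector -/
noncomputable def dem (P : Par) (A : Alt) (v : ℕ) (b x y : ℝ) : ℝ :=
  (P.K : ℝ) / U6 * ((1 - (A.th : ℝ) / U6) * ((P.nI v : ℝ) / U6) + (A.th : ℝ) / U6 * (x + y)
    + (P.nJ v : ℝ) / U6 * x + (P.nL v : ℝ) / U6 * y)
  + ((P.c0 : ℝ) / U6 + (P.c1 : ℝ) / U6 * ((P.nI v : ℝ) / U6 + (P.nJ v : ℝ) / U6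
    + (P.nL v : ℝ) / U6)) * (x + y)
  + b * ((P.hl : ℝ) / U6 * ((A.ax : ℝ) / U6 * x + (A.ay : ℝ) / U6 * y))

/-- **meaning of the check of a vector** -/
theorem vck_le {P : Par} {A : Alt} {v b k j l : ℕ} (hA : A.th ≤ U6)
    (h : vck P A v b k j l = true) {x y : ℝ} (hx : 0 ≤ x) (hy : 0 ≤ y) (hxy : x + y ≤ 1) :
    dem P A v b x y ≤ (k : ℝ) / U6 * (1 - x - y) + (j : ℝ) / U6 * x + (l : ℝ) / U6 * y := by
  have hU := U6_pos
  unfold vck at h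
  simp only [Bool.and_eq_true, Nat.ble_eq] at h
  obtain ⟨⟨h1, h2⟩, h3⟩ := h
  have h1' : ((P.K * ((U6 - A.th) * P.nI v) : ℕ) : ℝ) ≤ ((k * (U6 * U6) : ℕ) : ℝ) := by
    exact_mod_cast h1
  have h2' : ((P.K * (A.th * U6 + (U6 - A.th) * P.nI v + U6 * P.nJ v) +
    U6 * (P.c0 * U6 + P.c1 * (P.nI v + P.nJ v + P.nL v)) + U6 * (b * (P.hl * A.ax)) : ℕ) : ℝ) ≤
    ((j * (U6 * U6) : ℕ) : ℝ) := by exact_mod_cast h2
  have h3' : ((P.K * (A.th * U6 + (U6 - A.th) * P.nI v + U6 * P.nL v) +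
    U6 * (P.c0 * U6 + P.c1 * (P.nI v + P.nJ v + P.nL v)) + U6 * (b * (P.hl * A.ay)) : ℕ) : ℝ) ≤
    ((l * (U6 * U6) : ℕ) : ℝ) := by exact_mod_cast h3
  push_cast [Nat.cast_sub hA] at h1' h2' h3'
  obtain ⟨K, eK⟩ : ∃ a, a = (P.K : ℝ) / U6 := ⟨_, rfl⟩
  obtain ⟨θ, eθ⟩ : ∃ a, a = (A.th : ℝ) / U6 := ⟨_, rfl⟩
  obtain ⟨ax, eax⟩ : ∃ a, a = (A.ax : ℝ) / U6 := ⟨_, rfl⟩
  obtain ⟨ay, eay⟩ : ∃ a, a = (A.ay : ℝ) / U6 := ⟨_, rfl⟩
  obtain ⟨nI, eI⟩ : ∃ a, a = (P.nI v : ℝ) / U6 := ⟨_, rfl⟩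
  obtain ⟨nJ, eJ⟩ : ∃ a, a = (P.nJ v : ℝ) / U6 := ⟨_, rfl⟩
  obtain ⟨nL, eL⟩ : ∃ a, a = (P.nL v : ℝ) / U6 := ⟨_, rfl⟩
  obtain ⟨c0, e0⟩ : ∃ a, a = (P.c0 : ℝ) / U6 := ⟨_, rfl⟩
  obtain ⟨c1, e1⟩ : ∃ a, a = (P.c1 : ℝ) / U6 := ⟨_, rfl⟩
  obtain ⟨hl, el⟩ : ∃ a, a = (P.hl : ℝ) / U6 := ⟨_, rfl⟩
  obtain ⟨kk, ek⟩ : ∃ a, a = (k : ℝ) / U6 := ⟨_, rfl⟩
  obtain ⟨jj, ej⟩ : ∃ a, a = (j : ℝ) / U6 := ⟨_, rfl⟩
  obtain ⟨ll, ell⟩ : ∃ a, a = (l : ℝ) / U6 := ⟨_, rfl⟩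
  have gen : ∀ (n : ℕ) (r : ℝ), r = (n : ℝ) / U6 → (n : ℝ) = r * U6 := fun n r h => by
    rw [h]
    field_simp
  rw [gen _ _ eK, gen _ _ eθ, gen _ _ eI, gen _ _ ek] at h1'
  rw [gen _ _ eK, gen _ _ eθ, gen _ _ eI, gen _ _ eJ, gen _ _ eL, gen _ _ e0, gen _ _ e1,
    gen _ _ el, gen _ _ eax, gen _ _ ej] at h2'
  rw [gen _ _ eK, gen _ _ eθ, gen _ _ eI, gen _ _ eJ, gen _ _ eL, gen _ _ e0, gen _ _ e1,
    gen _ _ el, gen _ _ eay, gen _ _ ell] at h3'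
  unfold dem
  rw [← eK, ← eθ, ← eax, ← eay, ← eI, ← eJ, ← eL, ← e0, ← e1, ← el, ← ek, ← ej, ← ell]
  have hU3 : (0 : ℝ) < (U6 : ℝ) * U6 * U6 := by positivity
  have g1 : K * ((1 - θ) * nI) ≤ kk := by
    refine le_of_mul_le_mul_left ?_ hU3
    calc (U6 : ℝ) * U6 * U6 * (K * ((1 - θ) * nI)) =
        K * U6 * ((U6 - θ * U6) * (nI * U6)) := by ring
      _ ≤ kk * U6 * (U6 * U6) := h1'
      _ = _ := by ring
  have g2 : K * (θ + (1 - θ) * nI + nJ) + (c0 + c1 * (nI + nJ + nL)) + b * (hl * ax) ≤ jj := by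
    refine le_of_mul_le_mul_left ?_ hU3
    calc (U6 : ℝ) * U6 * U6 * (K * (θ + (1 - θ) * nI + nJ) + (c0 + c1 * (nI + nJ + nL))
          + b * (hl * ax)) =
        K * U6 * (θ * U6 * U6 + (U6 - θ * U6) * (nI * U6) + U6 * (nJ * U6)) +
        U6 * (c0 * U6 * U6 + c1 * U6 * (nI * U6 + nJ * U6 + nL * U6)) +
        U6 * (b * (hl * U6 * (ax * U6))) := by ring
      _ ≤ jj * U6 * (U6 * U6) := h2'
      _ = _ := by ring
  have g3 : K * (θ + (1 - θ) * nI + nL) + (c0 + c1 * (nI + nJ + nL)) + b * (hl * ay) ≤ ll := by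
    refine le_of_mul_le_mul_left ?_ hU3
    calc (U6 : ℝ) * U6 * U6 * (K * (θ + (1 - θ) * nI + nL) + (c0 + c1 * (nI + nJ + nL))
          + b * (hl * ay)) =
        K * U6 * (θ * U6 * U6 + (U6 - θ * U6) * (nI * U6) + U6 * (nL * U6)) +
        U6 * (c0 * U6 * U6 + c1 * U6 * (nI * U6 + nJ * U6 + nL * U6)) +
        U6 * (b * (hl * U6 * (ay * U6))) := by ring
      _ ≤ ll * U6 * (U6 * U6) := h3'
      _ = _ := by ring
  have k1 := mul_le_mul_of_nonneg_right g1 (show 0 ≤ 1 - x - y by linarith)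
  have k2 := mul_le_mul_of_nonneg_right g2 hx
  have k3 := mul_le_mul_of_nonneg_right g3 hy
  linarith

end Helper78.MEI
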