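import Pool.Agent.Helper78.MEI.WB4
import Pool.Agent.Helper73.MEI.MA3

/-!
# Project MEI (M2), w-term: the deficit of a corner through the rows

`DM_rows`: at the corner `i` the deficit `D t` of the face certificate is at most the combination
of the demands `dem` over the twelve vertices, weights `1 - β`, `β` of the bit, for every type of
vector which is valid for the position of the apex.
-/

set_option autoImplicit false

namespace Helper78.MEI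

open Set Metric MeasureTheory Helper80.CW Helper82.CW Helper14.CW Helper93.MEI Helper82.M2
open Helper14.MEI2 Pool.Agent.Helper52.MEI Pool.Agent.Helper73.MEI Helper41.MEI
open Pool.Agent.Helper55.Sx (Sim Sim_meas)
open Pool.Agent.Helper55.Mass (LN LN_nonneg vv vv_nonneg vv_le Id)
open Pool.Agent.Helper55.Apex (nc vt_vv)
open Pool.Agent.Helper55.ApexP (PN alP alP_nonneg alP_zeta alP_le xx_mu mu_bal)
open Pool.Agent.Helper73.MEI.SideP (flP)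
open Pool.Agent.Helper73.MEI.ArCor (phiN phiN_pos phi_ok QN_nonneg)
open Pool.Agent.Helper96.Kap (kap)
open Pool.Agent.Helper31.SR
open scoped RealInnerProductSpace ENNReal

/-! ### Sums -/

theorem sum_aff {L : ℕ → ℝ} (h1 : ∑ v ∈ Finset.range 12, L v = 1) (a b c d : ℝ) (f g h : ℕ → ℝ) :
    ∑ v ∈ Finset.range 12, L v * (a + b * f v + c * g v + d * h v) =
      a + b * ∑ v ∈ Finset.range 12, L v * f v + c * ∑ v ∈ Finset.range 12, L v * g v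
        + d * ∑ v ∈ Finset.range 12, L v * h v := by
  have e : ∀ v, L v * (a + b * f v + c * g v + d * h v) =
      a * L v + b * (L v * f v) + c * (L v * g v) + d * (L v * h v) := fun v => by ring
  simp only [e, Finset.sum_add_distrib, ← Finset.mul_sum, h1, mul_one]

/-- the leak numbers of a point -/
noncomputable def nh (L : ℕ → ℝ) (f : ℕ → ℕ) : ℝ :=
  ∑ v ∈ Finset.range 12, L v * ((f v : ℝ) / U6)

/-- **the sum of the demands** -/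
theorem dem_sum {L : ℕ → ℝ} (h1 : ∑ v ∈ Finset.range 12, L v = 1) (P : Par) (A : Alt)
    (β x y : ℝ) :
    ∑ v ∈ Finset.range 12, L v * ((1 - β) * dem P A v 0 x y + β * dem P A v 1 x y) =
      (P.K : ℝ) / U6 * ((1 - (A.th : ℝ) / U6) * nh L P.nI + (A.th : ℝ) / U6 * (x + y)
        + nh L P.nJ * x + nh L P.nL * y)
      + ((P.c0 : ℝ) / U6 + (P.c1 : ℝ) / U6 * (nh L P.nI + nh L P.nJ + nh L P.nL)) * (x + y)
      + β * ((P.hl : ℝ) / U6 * ((A.ax : ℝ) / U6 * x + (A.ay : ℝ) / U6 * y)) := by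
  have e : ∀ v, (1 - β) * dem P A v 0 x y + β * dem P A v 1 x y =
      ((P.K : ℝ) / U6 * ((A.th : ℝ) / U6 * (x + y)) + (P.c0 : ℝ) / U6 * (x + y)
        + β * ((P.hl : ℝ) / U6 * ((A.ax : ℝ) / U6 * x + (A.ay : ℝ) / U6 * y)))
      + ((P.K : ℝ) / U6 * (1 - (A.th : ℝ) / U6) + (P.c1 : ℝ) / U6 * (x + y)) * ((P.nI v : ℝ) / U6)
      + ((P.K : ℝ) / U6 * x + (P.c1 : ℝ) / U6 * (x + y)) * ((P.nJ v : ℝ) / U6)
      + ((P.K : ℝ) / U6 * y + (P.c1 : ℝ) / U6 * (x + y)) * ((P.nL v : ℝ) / U6) := by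
    intro v
    unfold dem
    ring
  have s := sum_aff h1 ((P.K : ℝ) / U6 * ((A.th : ℝ) / U6 * (x + y)) + (P.c0 : ℝ) / U6 * (x + y)
        + β * ((P.hl : ℝ) / U6 * ((A.ax : ℝ) / U6 * x + (A.ay : ℝ) / U6 * y)))
      ((P.K : ℝ) / U6 * (1 - (A.th : ℝ) / U6) + (P.c1 : ℝ) / U6 * (x + y))
      ((P.K : ℝ) / U6 * x + (P.c1 : ℝ) / U6 * (x + y))
      ((P.K : ℝ) / U6 * y + (P.c1 : ℝ) / U6 * (x + y))
      (fun v => (P.nI v : ℝ) / U6) (fun v => (P.nJ v : ℝ) / U6) (fun v => (P.nL v : ℝ) / U6)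
  simp only [e]
  rw [s]
  unfold nh
  ring

/-- the numbers of the leaks at the levels -/
structure NOk (P : Par) (g0 g1 : ℝ) : Prop where
  n0 : g0 ≤ (P.n0 : ℝ) / U6
  n2 : g0 + g1 * ((P.X : ℝ) / U6 / 2) ≤ (P.n2 : ℝ) / U6
  n3 : g0 + g1 * ((P.X : ℝ) / U6 / 3) ≤ (P.n3 : ℝ) / U6
  n4 : g0 + g1 * ((P.X : ℝ) / U6 / 4) ≤ (P.n4 : ℝ) / U6

theorem NOk.le {P : Par} {g0 g1 : ℝ} (h : NOk P g0 g1) :
    (∀ v < 12, g0 + g1 * ((P.X : ℝ) / U6 * mx12 v) ≤ (P.nI v : ℝ) / U6) ∧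
    (∀ v < 12, g0 + g1 * ((P.X : ℝ) / U6 * my12 v) ≤ (P.nJ v : ℝ) / U6) ∧
    (∀ v < 12, g0 + g1 * ((P.X : ℝ) / U6 * mz12 v) ≤ (P.nL v : ℝ) / U6) := by
  obtain ⟨h0, h2, h3, h4⟩ := h
  have e2 : (P.X : ℝ) / U6 * (1 / 2) = (P.X : ℝ) / U6 / 2 := by ring
  have e3 : (P.X : ℝ) / U6 * (1 / 3) = (P.X : ℝ) / U6 / 3 := by ring
  have e4 : (P.X : ℝ) / U6 * (1 / 4) = (P.X : ℝ) / U6 / 4 := by ring
  have h0' : g0 + g1 * ((P.X : ℝ) / U6 * 0) ≤ (P.n0 : ℝ) / U6 := by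
    rw [mul_zero, mul_zero, add_zero]
    exact h0
  have h2' : g0 + g1 * ((P.X : ℝ) / U6 * (1 / 2)) ≤ (P.n2 : ℝ) / U6 := by rw [e2]; exact h2
  have h3' : g0 + g1 * ((P.X : ℝ) / U6 * (1 / 3)) ≤ (P.n3 : ℝ) / U6 := by rw [e3]; exact h3
  have h4' : g0 + g1 * ((P.X : ℝ) / U6 * (1 / 4)) ≤ (P.n4 : ℝ) / U6 := by rw [e4]; exact h4
  refine ⟨fun v hv => ?_, fun v hv => ?_, fun v hv => ?_⟩ <;> interval_cases v <;> assumption

section
variable {P : Par} {g0 g1 s x y z : ℝ} (hN : NOk P g0 g1) (hX : 0 < P.X) (hs : 0 ≤ s)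
  (hx : 0 ≤ x) (hy : 0 ≤ y) (hz : 0 ≤ z) (h : s + x + y + z ≤ (P.X : ℝ) / U6)
include hN hX hs hx hy hz h

/-- **the leaks through the rows** -/
theorem nh_ge : g0 + g1 * min s x ≤ nh (lam12 ((P.X : ℝ) / U6) s x y z) P.nI ∧
    g0 + g1 * min s y ≤ nh (lam12 ((P.X : ℝ) / U6) s x y z) P.nJ ∧
    g0 + g1 * min s z ≤ nh (lam12 ((P.X : ℝ) / U6) s x y z) P.nL := by
  have hU := U6_pos
  have hXp : (0 : ℝ) < (P.X : ℝ) / U6 := _root_.div_pos (Nat.cast_pos.2 hX) hU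
  have hL := lam12_nonneg hXp hs hx hy hz h
  obtain ⟨k1, k2, k3⟩ := hN.le
  have one := lam12_one (s := s) (x := x) (y := y) (z := z) hXp
  have key : ∀ (f : ℕ → ℕ) (m : ℕ → ℝ) (b : ℝ),
      ∑ v ∈ Finset.range 12, lam12 ((P.X : ℝ) / U6) s x y z v * ((P.X : ℝ) / U6 * m v) = b →
      (∀ v < 12, g0 + g1 * ((P.X : ℝ) / U6 * m v) ≤ (f v : ℝ) / U6) →
      g0 + g1 * b ≤ nh (lam12 ((P.X : ℝ) / U6) s x y z) f := by
    intro f m b hb hf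
    have e : g0 + g1 * b = ∑ v ∈ Finset.range 12, lam12 ((P.X : ℝ) / U6) s x y z v *
        (g0 + g1 * ((P.X : ℝ) / U6 * m v)) := by
      have e1 : ∀ v, lam12 ((P.X : ℝ) / U6) s x y z v * (g0 + g1 * ((P.X : ℝ) / U6 * m v)) =
          g0 * lam12 ((P.X : ℝ) / U6) s x y z v +
          g1 * (lam12 ((P.X : ℝ) / U6) s x y z v * ((P.X : ℝ) / U6 * m v)) := fun v => by ring
      simp only [e1, Finset.sum_add_distrib, ← Finset.mul_sum]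
      rw [one, hb, mul_one]
    rw [e]
    unfold nh
    exact Finset.sum_le_sum fun v hv =>
      mul_le_mul_of_nonneg_left (hf v (Finset.mem_range.1 hv)) (hL v)
  exact ⟨key _ _ _ (lam12_mx hXp) k1, key _ _ _ (lam12_my hXp) k2, key _ _ _ (lam12_mz hXp) k3⟩

end

/-! ### The deficit -/

theorem vv_T3 (t : ℝ × ℝ) : vv t = T3 t := rfl

/-- the integral of the passing share is nonnegative -/
theorem Id_kap_nonneg {N : Fin 3 → Fin 3 → ℝ} (hN : ∀ k m, 0 ≤ N k m) {c : ℝ} (hc : c < 1)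
    (hcol : ∀ m, nc N m ≤ c) (p : Fin 3) :
    0 ≤ Pool.Agent.Helper55.Mass.Id (fun t => kap N (vv t) p) := by
  unfold Pool.Agent.Helper55.Mass.Id
  refine mul_nonneg (by positivity) (setIntegral_nonneg Sim_meas fun t ht => ?_)
  exact div_nonneg (Pool.Agent.Helper96.Kap.kap_nonneg hN hc hcol
    (fun k => vv_nonneg ht k) p) (by positivity)

/-- the share of the arcs from below -/
theorem phiN_low {A' ρ T Q : ℝ} (hA : 0 < A') (hρ : 0 ≤ ρ) (hT : 0 ≤ T) (hT1 : T < 2)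
    (hQ : 0 ≤ Q) : 22.6276 * ρ * (35 / 48) ^ 2 / A' ≤ phiN A' ρ T Q := by
  have hD : 0 < 1 - T ^ 2 / 4 := by nlinarith
  have hD1 : 1 - T ^ 2 / 4 ≤ 1 := by nlinarith [sq_nonneg T]
  unfold phiN
  have h1 : (35 / 48 : ℝ) ^ 2 ≤ (35 / 48 + 9 / 16 * T + 5 / 12 * Q) ^ 2 :=
    pow_le_pow_left₀ (by positivity) (by linarith) 2
  have h2 := mul_le_mul_of_nonneg_left h1 (show 0 ≤ 22.6276 * ρ by positivity)
  have h3 : A' * (1 - T ^ 2 / 4) ≤ A' := by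
    have := mul_le_mul_of_nonneg_left hD1 hA.le
    linarith
  calc 22.6276 * ρ * (35 / 48) ^ 2 / A' ≤
        22.6276 * ρ * (35 / 48 + 9 / 16 * T + 5 / 12 * Q) ^ 2 / A' :=
        div_le_div_of_nonneg_right h2 hA.le
    _ ≤ _ := div_le_div_of_nonneg_left (by positivity) (by positivity) h3

/-- the share of the arcs from above, as a line in the total leak -/
theorem phiN_up {N : Fin 3 → Fin 3 → ℝ} (hN : ∀ k m, 0 ≤ N k m) {A' ρ a0 a1 Tm : ℝ} (hA : 0 < A')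
    (hρ : 0 < ρ) (hTm : Pool.Agent.Helper73.MEI.SideP.TN N ≤ Tm) (hT2 : Tm < 2)
    (h : ∀ T, 0 ≤ T → T ≤ Tm → 22.6276 * ρ * (35 / 48 + 9 / 16 * T + 5 / 12 * T ^ 2) ^ 2 ≤
      (a0 + a1 * T) * (A' * (1 - T ^ 2 / 4))) :
    phiN A' ρ (Pool.Agent.Helper73.MEI.SideP.TN N) (Pool.Agent.Helper73.MEI.SideP.QN N) ≤
      a0 + a1 * Pool.Agent.Helper73.MEI.SideP.TN N := by
  have hT0 : 0 ≤ Pool.Agent.Helper73.MEI.SideP.TN N := Pool.Agent.Helper73.MEI.SideP.TN_nonneg hN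
  have hT : Pool.Agent.Helper73.MEI.SideP.TN N < 2 := by linarith
  refine (Pool.Agent.Helper73.MEI.ArCor.phiN_mono hA hρ hT0 hT QN_nonneg
    (Pool.Agent.Helper73.MEI.ArCor.QN_le_sq hN)).trans ?_
  have hD : 0 < 1 - Pool.Agent.Helper73.MEI.SideP.TN N ^ 2 / 4 := by nlinarith
  unfold phiN
  rw [div_le_iff₀ (by positivity)]
  exact h _ hT0 hTm

variable {a : Fin 4 → E3} {K : Set E3} {S : Fin 4 → ℝ} {σ : Measure (E3 × E3)}
  {c : Fin 4 → E3} {z : Fin 4 → Fin 4 → E3} {l : Fin 3 → Bool → Bool → E3 × E3 → ℝ}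

/-- numbers of a piece against the parameters of the rows; the share `φ` of the arcs lies between
`φl` and `a0 + a1 T` -/
structure POk (P : Par) (A' ρ cN s χ ω g0 g1 φl a0 a1 : ℝ) : Prop where
  A0 : 0 < A'
  ρ0 : 0 < ρ
  cN2 : cN ≤ 1 / 2
  cN0 : 0 ≤ cN
  χ0 : 0 ≤ χ
  χs : 3 / 2 + 2 * s ≤ χ ^ 2
  ω0 : 0 ≤ ω
  ωχ : (1 - ω) * χ ≤ 1
  Xp : 0 < P.X
  K2 : 2 / 3 ≤ (P.K : ℝ) / U6
  nok : NOk P g0 g1
  g10 : 0 ≤ g1
  leak : ∀ n : ℝ, 0 ≤ n → n ≤ cN → n * (2 + n) ^ 2 ≤ g0 * (2 + n) ^ 2 + 2 * g1 * n ^ 2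
  c0 : a0 * (2 * ω + 2 / 3 * cN) ≤ (P.c0 : ℝ) / U6
  c1 : a1 * (2 * ω + 2 / 3 * cN) ≤ (P.c1 : ℝ) / U6
  hl : (1 - φl) / 2 ≤ (P.hl : ℝ) / U6

/-- **the deficit of a corner through the rows** -/
theorem DM_rows [IsFiniteMeasure σ] (h : CN K σ a c) (v : Viol K a S) (hz : CV a K z)
    (τ : Equiv.Perm (Fin 4)) (hl : Lok a l) {P : Par}
    {A' ρ cN s χ ω g0 g1 φl a0 a1 : ℝ} (hP : POk P A' ρ cN s χ ω g0 g1 φl a0 a1)
    (hMρ : ∀ p k, k ≠ p → MA σ a l τ p k ≤ ρ)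
    {x : E3} (hx : x ∈ K) {N : Fin 3 → Fin 3 → ℝ}
    (hNd : N = NM (fun i => a (τ i)) (fun i j => z (τ i) (τ j)))
    {ζp : Fin 3 → ℝ} (hζp : ∀ k, 0 < ζp k)
    (hζ : ∀ k, zc (fun i => a (τ i)) N x k ≤ ζp k)
    {φ lam : ℝ} (hφ : 0 < φ) (hφl : φl ≤ φ) (hφu : φ ≤ a0 + a1 * SideP.TN N)
    (hF : ∀ p, ρ ≤ φ * (A' * Pool.Agent.Helper55.Mass.Id (flP (PN N) p)))
    (hl0 : 0 ≤ lam) (hl1 : lam ≤ 1 - φ)
    (hcN : ∀ m, nc N m ≤ cN)
    (hcs : ∀ m, nc N m ^ 2 ≤ 2 * S (τ 0) * (1 + nc N m / 2) ^ 2)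
    (hcS : ∀ m : Fin 3, nc N m ^ 2 ≤ 2 * S (τ m.succ) * (1 + nc N m / 2) ^ 2)
    (hS : ∀ i, S i ≤ s)
    {i j k : Fin 3} (hij : i ≠ j) (hik : i ≠ k) (hjk : j ≠ k)
    (hX : S (τ 0) + S (τ i.succ) + S (τ j.succ) + S (τ k.succ) ≤ (P.X : ℝ) / U6)
    {A : Alt} (hth : A.th ≤ U6) {β AB : ℝ}
    (hβ : β = bet (Zd (2 / 3 * cN) (-bar (fun i => a (τ i)) 0 x) (b3 (fun i => a (τ i)) x))
      (b3 (fun i => a (τ i)) x j) (b3 (fun i => a (τ i)) x k))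
    {t : ℝ × ℝ} (ht : t ∈ Helper33.MEI.Dl)
    (hABd : AB = alP N ζp t * (pp (b3 (fun i => a (τ i)) x j) + pp (b3 (fun i => a (τ i)) x k)))
    (hAB : AB ≤ (A.ax : ℝ) / U6 * T3 t j + (A.ay : ℝ) / U6 * T3 t k) :
    DM A' N (zc (fun i => a (τ i)) N x) ζp lam
        (fun p t => φ * flP (PN N) p t)
        (fun p t => kap N (vv t) p) (fun _ => 0) (MB σ a l τ)
        (fun j => 1 / qM (fun i => a (τ i)) (fun i j => z (τ i) (τ j)) j)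
        (fun p => Pool.Agent.Helper31.SR.am σ a l (τ 0) (τ p.succ)) t ≤
      ∑ v ∈ Finset.range 12, lam12 ((P.X : ℝ) / U6) (S (τ 0)) (S (τ i.succ)) (S (τ j.succ))
          (S (τ k.succ)) v *
        ((1 - β) * dem P A v 0 (T3 t j) (T3 t k) + β * dem P A v 1 (T3 t j) (T3 t k)) := by
  have hU := U6_pos
  have h' := h.perm τ
  have v' := viol_perm v τ
  have hz' := hz.perm τ
  have hN : ∀ k m, 0 ≤ N k m := fun k m => by
    rw [hNd]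
    exact NM_nonneg h' v' hz' k m
  have hcol : ∀ m, nc N m ≤ 9 / 10 := fun m => by
    rw [hNd]
    exact nc_le h' v' hz' m
  have hc : (9 / 10 : ℝ) < 1 := by norm_num
  have hn0 : ∀ m, 0 ≤ nc N m := Pool.Agent.Helper73.MEI.SideP.nc_nonneg hN
  have hT0 : 0 ≤ SideP.TN N := SideP.TN_nonneg hN
  have hTs : SideP.TN N = nc N 0 + nc N 1 + nc N 2 := rfl
  have hXp : (0 : ℝ) < (P.X : ℝ) / U6 := _root_.div_pos (Nat.cast_pos.2 hP.Xp) hU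
  have one := lam12_one (s := S (τ 0)) (x := S (τ i.succ)) (y := S (τ j.succ))
    (z := S (τ k.succ)) hXp
  have b1 := DM_bet h v hz τ (A' := A') hP.A0 hl (ρ := fun _ => ρ) (β := fun _ => 0)
    (fun _ => hP.ρ0) hMρ hx hNd rfl hζp hζ (φ := φ) (lam := lam) hφ hl0 hl1 (fun _ => le_rfl)
    (fun _ => zero_le_one)
    (fun p => by
      rw [zero_mul]
      exact mul_nonneg hP.A0.le (Id_kap_nonneg hN hc hcol p))
    (fun p => by
      rw [sub_zero, one_mul]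
      exact hF p)
    hcN hP.cN2 hS hP.χ0 hP.χs hP.ω0 hP.ωχ (η := 0) le_rfl (dm := fun _ => 0)
    (fun _ => by rw [zero_mul])
    (Ca := φ * (2 * ω + 0 + 2 / 3 * cN)) le_rfl (Or.inl fun _ => rfl) (Dl_Sim ht) hij hik hjk
  simp only [sub_zero, add_zero] at b1
  refine b1.trans ?_
  rw [← hβ, ← hABd, vv_T3]
  rw [dem_sum one]
  -- the leaks
  have leak : ∀ m : Fin 3, nc N m ≤ g0 + g1 * min (S (τ 0)) (S (τ m.succ)) := fun m =>
    leak_lin (hn0 m) (hcN m) (hcs m) (hcS m) hP.g10 hP.leak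
  obtain ⟨k1, k2, k3⟩ := nh_ge hP.nok hP.Xp (v.nn _) (v.nn _) (v.nn _) (v.nn _) hX
  have m1 := (leak i).trans k1
  have m2 := (leak j).trans k2
  have m3 := (leak k).trans k3
  obtain ⟨NI, hNI⟩ : ∃ n, n = nh (lam12 ((P.X : ℝ) / U6) (S (τ 0)) (S (τ i.succ)) (S (τ j.succ))
          (S (τ k.succ))) P.nI := ⟨_, rfl⟩
  obtain ⟨NJ, hNJ⟩ : ∃ n, n = nh (lam12 ((P.X : ℝ) / U6) (S (τ 0)) (S (τ i.succ)) (S (τ j.succ))
          (S (τ k.succ))) P.nJ := ⟨_, rfl⟩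
  obtain ⟨NL, hNL⟩ : ∃ n, n = nh (lam12 ((P.X : ℝ) / U6) (S (τ 0)) (S (τ i.succ)) (S (τ j.succ))
          (S (τ k.succ))) P.nL := ⟨_, rfl⟩
  rw [← hNI] at m1
  rw [← hNJ] at m2
  rw [← hNL] at m3
  rw [← hNI, ← hNJ, ← hNL]
  have ht0 : ∀ q, 0 ≤ T3 t q := fun q => by
    rw [← vv_T3]
    exact vv_nonneg (Dl_Sim ht) q
  obtain ⟨X, hXd⟩ : ∃ X, X = T3 t j := ⟨_, rfl⟩
  obtain ⟨Y, hYd⟩ : ∃ Y, Y = T3 t k := ⟨_, rfl⟩
  have X0 : 0 ≤ X := by rw [hXd]; exact ht0 j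
  have Y0 : 0 ≤ Y := by rw [hYd]; exact ht0 k
  rw [← hXd, ← hYd] at hAB ⊢
  obtain ⟨θ, hθ⟩ : ∃ θ, θ = (A.th : ℝ) / U6 := ⟨_, rfl⟩
  have θ0 : 0 ≤ θ := by rw [hθ]; positivity
  have θ1 : θ ≤ 1 := by
    rw [hθ, div_le_one hU]
    exact_mod_cast hth
  rw [← hθ]
  have r0 := hn0 i
  have r1 := hn0 j
  have r2 := hn0 k
  -- nodes
  have d1 : min (X + Y) (nc N i) ≤ (1 - θ) * NI + θ * (X + Y) := by
    have q1 := min_le_left (X + Y) (nc N i)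
    have q2 := (min_le_right (X + Y) (nc N i)).trans m1
    have q3 := mul_le_mul_of_nonneg_left q1 θ0
    have q4 := mul_le_mul_of_nonneg_left q2 (sub_nonneg.2 θ1)
    linarith
  have d2 := mul_le_mul_of_nonneg_right m2 X0
  have d3 := mul_le_mul_of_nonneg_right m3 Y0
  have e1 : 0 ≤ min (X + Y) (nc N i) := le_min (by linarith) r0
  have e2 : 0 ≤ nc N j * X := mul_nonneg r1 X0
  have e3 : 0 ≤ nc N k * Y := mul_nonneg r2 Y0
  have p1 : 2 / 3 * (min (X + Y) (nc N i) + nc N j * X + nc N k * Y) ≤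
      (P.K : ℝ) / U6 * ((1 - θ) * NI + θ * (X + Y) + NJ * X + NL * Y) :=
    mul_le_mul hP.K2 (by linarith) (by linarith) (by positivity)
  -- arcs
  have hω : 0 ≤ 2 * ω + 2 / 3 * cN := by
    have := hP.ω0
    have := hP.cN0
    positivity
  have hT : SideP.TN N = nc N i + nc N j + nc N k := by
    rw [hTs]
    fin_cases i <;> fin_cases j <;> fin_cases k <;> simp at hij hik hjk ⊢ <;> ring
  have p2 : φ * (2 * ω + 2 / 3 * cN) ≤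
      (P.c0 : ℝ) / U6 + (P.c1 : ℝ) / U6 * (NI + NJ + NL) := by
    have q1 := mul_le_mul_of_nonneg_right hφu hω
    have q2 : (a1 * (2 * ω + 2 / 3 * cN)) * SideP.TN N ≤
        (P.c1 : ℝ) / U6 * (NI + NJ + NL) := by
      refine mul_le_mul hP.c1 (by rw [hT]; linarith) hT0 (by positivity)
    have q3 := hP.c0
    linarith
  have p3 := mul_le_mul_of_nonneg_right p2 (show 0 ≤ X + Y by linarith)
  -- apex
  have hβ0 : 0 ≤ β := by
    rw [hβ]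
    exact bet_nonneg _ _ _
  have hlam : lam / 2 ≤ (P.hl : ℝ) / U6 := by
    have := hP.hl
    linarith
  have hAB0 : 0 ≤ AB := by
    rw [hABd]
    exact mul_nonneg (alP_nonneg hζp t) (add_nonneg (pp_nonneg _) (pp_nonneg _))
  have p4 : lam / 2 * (β * AB) ≤
      β * ((P.hl : ℝ) / U6 * ((A.ax : ℝ) / U6 * X + (A.ay : ℝ) / U6 * Y)) := by
    have q1 : lam / 2 * AB ≤ (P.hl : ℝ) / U6 * ((A.ax : ℝ) / U6 * X + (A.ay : ℝ) / U6 * Y) :=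
      mul_le_mul hlam hAB hAB0 (by positivity)
    have q2 := mul_le_mul_of_nonneg_left q1 hβ0
    linarith
  linarith

/-- the data of the share `phiN` -/
theorem phiN_data {N : Fin 3 → Fin 3 → ℝ} (hN : ∀ k m, 0 ≤ N k m) (hd : ∀ k, N k k = 0)
    {cc : ℝ} (hc : cc < 1) (hcol : ∀ m, nc N m ≤ cc) {A' ρ a0 a1 Tm cN : ℝ} (hA : 0 < A')
    (hρ : 0 < ρ) (hcN : ∀ m, nc N m ≤ cN) (h3 : 3 * cN ≤ Tm) (hT2 : Tm < 2)
    (h : ∀ T, 0 ≤ T → T ≤ Tm → 22.6276 * ρ * (35 / 48 + 9 / 16 * T + 5 / 12 * T ^ 2) ^ 2 ≤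
      (a0 + a1 * T) * (A' * (1 - T ^ 2 / 4))) :
    0 < phiN A' ρ (SideP.TN N) (SideP.QN N) ∧
    22.6276 * ρ * (35 / 48) ^ 2 / A' ≤ phiN A' ρ (SideP.TN N) (SideP.QN N) ∧
    phiN A' ρ (SideP.TN N) (SideP.QN N) ≤ a0 + a1 * SideP.TN N ∧
    ∀ p, ρ ≤ phiN A' ρ (SideP.TN N) (SideP.QN N) *
      (A' * Pool.Agent.Helper55.Mass.Id (flP (PN N) p)) := by
  have hT0 : 0 ≤ SideP.TN N := SideP.TN_nonneg hN
  have hTs : SideP.TN N = nc N 0 + nc N 1 + nc N 2 := rfl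
  have hTm : SideP.TN N ≤ Tm := by
    have q0 := hcN 0
    have q1 := hcN 1
    have q2 := hcN 2
    rw [hTs]
    linarith
  have hT : SideP.TN N < 2 := lt_of_le_of_lt hTm hT2
  exact ⟨phiN_pos hA hρ hT0 hT (QN_nonneg (N := N)),
    phiN_low hA hρ.le hT0 hT (QN_nonneg (N := N)), phiN_up hN hA hρ hTm hT2 h,
    fun p => phi_ok hN hd hc hcol hA hρ.le hT p⟩

end Helper78.MEI
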