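import Pool.Agent.Helper78.MEI.WC6

/-!
# Project MEI (M2): rule R7 (loads / strips / out of range) on intervals of `w`

`ph m μ c0 c1 u = (1 - m) u + 2 μ (c0 - c1 u) √u`; for every `w` an interval `[u, v]` with one of
the three checks. `D`, `E` (value above the empty filling), the levels: only upper bounds.
-/

set_option autoImplicit false

namespace Helper78.MEI

open Set Metric MeasureTheory Helper80.CW Helper82.CW Helper14.CW Helper93.MEI Helper82.M2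
open Helper14.MEI2 Pool.Agent.Helper52.MEI Pool.Agent.Helper73.MEI Pool.Agent.Helper31.SR
open Helper33.MEI (Wi Dl tx M3 mt mt_pos)
open scoped RealInnerProductSpace ENNReal

/-- the strip function of the range -/
noncomputable def ph (m μ c0 c1 u : ℝ) : ℝ := (1 - m) * u + 2 * μ * ((c0 - c1 * u) * √u)

/-- `(c0 - c1 u) √u` increases on `[0, c0 / (3 c1)]` -/
theorem cs_mono {c0 c1 u w : ℝ} (h1 : 0 ≤ c1) (hu : 0 ≤ u) (huw : u ≤ w) (hw : 3 * c1 * w ≤ c0) :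
    (c0 - c1 * u) * √u ≤ (c0 - c1 * w) * √w := by
  obtain ⟨r, hr⟩ : ∃ r, r = √u := ⟨_, rfl⟩
  obtain ⟨R, hR⟩ : ∃ R, R = √w := ⟨_, rfl⟩
  have hr0 : 0 ≤ r := by rw [hr]; exact Real.sqrt_nonneg _
  have hR0 : 0 ≤ R := by rw [hR]; exact Real.sqrt_nonneg _
  have hr2 : u = r ^ 2 := by rw [hr, Real.sq_sqrt hu]
  have hR2 : w = R ^ 2 := by rw [hR, Real.sq_sqrt (hu.trans huw)]
  have hrR : r ≤ R := by rw [hr, hR]; exact Real.sqrt_le_sqrt huw
  rw [← hr, ← hR, hr2, hR2]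
  have k1 : 0 ≤ (R - r) * (c0 - c1 * (r ^ 2 + r * R + R ^ 2)) := by
    refine mul_nonneg (by linarith) ?_
    have k2 : r ^ 2 + r * R + R ^ 2 ≤ 3 * R ^ 2 := by nlinarith
    have k3 := mul_le_mul_of_nonneg_left k2 h1
    rw [hR2] at hw
    linarith
  nlinarith

theorem ph_mono {m μ c0 c1 u w : ℝ} (hm : m ≤ 1) (hμ : 0 ≤ μ) (h1 : 0 ≤ c1) (hu : 0 ≤ u)
    (huw : u ≤ w) (hw : 3 * c1 * w ≤ c0) : ph m μ c0 c1 u ≤ ph m μ c0 c1 w := by
  have k1 := mul_le_mul_of_nonneg_left huw (sub_nonneg.2 hm)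
  have k2 := mul_le_mul_of_nonneg_left (cs_mono h1 hu huw hw) (by linarith : 0 ≤ 2 * μ)
  unfold ph
  linarith

/-- price of the negative part on `[u, v]`: `f` = strip function at `u` -/
noncomputable def ng (A m C f v : ℝ) : ℝ := A * pp ((C - f) / m) * (v / 2 / (1 - v / 2))

/-- **check (i)** loads -/
def Ci (A m C D f u v om : ℝ) : Prop :=
  0.127 * v / (1 - v / 2) + A * max ((1 - (1 - D) / m) * u) ((1 - (1 - D) / m) * v)
    + ng A m C f v ≤ om

/-- **check (ii)** strips -/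
def Cii (A m C E f v om : ℝ) : Prop :=
  0.127 * v / (1 - v / 2) + A * ((E - f) / m) + ng A m C f v ≤ om

/-- **check (iii)** out of range -/
def Ciii (m C ow f : ℝ) : Prop := C + m * ow < f

/-- **rule R7, pointwise**: the interval `[u, v]` of `w`, one of three checks -/
theorem r7_int {A m G C D E ow w u v Y f μ c0 c1 om : ℝ} (hA : 0 ≤ A) (hm : 0 < m) (hm1 : m ≤ 1)
    (hμ : 0 ≤ μ) (hc1 : 0 ≤ c1) (hu : 0 ≤ u) (huw : u ≤ w) (hwv : w ≤ v) (hv : v < 2)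
    (hc : 3 * c1 * w ≤ c0) (hL : G + (1 - D) * w ≤ Y)
    (hS : -C + w + 2 * μ * ((c0 - c1 * w) * √w) ≤ Y) (hO : Y / m - w ≤ ow)
    (hE : G ≤ -C + E) (hf : f ≤ ph m μ c0 c1 u)
    (hk : Ci A m C D f u v om ∨ Cii A m C E f v om ∨ Ciii m C ow f) :
    A * (G / m) - om ≤ ff A (Y / m - w) w := by
  have hw0 : 0 ≤ w := hu.trans huw
  have hfw : f ≤ ph m μ c0 c1 w := hf.trans (ph_mono hm1 hμ hc1 hu huw hc)
  -- the strip bound of `X`
  have hX : (f - C) / m ≤ Y / m - w := by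
    have e : Y / m - w = (Y - m * w) / m := by field_simp
    rw [e]
    apply div_le_div_of_nonneg_right _ hm.le
    unfold ph at hfw
    linarith
  have hX2 : G / m - (1 - (1 - D) / m) * w ≤ Y / m - w := by
    have e : G / m - (1 - (1 - D) / m) * w = (G + (1 - D) * w) / m - w := by
      rw [add_div]
      ring
    rw [e]
    have := div_le_div_of_nonneg_right hL hm.le
    linarith
  have d : 0 < 1 - w / 2 := by linarith
  have dv : 0 < 1 - v / 2 := by linarith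
  -- it suffices to bound `A (G/m - X) + κ(v) + ng` by `om`
  have red : A * (G / m - (Y / m - w)) + 0.127 * v / (1 - v / 2) + ng A m C f v ≤ om →
      A * (G / m) - om ≤ ff A (Y / m - w) w := by
    intro hb
    have hiv : w / 2 / (1 - w / 2) ≤ v / 2 / (1 - v / 2) := by
      apply div_le_div₀ (by linarith) (by linarith) dv (by linarith)
    have hi0 : 0 ≤ w / 2 / (1 - w / 2) := by positivity
    have hkv : 0.127 * w / (1 - w / 2) ≤ 0.127 * v / (1 - v / 2) := by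
      apply div_le_div₀ (by linarith) (by linarith) dv (by linarith)
    have hng : 0 ≤ ng A m C f v := by
      unfold ng
      have := pp_nonneg ((C - f) / m)
      have h3 : 0 ≤ v / 2 / (1 - v / 2) := hi0.trans hiv
      positivity
    unfold ff
    refine le_min ?_ ?_
    · linarith
    · have e4 : (A * (Y / m - w) - 0.127 * w) / (1 - w / 2) =
          A * (Y / m - w) - 0.127 * w / (1 - w / 2)
            + A * (Y / m - w) * (w / 2 / (1 - w / 2)) := by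
        have hi : (1 - w / 2) * (1 - w / 2)⁻¹ = 1 := mul_inv_cancel₀ d.ne'
        rw [div_eq_mul_inv (A * (Y / m - w) - 0.127 * w), div_eq_mul_inv (0.127 * w),
          div_eq_mul_inv (w / 2)]
        linear_combination (A * (Y / m - w)) * hi
      rw [e4]
      have k : -ng A m C f v ≤ A * (Y / m - w) * (w / 2 / (1 - w / 2)) := by
        have k1 : -pp ((C - f) / m) ≤ Y / m - w := by
          have k2 := le_pp ((C - f) / m)
          have e5 : (f - C) / m = -((C - f) / m) := by ring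
          rw [e5] at hX
          linarith
        have k3 : A * -pp ((C - f) / m) * (w / 2 / (1 - w / 2)) ≤
            A * (Y / m - w) * (w / 2 / (1 - w / 2)) :=
          mul_le_mul_of_nonneg_right (mul_le_mul_of_nonneg_left k1 hA) hi0
        have k4 : A * pp ((C - f) / m) * (w / 2 / (1 - w / 2)) ≤ ng A m C f v :=
          mul_le_mul_of_nonneg_left hiv (mul_nonneg hA (pp_nonneg _))
        linarith
      linarith
  rcases hk with hk | hk | hk
  · apply red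
    unfold Ci at hk
    have k1 : A * (G / m - (Y / m - w)) ≤ A * ((1 - (1 - D) / m) * w) :=
      mul_le_mul_of_nonneg_left (by linarith) hA
    have k2 : (1 - (1 - D) / m) * w ≤
        max ((1 - (1 - D) / m) * u) ((1 - (1 - D) / m) * v) := by
      rcases le_total 0 (1 - (1 - D) / m) with hc | hc
      · exact (mul_le_mul_of_nonneg_left hwv hc).trans (le_max_right _ _)
      · exact (mul_le_mul_of_nonpos_left huw hc).trans (le_max_left _ _)
    have k3 := mul_le_mul_of_nonneg_left k2 hA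
    linarith
  · apply red
    unfold Cii at hk
    have k1 : G / m - (Y / m - w) ≤ (E - f) / m := by
      have k2 : G / m ≤ (-C + E) / m := div_le_div_of_nonneg_right hE hm.le
      have e : (-C + E) / m - (f - C) / m = (E - f) / m := by
        rw [← sub_div]
        congr 1
        ring
      linarith
    have := mul_le_mul_of_nonneg_left k1 hA
    linarith
  · exfalso
    unfold Ciii at hk
    have k1 : (f - C) / m ≤ ow := hX.trans hO
    rw [div_le_iff₀ hm] at k1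
    linarith

theorem sqrt_mt_le {t : ℝ × ℝ} (ht : t ∈ Dl) : √(mt t) ≤ 1 := by
  apply Real.sqrt_le_iff.2
  refine ⟨zero_le_one, ?_⟩
  obtain ⟨t1, t2, t3⟩ := ht
  have q1 := mul_pos t1 t2
  have q2 := mul_pos t1 (show 0 < 1 - t.1 - t.2 by linarith)
  have q3 := mul_pos t2 (show 0 < 1 - t.1 - t.2 by linarith)
  unfold Helper33.MEI.mt
  linarith

/-- the own bound holds on the body -/
theorem own_ok {a : Fin 4 → E3} {σ : Measure (E3 × E3)} {K : Set E3} {S : Fin 4 → ℝ}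
    {c : Fin 4 → E3} (h : CN K σ a c) (v : Viol K a S) (τ : Equiv.Perm (Fin 4)) :
    ∀ p ∈ K, tx (fun i => a (τ i)) p ∈ Dl →
      Qv a (τ 0) p ≤ own (S (τ 0)) (tx (fun i => a (τ i)) p) := by
  have h' := h.perm τ
  have v' := viol_perm v τ
  have hgr := gram_of_dist h'.ha
  intro p hp htx
  have hpl := h'.hp p hp
  have hB : 0 < 1 - bar (fun i => a (τ i)) 0 p := by
    have h1 := (pl_iff hgr).1 hpl 0 1 (by decide)
    have h2 := (pl_iff hgr).1 hpl 0 2 (by decide)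
    have h3 := (pl_iff hgr).1 hpl 0 3 (by decide)
    have hs := bar_sum hgr p
    have h4 : 0 ≤ 1 - bar (fun i => a (τ i)) 0 p := by linarith
    rcases h4.lt_or_eq with h5 | h5
    · exact h5
    · exfalso
      have h6 : (tx (fun i => a (τ i)) p).1 = 0 := by
        unfold tx
        simp only
        rw [← h5, div_zero]
      have := htx.1
      rw [h6] at this
      exact lt_irrefl _ this
  exact own_le hgr hpl hB (v'.le 0 p hp)

/-- **RULE R7 AS A COST**: for every direction and every `w ∈ [0, 1 + S_0]` an interval with one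
of the three checks; `D`, `E` only through upper bounds -/
theorem wcost_R7 {a : Fin 4 → E3} {σ : Measure (E3 × E3)} {K : Set E3} {S : Fin 4 → ℝ}
    {c : Fin 4 → E3} [IsFiniteMeasure σ] (h : CN K σ a c) (v : Viol K a S)
    (τ : Equiv.Perm (Fin 4)) {A Sm c0 c1 : ℝ} (hA : 0 ≤ A) (hC : IsC Sm c0 c1)
    (hSm : ∀ k, S k ≤ Sm) (hc1 : 0 ≤ c1) (hc3 : 3 * c1 * (1 + S (τ 0)) ≤ c0)
    {G D ω : ℝ × ℝ → ℝ} {C2 : ℝ}
    (hω : AEStronglyMeasurable ω (volume.restrict Dl)) (hωC : ∀ t ∈ Dl, |ω t| ≤ C2)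
    (hR : ∀ t ∈ Dl, ∃ D1 E μ : ℝ, D t ≤ D1 ∧
      G t ≤ -(T3 t 0 * S (τ 1) + T3 t 1 * S (τ 2) + T3 t 2 * S (τ 3)) + E ∧
      0 ≤ μ ∧ (∀ k, μ ≤ T3 t k) ∧
      ∀ w, 0 ≤ w → w ≤ 1 + S (τ 0) → ∃ u v' f : ℝ, 0 ≤ u ∧ u ≤ w ∧ w ≤ v' ∧ v' < 2 ∧
        f ≤ ph (√(mt t)) μ c0 c1 u ∧
        (Ci A (√(mt t)) (T3 t 0 * S (τ 1) + T3 t 1 * S (τ 2) + T3 t 2 * S (τ 3)) D1 f u v' (ω t) ∨
          Cii A (√(mt t)) (T3 t 0 * S (τ 1) + T3 t 1 * S (τ 2) + T3 t 2 * S (τ 3)) E f v' (ω t) ∨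
          Ciii (√(mt t)) (T3 t 0 * S (τ 1) + T3 t 1 * S (τ 2) + T3 t 2 * S (τ 3))
            (own (S (τ 0)) t) f)) :
    WCost a K τ A G D ((√2)⁻¹ * ∫ t in Dl, ω t * M3 t) := by
  have h' := h.perm τ
  have v' := viol_perm v τ
  have hgr := gram_of_dist h'.ha
  refine ⟨ω, own (S (τ 0)), C2, hω, hωC, fun t ht => own_nonneg (v.nn _) ht,
    own_ok h v τ, ?_, le_rfl⟩
  intro t ht q hq hX hG
  have hm : 0 < √(mt t) := Real.sqrt_pos.2 mt_pos
  have hm1 : √(mt t) ≤ 1 := sqrt_mt_le ht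
  obtain ⟨D1, E, μ, hD, hE, hμ, hM, hw⟩ := hR t ht
  have hpq := h'.hp q hq
  have h19 : ‖a (τ 0) - q‖ ^ 2 ≤ 19 / 16 := by
    have h1 := h.ap hq (τ 0)
    unfold Qv at h1
    rw [norm_sub_rev]
    linarith
  have hw1 : ‖a (τ 0) - q‖ ^ 2 ≤ 1 + S (τ 0) := by
    have h1 := v.le (τ 0) q hq
    unfold Qv at h1
    rw [norm_sub_rev]
    linarith
  obtain ⟨u, v'', f, hu, huw, hwv, hv2, hf, hk⟩ := hw _ (sq_nonneg _) hw1
  have hS := Yt_cw (a := fun i => a (τ i)) (t := t) hgr hC hpq h19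
    (V := fun k => S (τ k.succ)) (fun k => v.nn _) (fun k => hSm _) hμ hM
    (v'.le 1 q hq) (v'.le 2 q hq) (v'.le 3 q hq)
  have hT : T3 t 0 + T3 t 1 + T3 t 2 = 1 := by
    show t.1 + t.2 + (1 - t.1 - t.2) = 1
    ring
  have r1 := mul_le_mul_of_nonneg_left (le_pp (‖a (τ 0) - q‖ ^ 2 - S (τ 1))) (hμ.trans (hM 0))
  have r2 := mul_le_mul_of_nonneg_left (le_pp (‖a (τ 0) - q‖ ^ 2 - S (τ 2))) (hμ.trans (hM 1))
  have r3 := mul_le_mul_of_nonneg_left (le_pp (‖a (τ 0) - q‖ ^ 2 - S (τ 3))) (hμ.trans (hM 2))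
  have e2 : (T3 t 0 + T3 t 1 + T3 t 2) * ‖a (τ 0) - q‖ ^ 2 = ‖a (τ 0) - q‖ ^ 2 := by
    rw [hT, one_mul]
  have hS' : -(T3 t 0 * S (τ 1) + T3 t 1 * S (τ 2) + T3 t 2 * S (τ 3)) + ‖a (τ 0) - q‖ ^ 2 +
      2 * μ * ((c0 - c1 * ‖a (τ 0) - q‖ ^ 2) * √(‖a (τ 0) - q‖ ^ 2)) ≤
        Yt (fun i => a (τ i)) t q := by
    refine le_trans ?_ hS
    show _ ≤ (T3 t 0 * pp (‖a (τ 0) - q‖ ^ 2 - S (τ 1)) +
      T3 t 1 * pp (‖a (τ 0) - q‖ ^ 2 - S (τ 2)) + T3 t 2 * pp (‖a (τ 0) - q‖ ^ 2 - S (τ 3))) +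
      2 * μ * ((c0 - c1 * ‖a (τ 0) - q‖ ^ 2) * √(‖a (τ 0) - q‖ ^ 2))
    nlinarith
  have hG' : G t + (1 - D1) * ‖a (τ 0) - q‖ ^ 2 ≤ Yt (fun i => a (τ i)) t q := by
    have := mul_le_mul_of_nonneg_right (sub_le_sub_left hD 1) (sq_nonneg ‖a (τ 0) - q‖)
    linarith
  refine r7_int hA hm hm1 hμ hc1 hu huw hwv hv2 ?_ hG' hS' hX hE hf hk
  have := mul_le_mul_of_nonneg_left hw1 (show 0 ≤ 3 * c1 by linarith)
  linarith

/-! ### numbers for a cell of directions -/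

theorem ph_num {m μ c0 c1 u m1 μ0 r : ℝ} (hm : m ≤ m1) (hμ : μ0 ≤ μ) (hμ0 : 0 ≤ μ0)
    (hu : 0 ≤ u) (hr : 0 ≤ r) (hr2 : r ^ 2 ≤ u) (hc : c1 * u ≤ c0) :
    (1 - m1) * u + 2 * μ0 * ((c0 - c1 * u) * r) ≤ ph m μ c0 c1 u := by
  have k1 := mul_le_mul_of_nonneg_right (sub_le_sub_left hm 1) hu
  have k2 : r ≤ √u := Real.le_sqrt_of_sq_le hr2
  have k3 := mul_le_mul_of_nonneg_left k2 (sub_nonneg.2 hc)
  have k4 : 0 ≤ (c0 - c1 * u) * r := mul_nonneg (sub_nonneg.2 hc) hr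
  have k5 : μ0 * ((c0 - c1 * u) * r) ≤ μ * ((c0 - c1 * u) * √u) :=
    mul_le_mul hμ k3 k4 (hμ0.trans hμ)
  unfold ph
  linarith

theorem ng_num {A m C f v m0 C1 : ℝ} (hA : 0 ≤ A) (hm0 : 0 < m0) (hm : m0 ≤ m) (hC : C ≤ C1)
    (hv0 : 0 ≤ v) (hv : v < 2) :
    ng A m C f v ≤ A * (pp (C1 - f) / m0) * (v / 2 / (1 - v / 2)) := by
  have dv : 0 < 1 - v / 2 := by linarith
  unfold ng
  refine mul_le_mul_of_nonneg_right (mul_le_mul_of_nonneg_left ?_ hA) (by positivity)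
  refine max_le ?_ (div_nonneg (pp_nonneg _) hm0.le)
  have k0 := pp_nonneg (C1 - f)
  have k1 : C - f ≤ pp (C1 - f) := le_trans (by linarith) (le_pp _)
  calc (C - f) / m ≤ pp (C1 - f) / m := div_le_div_of_nonneg_right k1 (hm0.trans_le hm).le
    _ ≤ pp (C1 - f) / m0 := div_le_div_of_nonneg_left k0 hm0 hm

theorem Ci_num {A m C D f u v om m0 m1 C1 D1 : ℝ} (hA : 0 ≤ A) (hm0 : 0 < m0) (hm : m0 ≤ m)
    (hm1 : m ≤ m1) (hC : C ≤ C1) (hD : D ≤ D1) (hD1 : D1 ≤ 1) (hu : 0 ≤ u) (hv0 : 0 ≤ v)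
    (hv : v < 2)
    (hk : 0.127 * v / (1 - v / 2) + A * max ((1 - (1 - D1) / m1) * u) ((1 - (1 - D1) / m1) * v)
      + A * (pp (C1 - f) / m0) * (v / 2 / (1 - v / 2)) ≤ om) : Ci A m C D f u v om := by
  have h1 := ng_num (f := f) hA hm0 hm hC hv0 hv
  have hmp := hm0.trans_le hm
  have k : 1 - (1 - D) / m ≤ 1 - (1 - D1) / m1 := by
    have k1 : (1 - D1) / m1 ≤ (1 - D1) / m :=
      div_le_div_of_nonneg_left (by linarith) hmp hm1
    have k2 : (1 - D1) / m ≤ (1 - D) / m := div_le_div_of_nonneg_right (by linarith) hmp.le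
    linarith
  have k3 : max ((1 - (1 - D) / m) * u) ((1 - (1 - D) / m) * v) ≤
      max ((1 - (1 - D1) / m1) * u) ((1 - (1 - D1) / m1) * v) :=
    max_le_max (mul_le_mul_of_nonneg_right k hu) (mul_le_mul_of_nonneg_right k hv0)
  have k4 := mul_le_mul_of_nonneg_left k3 hA
  unfold Ci
  linarith

theorem Cii_num {A m C E f v om m0 C1 E1 : ℝ} (hA : 0 ≤ A) (hm0 : 0 < m0) (hm : m0 ≤ m)
    (hC : C ≤ C1) (hE : E ≤ E1) (hv0 : 0 ≤ v) (hv : v < 2)
    (hk : 0.127 * v / (1 - v / 2) + A * (pp (E1 - f) / m0)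
      + A * (pp (C1 - f) / m0) * (v / 2 / (1 - v / 2)) ≤ om) : Cii A m C E f v om := by
  have h1 := ng_num (f := f) hA hm0 hm hC hv0 hv
  have hmp := hm0.trans_le hm
  have k0 := pp_nonneg (E1 - f)
  have k1 : E - f ≤ pp (E1 - f) := le_trans (by linarith) (le_pp _)
  have k2 : (E - f) / m ≤ pp (E1 - f) / m0 :=
    calc (E - f) / m ≤ pp (E1 - f) / m := div_le_div_of_nonneg_right k1 hmp.le
      _ ≤ pp (E1 - f) / m0 := div_le_div_of_nonneg_left k0 hm0 hm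
  have k3 := mul_le_mul_of_nonneg_left k2 hA
  unfold Cii
  linarith

theorem Ciii_num {m C ow f m1 C1 o1 : ℝ} (hm : 0 ≤ m) (hm1 : m ≤ m1) (hC : C ≤ C1)
    (ho : ow ≤ o1) (ho0 : 0 ≤ o1) (hk : C1 + m1 * o1 < f) : Ciii m C ow f := by
  have k1 := mul_le_mul_of_nonneg_left ho hm
  have k2 := mul_le_mul_of_nonneg_right hm1 ho0
  unfold Ciii
  linarith

end Helper78.MEI
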