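import Pool.Agent.Helper78.MEI.WB5
import Pool.Agent.Helper78.MEI.WC7

/-!
# Project MEI (M2), w-term: truncation of the certificate, symmetries of the layers, the maximum
over the relative deficits
-/

set_option autoImplicit false

namespace Helper78.MEI

open Set Metric MeasureTheory Helper80.CW Helper82.CW Helper14.CW Helper93.MEI Helper82.M2
open Helper14.MEI2 Pool.Agent.Helper52.MEI Pool.Agent.Helper73.MEI Helper41.MEI
open Pool.Agent.Helper31.SR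
open Helper33.MEI (Wi Dl tx M3 mt mt_pos)
open scoped RealInnerProductSpace ENNReal

/-- **truncation**: a certificate may be replaced by its minimum with a large function -/
theorem WCost.trunc {a : Fin 4 → E3} {σ : Measure (E3 × E3)} {K : Set E3} {S : Fin 4 → ℝ}
    {c : Fin 4 → E3} [IsFiniteMeasure σ] (h : CN K σ a c) (v : Viol K a S)
    (τ : Equiv.Perm (Fin 4)) {A' cst : ℝ} {G D B : ℝ × ℝ → ℝ} (hs : S (τ 0) ≤ 1 / 10)
    (hD : ∀ t ∈ Dl, D t ≤ 2) (hB : ∀ t ∈ Dl, 5 / 2 ≤ B t)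
    (H : WCost a K τ A' (fun t => min (G t) (B t)) D cst) : WCost a K τ A' G D cst := by
  obtain ⟨ω, s, C2, h1, h2, h3, h4, h5, h6⟩ := H
  refine ⟨ω, fun t => min (s t) (own (S (τ 0)) t), C2, h1, h2,
    fun t ht => le_min (h3 t ht) (own_nonneg (v.nn _) ht),
    fun p hp ht => le_min (h4 p hp ht) (own_ok h v τ p hp ht), ?_, h6⟩
  intro t ht q hq hX hG
  have h19 : ‖a (τ 0) - q‖ ^ 2 ≤ 19 / 16 := by
    have h1 := h.ap hq (τ 0)
    unfold Qv at h1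
    rw [norm_sub_rev]
    linarith
  have hm : 0 < √(Helper33.MEI.mt t) := Real.sqrt_pos.2 mt_pos
  have hm1 : √(Helper33.MEI.mt t) ≤ 1 := sqrt_mt_le ht
  have hw : 0 ≤ ‖a (τ 0) - q‖ ^ 2 := by positivity
  have ho : own (S (τ 0)) t ≤ S (τ 0) := by
    unfold own
    exact min_le_left _ _
  have h7 : Yt (fun i => a (τ i)) t q / √(Helper33.MEI.mt t) ≤ 19 / 16 + 1 / 10 := by
    have := hX.trans (min_le_right _ _)
    linarith
  have h8 : Yt (fun i => a (τ i)) t q ≤ 19 / 16 + 1 / 10 := by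
    rw [div_le_iff₀ hm] at h7
    have := mul_le_mul_of_nonneg_left hm1 (show (0 : ℝ) ≤ 19 / 16 + 1 / 10 by norm_num)
    linarith
  have h9 : G t ≤ B t := by
    have k1 := mul_le_mul_of_nonneg_right (hD t ht) hw
    have k2 := hB t ht
    linarith
  have e : min (G t) (B t) = G t := min_eq_left h9
  have k := h5 t ht q hq (hX.trans (min_le_left _ _)) (by
    show min (G t) (B t) + _ ≤ _
    rw [e]
    exact hG)
  beta_reduce at k
  rw [e] at k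
  exact k

/-! ### Symmetries of the layers -/

theorem l2_symm (s x y z : ℝ) : l2' s x y z = l2' s y x z := by
  unfold l2'
  rw [min_comm x y, (l3_perm s x y z).1]

theorem l1_symm (s x y z : ℝ) : l1' s x y z = l1' s x z y := by
  unfold l1'
  rw [(l3_perm s x y z).2]
  ring

theorem l0_symm (s x y z : ℝ) : l0 s x y z = l0 s x z y ∧ l0 s x y z = l0 s y x z := by
  refine ⟨?_, ?_⟩
  · unfold l0
    rw [l1_symm s x y z, l2_symm s y z x, (l3_perm s x y z).2]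
    ring
  · unfold l0
    rw [l1_symm s z x y, l2_symm s x y z, (l3_perm s x y z).1]
    ring

def r0 : ℕ → ℕ
  | 3 => 4
  | 4 => 3
  | 6 => 7
  | 7 => 6
  | 8 => 9
  | 9 => 8
  | n => n

def r1 : ℕ → ℕ
  | 2 => 3
  | 3 => 2
  | 5 => 6
  | 6 => 5
  | 9 => 10
  | 10 => 9
  | n => n

def r2 : ℕ → ℕ
  | 2 => 3
  | 3 => 4
  | 4 => 2
  | 5 => 6
  | 6 => 7
  | 7 => 5
  | 8 => 10
  | 9 => 8
  | 10 => 9
  | n => n

theorem perm0 (X s x y z : ℝ) (f : ℕ → ℝ) :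
    ∑ v ∈ Finset.range 12, lam12 X s x z y v * f v =
      ∑ v ∈ Finset.range 12, lam12 X s x y z v * f (r0 v) := by
  rw [sum12, sum12]
  simp only [lam12, r0]
  rw [(l0_symm s x y z).1, l1_symm s x y z, l1_symm s z x y, l1_symm s y x z, l2_symm s z y x,
    (l3_perm s x y z).2]
  ring

theorem perm1 (X s x y z : ℝ) (f : ℕ → ℝ) :
    ∑ v ∈ Finset.range 12, lam12 X s y x z v * f v =
      ∑ v ∈ Finset.range 12, lam12 X s x y z v * f (r1 v) := by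
  rw [sum12, sum12]
  simp only [lam12, r1]
  rw [(l0_symm s x y z).2, l1_symm s z y x, l2_symm s y x z, (l3_perm s x y z).1]
  ring

theorem perm2 (X s x y z : ℝ) (f : ℕ → ℝ) :
    ∑ v ∈ Finset.range 12, lam12 X s z x y v * f v =
      ∑ v ∈ Finset.range 12, lam12 X s x y z v * f (r2 v) := by
  rw [sum12, sum12]
  simp only [lam12, r2]
  have e1 : l0 s z x y = l0 s x y z := by
    rw [(l0_symm s x y z).1, (l0_symm s x z y).2]
  have e2 : l3 s z x y = l3 s x y z := by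
    rw [(l3_perm s x y z).2, (l3_perm s x z y).1]
  rw [e1, e2, l1_symm s y z x, l1_symm s x z y, l2_symm s z x y, l2_symm s z y x]
  ring

/-! ### The maximum over the relative deficits -/

theorem beta_max {b0 b1 b2 d0 d1 d2 m : ℝ} (h0 : 0 ≤ b0) (h1 : 0 ≤ b1) (h2 : 0 ≤ b2)
    (g0 : b0 ≤ 1) (g1 : b1 ≤ 1) (g2 : b2 ≤ 1) (hs : b0 + b1 + b2 ≤ 17 / 10)
    (e0 : 0 ≤ d0) (e1 : 0 ≤ d1) (e2 : 0 ≤ d2)
    (m01 : d0 + 7 / 10 * d1 ≤ m) (m02 : d0 + 7 / 10 * d2 ≤ m) (m10 : d1 + 7 / 10 * d0 ≤ m)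
    (m12 : d1 + 7 / 10 * d2 ≤ m) (m20 : d2 + 7 / 10 * d0 ≤ m) (m21 : d2 + 7 / 10 * d1 ≤ m) :
    b0 * d0 + b1 * d1 + b2 * d2 ≤ m := by
  have key : ∀ a b c x y z : ℝ, 0 ≤ a → 0 ≤ b → 0 ≤ c → a ≤ 1 → a + b + c ≤ 17 / 10 →
      y ≤ x → z ≤ y → 0 ≤ y → a * x + b * y + c * z ≤ x + 7 / 10 * y := by
    intro a b c x y z ha hb hc ha1 hs hyx hzy hy
    have k1 := mul_le_mul_of_nonneg_left hzy hc
    have k2 := mul_le_mul_of_nonneg_right (show b + c ≤ 17 / 10 - a by linarith) hy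
    have k3 := mul_le_mul_of_nonneg_right ha1 (sub_nonneg.2 hyx)
    linarith
  rcases le_total d0 d1 with q1 | q1
  · rcases le_total d1 d2 with q2 | q2
    · have := key b2 b1 b0 d2 d1 d0 h2 h1 h0 g2 (by linarith) q2 q1 e1
      linarith
    · rcases le_total d0 d2 with q3 | q3
      · have := key b1 b2 b0 d1 d2 d0 h1 h2 h0 g1 (by linarith) q2 q3 e2
        linarith
      · have := key b1 b0 b2 d1 d0 d2 h1 h0 h2 g1 (by linarith) q1 q3 e0
        linarith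
  · rcases le_total d0 d2 with q2 | q2
    · have := key b2 b0 b1 d2 d0 d1 h2 h0 h1 g2 (by linarith) q2 q1 e0
      linarith
    · rcases le_total d1 d2 with q3 | q3
      · have := key b0 b2 b1 d0 d2 d1 h0 h2 h1 g0 (by linarith) q2 q3 e2
        linarith
      · have := key b0 b1 b2 d0 d1 d2 h0 h1 h2 g0 (by linarith) q1 q3 e1
        linarith

theorem sum24' (L : ℕ → ℝ) (β : ℝ) (W P D : ℕ → ℝ) (hL : ∀ v, 0 ≤ L v) (h0 : 0 ≤ β) (h1 : β ≤ 1)
    (hW0 : ∀ v < 12, W v ≤ P v) (hW1 : ∀ v < 12, W (12 + v) ≤ P v + D v) :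
    ∑ i ∈ Finset.range 24, lam24 L β i * W i ≤
      ∑ v ∈ Finset.range 12, L v * (P v + β * D v) := by
  rw [sum24]
  refine Finset.sum_le_sum fun v hv => mul_le_mul_of_nonneg_left ?_ (hL v)
  have hv' := Finset.mem_range.1 hv
  have k0 := mul_le_mul_of_nonneg_left (hW0 v hv') (sub_nonneg.2 h1)
  have k1 := mul_le_mul_of_nonneg_left (hW1 v hv') h0
  linarith

/-- **the cost of a face from the weights of the rows** -/
theorem face_cost {X s x y z : ℝ} (hX : 0 < X) (hs : 0 ≤ s) (hx : 0 ≤ x) (hy : 0 ≤ y)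
    (hz : 0 ≤ z) (hsum : s + x + y + z ≤ X) {b0 b1 b2 : ℝ} (h0 : 0 ≤ b0) (h1 : 0 ≤ b1)
    (h2 : 0 ≤ b2) (g0 : b0 ≤ 1) (g1 : b1 ≤ 1) (g2 : b2 ≤ 1) (hb : b0 + b1 + b2 ≤ 17 / 10)
    {W0 W1 W2 P D M : ℕ → ℝ} (hD : ∀ v, 0 ≤ D v)
    (a0 : ∀ v < 12, W0 v ≤ P v) (c0 : ∀ v < 12, W0 (12 + v) ≤ P v + D v)
    (a1 : ∀ v < 12, W1 v ≤ P v) (c1 : ∀ v < 12, W1 (12 + v) ≤ P v + D v)
    (a2 : ∀ v < 12, W2 v ≤ P v) (c2 : ∀ v < 12, W2 (12 + v) ≤ P v + D v)
    (hM : ∀ g < 12, ∀ d e : ℝ, (d = D (r0 g) ∧ (e = D (r1 g) ∨ e = D (r2 g)) ∨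
      d = D (r1 g) ∧ (e = D (r0 g) ∨ e = D (r2 g)) ∨
      d = D (r2 g) ∧ (e = D (r0 g) ∨ e = D (r1 g))) →
      P (r0 g) + P (r1 g) + P (r2 g) + (d + 7 / 10 * e) ≤ M g) :
    ∑ i ∈ Finset.range 24, lam24 (lam12 X s x z y) b0 i * W0 i +
      ∑ i ∈ Finset.range 24, lam24 (lam12 X s y x z) b1 i * W1 i +
      ∑ i ∈ Finset.range 24, lam24 (lam12 X s z x y) b2 i * W2 i ≤
      ∑ g ∈ Finset.range 12, lam12 X s x y z g * M g := by
  have L := lam12_nonneg hX hs hx hy hz hsum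
  have L0 := lam12_nonneg hX hs hx hz hy (show s + x + z + y ≤ X by linarith)
  have L1 := lam12_nonneg hX hs hy hx hz (show s + y + x + z ≤ X by linarith)
  have L2 := lam12_nonneg hX hs hz hx hy (show s + z + x + y ≤ X by linarith)
  have k0 := sum24' _ b0 W0 P D L0 h0 g0 a0 c0
  have k1 := sum24' _ b1 W1 P D L1 h1 g1 a1 c1
  have k2 := sum24' _ b2 W2 P D L2 h2 g2 a2 c2
  rw [perm0 X s x y z fun v => P v + b0 * D v] at k0
  rw [perm1 X s x y z fun v => P v + b1 * D v] at k1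
  rw [perm2 X s x y z fun v => P v + b2 * D v] at k2
  refine (add_le_add (add_le_add k0 k1) k2).trans ?_
  rw [← Finset.sum_add_distrib, ← Finset.sum_add_distrib]
  refine Finset.sum_le_sum fun g hg => ?_
  have hg' := Finset.mem_range.1 hg
  rw [← mul_add, ← mul_add]
  refine mul_le_mul_of_nonneg_left ?_ (L g)
  have e := hM g hg'
  have b := beta_max (m := M g - (P (r0 g) + P (r1 g) + P (r2 g))) h0 h1 h2 g0 g1 g2 hb
    (hD (r0 g)) (hD (r1 g)) (hD (r2 g))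
    (by linarith [e _ _ (Or.inl ⟨rfl, Or.inl rfl⟩)])
    (by linarith [e _ _ (Or.inl ⟨rfl, Or.inr rfl⟩)])
    (by linarith [e _ _ (Or.inr (Or.inl ⟨rfl, Or.inl rfl⟩))])
    (by linarith [e _ _ (Or.inr (Or.inl ⟨rfl, Or.inr rfl⟩))])
    (by linarith [e _ _ (Or.inr (Or.inr ⟨rfl, Or.inl rfl⟩))])
    (by linarith [e _ _ (Or.inr (Or.inr ⟨rfl, Or.inr rfl⟩))])
  linarith

end Helper78.MEI
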