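import Pool.Agent.Helper78.MEI.WB7
import Pool.Agent.Helper60.MEI.R8T

/-!
# Project MEI (M2), w-term: two trees per corner

`wcost_two`: at every corner one tree without the apex and one with the apex, combined with the
relative deficit `β k` of the corner.
-/

set_option autoImplicit false

namespace Helper78.MEI

open Set MeasureTheory Helper80.CW Helper82.CW Helper14.CW Helper93.MEI Helper82.M2
open Helper14.MEI2 Pool.Agent.Helper52.MEI Pool.Agent.Helper73.MEI Pool.Agent.Helper31.SR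
open Helper33.MEI (Wi Dl tx M3 mt mt_pos)
open Helper60.R7 (U U_pos mtx jj ll ch_fst ch_snd T3_sum ch_meas mt_ch M3_ch int_ch cap_ch T3_pos'
  ex_corner own_ch mt_mtx)
open Helper60.R8 (Row Ld Cor P3 zR zL z3 afr sS sAf sAf_nonneg)

/-- the rows majorise the violations and the level -/
structure SBd (Q : Cor) (lam : ℕ → ℝ) (Sk Sj Sl s : ℝ) : Prop where
  one : ∑ i ∈ Finset.range Q.rows.length, lam i = 1
  k : Sk ≤ ∑ i ∈ Finset.range Q.rows.length, lam i * (((Q.rows.getD i zR).S.k : ℝ) / U)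
  j : Sj ≤ ∑ i ∈ Finset.range Q.rows.length, lam i * (((Q.rows.getD i zR).S.j : ℝ) / U)
  l : Sl ≤ ∑ i ∈ Finset.range Q.rows.length, lam i * (((Q.rows.getD i zR).S.l : ℝ) / U)
  s : s ≤ sS Q.rows lam

/-- the loads of a table majorise the number `D` at the point `(x, y)` -/
def LBd (Q : Cor) (lam : ℕ → ℝ) (D x y : ℝ) : Prop :=
  ∀ li < Q.nl, D ≤ sAf Q.rows.length lam (fun i => ((Q.rows.getD i zR).ls.getD li zL).D) x y

/-- one tree at the point, with the certificate `Y - (1 - D) w` -/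
theorem one_tree {Q : Cor} {A c0 c1 : ℕ} (hQ : Q.ok A c0 c1 = true) {lam : ℕ → ℝ}
    (h0 : ∀ i, 0 ≤ lam i) (hne : Q.ne = 0)
    {x y Sk Sj Sl s d0 d1 m ow w C D Y : ℝ} (hB : SBd Q lam Sk Sj Sl s) (hx : 0 < x) (hy : 0 < y)
    (hxy : x + y ≤ 1)
    (k1 : 2 * x + y ≤ 1) (k2 : x + 2 * y ≤ 1)
    (hnt : ¬ (x ≤ (Q.h : ℝ) / U ∧ y ≤ (Q.h : ℝ) / U))
    (hd0 : (c0 : ℝ) / U ≤ d0) (hd1 : d1 ≤ (c1 : ℝ) / U) (hd : 0 ≤ d1)
    (hd3 : 3 * d1 * (1 + s) ≤ d0)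
    (hm : m ^ 2 = mtx x y) (hm0 : 0 < m) (how0 : 0 ≤ ow) (how : ow ≤ s)
    (how2 : ow ≤ (3 * x ^ 2 + 2 * x * y + 3 * y ^ 2) / (2 - x - y) ^ 2)
    (hw0 : 0 ≤ w) (hw1 : w ≤ 1 + s) (hm1 : m ≤ 1)
    (hCe : C = (1 - x - y) * Sk + x * Sj + y * Sl)
    (hL : LBd Q lam D x y)
    (hS : ∀ μ, 0 ≤ μ → μ ≤ x → μ ≤ y → -C + w + 2 * μ * ((d0 - d1 * w) * √w) ≤ Y)
    (hO : Y / m - w ≤ ow) {om : ℝ} (hom : Q.f lam (x, y) ≤ om) :
    (A : ℝ) / U * ((Y - (1 - D) * w) / m) - om ≤ ff ((A : ℝ) / U) (Y / m - w) w := by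
  refine Helper60.R8.Cor.pt hQ h0 hB.one hx hy k1 k2 hnt hB.k hB.j hB.l hB.s hd0 hd1 hd hd3 hm hm0
    how0 how how2 hw0 hw1 hm1 hCe ?_ ?_ hS hO hom
  · intro li hli
    have e1 := hL li hli
    have e2 := mul_le_mul_of_nonneg_right e1 hw0
    have e3 := sAf_nonneg (n := Q.rows.length) h0
      (fun i => ((Q.rows.getD i zR).ls.getD li zL).X) hx.le hy.le hxy
    unfold sAf at e2 e3
    linarith
  · intro ei hei
    rw [hne] at hei
    exact absurd hei (Nat.not_lt_zero _)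

/-- **two trees per corner** -/
theorem wcost_two {a : Fin 4 → E3} {σ : Measure (E3 × E3)} {K : Set E3} {S : Fin 4 → ℝ}
    {c : Fin 4 → E3} [IsFiniteMeasure σ] (h : CN K σ a c) (v : Viol K a S)
    (τ : Equiv.Perm (Fin 4)) {A c0 c1 : ℕ} {Sm d0 d1 : ℝ} (hC : IsC Sm d0 d1)
    (hSm : ∀ k, S k ≤ Sm) (hd : 0 ≤ d1) (hd3 : 3 * d1 * (1 + S (τ 0)) ≤ d0)
    (hd0 : (c0 : ℝ) / U ≤ d0) (hd1 : d1 ≤ (c1 : ℝ) / U)
    {G D : ℝ × ℝ → ℝ} {Q0 Q1 : Fin 3 → Cor} (hQ0 : ∀ k, (Q0 k).ok A c0 c1 = true)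
    (hQ1 : ∀ k, (Q1 k).ok A c0 c1 = true) (hn0 : ∀ k, (Q0 k).ne = 0) (hn1 : ∀ k, (Q1 k).ne = 0)
    {hh : ℕ} (hh0 : ∀ k, (Q0 k).h = hh) (hh1 : ∀ k, (Q1 k).h = hh)
    {lam : Fin 3 → ℕ → ℝ} (h0 : ∀ k i, 0 ≤ lam k i)
    (hS0 : ∀ k, SBd (Q0 k) (lam k) (S (τ k.succ)) (S (τ (jj k).succ)) (S (τ (ll k).succ))
      (S (τ 0)))
    (hS1 : ∀ k, SBd (Q1 k) (lam k) (S (τ k.succ)) (S (τ (jj k).succ)) (S (τ (ll k).succ))
      (S (τ 0)))
    {β : Fin 3 → ℝ} (β0 : ∀ k, 0 ≤ β k) (β1 : ∀ k, β k ≤ 1) {D0 D1 : Fin 3 → ℝ × ℝ → ℝ}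
    (hD : ∀ k, ∀ t ∈ Dl, T3 t (jj k) ≤ T3 t k → T3 t (ll k) ≤ T3 t k →
      D t ≤ (1 - β k) * D0 k t + β k * D1 k t)
    (hL0 : ∀ k, ∀ t ∈ Dl, LBd (Q0 k) (lam k) (D0 k t) (T3 t (jj k)) (T3 t (ll k)))
    (hL1 : ∀ k, ∀ t ∈ Dl, LBd (Q1 k) (lam k) (D1 k t) (T3 t (jj k)) (T3 t (ll k)))
    {omT : ℝ × ℝ → ℝ} {CT cT : ℝ} (hTm : AEStronglyMeasurable omT (volume.restrict Dl))
    (hT0 : ∀ t ∈ Dl, 0 ≤ omT t) (hTb : ∀ t ∈ Dl, omT t ≤ CT)
    (hTt : ∀ k, ∀ t ∈ Dl, T3 t (jj k) ≤ (hh : ℝ) / U → T3 t (ll k) ≤ (hh : ℝ) / U →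
      T3 t (jj k) ≤ T3 t k → T3 t (ll k) ≤ T3 t k → ∀ q ∈ K,
      Yt (fun i => a (τ i)) t q / √(mt t) - ‖a (τ 0) - q‖ ^ 2 ≤ own (S (τ 0)) t →
      G t + (1 - D t) * ‖a (τ 0) - q‖ ^ 2 ≤ Yt (fun i => a (τ i)) t q →
      (A : ℝ) / U * (G t / √(mt t)) - omT t ≤
        ff ((A : ℝ) / U) (Yt (fun i => a (τ i)) t q / √(mt t) - ‖a (τ 0) - q‖ ^ 2)
          (‖a (τ 0) - q‖ ^ 2))
    (hcT : (√2)⁻¹ * ∫ t in Dl, omT t * M3 t ≤ cT) :
    WCost a K τ ((A : ℝ) / U) G D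
      ((√2)⁻¹ * (((1 - β 0) * (Q0 0).W (lam 0) + β 0 * (Q1 0).W (lam 0)) +
        ((1 - β 1) * (Q0 1).W (lam 1) + β 1 * (Q1 1).W (lam 1)) +
        ((1 - β 2) * (Q0 2).W (lam 2) + β 2 * (Q1 2).W (lam 2))) + cT) := by
  have hU := U_pos
  have hAU : (0 : ℝ) ≤ (A : ℝ) / U := by positivity
  obtain ⟨F, hF⟩ : ∃ F : Fin 3 → ℝ × ℝ → ℝ, F = fun k t =>
    (1 - β k) * (Q0 k).f (lam k) t + β k * (Q1 k).f (lam k) t := ⟨_, rfl⟩
  have hF' : ∀ k t, F k t = (1 - β k) * (Q0 k).f (lam k) t + β k * (Q1 k).f (lam k) t :=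
    fun k t => by rw [hF]
  have β1' : ∀ k, 0 ≤ 1 - β k := fun k => sub_nonneg.2 (β1 k)
  have n0 : ∀ k t, 0 ≤ F k t := fun k t => by
    rw [hF']
    exact add_nonneg (mul_nonneg (β1' k) (Helper60.R8.Cor.f_nonneg (hQ0 k) (h0 k) t))
      (mul_nonneg (β0 k) (Helper60.R8.Cor.f_nonneg (hQ1 k) (h0 k) t))
  have Fm : ∀ k, Measurable (F k) := fun k => by
    rw [hF]
    exact ((Helper60.R8.Cor.f_meas _ _).const_mul _).add
      ((Helper60.R8.Cor.f_meas _ _).const_mul _)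
  have Fb : ∀ k, ∃ C, ∀ t, F k t ≤ C := fun k => by
    obtain ⟨C0, hC0⟩ := Helper60.R8.Cor.f_bd (hQ0 k) (h0 k)
    obtain ⟨C1, hC1⟩ := Helper60.R8.Cor.f_bd (hQ1 k) (h0 k)
    refine ⟨(1 - β k) * C0 + β k * C1, fun t => ?_⟩
    rw [hF']
    exact add_le_add (mul_le_mul_of_nonneg_left (hC0 t) (β1' k))
      (mul_le_mul_of_nonneg_left (hC1 t) (β0 k))
  have Fi : ∀ k, ∫ t in Dl, F k t * M3 t ≤
      (1 - β k) * (Q0 k).W (lam k) + β k * (Q1 k).W (lam k) := fun k => by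
    have i0 : IntegrableOn (fun t => (Q0 k).f (lam k) t * M3 t) Dl := by
      obtain ⟨C, hCb⟩ := Helper60.R8.Cor.f_bd (hQ0 k) (h0 k)
      refine Helper78.MEI.on_Dl (C := C)
        (Helper60.R8.Cor.f_meas _ _).aestronglyMeasurable fun t _ => ?_
      rw [abs_of_nonneg (Helper60.R8.Cor.f_nonneg (hQ0 k) (h0 k) t)]
      exact hCb _
    have i1 : IntegrableOn (fun t => (Q1 k).f (lam k) t * M3 t) Dl := by
      obtain ⟨C, hCb⟩ := Helper60.R8.Cor.f_bd (hQ1 k) (h0 k)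
      refine Helper78.MEI.on_Dl (C := C)
        (Helper60.R8.Cor.f_meas _ _).aestronglyMeasurable fun t _ => ?_
      rw [abs_of_nonneg (Helper60.R8.Cor.f_nonneg (hQ1 k) (h0 k) t)]
      exact hCb _
    have e : ∀ t, F k t * M3 t = (1 - β k) * ((Q0 k).f (lam k) t * M3 t) +
        β k * ((Q1 k).f (lam k) t * M3 t) := fun t => by
      rw [hF']
      ring
    simp only [e]
    have k0 := integral_add (i0.const_mul (1 - β k)) (i1.const_mul (β k))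
    rw [k0, integral_const_mul, integral_const_mul]
    exact add_le_add
      (mul_le_mul_of_nonneg_left (Helper60.R8.Cor.f_int (hQ0 k) (h0 k)) (β1' k))
      (mul_le_mul_of_nonneg_left (Helper60.R8.Cor.f_int (hQ1 k) (h0 k)) (β0 k))
  obtain ⟨ω, hω⟩ : ∃ ω : ℝ × ℝ → ℝ, ω = fun t => F 0 (Helper60.R7.ch 0 t) +
    F 1 (Helper60.R7.ch 1 t) + F 2 (Helper60.R7.ch 2 t) + omT t := ⟨_, rfl⟩
  have hωm : AEStronglyMeasurable ω (volume.restrict Dl) := by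
    rw [hω]
    exact (((((Fm 0).comp (ch_meas 0)).add ((Fm 1).comp (ch_meas 1))).add
      ((Fm 2).comp (ch_meas 2))).aestronglyMeasurable).add hTm
  have hge : ∀ k, ∀ t ∈ Dl, F k (Helper60.R7.ch k t) ≤ ω t := by
    intro k t ht
    rw [hω]
    have e0 := n0 0 (Helper60.R7.ch 0 t)
    have e1 := n0 1 (Helper60.R7.ch 1 t)
    have e2 := n0 2 (Helper60.R7.ch 2 t)
    have e3 := hT0 t ht
    fin_cases k
    · show F 0 (Helper60.R7.ch 0 t) ≤ F 0 (Helper60.R7.ch 0 t) +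
        F 1 (Helper60.R7.ch 1 t) + F 2 (Helper60.R7.ch 2 t) + omT t
      linarith
    · show F 1 (Helper60.R7.ch 1 t) ≤ F 0 (Helper60.R7.ch 0 t) +
        F 1 (Helper60.R7.ch 1 t) + F 2 (Helper60.R7.ch 2 t) + omT t
      linarith
    · show F 2 (Helper60.R7.ch 2 t) ≤ F 0 (Helper60.R7.ch 0 t) +
        F 1 (Helper60.R7.ch 1 t) + F 2 (Helper60.R7.ch 2 t) + omT t
      linarith
  have hgT : ∀ t, omT t ≤ ω t := by
    intro t
    rw [hω]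
    have e0 := n0 0 (Helper60.R7.ch 0 t)
    have e1 := n0 1 (Helper60.R7.ch 1 t)
    have e2 := n0 2 (Helper60.R7.ch 2 t)
    dsimp only
    linarith
  obtain ⟨C0, hC0⟩ := Fb 0
  obtain ⟨C1, hC1⟩ := Fb 1
  obtain ⟨C2, hC2⟩ := Fb 2
  have hωb : ∀ t ∈ Dl, |ω t| ≤ C0 + C1 + C2 + CT := by
    intro t ht
    have e0 := n0 0 (Helper60.R7.ch 0 t)
    have e1 := n0 1 (Helper60.R7.ch 1 t)
    have e2 := n0 2 (Helper60.R7.ch 2 t)
    have e3 := hT0 t ht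
    have e : ω t = F 0 (Helper60.R7.ch 0 t) + F 1 (Helper60.R7.ch 1 t) +
      F 2 (Helper60.R7.ch 2 t) + omT t := by rw [hω]
    rw [e, abs_of_nonneg (by linarith)]
    exact add_le_add (add_le_add (add_le_add (hC0 _) (hC1 _)) (hC2 _)) (hTb t ht)
  have hint : (√2)⁻¹ * ∫ t in Dl, ω t * M3 t ≤
      (√2)⁻¹ * (((1 - β 0) * (Q0 0).W (lam 0) + β 0 * (Q1 0).W (lam 0)) +
        ((1 - β 1) * (Q0 1).W (lam 1) + β 1 * (Q1 1).W (lam 1)) +
        ((1 - β 2) * (Q0 2).W (lam 2) + β 2 * (Q1 2).W (lam 2))) + cT := by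
    have i : ∀ k, IntegrableOn (fun t => F k (Helper60.R7.ch k t) * M3 t) Dl := fun k => by
      obtain ⟨C, hCb⟩ := Fb k
      refine Helper78.MEI.on_Dl (C := C)
        ((Fm k).comp (ch_meas k)).aestronglyMeasurable fun t _ => ?_
      rw [abs_of_nonneg (n0 k _)]
      exact hCb _
    have iT : IntegrableOn (fun t => omT t * M3 t) Dl :=
      Helper78.MEI.on_Dl (C := CT) hTm fun t ht => by
        rw [abs_of_nonneg (hT0 t ht)]
        exact hTb t ht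
    have e : ∀ k, ∫ t in Dl, F k (Helper60.R7.ch k t) * M3 t = ∫ t in Dl, F k t * M3 t := by
      intro k
      have h := int_ch k fun t => F k t * M3 t
      simp only [M3_ch] at h
      exact h
    have e3 : ∀ t, ω t * M3 t = ((F 0 (Helper60.R7.ch 0 t) * M3 t +
        F 1 (Helper60.R7.ch 1 t) * M3 t) +
        F 2 (Helper60.R7.ch 2 t) * M3 t) + omT t * M3 t := fun t => by
      rw [hω]
      ring
    simp only [e3]
    have k0 := integral_add (((i 0).add (i 1)).add (i 2)) iT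
    have k1 := integral_add ((i 0).add (i 1)) (i 2)
    have k2 := integral_add (i 0) (i 1)
    simp only [Pi.add_apply] at k0 k1 k2
    rw [k0, k1, k2, e 0, e 1, e 2, mul_add]
    refine add_le_add (mul_le_mul_of_nonneg_left ?_ (by positivity)) hcT
    exact add_le_add (add_le_add (Fi 0) (Fi 1)) (Fi 2)
  have h' := h.perm τ
  have v' := viol_perm v τ
  have hgr := gram_of_dist h'.ha
  refine ⟨ω, own (S (τ 0)), C0 + C1 + C2 + CT, hωm, hωb, fun t ht => own_nonneg (v.nn _) ht,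
    own_ok h v τ, ?_, hint⟩
  intro t ht q hq hX hG
  have hm : 0 < √(mt t) := Real.sqrt_pos.2 mt_pos
  have hm1 : √(mt t) ≤ 1 := sqrt_mt_le ht
  obtain ⟨k, hk1, hk2⟩ := ex_corner t
  by_cases htp : T3 t (jj k) ≤ (hh : ℝ) / U ∧ T3 t (ll k) ≤ (hh : ℝ) / U
  · have e := hTt k t ht htp.1 htp.2 hk1 hk2 q hq hX hG
    have := hgT t
    linarith
  have hp := fun k => T3_pos' ht k
  have hsum := T3_sum k t
  have hcap := cap_ch k t fun p => S (τ p.succ)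
  have hmm : √(mt t) ^ 2 = mtx (T3 t (jj k)) (T3 t (ll k)) := by
    have h := mt_ch k t
    rw [mt_mtx (Helper60.R7.ch k t), ch_fst, ch_snd] at h
    rw [Real.sq_sqrt (mt_pos (t := t)).le]
    exact h.symm
  have hfk : F k (T3 t (jj k), T3 t (ll k)) ≤ ω t := by
    have := hge k t ht
    have e : Helper60.R7.ch k t = (T3 t (jj k), T3 t (ll k)) := by
      rw [← ch_fst, ← ch_snd]
    rw [e] at this
    exact this
  have hpq := h'.hp q hq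
  have h19 : ‖a (τ 0) - q‖ ^ 2 ≤ 19 / 16 := by
    have h1 := h.ap hq (τ 0)
    unfold Qv at h1
    rw [norm_sub_rev]
    linarith
  have hw1 : ‖a (τ 0) - q‖ ^ 2 ≤ 1 + S (τ 0) := by
    have h1 := v.le (τ 0) q hq
    unfold Qv at h1
    rw [norm_sub_rev]
    linarith
  have hSt : ∀ μ, 0 ≤ μ → μ ≤ T3 t (jj k) → μ ≤ T3 t (ll k) →
      -(T3 t 0 * S (τ 1) + T3 t 1 * S (τ 2) + T3 t 2 * S (τ 3)) + ‖a (τ 0) - q‖ ^ 2 +
        2 * μ * ((d0 - d1 * ‖a (τ 0) - q‖ ^ 2) * √(‖a (τ 0) - q‖ ^ 2)) ≤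
        Yt (fun i => a (τ i)) t q := by
    intro μ hμ hμx hμy
    have hM : ∀ p, μ ≤ T3 t p := by
      intro p
      have hμk : μ ≤ T3 t k := hμx.trans hk1
      fin_cases k
      · fin_cases p
        · exact hμk
        · exact hμy
        · exact hμx
      · fin_cases p
        · exact hμx
        · exact hμk
        · exact hμy
      · fin_cases p
        · exact hμx
        · exact hμy
        · exact hμk
    have hS := Yt_cw (a := fun i => a (τ i)) (t := t) hgr hC hpq h19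
      (V := fun k => S (τ k.succ)) (fun k => v.nn _) (fun k => hSm _) hμ hM
      (v'.le 1 q hq) (v'.le 2 q hq) (v'.le 3 q hq)
    have hT : T3 t 0 + T3 t 1 + T3 t 2 = 1 := by
      show t.1 + t.2 + (1 - t.1 - t.2) = 1
      ring
    have r1 := mul_le_mul_of_nonneg_left (le_pp (‖a (τ 0) - q‖ ^ 2 - S (τ 1)))
      (hμ.trans (hM 0))
    have r2 := mul_le_mul_of_nonneg_left (le_pp (‖a (τ 0) - q‖ ^ 2 - S (τ 2)))
      (hμ.trans (hM 1))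
    have r3 := mul_le_mul_of_nonneg_left (le_pp (‖a (τ 0) - q‖ ^ 2 - S (τ 3)))
      (hμ.trans (hM 2))
    have e2 : (T3 t 0 + T3 t 1 + T3 t 2) * ‖a (τ 0) - q‖ ^ 2 = ‖a (τ 0) - q‖ ^ 2 := by
      rw [hT, one_mul]
    refine le_trans ?_ hS
    show -(T3 t 0 * S (τ 1) + T3 t 1 * S (τ 2) + T3 t 2 * S (τ 3)) + _ + _ ≤
      (T3 t 0 * pp (‖a (τ 0) - q‖ ^ 2 - S (τ 1)) +
      T3 t 1 * pp (‖a (τ 0) - q‖ ^ 2 - S (τ 2)) + T3 t 2 * pp (‖a (τ 0) - q‖ ^ 2 - S (τ 3))) +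
      2 * μ * ((d0 - d1 * ‖a (τ 0) - q‖ ^ 2) * √(‖a (τ 0) - q‖ ^ 2))
    nlinarith
  have hxy : T3 t (jj k) + T3 t (ll k) ≤ 1 := by
    have := hp k
    linarith
  have t0 := one_tree (hQ0 k) (h0 k) (hn0 k) (hS0 k) (hp (jj k)) (hp (ll k)) hxy (by linarith)
    (by linarith) (by rw [hh0 k]; exact htp) hd0 hd1 hd hd3 hmm hm (own_nonneg (v.nn _) ht)
    (own_le_s (S (τ 0)) t) (own_ch ht k) (sq_nonneg _) hw1 hm1 hcap (hL0 k t ht) hSt hX le_rfl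
  have t1 := one_tree (hQ1 k) (h0 k) (hn1 k) (hS1 k) (hp (jj k)) (hp (ll k)) hxy (by linarith)
    (by linarith) (by rw [hh1 k]; exact htp) hd0 hd1 hd hd3 hmm hm (own_nonneg (v.nn _) ht)
    (own_le_s (S (τ 0)) t) (own_ch ht k) (sq_nonneg _) hw1 hm1 hcap (hL1 k t ht) hSt hX le_rfl
  have u0 := mul_le_mul_of_nonneg_left t0 (β1' k)
  have u1 := mul_le_mul_of_nonneg_left t1 (β0 k)
  have hGle : G t ≤ (1 - β k) * (Yt (fun i => a (τ i)) t q - (1 - D0 k t) *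
      ‖a (τ 0) - q‖ ^ 2) + β k * (Yt (fun i => a (τ i)) t q - (1 - D1 k t) *
      ‖a (τ 0) - q‖ ^ 2) := by
    have := mul_le_mul_of_nonneg_right (hD k t ht hk1 hk2) (sq_nonneg ‖a (τ 0) - q‖)
    linarith
  have hGm : (A : ℝ) / U * (G t / √(mt t)) ≤ (A : ℝ) / U * (((1 - β k) *
      (Yt (fun i => a (τ i)) t q - (1 - D0 k t) * ‖a (τ 0) - q‖ ^ 2) + β k *
      (Yt (fun i => a (τ i)) t q - (1 - D1 k t) * ‖a (τ 0) - q‖ ^ 2)) / √(mt t)) :=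
    mul_le_mul_of_nonneg_left (div_le_div_of_nonneg_right hGle hm.le) hAU
  have e1 : (A : ℝ) / U * (((1 - β k) *
      (Yt (fun i => a (τ i)) t q - (1 - D0 k t) * ‖a (τ 0) - q‖ ^ 2) + β k *
      (Yt (fun i => a (τ i)) t q - (1 - D1 k t) * ‖a (τ 0) - q‖ ^ 2)) / √(mt t)) =
      (1 - β k) * ((A : ℝ) / U * ((Yt (fun i => a (τ i)) t q - (1 - D0 k t) *
        ‖a (τ 0) - q‖ ^ 2) / √(mt t))) +
      β k * ((A : ℝ) / U * ((Yt (fun i => a (τ i)) t q - (1 - D1 k t) *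
        ‖a (τ 0) - q‖ ^ 2) / √(mt t))) := by ring
  rw [e1] at hGm
  have e2 := hF' k (T3 t (jj k), T3 t (ll k))
  rw [e2] at hfk
  linarith

end Helper78.MEI
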