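import Pool.Agent.Helper78.MEI.WB8

/-!
# Project MEI (M2), w-term: the cost of a face from the tables with twelve rows

`tab12` = contract of a table with twelve rows; `face_two` = the cost of the second order term of a
placed body, any share of the arcs between the bounds; `wokg_tab` = `WOKG` of helper73.
-/

set_option autoImplicit false

namespace Helper78.MEI

open Set Metric MeasureTheory Helper80.CW Helper82.CW Helper14.CW Helper93.MEI Helper82.M2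
open Helper14.MEI2 Pool.Agent.Helper52.MEI Pool.Agent.Helper73.MEI Helper41.MEI
open Pool.Agent.Helper55.Sx (Sim Sim_meas)
open Pool.Agent.Helper55.Mass (LN LN_nonneg vv vv_nonneg vv_le)
open Pool.Agent.Helper55.Apex (nc vt_vv)
open Pool.Agent.Helper55.ApexP (PN alP alP_nonneg alP_zeta alP_le xx_mu mu_bal)
open Pool.Agent.Helper73.MEI.SideP (flP)
open Pool.Agent.Helper73.MEI.ArCor (phiN)
open Pool.Agent.Helper96.Kap (kap)
open Pool.Agent.Helper31.SR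
open Helper33.MEI (Wi Dl tx M3 mt mt_pos)
open Helper60.R7 (U U_pos jj ll T3_pos' T3_sum)
open Helper60.R8 (Row Ld Cor P3 zR zL z3 afr sS sAf)
open scoped RealInnerProductSpace ENNReal

/-! ### The contract of a table with twelve rows -/

/-- the table `Q` has the twelve rows of the bit `b` -/
def tab12 (P : Par) (b : ℕ) (As : List Alt) (p0 p1 : ℕ) (Q : Cor) : Bool :=
  Nat.beq Q.rows.length 12 && rowsck P As (12 * b) Q.rows && (As.all fun A => A.ok p0 p1) &&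
    Nat.ble Q.nl As.length && Nat.ble Q.ne 0 && Nat.ble p0 p1 && Nat.ble p1 U6

section
variable {P : Par} {b : ℕ} {As : List Alt} {p0 p1 : ℕ} {Q : Cor}
  (h : tab12 P b As p0 p1 Q = true)
include h

theorem tab12_iff : Q.rows.length = 12 ∧ (∀ v < 12, rowck P As v b (Q.rows.getD v zR) = true) ∧
    (∀ i < As.length, (As.getD i zA).ok p0 p1 = true) ∧ Q.nl ≤ As.length ∧ Q.ne = 0 ∧ p0 ≤ p1 ∧
    p1 ≤ U6 := by
  unfold tab12 at h
  simp only [Bool.and_eq_true, Nat.ble_eq, Nat.beq_eq, List.all_eq_true] at h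
  obtain ⟨⟨⟨⟨⟨⟨h1, h2⟩, h3⟩, h4⟩, h5⟩, h6⟩, h7⟩ := h
  refine ⟨h1, fun v hv => ?_, fun i hi => ?_, h4, Nat.le_zero.1 h5, h6, h7⟩
  · have := rowsck_get h2 v (by omega)
    rw [show (12 * b + v) % 12 = v by omega, show (12 * b + v) / 12 = b by omega] at this
    exact this
  · rw [List.getD_eq_getElem _ _ hi]
    exact h3 _ (List.getElem_mem hi)

/-- the rows majorise the violations and the level -/
theorem tab12_S (hX : 0 < P.X) {s x y z : ℝ} (hs : 0 ≤ s) (hx : 0 ≤ x) (hy : 0 ≤ y) (hz : 0 ≤ z)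
    (hsum : s + x + y + z ≤ (P.X : ℝ) / U6) :
    SBd Q (lam12 ((P.X : ℝ) / U6) s x y z) x y z s := by
  have hU := U6_pos
  have hXp : (0 : ℝ) < (P.X : ℝ) / U6 := _root_.div_pos (Nat.cast_pos.2 hX) hU
  have hL := lam12_nonneg hXp hs hx hy hz hsum
  obtain ⟨hlen, r0, -⟩ := tab12_iff h
  have un : ∀ v b R, rowck P As v b R = true → lv P.X (sd v) R.s = true ∧
      lv P.X (xd v) R.S.k = true ∧ lv P.X (yd v) R.S.j = true ∧ lv P.X (zd v) R.S.l = true := by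
    intro v b R hR
    unfold rowck at hR
    simp only [Bool.and_eq_true] at hR
    exact ⟨hR.1.1.1.1, hR.1.1.1.2, hR.1.1.2, hR.1.2⟩
  have key : ∀ (m f : ℕ → ℝ) (b : ℝ),
      ∑ v ∈ Finset.range 12, lam12 ((P.X : ℝ) / U6) s x y z v * ((P.X : ℝ) / U6 * m v) = b →
      (∀ v < 12, (P.X : ℝ) / U6 * m v ≤ f v) →
      b ≤ ∑ v ∈ Finset.range Q.rows.length, lam12 ((P.X : ℝ) / U6) s x y z v * f v := by
    intro m f b hb hf
    rw [hlen, ← hb]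
    exact Finset.sum_le_sum fun v hv =>
      mul_le_mul_of_nonneg_left (hf v (Finset.mem_range.1 hv)) (hL v)
  refine ⟨?_, ?_, ?_, ?_, ?_⟩
  · rw [hlen]
    exact lam12_one hXp
  · refine key _ _ _ (lam12_x hXp) fun v hv => ?_
    rw [x12_xd hv]
    exact lv_le (un _ _ _ (r0 v hv)).2.1
  · refine key _ _ _ (lam12_y hXp) fun v hv => ?_
    rw [y12_yd hv]
    exact lv_le (un _ _ _ (r0 v hv)).2.2.1
  · refine key _ _ _ (lam12_z hXp) fun v hv => ?_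
    rw [z12_zd hv]
    exact lv_le (un _ _ _ (r0 v hv)).2.2.2
  · refine key _ _ _ (lam12_s hXp) fun v hv => ?_
    rw [s12_sd hv]
    exact lv_le (un _ _ _ (r0 v hv)).1

/-- the demands through the loads -/
theorem tab12_D {L : ℕ → ℝ} (hL : ∀ v, 0 ≤ L v) {x y : ℝ}
    (hx : 0 ≤ x) (hy : 0 ≤ y) (hxy : x + y ≤ 1) {li : ℕ} (hli : li < Q.nl) :
    ∑ v ∈ Finset.range 12, L v * dem P (As.getD li zA) v b x y ≤
      sAf Q.rows.length L (fun i => ((Q.rows.getD i zR).ls.getD li zL).D) x y := by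
  obtain ⟨hlen, r0, hok, hnl, -⟩ := tab12_iff h
  have hA : (As.getD li zA).th ≤ U6 := by
    have := hok li (by omega)
    unfold Alt.ok at this
    simp only [Bool.and_eq_true, Nat.ble_eq] at this
    exact this.1.1
  have un : ∀ v b R, rowck P As v b R = true → altsck P v b As R.ls = true := by
    intro v b R hR
    unfold rowck at hR
    simp only [Bool.and_eq_true] at hR
    exact hR.2
  unfold sAf
  rw [hlen]
  refine Finset.sum_le_sum fun v hv => mul_le_mul_of_nonneg_left ?_ (hL v)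
  have hv' := Finset.mem_range.1 hv
  have q0 := vck_le hA (altsck_get (un _ _ _ (r0 v hv')) li (by omega)) hx hy hxy
  unfold afr
  exact q0

end

/-! ### The forms -/

theorem bet_comm (Z u v : ℝ) : bet Z u v = bet Z v u := by
  unfold bet
  rw [add_comm (pp u) (pp v)]

variable {a : Fin 4 → E3} {K : Set E3} {S : Fin 4 → ℝ} {σ : Measure (E3 × E3)}
  {c : Fin 4 → E3} {z : Fin 4 → Fin 4 → E3} {l : Fin 3 → Bool → Bool → E3 × E3 → ℝ}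

/-- the deficit of a corner without apex -/
noncomputable def Df (κ φ C1 : ℝ) (N : Fin 3 → Fin 3 → ℝ) (i j k : Fin 3) (t : ℝ × ℝ) : ℝ :=
  κ * (min (T3 t j + T3 t k) (nc N i) + nc N j * T3 t j + nc N k * T3 t k)
    + φ * C1 * (T3 t j + T3 t k)

/-- the deficit of the certificate through the two forms -/
theorem DM_two [IsFiniteMeasure σ] (h : CN K σ a c) (v : Viol K a S) (hz : CV a K z)
    (τ : Equiv.Perm (Fin 4)) (hl : Lok a l) {P : Par}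
    {A' ρ cN s χ ω g0 g1 φl a0 a1 : ℝ} (hP : POk P A' ρ cN s χ ω g0 g1 φl a0 a1)
    (hMρ : ∀ p k, k ≠ p → MA σ a l τ p k ≤ ρ)
    {x : E3} (hx : x ∈ K) {N : Fin 3 → Fin 3 → ℝ}
    (hNd : N = NM (fun i => a (τ i)) (fun i j => z (τ i) (τ j)))
    {ζp : Fin 3 → ℝ} (hζp : ∀ k, 0 < ζp k)
    (hζ : ∀ k, zc (fun i => a (τ i)) N x k ≤ ζp k)
    {φ lam : ℝ} (hφ : 0 < φ)
    (hF : ∀ p, ρ ≤ φ * (A' * Pool.Agent.Helper55.Mass.Id (flP (PN N) p)))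
    (hl0 : 0 ≤ lam) (hl1 : lam ≤ 1 - φ)
    (hcN : ∀ m, nc N m ≤ cN) (hS : ∀ i, S i ≤ s)
    {i j k : Fin 3} (hij : i ≠ j) (hik : i ≠ k) (hjk : j ≠ k)
    {β AB : ℝ}
    (hβ : β = bet (Zd (2 / 3 * cN) (-bar (fun i => a (τ i)) 0 x) (b3 (fun i => a (τ i)) x))
      (b3 (fun i => a (τ i)) x j) (b3 (fun i => a (τ i)) x k))
    {t : ℝ × ℝ} (ht : t ∈ Helper33.MEI.Dl)
    (hABd : AB = alP N ζp t *
      (pp (b3 (fun i => a (τ i)) x j) + pp (b3 (fun i => a (τ i)) x k))) :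
    DM A' N (zc (fun i => a (τ i)) N x) ζp lam
        (fun p t => φ * flP (PN N) p t)
        (fun p t => kap N (vv t) p) (fun _ => 0) (MB σ a l τ)
        (fun j => 1 / qM (fun i => a (τ i)) (fun i j => z (τ i) (τ j)) j)
        (fun p => Pool.Agent.Helper31.SR.am σ a l (τ 0) (τ p.succ)) t ≤
      (1 - β) * Df (2 / 3) φ (2 * ω + 2 / 3 * cN) N i j k t
        + β * (Df (2 / 3) φ (2 * ω + 2 / 3 * cN) N i j k t + lam / 2 * AB) := by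
  have h' := h.perm τ
  have v' := viol_perm v τ
  have hz' := hz.perm τ
  have hN : ∀ k m, 0 ≤ N k m := fun k m => by
    rw [hNd]
    exact NM_nonneg h' v' hz' k m
  have hcol : ∀ m, nc N m ≤ 9 / 10 := fun m => by
    rw [hNd]
    exact nc_le h' v' hz' m
  have hc : (9 / 10 : ℝ) < 1 := by norm_num
  have b1 := DM_bet h v hz τ (A' := A') hP.A0 hl (ρ := fun _ => ρ) (β := fun _ => 0)
    (fun _ => hP.ρ0) hMρ hx hNd rfl hζp hζ (φ := φ) (lam := lam) hφ hl0 hl1 (fun _ => le_rfl)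
    (fun _ => zero_le_one)
    (fun p => by
      rw [zero_mul]
      exact mul_nonneg hP.A0.le (Id_kap_nonneg hN hc hcol p))
    (fun p => by
      rw [sub_zero, one_mul]
      exact hF p)
    hcN hP.cN2 hS hP.χ0 hP.χs hP.ω0 hP.ωχ (η := 0) le_rfl (dm := fun _ => 0)
    (fun _ => by rw [zero_mul])
    (Ca := φ * (2 * ω + 0 + 2 / 3 * cN)) le_rfl (Or.inl fun _ => rfl) (Dl_Sim ht) hij hik hjk
  simp only [sub_zero, add_zero] at b1
  refine b1.trans ?_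
  rw [← hβ, ← hABd, vv_T3]
  unfold Df
  linarith

/-- **the two forms through the rows** -/
theorem form_rows (h : CN K σ a c) (v : Viol K a S) (hz : CV a K z)
    (τ : Equiv.Perm (Fin 4)) {P : Par}
    {A' ρ cN s χ ω g0 g1 φl a0 a1 : ℝ} (hP : POk P A' ρ cN s χ ω g0 g1 φl a0 a1)
    {N : Fin 3 → Fin 3 → ℝ}
    (hNd : N = NM (fun i => a (τ i)) (fun i j => z (τ i) (τ j)))
    {φ lam : ℝ} (hφl : φl ≤ φ) (hφu : φ ≤ a0 + a1 * SideP.TN N)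
    (hl1 : lam ≤ 1 - φ) (hcN : ∀ m, nc N m ≤ cN)
    (hcs : ∀ m, nc N m ^ 2 ≤ 2 * S (τ 0) * (1 + nc N m / 2) ^ 2)
    (hcS : ∀ m : Fin 3, nc N m ^ 2 ≤ 2 * S (τ m.succ) * (1 + nc N m / 2) ^ 2)
    {i j k : Fin 3} (hij : i ≠ j) (hik : i ≠ k) (hjk : j ≠ k)
    (hX : S (τ 0) + S (τ i.succ) + S (τ j.succ) + S (τ k.succ) ≤ (P.X : ℝ) / U6)
    {A : Alt} (hth : A.th ≤ U6) {AB : ℝ}
    {t : ℝ × ℝ} (ht : t ∈ Helper33.MEI.Dl) (hAB0 : 0 ≤ AB)
    (hAB : AB ≤ (A.ax : ℝ) / U6 * T3 t j + (A.ay : ℝ) / U6 * T3 t k) :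
    Df (2 / 3) φ (2 * ω + 2 / 3 * cN) N i j k t ≤
      ∑ v ∈ Finset.range 12, lam12 ((P.X : ℝ) / U6) (S (τ 0)) (S (τ i.succ)) (S (τ j.succ))
          (S (τ k.succ)) v * dem P A v 0 (T3 t j) (T3 t k) ∧
    Df (2 / 3) φ (2 * ω + 2 / 3 * cN) N i j k t + lam / 2 * AB ≤
      ∑ v ∈ Finset.range 12, lam12 ((P.X : ℝ) / U6) (S (τ 0)) (S (τ i.succ)) (S (τ j.succ))
          (S (τ k.succ)) v * dem P A v 1 (T3 t j) (T3 t k) := by
  have hU := U6_pos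
  have h' := h.perm τ
  have v' := viol_perm v τ
  have hz' := hz.perm τ
  have hN : ∀ k m, 0 ≤ N k m := fun k m => by
    rw [hNd]
    exact NM_nonneg h' v' hz' k m
  have hn0 : ∀ m, 0 ≤ nc N m := Pool.Agent.Helper73.MEI.SideP.nc_nonneg hN
  have hT0 : 0 ≤ SideP.TN N := SideP.TN_nonneg hN
  have hTs : SideP.TN N = nc N 0 + nc N 1 + nc N 2 := rfl
  have hXp : (0 : ℝ) < (P.X : ℝ) / U6 := _root_.div_pos (Nat.cast_pos.2 hP.Xp) hU
  have one := lam12_one (s := S (τ 0)) (x := S (τ i.succ)) (y := S (τ j.succ))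
    (z := S (τ k.succ)) hXp
  -- the leaks
  have leak : ∀ m : Fin 3, nc N m ≤ g0 + g1 * min (S (τ 0)) (S (τ m.succ)) := fun m =>
    leak_lin (hn0 m) (hcN m) (hcs m) (hcS m) hP.g10 hP.leak
  obtain ⟨k1, k2, k3⟩ := nh_ge hP.nok hP.Xp (v.nn _) (v.nn _) (v.nn _) (v.nn _) hX
  have m1 := (leak i).trans k1
  have m2 := (leak j).trans k2
  have m3 := (leak k).trans k3
  have s0 := dem_sum one P A 0 (T3 t j) (T3 t k)
  have s1 := dem_sum one P A 1 (T3 t j) (T3 t k)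
  simp only [sub_zero, one_mul, zero_mul, add_zero, sub_self, zero_add] at s0 s1
  rw [s0, s1]
  obtain ⟨NI, hNI⟩ : ∃ n, n = nh (lam12 ((P.X : ℝ) / U6) (S (τ 0)) (S (τ i.succ)) (S (τ j.succ))
          (S (τ k.succ))) P.nI := ⟨_, rfl⟩
  obtain ⟨NJ, hNJ⟩ : ∃ n, n = nh (lam12 ((P.X : ℝ) / U6) (S (τ 0)) (S (τ i.succ)) (S (τ j.succ))
          (S (τ k.succ))) P.nJ := ⟨_, rfl⟩
  obtain ⟨NL, hNL⟩ : ∃ n, n = nh (lam12 ((P.X : ℝ) / U6) (S (τ 0)) (S (τ i.succ)) (S (τ j.succ))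
          (S (τ k.succ))) P.nL := ⟨_, rfl⟩
  rw [← hNI] at m1
  rw [← hNJ] at m2
  rw [← hNL] at m3
  rw [← hNI, ← hNJ, ← hNL]
  have ht0 : ∀ q, 0 ≤ T3 t q := fun q => by
    rw [← vv_T3]
    exact vv_nonneg (Dl_Sim ht) q
  unfold Df
  obtain ⟨X, hXd⟩ : ∃ X, X = T3 t j := ⟨_, rfl⟩
  obtain ⟨Y, hYd⟩ : ∃ Y, Y = T3 t k := ⟨_, rfl⟩
  have X0 : 0 ≤ X := by rw [hXd]; exact ht0 j
  have Y0 : 0 ≤ Y := by rw [hYd]; exact ht0 k
  rw [← hXd, ← hYd] at hAB ⊢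
  obtain ⟨θ, hθ⟩ : ∃ θ, θ = (A.th : ℝ) / U6 := ⟨_, rfl⟩
  have θ0 : 0 ≤ θ := by rw [hθ]; positivity
  have θ1 : θ ≤ 1 := by
    rw [hθ, div_le_one hU]
    exact_mod_cast hth
  rw [← hθ]
  have r0 := hn0 i
  have r1 := hn0 j
  have r2 := hn0 k
  -- nodes
  have d1 : min (X + Y) (nc N i) ≤ (1 - θ) * NI + θ * (X + Y) := by
    have q1 := min_le_left (X + Y) (nc N i)
    have q2 := (min_le_right (X + Y) (nc N i)).trans m1
    have q3 := mul_le_mul_of_nonneg_left q1 θ0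
    have q4 := mul_le_mul_of_nonneg_left q2 (sub_nonneg.2 θ1)
    linarith
  have d2 := mul_le_mul_of_nonneg_right m2 X0
  have d3 := mul_le_mul_of_nonneg_right m3 Y0
  have e1 : 0 ≤ min (X + Y) (nc N i) := le_min (by linarith) r0
  have e2 : 0 ≤ nc N j * X := mul_nonneg r1 X0
  have e3 : 0 ≤ nc N k * Y := mul_nonneg r2 Y0
  have p1 : 2 / 3 * (min (X + Y) (nc N i) + nc N j * X + nc N k * Y) ≤
      (P.K : ℝ) / U6 * ((1 - θ) * NI + θ * (X + Y) + NJ * X + NL * Y) :=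
    mul_le_mul hP.K2 (by linarith) (by linarith) (by positivity)
  -- arcs
  have hω : 0 ≤ 2 * ω + 2 / 3 * cN := by
    have := hP.ω0
    have := hP.cN0
    positivity
  have hT : SideP.TN N = nc N i + nc N j + nc N k := by
    rw [hTs]
    fin_cases i <;> fin_cases j <;> fin_cases k <;> simp at hij hik hjk ⊢ <;> ring
  have p2 : φ * (2 * ω + 2 / 3 * cN) ≤
      (P.c0 : ℝ) / U6 + (P.c1 : ℝ) / U6 * (NI + NJ + NL) := by
    have q1 := mul_le_mul_of_nonneg_right hφu hω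
    have q2 : (a1 * (2 * ω + 2 / 3 * cN)) * SideP.TN N ≤
        (P.c1 : ℝ) / U6 * (NI + NJ + NL) := by
      refine mul_le_mul hP.c1 (by rw [hT]; linarith) hT0 (by positivity)
    have q3 := hP.c0
    linarith
  have p3 := mul_le_mul_of_nonneg_right p2 (show 0 ≤ X + Y by linarith)
  -- apex
  have hlam : lam / 2 ≤ (P.hl : ℝ) / U6 := by
    have := hP.hl
    linarith
  have p4 : lam / 2 * AB ≤ (P.hl : ℝ) / U6 * ((A.ax : ℝ) / U6 * X + (A.ay : ℝ) / U6 * Y) :=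
    mul_le_mul hlam hAB hAB0 (by positivity)
  exact ⟨by linarith, by linarith⟩

theorem jl_ne (k : Fin 3) : k ≠ jj k ∧ k ≠ ll k ∧ jj k ≠ ll k := by
  fin_cases k <;> decide

/-- **the numbers of a face**: classes of the three positions exist, and the weights of the tables
give the cost -/
def NumF (X : ℕ) {ι : Type} (lo hi : ι → ℕ) (w0 : ℕ → ℕ) (w1 : ι → ℕ → ℕ) (u0 u1 u2 : ℕ) : Prop :=
  ∀ (s x y z e c : ℝ) (b : Fin 3 → ℝ), 0 ≤ s → 0 ≤ x → 0 ≤ y → 0 ≤ z →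
    s + x + y + z ≤ (X : ℝ) / U6 → s ≤ 11 / 1000 → b 0 + b 1 + b 2 = 1 + e →
    2 * e ≤ b 0 + b 1 → 2 * e ≤ b 0 + b 2 → 2 * e ≤ b 1 + b 2 → 0 ≤ c → c ≤ 1 / 10 →
    b 0 ^ 2 + b 1 ^ 2 + b 2 ^ 2 + b 0 * b 1 + b 0 * b 2 + b 1 * b 2 ≤ 1 + s →
    ∃ κ : Fin 3 → ι,
      ((lo (κ 0) : ℝ) / U6 ≤ prt (b 2) (b 1) ∧ prt (b 2) (b 1) ≤ (hi (κ 0) : ℝ) / U6) ∧
      ((lo (κ 1) : ℝ) / U6 ≤ prt (b 0) (b 2) ∧ prt (b 0) (b 2) ≤ (hi (κ 1) : ℝ) / U6) ∧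
      ((lo (κ 2) : ℝ) / U6 ≤ prt (b 0) (b 1) ∧ prt (b 0) (b 1) ≤ (hi (κ 2) : ℝ) / U6) ∧
      (√2)⁻¹ * (((1 - bet (Zd c e b) (b 2) (b 1)) * ∑ v ∈ Finset.range 12,
              lam12 ((X : ℝ) / U6) s x z y v * ((w0 v : ℝ) / (4 * (U6 : ℝ) ^ 4))
            + bet (Zd c e b) (b 2) (b 1) * ∑ v ∈ Finset.range 12,
              lam12 ((X : ℝ) / U6) s x z y v * ((w1 (κ 0) v : ℝ) / (4 * (U6 : ℝ) ^ 4))) +
          ((1 - bet (Zd c e b) (b 0) (b 2)) * ∑ v ∈ Finset.range 12,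
              lam12 ((X : ℝ) / U6) s y x z v * ((w0 v : ℝ) / (4 * (U6 : ℝ) ^ 4))
            + bet (Zd c e b) (b 0) (b 2) * ∑ v ∈ Finset.range 12,
              lam12 ((X : ℝ) / U6) s y x z v * ((w1 (κ 1) v : ℝ) / (4 * (U6 : ℝ) ^ 4))) +
          ((1 - bet (Zd c e b) (b 0) (b 1)) * ∑ v ∈ Finset.range 12,
              lam12 ((X : ℝ) / U6) s z x y v * ((w0 v : ℝ) / (4 * (U6 : ℝ) ^ 4))
            + bet (Zd c e b) (b 0) (b 1) * ∑ v ∈ Finset.range 12,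
              lam12 ((X : ℝ) / U6) s z x y v * ((w1 (κ 2) v : ℝ) / (4 * (U6 : ℝ) ^ 4)))) ≤
        (u0 : ℝ) / 1000000000 + (u1 : ℝ) / 1000000000 * s + (u2 : ℝ) / 1000000000 * (x + y + z)

/-- **the numbers from the worst class** -/
theorem numF_fck {X : ℕ} (hX : 0 < X) {ι : Type} {lo hi : ι → ℕ} {w0 : ℕ → ℕ} {w1 : ι → ℕ → ℕ}
    {Pl Dl : List ℕ} {u0 u1 u2 : ℕ}
    (hcov : ∀ p : ℝ, 0 ≤ p → p ≤ 1 → ∃ e, (lo e : ℝ) / U6 ≤ p ∧ p ≤ (hi e : ℝ) / U6)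
    (hf : fck Pl Dl X u0 u1 u2 = true) (hw0 : ∀ v < 12, w0 v ≤ Pl.getD v 0)
    (hw1 : ∀ e, ∀ v < 12, w1 e v ≤ Pl.getD v 0 + Dl.getD v 0) : NumF X lo hi w0 w1 u0 u1 u2 := by
  intro s x y z e c b hs hx hy hz hsum hs11 hb h01 h02 h12 hc0 hc hQ
  have hU := U6_pos
  obtain ⟨z1, z2, z3⟩ := Zd_le (by linarith : c ≤ 1 / 2) hb h01 h02 h12
  have hpr : ∀ u v : ℝ, ∃ e, (lo e : ℝ) / U6 ≤ prt u v ∧ prt u v ≤ (hi e : ℝ) / U6 := fun u v =>
    hcov _ (prt_nonneg u v) (prt_le u v)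
  obtain ⟨κ0, g0⟩ := hpr (b 2) (b 1)
  obtain ⟨κ1, g1⟩ := hpr (b 0) (b 2)
  obtain ⟨κ2, g2⟩ := hpr (b 0) (b 1)
  refine ⟨fun k => if k = 0 then κ0 else if k = 1 then κ1 else κ2, g0, g1, g2, ?_⟩
  have k := sum_bet (e := e) (c := c) (s := s) (b := b) hb h01 h02 h12 hc0 hc hQ hs11
  obtain ⟨B0, hB0⟩ : ∃ B, B = bet (Zd c e b) (b 2) (b 1) := ⟨_, rfl⟩
  obtain ⟨B1, hB1⟩ : ∃ B, B = bet (Zd c e b) (b 0) (b 2) := ⟨_, rfl⟩
  obtain ⟨B2, hB2⟩ : ∃ B, B = bet (Zd c e b) (b 0) (b 1) := ⟨_, rfl⟩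
  have c0 : 0 ≤ B0 := by rw [hB0]; exact bet_nonneg _ _ _
  have c1 : 0 ≤ B1 := by rw [hB1]; exact bet_nonneg _ _ _
  have c2 : 0 ≤ B2 := by rw [hB2]; exact bet_nonneg _ _ _
  have d0 : B0 ≤ 1 := by rw [hB0]; exact bet_le_one (by linarith)
  have d1 : B1 ≤ 1 := by rw [hB1]; exact bet_le_one (by linarith)
  have d2 : B2 ≤ 1 := by rw [hB2]; exact bet_le_one (by linarith)
  have hs3 : B0 + B1 + B2 ≤ 17 / 10 := by
    rw [hB0, bet_comm _ (b 2), hB1, hB2]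
    exact k
  rw [← hB0, ← hB1, ← hB2]
  obtain ⟨W, hW⟩ : ∃ W : ι → ℕ → ℕ, W = fun e i => if i < 12 then w0 i else w1 e (i - 12) :=
    ⟨_, rfl⟩
  have hWb : ∀ e, ∀ v < 12, W e v ≤ Pl.getD v 0 ∧ W e (12 + v) ≤ Pl.getD v 0 + Dl.getD v 0 := by
    intro e v hv
    rw [hW]
    beta_reduce
    rw [if_pos hv, if_neg (by omega), show 12 + v - 12 = v by omega]
    exact ⟨hw0 v hv, hw1 e v hv⟩
  have key := face_num8 hX hf hs hx hy hz hsum c0 c1 c2 d0 d1 d2 hs3 (hWb κ0) (hWb κ1) (hWb κ2)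
  have eW : ∀ (L : ℕ → ℝ) (β : ℝ) (e : ι), ∑ i ∈ Finset.range 24, lam24 L β i *
      ((W e i : ℝ) / (4 * (U6 : ℝ) ^ 4)) =
      (1 - β) * ∑ v ∈ Finset.range 12, L v * ((w0 v : ℝ) / (4 * (U6 : ℝ) ^ 4)) +
      β * ∑ v ∈ Finset.range 12, L v * ((w1 e v : ℝ) / (4 * (U6 : ℝ) ^ 4)) := by
    intro L β e
    rw [sum24, Finset.mul_sum, Finset.mul_sum, ← Finset.sum_add_distrib]
    refine Finset.sum_congr rfl fun v hv => ?_
    have hv' := Finset.mem_range.1 hv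
    rw [hW]
    beta_reduce
    rw [if_pos hv', if_neg (by omega), show 12 + v - 12 = v by omega]
    ring
  rw [eW, eW, eW] at key
  exact key

/-- **the cost of the second order term of a placed body from the tables** -/
theorem face_two [IsFiniteMeasure σ] (h : CN K σ a c) (v : Viol K a S) (hz : CV a K z)
    (τ : Equiv.Perm (Fin 4)) (hl : Lok a l) {P : Par}
    {A c0 c1 : ℕ} {A' ρ cN s χ ω g0 g1 φl a0 a1 : ℝ}
    (hA : (A : ℝ) / U = A') (hP : POk P A' ρ cN s χ ω g0 g1 φl a0 a1) (hcN1 : 2 / 3 * cN ≤ 1 / 10)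
    (hMρ : ∀ p k, k ≠ p → MA σ a l τ p k ≤ ρ)
    {x : E3} (hx : x ∈ K) {N : Fin 3 → Fin 3 → ℝ}
    (hNd : N = NM (fun i => a (τ i)) (fun i j => z (τ i) (τ j)))
    {ζp : Fin 3 → ℝ} (hζp : ∀ k, 0 < ζp k)
    (hζ : ∀ k, zc (fun i => a (τ i)) N x k ≤ ζp k)
    {φ lam : ℝ} (hφ : 0 < φ) (hφl : φl ≤ φ) (hφu : φ ≤ a0 + a1 * SideP.TN N)
    (hF : ∀ p, ρ ≤ φ * (A' * Pool.Agent.Helper55.Mass.Id (flP (PN N) p)))
    (hl0 : 0 ≤ lam) (hl1 : lam ≤ 1 - φ)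
    (hcN : ∀ m, nc N m ≤ cN)
    (hcs : ∀ m, nc N m ^ 2 ≤ 2 * S (τ 0) * (1 + nc N m / 2) ^ 2)
    (hcS : ∀ m : Fin 3, nc N m ^ 2 ≤ 2 * S (τ m.succ) * (1 + nc N m / 2) ^ 2)
    (hS : ∀ i, S i ≤ s) (hs11 : S (τ 0) ≤ 11 / 1000)
    (hX : S (τ 0) + (S (τ 1) + S (τ 2) + S (τ 3)) ≤ (P.X : ℝ) / U6)
    {Sm d0 d1 : ℝ} (hC : IsC Sm d0 d1)
    (hSm : ∀ k, S k ≤ Sm) (hd : 0 ≤ d1) (hd3 : 3 * d1 * (1 + S (τ 0)) ≤ d0)
    (hd0 : (c0 : ℝ) / U ≤ d0) (hd1 : d1 ≤ (c1 : ℝ) / U)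
    {ι : Type} {T0 : Cor} {As0 : List Alt} {T1 : ι → Cor} {As1 : ι → List Alt} {lo hi : ι → ℕ}
    (hT0 : T0.ok A c0 c1 = true) (hT1 : ∀ e, (T1 e).ok A c0 c1 = true)
    (hR0 : tab12 P 0 As0 0 U6 T0 = true) (hR1 : ∀ e, tab12 P 1 (As1 e) (lo e) (hi e) (T1 e) = true)
    {hh : ℕ} (hh0 : T0.h = hh) (hh1 : ∀ e, (T1 e).h = hh)
    {u0 u1 u2 : ℕ} (hf : NumF P.X lo hi T0.w (fun e => (T1 e).w) u0 u1 u2)
    {G : ℝ × ℝ → ℝ} {omT : ℝ × ℝ → ℝ} {CT cT : ℝ}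
    (hTm : AEStronglyMeasurable omT (volume.restrict Helper33.MEI.Dl))
    (hTn : ∀ t ∈ Helper33.MEI.Dl, 0 ≤ omT t) (hTb : ∀ t ∈ Helper33.MEI.Dl, omT t ≤ CT)
    (hTt : ∀ k, ∀ t ∈ Helper33.MEI.Dl, T3 t (jj k) ≤ (hh : ℝ) / U → T3 t (ll k) ≤ (hh : ℝ) / U →
      T3 t (jj k) ≤ T3 t k → T3 t (ll k) ≤ T3 t k → ∀ q ∈ K,
      Yt (fun i => a (τ i)) t q / √(mt t) - ‖a (τ 0) - q‖ ^ 2 ≤ own (S (τ 0)) t →
      G t + (1 - DM A' N (zc (fun i => a (τ i)) N x) ζp lam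
        (fun p t => φ * flP (PN N) p t)
        (fun p t => kap N (vv t) p) (fun _ => 0) (MB σ a l τ)
        (fun j => 1 / qM (fun i => a (τ i)) (fun i j => z (τ i) (τ j)) j)
        (fun p => Pool.Agent.Helper31.SR.am σ a l (τ 0) (τ p.succ)) t) * ‖a (τ 0) - q‖ ^ 2 ≤
          Yt (fun i => a (τ i)) t q →
      A' * (G t / √(mt t)) - omT t ≤
        ff A' (Yt (fun i => a (τ i)) t q / √(mt t) - ‖a (τ 0) - q‖ ^ 2)
          (‖a (τ 0) - q‖ ^ 2))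
    (hcT : (√2)⁻¹ * ∫ t in Helper33.MEI.Dl, omT t * M3 t ≤ cT) :
    WCost a K τ A' G
      (DM A' N (zc (fun i => a (τ i)) N x) ζp lam
        (fun p t => φ * flP (PN N) p t)
        (fun p t => kap N (vv t) p) (fun _ => 0) (MB σ a l τ)
        (fun j => 1 / qM (fun i => a (τ i)) (fun i j => z (τ i) (τ j)) j)
        (fun p => Pool.Agent.Helper31.SR.am σ a l (τ 0) (τ p.succ)))
      ((u0 : ℝ) / 1000000000 + (u1 : ℝ) / 1000000000 * S (τ 0)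
        + (u2 : ℝ) / 1000000000 * (S (τ 1) + S (τ 2) + S (τ 3)) + cT) := by
  subst hA
  have hU := U6_pos
  have h' := h.perm τ
  have v' := viol_perm v τ
  have hgr := gram_of_dist h'.ha
  have hXp : (0 : ℝ) < (P.X : ℝ) / U6 := _root_.div_pos (Nat.cast_pos.2 hP.Xp) hU
  -- the numbers of the apex
  obtain ⟨Z, hZ⟩ : ∃ Z, Z = Zd (2 / 3 * cN) (-bar (fun i => a (τ i)) 0 x)
    (b3 (fun i => a (τ i)) x) := ⟨_, rfl⟩
  obtain ⟨β, hβ⟩ : ∃ β : Fin 3 → ℝ, β = fun k =>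
    bet Z (b3 (fun i => a (τ i)) x (jj k)) (b3 (fun i => a (τ i)) x (ll k)) := ⟨_, rfl⟩
  have hβk : ∀ k, β k = bet Z (b3 (fun i => a (τ i)) x (jj k))
      (b3 (fun i => a (τ i)) x (ll k)) := fun k => by rw [hβ]
  have β0 : ∀ k, 0 ≤ β k := fun k => by
    rw [hβk]
    exact bet_nonneg _ _ _
  have β1 : ∀ k, β k ≤ 1 := fun k => by
    rw [hβk]
    refine bet_le_one ?_
    rw [hZ]
    exact Zd_body hgr (h'.hp x hx) (by linarith) (jl_ne k).2.2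
  have hb1 := bar0_pair hgr (h'.hp x hx) (k := 1) (by decide)
  have hb2 := bar0_pair hgr (h'.hp x hx) (k := 2) (by decide)
  have hb3 := bar0_pair hgr (h'.hp x hx) (k := 3) (by decide)
  have e0 : b3 (fun i => a (τ i)) x 0 = bar (fun i => a (τ i)) 1 x := rfl
  have e1 : b3 (fun i => a (τ i)) x 1 = bar (fun i => a (τ i)) 2 x := rfl
  have e2 : b3 (fun i => a (τ i)) x 2 = bar (fun i => a (τ i)) 3 x := rfl
  have hs := b3_sum hgr x
  have hs' : b3 (fun i => a (τ i)) x 0 + b3 (fun i => a (τ i)) x 1 + b3 (fun i => a (τ i)) x 2 =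
      1 - bar (fun i => a (τ i)) 0 x := hs
  have cx := Pool.Agent.Helper73.MEI.ZEl.coords (a := fun i => a (τ i)) h'.ha (h'.hp x hx)
    (S := fun k => S (τ k.succ)) (v'.le 1 x hx) (v'.le 2 x hx) (v'.le 3 x hx)
  rw [← e0, ← e1, ← e2] at cx
  have hq : Qv (fun i => a (τ i)) 0 x ≤ S (τ 0) := v'.le 0 x hx
  -- the classes and the numbers
  obtain ⟨e, hk0, hk1, hk2, hnum⟩ := hf (S (τ 0)) (S (τ 1)) (S (τ 2)) (S (τ 3))
    (-bar (fun i => a (τ i)) 0 x) (2 / 3 * cN) (b3 (fun i => a (τ i)) x) (v.nn _) (v.nn _)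
    (v.nn _) (v.nn _) (by linarith) hs11 (by rw [hs']; ring) (by rw [e0, e1]; linarith)
    (by rw [e0, e2]; linarith) (by rw [e1, e2]; linarith) (by have := hP.cN0; positivity) hcN1
    (by nlinarith [cx.1])
  have he : ∀ k, (lo (e k) : ℝ) / U6 ≤ prt (b3 (fun i => a (τ i)) x (jj k))
      (b3 (fun i => a (τ i)) x (ll k)) ∧ prt (b3 (fun i => a (τ i)) x (jj k))
      (b3 (fun i => a (τ i)) x (ll k)) ≤ (hi (e k) : ℝ) / U6 := by
    intro k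
    fin_cases k
    exacts [hk0, hk1, hk2]
  have hXk : ∀ k : Fin 3, S (τ 0) + S (τ k.succ) + S (τ (jj k).succ) + S (τ (ll k).succ) ≤
      (P.X : ℝ) / U6 := by
    intro k
    refine le_trans (le_of_eq ?_) hX
    fin_cases k
    · show S (τ 0) + S (τ 1) + S (τ 3) + S (τ 2) = _
      ring
    · show S (τ 0) + S (τ 2) + S (τ 1) + S (τ 3) = _
      ring
    · show S (τ 0) + S (τ 3) + S (τ 1) + S (τ 2) = _
      ring
  obtain ⟨L, hL⟩ : ∃ L : Fin 3 → ℕ → ℝ, L = fun k => lam12 ((P.X : ℝ) / U6) (S (τ 0))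
    (S (τ k.succ)) (S (τ (jj k).succ)) (S (τ (ll k).succ)) := ⟨_, rfl⟩
  have hLk : ∀ k, L k = lam12 ((P.X : ℝ) / U6) (S (τ 0))
    (S (τ k.succ)) (S (τ (jj k).succ)) (S (τ (ll k).succ)) := fun k => by rw [hL]
  have hL0 : ∀ k i, 0 ≤ L k i := fun k i => by
    rw [hLk]
    exact lam12_nonneg hXp (v.nn _) (v.nn _) (v.nn _) (v.nn _) (hXk k) i
  have htri : ∀ t ∈ Helper33.MEI.Dl, ∀ k, 0 ≤ T3 t (jj k) ∧ 0 ≤ T3 t (ll k) ∧
      T3 t (jj k) + T3 t (ll k) ≤ 1 := by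
    intro t ht k
    have p := fun k => T3_pos' ht k
    have := T3_sum k t
    exact ⟨(p _).le, (p _).le, by linarith [p k]⟩
  refine (wcost_two h v τ hC hSm hd hd3 hd0 hd1 (G := G) (Q0 := fun _ => T0)
    (Q1 := fun k => T1 (e k)) (fun _ => hT0) (fun k => hT1 _) (fun _ => (tab12_iff hR0).2.2.2.2.1)
    (fun k => (tab12_iff (hR1 (e k))).2.2.2.2.1) (hh := hh) (fun _ => hh0) (fun k => hh1 _)
    (lam := L) hL0
    (fun k => by
      rw [hLk]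
      exact tab12_S hR0 hP.Xp (v.nn _) (v.nn _) (v.nn _) (v.nn _) (hXk k))
    (fun k => by
      rw [hLk]
      exact tab12_S (hR1 (e k)) hP.Xp (v.nn _) (v.nn _) (v.nn _) (v.nn _) (hXk k))
    β0 β1
    (D0 := fun k t => Df (2 / 3) φ (2 * ω + 2 / 3 * cN) N k (jj k) (ll k) t)
    (D1 := fun k t => Df (2 / 3) φ (2 * ω + 2 / 3 * cN) N k (jj k) (ll k) t + lam / 2 *
      (alP N ζp t * (pp (b3 (fun i => a (τ i)) x (jj k)) + pp (b3 (fun i => a (τ i)) x (ll k)))))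
    (fun k t ht _ _ => ?_) (fun k t ht => ?_) (fun k t ht => ?_) hTm hTn hTb hTt hcT).mono ?_
  · exact DM_two h v hz τ hl hP hMρ hx hNd hζp hζ hφ hF hl0 hl1 hcN hS (jl_ne k).1 (jl_ne k).2.1
      (jl_ne k).2.2 (by rw [hβk, hZ]) ht rfl
  · intro li hli
    obtain ⟨-, -, hok, hnl, -⟩ := tab12_iff hR0
    obtain ⟨t1, t2, t3⟩ := htri t ht k
    have hth : (As0.getD li zA).th ≤ U6 := by
      have := hok li (by omega)
      unfold Alt.ok at this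
      simp only [Bool.and_eq_true, Nat.ble_eq] at this
      exact this.1.1
    rw [hLk]
    refine le_trans (form_rows h v hz τ hP hNd hφl hφu hl1 hcN hcs hcS (jl_ne k).1
      (jl_ne k).2.1 (jl_ne k).2.2 (hXk k) hth (AB := 0) ht le_rfl (by positivity)).1 ?_
    have hLp := hL0 k
    rw [hLk] at hLp
    have q := tab12_D hR0 hLp t1 t2 t3 hli
    rw [Nat.cast_zero] at q
    exact q
  · intro li hli
    obtain ⟨-, -, hok, hnl, -, hlh, hhU⟩ := tab12_iff (hR1 (e k))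
    obtain ⟨t1, t2, t3⟩ := htri t ht k
    have hoki := hok li (by omega)
    have hth : ((As1 (e k)).getD li zA).th ≤ U6 := by
      have := hoki
      unfold Alt.ok at this
      simp only [Bool.and_eq_true, Nat.ble_eq] at this
      exact this.1.1
    obtain ⟨c1, -, c3, c4⟩ := AB_body h v hz τ hNd rfl hζp hζ (Dl_Sim ht) (x := x) (jj k) (ll k)
    rw [vv_T3] at c3 c4
    have hAB := Alt.ok_le hoki hlh hhU (he k).1 (he k).2 c1 c3 c4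
    rw [hLk]
    refine le_trans (form_rows h v hz τ hP hNd hφl hφu hl1 hcN hcs hcS (jl_ne k).1
      (jl_ne k).2.1 (jl_ne k).2.2 (hXk k) hth ht c1 hAB).2 ?_
    have hLp := hL0 k
    rw [hLk] at hLp
    have q := tab12_D (hR1 (e k)) hLp t1 t2 t3 hli
    rw [Nat.cast_one] at q
    exact q
  · -- the numbers
    refine add_le_add ?_ le_rfl
    have hlen0 := (tab12_iff hR0).1
    have hlen1 := fun k => (tab12_iff (hR1 (e k))).1
    have eW0 : ∀ L : ℕ → ℝ, T0.W L =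
        ∑ v ∈ Finset.range 12, L v * ((T0.w v : ℝ) / (4 * (U6 : ℝ) ^ 4)) := by
      intro L
      unfold Helper60.R8.Cor.W
      rw [hlen0]
      rfl
    have eW1 : ∀ (L : ℕ → ℝ) (k : Fin 3), (T1 (e k)).W L =
        ∑ v ∈ Finset.range 12, L v * (((T1 (e k)).w v : ℝ) / (4 * (U6 : ℝ) ^ 4)) := by
      intro L k
      unfold Helper60.R8.Cor.W
      rw [hlen1 k]
      rfl
    have f0 : L 0 = lam12 ((P.X : ℝ) / U6) (S (τ 0)) (S (τ 1)) (S (τ 3)) (S (τ 2)) := by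
      rw [hLk]
      rfl
    have f1 : L 1 = lam12 ((P.X : ℝ) / U6) (S (τ 0)) (S (τ 2)) (S (τ 1)) (S (τ 3)) := by
      rw [hLk]
      rfl
    have f2 : L 2 = lam12 ((P.X : ℝ) / U6) (S (τ 0)) (S (τ 3)) (S (τ 1)) (S (τ 2)) := by
      rw [hLk]
      rfl
    have g0 : β 0 = bet (Zd (2 / 3 * cN) (-bar (fun i => a (τ i)) 0 x) (b3 (fun i => a (τ i)) x))
        (b3 (fun i => a (τ i)) x 2) (b3 (fun i => a (τ i)) x 1) := by
      rw [hβk, hZ]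
      rfl
    have g1 : β 1 = bet (Zd (2 / 3 * cN) (-bar (fun i => a (τ i)) 0 x) (b3 (fun i => a (τ i)) x))
        (b3 (fun i => a (τ i)) x 0) (b3 (fun i => a (τ i)) x 2) := by
      rw [hβk, hZ]
      rfl
    have g2 : β 2 = bet (Zd (2 / 3 * cN) (-bar (fun i => a (τ i)) 0 x) (b3 (fun i => a (τ i)) x))
        (b3 (fun i => a (τ i)) x 0) (b3 (fun i => a (τ i)) x 1) := by
      rw [hβk, hZ]
      rfl
    rw [eW0, eW0, eW0, eW1, eW1, eW1, f0, f1, f2, g0, g1, g2]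
    exact hnum

/-! ### The form of helper73 -/

/-- **`WOKG` from the tables** -/
theorem wokg_tab {X' rm qm nb ρ1 Rb gg ε k1 k12 t2 δ : ℝ}
    (R1 : Pool.Agent.Helper73.MEI.ArCor.Rng X' rm qm nb ρ1 Rb gg ε k1 k12 t2 δ) {P : Par} {Pr : (Fin 4 → ℝ) → Prop}
    {A c0 c1 : ℕ} {X ρ χ ω g0 g1 a0 a1 Tm : ℝ} (hA : (A : ℝ) / U = 2.04)
    (hP : POk P 2.04 ρ nb X' χ ω g0 g1 (22.6276 * ρ * (35 / 48) ^ 2 / 2.04) a0 a1)
    (hnb : 2 / 3 * nb ≤ 1 / 10) (hTm : 3 * nb ≤ Tm) (hTm2 : Tm < 2)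
    (hφ : ∀ T, 0 ≤ T → T ≤ Tm → 22.6276 * ρ * (35 / 48 + 9 / 16 * T + 5 / 12 * T ^ 2) ^ 2 ≤
      (a0 + a1 * T) * (2.04 * (1 - T ^ 2 / 4)))
    (hPr : ∀ (K : Set E3) (σ : Measure (E3 × E3)), IsFiniteMeasure σ →
      ∀ a c : Fin 4 → E3, CN K σ a c → EpsLe c X → ∀ S : Fin 4 → ℝ, Viol K a S → Pr S →
      ∑ i, S i ≤ X')
    (hM : ∀ (K : Set E3) (σ : Measure (E3 × E3)), IsFiniteMeasure σ →
      ∀ a c : Fin 4 → E3, CN K σ a c → EpsLe c X → ∀ S : Fin 4 → ℝ, Viol K a S → Pr S →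
      ∀ (τ : Equiv.Perm (Fin 4)) (p k : Fin 3), k ≠ p → MA σ a (l2 a) τ p k ≤ ρ)
    (hX : X' ≤ (P.X : ℝ) / U6) (hX11 : X' ≤ 11 / 1000)
    {Sm d0 d1 : ℝ} (hC : IsC Sm d0 d1) (hSm : X' ≤ Sm) (hd : 0 ≤ d1)
    (hd3 : 3 * d1 * (1 + X') ≤ d0) (hd0 : (c0 : ℝ) / U ≤ d0) (hd1 : d1 ≤ (c1 : ℝ) / U)
    {ι : Type} {T0 : Cor} {As0 : List Alt} {T1 : ι → Cor} {As1 : ι → List Alt} {lo hi : ι → ℕ}
    (hT0 : T0.ok A c0 c1 = true) (hT1 : ∀ e, (T1 e).ok A c0 c1 = true)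
    (hR0 : tab12 P 0 As0 0 U6 T0 = true) (hR1 : ∀ e, tab12 P 1 (As1 e) (lo e) (hi e) (T1 e) = true)
    (hh0 : T0.h = 0) (hh1 : ∀ e, (T1 e).h = 0)
    {u0 u1 u2 : ℕ} (hf : NumF P.X lo hi T0.w (fun e => (T1 e).w) u0 u1 u2) :
    Pool.Agent.Helper73.MEI.ArCor.WOKG ρ ((u0 : ℝ) / 1000000000) ((u1 : ℝ) / 1000000000)
      ((u2 : ℝ) / 1000000000) 0 0 0 X Pr := by
  intro K σ hσ a c h hXX S v hPS z hz τ x hx hxs N hN R hR ζp z1 z2 lam q1 q2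
  have h' := h.perm τ
  have v' := viol_perm v τ
  have hz' := hz.perm τ
  have hsum : ∑ k, S k = S (τ 0) + S (τ 1) + S (τ 2) + S (τ 3) := by
    rw [← Equiv.sum_comp τ S, Fin.sum_univ_four]
  have t1 := hPr K σ hσ a c h hXX S v hPS
  have hXs : S (τ 0) + (S (τ 1) + S (τ 2) + S (τ 3)) ≤ X' := by
    rw [hsum] at t1
    linarith
  have n0 := v.nn (τ 0)
  have n1 := v.nn (τ 1)
  have n2 := v.nn (τ 2)
  have n3 := v.nn (τ 3)
  have hSi : ∀ i, S i ≤ X' := by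
    intro i
    have : S i ≤ ∑ k, S k := Finset.single_le_sum (fun k _ => v.nn k) (Finset.mem_univ i)
    linarith
  have hN0 : ∀ k m, 0 ≤ N k m := fun k m => by
    rw [hN]
    exact NM_nonneg h' v' hz' k m
  have hd' : ∀ k, N k k = 0 := fun k => by
    rw [hN]
    exact NM_diag k
  have hcol : ∀ m, nc N m ≤ 9 / 10 := fun m => by
    rw [hN]
    exact nc_le h' v' hz' m
  have C := Pool.Agent.Helper73.MEI.ArCor.cols R1 h' v' hz' hXs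
  rw [← hN] at C
  have hd1' : (0 : ℝ) ≤ 3 * d1 := by linarith
  obtain ⟨p1, p2, p3, p4⟩ := phiN_data hN0 hd' (by norm_num : (9 / 10 : ℝ) < 1) hcol
    (A' := 2.04) (by norm_num) hP.ρ0 (fun m => (C m).2.1) hTm hTm2 hφ
  have key := face_two h v hz τ (Helper41.MEI.l2_ok h.ha) hA hP hnb
    (hM K σ hσ a c h hXX S v hPS τ) hx hN z1 z2
    (φ := phiN 2.04 ρ (SideP.TN N) (SideP.QN N)) (lam := lam) p1 p2 p3 p4 q1 q2
    (fun m => (C m).2.1) (fun m => (C m).2.2.2.2.2.2.1) (fun m => (C m).2.2.2.2.2.2.2.1) hSi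
    (by linarith) (by linarith) hC (fun k => (hSi k).trans hSm) hd
    (by
      have := mul_le_mul_of_nonneg_left (show 1 + S (τ 0) ≤ 1 + X' by linarith) hd1'
      linarith)
    hd0 hd1 hT0 hT1 hR0 hR1 hh0 hh1 hf
    (G := GM 2.04 N (zc (fun i => a (τ i)) N x) ζp lam
      (fun p t => phiN 2.04 ρ (SideP.TN N) (SideP.QN N) * flP (PN N) p t)
      (fun p t => kap N (vv t) p) (fun _ => 0) (MB σ a (l2 a) τ)
      (fun p => aE σ a (l2 a) (τ 0) (τ p.succ)) R (fun k => S (τ k.succ)) (S (τ 0)))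
    (omT := fun _ => 0) (CT := 0) (cT := 0) aestronglyMeasurable_const (fun _ _ => le_rfl)
    (fun _ _ => le_rfl)
    (fun k t ht e1 => by
      exfalso
      have := T3_pos' ht (jj k)
      rw [Nat.cast_zero, zero_div] at e1
      linarith)
    (by simp)
  refine WCost.mono key ?_
  have eT : Pool.Agent.Helper73.MEI.ArCor.lkC N 0 0 0 (fun k => S (τ k.succ)) (S (τ 0)) = 0 := by
    unfold Pool.Agent.Helper73.MEI.ArCor.lkC
    ring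
  rw [eT]

end Helper78.MEI
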