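import Pool.Agent.Helper78.MEI.FGM
import Pool.Agent.Helper93.MEI.Wr2

/-!
# Project MEI (M2): from the range of `w` to `WCost`, the value `G` eliminated

`HB T e y`: `y` bounds `T x + e x (1 - x)` on `[0, 1]`. With `w ≤ W` and the strip bound of the
negative part the loss `A' g - ff` is at most `y W`: no hypothesis on `G`.
-/

namespace Helper78.MEI

open Set Metric MeasureTheory Helper80.CW Helper82.CW Helper14.CW Helper93.MEI Helper82.M2
open Helper14.MEI2 Pool.Agent.Helper52.MEI Pool.Agent.Helper73.MEI Pool.Agent.Helper31.SR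
open Helper33.MEI (Wi Dl tx M3 mt mt_pos)
open scoped RealInnerProductSpace ENNReal

/-- `y` bounds `T x + e x (1 - x)` on the unit interval -/
def HB (T e y : ℝ) : Prop := ∀ x : ℝ, 0 ≤ x → x ≤ 1 → T * x + e * (x * (1 - x)) ≤ y

theorem HB.mono {T e y T' e' y' : ℝ} (h : HB T' e' y') (hT : T ≤ T') (he : e ≤ e')
    (hy : y' ≤ y) : HB T e y := by
  intro x h0 h1
  have k := h x h0 h1
  have k1 := mul_le_mul_of_nonneg_right hT h0
  have k2 := mul_le_mul_of_nonneg_right he (mul_nonneg h0 (sub_nonneg.2 h1))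
  linarith

theorem HB.nonneg {T e y : ℝ} (h : HB T e y) : 0 ≤ y := by
  have := h 0 le_rfl zero_le_one
  linarith

theorem HB.ge {T e y : ℝ} (h : HB T e y) : T ≤ y := by
  have := h 1 zero_le_one le_rfl
  linarith

theorem HB_top {T e : ℝ} (h : e ≤ T) (hT : 0 ≤ T) : HB T e T := by
  intro x h0 h1
  have h2 := sub_nonneg.2 h1
  have k := mul_le_mul_of_nonneg_right h (mul_nonneg h0 h2)
  have k2 : 0 ≤ T * ((1 - x) * (1 - x)) := mul_nonneg hT (mul_self_nonneg _)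
  nlinarith

theorem HB_pp {T e : ℝ} (he : 0 ≤ e) : HB T e (pp T + e / 4) := by
  intro x h0 h1
  have k1 := mul_le_mul_of_nonneg_right (le_pp T) h0
  have k2 := mul_le_mul_of_nonneg_left h1 (pp_nonneg T)
  have k3 : 0 ≤ e * ((2 * x - 1) * (2 * x - 1)) := mul_nonneg he (mul_self_nonneg _)
  nlinarith

theorem HB_neg {T e : ℝ} (h : T ≤ -e) (he : 0 ≤ e) : HB T e 0 := by
  intro x h0 h1
  have k1 := mul_le_mul_of_nonneg_right h h0
  have k2 : 0 ≤ e * (x * x) := mul_nonneg he (mul_self_nonneg _)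
  nlinarith

/-- the parabola: `(T + e)² ≤ 4 e y` -/
theorem HB_sq {T e y : ℝ} (he : 0 < e) (h : (T + e) ^ 2 ≤ 4 * e * y) : HB T e y := by
  intro x h0 h1
  have k : 0 ≤ (2 * e * x - (T + e)) ^ 2 := sq_nonneg _
  have k2 : 4 * e * (T * x + e * (x * (1 - x))) ≤ 4 * e * y := by nlinarith
  exact le_of_mul_le_mul_left k2 (by linarith)

/-- crude form: `T + e ≤ y`, `0 ≤ y` -/
theorem HB_add {T e y : ℝ} (he : 0 ≤ e) (h : T + e ≤ y) (hy : 0 ≤ y) : HB T e y := by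
  intro x h0 h1
  have k1 := mul_le_mul_of_nonneg_right h h0
  have k2 := mul_le_mul_of_nonneg_left h1 hy
  have k3 : 0 ≤ e * (x * x) := mul_nonneg he (mul_self_nonneg _)
  nlinarith

/-- **the loss without the value**: `w = x W` -/
theorem ff_noG {A g c C w W X x y : ℝ} (hA : 0 ≤ A) (hx0 : 0 ≤ x) (hx1 : x ≤ 1)
    (hw : w = x * W) (hW0 : 0 ≤ W) (hW : W < 2) (hX1 : g - c * w ≤ X) {θ : ℝ}
    (hX2 : -(C * θ) ≤ X)
    (hy : (A * c + 0.127 / (1 - W / 2)) * x + A * C / (2 * (1 - W / 2)) * (x * θ) ≤ y)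
    (hy2 : (A * c + 0.127 / (1 - W / 2)) * x ≤ y) :
    A * g - y * W ≤ ff A X w := by
  have hwW : w ≤ W := by
    rw [hw]
    have := mul_le_mul_of_nonneg_right hx1 hW0
    linarith
  have hw0 : 0 ≤ w := by
    rw [hw]
    exact mul_nonneg hx0 hW0
  have d : 0 < 1 - w / 2 := by linarith
  have dW : 0 < 1 - W / 2 := by linarith
  obtain ⟨i, hi⟩ : ∃ i, i = (1 - W / 2)⁻¹ := ⟨_, rfl⟩
  obtain ⟨j, hj⟩ : ∃ j, j = (1 - w / 2)⁻¹ := ⟨_, rfl⟩
  have hi0 : 0 < i := by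
    rw [hi]
    exact inv_pos.2 dW
  have hj0 : 0 < j := by
    rw [hj]
    exact inv_pos.2 d
  have hji : j ≤ i := by
    rw [hi, hj]
    exact inv_anti₀ dW (by linarith)
  have ej : (1 - w / 2) * j = 1 := by
    rw [hj]
    exact mul_inv_cancel₀ d.ne'
  have e1 : 0.127 / (1 - W / 2) = 0.127 * i := by rw [hi, div_eq_mul_inv]
  have e2 : A * C / (2 * (1 - W / 2)) = A * C / 2 * i := by
    rw [hi, div_mul_eq_div_div, div_eq_mul_inv (A * C / 2)]
  rw [e1, e2] at hy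
  rw [e1] at hy2
  have q1 := mul_le_mul_of_nonneg_left hX1 hA
  have q2 := mul_le_mul_of_nonneg_left hji (show 0 ≤ 0.127 * w by positivity)
  have y1 := mul_le_mul_of_nonneg_right hy hW0
  have y2 := mul_le_mul_of_nonneg_right hy2 hW0
  have b1 : A * g - y * W ≤ A * X - 0.127 * w / (1 - w / 2) := by
    have e3 : 0.127 * w / (1 - w / 2) = 0.127 * w * j := by rw [hj, div_eq_mul_inv]
    rw [e3]
    rw [hw] at q1 q2 ⊢
    nlinarith
  unfold ff
  refine le_min b1 ?_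
  have e4 : (A * X - 0.127 * w) / (1 - w / 2) =
      (A * X - 0.127 * w * j) + A * X * (w / 2 * j) := by
    rw [div_eq_mul_inv, ← hj]
    linear_combination (A * X) * ej
  rw [e4]
  have b2 : A * g - y * W ≤ (A * X - 0.127 * w * j) + A * X * (w / 2 * j) := by
    have hwj : 0 ≤ w / 2 * j := by positivity
    rcases le_total 0 X with hX | hX
    · have := mul_nonneg (mul_nonneg hA hX) hwj
      have e3 : 0.127 * w / (1 - w / 2) = 0.127 * w * j := by rw [hj, div_eq_mul_inv]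
      rw [e3] at b1
      linarith
    · have h1 : w / 2 * j ≤ w / 2 * i := mul_le_mul_of_nonneg_left hji (by linarith)
      have h2 : A * X * (w / 2 * i) ≤ A * X * (w / 2 * j) := by
        have := mul_le_mul_of_nonneg_left h1 (mul_nonneg hA (neg_nonneg.2 hX))
        linarith
      have h3 : A * (-(C * θ)) * (w / 2 * i) ≤ A * X * (w / 2 * i) := by
        refine mul_le_mul_of_nonneg_right (mul_le_mul_of_nonneg_left hX2 hA) ?_
        positivity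
      rw [hw] at q1 q2 h2 h3 ⊢
      nlinarith
  exact b2

/-- **the range of a direction**: `W` bounds `w`, the loss is at most `y W` -/
theorem loss_R6 {a : Fin 4 → E3} (h : Gram4 (al a)) {A Sm c0 c1 s : ℝ} (hA : 0 ≤ A)
    (hC : IsC Sm c0 c1) (hc0 : 0 ≤ c0) (hc1 : 0 ≤ c1) {q : E3} {t : ℝ × ℝ} (ht : t ∈ Dl)
    (hq : Pl a q) (hw : ‖a 0 - q‖ ^ 2 ≤ 19 / 16) {V : Fin 3 → ℝ} (hV0 : ∀ k, 0 ≤ V k)
    (hV : ∀ k, V k ≤ Sm) {μ : ℝ} (hμ : 0 < μ) (hM : ∀ k, μ ≤ T3 t k)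
    (h1 : Qv a 1 q ≤ V 0) (h2 : Qv a 2 q ≤ V 1) (h3 : Qv a 3 q ≤ V 2)
    {G D W y : ℝ} (hs : 0 ≤ s)
    (hX : Yt a t q / √(mt t) - ‖a 0 - q‖ ^ 2 ≤ s)
    (hG : G + (1 - D) * ‖a 0 - q‖ ^ 2 ≤ Yt a t q)
    (hW0 : 0 < W) (hW2 : W < 2) (hcW : c1 * (19 / 16 + 1.0898 * √W + W) < c0)
    (ends : √(mt t) * s + (T3 t 0 * V 0 + T3 t 1 * V 1 + T3 t 2 * V 2) ≤
      (1 - √(mt t)) * W + 2 * μ * ((c0 - c1 * W) * √W))
    (hy : HB (A * (1 - (1 - D) / √(mt t)) + 0.127 / (1 - W / 2))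
      (A * ((T3 t 0 * V 0 + T3 t 1 * V 1 + T3 t 2 * V 2) / √(mt t)) / (2 * (1 - W / 2))) y) :
    A * (G / √(mt t)) - y * W ≤
      ff A (Yt a t q / √(mt t) - ‖a 0 - q‖ ^ 2) (‖a 0 - q‖ ^ 2) := by
  have hm : 0 < √(mt t) := Real.sqrt_pos.2 mt_pos
  have hm1 : √(mt t) ≤ 1 := by
    apply Real.sqrt_le_iff.2
    refine ⟨zero_le_one, ?_⟩
    obtain ⟨t1, t2, t3⟩ := ht
    have q1 := mul_pos t1 t2
    have q2 := mul_pos t1 (show 0 < 1 - t.1 - t.2 by linarith)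
    have q3 := mul_pos t2 (show 0 < 1 - t.1 - t.2 by linarith)
    unfold Helper33.MEI.mt
    linarith
  have hr := range_cw h hC hq hw hV0 hV hμ.le hM h1 h2 h3 hX
  have hwW := le_W (sub_nonneg.2 hm1) hμ hc1 (sq_nonneg _) hw hW0.le hcW hr ends
  have x2 := Xst_le h hC hq hw hV0 hV hμ.le hM h1 h2 h3
  have x1 : G / √(mt t) - (1 - (1 - D) / √(mt t)) * ‖a 0 - q‖ ^ 2 ≤
      Yt a t q / √(mt t) - ‖a 0 - q‖ ^ 2 := by
    have e : G / √(mt t) - (1 - (1 - D) / √(mt t)) * ‖a 0 - q‖ ^ 2 =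
        (G + (1 - D) * ‖a 0 - q‖ ^ 2) / √(mt t) - ‖a 0 - q‖ ^ 2 := by
      rw [add_div]
      ring
    rw [e]
    have := div_le_div_of_nonneg_right hG hm.le
    linarith
  have hT3 : ∀ k, 0 ≤ T3 t k := fun k => hμ.le.trans (hM k)
  have hCn : 0 ≤ T3 t 0 * V 0 + T3 t 1 * V 1 + T3 t 2 * V 2 := by
    have p0 := mul_nonneg (hT3 0) (hV0 0)
    have p1 := mul_nonneg (hT3 1) (hV0 1)
    have p2 := mul_nonneg (hT3 2) (hV0 2)
    linarith
  obtain ⟨w, hwd⟩ : ∃ w, w = ‖a 0 - q‖ ^ 2 := ⟨_, rfl⟩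
  have hw0 : 0 ≤ w := by
    rw [hwd]
    exact sq_nonneg _
  rw [← hwd] at hwW x2 x1 ⊢
  obtain ⟨x, hx⟩ : ∃ x, x = w / W := ⟨_, rfl⟩
  have hxw : w = x * W := by
    rw [hx]
    field_simp
  have hx0 : 0 ≤ x := by
    rw [hx]
    positivity
  have hx1 : x ≤ 1 := by
    rw [hx, div_le_one hW0]
    exact hwW
  -- the strip bound along the chord from `0` to `W`
  have hst : -((T3 t 0 * V 0 + T3 t 1 * V 1 + T3 t 2 * V 2) / √(mt t) * (1 - x)) ≤
      Yt a t q / √(mt t) - w := by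
    have k := cw_chord (c0 := c0) (c1 := c1) le_rfl hw0 hwW hc0 hc1
    rw [Real.sqrt_zero, mul_zero, mul_zero, sub_zero, sub_zero, zero_add] at k
    refine le_trans ?_ x2
    unfold Xst
    rw [le_div_iff₀ hm]
    have e1 : -((T3 t 0 * V 0 + T3 t 1 * V 1 + T3 t 2 * V 2) / √(mt t) * (1 - x)) * √(mt t) =
        -(T3 t 0 * V 0 + T3 t 1 * V 1 + T3 t 2 * V 2) * (1 - x) := by
      field_simp
    rw [e1]
    have k2 : 2 * μ * (x * ((c0 - c1 * W) * √W)) ≤ 2 * μ * ((c0 - c1 * w) * √w) := by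
      have k3 : x * ((c0 - c1 * W) * √W) ≤ (c0 - c1 * w) * √w := by
        have k4 : W * (x * ((c0 - c1 * W) * √W)) ≤ W * ((c0 - c1 * w) * √w) := by
          calc W * (x * ((c0 - c1 * W) * √W)) = w * ((c0 - c1 * W) * √W) := by
                rw [hxw]
                ring
            _ ≤ W * ((c0 - c1 * w) * √w) := k
        exact le_of_mul_le_mul_left k4 hW0
      exact mul_le_mul_of_nonneg_left k3 (by linarith)
    have k5 := mul_le_mul_of_nonneg_left ends hx0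
    have k6 : 0 ≤ x * (√(mt t) * s) := by positivity
    rw [hxw] at k2 ⊢
    linarith
  have hyx := hy x hx0 hx1
  refine ff_noG (θ := 1 - x) hA hx0 hx1 hxw hW0.le hW2 x1 hst hyx ?_
  have he : 0 ≤ A * ((T3 t 0 * V 0 + T3 t 1 * V 1 + T3 t 2 * V 2) / √(mt t)) /
      (2 * (1 - W / 2)) * (x * (1 - x)) := by
    have d : 0 < 1 - W / 2 := by linarith
    have hx' := sub_nonneg.2 hx1
    positivity
  linarith

/-- the same at the tips: `w ≤ W` known, crude bound of the negative part -/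
theorem loss_tip {a : Fin 4 → E3} (h : Gram4 (al a)) {A : ℝ} (hA : 0 ≤ A)
    {q : E3} {t : ℝ × ℝ} (ht : t ∈ Dl)
    (hq : Pl a q) {V : Fin 3 → ℝ} (hV0 : ∀ k, 0 ≤ V k)
    (h1 : Qv a 1 q ≤ V 0) (h2 : Qv a 2 q ≤ V 1) (h3 : Qv a 3 q ≤ V 2)
    {G D W y : ℝ}
    (hG : G + (1 - D) * ‖a 0 - q‖ ^ 2 ≤ Yt a t q)
    (hwW : ‖a 0 - q‖ ^ 2 ≤ W) (hW0 : 0 < W) (hW2 : W < 2)
    (hy : A * (1 - (1 - D) / √(mt t)) + 0.127 / (1 - W / 2) +
      A * ((T3 t 0 * V 0 + T3 t 1 * V 1 + T3 t 2 * V 2) / √(mt t)) / (2 * (1 - W / 2)) ≤ y)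
    (hy0 : 0 ≤ y) :
    A * (G / √(mt t)) - y * W ≤
      ff A (Yt a t q / √(mt t) - ‖a 0 - q‖ ^ 2) (‖a 0 - q‖ ^ 2) := by
  have hm : 0 < √(mt t) := Real.sqrt_pos.2 mt_pos
  obtain ⟨t1, t2, t3⟩ := ht
  have ht3 : (0 : ℝ) < 1 - t.1 - t.2 := by linarith
  have hm1 : √(mt t) ≤ 1 := by
    apply Real.sqrt_le_iff.2
    refine ⟨zero_le_one, ?_⟩
    have q1 := mul_pos t1 t2
    have q2 := mul_pos t1 ht3
    have q3 := mul_pos t2 ht3
    unfold Helper33.MEI.mt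
    linarith
  have x1 : G / √(mt t) - (1 - (1 - D) / √(mt t)) * ‖a 0 - q‖ ^ 2 ≤
      Yt a t q / √(mt t) - ‖a 0 - q‖ ^ 2 := by
    have e : G / √(mt t) - (1 - (1 - D) / √(mt t)) * ‖a 0 - q‖ ^ 2 =
        (G + (1 - D) * ‖a 0 - q‖ ^ 2) / √(mt t) - ‖a 0 - q‖ ^ 2 := by
      rw [add_div]
      ring
    rw [e]
    have := div_le_div_of_nonneg_right hG hm.le
    linarith
  have hT3 : ∀ k, 0 ≤ T3 t k := fun k => by
    fin_cases k
    · exact t1.le
    · exact t2.le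
    · exact ht3.le
  have p0 := mul_nonneg (hT3 0) (hV0 0)
  have p1 := mul_nonneg (hT3 1) (hV0 1)
  have p2 := mul_nonneg (hT3 2) (hV0 2)
  have g1 := gv_le h (k := 1) (by decide) hq h1
  have g2 := gv_le h (k := 2) (by decide) hq h2
  have g3 := gv_le h (k := 3) (by decide) hq h3
  have k1 := mul_le_mul_of_nonneg_left g1 (hT3 0)
  have k2 := mul_le_mul_of_nonneg_left g2 (hT3 1)
  have k3 := mul_le_mul_of_nonneg_left g3 (hT3 2)
  have r1 := mul_le_mul_of_nonneg_left (le_pp (‖a 0 - q‖ ^ 2 - V 0)) (hT3 0)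
  have r2 := mul_le_mul_of_nonneg_left (le_pp (‖a 0 - q‖ ^ 2 - V 1)) (hT3 1)
  have r3 := mul_le_mul_of_nonneg_left (le_pp (‖a 0 - q‖ ^ 2 - V 2)) (hT3 2)
  obtain ⟨w, hwd⟩ : ∃ w, w = ‖a 0 - q‖ ^ 2 := ⟨_, rfl⟩
  have hw0 : 0 ≤ w := by
    rw [hwd]
    exact sq_nonneg _
  have hT : T3 t 0 + T3 t 1 + T3 t 2 = 1 := by
    show t.1 + t.2 + (1 - t.1 - t.2) = 1
    ring
  unfold gv at k1 k2 k3
  rw [← hwd] at hwW x1 k1 k2 k3 r1 r2 r3 ⊢
  obtain ⟨x, hx⟩ : ∃ x, x = w / W := ⟨_, rfl⟩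
  have hxw : w = x * W := by
    rw [hx]
    field_simp
  have hx0 : 0 ≤ x := by
    rw [hx]
    positivity
  have hx1 : x ≤ 1 := by
    rw [hx, div_le_one hW0]
    exact hwW
  have hY : w - (T3 t 0 * V 0 + T3 t 1 * V 1 + T3 t 2 * V 2) ≤ Yt a t q := by
    unfold Yt
    have e : (T3 t 0 + T3 t 1 + T3 t 2) * w = w := by rw [hT, one_mul]
    nlinarith
  have hst : -((T3 t 0 * V 0 + T3 t 1 * V 1 + T3 t 2 * V 2) / √(mt t) * 1) ≤
      Yt a t q / √(mt t) - w := by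
    have e : Yt a t q / √(mt t) - w = (Yt a t q - √(mt t) * w) / √(mt t) := by
      field_simp
    rw [e, mul_one, ← neg_div]
    apply div_le_div_of_nonneg_right _ hm.le
    have := mul_le_mul_of_nonneg_right hm1 hw0
    linarith
  have d : 0 < 1 - W / 2 := by linarith
  have he : 0 ≤ A * ((T3 t 0 * V 0 + T3 t 1 * V 1 + T3 t 2 * V 2) / √(mt t)) /
      (2 * (1 - W / 2)) := by
    have hCn : 0 ≤ T3 t 0 * V 0 + T3 t 1 * V 1 + T3 t 2 * V 2 := by linarith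
    positivity
  have k5 := mul_le_mul_of_nonneg_right hy hx0
  have k6 := mul_le_mul_of_nonneg_left hx1 hy0
  have k7 := mul_nonneg he hx0
  refine ff_noG (θ := 1) hA hx0 hx1 hxw hW0.le hW2 x1 hst ?_ ?_
  · rw [mul_one]
    nlinarith
  · nlinarith

/-- **FROM THE RANGE TO THE COST**: for every direction either an end `W` of the range (rule R6)
or `W ≥ 1 + S_0`; the loss `y W` bounds `T x + e x (1 - x)` (`HB`), `T`, `e` increasing in the
mass deficit and in the levels. No hypothesis on `G`. -/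
theorem wcost_R6 {a : Fin 4 → E3} {σ : Measure (E3 × E3)} {K : Set E3} {S : Fin 4 → ℝ}
    {c : Fin 4 → E3} [IsFiniteMeasure σ] (h : CN K σ a c) (v : Viol K a S)
    (τ : Equiv.Perm (Fin 4)) {A Sm c0 c1 : ℝ} (hA : 0 ≤ A) (hC : IsC Sm c0 c1)
    (hSm : ∀ k, S k ≤ Sm) (hc0 : 0 ≤ c0) (hc1 : 0 ≤ c1) {G D ω : ℝ × ℝ → ℝ} {C2 : ℝ}
    (hω : AEStronglyMeasurable ω (volume.restrict Dl)) (hωC : ∀ t ∈ Dl, |ω t| ≤ C2)
    (hR : ∀ t ∈ Dl, ∃ W y μ : ℝ, 0 < W ∧ W < 2 ∧ y * W ≤ ω t ∧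
      ((0 < μ ∧ (∀ k, μ ≤ T3 t k) ∧ c1 * (19 / 16 + 1.0898 * √W + W) < c0 ∧
        √(mt t) * own (S (τ 0)) t +
            (T3 t 0 * S (τ 1) + T3 t 1 * S (τ 2) + T3 t 2 * S (τ 3)) ≤
          (1 - √(mt t)) * W + 2 * μ * ((c0 - c1 * W) * √W) ∧
        HB (A * (1 - (1 - D t) / √(mt t)) + 0.127 / (1 - W / 2))
          (A * ((T3 t 0 * S (τ 1) + T3 t 1 * S (τ 2) + T3 t 2 * S (τ 3)) / √(mt t)) /
            (2 * (1 - W / 2))) y) ∨
      (1 + S (τ 0) ≤ W ∧ 0 ≤ y ∧ A * (1 - (1 - D t) / √(mt t)) + 0.127 / (1 - W / 2) +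
          A * ((T3 t 0 * S (τ 1) + T3 t 1 * S (τ 2) + T3 t 2 * S (τ 3)) / √(mt t)) /
            (2 * (1 - W / 2)) ≤ y))) :
    WCost a K τ A G D ((√2)⁻¹ * ∫ t in Dl, ω t * M3 t) := by
  have h' := h.perm τ
  have v' := viol_perm v τ
  have hgr := gram_of_dist h'.ha
  refine ⟨ω, own (S (τ 0)), C2, hω, hωC, fun t ht => own_nonneg (v.nn _) ht, ?_, ?_, le_rfl⟩
  · intro p hp htx
    have hpl := h'.hp p hp
    have hB : 0 < 1 - bar (fun i => a (τ i)) 0 p := by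
      have h1 := (pl_iff hgr).1 hpl 0 1 (by decide)
      have h2 := (pl_iff hgr).1 hpl 0 2 (by decide)
      have h3 := (pl_iff hgr).1 hpl 0 3 (by decide)
      have hs := bar_sum hgr p
      have h4 : 0 ≤ 1 - bar (fun i => a (τ i)) 0 p := by linarith
      rcases h4.lt_or_eq with h5 | h5
      · exact h5
      · exfalso
        have h6 : (tx (fun i => a (τ i)) p).1 = 0 := by
          unfold tx
          simp only
          rw [← h5, div_zero]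
        have := htx.1
        rw [h6] at this
        exact lt_irrefl _ this
    exact own_le hgr hpl hB (v'.le 0 p hp)
  · intro t ht q hq hX hG
    obtain ⟨W, y, μ, hW0, hW2, hyW, hcase⟩ := hR t ht
    have hQ := v'.le
    have hw : ‖a (τ 0) - q‖ ^ 2 ≤ 19 / 16 := by
      have h1 := h.ap hq (τ 0)
      unfold Qv at h1
      rw [norm_sub_rev]
      linarith
    have key : A * (G t / √(mt t)) - y * W ≤
        ff A (Yt (fun i => a (τ i)) t q / √(mt t) - ‖a (τ 0) - q‖ ^ 2)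
          (‖a (τ 0) - q‖ ^ 2) := by
      rcases hcase with ⟨hμ, hM, hcW, ends, hy⟩ | ⟨hW1, hy0, hy⟩
      · exact loss_R6 (a := fun i => a (τ i)) hgr hA hC hc0 hc1 ht (h'.hp q hq) hw
          (V := fun k => S (τ k.succ)) (fun k => v.nn _) (fun k => hSm _) hμ hM
          (hQ 1 q hq) (hQ 2 q hq) (hQ 3 q hq) (own_nonneg (v.nn _) ht) hX hG hW0 hW2 hcW ends hy
      · exact loss_tip (a := fun i => a (τ i)) hgr hA ht (h'.hp q hq)
          (V := fun k => S (τ k.succ)) (fun k => v.nn _) (hQ 1 q hq) (hQ 2 q hq) (hQ 3 q hq)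
          hG (by
            have h1 := hQ 0 q hq
            unfold Qv at h1
            rw [norm_sub_rev]
            show ‖q - a (τ 0)‖ ^ 2 ≤ W
            have h2 : ‖q - a (τ 0)‖ ^ 2 - 1 ≤ S (τ 0) := h1
            linarith) hW0 hW2 hy hy0
    linarith

end Helper78.MEI
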